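import Mathlib

/-!
# The `N^{5/3}` law for bosonic Coulomb matter: definitions
-/

set_option autoImplicit false

noncomputable section

namespace Pool.Agent.H5R2.NL

open MeasureTheory Metric
open scoped ENNReal

/-! ### Definitions used in the final statement -/

/-- Physical space `ℝ³`. -/
abbrev E3 : Type := EuclideanSpace ℝ (Fin 3)

/-- `|∇u(y)|²`, the sum over the three coordinates of `|∂_c u(y)|²`. -/
def gsq (u : E3 → ℂ) (y : E3) : ℝ :=
  ∑ c : Fin 3, ‖fderiv ℝ u y (EuclideanSpace.single c (1 : ℝ))‖ ^ 2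

/-- `|∇_i ψ(x)|²`: the gradient is taken with respect to the position of the `i`-th particle. -/
def gradSq {ι : Type} [DecidableEq ι] (ψ : (ι → E3) → ℂ) (i : ι) (x : ι → E3) : ℝ :=
  gsq (fun y => ψ (Function.update x i y)) (x i)

/-- The Coulomb energy of particles of charge `-1` at the points `x i` and of charge `z` at the
points `R j`. In Lean `1 / 0 = 0`, so the diagonal terms of the double sums vanish. -/
def coul {ι κ : Type} [Fintype ι] [Fintype κ] (z : ℝ) (x : ι → E3) (R : κ → E3) : ℝ :=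
  1 / 2 * ∑ i, ∑ j, 1 / ‖x i - x j‖ - z * ∑ i, ∑ j, 1 / ‖x i - R j‖
    + z ^ 2 / 2 * ∑ i, ∑ j, 1 / ‖R i - R j‖

/-- Smooth, compactly supported, normalised wave functions of `N` particles. -/
structure IsState {N : ℕ} (ψ : (Fin N → E3) → ℂ) : Prop where
  smooth : ContDiff ℝ ((⊤ : ℕ∞) : WithTop ℕ∞) ψ
  compact : HasCompactSupport ψ
  normalized : ∫ x, ‖ψ x‖ ^ 2 = 1

/-- The kinetic energy. -/
def kin {N : ℕ} (ψ : (Fin N → E3) → ℂ) : ℝ := ∫ x, ∑ i, gradSq ψ i x

/-- The quadratic form of the Hamiltonian. -/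
def form {N K : ℕ} (z : ℝ) (R : Fin K → E3) (ψ : (Fin N → E3) → ℂ) : ℝ :=
  kin ψ + (∫ x, coul z x R * ‖ψ x‖ ^ 2)

/-- All energies of states, for all positions of the `K` static particles. -/
def energies (z : ℝ) (K N : ℕ) : Set ℝ :=
  {e | ∃ R : Fin K → E3, Function.Injective R ∧ ∃ ψ : (Fin N → E3) → ℂ, IsState ψ ∧
    form z R ψ = e}

/-- The ground state energy. -/
def E0 (z : ℝ) (K N : ℕ) : ℝ := sInf (energies z K N)

/-! ### Auxiliary definitions -/

/-- Indicator of the ball with centre `w` and radius `r`. -/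
def inB (w : E3) (r : ℝ) (x : E3) : ℝ := if ‖x - w‖ < r then 1 else 0

/-- The number of the points `x i` in the ball. -/
def nB {ι : Type} [Fintype ι] (w : E3) (r : ℝ) (x : ι → E3) : ℝ := ∑ i, inB w r (x i)

/-- The Coulomb energy of the charges in the ball. -/
def coulB {ι κ : Type} [Fintype ι] [Fintype κ] (z : ℝ) (x : ι → E3) (R : κ → E3) (w : E3)
    (r : ℝ) : ℝ :=
  1 / 2 * ∑ i, ∑ j, inB w r (x i) * inB w r (x j) / ‖x i - x j‖
    - z * ∑ i, ∑ j, inB w r (x i) * inB w r (R j) / ‖x i - R j‖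
    + z ^ 2 / 2 * ∑ i, ∑ j, inB w r (R i) * inB w r (R j) / ‖R i - R j‖

/-- The measure on the balls `b = (r, w)` of radius at most `ℓ`. -/
def bm (ℓ : ℝ) : Measure (ℝ × E3) :=
  ((volume.restrict (Set.Ioc (0 : ℝ) ℓ)).prod (volume : Measure E3)).withDensity
    fun b => ENNReal.ofReal (3 / (2 * Real.pi * ℓ ^ 2) / b.1 ^ 2)

/-- The complementary measure on the balls. -/
def fm (ℓ : ℝ) : Measure (ℝ × E3) :=
  ((volume.restrict (Set.Ioi (0 : ℝ))).prod (volume : Measure E3)).withDensity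
    fun b => ENNReal.ofReal (if b.1 ≤ ℓ then 1 / (4 * Real.pi * ℓ ^ 3) / b.1 ^ 2
      else 1 / Real.pi / b.1 ^ 5)

/-- The overlap function `(1 - t/(2ℓ))_+^3`. -/
def hker (ℓ t : ℝ) : ℝ := (max 0 (1 - t / (2 * ℓ))) ^ 3

/-- `(1 - hker)/t`, continuous at `0`. -/
def Fk (ℓ t : ℝ) : ℝ := if t = 0 then 3 / (2 * ℓ) else (1 - hker ℓ t) / t

instance bm_sigmaFinite (ℓ : ℝ) : SigmaFinite (bm ℓ) := by
  unfold bm
  exact SigmaFinite.withDensity_ofReal _

instance fm_sigmaFinite (ℓ : ℝ) : SigmaFinite (fm ℓ) := by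
  unfold fm
  exact SigmaFinite.withDensity_ofReal _

/-- The static particles in the ball form a finite type. -/
instance fintypeIn {K : ℕ} (R : Fin K → E3) (w : E3) (r : ℝ) :
    Fintype {j : Fin K // R j ∈ ball w r} := Fintype.ofFinite _

/-- Product of balls. -/
def PB (ι : Type) (w : E3) (r : ℝ) : Set (ι → E3) := Set.pi Set.univ fun _ => ball w r

/-- The energy of the charges `z` at the points `R j` in the uniform background of total charge
`-n` in the ball. -/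
def Wj {κ : Type} [Fintype κ] (z n : ℝ) (R : κ → E3) (w : E3) (r : ℝ) : ℝ :=
  z ^ 2 / 2 * ∑ i, ∑ j, 1 / ‖R i - R j‖
    - z * n / volume.real (ball w r) * (∑ j, ∫ x in ball w r, 1 / ‖x - R j‖)
    + n ^ 2 / (2 * volume.real (ball w r) ^ 2) *
      (∫ x in ball w r, ∫ y in ball w r, 1 / ‖x - y‖)

/-- The number of ordered pairs of different points of `x` at distance less than `s`. -/
def prs {ι : Type} [Fintype ι] [DecidableEq ι] (s : ℝ) (x : ι → E3) : ℝ :=
  ∑ i, ∑ j, if i ≠ j ∧ ‖x i - x j‖ < s then 1 else 0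

/-- The number of ordered pairs of different points of `x` in the ball at distance less
than `s`. -/
def prsB {ι : Type} [Fintype ι] [DecidableEq ι] (w : E3) (r s : ℝ) (x : ι → E3) : ℝ :=
  ∑ i, ∑ j, if i ≠ j ∧ ‖x i - x j‖ < s then inB w r (x i) * inB w r (x j) else 0

/-- The Sobolev-type constant `sup (∫|u|^{8/3})² / (∫|∇u|²)` over `∫|u|² = 1`. -/
def Gam : ℝ := sSup {q | ∃ u : E3 → ℂ, ContDiff ℝ ((⊤ : ℕ∞) : WithTop ℕ∞) u ∧
  HasCompactSupport u ∧ ∫ x, ‖u x‖ ^ 2 = 1 ∧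
  q = (∫ x, ‖u x‖ ^ (8 / 3 : ℝ)) ^ 2 / (∫ x, gsq u x)}

/-- Glue the positions `y` of the particles in `S` and the positions `x'` of the others. -/
def glue {N : ℕ} (S : Finset (Fin N)) (y : ↥S → E3) (x' : Fin N → E3) : Fin N → E3 :=
  fun i => if h : i ∈ S then y ⟨i, h⟩ else x' i

/-- A random point configuration of intensity `I`: at most `M` points; the point `X ω i` is present
if `a ω i = 1` and absent if `a ω i = 0`. -/
structure Law (I : E3 → ℝ) where
  Ω : Type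
  mΩ : MeasurableSpace Ω
  P : Measure Ω
  prob : IsProbabilityMeasure P
  M : ℕ
  X : Ω → Fin M → E3
  a : Ω → Fin M → ℝ
  hX : Measurable X
  ha : Measurable a
  ha01 : ∀ ω i, a ω i = 0 ∨ a ω i = 1
  distinct : ∀ᵐ ω ∂P, ∀ i j, i ≠ j → a ω i = 1 → a ω j = 1 → X ω i ≠ X ω j
  intensity : ∀ f : E3 → ℝ≥0∞, Measurable f →
    ∫⁻ ω, ∑ i, ENNReal.ofReal (a ω i) * f (X ω i) ∂P = ∫⁻ x, ENNReal.ofReal (I x) * f x
  integ : Integrable (fun ω => ∑ i, ∑ j, a ω i * a ω j / ‖X ω i - X ω j‖) P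

namespace Law

/-- The excess Coulomb energy of the law. -/
def en {I : E3 → ℝ} (l : Law I) : ℝ :=
  letI := l.mΩ
  1 / 2 * (∫ ω, ∑ i, ∑ j, l.a ω i * l.a ω j / ‖l.X ω i - l.X ω j‖ ∂l.P)
    - 1 / 2 * (∫ x, ∫ y, I x * I y / ‖x - y‖)

/-- The variance of the number of points. -/
def var {I : E3 → ℝ} (l : Law I) : ℝ :=
  letI := l.mΩ
  ∫ ω, (∑ i, l.a ω i - (∫ x, I x)) ^ 2 ∂l.P

end Law

/-- There is a law of intensity `I` with excess energy at most `e` and variance at most `v`. -/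
def HasLaw (I : E3 → ℝ) (e v : ℝ) : Prop := ∃ l : Law I, l.en ≤ e ∧ l.var ≤ v

/-- Bounded integrable nonnegative measurable functions. -/
structure Nice (I : E3 → ℝ) : Prop where
  meas : Measurable I
  nonneg : ∀ x, 0 ≤ I x
  bdd : ∃ B, ∀ x, I x ≤ B
  int : Integrable I

/-- `ν` times the indicator of the cube with corner `c` and side `b`. -/
def cubeI (c : E3) (b ν : ℝ) : E3 → ℝ :=
  Set.indicator {x : E3 | ∀ i, c i ≤ x i ∧ x i < c i + b} fun _ => ν

/-- `ν` times the indicator of the ball. -/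
def ballI (c : E3) (ρ ν : ℝ) : E3 → ℝ := Set.indicator (ball c ρ) fun _ => ν

/-- The jellium constant. -/
def cstar : ℝ := sSup {s | ∃ b : ℝ, 0 < b ∧ ∃ v, HasLaw (cubeI 0 b 1) (-(s * b ^ 3)) v}

/-- Energy of the unit charges `R j` in the background `K g`. -/
def Jb {κ : Type} [Fintype κ] (K : ℝ) (g : E3 → ℝ) (R : κ → E3) : ℝ :=
  1 / 2 * ∑ i, ∑ j, 1 / ‖R i - R j‖ - K * (∑ j, ∫ x, g x / ‖x - R j‖)
    + K ^ 2 / 2 * (∫ x, ∫ y, g x * g y / ‖x - y‖)

end Pool.Agent.H5R2.NL
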