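import Mathlib
import Pool.Agent.H5R2.NL.Defs

/-!
# Poincaré inequality on a ball
-/

set_option autoImplicit false

noncomputable section

namespace Pool.Agent.H5R2.NL

open MeasureTheory Metric Set
open scoped ENNReal

theorem pba_norm_fderiv_apply (u : E3 → ℂ) (p v : E3) :
    ‖fderiv ℝ u p v‖ ^ 2 ≤ ‖v‖ ^ 2 * gsq u p := by
  have hv : v = ∑ c : Fin 3, v c • EuclideanSpace.single c (1 : ℝ) := by
    ext i
    fin_cases i <;> simp [Fin.sum_univ_three]
  have h1 : fderiv ℝ u p v =
      ∑ c : Fin 3, v c • fderiv ℝ u p (EuclideanSpace.single c (1 : ℝ)) := by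
    conv_lhs => rw [hv]
    rw [map_sum]
    simp only [map_smul]
  have h2 : ‖fderiv ℝ u p v‖ ≤
      ∑ c : Fin 3, |v c| * ‖fderiv ℝ u p (EuclideanSpace.single c (1 : ℝ))‖ := by
    rw [h1]
    refine (norm_sum_le _ _).trans (le_of_eq ?_)
    simp only [norm_smul, Real.norm_eq_abs]
  have h3 := Finset.sum_mul_sq_le_sq_mul_sq Finset.univ (fun c : Fin 3 => |v c|)
    (fun c : Fin 3 => ‖fderiv ℝ u p (EuclideanSpace.single c (1 : ℝ))‖)
  have h4 : ‖v‖ ^ 2 = ∑ c : Fin 3, |v c| ^ 2 := by
    rw [EuclideanSpace.norm_sq_eq]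
    simp only [Real.norm_eq_abs]
  rw [h4]
  unfold gsq
  refine le_trans ?_ h3
  exact pow_le_pow_left₀ (norm_nonneg _) h2 2

theorem pba_gsq_nonneg (u : E3 → ℂ) (p : E3) : 0 ≤ gsq u p :=
  Finset.sum_nonneg fun _ _ => by positivity

theorem pba_continuous_gsq {u : E3 → ℂ} (hu : ContDiff ℝ 1 u) : Continuous (gsq u) := by
  unfold gsq
  have h : Continuous (fderiv ℝ u) := hu.continuous_fderiv (by norm_num)
  refine continuous_finsetSum _ fun c _ => ?_
  exact ((h.clm_apply continuous_const).norm).pow 2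

/-- Jensen -/
theorem pba_jensen {α : Type*} [MeasurableSpace α] (μ : Measure α) [IsProbabilityMeasure μ]
    (g : α → ℂ) (hg : Integrable g μ) (hg2 : Integrable (fun x => ‖g x‖ ^ 2) μ) :
    ‖∫ x, g x ∂μ‖ ^ 2 ≤ ∫ x, ‖g x‖ ^ 2 ∂μ := by
  have hc : ConvexOn ℝ univ (fun z : ℂ => ‖z‖ ^ 2) :=
    (convexOn_norm convex_univ).pow (fun _ _ => norm_nonneg _) 2
  exact hc.map_integral_le (by fun_prop) isClosed_univ (by simp) hg hg2

theorem pba_pointwise {u : E3 → ℂ} (hu : ContDiff ℝ 1 u) (x y : E3) :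
    ‖u y - u x‖ ^ 2 ≤ ‖y - x‖ ^ 2 * ∫ t in Ioc (0 : ℝ) 1, gsq u (x + t • (y - x)) := by
  have hd : ∀ t : ℝ, HasDerivAt (fun t : ℝ => u (x + t • (y - x)))
      (fderiv ℝ u (x + t • (y - x)) (y - x)) t := by
    intro t
    have h1 : HasDerivAt (fun t : ℝ => x + t • (y - x)) (y - x) t := by
      simpa using ((hasDerivAt_id t).smul_const (y - x)).const_add x
    exact ((hu.differentiable (by norm_num)) _).hasFDerivAt.comp_hasDerivAt t h1
  have hcf : Continuous fun t : ℝ => fderiv ℝ u (x + t • (y - x)) (y - x) := by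
    have h : Continuous (fderiv ℝ u) := hu.continuous_fderiv (by norm_num)
    exact (h.comp (by fun_prop)).clm_apply continuous_const
  have hcg : Continuous fun t : ℝ => gsq u (x + t • (y - x)) :=
    (pba_continuous_gsq hu).comp (by fun_prop)
  have h1 := intervalIntegral.integral_eq_sub_of_hasDerivAt (a := 0) (b := 1)
    (f := fun t : ℝ => u (x + t • (y - x))) (fun t _ => hd t) (hcf.intervalIntegrable 0 1)
  simp only [one_smul, zero_smul, add_zero, add_sub_cancel] at h1
  rw [intervalIntegral.integral_of_le zero_le_one] at h1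
  have : IsProbabilityMeasure ((volume : Measure ℝ).restrict (Ioc 0 1)) := ⟨by simp⟩
  have hint : ∀ {F : Type} [NormedAddCommGroup F] (φ : ℝ → F), Continuous φ →
      IntegrableOn φ (Ioc (0 : ℝ) 1) := fun φ hφ =>
    (hφ.continuousOn.integrableOn_compact (isCompact_Icc (a := (0 : ℝ)) (b := 1))).mono_set
      Ioc_subset_Icc_self
  have h2 := pba_jensen ((volume : Measure ℝ).restrict (Ioc 0 1))
    (fun t : ℝ => fderiv ℝ u (x + t • (y - x)) (y - x)) (hint _ hcf)
    (hint _ (by fun_prop))
  rw [h1] at h2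
  refine h2.trans ?_
  rw [← integral_const_mul]
  refine integral_mono (hint _ (by fun_prop)) (hint _ (by fun_prop)) fun t => ?_
  exact pba_norm_fderiv_apply u _ _

/-- change of variables -/
theorem pba_cv (h : E3 → ℝ≥0∞) (hh : Measurable h) {s : ℝ} (hs : 1 / 2 ≤ s) (v : E3) :
    ∫⁻ x, h (s • x + v) ≤ 8 * ∫⁻ x, h x := by
  have hs0 : 0 < s := by linarith
  have h1 : ∫⁻ x, h (s • x + v) =
      ∫⁻ p, h (p + v) ∂(Measure.map (fun x : E3 => s • x) volume) := by
    rw [lintegral_map (by fun_prop) (by fun_prop)]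
  rw [h1, Measure.map_addHaar_smul _ hs0.ne', lintegral_smul_measure,
    lintegral_add_right_eq_self (fun p => h p) v, smul_eq_mul]
  gcongr
  have h2 : Module.finrank ℝ E3 = 3 := by simp
  rw [h2, show (8 : ℝ≥0∞) = ENNReal.ofReal 8 by simp]
  apply ENNReal.ofReal_le_ofReal
  rw [abs_of_pos (by positivity), inv_le_comm₀ (by positivity) (by norm_num)]
  have h3 : (1 / 2 : ℝ) ^ 3 ≤ s ^ 3 := pow_le_pow_left₀ (by norm_num) hs 3
  calc (8 : ℝ)⁻¹ = (1 / 2) ^ 3 := by norm_num
    _ ≤ _ := h3

theorem pba_K (h : E3 → ℝ≥0∞) (hh : Measurable h) (B : Set E3) {t : ℝ} :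
    ∫⁻ x in B, ∫⁻ y in B, h (x + t • (y - x)) ≤ 8 * volume B * ∫⁻ x, h x := by
  rcases le_total t (1 / 2) with ht | ht
  · rw [lintegral_lintegral_swap (by
      apply Measurable.aemeasurable
      fun_prop)]
    calc ∫⁻ y in B, ∫⁻ x in B, h (x + t • (y - x)) ≤ ∫⁻ y in B, 8 * ∫⁻ x, h x := by
          apply lintegral_mono
          intro y
          refine (setLIntegral_le_lintegral _ _).trans ?_
          refine le_trans (le_of_eq ?_) (pba_cv h hh (s := 1 - t) (by linarith) (t • y))
          congr 1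
          ext x
          congr 1
          module
      _ = 8 * volume B * ∫⁻ x, h x := by
          rw [lintegral_const, Measure.restrict_apply_univ]; ring
  · calc ∫⁻ x in B, ∫⁻ y in B, h (x + t • (y - x)) ≤ ∫⁻ x in B, 8 * ∫⁻ x, h x := by
          apply lintegral_mono
          intro x
          refine (setLIntegral_le_lintegral _ _).trans ?_
          refine le_trans (le_of_eq ?_) (pba_cv h hh (s := t) (by linarith) ((1 - t) • x))
          congr 1
          ext y
          congr 1
          module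
      _ = 8 * volume B * ∫⁻ x, h x := by
          rw [lintegral_const, Measure.restrict_apply_univ]; ring

theorem pba_integrableOn {F : Type} [NormedAddCommGroup F] {φ : E3 → F} (hφ : Continuous φ)
    (w : E3) (r : ℝ) : IntegrableOn φ (ball w r) :=
  (hφ.continuousOn.integrableOn_compact (isCompact_closedBall w r)).mono_set ball_subset_closedBall

theorem poincare_ball : ∃ C : ℝ, 0 < C ∧ ∀ (w : E3) (r : ℝ) (u : E3 → ℂ), 0 < r →
    ContDiff ℝ 1 u → ∫ x in ball w r, ‖u x - ⨍ y in ball w r, u y‖ ^ 2 ≤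
      C * r ^ 2 * ∫ x in ball w r, gsq u x := by
  refine ⟨32, by norm_num, ?_⟩
  intro w r u hr hu
  obtain ⟨m, hm⟩ : ∃ m, m = ⨍ y in ball w r, u y := ⟨_, rfl⟩
  rw [← hm]
  have hcu : Continuous u := hu.continuous
  have hcG := pba_continuous_gsq hu
  have hV0 : volume (ball w r) ≠ 0 := (measure_ball_pos volume w hr).ne'
  have hVt : volume (ball w r) ≠ ⊤ := measure_ball_lt_top.ne
  -- the probability measure
  obtain ⟨ν, hν⟩ : ∃ ν : Measure E3, ν = (volume (ball w r))⁻¹ • volume.restrict (ball w r) :=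
    ⟨_, rfl⟩
  have hνp : IsProbabilityMeasure ν := by
    refine ⟨?_⟩
    rw [hν, Measure.smul_apply, Measure.restrict_apply_univ, smul_eq_mul]
    exact ENNReal.inv_mul_cancel hV0 hVt
  have hmν : m = ∫ y, u y ∂ν := by
    rw [hm, setAverage_eq', hν]
  have hintν : ∀ {F : Type} [NormedAddCommGroup F] (φ : E3 → F), Continuous φ → Integrable φ ν := by
    intro F _ φ hφ
    rw [hν]
    exact (pba_integrableOn hφ w r).integrable.smul_measure (by simpa using hV0)
  -- the function h
  obtain ⟨h, hh⟩ : ∃ h : E3 → ℝ≥0∞, h = (ball w r).indicator fun p => ENNReal.ofReal (gsq u p) :=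
    ⟨_, rfl⟩
  have hhm : Measurable h := by
    rw [hh]
    exact (hcG.measurable.ennreal_ofReal).indicator measurableSet_ball
  have hpt : ∀ x ∈ ball w r, ∀ y ∈ ball w r, ENNReal.ofReal (‖u x - u y‖ ^ 2) ≤
      ENNReal.ofReal (4 * r ^ 2) * ∫⁻ t in Ioc (0 : ℝ) 1, h (x + t • (y - x)) := by
    intro x hx y hy
    have h1 := pba_pointwise hu x y
    have hcg : Continuous fun t : ℝ => gsq u (x + t • (y - x)) := hcG.comp (by fun_prop)
    have hint : IntegrableOn (fun t : ℝ => gsq u (x + t • (y - x))) (Ioc (0 : ℝ) 1) :=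
      (hcg.continuousOn.integrableOn_compact (isCompact_Icc (a := (0 : ℝ)) (b := 1))).mono_set
        Ioc_subset_Icc_self
    have h2 : ENNReal.ofReal (∫ t in Ioc (0 : ℝ) 1, gsq u (x + t • (y - x))) =
        ∫⁻ t in Ioc (0 : ℝ) 1, h (x + t • (y - x)) := by
      rw [ofReal_integral_eq_lintegral_ofReal hint
        (Filter.Eventually.of_forall fun t => pba_gsq_nonneg u _)]
      refine setLIntegral_congr_fun measurableSet_Ioc fun t ht => ?_
      have hmem : x + t • (y - x) ∈ ball w r :=
        (convex_ball w r).add_smul_sub_mem hx hy ⟨ht.1.le, ht.2⟩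
      rw [hh, indicator_of_mem hmem]
    rw [← h2, ← ENNReal.ofReal_mul (by positivity)]
    apply ENNReal.ofReal_le_ofReal
    rw [norm_sub_rev]
    refine h1.trans ?_
    apply mul_le_mul_of_nonneg_right _ (integral_nonneg fun t => pba_gsq_nonneg u _)
    have h3 : ‖y - x‖ ≤ 2 * r := by
      rw [mem_ball, dist_eq_norm] at hx hy
      calc ‖y - x‖ = ‖(y - w) - (x - w)‖ := by congr 1; abel
        _ ≤ ‖y - w‖ + ‖x - w‖ := norm_sub_le _ _
        _ ≤ 2 * r := by linarith
    calc ‖y - x‖ ^ 2 ≤ (2 * r) ^ 2 := pow_le_pow_left₀ (norm_nonneg _) h3 2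
      _ = 4 * r ^ 2 := by ring
  -- Jensen
  have hJ : ∀ x, ENNReal.ofReal (‖u x - m‖ ^ 2) ≤
      (volume (ball w r))⁻¹ * ∫⁻ y in ball w r, ENNReal.ofReal (‖u x - u y‖ ^ 2) := by
    intro x
    have h1 : u x - m = ∫ y, (u x - u y) ∂ν := by
      rw [integral_sub (integrable_const _) (hintν u hcu), hmν]
      simp
    have h2 := pba_jensen ν (fun y => u x - u y) (hintν _ (by fun_prop)) (hintν _ (by fun_prop))
    rw [← h1] at h2
    refine (ENNReal.ofReal_le_ofReal h2).trans (le_of_eq ?_)
    rw [ofReal_integral_eq_lintegral_ofReal (hintν _ (by fun_prop))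
      (Filter.Eventually.of_forall fun y => by positivity), hν, lintegral_smul_measure, smul_eq_mul]
  have hmain : ∫⁻ x in ball w r, ENNReal.ofReal (‖u x - m‖ ^ 2) ≤
      ENNReal.ofReal (32 * r ^ 2) * ∫⁻ x in ball w r, ENNReal.ofReal (gsq u x) := by
    have hB := @measurableSet_ball E3 _ _ _ w r
    have e1 : ∫⁻ x in ball w r, ENNReal.ofReal (gsq u x) = ∫⁻ x, h x := by
      rw [hh, lintegral_indicator measurableSet_ball]
    rw [e1]
    calc ∫⁻ x in ball w r, ENNReal.ofReal (‖u x - m‖ ^ 2)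
        ≤ ∫⁻ x in ball w r, (volume (ball w r))⁻¹ *
            ∫⁻ y in ball w r, ENNReal.ofReal (‖u x - u y‖ ^ 2) := lintegral_mono fun x => hJ x
      _ ≤ ∫⁻ x in ball w r, (volume (ball w r))⁻¹ *
            ∫⁻ y in ball w r, (ENNReal.ofReal (4 * r ^ 2) *
              ∫⁻ t in Ioc (0 : ℝ) 1, h (x + t • (y - x))) := by
          apply setLIntegral_mono' measurableSet_ball
          intro x hx
          refine mul_le_mul' le_rfl ?_
          apply setLIntegral_mono' measurableSet_ball
          intro y hy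
          exact hpt x hx y hy
      _ = (volume (ball w r))⁻¹ * (ENNReal.ofReal (4 * r ^ 2) *
            ∫⁻ x in ball w r, ∫⁻ y in ball w r, ∫⁻ t in Ioc (0 : ℝ) 1, h (x + t • (y - x))) := by
          have hm3 : Measurable fun q : E3 × E3 =>
              ∫⁻ t in Ioc (0 : ℝ) 1, h (q.1 + t • (q.2 - q.1)) := by
            apply Measurable.lintegral_prod_right'
              (f := fun q : (E3 × E3) × ℝ => h (q.1.1 + q.2 • (q.1.2 - q.1.1)))
            fun_prop
          rw [← lintegral_const_mul, ← lintegral_const_mul]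
          · apply lintegral_congr
            intro x
            rw [lintegral_const_mul]
            exact hm3.comp (measurable_const.prodMk measurable_id)
          · exact (Measurable.lintegral_prod_right' (f := fun q : E3 × E3 =>
              ∫⁻ t in Ioc (0 : ℝ) 1, h (q.1 + t • (q.2 - q.1))) hm3).const_mul _
          · exact Measurable.lintegral_prod_right' (f := fun q : E3 × E3 =>
              ∫⁻ t in Ioc (0 : ℝ) 1, h (q.1 + t • (q.2 - q.1))) hm3
      _ = (volume (ball w r))⁻¹ * (ENNReal.ofReal (4 * r ^ 2) *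
            ∫⁻ t in Ioc (0 : ℝ) 1, ∫⁻ x in ball w r, ∫⁻ y in ball w r, h (x + t • (y - x))) := by
          congr 2
          have e2 : ∀ x : E3, ∫⁻ y in ball w r, ∫⁻ t in Ioc (0 : ℝ) 1, h (x + t • (y - x)) =
              ∫⁻ t in Ioc (0 : ℝ) 1, ∫⁻ y in ball w r, h (x + t • (y - x)) := by
            intro x
            apply lintegral_lintegral_swap
            apply Measurable.aemeasurable
            fun_prop
          simp only [e2]
          apply lintegral_lintegral_swap
          apply Measurable.aemeasurable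
          apply Measurable.lintegral_prod_right'
            (f := fun q : (E3 × ℝ) × E3 => h (q.1.1 + q.1.2 • (q.2 - q.1.1)))
          fun_prop
      _ ≤ (volume (ball w r))⁻¹ * (ENNReal.ofReal (4 * r ^ 2) *
            ∫⁻ t in Ioc (0 : ℝ) 1, (8 * volume (ball w r) * ∫⁻ x, h x)) := by
          gcongr with t
          exact pba_K h hhm (ball w r)
      _ = ENNReal.ofReal (32 * r ^ 2) * ∫⁻ x, h x := by
          rw [lintegral_const, Measure.restrict_apply_univ]
          simp only [Real.volume_Ioc, sub_zero, ENNReal.ofReal_one, mul_one]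
          have e3 : ENNReal.ofReal (32 * r ^ 2) = 8 * ENNReal.ofReal (4 * r ^ 2) := by
            rw [show (8 : ℝ≥0∞) = ENNReal.ofReal 8 by simp, ← ENNReal.ofReal_mul (by norm_num)]
            congr 1; ring
          rw [e3]
          calc (volume (ball w r))⁻¹ * (ENNReal.ofReal (4 * r ^ 2) *
                (8 * volume (ball w r) * ∫⁻ x, h x))
              = ((volume (ball w r))⁻¹ * volume (ball w r)) *
                (8 * ENNReal.ofReal (4 * r ^ 2) * ∫⁻ x, h x) := by ring
            _ = _ := by rw [ENNReal.inv_mul_cancel hV0 hVt, one_mul]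
  rw [← ofReal_integral_eq_lintegral_ofReal (pba_integrableOn (by fun_prop) w r)
      (Filter.Eventually.of_forall fun x => by positivity),
    ← ofReal_integral_eq_lintegral_ofReal (pba_integrableOn hcG w r)
      (Filter.Eventually.of_forall fun x => pba_gsq_nonneg u x),
    ← ENNReal.ofReal_mul (by positivity)] at hmain
  have hG0 : 0 ≤ ∫ x in ball w r, gsq u x := integral_nonneg fun x => pba_gsq_nonneg u x
  exact (ENNReal.ofReal_le_ofReal_iff (by positivity)).1 hmain

end Pool.Agent.H5R2.NL
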