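import Mathlib
import Pool.Agent.H5R2.NL.Defs
import Pool.Agent.H5R2.NL.PoinA

/-!
# Cutoff functions and the Hardy inequality
-/

set_option autoImplicit false

noncomputable section

namespace Pool.Agent.H5R2.NL

open MeasureTheory Metric Set Filter Topology
open scoped ENNReal

theorem cutoff : ∃ C : ℝ, 0 < C ∧ ∀ (w : E3) (r : ℝ), 0 < r → ∃ χ : E3 → ℝ,
    ContDiff ℝ ((⊤ : ℕ∞) : WithTop ℕ∞) χ ∧ (∀ x, 0 ≤ χ x) ∧ (∀ x, χ x ≤ 1) ∧
    (∀ x, ‖x - w‖ ≤ r → χ x = 1) ∧ (∀ x, 2 * r ≤ ‖x - w‖ → χ x = 0) ∧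
    ∀ x, ‖fderiv ℝ χ x‖ ≤ C / r := by
  let f : ContDiffBump (0 : E3) := ⟨1, 2, by norm_num, by norm_num⟩
  have hf : ContDiff ℝ ((⊤ : ℕ∞) : WithTop ℕ∞) (f : E3 → ℝ) := f.contDiff
  have hfc : Continuous (fderiv ℝ (f : E3 → ℝ)) := hf.continuous_fderiv (by norm_num)
  have hcs : HasCompactSupport (fderiv ℝ (f : E3 → ℝ)) := f.hasCompactSupport.fderiv ℝ
  obtain ⟨C, hC⟩ := hfc.bounded_above_of_compact_support hcs
  refine ⟨|C| + 1, by positivity, ?_⟩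
  intro w r hr
  have hr0 : r⁻¹ ≠ 0 := by positivity
  refine ⟨fun x => f (r⁻¹ • (x - w)), ?_, fun x => f.nonneg, fun x => f.le_one, ?_, ?_, ?_⟩
  · exact hf.comp (by fun_prop)
  · intro x hx
    apply f.one_of_mem_closedBall
    rw [mem_closedBall, dist_zero_right, norm_smul, norm_inv, Real.norm_eq_abs, abs_of_pos hr]
    change r⁻¹ * ‖x - w‖ ≤ 1
    rw [inv_mul_le_iff₀ hr]; linarith
  · intro x hx
    apply f.zero_of_le_dist
    rw [dist_zero_right, norm_smul, norm_inv, Real.norm_eq_abs, abs_of_pos hr]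
    change 2 ≤ r⁻¹ * ‖x - w‖
    rw [le_inv_mul_iff₀ hr]; linarith
  · intro x
    obtain ⟨F, hF⟩ : ∃ F : E3 → ℝ, F = f := ⟨_, rfl⟩
    rw [← hF] at hf hC ⊢
    have h1 : HasFDerivAt (fun x : E3 => r⁻¹ • (x - w)) (r⁻¹ • ContinuousLinearMap.id ℝ E3) x :=
      ((hasFDerivAt_id x).sub_const w).const_smul r⁻¹
    have h2 : HasFDerivAt F (fderiv ℝ F (r⁻¹ • (x - w))) (r⁻¹ • (x - w)) :=
      (hf.differentiable (by norm_num) _).hasFDerivAt
    have h12 : HasFDerivAt (fun x : E3 => F (r⁻¹ • (x - w)))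
        ((fderiv ℝ F (r⁻¹ • (x - w))).comp (r⁻¹ • ContinuousLinearMap.id ℝ E3)) x :=
      h2.comp x h1
    rw [h12.fderiv]
    refine (ContinuousLinearMap.opNorm_comp_le _ _).trans ?_
    have h3 : ‖r⁻¹ • ContinuousLinearMap.id ℝ E3‖ ≤ r⁻¹ := by
      rw [norm_smul, norm_inv, Real.norm_eq_abs, abs_of_pos hr]
      calc r⁻¹ * ‖ContinuousLinearMap.id ℝ E3‖ ≤ r⁻¹ * 1 := by
            gcongr
            exact ContinuousLinearMap.norm_id_le
        _ = _ := mul_one _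
    calc ‖fderiv ℝ F (r⁻¹ • (x - w))‖ * ‖r⁻¹ • ContinuousLinearMap.id ℝ E3‖
        ≤ (|C| + 1) * r⁻¹ := by
          apply mul_le_mul _ h3 (norm_nonneg _) (by positivity)
          exact (hC _).trans ((le_abs_self C).trans (by linarith))
      _ = _ := by rw [div_eq_mul_inv]

/-- integral of a derivative of a compactly supported function -/
theorem cut_integral_fderiv {g : E3 → ℝ} (hg : ContDiff ℝ 1 g) (hc : HasCompactSupport g)
    (v : E3) : Integrable (fun x => fderiv ℝ g x v) ∧ ∫ x, fderiv ℝ g x v = 0 := by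
  have h1 : Continuous fun x => fderiv ℝ g x v :=
    (hg.continuous_fderiv (by norm_num)).clm_apply continuous_const
  have h2 : Integrable fun x => fderiv ℝ g x v :=
    h1.integrable_of_hasCompactSupport (hc.fderiv_apply ℝ v)
  refine ⟨h2, ?_⟩
  have h3 := integral_mul_fderiv_eq_neg_fderiv_mul_of_integrable (μ := (volume : Measure E3))
    (f := fun _ : E3 => (1 : ℝ)) (g := g) (v := v) (by simp) (by simpa using h2)
    (by simpa using hg.continuous.integrable_of_hasCompactSupport hc)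
    (fun x _ => by fun_prop) (fun x _ => hg.differentiable (by norm_num) x)
  simpa using h3

/-- the regularised Hardy inequality -/
theorem cut_hardy_reg (y : E3) (u : E3 → ℂ) (hu : ContDiff ℝ 1 u) (hc : HasCompactSupport u)
    {ε : ℝ} (hε : 0 < ε) :
    ∫ x, ‖u x‖ ^ 2 * (‖x - y‖ ^ 2 + ε)⁻¹ ≤ 4 * ∫ x, gsq u x := by
  have hpos : ∀ x : E3, 0 < ‖x - y‖ ^ 2 + ε := fun x => by positivity
  have hn : ContDiff ℝ 1 fun x => ‖u x‖ ^ 2 := hu.norm_sq ℝ
  have hnc : HasCompactSupport fun x => ‖u x‖ ^ 2 :=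
    hc.comp_left (g := fun z : ℂ => ‖z‖ ^ 2) (by simp)
  have hb : ContDiff ℝ 1 fun x : E3 => (‖x - y‖ ^ 2 + ε)⁻¹ := by
    have h1 : ContDiff ℝ 1 fun x : E3 => ‖x - y‖ ^ 2 + ε :=
      ((contDiff_id.sub contDiff_const).norm_sq ℝ).add contDiff_const
    exact h1.inv fun x => (hpos x).ne'
  have hg : ∀ c : Fin 3, ContDiff ℝ 1 fun x : E3 =>
      (x c - y c) * (‖x - y‖ ^ 2 + ε)⁻¹ * ‖u x‖ ^ 2 := by
    intro c
    refine ContDiff.mul (ContDiff.mul ?_ hb) hn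
    exact (by fun_prop : ContDiff ℝ 1 fun x : E3 => x c - y c)
  have hgc : ∀ c : Fin 3, HasCompactSupport fun x : E3 =>
      (x c - y c) * (‖x - y‖ ^ 2 + ε)⁻¹ * ‖u x‖ ^ 2 := fun c => hnc.mul_left
  have hI := fun c : Fin 3 => cut_integral_fderiv (hg c) (hgc c) (EuclideanSpace.single c (1 : ℝ))
  -- the derivative
  have hder : ∀ (c : Fin 3) (x : E3), fderiv ℝ (fun x : E3 =>
      (x c - y c) * (‖x - y‖ ^ 2 + ε)⁻¹ * ‖u x‖ ^ 2) x (EuclideanSpace.single c (1 : ℝ)) =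
      ((‖x - y‖ ^ 2 + ε)⁻¹ - 2 * (x c - y c) ^ 2 * ((‖x - y‖ ^ 2 + ε)⁻¹) ^ 2) * ‖u x‖ ^ 2 +
        (x c - y c) * (‖x - y‖ ^ 2 + ε)⁻¹ *
          (2 * inner ℝ (u x) (fderiv ℝ u x (EuclideanSpace.single c (1 : ℝ)))) := by
    intro c x
    have d1 : HasFDerivAt (fun x : E3 => x c - y c)
        (EuclideanSpace.proj c : E3 →L[ℝ] ℝ) x :=
      ((EuclideanSpace.proj c : E3 →L[ℝ] ℝ).hasFDerivAt).sub_const _
    have d2 : HasFDerivAt (fun x : E3 => ‖x - y‖ ^ 2 + ε)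
        (2 • (innerSL ℝ (x - y)).comp (ContinuousLinearMap.id ℝ E3)) x :=
      (((hasFDerivAt_id x).sub_const y).norm_sq).add_const ε
    have d3 : HasFDerivAt (fun x : E3 => (‖x - y‖ ^ 2 + ε)⁻¹)
        ((-((‖x - y‖ ^ 2 + ε) ^ 2)⁻¹) •
          (2 • (innerSL ℝ (x - y)).comp (ContinuousLinearMap.id ℝ E3))) x :=
      (hasDerivAt_inv (hpos x).ne').comp_hasFDerivAt x d2
    have d4 : HasFDerivAt (fun x => ‖u x‖ ^ 2)
        (2 • (innerSL ℝ (u x)).comp (fderiv ℝ u x)) x :=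
      ((hu.differentiable (by norm_num) x).hasFDerivAt).norm_sq
    have d5 : HasFDerivAt (fun x : E3 => (x c - y c) * (‖x - y‖ ^ 2 + ε)⁻¹ * ‖u x‖ ^ 2) _ x :=
      (d1.mul d3).mul d4
    rw [d5.fderiv]
    have e1 : inner ℝ (x - y) (EuclideanSpace.single c (1 : ℝ)) = x c - y c := by
      rw [EuclideanSpace.inner_single_right]; simp
    have e2 : (EuclideanSpace.proj c : E3 →L[ℝ] ℝ) (EuclideanSpace.single c (1 : ℝ)) = 1 := by
      simp
    simp only [add_apply, smul_apply,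
      ContinuousLinearMap.comp_apply, ContinuousLinearMap.id_apply, innerSL_apply_apply,
      smul_eq_mul, e1, e2, nsmul_eq_mul, Pi.mul_apply]
    have := (hpos x).ne'
    push_cast
    field_simp
    ring
  -- integral of the sum
  have hsumI : Integrable (fun x => ∑ c : Fin 3, fderiv ℝ (fun x : E3 =>
      (x c - y c) * (‖x - y‖ ^ 2 + ε)⁻¹ * ‖u x‖ ^ 2) x (EuclideanSpace.single c (1 : ℝ))) :=
    integrable_finsetSum _ fun c _ => (hI c).1
  have hsum0 : ∫ x, ∑ c : Fin 3, fderiv ℝ (fun x : E3 =>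
      (x c - y c) * (‖x - y‖ ^ 2 + ε)⁻¹ * ‖u x‖ ^ 2) x (EuclideanSpace.single c (1 : ℝ)) = 0 := by
    rw [integral_finsetSum _ fun c _ => (hI c).1]
    simp [(hI _).2]
  have hGc : Continuous (gsq u) := pba_continuous_gsq hu
  have hGs : HasCompactSupport (gsq u) := by
    have h1 : HasCompactSupport (fderiv ℝ u) := hc.fderiv ℝ
    have h2 : gsq u = (fun A : E3 →L[ℝ] ℂ =>
        ∑ c : Fin 3, ‖A (EuclideanSpace.single c (1 : ℝ))‖ ^ 2) ∘ fderiv ℝ u := rfl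
    rw [h2]
    exact h1.comp_left (by simp)
  have hGI : Integrable (gsq u) := hGc.integrable_of_hasCompactSupport hGs
  have hρI : Integrable fun x => ‖u x‖ ^ 2 * (‖x - y‖ ^ 2 + ε)⁻¹ :=
    (hn.continuous.mul hb.continuous).integrable_of_hasCompactSupport hnc.mul_right
  have hpt : ∀ x, 1 / 2 * (‖u x‖ ^ 2 * (‖x - y‖ ^ 2 + ε)⁻¹) - 2 * gsq u x ≤
      ∑ c : Fin 3, fderiv ℝ (fun x : E3 =>
      (x c - y c) * (‖x - y‖ ^ 2 + ε)⁻¹ * ‖u x‖ ^ 2) x (EuclideanSpace.single c (1 : ℝ)) := by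
    intro x
    simp_rw [hder]
    obtain ⟨ρ, hρ⟩ : ∃ ρ, ρ = (‖x - y‖ ^ 2 + ε)⁻¹ := ⟨_, rfl⟩
    have hρ0 : 0 < ρ := by rw [hρ]; exact inv_pos.2 (hpos x)
    rw [← hρ]
    have h1 : ‖x - y‖ ^ 2 = ∑ c : Fin 3, (x c - y c) ^ 2 := by
      rw [EuclideanSpace.norm_sq_eq]
      simp
    have h2 : ‖x - y‖ ^ 2 * ρ ≤ 1 := by
      rw [hρ, ← div_eq_mul_inv, div_le_one (hpos x)]
      linarith
    -- bound for the cross terms
    have h3 : ∀ c : Fin 3, -(1 / 2 * ((x c - y c) ^ 2 * ρ ^ 2 * ‖u x‖ ^ 2) +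
        2 * ‖fderiv ℝ u x (EuclideanSpace.single c (1 : ℝ))‖ ^ 2) ≤
        (x c - y c) * ρ *
          (2 * inner ℝ (u x) (fderiv ℝ u x (EuclideanSpace.single c (1 : ℝ)))) := by
      intro c
      have h4 := abs_real_inner_le_norm (u x) (fderiv ℝ u x (EuclideanSpace.single c (1 : ℝ)))
      obtain ⟨p, hp⟩ : ∃ p, p = ‖fderiv ℝ u x (EuclideanSpace.single c (1 : ℝ))‖ := ⟨_, rfl⟩
      obtain ⟨q, hq⟩ : ∃ q, q = inner ℝ (u x) (fderiv ℝ u x (EuclideanSpace.single c (1 : ℝ))) :=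
        ⟨_, rfl⟩
      rw [← hp, ← hq] at h4
      rw [← hp, ← hq]
      have h5 : |(x c - y c) * ρ * (2 * q)| ≤ 2 * (|x c - y c| * ρ * ‖u x‖) * p := by
        rw [abs_mul, abs_mul, abs_mul, abs_of_pos hρ0, abs_two]
        calc |x c - y c| * ρ * (2 * |q|) ≤ |x c - y c| * ρ * (2 * (‖u x‖ * p)) := by gcongr
          _ = _ := by ring
      have h6 : 2 * (|x c - y c| * ρ * ‖u x‖) * p ≤
          1 / 2 * (|x c - y c| * ρ * ‖u x‖) ^ 2 + 2 * p ^ 2 := by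
        nlinarith [sq_nonneg (|x c - y c| * ρ * ‖u x‖ - 2 * p)]
      have h7 : (|x c - y c| * ρ * ‖u x‖) ^ 2 = (x c - y c) ^ 2 * ρ ^ 2 * ‖u x‖ ^ 2 := by
        rw [mul_pow, mul_pow, sq_abs]
      rw [h7] at h6
      have h8 := neg_abs_le ((x c - y c) * ρ * (2 * q))
      linarith
    have h4 : ∑ c : Fin 3, ((ρ - 2 * (x c - y c) ^ 2 * ρ ^ 2) * ‖u x‖ ^ 2 +
        (x c - y c) * ρ *
          (2 * inner ℝ (u x) (fderiv ℝ u x (EuclideanSpace.single c (1 : ℝ))))) ≥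
        ∑ c : Fin 3, ((ρ - 2 * (x c - y c) ^ 2 * ρ ^ 2) * ‖u x‖ ^ 2 -
          (1 / 2 * ((x c - y c) ^ 2 * ρ ^ 2 * ‖u x‖ ^ 2) +
            2 * ‖fderiv ℝ u x (EuclideanSpace.single c (1 : ℝ))‖ ^ 2)) := by
      apply Finset.sum_le_sum
      intro c _
      linarith [h3 c]
    refine le_trans ?_ h4
    have h5 : ∑ c : Fin 3, ((ρ - 2 * (x c - y c) ^ 2 * ρ ^ 2) * ‖u x‖ ^ 2 -
          (1 / 2 * ((x c - y c) ^ 2 * ρ ^ 2 * ‖u x‖ ^ 2) +
            2 * ‖fderiv ℝ u x (EuclideanSpace.single c (1 : ℝ))‖ ^ 2)) =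
        (3 * ρ - 5 / 2 * (‖x - y‖ ^ 2 * ρ) * ρ) * ‖u x‖ ^ 2 - 2 * gsq u x := by
      rw [h1]
      unfold gsq
      simp only [Fin.sum_univ_three]
      ring
    rw [h5]
    have h6 : 1 / 2 * ρ ≤ 3 * ρ - 5 / 2 * (‖x - y‖ ^ 2 * ρ) * ρ := by
      have := mul_le_mul_of_nonneg_right h2 hρ0.le
      linarith
    have h7 := mul_le_mul_of_nonneg_right h6 (sq_nonneg ‖u x‖)
    linarith
  have hfin := integral_mono ((hρI.const_mul (1 / 2)).sub (hGI.const_mul 2)) hsumI hpt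
  rw [hsum0] at hfin
  have h8 : ∫ x, (1 / 2 * (‖u x‖ ^ 2 * (‖x - y‖ ^ 2 + ε)⁻¹) - 2 * gsq u x) =
      1 / 2 * (∫ x, ‖u x‖ ^ 2 * (‖x - y‖ ^ 2 + ε)⁻¹) - 2 * ∫ x, gsq u x := by
    rw [integral_sub (hρI.const_mul (1 / 2)) (hGI.const_mul 2), integral_const_mul,
      integral_const_mul]
  have h9 : ∫ x, (1 / 2 * (‖u x‖ ^ 2 * (‖x - y‖ ^ 2 + ε)⁻¹) - 2 * gsq u x) ≤ 0 := hfin
  rw [h8] at h9
  linarith

theorem hardy (y : E3) (u : E3 → ℂ) (hu : ContDiff ℝ 1 u) (hc : HasCompactSupport u) :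
    Integrable (fun x => ‖u x‖ ^ 2 / ‖x - y‖ ^ 2) ∧
      ∫ x, ‖u x‖ ^ 2 / ‖x - y‖ ^ 2 ≤ 4 * ∫ x, gsq u x := by
  have hcu := hu.continuous
  have hG0 : 0 ≤ ∫ x, gsq u x := integral_nonneg fun x => pba_gsq_nonneg u x
  have hm : Measurable fun x => ‖u x‖ ^ 2 / ‖x - y‖ ^ 2 :=
    (hcu.measurable.norm.pow_const 2).div ((measurable_id.sub_const y).norm.pow_const 2)
  obtain ⟨F, hF⟩ : ∃ F : ℕ → E3 → ℝ≥0∞, F = fun (n : ℕ) (x : E3) =>
      ENNReal.ofReal (‖u x‖ ^ 2 * (‖x - y‖ ^ 2 + 1 / ((n : ℝ) + 1))⁻¹) := ⟨_, rfl⟩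
  have hFm : ∀ n, Measurable (F n) := by
    intro n
    rw [hF]
    exact ((hcu.measurable.norm.pow_const 2).mul
      ((((measurable_id.sub_const y).norm.pow_const 2).add_const _).inv)).ennreal_ofReal
  have hFi : ∀ n, ∫⁻ x, F n x ≤ ENNReal.ofReal (4 * ∫ x, gsq u x) := by
    intro n
    have hn : (0 : ℝ) < 1 / ((n : ℝ) + 1) := by positivity
    have hpos : ∀ x : E3, 0 < ‖x - y‖ ^ 2 + 1 / ((n : ℝ) + 1) := fun x => by positivity
    have hi : Integrable fun x => ‖u x‖ ^ 2 * (‖x - y‖ ^ 2 + 1 / ((n : ℝ) + 1))⁻¹ := by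
      have hnc : HasCompactSupport fun x => ‖u x‖ ^ 2 :=
        hc.comp_left (g := fun z : ℂ => ‖z‖ ^ 2) (by simp)
      refine Continuous.integrable_of_hasCompactSupport ?_ hnc.mul_right
      refine (hcu.norm.pow 2).mul (Continuous.inv₀ (by fun_prop) fun x => (hpos x).ne')
    rw [hF]
    simp only
    rw [← ofReal_integral_eq_lintegral_ofReal hi
      (Filter.Eventually.of_forall fun x => by
        have := hpos x
        positivity)]
    exact ENNReal.ofReal_le_ofReal (cut_hardy_reg y u hu hc hn)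
  have hle : ∀ x, ENNReal.ofReal (‖u x‖ ^ 2 / ‖x - y‖ ^ 2) ≤ liminf (fun n => F n x) atTop := by
    intro x
    by_cases hx : x = y
    · subst hx; simp
    · have hxy : 0 < ‖x - y‖ ^ 2 := by
        have : 0 < ‖x - y‖ := norm_pos_iff.2 (sub_ne_zero.2 hx)
        positivity
      have ht : Tendsto (fun n => F n x) atTop (𝓝 (ENNReal.ofReal (‖u x‖ ^ 2 / ‖x - y‖ ^ 2))) := by
        rw [hF]
        apply ENNReal.tendsto_ofReal
        have h1 : Tendsto (fun n : ℕ => ‖x - y‖ ^ 2 + 1 / ((n : ℝ) + 1)) atTop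
            (𝓝 (‖x - y‖ ^ 2 + 0)) := tendsto_const_nhds.add tendsto_one_div_add_atTop_nhds_zero_nat
        rw [add_zero] at h1
        rw [div_eq_mul_inv]
        exact tendsto_const_nhds.mul (h1.inv₀ hxy.ne')
      exact ht.liminf_eq.ge
  have hL : ∫⁻ x, ENNReal.ofReal (‖u x‖ ^ 2 / ‖x - y‖ ^ 2) ≤
      ENNReal.ofReal (4 * ∫ x, gsq u x) := by
    calc ∫⁻ x, ENNReal.ofReal (‖u x‖ ^ 2 / ‖x - y‖ ^ 2)
        ≤ ∫⁻ x, liminf (fun n => F n x) atTop := lintegral_mono hle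
      _ ≤ liminf (fun n => ∫⁻ x, F n x) atTop := lintegral_liminf_le hFm
      _ ≤ liminf (fun _ : ℕ => ENNReal.ofReal (4 * ∫ x, gsq u x)) atTop :=
          liminf_le_liminf (Filter.Eventually.of_forall hFi)
      _ = _ := liminf_const _
  have hnn : 0 ≤ᵐ[volume] fun x : E3 => ‖u x‖ ^ 2 / ‖x - y‖ ^ 2 :=
    Filter.Eventually.of_forall fun x => by positivity
  refine ⟨⟨hm.aestronglyMeasurable, ?_⟩, ?_⟩
  · rw [hasFiniteIntegral_iff_ofReal hnn]
    exact lt_of_le_of_lt hL ENNReal.ofReal_lt_top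
  · rw [integral_eq_lintegral_of_nonneg_ae hnn hm.aestronglyMeasurable]
    refine (ENNReal.toReal_mono ENNReal.ofReal_ne_top hL).trans (le_of_eq ?_)
    exact ENNReal.toReal_ofReal (by positivity)

theorem hardy_local : ∃ C : ℝ, 0 < C ∧ ∀ (w y : E3) (r : ℝ) (u : E3 → ℂ), 0 < r →
    ContDiff ℝ 1 u → ∫ x in ball w r, ‖u x‖ ^ 2 / ‖x - y‖ ^ 2 ≤
      8 * (∫ x in ball w (2 * r), gsq u x) +
        C / r ^ 2 * (∫ x in ball w (2 * r), ‖u x‖ ^ 2) := by
  obtain ⟨C, hC, hcut⟩ := cutoff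
  refine ⟨24 * C ^ 2, by positivity, ?_⟩
  intro w y r u hr hu
  obtain ⟨χ, hχ, hχ0, hχ1, hχ2, hχ3, hχ4⟩ := hcut w r hr
  have hχ' : ContDiff ℝ 1 χ := hχ.of_le (by norm_num)
  have hcu := hu.continuous
  have hv : ContDiff ℝ 1 fun x => χ x • u x := hχ'.smul hu
  have hvc : HasCompactSupport fun x => χ x • u x := by
    apply HasCompactSupport.intro (isCompact_closedBall w (2 * r))
    intro x hx
    rw [mem_closedBall, dist_eq_norm, not_le] at hx
    rw [hχ3 x hx.le, zero_smul]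
  obtain ⟨h1, h2⟩ := hardy y (fun x => χ x • u x) hv hvc
  have hder : ∀ (x v : E3), fderiv ℝ (fun x => χ x • u x) x v =
      χ x • fderiv ℝ u x v + (fderiv ℝ χ x v) • u x := by
    intro x v
    have d1 : HasFDerivAt χ (fderiv ℝ χ x) x := (hχ'.differentiable (by norm_num) x).hasFDerivAt
    have d2 : HasFDerivAt u (fderiv ℝ u x) x := (hu.differentiable (by norm_num) x).hasFDerivAt
    have d3 : HasFDerivAt (fun x => χ x • u x) _ x := d1.smul d2
    rw [d3.fderiv]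
    simp
  have hout : ∀ x, 2 * r ≤ ‖x - w‖ → gsq (fun x => χ x • u x) x = 0 := by
    intro x hx
    have h3 : IsLocalMin χ x := Filter.Eventually.of_forall fun z => by
      rw [hχ3 x hx]; exact hχ0 z
    have h4 : fderiv ℝ χ x = 0 := h3.fderiv_eq_zero
    unfold gsq
    simp_rw [hder, h4, hχ3 x hx]
    simp
  have hpt : ∀ x, gsq (fun x => χ x • u x) x ≤ 2 * gsq u x + 6 * (C / r) ^ 2 * ‖u x‖ ^ 2 := by
    intro x
    unfold gsq
    have h3 : ∀ c : Fin 3, ‖fderiv ℝ (fun x => χ x • u x) x (EuclideanSpace.single c (1 : ℝ))‖ ^ 2 ≤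
        2 * ‖fderiv ℝ u x (EuclideanSpace.single c (1 : ℝ))‖ ^ 2 +
          2 * (C / r) ^ 2 * ‖u x‖ ^ 2 := by
      intro c
      rw [hder]
      have h4 : ‖χ x • fderiv ℝ u x (EuclideanSpace.single c (1 : ℝ))‖ ≤
          ‖fderiv ℝ u x (EuclideanSpace.single c (1 : ℝ))‖ := by
        rw [norm_smul, Real.norm_eq_abs, abs_of_nonneg (hχ0 x)]
        calc χ x * ‖fderiv ℝ u x (EuclideanSpace.single c (1 : ℝ))‖ ≤
            1 * ‖fderiv ℝ u x (EuclideanSpace.single c (1 : ℝ))‖ := by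
              gcongr
              exact hχ1 x
          _ = _ := one_mul _
      have h5 : ‖(fderiv ℝ χ x (EuclideanSpace.single c (1 : ℝ))) • u x‖ ≤ C / r * ‖u x‖ := by
        rw [norm_smul]
        gcongr
        refine (ContinuousLinearMap.le_opNorm _ _).trans ?_
        rw [PiLp.norm_single, norm_one, mul_one]
        exact hχ4 x
      have h6 := norm_add_le (χ x • fderiv ℝ u x (EuclideanSpace.single c (1 : ℝ)))
        ((fderiv ℝ χ x (EuclideanSpace.single c (1 : ℝ))) • u x)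
      have h7 : ‖χ x • fderiv ℝ u x (EuclideanSpace.single c (1 : ℝ)) +
          (fderiv ℝ χ x (EuclideanSpace.single c (1 : ℝ))) • u x‖ ≤
          ‖fderiv ℝ u x (EuclideanSpace.single c (1 : ℝ))‖ + C / r * ‖u x‖ := by linarith
      refine (pow_le_pow_left₀ (norm_nonneg _) h7 2).trans ?_
      have h8 := sq_nonneg (‖fderiv ℝ u x (EuclideanSpace.single c (1 : ℝ))‖ - C / r * ‖u x‖)
      rw [mul_assoc 2, ← mul_pow (C / r)]
      nlinarith only [h8]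
    refine (Finset.sum_le_sum fun c _ => h3 c).trans (le_of_eq ?_)
    rw [Finset.sum_add_distrib, ← Finset.mul_sum]
    simp
    ring
  have hcG := pba_continuous_gsq hu
  have hcGv := pba_continuous_gsq hv
  have h3 : ∫ x, gsq (fun x => χ x • u x) x =
      ∫ x in ball w (2 * r), gsq (fun x => χ x • u x) x := by
    rw [setIntegral_eq_integral_of_forall_compl_eq_zero]
    intro x hx
    rw [mem_ball, dist_eq_norm, not_lt] at hx
    exact hout x hx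
  have h4 : ∫ x in ball w (2 * r), gsq (fun x => χ x • u x) x ≤
      2 * (∫ x in ball w (2 * r), gsq u x) +
        6 * (C / r) ^ 2 * ∫ x in ball w (2 * r), ‖u x‖ ^ 2 := by
    rw [← integral_const_mul, ← integral_const_mul, ← integral_add]
    · exact integral_mono (pba_integrableOn hcGv w _) (pba_integrableOn (by fun_prop) w _) hpt
    · exact pba_integrableOn (by fun_prop) w _
    · exact pba_integrableOn (by fun_prop) w _
  have h5 : ∫ x in ball w r, ‖u x‖ ^ 2 / ‖x - y‖ ^ 2 =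
      ∫ x in ball w r, ‖χ x • u x‖ ^ 2 / ‖x - y‖ ^ 2 := by
    apply setIntegral_congr_fun measurableSet_ball
    intro x hx
    rw [mem_ball, dist_eq_norm] at hx
    simp only
    rw [hχ2 x hx.le, one_smul]
  have h6 : ∫ x in ball w r, ‖χ x • u x‖ ^ 2 / ‖x - y‖ ^ 2 ≤
      ∫ x, ‖χ x • u x‖ ^ 2 / ‖x - y‖ ^ 2 :=
    setIntegral_le_integral h1 (Filter.Eventually.of_forall fun x => by positivity)
  rw [h5]
  refine h6.trans (h2.trans ?_)
  rw [h3]
  have h7 : 24 * C ^ 2 / r ^ 2 * (∫ x in ball w (2 * r), ‖u x‖ ^ 2) =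
      4 * (6 * (C / r) ^ 2 * ∫ x in ball w (2 * r), ‖u x‖ ^ 2) := by
    field_simp
    ring
  rw [h7]
  linarith

end Pool.Agent.H5R2.NL
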