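import Mathlib
import Pool.Agent.H5R2.NL.Defs

/-!
# The volume of the intersection of two balls of the same radius in `ℝ³`
-/

set_option autoImplicit false

noncomputable section

namespace Pool.Agent.H5R2.NL

open MeasureTheory Metric
open scoped ENNReal

/-- the squared radius of a slice -/
def kerna_rho (r t s : ℝ) : ℝ := r ^ 2 - max (s ^ 2) ((s - t) ^ 2)

/-- area of the slice -/
theorem kerna_slice (ρ : ℝ) :
    volume {z : Fin 2 → ℝ | z 0 ^ 2 + z 1 ^ 2 < ρ} = ENNReal.ofReal (Real.pi * max 0 ρ) := by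
  have h1 : {z : Fin 2 → ℝ | z 0 ^ 2 + z 1 ^ 2 < ρ} =
      (fun z => (WithLp.toLp 2 z : EuclideanSpace ℝ (Fin 2))) ⁻¹'
        ball (0 : EuclideanSpace ℝ (Fin 2)) (Real.sqrt ρ) := by
    ext z
    simp only [Set.mem_ofPred_eq, Set.mem_preimage, mem_ball, dist_zero_right,
      EuclideanSpace.norm_eq, Fin.sum_univ_two, Real.norm_eq_abs, sq_abs]
    rw [Real.sqrt_lt_sqrt_iff (by positivity)]
  rw [h1, (PiLp.volume_preserving_toLp (Fin 2)).measure_preimage
    measurableSet_ball.nullMeasurableSet, EuclideanSpace.volume_ball_fin_two,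
    ← ENNReal.ofReal_pow (Real.sqrt_nonneg _), ← ENNReal.ofReal_mul (by positivity)]
  congr 1
  rcases le_total 0 ρ with h | h
  · rw [Real.sq_sqrt h, max_eq_right h, mul_comm]
  · rw [Real.sqrt_eq_zero_of_nonpos h, max_eq_left h]
    simp

/-- the volume of a lens by slices -/
theorem kerna_vol (r t : ℝ) (hr : 0 < r) :
    volume {w : E3 | ‖w‖ < r ∧ ‖w - EuclideanSpace.single 0 t‖ < r} =
      ∫⁻ s, ENNReal.ofReal (Real.pi * max 0 (kerna_rho r t s)) := by
  set S : Set E3 := {w : E3 | ‖w‖ < r ∧ ‖w - EuclideanSpace.single 0 t‖ < r} with hS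
  have hSm : MeasurableSet S := by
    apply MeasurableSet.inter
    · exact measurableSet_lt measurable_norm measurable_const
    · exact measurableSet_lt (f := fun w : E3 => ‖w - EuclideanSpace.single 0 t‖)
        (by fun_prop) measurable_const
  rw [← (PiLp.volume_preserving_toLp (Fin 3)).measure_preimage hSm.nullMeasurableSet]
  set T : Set (ℝ × (Fin 2 → ℝ)) := {p | p.1 ^ 2 + (p.2 0 ^ 2 + p.2 1 ^ 2) < r ^ 2 ∧
    (p.1 - t) ^ 2 + (p.2 0 ^ 2 + p.2 1 ^ 2) < r ^ 2} with hT
  have hTm : MeasurableSet T := by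
    apply MeasurableSet.inter
    · exact measurableSet_lt
        (f := fun p : ℝ × (Fin 2 → ℝ) => p.1 ^ 2 + (p.2 0 ^ 2 + p.2 1 ^ 2))
        (by fun_prop) measurable_const
    · exact measurableSet_lt
        (f := fun p : ℝ × (Fin 2 → ℝ) => (p.1 - t) ^ 2 + (p.2 0 ^ 2 + p.2 1 ^ 2))
        (by fun_prop) measurable_const
  have h2 : (WithLp.toLp 2 : (Fin 3 → ℝ) → E3) ⁻¹' S =
      (MeasurableEquiv.piFinSuccAbove (fun _ : Fin 3 => ℝ) 0) ⁻¹' T := by
    ext f
    simp only [hS, hT, Set.mem_preimage, Set.mem_ofPred_eq]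
    rw [EuclideanSpace.norm_eq, EuclideanSpace.norm_eq, Real.sqrt_lt' hr, Real.sqrt_lt' hr,
      Fin.sum_univ_three, Fin.sum_univ_three]
    simp [add_assoc, Fin.tail]
  rw [h2, (volume_preserving_piFinSuccAbove (fun _ : Fin 3 => ℝ) 0).measure_preimage
    hTm.nullMeasurableSet]
  rw [Measure.volume_eq_prod, Measure.prod_apply hTm]
  refine lintegral_congr fun s => ?_
  rw [← kerna_slice]
  congr 1
  ext z
  simp only [hT, Set.mem_preimage, Set.mem_ofPred_eq, kerna_rho]
  constructor
  · rintro ⟨h3, h4⟩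
    rcases max_cases (s ^ 2) ((s - t) ^ 2) with h5 | h5 <;> rw [h5.1] <;> linarith
  · intro h3
    have h5 := le_max_left (s ^ 2) ((s - t) ^ 2)
    have h6 := le_max_right (s ^ 2) ((s - t) ^ 2)
    constructor <;> linarith

theorem kerna_int (r t : ℝ) (ht : 0 ≤ t) (htr : t < 2 * r) :
    ∫ s, Real.pi * max 0 (kerna_rho r t s) =
      Real.pi / 12 * (4 * r + t) * (2 * r - t) ^ 2 := by
  have hr : 0 < r := by linarith
  have hcont : Continuous fun s => Real.pi * max 0 (kerna_rho r t s) := by
    unfold kerna_rho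
    fun_prop
  have h1 : ∫ s, Real.pi * max 0 (kerna_rho r t s) =
      ∫ s in Set.Ioc (t - r) r, Real.pi * max 0 (kerna_rho r t s) := by
    symm
    apply setIntegral_eq_integral_of_forall_compl_eq_zero
    intro s hs
    rw [Set.mem_Ioc, not_and_or, not_lt, not_le] at hs
    have h3 : kerna_rho r t s ≤ 0 := by
      unfold kerna_rho
      rcases hs with hs | hs
      · have := le_max_right (s ^ 2) ((s - t) ^ 2)
        nlinarith
      · have := le_max_left (s ^ 2) ((s - t) ^ 2)
        nlinarith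
    rw [max_eq_left h3, mul_zero]
  rw [h1, ← intervalIntegral.integral_of_le (by linarith),
    ← intervalIntegral.integral_add_adjacent_intervals (b := t / 2)
      (hcont.intervalIntegrable _ _) (hcont.intervalIntegrable _ _)]
  have h2 : ∫ s in (t - r)..(t / 2), Real.pi * max 0 (kerna_rho r t s) =
      ∫ s in (t - r)..(t / 2), Real.pi * (r ^ 2 - (s - t) ^ 2) := by
    apply intervalIntegral.integral_congr
    intro s hs
    rw [Set.uIcc_of_le (by linarith)] at hs
    have h3 : (s : ℝ) ^ 2 ≤ (s - t) ^ 2 := by nlinarith [hs.2]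
    have h4 : 0 ≤ r ^ 2 - (s - t) ^ 2 := by nlinarith [hs.1, hs.2]
    simp only [kerna_rho]
    rw [max_eq_right h3, max_eq_right h4]
  have h3 : ∫ s in (t / 2)..r, Real.pi * max 0 (kerna_rho r t s) =
      ∫ s in (t / 2)..r, Real.pi * (r ^ 2 - s ^ 2) := by
    apply intervalIntegral.integral_congr
    intro s hs
    rw [Set.uIcc_of_le (by linarith)] at hs
    have h3 : (s - t) ^ 2 ≤ (s : ℝ) ^ 2 := by nlinarith [hs.1]
    have h4 : 0 ≤ r ^ 2 - s ^ 2 := by nlinarith [hs.1, hs.2]
    simp only [kerna_rho]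
    rw [max_eq_left h3, max_eq_right h4]
  have d1 : ∀ s ∈ Set.uIcc (t - r) (t / 2), HasDerivAt
      (fun s => Real.pi * (r ^ 2 * s - (s - t) ^ 3 / 3)) (Real.pi * (r ^ 2 - (s - t) ^ 2)) s := by
    intro s _
    have e1 : HasDerivAt (fun s : ℝ => s - t) 1 s := (hasDerivAt_id s).sub_const t
    have e2 := (((hasDerivAt_id s).const_mul (r ^ 2)).sub ((e1.pow 3).div_const 3)).const_mul
      Real.pi
    refine e2.congr_deriv ?_
    simp
  have d2 : ∀ s ∈ Set.uIcc (t / 2) r, HasDerivAt
      (fun s => Real.pi * (r ^ 2 * s - s ^ 3 / 3)) (Real.pi * (r ^ 2 - s ^ 2)) s := by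
    intro s _
    have e2 := (((hasDerivAt_id s).const_mul (r ^ 2)).sub
      (((hasDerivAt_id s).pow 3).div_const 3)).const_mul Real.pi
    refine e2.congr_deriv ?_
    simp
  rw [h2, h3, intervalIntegral.integral_eq_sub_of_hasDerivAt d1
    ((by fun_prop : Continuous fun s => Real.pi * (r ^ 2 - (s - t) ^ 2)).intervalIntegrable _ _),
    intervalIntegral.integral_eq_sub_of_hasDerivAt d2
    ((by fun_prop : Continuous fun s => Real.pi * (r ^ 2 - s ^ 2)).intervalIntegrable _ _)]
  ring

theorem kerna_integrable (r t : ℝ) (ht : 0 ≤ t) (htr : t < 2 * r) :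
    Integrable fun s => Real.pi * max 0 (kerna_rho r t s) := by
  have hcont : Continuous fun s => Real.pi * max 0 (kerna_rho r t s) := by
    unfold kerna_rho
    fun_prop
  have h1 : HasCompactSupport fun s => Real.pi * max 0 (kerna_rho r t s) := by
    refine HasCompactSupport.intro (K := Set.Icc (t - r) r) isCompact_Icc ?_
    intro s hs
    rw [Set.mem_Icc, not_and_or, not_le, not_le] at hs
    have h3 : kerna_rho r t s ≤ 0 := by
      unfold kerna_rho
      rcases hs with hs | hs
      · have := le_max_right (s ^ 2) ((s - t) ^ 2)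
        nlinarith
      · have := le_max_left (s ^ 2) ((s - t) ^ 2)
        nlinarith
    rw [max_eq_left h3, mul_zero]
  exact hcont.integrable_of_hasCompactSupport h1

theorem kerna_lens0 (r t : ℝ) (ht : 0 ≤ t) (htr : t < 2 * r) :
    volume.real {w : E3 | ‖w‖ < r ∧ ‖w - EuclideanSpace.single 0 t‖ < r} =
      Real.pi / 12 * (4 * r + t) * (2 * r - t) ^ 2 := by
  have hr : 0 < r := by linarith
  rw [Measure.real, kerna_vol r t hr, ← kerna_int r t ht htr,
    ← ofReal_integral_eq_lintegral_ofReal (kerna_integrable r t ht htr)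
      (Filter.Eventually.of_forall fun s => by positivity),
    ENNReal.toReal_ofReal (integral_nonneg fun s => by positivity)]

theorem kerna_lens1 (r : ℝ) (v : E3) (hv : ‖v‖ < 2 * r) :
    volume.real {w : E3 | ‖w‖ < r ∧ ‖w - v‖ < r} =
      Real.pi / 12 * (4 * r + ‖v‖) * (2 * r - ‖v‖) ^ 2 := by
  have hr : 0 < r := by
    have := norm_nonneg v
    linarith
  have h0 : ‖(EuclideanSpace.single 0 ‖v‖ : E3)‖ = ‖v‖ := by
    rw [EuclideanSpace.norm_single, norm_norm]
  obtain ⟨L, hL⟩ : ∃ L : E3 ≃ₗᵢ[ℝ] E3, L (EuclideanSpace.single 0 ‖v‖) = v :=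
    ⟨_, Submodule.reflection_sub h0⟩
  rw [← kerna_lens0 r ‖v‖ (norm_nonneg v) hv]
  have hSm : MeasurableSet {w : E3 | ‖w‖ < r ∧ ‖w - v‖ < r} := by
    apply MeasurableSet.inter
    · exact measurableSet_lt measurable_norm measurable_const
    · exact measurableSet_lt (f := fun w : E3 => ‖w - v‖) (by fun_prop) measurable_const
  have h2 : {w : E3 | ‖w‖ < r ∧ ‖w - EuclideanSpace.single 0 ‖v‖‖ < r} =
      L ⁻¹' {w : E3 | ‖w‖ < r ∧ ‖w - v‖ < r} := by
    ext w
    simp only [Set.mem_preimage, Set.mem_ofPred_eq]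
    rw [L.norm_map]
    have h3 : L w - v = L (w - EuclideanSpace.single 0 ‖v‖) := by
      rw [map_sub, hL]
    rw [h3, L.norm_map]
  rw [h2, Measure.real, Measure.real, L.measurePreserving.measure_preimage hSm.nullMeasurableSet]

theorem lens (r : ℝ) (hr : 0 < r) (x y : E3) :
    ∫ w, inB w r x * inB w r y =
      if ‖x - y‖ < 2 * r then
        Real.pi / 12 * (4 * r + ‖x - y‖) * (2 * r - ‖x - y‖) ^ 2 else 0 := by
  split_ifs with h
  · have h1 : ∫ w, inB w r x * inB w r y = ∫ w, inB (w + x) r x * inB (w + x) r y :=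
      (integral_add_right_eq_self (fun w => inB w r x * inB w r y) x).symm
    have hSm : MeasurableSet {w : E3 | ‖w‖ < r ∧ ‖w - (y - x)‖ < r} := by
      apply MeasurableSet.inter
      · exact measurableSet_lt measurable_norm measurable_const
      · exact measurableSet_lt (f := fun w : E3 => ‖w - (y - x)‖) (by fun_prop)
          measurable_const
    have h2 : ∀ w : E3, inB (w + x) r x * inB (w + x) r y =
        Set.indicator {w : E3 | ‖w‖ < r ∧ ‖w - (y - x)‖ < r} (fun _ => (1 : ℝ)) w := by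
      intro w
      have e1 : ‖x - (w + x)‖ = ‖w‖ := by
        rw [← norm_neg]; congr 1; abel
      have e2 : ‖y - (w + x)‖ = ‖w - (y - x)‖ := by
        rw [← norm_neg]; congr 1; abel
      unfold inB
      rw [e1, e2, Set.indicator_apply]
      simp only [Set.mem_ofPred_eq]
      split_ifs with a b c c c <;> simp_all
    simp_rw [h1, h2]
    have h4 : ‖y - x‖ < 2 * r := by rw [norm_sub_rev]; exact h
    rw [integral_indicator hSm, setIntegral_const, smul_eq_mul, mul_one, kerna_lens1 r _ h4,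
      norm_sub_rev y x]
  · have h1 : ∀ w, inB w r x * inB w r y = 0 := by
      intro w
      unfold inB
      split_ifs with a b b
      · exfalso
        apply h
        have h2 : x - y = (x - w) - (y - w) := by abel
        have h3 := norm_sub_le (x - w) (y - w)
        rw [← h2] at h3
        linarith
      all_goals simp
    simp_rw [h1]
    simp

end Pool.Agent.H5R2.NL
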