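import Mathlib
import Pool.Agent.H5R2.NL.Defs
import Pool.Agent.H5R2.NL.KernA

/-!
# The kernels of the measures on the balls
-/

set_option autoImplicit false

noncomputable section

namespace Pool.Agent.H5R2.NL

open MeasureTheory Metric Filter Topology
open scoped ENNReal

/-! ### measurability -/

theorem kern_meas (c : ℝ) (x : E3) : Measurable fun b : ℝ × E3 => inB b.2 (c * b.1) x := by
  unfold inB
  refine Measurable.ite ?_ measurable_const measurable_const
  exact measurableSet_lt (f := fun b : ℝ × E3 => ‖x - b.2‖) (g := fun b : ℝ × E3 => c * b.1)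
    (by fun_prop) (by fun_prop)

theorem kern_meas1 (x : E3) : Measurable fun b : ℝ × E3 => inB b.2 b.1 x := by
  have h := kern_meas 1 x
  simp only [one_mul] at h
  exact h

theorem kern_measw (r : ℝ) (x : E3) : Measurable fun w : E3 => inB w r x := by
  unfold inB
  refine Measurable.ite ?_ measurable_const measurable_const
  exact measurableSet_lt (f := fun w : E3 => ‖x - w‖) (g := fun _ : E3 => r)
    (by fun_prop) (by fun_prop)

theorem kern_inB_nonneg (w : E3) (r : ℝ) (x : E3) : 0 ≤ inB w r x := by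
  unfold inB
  split_ifs <;> norm_num

theorem kern_inB_le (w : E3) (r : ℝ) (x : E3) : inB w r x ≤ 1 := by
  unfold inB
  split_ifs <;> norm_num

theorem kern_wd (A : Set ℝ) (D : ℝ → ℝ) (hD : Measurable D) (f : ℝ × E3 → ℝ≥0∞)
    (hf : Measurable f) :
    ∫⁻ b, f b ∂(((volume.restrict A).prod (volume : Measure E3)).withDensity
      fun b => ENNReal.ofReal (D b.1)) = ∫⁻ r in A, ENNReal.ofReal (D r) * ∫⁻ w, f (r, w) := by
  have hd : Measurable fun b : ℝ × E3 => ENNReal.ofReal (D b.1) := by fun_prop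
  rw [lintegral_withDensity_eq_lintegral_mul _ hd hf,
    lintegral_prod _ (hd.mul hf).aemeasurable]
  refine lintegral_congr fun r => ?_
  simp only [Pi.mul_apply]
  rw [lintegral_const_mul _ (by fun_prop)]

theorem bm_lint (ℓ : ℝ) (f : ℝ × E3 → ℝ≥0∞) (hf : Measurable f) :
    ∫⁻ b, f b ∂bm ℓ = ∫⁻ r in Set.Ioc 0 ℓ,
      ENNReal.ofReal (3 / (2 * Real.pi * ℓ ^ 2) / r ^ 2) * ∫⁻ w, f (r, w) := by
  unfold bm
  exact kern_wd (Set.Ioc 0 ℓ) (fun r => 3 / (2 * Real.pi * ℓ ^ 2) / r ^ 2) (by fun_prop) f hf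

theorem fm_lint (ℓ : ℝ) (f : ℝ × E3 → ℝ≥0∞) (hf : Measurable f) :
    ∫⁻ b, f b ∂fm ℓ = ∫⁻ r in Set.Ioi 0,
      ENNReal.ofReal (if r ≤ ℓ then 1 / (4 * Real.pi * ℓ ^ 3) / r ^ 2 else 1 / Real.pi / r ^ 5) *
        ∫⁻ w, f (r, w) := by
  unfold fm
  refine kern_wd (Set.Ioi 0) (fun r => if r ≤ ℓ then 1 / (4 * Real.pi * ℓ ^ 3) / r ^ 2
    else 1 / Real.pi / r ^ 5) ?_ f hf
  exact Measurable.ite measurableSet_Iic (by fun_prop) (by fun_prop)

theorem kern_ball (x : E3) (r : ℝ) :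
    ∫⁻ w, ENNReal.ofReal (inB w r x) = ENNReal.ofReal r ^ 3 * ENNReal.ofReal (Real.pi * 4 / 3) := by
  classical
  have h1 : ∀ w : E3, ENNReal.ofReal (inB w r x) = Set.indicator (ball x r) 1 w := by
    intro w
    unfold inB
    rw [Set.indicator_apply]
    simp only [mem_ball, dist_eq_norm, norm_sub_rev w x, Pi.one_apply]
    split_ifs <;> simp
  simp_rw [h1]
  rw [lintegral_indicator_one measurableSet_ball, EuclideanSpace.volume_ball_fin_three]

theorem bm_one (ℓ c : ℝ) (hℓ : 0 < ℓ) (hc : 0 < c) (φ : ℝ → ℝ≥0∞) (hφ : Measurable φ)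
    (x : E3) :
    ∫⁻ b, φ b.1 * ENNReal.ofReal (inB b.2 (c * b.1) x) ∂bm ℓ =
      ENNReal.ofReal (c ^ 3) * ∫⁻ r in Set.Ioc 0 ℓ, φ r * ENNReal.ofReal (2 * r / ℓ ^ 2) := by
  have hm : Measurable fun b : ℝ × E3 => φ b.1 * ENNReal.ofReal (inB b.2 (c * b.1) x) :=
    (hφ.comp measurable_fst).mul (kern_meas c x).ennreal_ofReal
  rw [bm_lint _ _ hm, ← lintegral_const_mul _ (by fun_prop)]
  refine setLIntegral_congr_fun measurableSet_Ioc fun r hr => ?_
  have hr0 : 0 < r := hr.1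
  simp only
  rw [lintegral_const_mul _ (kern_measw (c * r) x).ennreal_ofReal, kern_ball,
    ← ENNReal.ofReal_pow (by positivity)]
  have e1 : ENNReal.ofReal (3 / (2 * Real.pi * ℓ ^ 2) / r ^ 2) *
      (φ r * (ENNReal.ofReal ((c * r) ^ 3) * ENNReal.ofReal (Real.pi * 4 / 3))) =
      φ r * (ENNReal.ofReal (3 / (2 * Real.pi * ℓ ^ 2) / r ^ 2) *
        (ENNReal.ofReal ((c * r) ^ 3) * ENNReal.ofReal (Real.pi * 4 / 3))) := by ring
  have e2 : ENNReal.ofReal (c ^ 3) * (φ r * ENNReal.ofReal (2 * r / ℓ ^ 2)) =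
      φ r * (ENNReal.ofReal (c ^ 3) * ENNReal.ofReal (2 * r / ℓ ^ 2)) := by ring
  rw [e1, e2, ← ENNReal.ofReal_mul (by positivity), ← ENNReal.ofReal_mul (by positivity),
    ← ENNReal.ofReal_mul (by positivity)]
  congr 2
  have := Real.pi_pos
  field_simp
  ring

/-! ### the overlap -/

/-- the volume of the lens -/
def kern_L (r t : ℝ) : ℝ :=
  if t < 2 * r then Real.pi / 12 * (4 * r + t) * (2 * r - t) ^ 2 else 0

theorem kern_L_nonneg {r t : ℝ} (hr : 0 < r) (ht : 0 ≤ t) : 0 ≤ kern_L r t := by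
  unfold kern_L
  split_ifs
  · have := Real.pi_pos
    positivity
  · exact le_refl _

theorem kern_lint (r : ℝ) (hr : 0 < r) (x y : E3) :
    ∫⁻ w, ENNReal.ofReal (inB w r x * inB w r y) = ENNReal.ofReal (kern_L r ‖x - y‖) := by
  classical
  have h1 : Integrable fun w : E3 => inB w r x * inB w r y := by
    have h2 : Integrable (Set.indicator (ball x r) fun _ : E3 => (1 : ℝ)) := by
      rw [integrable_indicator_iff measurableSet_ball]
      exact integrableOn_const measure_ball_lt_top.ne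
    refine h2.mono' ((kern_measw r x).mul (kern_measw r y)).aestronglyMeasurable
      (Eventually.of_forall fun w => ?_)
    rw [Real.norm_of_nonneg (mul_nonneg (kern_inB_nonneg _ _ _) (kern_inB_nonneg _ _ _))]
    have h3 : inB w r x = Set.indicator (ball x r) (fun _ : E3 => (1 : ℝ)) w := by
      unfold inB
      rw [Set.indicator_apply]
      simp only [mem_ball, dist_eq_norm, norm_sub_rev w x]
    rw [← h3]
    exact mul_le_of_le_one_right (kern_inB_nonneg _ _ _) (kern_inB_le _ _ _)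
  rw [← ofReal_integral_eq_lintegral_ofReal h1 (Eventually.of_forall fun w =>
    mul_nonneg (kern_inB_nonneg _ _ _) (kern_inB_nonneg _ _ _)), lens r hr]
  rfl

/-- the integral over small radii -/
theorem kern_A (t b : ℝ) (ht : 0 ≤ t) (hb : 0 < b) (htb : t ≤ 2 * b) :
    ∫⁻ r in Set.Ioc 0 b, ENNReal.ofReal (kern_L r t / (Real.pi * r ^ 2)) =
      ENNReal.ofReal (1 / 12 * (8 * b ^ 2 - 12 * t * b + 6 * t ^ 2 - t ^ 3 / b)) := by
  have hpi := Real.pi_pos
  rcases ht.eq_or_lt with h0 | h0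
  · subst h0
    have h1 : ∫⁻ r in Set.Ioc 0 b, ENNReal.ofReal (kern_L r 0 / (Real.pi * r ^ 2)) =
        ∫⁻ r in Set.Ioc 0 b, ENNReal.ofReal (4 / 3 * r) := by
      refine setLIntegral_congr_fun measurableSet_Ioc fun r hr => ?_
      have hr0 : 0 < r := hr.1
      simp only [kern_L]
      rw [if_pos (by linarith)]
      congr 1
      field_simp
      ring
    have h2 : Integrable (fun r : ℝ => 4 / 3 * r) (volume.restrict (Set.Ioc 0 b)) :=
      (by fun_prop : Continuous fun r : ℝ => 4 / 3 * r).integrableOn_Ioc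
    rw [h1, ← ofReal_integral_eq_lintegral_ofReal h2, ← intervalIntegral.integral_of_le hb.le]
    · congr 1
      have d : ∀ s ∈ Set.uIcc 0 b, HasDerivAt (fun s : ℝ => 2 / 3 * s ^ 2) (4 / 3 * s) s := by
        intro s _
        refine (((hasDerivAt_id s).pow 2).const_mul (2 / 3)).congr_deriv ?_
        simp
        ring
      rw [intervalIntegral.integral_eq_sub_of_hasDerivAt d
        ((by fun_prop : Continuous fun r : ℝ => 4 / 3 * r).intervalIntegrable _ _)]
      ring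
    · refine (ae_restrict_iff' measurableSet_Ioc).2 (Eventually.of_forall fun r hr => ?_)
      have := hr.1
      simp only [Pi.zero_apply]
      positivity
  · have h1 : ∫⁻ r in Set.Ioc 0 b, ENNReal.ofReal (kern_L r t / (Real.pi * r ^ 2)) =
        ∫⁻ r in Set.Ioc (t / 2) b, ENNReal.ofReal (1 / 12 * (16 * r - 12 * t + t ^ 3 / r ^ 2)) := by
      have hu : Set.Ioc 0 b = Set.Ioc 0 (t / 2) ∪ Set.Ioc (t / 2) b :=
        (Set.Ioc_union_Ioc_eq_Ioc (by linarith) (by linarith)).symm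
      rw [hu, lintegral_union measurableSet_Ioc
        (Set.Ioc_disjoint_Ioc_of_le le_rfl)]
      have z1 : ∫⁻ r in Set.Ioc 0 (t / 2), ENNReal.ofReal (kern_L r t / (Real.pi * r ^ 2)) = 0 := by
        rw [← lintegral_zero (μ := volume.restrict (Set.Ioc 0 (t / 2)))]
        refine setLIntegral_congr_fun measurableSet_Ioc fun r hr => ?_
        simp only [kern_L]
        rw [if_neg (by linarith [hr.2])]
        simp
      rw [z1, zero_add]
      refine setLIntegral_congr_fun measurableSet_Ioc fun r hr => ?_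
      have hr0 : 0 < r := lt_trans (by linarith) hr.1
      simp only [kern_L]
      rw [if_pos (by linarith [hr.1])]
      congr 1
      field_simp
      ring
    have hc : ContinuousOn (fun r : ℝ => 1 / 12 * (16 * r - 12 * t + t ^ 3 / r ^ 2))
        (Set.Icc (t / 2) b) := by
      intro r hr
      have hr0 : r ≠ 0 := (lt_of_lt_of_le (by linarith) hr.1).ne'
      have hr2 : r ^ 2 ≠ 0 := by positivity
      fun_prop (disch := assumption)
    have h2 : IntegrableOn (fun r : ℝ => 1 / 12 * (16 * r - 12 * t + t ^ 3 / r ^ 2))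
        (Set.Ioc (t / 2) b) := (hc.integrableOn_Icc).mono_set Set.Ioc_subset_Icc_self
    rw [h1, ← ofReal_integral_eq_lintegral_ofReal h2,
      ← intervalIntegral.integral_of_le (by linarith)]
    · congr 1
      have d : ∀ s ∈ Set.uIcc (t / 2) b, HasDerivAt
          (fun s : ℝ => 1 / 12 * (8 * s ^ 2 - 12 * t * s - t ^ 3 * s⁻¹))
          (1 / 12 * (16 * s - 12 * t + t ^ 3 / s ^ 2)) s := by
        intro s hs
        rw [Set.uIcc_of_le (by linarith)] at hs
        have hs0 : s ≠ 0 := (lt_of_lt_of_le (by linarith) hs.1).ne'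
        refine (((((hasDerivAt_id s).pow 2).const_mul 8).sub
          ((hasDerivAt_id s).const_mul (12 * t))).sub
          ((hasDerivAt_inv hs0).const_mul (t ^ 3))).const_mul (1 / 12) |>.congr_deriv ?_
        simp
        field_simp
        ring
      rw [intervalIntegral.integral_eq_sub_of_hasDerivAt d]
      · field_simp
        ring
      · apply ContinuousOn.intervalIntegrable
        rw [Set.uIcc_of_le (by linarith)]
        exact hc
    · refine (ae_restrict_iff' measurableSet_Ioc).2 (Eventually.of_forall fun r hr => ?_)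
      have hr0 : 0 < r := lt_trans (by linarith) hr.1
      simp only [Pi.zero_apply]
      have e : 1 / 12 * (16 * r - 12 * t + t ^ 3 / r ^ 2) =
          1 / 12 * ((4 * r + t) * (2 * r - t) ^ 2 / r ^ 2) := by
        field_simp
        ring
      rw [e]
      positivity

/-- the integral over large radii -/
theorem kern_T (t a : ℝ) (ht : 0 ≤ t) (ha : 0 < a) (hta : t ≤ 2 * a) :
    ∫⁻ r in Set.Ioi a, ENNReal.ofReal (kern_L r t / (Real.pi * r ^ 5)) =
      ENNReal.ofReal (1 / 12 * (16 / a - 6 * t / a ^ 2 + t ^ 3 / (4 * a ^ 4))) := by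
  have hpi := Real.pi_pos
  have h1 : ∫⁻ r in Set.Ioi a, ENNReal.ofReal (kern_L r t / (Real.pi * r ^ 5)) =
      ∫⁻ r in Set.Ioi a, ENNReal.ofReal (1 / 12 * ((4 * r + t) * (2 * r - t) ^ 2 / r ^ 5)) := by
    refine setLIntegral_congr_fun measurableSet_Ioi fun r hr => ?_
    have hr0 : 0 < r := lt_trans ha hr
    have hr1 : a < r := hr
    simp only [kern_L]
    rw [if_pos (by linarith)]
    congr 1
    field_simp
  have hd : ∀ r ∈ Set.Ici a, HasDerivAt
      (fun r : ℝ => -(1 / 12 * (16 * r⁻¹ - 6 * t * (r⁻¹) ^ 2 + t ^ 3 / 4 * (r⁻¹) ^ 4)))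
      (1 / 12 * ((4 * r + t) * (2 * r - t) ^ 2 / r ^ 5)) r := by
    intro r hr
    have hr0 : r ≠ 0 := (lt_of_lt_of_le ha hr).ne'
    have d1 := hasDerivAt_inv hr0
    refine (((((d1.const_mul 16).sub ((d1.pow 2).const_mul (6 * t))).add
      ((d1.pow 4).const_mul (t ^ 3 / 4))).const_mul (1 / 12)).neg).congr_deriv ?_
    simp
    field_simp
    ring
  have hpos : ∀ r ∈ Set.Ioi a, 0 ≤ 1 / 12 * ((4 * r + t) * (2 * r - t) ^ 2 / r ^ 5) := by
    intro r hr
    have hr0 : 0 < r := lt_trans ha hr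
    positivity
  have hlim : Tendsto
      (fun r : ℝ => -(1 / 12 * (16 * r⁻¹ - 6 * t * (r⁻¹) ^ 2 + t ^ 3 / 4 * (r⁻¹) ^ 4)))
      atTop (𝓝 0) := by
    have h3 : Tendsto (fun r : ℝ => r⁻¹) atTop (𝓝 0) := tendsto_inv_atTop_zero
    have h4 := (((((h3.const_mul 16).sub ((h3.pow 2).const_mul (6 * t))).add
      ((h3.pow 4).const_mul (t ^ 3 / 4))).const_mul (1 / 12)).neg)
    simpa using h4
  have h2 := integrableOn_Ioi_deriv_of_nonneg' hd hpos hlim
  have h3 := integral_Ioi_of_hasDerivAt_of_nonneg' hd hpos hlim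
  rw [h1, ← ofReal_integral_eq_lintegral_ofReal h2, h3]
  · congr 1
    field_simp
    ring
  · exact (ae_restrict_iff' measurableSet_Ioi).2 (Eventually.of_forall fun r hr => hpos r hr)

/-! ### the pair functions -/

theorem kern_pm (x y : E3) :
    Measurable fun b : ℝ × E3 => inB b.2 b.1 x * inB b.2 b.1 y :=
  (kern_meas1 x).mul (kern_meas1 y)

theorem kern_pn (x y : E3) (b : ℝ × E3) : 0 ≤ inB b.2 b.1 x * inB b.2 b.1 y :=
  mul_nonneg (kern_inB_nonneg _ _ _) (kern_inB_nonneg _ _ _)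

theorem bm_pair_lint (ℓ : ℝ) (hℓ : 0 < ℓ) (x y : E3) :
    ∫⁻ b : ℝ × E3, ENNReal.ofReal (inB b.2 b.1 x * inB b.2 b.1 y) ∂bm ℓ =
      ENNReal.ofReal (hker ℓ ‖x - y‖) := by
  have hpi := Real.pi_pos
  set t := ‖x - y‖ with ht
  have ht0 : 0 ≤ t := norm_nonneg _
  rw [bm_lint _ _ (kern_pm x y).ennreal_ofReal]
  have h1 : ∫⁻ r in Set.Ioc 0 ℓ, ENNReal.ofReal (3 / (2 * Real.pi * ℓ ^ 2) / r ^ 2) *
      ∫⁻ w, ENNReal.ofReal (inB w r x * inB w r y) =
      ∫⁻ r in Set.Ioc 0 ℓ, ENNReal.ofReal (3 / (2 * ℓ ^ 2)) *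
        ENNReal.ofReal (kern_L r t / (Real.pi * r ^ 2)) := by
    refine setLIntegral_congr_fun measurableSet_Ioc fun r hr => ?_
    have hr0 : 0 < r := hr.1
    rw [kern_lint r hr0, ← ENNReal.ofReal_mul (by positivity), ← ENNReal.ofReal_mul (by positivity)]
    congr 1
    rw [← ht]
    field_simp
  rw [h1]
  rcases le_total t (2 * ℓ) with h | h
  · rw [lintegral_const_mul' _ _ ENNReal.ofReal_ne_top, kern_A t ℓ ht0 hℓ h,
      ← ENNReal.ofReal_mul (by positivity)]
    congr 1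
    unfold hker
    have h2 : 0 ≤ 1 - t / (2 * ℓ) := by
      rw [sub_nonneg, div_le_one (by positivity)]
      exact h
    rw [max_eq_right h2]
    field_simp
    ring
  · have h3 : ∫⁻ r in Set.Ioc 0 ℓ, ENNReal.ofReal (3 / (2 * ℓ ^ 2)) *
        ENNReal.ofReal (kern_L r t / (Real.pi * r ^ 2)) = 0 := by
      rw [← lintegral_zero (μ := volume.restrict (Set.Ioc 0 ℓ))]
      refine setLIntegral_congr_fun measurableSet_Ioc fun r hr => ?_
      simp only [kern_L]
      rw [if_neg (by linarith [hr.2])]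
      simp
    rw [h3]
    unfold hker
    have h2 : 1 - t / (2 * ℓ) ≤ 0 := by
      rw [sub_nonpos, one_le_div (by positivity)]
      exact h
    rw [max_eq_left h2]
    simp

theorem bm_pair_int (ℓ : ℝ) (hℓ : 0 < ℓ) (x y : E3) :
    Integrable (fun b : ℝ × E3 => inB b.2 b.1 x * inB b.2 b.1 y) (bm ℓ) := by
  refine ⟨(kern_pm x y).aestronglyMeasurable, ?_⟩
  rw [hasFiniteIntegral_iff_ofReal (Eventually.of_forall (kern_pn x y)), bm_pair_lint ℓ hℓ]
  exact ENNReal.ofReal_lt_top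

theorem bm_pair (ℓ : ℝ) (hℓ : 0 < ℓ) (x y : E3) :
    ∫ b : ℝ × E3, inB b.2 b.1 x * inB b.2 b.1 y ∂bm ℓ = hker ℓ ‖x - y‖ := by
  rw [integral_eq_lintegral_of_nonneg_ae (Eventually.of_forall (kern_pn x y))
    (kern_pm x y).aestronglyMeasurable, bm_pair_lint ℓ hℓ, ENNReal.toReal_ofReal]
  unfold hker
  positivity

theorem kern_Fk_nonneg (ℓ t : ℝ) (hℓ : 0 < ℓ) (ht : 0 ≤ t) : 0 ≤ Fk ℓ t := by
  unfold Fk
  split_ifs with h
  · positivity
  · have h0 : 0 < t := lt_of_le_of_ne ht (Ne.symm h)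
    have h1 : hker ℓ t ≤ 1 := by
      unfold hker
      have h2 : max 0 (1 - t / (2 * ℓ)) ≤ 1 := by
        apply max_le zero_le_one
        have : 0 ≤ t / (2 * ℓ) := by positivity
        linarith
      exact pow_le_one₀ (le_max_left _ _) h2
    apply div_nonneg _ ht
    linarith

theorem fm_pair_lint (ℓ : ℝ) (hℓ : 0 < ℓ) (x y : E3) :
    ∫⁻ b : ℝ × E3, ENNReal.ofReal (inB b.2 b.1 x * inB b.2 b.1 y) ∂fm ℓ =
      ENNReal.ofReal (Fk ℓ ‖x - y‖) := by
  have hpi := Real.pi_pos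
  set t := ‖x - y‖ with ht
  have ht0 : 0 ≤ t := norm_nonneg _
  rw [fm_lint _ _ (kern_pm x y).ennreal_ofReal]
  have hu : Set.Ioi (0 : ℝ) = Set.Ioc 0 ℓ ∪ Set.Ioi ℓ := (Set.Ioc_union_Ioi_eq_Ioi hℓ.le).symm
  have hdis : Disjoint (Set.Ioc (0 : ℝ) ℓ) (Set.Ioi ℓ) := by
    rw [Set.disjoint_left]
    intro a ha hb
    exact absurd hb (not_lt.2 ha.2)
  rw [hu, lintegral_union measurableSet_Ioi hdis]
  have h1 : ∫⁻ r in Set.Ioc 0 ℓ, ENNReal.ofReal
      (if r ≤ ℓ then 1 / (4 * Real.pi * ℓ ^ 3) / r ^ 2 else 1 / Real.pi / r ^ 5) *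
      ∫⁻ w, ENNReal.ofReal (inB w r x * inB w r y) =
      ∫⁻ r in Set.Ioc 0 ℓ, ENNReal.ofReal (1 / (4 * ℓ ^ 3)) *
        ENNReal.ofReal (kern_L r t / (Real.pi * r ^ 2)) := by
    refine setLIntegral_congr_fun measurableSet_Ioc fun r hr => ?_
    have hr0 : 0 < r := hr.1
    rw [if_pos hr.2, kern_lint r hr0, ← ENNReal.ofReal_mul (by positivity),
      ← ENNReal.ofReal_mul (by positivity)]
    congr 1
    rw [← ht]
    field_simp
  have h2 : ∫⁻ r in Set.Ioi ℓ, ENNReal.ofReal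
      (if r ≤ ℓ then 1 / (4 * Real.pi * ℓ ^ 3) / r ^ 2 else 1 / Real.pi / r ^ 5) *
      ∫⁻ w, ENNReal.ofReal (inB w r x * inB w r y) =
      ∫⁻ r in Set.Ioi ℓ, ENNReal.ofReal (kern_L r t / (Real.pi * r ^ 5)) := by
    refine setLIntegral_congr_fun measurableSet_Ioi fun r hr => ?_
    have hr1 : ℓ < r := hr
    have hr0 : 0 < r := lt_trans hℓ hr1
    rw [if_neg (not_le.2 hr1), kern_lint r hr0, ← ENNReal.ofReal_mul (by positivity)]
    congr 1
    rw [← ht]
    field_simp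
  rw [h1, h2]
  rcases le_total t (2 * ℓ) with h | h
  · have e1 : 0 ≤ 1 / 12 * (8 * ℓ ^ 2 - 12 * t * ℓ + 6 * t ^ 2 - t ^ 3 / ℓ) := by
      have : 1 / 12 * (8 * ℓ ^ 2 - 12 * t * ℓ + 6 * t ^ 2 - t ^ 3 / ℓ) =
          1 / (12 * ℓ) * (2 * ℓ - t) ^ 3 := by
        field_simp
        ring
      rw [this]
      have h5 : 0 ≤ 2 * ℓ - t := by linarith
      positivity
    have e2 : 0 ≤ 1 / 12 * (16 / ℓ - 6 * t / ℓ ^ 2 + t ^ 3 / (4 * ℓ ^ 4)) := by
      have : 1 / 12 * (16 / ℓ - 6 * t / ℓ ^ 2 + t ^ 3 / (4 * ℓ ^ 4)) =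
          1 / (12 * ℓ ^ 2) * (6 * (2 * ℓ - t) + 4 * ℓ + t ^ 3 / (4 * ℓ ^ 2)) := by
        field_simp
        ring
      rw [this]
      have h5 : 0 ≤ 2 * ℓ - t := by linarith
      positivity
    rw [lintegral_const_mul' _ _ ENNReal.ofReal_ne_top, kern_A t ℓ ht0 hℓ h, kern_T t ℓ ht0 hℓ h,
      ← ENNReal.ofReal_mul (by positivity), ← ENNReal.ofReal_add (by positivity) e2]
    congr 1
    unfold Fk
    split_ifs with h0
    · rw [h0]
      field_simp
      ring
    · have h3 : 0 ≤ 1 - t / (2 * ℓ) := by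
        rw [sub_nonneg, div_le_one (by positivity)]
        exact h
      unfold hker
      rw [max_eq_right h3]
      field_simp
      ring
  · have ht1 : 0 < t := by linarith
    have h3 : ∫⁻ r in Set.Ioc 0 ℓ, ENNReal.ofReal (1 / (4 * ℓ ^ 3)) *
        ENNReal.ofReal (kern_L r t / (Real.pi * r ^ 2)) = 0 := by
      rw [← lintegral_zero (μ := volume.restrict (Set.Ioc 0 ℓ))]
      refine setLIntegral_congr_fun measurableSet_Ioc fun r hr => ?_
      simp only [kern_L]
      rw [if_neg (by linarith [hr.2])]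
      simp
    have hu2 : Set.Ioi ℓ = Set.Ioc ℓ (t / 2) ∪ Set.Ioi (t / 2) :=
      (Set.Ioc_union_Ioi_eq_Ioi (by linarith)).symm
    have hdis2 : Disjoint (Set.Ioc ℓ (t / 2)) (Set.Ioi (t / 2)) := by
      rw [Set.disjoint_left]
      intro a ha hb
      exact absurd hb (not_lt.2 ha.2)
    have h4 : ∫⁻ r in Set.Ioc ℓ (t / 2), ENNReal.ofReal (kern_L r t / (Real.pi * r ^ 5)) = 0 := by
      rw [← lintegral_zero (μ := volume.restrict (Set.Ioc ℓ (t / 2)))]
      refine setLIntegral_congr_fun measurableSet_Ioc fun r hr => ?_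
      simp only [kern_L]
      rw [if_neg (by linarith [hr.2])]
      simp
    rw [h3, zero_add, hu2, lintegral_union measurableSet_Ioi hdis2, h4, zero_add,
      kern_T t (t / 2) ht0 (by linarith) (by linarith)]
    congr 1
    unfold Fk hker
    have h5 : 1 - t / (2 * ℓ) ≤ 0 := by
      rw [sub_nonpos, one_le_div (by positivity)]
      exact h
    rw [if_neg ht1.ne', max_eq_left h5]
    field_simp
    ring

theorem fm_pair_int (ℓ : ℝ) (hℓ : 0 < ℓ) (x y : E3) :
    Integrable (fun b : ℝ × E3 => inB b.2 b.1 x * inB b.2 b.1 y) (fm ℓ) := by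
  refine ⟨(kern_pm x y).aestronglyMeasurable, ?_⟩
  rw [hasFiniteIntegral_iff_ofReal (Eventually.of_forall (kern_pn x y)), fm_pair_lint ℓ hℓ]
  exact ENNReal.ofReal_lt_top

theorem fm_pair (ℓ : ℝ) (hℓ : 0 < ℓ) (x y : E3) :
    ∫ b : ℝ × E3, inB b.2 b.1 x * inB b.2 b.1 y ∂fm ℓ = Fk ℓ ‖x - y‖ := by
  rw [integral_eq_lintegral_of_nonneg_ae (Eventually.of_forall (kern_pn x y))
    (kern_pm x y).aestronglyMeasurable, fm_pair_lint ℓ hℓ, ENNReal.toReal_ofReal]
  exact kern_Fk_nonneg ℓ _ hℓ (norm_nonneg _)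

end Pool.Agent.H5R2.NL
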