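import Mathlib
import Pool.Agent.H5R2.NL.Defs
import Pool.Agent.H5R2.NL.Kern

/-!
# The localisation inequality
-/

set_option autoImplicit false

noncomputable section

namespace Pool.Agent.H5R2.NL

open MeasureTheory Metric Filter Topology
open scoped ENNReal

/-! ### bounds for `Fk` -/

theorem gs_Fk_le (ℓ t : ℝ) (hℓ : 0 < ℓ) (ht : 0 ≤ t) : Fk ℓ t ≤ 3 / (2 * ℓ) := by
  unfold Fk
  split_ifs with h
  · exact le_refl _
  · have h0 : 0 < t := lt_of_le_of_ne ht (Ne.symm h)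
    rw [div_le_div_iff₀ h0 (by positivity)]
    unfold hker
    rcases le_total (t / (2 * ℓ)) 1 with h1 | h1
    · rw [max_eq_right (by linarith)]
      have e : t = 2 * ℓ * (t / (2 * ℓ)) := by field_simp
      set u := t / (2 * ℓ) with hu
      have hu0 : 0 ≤ u := by positivity
      have h2 : 1 - (1 - u) ^ 3 ≤ 3 * u := by nlinarith [mul_nonneg hu0 hu0]
      calc (1 - (1 - u) ^ 3) * (2 * ℓ) ≤ 3 * u * (2 * ℓ) :=
            mul_le_mul_of_nonneg_right h2 (by positivity)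
        _ = 3 * t := by rw [e]; ring
    · rw [max_eq_left (by linarith)]
      rw [one_le_div (by positivity)] at h1
      linarith

theorem gs_Fk_meas (ℓ : ℝ) : Measurable (Fk ℓ) := by
  unfold Fk hker
  exact Measurable.ite (measurableSet_singleton 0) measurable_const (by fun_prop)

theorem gs_Fk_zero (ℓ : ℝ) : Fk ℓ 0 = 3 / (2 * ℓ) := by simp [Fk]

/-! ### positive definiteness -/

theorem gs_two (a b : ℝ≥0∞) : 2 * (a * b) ≤ a * a + b * b := by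
  rcases eq_or_ne a ⊤ with ha | ha
  · subst ha
    simp
  rcases eq_or_ne b ⊤ with hb | hb
  · subst hb
    simp
  lift a to NNReal using ha
  lift b to NNReal using hb
  norm_cast
  have h : (2 * (a * b) : ℝ) ≤ a * a + b * b := by nlinarith [sq_nonneg ((a : ℝ) - b)]
  exact_mod_cast h

/-- shorthand -/
def gs_B (b : ℝ × E3) (x : E3) : ℝ≥0∞ := ENNReal.ofReal (inB b.2 b.1 x)

theorem gs_B_meas : Measurable fun p : (ℝ × E3) × E3 => gs_B p.1 p.2 := by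
  unfold gs_B inB
  refine (Measurable.ite ?_ measurable_const measurable_const).ennreal_ofReal
  exact measurableSet_lt (f := fun p : (ℝ × E3) × E3 => ‖p.2 - p.1.2‖)
    (g := fun p : (ℝ × E3) × E3 => p.1.1) (by fun_prop) (by fun_prop)

theorem gs_B_mul (ℓ : ℝ) (hℓ : 0 < ℓ) (x y : E3) :
    ∫⁻ b, gs_B b x * gs_B b y ∂fm ℓ = ENNReal.ofReal (Fk ℓ ‖x - y‖) := by
  rw [← fm_pair_lint ℓ hℓ]
  refine lintegral_congr fun b => ?_
  rw [ENNReal.ofReal_mul (kern_inB_nonneg _ _ _)]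
  rfl

theorem gs_Bx (x : E3) : Measurable fun b : ℝ × E3 => gs_B b x := by
  unfold gs_B
  exact (kern_meas1 x).ennreal_ofReal

theorem gs_Bb (b : ℝ × E3) : Measurable fun y : E3 => gs_B b y := by
  unfold gs_B inB
  refine (Measurable.ite ?_ measurable_const measurable_const).ennreal_ofReal
  exact measurableSet_lt (f := fun y : E3 => ‖y - b.2‖) (g := fun _ : E3 => b.1)
    (by fun_prop) measurable_const

theorem gs_Bxy (x y : E3) : Measurable fun b : ℝ × E3 => gs_B b x * gs_B b y :=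
  (gs_Bx x).mul (gs_Bx y)

theorem gs_IB (I : E3 → ℝ) (hI : Measurable I) (b : ℝ × E3) :
    Measurable fun y : E3 => ENNReal.ofReal (I y) * gs_B b y :=
  hI.ennreal_ofReal.mul (gs_Bb b)

theorem gs_IBp (I : E3 → ℝ) (hI : Measurable I) :
    Measurable fun p : (ℝ × E3) × E3 => ENNReal.ofReal (I p.2) * gs_B p.1 p.2 :=
  (hI.comp measurable_snd).ennreal_ofReal.mul gs_B_meas

theorem gs_Fxm (ℓ : ℝ) (x : E3) : Measurable fun y : E3 => Fk ℓ ‖x - y‖ :=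
  (gs_Fk_meas ℓ).comp (by fun_prop)

/-- number of points in the ball -/
def gs_A {κ : Type} [Fintype κ] (R : κ → E3) (b : ℝ × E3) : ℝ≥0∞ := ∑ j, gs_B b (R j)

/-- mass of the ball -/
def gs_C (I : E3 → ℝ) (b : ℝ × E3) : ℝ≥0∞ := ∫⁻ y, ENNReal.ofReal (I y) * gs_B b y

theorem gs_Am {κ : Type} [Fintype κ] (R : κ → E3) : Measurable (gs_A R) :=
  Finset.measurable_sum _ fun j _ => gs_Bx (R j)

theorem gs_Cm (I : E3 → ℝ) (hI : Measurable I) : Measurable (gs_C I) :=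
  Measurable.lintegral_prod_right' (gs_IBp I hI)

theorem gs_BC (I : E3 → ℝ) (hI : Measurable I) (x : E3) :
    Measurable fun b : ℝ × E3 => gs_B b x * gs_C I b := (gs_Bx x).mul (gs_Cm I hI)

theorem gs_AA {κ : Type} [Fintype κ] (R : κ → E3) :
    Measurable fun b : ℝ × E3 => gs_A R b * gs_A R b := (gs_Am R).mul (gs_Am R)

theorem gs_AC {κ : Type} [Fintype κ] (R : κ → E3) (I : E3 → ℝ) (hI : Measurable I) :
    Measurable fun b : ℝ × E3 => gs_A R b * gs_C I b := (gs_Am R).mul (gs_Cm I hI)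

theorem gs_t1 {κ : Type} [Fintype κ] (ℓ : ℝ) (hℓ : 0 < ℓ) (R : κ → E3) :
    ∫⁻ b, gs_A R b * gs_A R b ∂fm ℓ = ∑ i, ∑ j, ENNReal.ofReal (Fk ℓ ‖R i - R j‖) := by
  unfold gs_A
  simp_rw [Finset.sum_mul_sum]
  have h1 : ∀ i, Measurable fun b => ∑ j, gs_B b (R i) * gs_B b (R j) := fun i =>
    Finset.measurable_sum _ fun j _ => gs_Bxy (R i) (R j)
  rw [lintegral_finsetSum _ fun i _ => h1 i]
  refine Finset.sum_congr rfl fun i _ => ?_
  rw [lintegral_finsetSum _ fun j _ => gs_Bxy (R i) (R j)]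
  refine Finset.sum_congr rfl fun j _ => ?_
  exact gs_B_mul ℓ hℓ _ _

theorem gs_t2 (ℓ : ℝ) (hℓ : 0 < ℓ) (I : E3 → ℝ) (hI : Nice I) (p : E3) :
    ∫⁻ b, gs_B b p * gs_C I b ∂fm ℓ = ∫⁻ y, ENNReal.ofReal (I y * Fk ℓ ‖p - y‖) := by
  have hIm : Measurable fun y => ENNReal.ofReal (I y) := hI.meas.ennreal_ofReal
  have e1 : ∀ b, gs_B b p * gs_C I b =
      ∫⁻ y, gs_B b p * (ENNReal.ofReal (I y) * gs_B b y) := by
    intro b
    unfold gs_C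
    rw [lintegral_const_mul _ (gs_IB I hI.meas b)]
  rw [lintegral_congr e1, lintegral_lintegral_swap]
  · refine lintegral_congr fun y => ?_
    have e2 : ∀ b, gs_B b p * (ENNReal.ofReal (I y) * gs_B b y) =
        ENNReal.ofReal (I y) * (gs_B b p * gs_B b y) := by intro b; ring
    rw [lintegral_congr e2, lintegral_const_mul _ (gs_Bxy p y), gs_B_mul ℓ hℓ,
      ENNReal.ofReal_mul (hI.nonneg y)]
  · have h : Measurable fun q : (ℝ × E3) × E3 =>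
        gs_B q.1 p * (ENNReal.ofReal (I q.2) * gs_B q.1 q.2) :=
      ((gs_Bx p).comp measurable_fst).mul (gs_IBp I hI.meas)
    exact h.aemeasurable

theorem gs_e4 (ℓ : ℝ) (I : E3 → ℝ) (hI : Nice I) (x : E3) :
    ∫⁻ y, ENNReal.ofReal (I x * I y * Fk ℓ ‖x - y‖) =
      ENNReal.ofReal (I x) * ∫⁻ y, ENNReal.ofReal (I y * Fk ℓ ‖x - y‖) := by
  rw [← lintegral_const_mul]
  · refine lintegral_congr fun y => ?_
    rw [← ENNReal.ofReal_mul (hI.nonneg x), mul_assoc]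
  · exact (hI.meas.mul (gs_Fxm ℓ x)).ennreal_ofReal

theorem gs_t3 (ℓ : ℝ) (hℓ : 0 < ℓ) (I : E3 → ℝ) (hI : Nice I) :
    ∫⁻ b, gs_C I b * gs_C I b ∂fm ℓ =
      ∫⁻ x, ∫⁻ y, ENNReal.ofReal (I x * I y * Fk ℓ ‖x - y‖) := by
  have hIm : Measurable fun y => ENNReal.ofReal (I y) := hI.meas.ennreal_ofReal
  have hCm := gs_Cm I hI.meas
  have e1 : ∀ b, gs_C I b * gs_C I b =
      ∫⁻ x, (ENNReal.ofReal (I x) * gs_B b x) * gs_C I b := by
    intro b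
    rw [lintegral_mul_const _ (gs_IB I hI.meas b)]
    rfl
  rw [lintegral_congr e1, lintegral_lintegral_swap]
  · refine lintegral_congr fun x => ?_
    have e2 : ∀ b, ENNReal.ofReal (I x) * gs_B b x * gs_C I b =
        ENNReal.ofReal (I x) * (gs_B b x * gs_C I b) := by intro b; ring
    rw [lintegral_congr e2, lintegral_const_mul _ (gs_BC I hI.meas x), gs_t2 ℓ hℓ I hI x,
      gs_e4 ℓ I hI x]
  · have h : Measurable fun q : (ℝ × E3) × E3 =>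
        ENNReal.ofReal (I q.2) * gs_B q.1 q.2 * gs_C I q.1 :=
      (gs_IBp I hI.meas).mul (hCm.comp measurable_fst)
    exact h.aemeasurable

theorem gs_Ifin (I : E3 → ℝ) (hI : Nice I) : ∫⁻ y, ENNReal.ofReal (I y) < ⊤ := by
  have := hI.int.2
  rwa [hasFiniteIntegral_iff_ofReal (Eventually.of_forall hI.nonneg)] at this

theorem gs_fin2 (ℓ : ℝ) (hℓ : 0 < ℓ) (I : E3 → ℝ) (hI : Nice I) (p : E3) :
    ∫⁻ y, ENNReal.ofReal (I y * Fk ℓ ‖p - y‖) ≤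
      ENNReal.ofReal (3 / (2 * ℓ)) * ∫⁻ y, ENNReal.ofReal (I y) := by
  rw [← lintegral_const_mul _ hI.meas.ennreal_ofReal]
  refine lintegral_mono fun y => ?_
  rw [← ENNReal.ofReal_mul (by positivity), mul_comm]
  apply ENNReal.ofReal_le_ofReal
  exact mul_le_mul_of_nonneg_right (gs_Fk_le ℓ _ hℓ (norm_nonneg _)) (hI.nonneg y)

theorem gs_fin2' (ℓ : ℝ) (hℓ : 0 < ℓ) (I : E3 → ℝ) (hI : Nice I) (p : E3) :
    ∫⁻ y, ENNReal.ofReal (I y * Fk ℓ ‖p - y‖) < ⊤ :=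
  (gs_fin2 ℓ hℓ I hI p).trans_lt (ENNReal.mul_lt_top ENNReal.ofReal_lt_top (gs_Ifin I hI))

theorem gs_fin3 (ℓ : ℝ) (hℓ : 0 < ℓ) (I : E3 → ℝ) (hI : Nice I) :
    ∫⁻ x, ∫⁻ y, ENNReal.ofReal (I x * I y * Fk ℓ ‖x - y‖) < ⊤ := by
  have hIfin := gs_Ifin I hI
  rw [lintegral_congr (gs_e4 ℓ I hI)]
  calc ∫⁻ x, ENNReal.ofReal (I x) * ∫⁻ y, ENNReal.ofReal (I y * Fk ℓ ‖x - y‖)
      ≤ ∫⁻ x, ENNReal.ofReal (I x) *
        (ENNReal.ofReal (3 / (2 * ℓ)) * ∫⁻ y, ENNReal.ofReal (I y)) :=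
        lintegral_mono fun x => mul_le_mul_right (gs_fin2 ℓ hℓ I hI x) _
    _ = (∫⁻ x, ENNReal.ofReal (I x)) *
        (ENNReal.ofReal (3 / (2 * ℓ)) * ∫⁻ y, ENNReal.ofReal (I y)) :=
        lintegral_mul_const _ hI.meas.ennreal_ofReal
    _ < ⊤ := ENNReal.mul_lt_top hIfin (ENNReal.mul_lt_top ENNReal.ofReal_lt_top hIfin)

theorem gs_r1 {κ : Type} [Fintype κ] (ℓ : ℝ) (hℓ : 0 < ℓ) (R : κ → E3) :
    ∑ i, ∑ j, Fk ℓ ‖R i - R j‖ = (∫⁻ b, gs_A R b * gs_A R b ∂fm ℓ).toReal := by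
  rw [gs_t1 ℓ hℓ, ENNReal.toReal_sum fun i _ => ENNReal.sum_ne_top.2 fun j _ =>
    ENNReal.ofReal_ne_top]
  refine Finset.sum_congr rfl fun i _ => ?_
  rw [ENNReal.toReal_sum fun j _ => ENNReal.ofReal_ne_top]
  refine Finset.sum_congr rfl fun j _ => ?_
  rw [ENNReal.toReal_ofReal (kern_Fk_nonneg ℓ _ hℓ (norm_nonneg _))]

theorem gs_r2 {κ : Type} [Fintype κ] (ℓ : ℝ) (hℓ : 0 < ℓ) (R : κ → E3) (I : E3 → ℝ)
    (hI : Nice I) :
    ∑ j, ∫ y, I y * Fk ℓ ‖R j - y‖ = (∫⁻ b, gs_A R b * gs_C I b ∂fm ℓ).toReal := by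
  have hCm := gs_Cm I hI.meas
  have e5 : ∫⁻ b, gs_A R b * gs_C I b ∂fm ℓ =
      ∑ j, ∫⁻ y, ENNReal.ofReal (I y * Fk ℓ ‖R j - y‖) := by
    unfold gs_A
    simp_rw [Finset.sum_mul]
    rw [lintegral_finsetSum _ fun j _ => gs_BC I hI.meas (R j)]
    exact Finset.sum_congr rfl fun j _ => gs_t2 ℓ hℓ I hI (R j)
  rw [e5, ENNReal.toReal_sum fun j _ => (gs_fin2' ℓ hℓ I hI (R j)).ne]
  refine Finset.sum_congr rfl fun j _ => ?_
  rw [integral_eq_lintegral_of_nonneg_ae (Eventually.of_forall fun y =>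
    mul_nonneg (hI.nonneg y) (kern_Fk_nonneg ℓ _ hℓ (norm_nonneg _)))
    (hI.meas.mul (gs_Fxm ℓ _)).aestronglyMeasurable]

theorem gs_r3 (ℓ : ℝ) (hℓ : 0 < ℓ) (I : E3 → ℝ) (hI : Nice I) :
    ∫ x, ∫ y, I x * I y * Fk ℓ ‖x - y‖ = (∫⁻ b, gs_C I b * gs_C I b ∂fm ℓ).toReal := by
  have hF0 : ∀ x y : E3, 0 ≤ Fk ℓ ‖x - y‖ := fun x y => kern_Fk_nonneg ℓ _ hℓ (norm_nonneg _)
  have hd : Measurable fun p : E3 × E3 => ‖p.1 - p.2‖ := by fun_prop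
  have hFxy : Measurable fun p : E3 × E3 => I p.1 * I p.2 * Fk ℓ ‖p.1 - p.2‖ :=
    ((hI.meas.comp measurable_fst).mul (hI.meas.comp measurable_snd)).mul
      ((gs_Fk_meas ℓ).comp hd)
  have e6 : ∀ x, ∫ y, I x * I y * Fk ℓ ‖x - y‖ =
      (∫⁻ y, ENNReal.ofReal (I x * I y * Fk ℓ ‖x - y‖)).toReal := by
    intro x
    have hm : Measurable fun y => I x * I y * Fk ℓ ‖x - y‖ :=
      hFxy.comp (measurable_const.prodMk measurable_id)
    exact integral_eq_lintegral_of_nonneg_ae (Eventually.of_forall fun y =>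
      mul_nonneg (mul_nonneg (hI.nonneg x) (hI.nonneg y)) (hF0 _ _)) hm.aestronglyMeasurable
  rw [integral_congr_ae (Eventually.of_forall e6), gs_t3 ℓ hℓ I hI]
  apply integral_toReal
  · exact (Measurable.lintegral_prod_right' (hFxy.ennreal_ofReal)).aemeasurable
  · refine Eventually.of_forall fun x => ?_
    rw [gs_e4 ℓ I hI]
    exact ENNReal.mul_lt_top ENNReal.ofReal_lt_top (gs_fin2' ℓ hℓ I hI x)

theorem pd_points {κ : Type} [Fintype κ] (ℓ : ℝ) (hℓ : 0 < ℓ) (R : κ → E3) (I : E3 → ℝ)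
    (hI : Nice I) :
    0 ≤ 1 / 2 * ∑ i, ∑ j, Fk ℓ ‖R i - R j‖ - (∑ j, ∫ y, I y * Fk ℓ ‖R j - y‖)
      + 1 / 2 * (∫ x, ∫ y, I x * I y * Fk ℓ ‖x - y‖) := by
  have hfA : ∫⁻ b, gs_A R b * gs_A R b ∂fm ℓ ≠ ⊤ := by
    rw [gs_t1 ℓ hℓ]
    exact ENNReal.sum_ne_top.2 fun i _ => ENNReal.sum_ne_top.2 fun j _ => ENNReal.ofReal_ne_top
  have hfC : ∫⁻ b, gs_C I b * gs_C I b ∂fm ℓ ≠ ⊤ := by
    rw [gs_t3 ℓ hℓ I hI]; exact (gs_fin3 ℓ hℓ I hI).ne
  have key : 2 * ∫⁻ b, gs_A R b * gs_C I b ∂fm ℓ ≤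
      (∫⁻ b, gs_A R b * gs_A R b ∂fm ℓ) + ∫⁻ b, gs_C I b * gs_C I b ∂fm ℓ := by
    rw [← lintegral_const_mul _ (gs_AC R I hI.meas), ← lintegral_add_left (gs_AA R)]
    exact lintegral_mono fun b => gs_two _ _
  have hfin := ENNReal.add_ne_top.2 ⟨hfA, hfC⟩
  have key2 := (ENNReal.toReal_le_toReal (ne_top_of_le_ne_top hfin key) hfin).2 key
  rw [ENNReal.toReal_add hfA hfC, ENNReal.toReal_mul, ← gs_r1 ℓ hℓ, ← gs_r2 ℓ hℓ R I hI,
    ← gs_r3 ℓ hℓ I hI, ENNReal.toReal_ofNat] at key2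
  linarith

/-! ### the localised Coulomb energy -/

theorem gs_bm_int (ℓ : ℝ) (hℓ : 0 < ℓ) (x y : E3) :
    Integrable (fun b : ℝ × E3 => inB b.2 b.1 x * inB b.2 b.1 y / ‖x - y‖) (bm ℓ) :=
  (bm_pair_int ℓ hℓ x y).div_const _

theorem gs_bm_sum {ι κ : Type} [Fintype ι] [Fintype κ] (ℓ : ℝ) (hℓ : 0 < ℓ) (x : ι → E3)
    (y : κ → E3) :
    Integrable (fun b : ℝ × E3 => ∑ i, ∑ j, inB b.2 b.1 (x i) * inB b.2 b.1 (y j) /
      ‖x i - y j‖) (bm ℓ) ∧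
    ∫ b : ℝ × E3, ∑ i, ∑ j, inB b.2 b.1 (x i) * inB b.2 b.1 (y j) / ‖x i - y j‖ ∂bm ℓ =
      ∑ i, ∑ j, hker ℓ ‖x i - y j‖ / ‖x i - y j‖ := by
  have h1 : ∀ i, Integrable (fun b : ℝ × E3 => ∑ j, inB b.2 b.1 (x i) * inB b.2 b.1 (y j) /
      ‖x i - y j‖) (bm ℓ) := fun i => integrable_finsetSum _ fun j _ => gs_bm_int ℓ hℓ _ _
  refine ⟨integrable_finsetSum _ fun i _ => h1 i, ?_⟩
  rw [integral_finsetSum _ fun i _ => h1 i]
  refine Finset.sum_congr rfl fun i _ => ?_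
  rw [integral_finsetSum _ fun j _ => gs_bm_int ℓ hℓ (x i) (y j)]
  refine Finset.sum_congr rfl fun j _ => ?_
  rw [integral_div, bm_pair ℓ hℓ]

theorem coulB_int {ι κ : Type} [Fintype ι] [Fintype κ] (z ℓ : ℝ) (hℓ : 0 < ℓ) (x : ι → E3)
    (R : κ → E3) : Integrable (fun b : ℝ × E3 => coulB z x R b.2 b.1) (bm ℓ) := by
  unfold coulB
  exact (((gs_bm_sum ℓ hℓ x x).1.const_mul _).sub ((gs_bm_sum ℓ hℓ x R).1.const_mul _)).add
    ((gs_bm_sum ℓ hℓ R R).1.const_mul _)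

theorem gs_coulB {ι κ : Type} [Fintype ι] [Fintype κ] (z ℓ : ℝ) (hℓ : 0 < ℓ) (x : ι → E3)
    (R : κ → E3) : ∫ b : ℝ × E3, coulB z x R b.2 b.1 ∂bm ℓ =
      1 / 2 * ∑ i, ∑ j, hker ℓ ‖x i - x j‖ / ‖x i - x j‖
        - z * ∑ i, ∑ j, hker ℓ ‖x i - R j‖ / ‖x i - R j‖
        + z ^ 2 / 2 * ∑ i, ∑ j, hker ℓ ‖R i - R j‖ / ‖R i - R j‖ := by
  have i1 := (gs_bm_sum ℓ hℓ x x).1.const_mul (1 / 2)
  have i2 := (gs_bm_sum ℓ hℓ x R).1.const_mul z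
  have i3 := (gs_bm_sum ℓ hℓ R R).1.const_mul (z ^ 2 / 2)
  have i12 : Integrable (fun b : ℝ × E3 =>
      1 / 2 * ∑ i, ∑ j, inB b.2 b.1 (x i) * inB b.2 b.1 (x j) / ‖x i - x j‖
    - z * ∑ i, ∑ j, inB b.2 b.1 (x i) * inB b.2 b.1 (R j) / ‖x i - R j‖) (bm ℓ) := i1.sub i2
  unfold coulB
  rw [integral_add i12 i3, integral_sub i1 i2, integral_const_mul, integral_const_mul,
    integral_const_mul, (gs_bm_sum ℓ hℓ x x).2, (gs_bm_sum ℓ hℓ x R).2, (gs_bm_sum ℓ hℓ R R).2]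

theorem gs_split (ℓ : ℝ) (p q : E3) :
    1 / ‖p - q‖ = hker ℓ ‖p - q‖ / ‖p - q‖ + if p = q then 0 else Fk ℓ ‖p - q‖ := by
  split_ifs with h
  · subst h
    simp
  · have h0 : ‖p - q‖ ≠ 0 := norm_ne_zero_iff.2 (sub_ne_zero.2 h)
    unfold Fk
    rw [if_neg h0]
    field_simp
    ring

/-! ### the complementary kernel -/

theorem gs_fm_sum2 {ι κ : Type} [Fintype ι] [Fintype κ] (ℓ : ℝ) (hℓ : 0 < ℓ) (x : ι → E3)
    (y : κ → E3) :
    Integrable (fun b : ℝ × E3 => (∑ i, inB b.2 b.1 (x i)) * (∑ j, inB b.2 b.1 (y j))) (fm ℓ) ∧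
    ∫ b : ℝ × E3, (∑ i, inB b.2 b.1 (x i)) * (∑ j, inB b.2 b.1 (y j)) ∂fm ℓ =
      ∑ i, ∑ j, Fk ℓ ‖x i - y j‖ := by
  have h1 : ∀ i, Integrable (fun b : ℝ × E3 => ∑ j, inB b.2 b.1 (x i) * inB b.2 b.1 (y j))
      (fm ℓ) := fun i => integrable_finsetSum _ fun j _ => fm_pair_int ℓ hℓ _ _
  simp_rw [Finset.sum_mul_sum]
  refine ⟨integrable_finsetSum _ fun i _ => h1 i, ?_⟩
  rw [integral_finsetSum _ fun i _ => h1 i]
  refine Finset.sum_congr rfl fun i _ => ?_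
  rw [integral_finsetSum _ fun j _ => fm_pair_int ℓ hℓ (x i) (y j)]
  exact Finset.sum_congr rfl fun j _ => fm_pair ℓ hℓ _ _

theorem gs_fm_sum1 {ι : Type} [Fintype ι] (ℓ : ℝ) (hℓ : 0 < ℓ) (x : ι → E3) :
    Integrable (fun b : ℝ × E3 => ∑ i, inB b.2 b.1 (x i)) (fm ℓ) ∧
    ∫ b : ℝ × E3, ∑ i, inB b.2 b.1 (x i) ∂fm ℓ = Fintype.card ι * (3 / (2 * ℓ)) := by
  have e : ∀ (b : ℝ × E3) (p : E3), inB b.2 b.1 p = inB b.2 b.1 p * inB b.2 b.1 p := by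
    intro b p
    unfold inB
    split_ifs <;> norm_num
  have h1 : ∀ p : E3, Integrable (fun b : ℝ × E3 => inB b.2 b.1 p) (fm ℓ) := by
    intro p
    have h2 := fm_pair_int ℓ hℓ p p
    refine h2.congr (Eventually.of_forall fun b => ?_)
    exact (e b p).symm
  refine ⟨integrable_finsetSum _ fun i _ => h1 _, ?_⟩
  rw [integral_finsetSum _ fun i _ => h1 (x i)]
  have h3 : ∀ p : E3, ∫ b : ℝ × E3, inB b.2 b.1 p ∂fm ℓ = 3 / (2 * ℓ) := by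
    intro p
    have h4 := fm_pair ℓ hℓ p p
    rw [sub_self, norm_zero, gs_Fk_zero] at h4
    rw [← h4]
    exact integral_congr_ae (Eventually.of_forall fun b => e b p)
  rw [Finset.sum_congr rfl fun i _ => h3 (x i), Finset.sum_const, Finset.card_univ, nsmul_eq_mul]

theorem gs_nat {ι : Type} [Fintype ι] (b : ℝ × E3) (x : ι → E3) :
    ∃ n : ℕ, ∑ i, inB b.2 b.1 (x i) = n := by
  classical
  refine ⟨(Finset.univ.filter fun i => ‖x i - b.2‖ < b.1).card, ?_⟩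
  unfold inB
  rw [Finset.sum_ite, Finset.sum_const_zero, add_zero, Finset.sum_const, nsmul_eq_mul, mul_one]

theorem gs_arith (z : ℝ) (hz : 0 ≤ z) (n k : ℕ) :
    0 ≤ 1 / 2 * ((n : ℝ) * n) - z * ((n : ℝ) * k) + z ^ 2 / 2 * ((k : ℝ) * k)
      - 1 / 2 * n - z ^ 2 / 2 * k + (2 * z + 1) / 2 * n := by
  have hn : (0 : ℝ) ≤ n := Nat.cast_nonneg n
  rcases Nat.eq_zero_or_pos k with h | h
  · subst h
    have : 0 ≤ z * n := mul_nonneg hz hn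
    simp only [Nat.cast_zero, mul_zero, sub_zero, add_zero]
    nlinarith
  · have h1 : (1 : ℝ) ≤ k := by exact_mod_cast h
    nlinarith [sq_nonneg (z * ((k : ℝ) - 1) - n), mul_nonneg (sq_nonneg z) (sub_nonneg.2 h1)]

theorem gs_diag {ι : Type} [Fintype ι] (ℓ : ℝ) (x : ι → E3) (hx : Function.Injective x) :
    ∑ i, ∑ j, 1 / ‖x i - x j‖ = ∑ i, ∑ j, hker ℓ ‖x i - x j‖ / ‖x i - x j‖ +
      ((∑ i, ∑ j, Fk ℓ ‖x i - x j‖) - Fintype.card ι * (3 / (2 * ℓ))) := by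
  classical
  have h1 : ∀ i, ∑ j, 1 / ‖x i - x j‖ = ∑ j, hker ℓ ‖x i - x j‖ / ‖x i - x j‖ +
      ((∑ j, Fk ℓ ‖x i - x j‖) - 3 / (2 * ℓ)) := by
    intro i
    have e1 : ∀ j, 1 / ‖x i - x j‖ = hker ℓ ‖x i - x j‖ / ‖x i - x j‖ +
        (Fk ℓ ‖x i - x j‖ - if j = i then 3 / (2 * ℓ) else 0) := by
      intro j
      rw [gs_split ℓ (x i) (x j)]
      congr 1
      by_cases h : j = i
      · subst h
        rw [if_pos rfl, if_pos rfl, sub_self (x j), norm_zero, gs_Fk_zero, sub_self]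
      · rw [if_neg (fun hc => h (hx hc).symm), if_neg h, sub_zero]
    rw [Finset.sum_congr rfl fun j _ => e1 j, Finset.sum_add_distrib, Finset.sum_sub_distrib,
      Finset.sum_ite_eq' Finset.univ i, if_pos (Finset.mem_univ i)]
  rw [Finset.sum_congr rfl fun i _ => h1 i, Finset.sum_add_distrib, Finset.sum_sub_distrib,
    Finset.sum_const, Finset.card_univ, nsmul_eq_mul]

theorem gs_balls {ι κ : Type} [Fintype ι] [Fintype κ] (z ℓ : ℝ) (hz : 0 ≤ z) (hℓ : 0 < ℓ)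
    (x : ι → E3) (R : κ → E3) (hx : Function.Injective x) (hR : Function.Injective R)
    (hxR : ∀ i j, x i ≠ R j) :
    (∫ b : ℝ × E3, coulB z x R b.2 b.1 ∂bm ℓ) - 3 / 4 * (2 * z + 1) * Fintype.card ι / ℓ ≤
      coul z x R := by
  rw [gs_coulB z ℓ hℓ]
  unfold coul
  rw [gs_diag ℓ x hx, gs_diag ℓ R hR]
  have e1 : ∑ i, ∑ j, 1 / ‖x i - R j‖ = ∑ i, ∑ j, hker ℓ ‖x i - R j‖ / ‖x i - R j‖ +
      ∑ i, ∑ j, Fk ℓ ‖x i - R j‖ := by
    rw [← Finset.sum_add_distrib]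
    refine Finset.sum_congr rfl fun i _ => ?_
    rw [← Finset.sum_add_distrib]
    refine Finset.sum_congr rfl fun j _ => ?_
    rw [gs_split ℓ (x i) (R j), if_neg (hxR i j)]
  rw [e1]
  obtain ⟨a1, b1⟩ := gs_fm_sum2 ℓ hℓ x x
  obtain ⟨a2, b2⟩ := gs_fm_sum2 ℓ hℓ x R
  obtain ⟨a3, b3⟩ := gs_fm_sum2 ℓ hℓ R R
  obtain ⟨a4, b4⟩ := gs_fm_sum1 ℓ hℓ x
  obtain ⟨a5, b5⟩ := gs_fm_sum1 ℓ hℓ R
  set n : ℝ × E3 → ℝ := fun b => ∑ i, inB b.2 b.1 (x i) with hn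
  set k : ℝ × E3 → ℝ := fun b => ∑ j, inB b.2 b.1 (R j) with hk
  have hpos : 0 ≤ ∫ b, (1 / 2 * (n b * n b) - z * (n b * k b) + z ^ 2 / 2 * (k b * k b)
      - 1 / 2 * n b - z ^ 2 / 2 * k b + (2 * z + 1) / 2 * n b) ∂fm ℓ := by
    refine integral_nonneg fun b => ?_
    obtain ⟨n', hn'⟩ := gs_nat b x
    obtain ⟨k', hk'⟩ := gs_nat b R
    have e2 : n b = n' := hn'
    have e3 : k b = k' := hk'
    simp only [e2, e3, Pi.zero_apply]
    exact gs_arith z hz n' k'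
  have j1 : Integrable (fun b => 1 / 2 * (n b * n b)) (fm ℓ) := a1.const_mul _
  have j2 : Integrable (fun b => z * (n b * k b)) (fm ℓ) := a2.const_mul _
  have j3 : Integrable (fun b => z ^ 2 / 2 * (k b * k b)) (fm ℓ) := a3.const_mul _
  have j4 : Integrable (fun b => 1 / 2 * n b) (fm ℓ) := a4.const_mul _
  have j5 : Integrable (fun b => z ^ 2 / 2 * k b) (fm ℓ) := a5.const_mul _
  have j6 : Integrable (fun b => (2 * z + 1) / 2 * n b) (fm ℓ) := a4.const_mul _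
  have k1 : Integrable (fun b => 1 / 2 * (n b * n b) - z * (n b * k b)) (fm ℓ) := j1.sub j2
  have k2 : Integrable (fun b => 1 / 2 * (n b * n b) - z * (n b * k b) +
    z ^ 2 / 2 * (k b * k b)) (fm ℓ) := k1.add j3
  have k3 : Integrable (fun b => 1 / 2 * (n b * n b) - z * (n b * k b) +
    z ^ 2 / 2 * (k b * k b) - 1 / 2 * n b) (fm ℓ) := k2.sub j4
  have k4 : Integrable (fun b => 1 / 2 * (n b * n b) - z * (n b * k b) +
    z ^ 2 / 2 * (k b * k b) - 1 / 2 * n b - z ^ 2 / 2 * k b) (fm ℓ) := k3.sub j5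
  rw [integral_add k4 j6, integral_sub k3 j5, integral_sub k2 j4, integral_add k1 j3,
    integral_sub j1 j2, integral_const_mul, integral_const_mul, integral_const_mul,
    integral_const_mul, integral_const_mul, integral_const_mul, b1, b2, b3, b4, b5] at hpos
  have e5 : 3 / 4 * (2 * z + 1) * (Fintype.card ι : ℝ) / ℓ =
      (2 * z + 1) / 2 * (Fintype.card ι * (3 / (2 * ℓ))) := by
    field_simp
    ring
  rw [e5]
  linarith

end Pool.Agent.H5R2.NL
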