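import Mathlib
import Pool.Agent.H5R2.NL.Defs

/-!
# Sobolev inequality in three dimensions
-/

set_option autoImplicit false

noncomputable section

namespace Pool.Agent.H5R2.NL

open MeasureTheory Metric
open scoped ENNReal

theorem sob_norm_le_gsq (L : E3 →L[ℝ] ℂ) :
    ‖L‖ ^ 2 ≤ ∑ c : Fin 3, ‖L (EuclideanSpace.single c (1 : ℝ))‖ ^ 2 := by
  set T := ∑ c : Fin 3, ‖L (EuclideanSpace.single c (1 : ℝ))‖ ^ 2 with hT
  have hT0 : 0 ≤ T := Finset.sum_nonneg fun _ _ => by positivity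
  have h : ‖L‖ ≤ Real.sqrt T := by
    refine ContinuousLinearMap.opNorm_le_bound _ (Real.sqrt_nonneg _) fun x => ?_
    have hx : L x = ∑ c : Fin 3, (x c : ℝ) • L (EuclideanSpace.single c (1 : ℝ)) := by
      have hx1 : x = ∑ c : Fin 3, (x c : ℝ) • (EuclideanSpace.single c (1 : ℝ) : E3) := by
        ext i
        simp [Finset.sum_apply, Pi.single_apply]
      conv_lhs => rw [hx1]
      rw [map_sum]
      simp_rw [map_smul]
    have h1 : ‖L x‖ ≤ ∑ c : Fin 3, |x c| * ‖L (EuclideanSpace.single c (1 : ℝ))‖ := by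
      rw [hx]
      refine (norm_sum_le _ _).trans (le_of_eq ?_)
      refine Finset.sum_congr rfl fun c _ => ?_
      rw [norm_smul, Real.norm_eq_abs]
    have h2 := Finset.sum_mul_sq_le_sq_mul_sq Finset.univ (fun c : Fin 3 => |x c|)
      (fun c => ‖L (EuclideanSpace.single c (1 : ℝ))‖)
    have h3 : ∑ c : Fin 3, |x c| ^ 2 = ‖x‖ ^ 2 := by
      rw [EuclideanSpace.norm_sq_eq]
      simp
    rw [h3] at h2
    have h4 : ∑ c : Fin 3, |x c| * ‖L (EuclideanSpace.single c (1 : ℝ))‖ ≤ Real.sqrt T * ‖x‖ := by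
      refine (sq_le_sq₀ (Finset.sum_nonneg fun _ _ => by positivity) (by positivity)).mp ?_
      rw [mul_pow, Real.sq_sqrt hT0]
      linarith
    exact h1.trans h4
  calc ‖L‖ ^ 2 ≤ (Real.sqrt T) ^ 2 := by gcongr
    _ = T := Real.sq_sqrt hT0

theorem sob_continuous_gsq (u : E3 → ℂ) (hu : ContDiff ℝ 1 u) : Continuous (gsq u) := by
  unfold gsq
  have h := hu.continuous_fderiv (by norm_num)
  fun_prop

theorem sob_compact_gsq (u : E3 → ℂ) (hc : HasCompactSupport u) : HasCompactSupport (gsq u) := by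
  have h := hc.fderiv (𝕜 := ℝ)
  refine h.comp_left (g := fun L : E3 →L[ℝ] ℂ => ∑ c : Fin 3, ‖L (EuclideanSpace.single c (1 : ℝ))‖ ^ 2) ?_
  simp

theorem sob_integrable_gsq (u : E3 → ℂ) (hu : ContDiff ℝ 1 u) (hc : HasCompactSupport u) :
    Integrable (gsq u) :=
  (sob_continuous_gsq u hu).integrable_of_hasCompactSupport (sob_compact_gsq u hc)

theorem sob_gsq_nonneg (u : E3 → ℂ) (x : E3) : 0 ≤ gsq u x :=
  Finset.sum_nonneg fun _ _ => by positivity

/-- Sobolev inequality -/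
theorem sob_six : ∃ C : ℝ, 0 < C ∧ ∀ u : E3 → ℂ, ContDiff ℝ 1 u → HasCompactSupport u →
    ∫ x, ‖u x‖ ^ (6 : ℝ) ≤ C * (∫ x, gsq u x) ^ 3 := by
  set K : ℝ := (SNormLESNormFDerivOfEqConst ℂ (volume : Measure E3) ((2 : NNReal) : ℝ) : ℝ) with hK
  refine ⟨K ^ 6 + 1, by positivity, fun u hu hc => ?_⟩
  have hm6 : MemLp u 6 := hu.continuous.memLp_of_hasCompactSupport hc
  have hcf : HasCompactSupport (fderiv ℝ u) := hc.fderiv (𝕜 := ℝ)
  have hm2 : MemLp (fderiv ℝ u) 2 := (hu.continuous_fderiv (by norm_num)).memLp_of_hasCompactSupport hcf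
  have key := eLpNorm_le_eLpNorm_fderiv_of_eq (μ := (volume : Measure E3)) hu hc (p := 2) (p' := 6)
    (by norm_num) (by simp) (by simp; norm_num)
  simp only [ENNReal.coe_ofNat] at key
  rw [hm6.eLpNorm_eq_integral_rpow_norm (by norm_num) (by norm_num),
    hm2.eLpNorm_eq_integral_rpow_norm (by norm_num) (by norm_num)] at key
  have e6 : (6 : ℝ≥0∞).toReal = 6 := by norm_num
  have e2 : (2 : ℝ≥0∞).toReal = 2 := by norm_num
  rw [e6, e2] at key
  set A := ∫ x, ‖u x‖ ^ (6 : ℝ) with hA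
  set D := ∫ x, ‖fderiv ℝ u x‖ ^ (2 : ℝ) with hD
  have hA0 : 0 ≤ A := integral_nonneg fun _ => by positivity
  have hD0 : 0 ≤ D := integral_nonneg fun _ => by positivity
  have hK0 : 0 ≤ K := NNReal.coe_nonneg _
  have key2 : A ^ (6 : ℝ)⁻¹ ≤ K * D ^ (2 : ℝ)⁻¹ := by
    have h1 : ((SNormLESNormFDerivOfEqConst ℂ (volume : Measure E3) ((2 : NNReal) : ℝ) : NNReal) : ℝ≥0∞) =
        ENNReal.ofReal K := by
      rw [hK, ENNReal.ofReal_coe_nnreal]
    rw [h1, ← ENNReal.ofReal_mul hK0] at key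
    exact (ENNReal.ofReal_le_ofReal_iff (by positivity)).mp key
  have hDG : D ≤ ∫ x, gsq u x := by
    refine integral_mono_of_nonneg (Filter.Eventually.of_forall fun x => by positivity)
      (sob_integrable_gsq u hu hc) (Filter.Eventually.of_forall fun x => ?_)
    simp only
    rw [show (2 : ℝ) = ((2 : ℕ) : ℝ) by norm_num, Real.rpow_natCast]
    exact sob_norm_le_gsq _
  have h6 : A = (A ^ (6 : ℝ)⁻¹) ^ 6 := by
    rw [← Real.rpow_natCast, ← Real.rpow_mul hA0]; norm_num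
  have h2 : D ^ 3 = (D ^ (2 : ℝ)⁻¹) ^ 6 := by
    rw [← Real.rpow_natCast (D ^ (2 : ℝ)⁻¹), ← Real.rpow_mul hD0, ← Real.rpow_natCast]; norm_num
  calc A = (A ^ (6 : ℝ)⁻¹) ^ 6 := h6
    _ ≤ (K * D ^ (2 : ℝ)⁻¹) ^ 6 := by gcongr
    _ = K ^ 6 * D ^ 3 := by rw [mul_pow, h2]
    _ ≤ (K ^ 6 + 1) * (∫ x, gsq u x) ^ 3 := by gcongr; linarith

end Pool.Agent.H5R2.NL
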