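import Mathlib
import Pool.Agent.H5R2.NL.Defs
import Pool.Agent.H5R2.NL.Sob0

/-!
# Basic integrals
-/

set_option autoImplicit false

noncomputable section

namespace Pool.Agent.H5R2.NL

open MeasureTheory Metric
open scoped ENNReal

theorem int_vol_ball_one : (volume : Measure E3).real (ball 0 1) = Real.pi * 4 / 3 := by
  rw [Measure.real, EuclideanSpace.volume_ball_fin_three, ENNReal.toReal_mul]
  simp
  positivity

/-- volume of a ball -/
theorem int_vol_ball (w : E3) (r : ℝ) (hr : 0 ≤ r) :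
    (volume : Measure E3).real (ball w r) = 4 / 3 * Real.pi * r ^ 3 := by
  rw [Measure.real, EuclideanSpace.volume_ball_fin_three, ENNReal.toReal_mul, ENNReal.toReal_pow,
    ENNReal.toReal_ofReal hr, ENNReal.toReal_ofReal (by positivity)]
  ring

/-- radial integrals over balls -/
theorem int_radial (f : ℝ → ℝ) (y : E3) (ρ : ℝ) :
    ∫ x in ball y ρ, f ‖x - y‖ = 4 * Real.pi * ∫ t in Set.Ioo 0 ρ, t ^ 2 * f t := by
  have h1 : ∫ x in ball y ρ, f ‖x - y‖ = ∫ x : E3, (Set.Iio ρ).indicator f ‖x - y‖ := by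
    rw [← integral_indicator measurableSet_ball]
    refine integral_congr_ae (Filter.Eventually.of_forall fun x => ?_)
    simp only [Set.indicator, mem_ball, dist_eq_norm, Set.mem_Iio]
  rw [h1, integral_sub_right_eq_self (fun x : E3 => (Set.Iio ρ).indicator f ‖x‖) y,
    integral_fun_norm_addHaar (volume : Measure E3) ((Set.Iio ρ).indicator f), int_vol_ball_one]
  have h2 : ∫ t in Set.Ioi (0 : ℝ), t ^ (Module.finrank ℝ E3 - 1) • (Set.Iio ρ).indicator f t =
      ∫ t in Set.Ioo 0 ρ, t ^ 2 * f t := by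
    rw [← integral_indicator measurableSet_Ioi, ← integral_indicator measurableSet_Ioo]
    congr 1
    ext t
    simp only [Set.indicator, Set.mem_Ioi, Set.mem_Iio, Set.mem_Ioo, smul_eq_mul,
      finrank_euclideanSpace, Fintype.card_fin]
    by_cases h0 : 0 < t <;> by_cases h1 : t < ρ <;> simp [h0, h1]
  rw [h2]
  simp only [finrank_euclideanSpace, Fintype.card_fin, nsmul_eq_mul, smul_eq_mul]
  push_cast
  ring

theorem int_inv (y : E3) (ρ : ℝ) (hρ : 0 ≤ ρ) :
    ∫ x in ball y ρ, 1 / ‖x - y‖ = 2 * Real.pi * ρ ^ 2 := by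
  rw [int_radial (fun t => 1 / t) y ρ]
  have h : ∫ t in Set.Ioo 0 ρ, t ^ 2 * (1 / t) = ∫ t in Set.Ioo 0 ρ, t := by
    apply setIntegral_congr_fun measurableSet_Ioo
    intro t ht
    have := ht.1.ne'
    simp only
    field_simp
  rw [h, ← integral_Ioc_eq_integral_Ioo, ← intervalIntegral.integral_of_le hρ, integral_id]
  ring

theorem int_inv_sq (y : E3) (ρ : ℝ) (hρ : 0 ≤ ρ) :
    ∫ x in ball y ρ, 1 / ‖x - y‖ ^ 2 = 4 * Real.pi * ρ := by
  rw [int_radial (fun t => 1 / t ^ 2) y ρ]
  have h : ∫ t in Set.Ioo 0 ρ, t ^ 2 * (1 / t ^ 2) = ∫ t in Set.Ioo 0 ρ, (1 : ℝ) := by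
    apply setIntegral_congr_fun measurableSet_Ioo
    intro t ht
    have := ht.1.ne'
    simp only
    field_simp
  rw [h, ← integral_Ioc_eq_integral_Ioo, ← intervalIntegral.integral_of_le hρ]
  simp

theorem int_integrableOn_radial (f : ℝ → ℝ) (y c : E3) (ρ : ℝ)
    (h : ∀ r, IntegrableOn (fun t => t ^ 2 * f t) (Set.Ioo 0 r)) :
    IntegrableOn (fun x => f ‖x - y‖) (ball c ρ) := by
  set r := ρ + ‖c - y‖ with hr
  have h1 : IntegrableOn (fun x : E3 => f ‖x‖) (ball (0 : E3) r) := by
    rw [integrableOn_fun_norm_addHaar]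
    simpa using h r
  have h2 : IntegrableOn (fun x : E3 => f ‖x - y‖) (ball y r) := by
    rw [← integrable_indicator_iff measurableSet_ball] at h1 ⊢
    have := h1.comp_sub_right y
    refine this.congr (Filter.Eventually.of_forall fun x => ?_)
    simp only [Set.indicator, mem_ball, dist_eq_norm, sub_zero]
  refine h2.mono_set fun x hx => ?_
  rw [mem_ball, dist_eq_norm] at *
  calc ‖x - y‖ = ‖(x - c) + (c - y)‖ := by congr 1; abel
    _ ≤ ‖x - c‖ + ‖c - y‖ := norm_add_le _ _
    _ < r := by rw [hr]; linarith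

theorem integrableOn_inv (y c : E3) (ρ : ℝ) :
    IntegrableOn (fun x => 1 / ‖x - y‖) (ball c ρ) := by
  refine int_integrableOn_radial (fun t => 1 / t) y c ρ fun r => ?_
  refine (integrableOn_congr_fun (g := fun t => t) ?_ measurableSet_Ioo).mpr ?_
  · intro t ht
    have := ht.1.ne'
    simp only
    field_simp
  · exact (continuous_id.integrableOn_Icc).mono_set Set.Ioo_subset_Icc_self

theorem integrableOn_inv_sq (y c : E3) (ρ : ℝ) :
    IntegrableOn (fun x => 1 / ‖x - y‖ ^ 2) (ball c ρ) := by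
  refine int_integrableOn_radial (fun t => 1 / t ^ 2) y c ρ fun r => ?_
  refine (integrableOn_congr_fun (g := fun _ => (1 : ℝ)) ?_ measurableSet_Ioo).mpr ?_
  · intro t ht
    have := ht.1.ne'
    simp only
    field_simp
  · exact (continuous_const.integrableOn_Icc).mono_set Set.Ioo_subset_Icc_self

theorem distinct_ae {ι κ : Type} [Fintype ι] [Fintype κ] (R : κ → E3) :
    ∀ᵐ x : ι → E3, Function.Injective x ∧ ∀ i j, x i ≠ R j := by
  classical
  have h1 : ∀ i j : ι, i ≠ j → ∀ᵐ x : ι → E3, x i ≠ x j := by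
    intro i j hij
    set s : Submodule ℝ (ι → E3) := 
      LinearMap.ker ((LinearMap.proj i : (ι → E3) →ₗ[ℝ] E3) - LinearMap.proj j) with hs
    have hne : s ≠ ⊤ := by
      intro h
      have : (Pi.single i (EuclideanSpace.single 0 (1 : ℝ)) : ι → E3) ∈ s := by rw [h]; trivial
      rw [hs, LinearMap.mem_ker] at this
      simp [hij.symm] at this
    have h0 := Measure.addHaar_submodule (volume : Measure (ι → E3)) s hne
    rw [ae_iff]
    refine measure_mono_null (fun x hx => ?_) h0
    simp only [Set.mem_ofPred_eq, not_not] at hx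
    rw [SetLike.mem_coe, hs, LinearMap.mem_ker]
    simp [hx]
  have h2 : ∀ (i : ι) (j : κ), ∀ᵐ x : ι → E3, x i ≠ R j := by
    intro i j
    exact Measure.ae_eval_ne (μ := fun _ : ι => (volume : Measure E3)) i (R j)
  have h1' : ∀ᵐ x : ι → E3, ∀ i j : ι, i ≠ j → x i ≠ x j := by
    rw [ae_all_iff]; intro i
    rw [ae_all_iff]; intro j
    by_cases hij : i = j
    · exact Filter.Eventually.of_forall fun x h => absurd hij h
    · filter_upwards [h1 i j hij] with x hx _ using hx
  have h2' : ∀ᵐ x : ι → E3, ∀ (i : ι) (j : κ), x i ≠ R j := by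
    rw [ae_all_iff]; intro i
    rw [ae_all_iff]; intro j
    exact h2 i j
  filter_upwards [h1', h2'] with x hx hx'
  refine ⟨fun i j h => ?_, hx'⟩
  by_contra hne
  exact hx i j hne h

/-- comparison of integrals over a product by slices -/
theorem int_slice_le {ι : Type} [Fintype ι] [DecidableEq ι] (μ : Measure E3) [SigmaFinite μ]
    (F G : (ι → E3) → ℝ≥0∞) (hF : Measurable F) (hG : Measurable G) (i : ι)
    (h : ∀ x : ι → E3, ∫⁻ t, F (Function.update x i t) ∂μ ≤ ∫⁻ t, G (Function.update x i t) ∂μ) :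
    ∫⁻ x, F x ∂(Measure.pi fun _ : ι => μ) ≤ ∫⁻ x, G x ∂(Measure.pi fun _ : ι => μ) := by
  refine lintegral_le_of_lmarginal_le {i} hF hG fun x => ?_
  rw [lmarginal_singleton, lmarginal_singleton]
  exact h x

theorem int_inv_unif (w : E3) (r : ℝ) : ∃ C : ℝ≥0∞, C < ∞ ∧ ∀ y : E3,
    ∫⁻ t in ball w r, ENNReal.ofReal (1 / ‖t - y‖) ≤ C := by
  refine ⟨ENNReal.ofReal (2 * Real.pi) + volume (ball w r), ?_, fun y => ?_⟩
  · exact ENNReal.add_lt_top.mpr ⟨ENNReal.ofReal_lt_top, measure_ball_lt_top⟩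
  have h1 : ∫⁻ t in ball y 1, ENNReal.ofReal (1 / ‖t - y‖) = ENNReal.ofReal (2 * Real.pi) := by
    rw [← ofReal_integral_eq_lintegral_ofReal (integrableOn_inv y y 1)
      (Filter.Eventually.of_forall fun x => by positivity), int_inv y 1 zero_le_one]
    norm_num
  calc ∫⁻ t in ball w r, ENNReal.ofReal (1 / ‖t - y‖)
      ≤ ∫⁻ t in ball w r, ((ball y 1).indicator (fun t => ENNReal.ofReal (1 / ‖t - y‖)) t + 1) := by
        refine lintegral_mono fun t => ?_
        by_cases ht : t ∈ ball y 1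
        · rw [Set.indicator_of_mem ht]; exact le_self_add
        · rw [Set.indicator_of_notMem ht, zero_add]
          rw [mem_ball, dist_eq_norm, not_lt] at ht
          rw [← ENNReal.ofReal_one]
          apply ENNReal.ofReal_le_ofReal
          rw [div_le_one (by linarith)]; exact ht
    _ ≤ ENNReal.ofReal (2 * Real.pi) + volume (ball w r) := by
        rw [lintegral_add_right _ measurable_const]
        refine add_le_add ?_ (by simp)
        rw [← h1]
        refine (setLIntegral_le_lintegral _ _).trans (le_of_eq ?_)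
        exact lintegral_indicator measurableSet_ball _

theorem int_integrable_pair {ι : Type} [Fintype ι] [DecidableEq ι] (w : E3) (r : ℝ) (i : ι)
    (g : (ι → E3) → E3) (hg : Measurable g) (hgi : ∀ x t, g (Function.update x i t) = g x) :
    IntegrableOn (fun x : ι → E3 => 1 / ‖x i - g x‖) (PB ι w r) := by
  obtain ⟨C, hC, hb⟩ := int_inv_unif w r
  unfold PB
  rw [IntegrableOn, volume_pi, Measure.restrict_pi_pi]
  set m := (volume : Measure E3).restrict (ball w r) with hm
  have : IsFiniteMeasure m := ⟨by rw [hm, Measure.restrict_apply_univ]; exact measure_ball_lt_top⟩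
  have hmeas : Measurable fun x : ι → E3 => 1 / ‖x i - g x‖ := by
    refine Measurable.const_div ?_ _
    exact ((measurable_pi_apply i).sub hg).norm
  refine ⟨hmeas.aestronglyMeasurable, ?_⟩
  rw [hasFiniteIntegral_iff_enorm]
  have e : ∀ x : ι → E3, ‖1 / ‖x i - g x‖‖ₑ = ENNReal.ofReal (1 / ‖x i - g x‖) := by
    intro x
    rw [← ofReal_norm, Real.norm_of_nonneg (by positivity)]
  simp only [e]
  by_cases hm0 : m Set.univ = 0
  · have : (Measure.pi fun _ : ι => m) = 0 := by
      rw [← Measure.measure_univ_eq_zero, Measure.pi_univ]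
      exact Finset.prod_eq_zero (Finset.mem_univ i) hm0
    rw [this]; simp
  · have hmt : m Set.univ ≠ ∞ := measure_ne_top m _
    refine (int_slice_le m (fun x => ENNReal.ofReal (1 / ‖x i - g x‖)) (fun _ => C / m Set.univ)
      hmeas.ennreal_ofReal measurable_const i fun x => ?_).trans_lt ?_
    · simp only [Function.update_self, hgi, lintegral_const]
      rw [ENNReal.div_mul_cancel hm0 hmt]
      exact hb (g x)
    · rw [lintegral_const]
      exact ENNReal.mul_lt_top (ENNReal.div_lt_top hC.ne hm0) (measure_lt_top _ _)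

theorem int_bdd_PB {ι : Type} [Fintype ι] (w : E3) (r : ℝ) (u : (ι → E3) → ℂ)
    (hu : Continuous u) : ∃ B : ℝ, ∀ x ∈ PB ι w r, ‖u x‖ ^ 2 ≤ B := by
  have hK : IsCompact (Set.pi Set.univ fun _ : ι => closedBall w r) :=
    isCompact_univ_pi fun _ => isCompact_closedBall w r
  obtain ⟨B, hB⟩ := hK.exists_bound_of_continuousOn (f := fun x => ‖u x‖ ^ 2)
    (by fun_prop)
  refine ⟨B, fun x hx => (le_abs_self _).trans (hB x ?_)⟩
  intro i hi
  exact ball_subset_closedBall (hx i hi)

theorem int_integrable_pair_mul {ι : Type} [Fintype ι] [DecidableEq ι] (w : E3) (r : ℝ) (i : ι)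
    (g : (ι → E3) → E3) (hg : Measurable g) (hgi : ∀ x t, g (Function.update x i t) = g x)
    (u : (ι → E3) → ℂ) (hu : Continuous u) :
    IntegrableOn (fun x : ι → E3 => 1 / ‖x i - g x‖ * ‖u x‖ ^ 2) (PB ι w r) := by
  obtain ⟨B, hB⟩ := int_bdd_PB w r u hu
  have hmeas : Measurable fun x : ι → E3 => 1 / ‖x i - g x‖ := by
    refine Measurable.const_div ?_ _
    exact ((measurable_pi_apply i).sub hg).norm
  refine Integrable.mono' ((int_integrable_pair w r i g hg hgi).mul_const B)
    (hmeas.aestronglyMeasurable.mul (by fun_prop)) ?_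
  have hms : MeasurableSet (PB ι w r) := MeasurableSet.univ_pi fun _ => measurableSet_ball
  filter_upwards [ae_restrict_mem hms] with x hx
  rw [Real.norm_of_nonneg (by positivity)]
  exact mul_le_mul_of_nonneg_left (hB x hx) (by positivity)

theorem integrableOn_ee {ι : Type} [Fintype ι] (w : E3) (r : ℝ) (u : (ι → E3) → ℂ)
    (hu : Continuous u) (i j : ι) :
    IntegrableOn (fun x => 1 / ‖x i - x j‖ * ‖u x‖ ^ 2) (PB ι w r) := by
  classical
  by_cases hij : i = j
  · subst hij
    simp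
  · exact int_integrable_pair_mul w r i (fun x => x j) (measurable_pi_apply j)
      (fun x t => Function.update_of_ne (Ne.symm hij) _ _) u hu

theorem integrableOn_en {ι : Type} [Fintype ι] (w : E3) (r : ℝ) (u : (ι → E3) → ℂ)
    (hu : Continuous u) (i : ι) (R : E3) :
    IntegrableOn (fun x => 1 / ‖x i - R‖ * ‖u x‖ ^ 2) (PB ι w r) := by
  classical
  exact int_integrable_pair_mul w r i (fun _ => R) measurable_const (fun x t => rfl) u hu

theorem int_support_PB {ι : Type} [Fintype ι] (ψ : (ι → E3) → ℂ)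
    (hc : HasCompactSupport ψ) : ∃ r : ℝ, 0 < r ∧ ∀ x, x ∉ PB ι 0 r → ψ x = 0 := by
  obtain ⟨r, hr⟩ := hc.isBounded.subset_ball_lt 0 0
  refine ⟨r, hr.1, fun x hx => ?_⟩
  by_contra h
  apply hx
  have h1 : x ∈ ball (0 : ι → E3) r := hr.2 (subset_tsupport _ h)
  intro i _
  rw [mem_ball, dist_zero_right] at *
  exact (norm_le_pi_norm x i).trans_lt h1

theorem int_integrable_of_PB {ι : Type} [Fintype ι] (ψ : (ι → E3) → ℂ)
    (hc : HasCompactSupport ψ) (k : (ι → E3) → ℝ)
    (h : ∀ r, IntegrableOn (fun x => k x * ‖ψ x‖ ^ 2) (PB ι 0 r)) :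
    Integrable (fun x => k x * ‖ψ x‖ ^ 2) := by
  obtain ⟨r, _, hr⟩ := int_support_PB ψ hc
  rw [← integrableOn_iff_integrable_of_support_subset (s := PB ι 0 r)]
  · exact h r
  · intro x hx
    by_contra hne
    apply hx
    simp [hr x hne]

theorem integrable_ee {ι : Type} [Fintype ι] (ψ : (ι → E3) → ℂ) (hψ : Continuous ψ)
    (hc : HasCompactSupport ψ) (i j : ι) :
    Integrable (fun x => 1 / ‖x i - x j‖ * ‖ψ x‖ ^ 2) :=
  int_integrable_of_PB ψ hc (fun x => 1 / ‖x i - x j‖) fun r => integrableOn_ee 0 r ψ hψ i j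

theorem integrable_en {ι : Type} [Fintype ι] (ψ : (ι → E3) → ℂ) (hψ : Continuous ψ)
    (hc : HasCompactSupport ψ) (i : ι) (R : E3) :
    Integrable (fun x => 1 / ‖x i - R‖ * ‖ψ x‖ ^ 2) :=
  int_integrable_of_PB ψ hc (fun x => 1 / ‖x i - R‖) fun r => integrableOn_en 0 r ψ hψ i R

/-- the gradient in terms of the full derivative -/
theorem gradSq_eq {ι : Type} [Fintype ι] [DecidableEq ι] (u : (ι → E3) → ℂ)
    (hu : ContDiff ℝ 1 u) (i : ι) (x : ι → E3) :
    gradSq u i x = ∑ c : Fin 3,
      ‖fderiv ℝ u x (Pi.single i (EuclideanSpace.single c (1 : ℝ)))‖ ^ 2 := by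
  unfold gradSq gsq
  refine Finset.sum_congr rfl fun c _ => ?_
  have h1 : HasFDerivAt u (fderiv ℝ u x) (Function.update x i (x i)) := by
    rw [Function.update_eq_self]
    exact (hu.differentiable (by norm_num) x).hasFDerivAt
  have h2 := h1.comp (x i) (hasFDerivAt_update (𝕜 := ℝ) x (x i))
  have h3 : fderiv ℝ (fun y => u (Function.update x i y)) (x i) = _ := h2.fderiv
  rw [h3, ContinuousLinearMap.comp_apply]
  have h4 : (ContinuousLinearMap.pi (Pi.single i (ContinuousLinearMap.id ℝ E3)) :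
      E3 →L[ℝ] (ι → E3)) (EuclideanSpace.single c (1 : ℝ)) =
      Pi.single i (EuclideanSpace.single c (1 : ℝ)) := by
    funext j
    by_cases hj : j = i
    · subst hj; simp
    · simp [hj]
  rw [h4]
  
theorem continuous_gradSq {ι : Type} [Fintype ι] [DecidableEq ι] (u : (ι → E3) → ℂ)
    (hu : ContDiff ℝ 1 u) (i : ι) : Continuous (gradSq u i) := by
  have h : gradSq u i = fun x => ∑ c : Fin 3,
      ‖fderiv ℝ u x (Pi.single i (EuclideanSpace.single c (1 : ℝ)))‖ ^ 2 := by
    funext x; exact gradSq_eq u hu i x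
  rw [h]
  have h := hu.continuous_fderiv (by norm_num)
  fun_prop

theorem integrable_gradSq {ι : Type} [Fintype ι] [DecidableEq ι] (u : (ι → E3) → ℂ)
    (hu : ContDiff ℝ 1 u) (hc : HasCompactSupport u) (i : ι) : Integrable (gradSq u i) := by
  refine (continuous_gradSq u hu i).integrable_of_hasCompactSupport ?_
  have h : gradSq u i = fun x => ∑ c : Fin 3,
      ‖fderiv ℝ u x (Pi.single i (EuclideanSpace.single c (1 : ℝ)))‖ ^ 2 := by
    funext x; exact gradSq_eq u hu i x
  rw [h]
  have h := hc.fderiv (𝕜 := ℝ)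
  refine h.comp_left (g := fun L : (ι → E3) →L[ℝ] ℂ =>
    ∑ c : Fin 3, ‖L (Pi.single i (EuclideanSpace.single c (1 : ℝ)))‖ ^ 2) ?_
  simp

end Pool.Agent.H5R2.NL
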