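import Mathlib
import Pool.Agent.H5R2.NL.Defs

/-!
# PUSH : attraction in a ball (helper728)

Divergence theorem for the vector field `(x-R)/|x-R| - (x-c)/r`, whose flow does not leave the ball.
-/

set_option autoImplicit false

noncomputable section

namespace Pool.Agent.H5R2.NL

open MeasureTheory Metric Filter Topology
open scoped ENNReal RealInnerProductSpace

namespace Push

/-- integration by parts -/
theorem ibp {g G : E3 → ℝ} {g' G' : E3 → (E3 →L[ℝ] ℝ)} (hg : ∀ x, HasFDerivAt g (g' x) x)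
    (hG : ∀ x, HasFDerivAt G (G' x) x) (cg' : Continuous g') (cG' : Continuous G')
    (hc : HasCompactSupport g) (w : E3) :
    ∫ x, g x * G' x w = -∫ x, g' x w * G x := by
  have cg : Continuous g := continuous_iff_continuousAt.2 fun x => (hg x).continuousAt
  have cG : Continuous G := continuous_iff_continuousAt.2 fun x => (hG x).continuousAt
  have hc' : HasCompactSupport g' := by
    have : g' = fderiv ℝ g := by funext x; exact (hg x).fderiv.symm
    rw [this]; exact hc.fderiv ℝ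
  have cgw : Continuous (fun x => g' x w) := cg'.clm_apply continuous_const
  have cGw : Continuous (fun x => G' x w) := cG'.clm_apply continuous_const
  have hcw : HasCompactSupport (fun x => g' x w) := by
    refine hc'.mono ?_
    intro x hx
    simp only [Function.mem_support] at hx ⊢
    intro h; rw [h] at hx; simp at hx
  have i1 : Integrable (fun x => g' x w * G x) :=
    (cgw.mul cG).integrable_of_hasCompactSupport hcw.mul_right
  have i2 : Integrable (fun x => g x * G' x w) :=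
    (cg.mul cGw).integrable_of_hasCompactSupport hc.mul_right
  have i3 : Integrable (fun x => g x * G x) :=
    (cg.mul cG).integrable_of_hasCompactSupport hc.mul_right
  exact integral_bilinear_hasFDerivAt_right_eq_neg_left_of_integrable
    (B := ContinuousLinearMap.mul ℝ ℝ) (f := g) (g := G) (f' := g') (g' := G') (v := w)
    (μ := (volume : Measure E3))
    (by simpa using i1) (by simpa using i2) (by simpa using i3) (fun x _ => hg x) (fun x _ => hG x)

/-- derivative of the squared positive part -/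
theorem hasDerivAt_phi (y : ℝ) : HasDerivAt (fun y : ℝ => (max 0 y) ^ 2) (2 * max 0 y) y := by
  rcases lt_trichotomy y 0 with h | h | h
  · have h1 : (fun y : ℝ => (max 0 y) ^ 2) =ᶠ[nhds y] fun _ => (0 : ℝ) := by
      filter_upwards [Iio_mem_nhds h] with z hz
      rw [max_eq_left (le_of_lt hz)]; norm_num
    rw [max_eq_left h.le, mul_zero]
    exact (hasDerivAt_const y (0 : ℝ)).congr_of_eventuallyEq h1
  · subst h
    rw [max_self, mul_zero, hasDerivAt_iff_isLittleO_nhds_zero]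
    have h1 : (fun h : ℝ => (max 0 (0 + h)) ^ 2 - (max 0 0) ^ 2 - h • (0 : ℝ)) =O[nhds 0]
        fun h : ℝ => h ^ 2 := by
      refine Asymptotics.IsBigO.of_bound 1 (Eventually.of_forall fun h => ?_)
      simp only [zero_add, max_self, smul_zero, sub_zero, ne_eq, OfNat.ofNat_ne_zero,
        not_false_eq_true, zero_pow, one_mul, norm_pow, Real.norm_eq_abs]
      apply pow_le_pow_left₀ (abs_nonneg _)
      rcases le_total h 0 with h0 | h0
      · rw [max_eq_left h0]; simp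
      · rw [max_eq_right h0]
    exact h1.trans_isLittleO (Asymptotics.isLittleO_pow_id one_lt_two)
  · have h1 : (fun y : ℝ => (max 0 y) ^ 2) =ᶠ[nhds y] fun y => y ^ 2 := by
      filter_upwards [Ioi_mem_nhds h] with z hz
      rw [max_eq_right (le_of_lt hz)]
    rw [max_eq_right h.le]
    have := (hasDerivAt_pow 2 y).congr_of_eventuallyEq h1
    simpa using this

/-- `|x-c|²/r²` -/
def tt (c : E3) (r : ℝ) (x : E3) : ℝ := ‖x - c‖ ^ 2 / r ^ 2

def tt' (c : E3) (r : ℝ) (x : E3) : E3 →L[ℝ] ℝ := (2 / r ^ 2) • innerSL ℝ (x - c)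

theorem tt_deriv (c : E3) (r : ℝ) (x : E3) : HasFDerivAt (tt c r) (tt' c r x) x := by
  have h1 : HasFDerivAt (fun x : E3 => x - c) (ContinuousLinearMap.id ℝ E3) x :=
    (hasFDerivAt_id x).sub_const c
  have h2 := (h1.norm_sq).mul_const (r ^ 2)⁻¹
  have h3 : HasFDerivAt (tt c r) ((r ^ 2)⁻¹ • (2 • (innerSL ℝ (x - c)).comp
      (ContinuousLinearMap.id ℝ E3))) x := by
    unfold tt
    simp only [div_eq_mul_inv]
    exact h2
  convert h3 using 1
  unfold tt'
  ext w
  simp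
  ring

theorem tt_nonneg (c : E3) (r : ℝ) (x : E3) : 0 ≤ tt c r x := by unfold tt; positivity

theorem tt_cont (c : E3) (r : ℝ) : Continuous (tt c r) := by unfold tt; fun_prop

theorem tt'_cont (c : E3) (r : ℝ) : Continuous (tt' c r) := by unfold tt'; fun_prop

theorem tt_lt_one {c : E3} {r : ℝ} (hr : 0 < r) {x : E3} : tt c r x < 1 ↔ x ∈ ball c r := by
  unfold tt
  rw [div_lt_one (by positivity), mem_ball, dist_eq_norm]
  constructor
  · intro h; exact lt_of_pow_lt_pow_left₀ 2 hr.le h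
  · intro h; exact pow_lt_pow_left₀ h (norm_nonneg _) (by norm_num)

/-- the cutoff -/
def zet (c : E3) (r : ℝ) (n : ℕ) (x : E3) : ℝ := (max 0 (1 - tt c r x ^ (n + 1))) ^ 2

def zet' (c : E3) (r : ℝ) (n : ℕ) (x : E3) : E3 →L[ℝ] ℝ :=
  (2 * max 0 (1 - tt c r x ^ (n + 1))) • (-((n + 1 : ℝ) * tt c r x ^ n) • tt' c r x)

theorem zet_deriv (c : E3) (r : ℝ) (n : ℕ) (x : E3) :
    HasFDerivAt (zet c r n) (zet' c r n x) x := by
  have h1 : HasFDerivAt (fun x => 1 - tt c r x ^ (n + 1))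
      (-(((n + 1 : ℕ) : ℝ) * tt c r x ^ n) • tt' c r x) x := by
    have := ((tt_deriv c r x).pow (n + 1)).const_sub 1
    refine this.congr_fderiv ?_
    ext w
    simp
  have h2 := (hasDerivAt_phi (1 - tt c r x ^ (n + 1))).comp_hasFDerivAt x h1
  refine HasFDerivAt.congr_fderiv h2 ?_
  unfold zet'
  push_cast
  rfl

theorem zet_cont' (c : E3) (r : ℝ) (n : ℕ) : Continuous (zet' c r n) := by
  unfold zet'
  have h1 := tt_cont c r
  have h2 := tt'_cont c r
  fun_prop

theorem zet_nonneg (c : E3) (r : ℝ) (n : ℕ) (x : E3) : 0 ≤ zet c r n x := sq_nonneg _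

theorem zet_le_one (c : E3) (r : ℝ) (n : ℕ) (x : E3) : zet c r n x ≤ 1 := by
  unfold zet
  have h1 : max 0 (1 - tt c r x ^ (n + 1)) ≤ 1 := by
    apply max_le zero_le_one
    have := pow_nonneg (tt_nonneg c r x) (n + 1)
    linarith
  have h2 : 0 ≤ max 0 (1 - tt c r x ^ (n + 1)) := le_max_left _ _
  nlinarith

theorem max_out {c : E3} {r : ℝ} (hr : 0 < r) (n : ℕ) {x : E3} (hx : x ∉ ball c r) :
    max 0 (1 - tt c r x ^ (n + 1)) = 0 := by
  have h1 : 1 ≤ tt c r x := not_lt.1 fun h => hx ((tt_lt_one hr).1 h)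
  have h2 : 1 ≤ tt c r x ^ (n + 1) := one_le_pow₀ h1
  exact max_eq_left (by linarith)

theorem zet_out {c : E3} {r : ℝ} (hr : 0 < r) (n : ℕ) {x : E3} (hx : x ∉ ball c r) :
    zet c r n x = 0 := by
  unfold zet; rw [max_out hr n hx]; norm_num

theorem zet_supp {c : E3} {r : ℝ} (hr : 0 < r) (n : ℕ) : HasCompactSupport (zet c r n) := by
  refine HasCompactSupport.intro (isCompact_closedBall c r) fun x hx => ?_
  exact zet_out hr n fun h => hx (ball_subset_closedBall h)

/-- `√(|x-R|²+ε)` -/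
def ss (R : E3) (ε : ℝ) (x : E3) : ℝ := Real.sqrt (‖x - R‖ ^ 2 + ε)

theorem ss_pos (R : E3) {ε : ℝ} (hε : 0 < ε) (x : E3) : 0 < ss R ε x :=
  Real.sqrt_pos.2 (by positivity)

theorem ss_ge (R : E3) {ε : ℝ} (hε : 0 < ε) (x : E3) : ‖x - R‖ ≤ ss R ε x := by
  unfold ss
  apply Real.le_sqrt_of_sq_le
  linarith

theorem ss_deriv (R : E3) {ε : ℝ} (hε : 0 < ε) (x : E3) :
    HasFDerivAt (ss R ε) ((ss R ε x)⁻¹ • innerSL ℝ (x - R)) x := by
  have h1 : HasFDerivAt (fun x : E3 => x - R) (ContinuousLinearMap.id ℝ E3) x :=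
    (hasFDerivAt_id x).sub_const R
  have h2 := (h1.norm_sq).add_const ε
  have h3 := h2.sqrt (by positivity)
  refine HasFDerivAt.congr_fderiv (f := ss R ε) h3 ?_
  ext w
  simp only [ContinuousLinearMap.comp_id, smul_apply, innerSL_apply_apply,
    smul_eq_mul, nsmul_eq_mul]
  unfold ss
  have : Real.sqrt (‖x - R‖ ^ 2 + ε) ≠ 0 := (ss_pos R hε x).ne'
  field_simp
  try ring

theorem ss_cont (R : E3) (ε : ℝ) : Continuous (ss R ε) := by unfold ss; fun_prop

/-- the `i`-th component of the vector field -/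
def Fi (c R : E3) (r ε : ℝ) (i : Fin 3) (x : E3) : ℝ :=
  (ss R ε x)⁻¹ * (x i - R i) - r⁻¹ * (x i - c i)

def Fi' (c R : E3) (r ε : ℝ) (i : Fin 3) (x : E3) : E3 →L[ℝ] ℝ :=
  ((ss R ε x)⁻¹ • EuclideanSpace.proj i +
    (x i - R i) • (-((ss R ε x) ^ 2)⁻¹ • ((ss R ε x)⁻¹ • innerSL ℝ (x - R)))) -
  r⁻¹ • EuclideanSpace.proj i

theorem Fi_deriv (c R : E3) (r : ℝ) {ε : ℝ} (hε : 0 < ε) (i : Fin 3) (x : E3) :
    HasFDerivAt (Fi c R r ε i) (Fi' c R r ε i x) x := by
  have hp : ∀ a : ℝ, HasFDerivAt (fun x : E3 => x i - a)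
      (EuclideanSpace.proj i : E3 →L[ℝ] ℝ) x := by
    intro a
    exact ((EuclideanSpace.proj i : E3 →L[ℝ] ℝ).hasFDerivAt).sub_const a
  have hs : HasFDerivAt (fun x => (ss R ε x)⁻¹)
      (-((ss R ε x) ^ 2)⁻¹ • ((ss R ε x)⁻¹ • innerSL ℝ (x - R))) x :=
    (hasDerivAt_inv (ss_pos R hε x).ne').comp_hasFDerivAt x (ss_deriv R hε x)
  exact (hs.mul (hp (R i))).sub ((hp (c i)).const_mul r⁻¹)

theorem Fi_cont' (c R : E3) (r : ℝ) {ε : ℝ} (hε : 0 < ε) (i : Fin 3) :
    Continuous (Fi' c R r ε i) := by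
  unfold Fi'
  have h1 := ss_cont R ε
  have h2 : ∀ x, ss R ε x ≠ 0 := fun x => (ss_pos R hε x).ne'
  have h3 : Continuous (fun x => (ss R ε x)⁻¹) := h1.inv₀ h2
  have h4 : Continuous (fun x => ((ss R ε x) ^ 2)⁻¹) := (h1.pow 2).inv₀ fun x => pow_ne_zero 2 (h2 x)
  fun_prop

/-- the vector field -/
def Fv (c R : E3) (r ε : ℝ) (x : E3) : E3 := (ss R ε x)⁻¹ • (x - R) - r⁻¹ • (x - c)

theorem Fv_apply (c R : E3) (r ε : ℝ) (x : E3) (i : Fin 3) : Fv c R r ε x i = Fi c R r ε i x := by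
  simp [Fv, Fi]

theorem sum_single (w : E3) : w = ∑ i, w i • EuclideanSpace.single i (1 : ℝ) := by
  ext j
  simp [Finset.sum_apply, Pi.single_apply]

theorem lin_sum (L : E3 →L[ℝ] ℝ) (w : E3) :
    ∑ i, L (EuclideanSpace.single i (1 : ℝ)) * w i = L w := by
  conv_rhs => rw [sum_single w]
  rw [map_sum]
  refine Finset.sum_congr rfl fun i _ => ?_
  rw [map_smul, smul_eq_mul, mul_comm]

theorem norm_sq_sum (w : E3) : ∑ i, w i ^ 2 = ‖w‖ ^ 2 := by
  rw [EuclideanSpace.norm_sq_eq]; simp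

/-- divergence of the vector field -/
theorem div_eq (c R : E3) (r ε : ℝ) (x : E3) :
    ∑ i, Fi' c R r ε i x (EuclideanSpace.single i (1 : ℝ)) =
      3 * (ss R ε x)⁻¹ - ‖x - R‖ ^ 2 * ((ss R ε x) ^ 2)⁻¹ * (ss R ε x)⁻¹ - 3 * r⁻¹ := by
  have h1 : ∀ i, Fi' c R r ε i x (EuclideanSpace.single i (1 : ℝ)) =
      (ss R ε x)⁻¹ - (x - R) i ^ 2 * (((ss R ε x) ^ 2)⁻¹ * (ss R ε x)⁻¹) - r⁻¹ := by
    intro i
    have h2 : (EuclideanSpace.proj i : E3 →L[ℝ] ℝ) (EuclideanSpace.single i (1 : ℝ)) = 1 := by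
      show (EuclideanSpace.single i (1 : ℝ) : E3) i = 1
      simp
    simp only [Fi', sub_apply, add_apply, smul_apply, h2,
      innerSL_apply_apply, smul_eq_mul, PiLp.sub_apply]
    rw [EuclideanSpace.inner_single_right]
    simp
    ring
  simp only [h1, Finset.sum_sub_distrib, ← Finset.sum_mul, norm_sq_sum]
  simp
  ring

theorem div_ge (c R : E3) (r : ℝ) {ε : ℝ} (hε : 0 < ε) (x : E3) :
    2 * (ss R ε x)⁻¹ - 3 * r⁻¹ ≤ ∑ i, Fi' c R r ε i x (EuclideanSpace.single i (1 : ℝ)) := by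
  rw [div_eq]
  have hs := ss_pos R hε x
  have h1 : ‖x - R‖ ^ 2 * ((ss R ε x) ^ 2)⁻¹ ≤ 1 := by
    rw [← div_eq_mul_inv, div_le_one (by positivity)]
    exact pow_le_pow_left₀ (norm_nonneg _) (ss_ge R hε x) 2
  have h2 : ‖x - R‖ ^ 2 * ((ss R ε x) ^ 2)⁻¹ * (ss R ε x)⁻¹ ≤ 1 * (ss R ε x)⁻¹ :=
    mul_le_mul_of_nonneg_right h1 (inv_pos.2 hs).le
  linarith

theorem Fv_norm {c : E3} (R : E3) {r ε : ℝ} (hr : 0 < r) (hε : 0 < ε) {x : E3}
    (hx : x ∈ ball c r) : ‖Fv c R r ε x‖ ≤ 2 := by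
  unfold Fv
  have hs := ss_pos R hε x
  refine (norm_sub_le _ _).trans ?_
  rw [norm_smul, norm_smul, Real.norm_eq_abs, Real.norm_eq_abs, abs_of_pos (inv_pos.2 hs),
    abs_of_pos (inv_pos.2 hr)]
  have h1 : (ss R ε x)⁻¹ * ‖x - R‖ ≤ 1 := by
    rw [inv_mul_le_iff₀ hs, mul_one]; exact ss_ge R hε x
  have h2 : r⁻¹ * ‖x - c‖ ≤ 1 := by
    rw [inv_mul_le_iff₀ hr, mul_one]; rw [mem_ball, dist_eq_norm] at hx; exact hx.le
  linarith

/-- bound of the boundary term -/
def bn (c : E3) (r : ℝ) (n : ℕ) (x : E3) : ℝ :=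
  4 / r * ((n + 1 : ℝ) * tt c r x ^ n * (1 - tt c r x))

theorem zet'_le {c : E3} (R : E3) {r ε : ℝ} (hr : 0 < r) (hε : 0 < ε) (n : ℕ) {x : E3}
    (hx : x ∈ ball c r) : -(zet' c r n x (Fv c R r ε x)) ≤ bn c r n x := by
  have hs := ss_pos R hε x
  have ht := (tt_lt_one hr).2 hx
  have ht0 := tt_nonneg c r x
  set t := tt c r x with htdef
  set ρ := ‖x - c‖ with hρ
  have hρ0 : 0 ≤ ρ := norm_nonneg _
  have hρr : ρ < r := by rw [mem_ball, dist_eq_norm] at hx; exact hx
  have htρ : t * r ^ 2 = ρ ^ 2 := by rw [htdef, tt, hρ]; field_simp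
  have e1 : zet' c r n x (Fv c R r ε x) =
      -(2 * max 0 (1 - t ^ (n + 1)) * ((n + 1 : ℝ) * t ^ n) * (2 / r ^ 2) *
        ⟪x - c, Fv c R r ε x⟫) := by
    simp only [zet', tt', smul_apply, innerSL_apply_apply, smul_eq_mul, ← htdef]
    ring
  have e2 : ⟪x - c, Fv c R r ε x⟫ ≤ r * (1 - t) := by
    unfold Fv
    rw [inner_sub_right, inner_smul_right, inner_smul_right, real_inner_self_eq_norm_sq]
    have h1 : ⟪x - c, x - R⟫ ≤ ρ * ‖x - R‖ := real_inner_le_norm _ _
    have h2 : (ss R ε x)⁻¹ * ⟪x - c, x - R⟫ ≤ ρ := by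
      rw [inv_mul_le_iff₀ hs]
      calc ⟪x - c, x - R⟫ ≤ ρ * ‖x - R‖ := h1
        _ ≤ ρ * ss R ε x := mul_le_mul_of_nonneg_left (ss_ge R hε x) hρ0
        _ = ss R ε x * ρ := mul_comm _ _
    have h3 : r⁻¹ * ρ ^ 2 = r * t := by rw [← htρ]; field_simp
    rw [← hρ, h3]
    have h4 : ρ ≤ r := hρr.le
    linarith
  have hM0 : 0 ≤ max 0 (1 - t ^ (n + 1)) := le_max_left _ _
  have hM1 : max 0 (1 - t ^ (n + 1)) ≤ 1 := by
    apply max_le zero_le_one
    have := pow_nonneg ht0 (n + 1)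
    linarith
  rw [e1, neg_neg]
  unfold bn
  rw [← htdef]
  have hA : 0 ≤ ((n + 1 : ℝ) * t ^ n) := by positivity
  calc 2 * max 0 (1 - t ^ (n + 1)) * ((n + 1 : ℝ) * t ^ n) * (2 / r ^ 2) * ⟪x - c, Fv c R r ε x⟫
      ≤ 2 * max 0 (1 - t ^ (n + 1)) * ((n + 1 : ℝ) * t ^ n) * (2 / r ^ 2) * (r * (1 - t)) := by
        apply mul_le_mul_of_nonneg_left e2; positivity
    _ ≤ 2 * 1 * ((n + 1 : ℝ) * t ^ n) * (2 / r ^ 2) * (r * (1 - t)) := by
        have : 0 ≤ 1 - t := by linarith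
        gcongr
    _ = 4 / r * ((n + 1 : ℝ) * t ^ n * (1 - t)) := by field_simp; ring

theorem bn_nonneg {c : E3} {r : ℝ} (hr : 0 < r) (n : ℕ) {x : E3} (hx : x ∈ ball c r) :
    0 ≤ bn c r n x := by
  have ht := (tt_lt_one hr).2 hx
  have ht0 := tt_nonneg c r x
  unfold bn
  have : 0 ≤ 1 - tt c r x := by linarith
  positivity

theorem geo_le {t : ℝ} (h0 : 0 ≤ t) (h1 : t < 1) (n : ℕ) : (n + 1 : ℝ) * t ^ n * (1 - t) ≤ 1 := by
  have h2 : (n + 1 : ℝ) * t ^ n ≤ ∑ i ∈ Finset.range (n + 1), t ^ i := by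
    have : ∑ _i ∈ Finset.range (n + 1), t ^ n ≤ ∑ i ∈ Finset.range (n + 1), t ^ i := by
      apply Finset.sum_le_sum
      intro i hi
      exact pow_le_pow_of_le_one h0 h1.le (by have := Finset.mem_range.1 hi; omega)
    simpa using this
  have h3 : (∑ i ∈ Finset.range (n + 1), t ^ i) * (1 - t) = 1 - t ^ (n + 1) := by
    have := geom_sum_mul t (n + 1)
    linarith
  calc (n + 1 : ℝ) * t ^ n * (1 - t) ≤ (∑ i ∈ Finset.range (n + 1), t ^ i) * (1 - t) :=
        mul_le_mul_of_nonneg_right h2 (by linarith)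
    _ = 1 - t ^ (n + 1) := h3
    _ ≤ 1 := by have := pow_nonneg h0 (n + 1); linarith

theorem bn_le {c : E3} {r : ℝ} (hr : 0 < r) (n : ℕ) {x : E3} (hx : x ∈ ball c r) :
    bn c r n x ≤ 4 / r := by
  have ht := (tt_lt_one hr).2 hx
  have ht0 := tt_nonneg c r x
  unfold bn
  calc 4 / r * ((n + 1 : ℝ) * tt c r x ^ n * (1 - tt c r x)) ≤ 4 / r * 1 :=
        mul_le_mul_of_nonneg_left (geo_le ht0 ht n) (by positivity)
    _ = 4 / r := mul_one _

theorem bn_tendsto {c : E3} {r : ℝ} (hr : 0 < r) {x : E3} (hx : x ∈ ball c r) :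
    Tendsto (fun n => bn c r n x) atTop (nhds 0) := by
  have ht := (tt_lt_one hr).2 hx
  have ht0 := tt_nonneg c r x
  unfold bn
  have h1 : Tendsto (fun n : ℕ => (n : ℝ) * tt c r x ^ n) atTop (nhds 0) :=
    tendsto_self_mul_const_pow_of_lt_one ht0 ht
  have h2 : Tendsto (fun n : ℕ => tt c r x ^ n) atTop (nhds 0) :=
    tendsto_pow_atTop_nhds_zero_of_lt_one ht0 ht
  have h3 : Tendsto (fun n : ℕ => 4 / r * (((n : ℝ) * tt c r x ^ n + tt c r x ^ n) *
      (1 - tt c r x))) atTop (nhds (4 / r * ((0 + 0) * (1 - tt c r x)))) :=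
    ((h1.add h2).mul_const _).const_mul _
  simp only [add_zero, zero_mul, mul_zero] at h3
  refine h3.congr fun n => ?_
  ring

theorem zet_tendsto {c : E3} {r : ℝ} (hr : 0 < r) {x : E3} (hx : x ∈ ball c r) :
    Tendsto (fun n => zet c r n x) atTop (nhds 1) := by
  have ht := (tt_lt_one hr).2 hx
  have ht0 := tt_nonneg c r x
  unfold zet
  have h2 : Tendsto (fun n : ℕ => tt c r x ^ (n + 1)) atTop (nhds 0) :=
    (tendsto_pow_atTop_nhds_zero_of_lt_one ht0 ht).comp (tendsto_add_atTop_nat 1)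
  have h3 : Tendsto (fun n : ℕ => (max 0 (1 - tt c r x ^ (n + 1))) ^ 2) atTop
      (nhds ((max 0 (1 - 0)) ^ 2)) :=
    (tendsto_const_nhds.max (tendsto_const_nhds.sub h2)).pow 2
  simpa using h3

/-- derivative of `|v|²` -/
def fD (v : E3 → ℂ) (x : E3) : E3 →L[ℝ] ℝ := 2 • (innerSL ℝ (v x)).comp (fderiv ℝ v x)

theorem f_deriv {v : E3 → ℂ} (hv : ContDiff ℝ 1 v) (x : E3) :
    HasFDerivAt (fun x => ‖v x‖ ^ 2) (fD v x) x :=
  ((hv.differentiable (by norm_num)) x).hasFDerivAt.norm_sq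

theorem f_cont' {v : E3 → ℂ} (hv : ContDiff ℝ 1 v) : Continuous (fD v) := by
  unfold fD
  have h1 : Continuous (fderiv ℝ v) := hv.continuous_fderiv (by norm_num)
  have h2 : Continuous v := hv.continuous
  fun_prop

theorem gsq_nonneg (v : E3 → ℂ) (x : E3) : 0 ≤ gsq v x :=
  Finset.sum_nonneg fun _ _ => sq_nonneg _

theorem gsq_cont {v : E3 → ℂ} (hv : ContDiff ℝ 1 v) : Continuous (gsq v) := by
  unfold gsq
  have h1 : Continuous (fderiv ℝ v) := hv.continuous_fderiv (by norm_num)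
  fun_prop

theorem fderiv_le (v : E3 → ℂ) (x w : E3) :
    ‖fderiv ℝ v x w‖ ≤ ‖w‖ * Real.sqrt (gsq v x) := by
  conv_lhs => rw [sum_single w]
  rw [map_sum]
  refine (norm_sum_le _ _).trans ?_
  have h1 : ∀ i, ‖fderiv ℝ v x (w i • EuclideanSpace.single i (1 : ℝ))‖ =
      |w i| * ‖fderiv ℝ v x (EuclideanSpace.single i (1 : ℝ))‖ := by
    intro i
    rw [map_smul, norm_smul, Real.norm_eq_abs]
  simp only [h1]
  refine (Real.sum_mul_le_sqrt_mul_sqrt _ _ _).trans (le_of_eq ?_)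
  simp only [sq_abs, norm_sq_sum]
  rw [Real.sqrt_sq (norm_nonneg _)]
  rfl

theorem fD_le (v : E3 → ℂ) (x w : E3) :
    |fD v x w| ≤ 2 * (‖v x‖ * Real.sqrt (gsq v x)) * ‖w‖ := by
  unfold fD
  simp only [smul_apply, ContinuousLinearMap.comp_apply, innerSL_apply_apply, nsmul_eq_mul]
  rw [abs_mul]
  have h1 : |⟪v x, fderiv ℝ v x w⟫| ≤ ‖v x‖ * ‖fderiv ℝ v x w‖ := abs_real_inner_le_norm _ _
  have h2 : ‖v x‖ * ‖fderiv ℝ v x w‖ ≤ ‖v x‖ * (‖w‖ * Real.sqrt (gsq v x)) :=
    mul_le_mul_of_nonneg_left (fderiv_le v x w) (norm_nonneg _)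
  push_cast
  rw [abs_of_pos (by norm_num : (0:ℝ) < 2)]
  nlinarith

/-- the main inequality, regularised -/
theorem main_n (c R : E3) {r : ℝ} (hr : 0 < r) {v : E3 → ℂ} (hv : ContDiff ℝ 1 v) (n : ℕ)
    {ε : ℝ} (hε : 0 < ε) :
    ∫ x in ball c r, 2 * (zet c r n x * ‖v x‖ ^ 2 * (ss R ε x)⁻¹) ≤
      3 * r⁻¹ * (∫ x in ball c r, ‖v x‖ ^ 2) +
        (4 * (∫ x in ball c r, ‖v x‖ * Real.sqrt (gsq v x)) +
          ∫ x in ball c r, ‖v x‖ ^ 2 * bn c r n x) := by
  have cv : Continuous v := hv.continuous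
  have cf : Continuous (fun x => ‖v x‖ ^ 2) := by fun_prop
  have cs := ss_cont R ε
  have csi : Continuous (fun x => (ss R ε x)⁻¹) := cs.inv₀ fun x => (ss_pos R hε x).ne'
  have cz : Continuous (zet c r n) :=
    continuous_iff_continuousAt.2 fun x => (zet_deriv c r n x).continuousAt
  have cz' := zet_cont' c r n
  have cf' := f_cont' hv
  have cgs := gsq_cont hv
  set g : E3 → ℝ := fun x => zet c r n x * ‖v x‖ ^ 2 with hg
  set g' : E3 → (E3 →L[ℝ] ℝ) := fun x => zet c r n x • fD v x + ‖v x‖ ^ 2 • zet' c r n x with hg'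
  have hgd : ∀ x, HasFDerivAt g (g' x) x := fun x => (zet_deriv c r n x).mul (f_deriv hv x)
  have cg : Continuous g := cz.mul cf
  have cg' : Continuous g' := (cz.smul cf').add (cf.smul cz')
  have hgc : HasCompactSupport g := (zet_supp hr n).mul_right
  have hg'c : HasCompactSupport g' := by
    have : g' = fderiv ℝ g := by funext x; exact (hgd x).fderiv.symm
    rw [this]; exact hgc.fderiv ℝ
  -- sum of the integrations by parts
  have cFi' : ∀ i, Continuous (fun x => Fi' c R r ε i x (EuclideanSpace.single i (1 : ℝ))) :=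
    fun i => (Fi_cont' c R r hε i).clm_apply continuous_const
  have cFi : ∀ i, Continuous (Fi c R r ε i) := fun i =>
    continuous_iff_continuousAt.2 fun x => (Fi_deriv c R r hε i x).continuousAt
  have k1 : ∫ x, g x * ∑ i, Fi' c R r ε i x (EuclideanSpace.single i (1 : ℝ)) =
      -∫ x, g' x (Fv c R r ε x) := by
    have h1 : ∀ i, ∫ x, g x * Fi' c R r ε i x (EuclideanSpace.single i (1 : ℝ)) =
        -∫ x, g' x (EuclideanSpace.single i (1 : ℝ)) * Fi c R r ε i x := fun i =>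
      ibp hgd (fun x => Fi_deriv c R r hε i x) cg' (Fi_cont' c R r hε i) hgc _
    have h2 : ∀ i ∈ Finset.univ, Integrable (fun x => g x *
        Fi' c R r ε i x (EuclideanSpace.single i (1 : ℝ))) := fun i _ =>
      (cg.mul (cFi' i)).integrable_of_hasCompactSupport hgc.mul_right
    have h3 : ∀ i ∈ Finset.univ, Integrable (fun x => g' x (EuclideanSpace.single i (1 : ℝ)) *
        Fi c R r ε i x) := fun i _ => by
      refine ((cg'.clm_apply continuous_const).mul (cFi i)).integrable_of_hasCompactSupport ?_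
      refine hg'c.mono ?_
      intro x hx
      simp only [Function.mem_support] at hx ⊢
      intro h
      apply hx
      show g' x (EuclideanSpace.single i (1 : ℝ)) * Fi c R r ε i x = 0
      rw [h]; simp
    simp only [Finset.mul_sum]
    rw [integral_finsetSum _ h2]
    simp only [h1]
    rw [Finset.sum_neg_distrib, ← integral_finsetSum _ h3]
    congr 1
    refine integral_congr_ae (Eventually.of_forall fun x => ?_)
    show ∑ i, g' x (EuclideanSpace.single i (1 : ℝ)) * Fi c R r ε i x = g' x (Fv c R r ε x)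
    rw [← lin_sum]
    refine Finset.sum_congr rfl fun i _ => ?_
    rw [Fv_apply]
  have ion : ∀ {h : E3 → ℝ}, Continuous h → IntegrableOn h (ball c r) := fun hc =>
    (hc.continuousOn.integrableOn_compact (isCompact_closedBall c r)).mono_set
      ball_subset_closedBall
  have cbn : Continuous (bn c r n) := by
    unfold bn; have := tt_cont c r; fun_prop
  -- left side
  have k2 : ∫ x, g x * (2 * (ss R ε x)⁻¹ - 3 * r⁻¹) ≤
      ∫ x, g x * ∑ i, Fi' c R r ε i x (EuclideanSpace.single i (1 : ℝ)) := by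
    apply integral_mono
    · exact (cg.mul (by fun_prop)).integrable_of_hasCompactSupport hgc.mul_right
    · exact (cg.mul (continuous_finsetSum _ fun i _ => cFi' i)).integrable_of_hasCompactSupport
        hgc.mul_right
    · intro x
      exact mul_le_mul_of_nonneg_left (div_ge c R r hε x)
        (mul_nonneg (zet_nonneg _ _ _ _) (sq_nonneg _))
  have k3 : ∫ x, g x * (2 * (ss R ε x)⁻¹ - 3 * r⁻¹) =
      (∫ x in ball c r, 2 * (g x * (ss R ε x)⁻¹)) - 3 * r⁻¹ * ∫ x in ball c r, g x := by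
    have h1 : ∫ x, g x * (2 * (ss R ε x)⁻¹ - 3 * r⁻¹) =
        ∫ x in ball c r, g x * (2 * (ss R ε x)⁻¹ - 3 * r⁻¹) := by
      rw [setIntegral_eq_integral_of_forall_compl_eq_zero]
      intro x hx
      simp only [hg, zet_out hr n hx, zero_mul]
    rw [h1, ← integral_const_mul, ← integral_sub]
    · refine integral_congr_ae (Eventually.of_forall fun x => ?_)
      show g x * (2 * (ss R ε x)⁻¹ - 3 * r⁻¹) = 2 * (g x * (ss R ε x)⁻¹) - 3 * r⁻¹ * g x
      ring
    · exact ion (by fun_prop)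
    · exact ion (by fun_prop)
  have k4 : ∫ x in ball c r, g x ≤ ∫ x in ball c r, ‖v x‖ ^ 2 := by
    apply setIntegral_mono (ion cg) (ion cf)
    intro x
    show zet c r n x * ‖v x‖ ^ 2 ≤ ‖v x‖ ^ 2
    have := zet_le_one c r n x
    nlinarith [sq_nonneg ‖v x‖]
  -- right side
  have cFv : Continuous (Fv c R r ε) := by unfold Fv; fun_prop
  have cgF : Continuous (fun x => g' x (Fv c R r ε x)) := cg'.clm_apply cFv
  have k5 : -∫ x, g' x (Fv c R r ε x) ≤
      ∫ x in ball c r, (4 * (‖v x‖ * Real.sqrt (gsq v x)) + ‖v x‖ ^ 2 * bn c r n x) := by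
    have h1 : ∫ x, g' x (Fv c R r ε x) = ∫ x in ball c r, g' x (Fv c R r ε x) := by
      rw [setIntegral_eq_integral_of_forall_compl_eq_zero]
      intro x hx
      simp only [hg', zet_out hr n hx, zero_smul, zero_add, zet', max_out hr n hx, mul_zero,
        smul_zero, zero_apply]
    rw [h1, ← integral_neg]
    apply setIntegral_mono_on
    · exact ion cgF.neg
    · exact ion (by fun_prop)
    · exact measurableSet_ball
    · intro x hx
      show -(g' x (Fv c R r ε x)) ≤ _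
      have e1 : g' x (Fv c R r ε x) = zet c r n x * fD v x (Fv c R r ε x) +
          ‖v x‖ ^ 2 * zet' c r n x (Fv c R r ε x) := by
        simp only [hg', add_apply, smul_apply, smul_eq_mul]
      rw [e1]
      have b1 := fD_le v x (Fv c R r ε x)
      have b2 := Fv_norm R hr hε hx
      have b3 := zet'_le R hr hε n hx
      have b4 := zet_le_one c r n x
      have b5 := zet_nonneg c r n x
      have b6 : 0 ≤ ‖v x‖ * Real.sqrt (gsq v x) := by positivity
      have b7 : |fD v x (Fv c R r ε x)| ≤ 4 * (‖v x‖ * Real.sqrt (gsq v x)) := by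
        refine b1.trans ?_
        nlinarith
      have b8 : -(zet c r n x * fD v x (Fv c R r ε x)) ≤ 4 * (‖v x‖ * Real.sqrt (gsq v x)) := by
        calc -(zet c r n x * fD v x (Fv c R r ε x)) ≤ |zet c r n x * fD v x (Fv c R r ε x)| :=
              neg_le_abs _
          _ = zet c r n x * |fD v x (Fv c R r ε x)| := by rw [abs_mul, abs_of_nonneg b5]
          _ ≤ 1 * (4 * (‖v x‖ * Real.sqrt (gsq v x))) :=
              mul_le_mul b4 b7 (abs_nonneg _) zero_le_one
          _ = _ := one_mul _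
      have b9 : -(‖v x‖ ^ 2 * zet' c r n x (Fv c R r ε x)) ≤ ‖v x‖ ^ 2 * bn c r n x := by
        rw [← mul_neg]
        exact mul_le_mul_of_nonneg_left b3 (sq_nonneg _)
      linarith
  have k6 : ∫ x in ball c r, (4 * (‖v x‖ * Real.sqrt (gsq v x)) + ‖v x‖ ^ 2 * bn c r n x) =
      4 * (∫ x in ball c r, ‖v x‖ * Real.sqrt (gsq v x)) +
          ∫ x in ball c r, ‖v x‖ ^ 2 * bn c r n x := by
    rw [integral_add, integral_const_mul]
    · exact ion (by fun_prop)
    · exact ion (by fun_prop)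
  have hr3 : 0 < 3 * r⁻¹ := by positivity
  have k7 := mul_le_mul_of_nonneg_left k4 hr3.le
  rw [k1] at k2
  rw [k3] at k2
  rw [k6] at k5
  linarith

end Push

theorem push_lint (c R : E3) (r : ℝ) (hr : 0 < r) (v : E3 → ℂ) (hv : ContDiff ℝ 1 v) :
    ∫⁻ x in ball c r, ENNReal.ofReal (2 * (‖v x‖ ^ 2 / ‖x - R‖)) ≤
      ENNReal.ofReal (3 * r⁻¹ * (∫ x in ball c r, ‖v x‖ ^ 2) +
        4 * (∫ x in ball c r, ‖v x‖ * Real.sqrt (gsq v x))) := by
  have cv : Continuous v := hv.continuous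
  have cf : Continuous (fun x => ‖v x‖ ^ 2) := by fun_prop
  have cgs := Push.gsq_cont hv
  have ion : ∀ {h : E3 → ℝ}, Continuous h → IntegrableOn h (ball c r) := fun hc =>
    (hc.continuousOn.integrableOn_compact (isCompact_closedBall c r)).mono_set
      ball_subset_closedBall
  set ε : ℕ → ℝ := fun n => 1 / ((n : ℝ) + 1) with hε
  have hε0 : ∀ n, 0 < ε n := fun n => by positivity
  have hεt : Tendsto ε atTop (nhds 0) := tendsto_one_div_add_atTop_nhds_zero_nat
  set K : ℝ := 3 * r⁻¹ * (∫ x in ball c r, ‖v x‖ ^ 2) +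
        4 * (∫ x in ball c r, ‖v x‖ * Real.sqrt (gsq v x)) with hK
  have hK0 : 0 ≤ K := by
    have h1 : 0 ≤ ∫ x in ball c r, ‖v x‖ ^ 2 := integral_nonneg fun x => sq_nonneg _
    have h2 : 0 ≤ ∫ x in ball c r, ‖v x‖ * Real.sqrt (gsq v x) :=
      integral_nonneg fun x => by positivity
    positivity
  -- the boundary term tends to zero
  have hb : Tendsto (fun n => ∫ x in ball c r, ‖v x‖ ^ 2 * Push.bn c r n x) atTop (nhds 0) := by
    have h := tendsto_integral_of_dominated_convergence (μ := volume.restrict (ball c r))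
      (F := fun n x => ‖v x‖ ^ 2 * Push.bn c r n x) (f := fun _ => 0)
      (fun x => ‖v x‖ ^ 2 * (4 / r)) ?_ ?_ ?_ ?_
    · simpa using h
    · intro n
      have : Continuous (Push.bn c r n) := by
        unfold Push.bn; have := Push.tt_cont c r; fun_prop
      exact (cf.mul this).aestronglyMeasurable
    · exact ion (by fun_prop)
    · intro n
      refine (ae_restrict_iff' measurableSet_ball).2 (Eventually.of_forall fun x hx => ?_)
      rw [Real.norm_eq_abs, abs_mul, abs_of_nonneg (Push.bn_nonneg hr n hx),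
        abs_of_nonneg (sq_nonneg _)]
      exact mul_le_mul_of_nonneg_left (Push.bn_le hr n hx) (sq_nonneg _)
    · refine (ae_restrict_iff' measurableSet_ball).2 (Eventually.of_forall fun x hx => ?_)
      have := (Push.bn_tendsto hr hx).const_mul (‖v x‖ ^ 2)
      simpa using this
  -- Fatou
  have hF : ∫⁻ x in ball c r, ENNReal.ofReal (2 * (‖v x‖ ^ 2 / ‖x - R‖)) ≤ ENNReal.ofReal K := by
    have h1 : ∫⁻ x in ball c r, ENNReal.ofReal (2 * (‖v x‖ ^ 2 / ‖x - R‖)) ≤
        ∫⁻ x in ball c r, liminf (fun n => ENNReal.ofReal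
          (2 * (Push.zet c r n x * ‖v x‖ ^ 2 * (Push.ss R (ε n) x)⁻¹))) atTop := by
      refine lintegral_mono_ae ((ae_restrict_iff' measurableSet_ball).2
        (Eventually.of_forall fun x hx => ?_))
      by_cases hxR : x = R
      · subst hxR
        simp
      · have hn : ‖x - R‖ ≠ 0 := by rw [norm_ne_zero_iff, sub_ne_zero]; exact hxR
        have h2 : Tendsto (fun n => Push.ss R (ε n) x) atTop (nhds ‖x - R‖) := by
          unfold Push.ss
          have h3 : Tendsto (fun n => ‖x - R‖ ^ 2 + ε n) atTop (nhds (‖x - R‖ ^ 2 + 0)) :=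
            tendsto_const_nhds.add hεt
          have h4 := (Real.continuous_sqrt.tendsto _).comp h3
          rw [add_zero, Real.sqrt_sq (norm_nonneg _)] at h4
          exact h4
        have h3 : Tendsto (fun n => 2 * (Push.zet c r n x * ‖v x‖ ^ 2 *
            (Push.ss R (ε n) x)⁻¹)) atTop (nhds (2 * (1 * ‖v x‖ ^ 2 * ‖x - R‖⁻¹))) :=
          (((Push.zet_tendsto hr hx).mul_const _).mul (h2.inv₀ hn)).const_mul 2
        have h4 := (ENNReal.continuous_ofReal.tendsto _).comp h3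
        have h5 : liminf (fun n => ENNReal.ofReal
          (2 * (Push.zet c r n x * ‖v x‖ ^ 2 * (Push.ss R (ε n) x)⁻¹))) atTop =
            ENNReal.ofReal (2 * (1 * ‖v x‖ ^ 2 * ‖x - R‖⁻¹)) := h4.liminf_eq
        rw [h5, one_mul, div_eq_mul_inv]
    have hcont : ∀ n, Continuous (fun x => 2 * (Push.zet c r n x * ‖v x‖ ^ 2 *
        (Push.ss R (ε n) x)⁻¹)) := by
      intro n
      have cz : Continuous (Push.zet c r n) :=
        continuous_iff_continuousAt.2 fun x => (Push.zet_deriv c r n x).continuousAt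
      have csi : Continuous (fun x => (Push.ss R (ε n) x)⁻¹) :=
        (Push.ss_cont R (ε n)).inv₀ fun x => (Push.ss_pos R (hε0 n) x).ne'
      fun_prop
    have h2 : ∀ n, ∫⁻ x in ball c r, ENNReal.ofReal
          (2 * (Push.zet c r n x * ‖v x‖ ^ 2 * (Push.ss R (ε n) x)⁻¹)) ≤
        ENNReal.ofReal (K + ∫ x in ball c r, ‖v x‖ ^ 2 * Push.bn c r n x) := by
      intro n
      rw [← ofReal_integral_eq_lintegral_ofReal (ion (hcont n))]
      · apply ENNReal.ofReal_le_ofReal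
        have := Push.main_n c R hr hv n (hε0 n)
        rw [hK]; linarith
      · refine Eventually.of_forall fun x => ?_
        have h3 := Push.zet_nonneg c r n x
        have h4 := (inv_pos.2 (Push.ss_pos R (hε0 n) x)).le
        show 0 ≤ 2 * (Push.zet c r n x * ‖v x‖ ^ 2 * (Push.ss R (ε n) x)⁻¹)
        positivity
    have h3 : Tendsto (fun n => ENNReal.ofReal (K + ∫ x in ball c r, ‖v x‖ ^ 2 *
        Push.bn c r n x)) atTop (nhds (ENNReal.ofReal K)) := by
      have := (ENNReal.continuous_ofReal.tendsto _).comp (hb.const_add K)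
      rw [add_zero] at this
      exact this
    calc _ ≤ _ := h1
      _ ≤ liminf (fun n => ∫⁻ x in ball c r, ENNReal.ofReal
          (2 * (Push.zet c r n x * ‖v x‖ ^ 2 * (Push.ss R (ε n) x)⁻¹))) atTop :=
          lintegral_liminf_le fun n => (hcont n).measurable.ennreal_ofReal
      _ ≤ liminf (fun n => ENNReal.ofReal (K + ∫ x in ball c r, ‖v x‖ ^ 2 *
            Push.bn c r n x)) atTop := liminf_le_liminf (Eventually.of_forall h2)
      _ = ENNReal.ofReal K := h3.liminf_eq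
  exact hF

theorem push (c R : E3) (r : ℝ) (hr : 0 < r) (v : E3 → ℂ) (hv : ContDiff ℝ 1 v) :
    ∫ x in ball c r, ‖v x‖ ^ 2 / ‖x - R‖ ≤
      3 / (2 * r) * (∫ x in ball c r, ‖v x‖ ^ 2)
        + 2 * (∫ x in ball c r, ‖v x‖ * Real.sqrt (gsq v x)) := by
  have hmeas : Measurable (fun x : E3 => ‖v x‖ ^ 2 / ‖x - R‖) := by
    have cv : Continuous v := hv.continuous
    have h1 : Measurable (fun x : E3 => ‖v x‖ ^ 2) := by fun_prop
    have h2 : Measurable (fun x : E3 => ‖x - R‖) := by fun_prop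
    exact h1.div h2
  have hK0 : 0 ≤ 3 * r⁻¹ * (∫ x in ball c r, ‖v x‖ ^ 2) +
        4 * (∫ x in ball c r, ‖v x‖ * Real.sqrt (gsq v x)) := by
    have h1 : 0 ≤ ∫ x in ball c r, ‖v x‖ ^ 2 := integral_nonneg fun x => sq_nonneg _
    have h2 : 0 ≤ ∫ x in ball c r, ‖v x‖ * Real.sqrt (gsq v x) :=
      integral_nonneg fun x => by positivity
    positivity
  have h0 : ∀ x : E3, 0 ≤ 2 * (‖v x‖ ^ 2 / ‖x - R‖) := fun x => by positivity
  have hI : ∫ x in ball c r, 2 * (‖v x‖ ^ 2 / ‖x - R‖) ≤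
      3 * r⁻¹ * (∫ x in ball c r, ‖v x‖ ^ 2) +
        4 * (∫ x in ball c r, ‖v x‖ * Real.sqrt (gsq v x)) := by
    rw [integral_eq_lintegral_of_nonneg_ae (Eventually.of_forall h0)
      (hmeas.const_mul 2).aestronglyMeasurable]
    exact ENNReal.toReal_le_of_le_ofReal hK0 (push_lint c R r hr v hv)
  rw [integral_const_mul] at hI
  have e1 : 3 / (2 * r) = 3 * r⁻¹ / 2 := by field_simp
  rw [e1]
  linarith

end Pool.Agent.H5R2.NL
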