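import Mathlib
import Pool.Agent.H5R2.NL.Int
import Pool.Agent.H5R2.NL.Kern
import Pool.Agent.H5R2.NL.Push
import Pool.Agent.H5R2.NL.Cut
import Pool.Agent.H5R2.NL.GS

/-!
# Many electrons in a ball
-/

set_option autoImplicit false

noncomputable section

namespace Pool.Agent.H5R2.NL

open MeasureTheory Metric
open scoped ENNReal


theorem cr_gsq (χ : E3 → ℝ) (v : E3 → ℂ) (x : E3) (hχ : DifferentiableAt ℝ χ x)
    (hv : DifferentiableAt ℝ v x) :
    Real.sqrt (gsq (fun y => χ y • v y) x) ≤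
      |χ x| * Real.sqrt (gsq v x) + 2 * ‖fderiv ℝ χ x‖ * ‖v x‖ := by
  set A : EuclideanSpace ℂ (Fin 3) :=
    WithLp.toLp 2 (fun c => χ x • fderiv ℝ v x (EuclideanSpace.single c (1 : ℝ))) with hA
  set B : EuclideanSpace ℂ (Fin 3) :=
    WithLp.toLp 2 (fun c => fderiv ℝ χ x (EuclideanSpace.single c (1 : ℝ)) • v x) with hB
  have h1 : Real.sqrt (gsq (fun y => χ y • v y) x) = ‖A + B‖ := by
    rw [EuclideanSpace.norm_eq]
    congr 1
    unfold gsq
    refine Finset.sum_congr rfl fun c _ => ?_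
    rw [fderiv_fun_smul hχ hv]
    simp [hA, hB]
  have h2 : ‖A‖ = |χ x| * Real.sqrt (gsq v x) := by
    rw [EuclideanSpace.norm_eq, ← Real.sqrt_sq_eq_abs, ← Real.sqrt_mul (sq_nonneg _)]
    congr 1
    unfold gsq
    rw [Finset.mul_sum]
    refine Finset.sum_congr rfl fun c _ => ?_
    simp only [hA, norm_smul, mul_pow, Real.norm_eq_abs, sq_abs]
  have h3 : ‖B‖ ≤ 2 * ‖fderiv ℝ χ x‖ * ‖v x‖ := by
    rw [EuclideanSpace.norm_eq]
    refine Real.sqrt_le_iff.mpr ⟨by positivity, ?_⟩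
    have h4 : ∀ c : Fin 3, ‖B c‖ ^ 2 ≤ ‖fderiv ℝ χ x‖ ^ 2 * ‖v x‖ ^ 2 := by
      intro c
      simp only [hB, norm_smul, mul_pow]
      gcongr
      refine ((fderiv ℝ χ x).le_opNorm _).trans ?_
      simp
    calc ∑ c : Fin 3, ‖B c‖ ^ 2 ≤ ∑ _c : Fin 3, ‖fderiv ℝ χ x‖ ^ 2 * ‖v x‖ ^ 2 :=
          Finset.sum_le_sum fun c _ => h4 c
      _ ≤ (2 * ‖fderiv ℝ χ x‖ * ‖v x‖) ^ 2 := by
          simp only [Finset.sum_const, Finset.card_univ, Fintype.card_fin, nsmul_eq_mul]
          have : 0 ≤ ‖fderiv ℝ χ x‖ ^ 2 * ‖v x‖ ^ 2 := by positivity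
          push_cast
          nlinarith
  rw [h1]
  refine (norm_add_le _ _).trans ?_
  rw [h2]
  linarith

theorem cr_inB_meas (w : E3) (r : ℝ) : Measurable (inB w r) := by
  unfold inB
  refine Measurable.ite ?_ measurable_const measurable_const
  exact measurableSet_lt (f := fun x : E3 => ‖x - w‖) (g := fun _ : E3 => r)
    (by fun_prop) (by fun_prop)

theorem cr_bdd {h : E3 → ℝ} (hc : Continuous h) (c : E3) (r : ℝ) :
    ∃ B : ℝ, 0 ≤ B ∧ ∀ x ∈ ball c r, |h x| ≤ B := by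
  obtain ⟨B, hB⟩ := (isCompact_closedBall c r).exists_bound_of_continuousOn (f := h)
    hc.continuousOn
  exact ⟨max B 0, le_max_right _ _, fun x hx =>
    ((Real.norm_eq_abs _).symm.le.trans (hB x (ball_subset_closedBall hx))).trans (le_max_left _ _)⟩

/-- bounded measurable times continuous is integrable on balls -/
theorem cr_ion {g h : E3 → ℝ} (hg : Measurable g) (hg1 : ∀ x, |g x| ≤ 1) (hc : Continuous h)
    (c : E3) (r : ℝ) : IntegrableOn (fun x => g x * h x) (ball c r) := by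
  obtain ⟨B, hB0, hB⟩ := cr_bdd hc c r
  refine Integrable.mono' (g := fun _ => B) ?_
    ((hg.aestronglyMeasurable).mul hc.aestronglyMeasurable) ?_
  · exact integrableOn_const measure_ball_lt_top.ne
  · filter_upwards [ae_restrict_mem measurableSet_ball] with x hx
    rw [norm_mul, Real.norm_eq_abs, Real.norm_eq_abs]
    calc |g x| * |h x| ≤ 1 * B := mul_le_mul (hg1 x) (hB x hx) (abs_nonneg _) zero_le_one
      _ = B := one_mul _

theorem cr_ion_inv {g h : E3 → ℝ} (hg : Measurable g) (hg1 : ∀ x, |g x| ≤ 1) (hc : Continuous h)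
    (c R : E3) (r : ℝ) : IntegrableOn (fun x => g x * h x / ‖x - R‖) (ball c r) := by
  obtain ⟨B, hB0, hB⟩ := cr_bdd hc c r
  refine Integrable.mono' (g := fun x => B * (1 / ‖x - R‖)) ?_ ?_ ?_
  · exact (integrableOn_inv R c r).const_mul B
  · refine AEStronglyMeasurable.mul ((hg.aestronglyMeasurable).mul hc.aestronglyMeasurable) ?_
    have : Measurable fun x : E3 => (‖x - R‖)⁻¹ := by fun_prop
    exact this.aestronglyMeasurable
  · filter_upwards [ae_restrict_mem measurableSet_ball] with x hx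
    rw [norm_div, norm_mul, Real.norm_eq_abs, Real.norm_eq_abs, Real.norm_eq_abs,
      abs_of_nonneg (norm_nonneg (x - R)), div_eq_mul_one_div]
    refine mul_le_mul_of_nonneg_right ?_ (by positivity)
    calc |g x| * |h x| ≤ 1 * B := mul_le_mul (hg1 x) (hB x hx) (abs_nonneg _) zero_le_one
      _ = B := one_mul _

theorem cr_abs_inB (w : E3) (r : ℝ) (x : E3) : |inB w r x| ≤ 1 := by
  rw [abs_of_nonneg (kern_inB_nonneg _ _ _)]; exact kern_inB_le _ _ _

theorem cr_one : ∃ C₂ : ℝ, 0 < C₂ ∧ ∀ (w : E3) (r ρ : ℝ) (w' R' : E3) (v : E3 → ℂ), 0 < ρ →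
    ρ ≤ r → ContDiff ℝ 1 v →
    ∫ x in ball w r, inB w' ρ x * ‖v x‖ ^ 2 / ‖x - R'‖ ≤
      ∫ x in ball w r, inB w' (2 * ρ) x *
        (C₂ / ρ * ‖v x‖ ^ 2 + 2 * (‖v x‖ * Real.sqrt (gsq v x))) := by
  obtain ⟨C₁, hC₁, hcut⟩ := cutoff
  refine ⟨3 / 2 + 4 * C₁, by positivity, ?_⟩
  intro w r ρ w' R' v hρ hρr hv
  obtain ⟨χ, hχs, hχ0, hχ1, hχin, hχout, hχd⟩ := hcut w' ρ hρ
  have hr : 0 < r := lt_of_lt_of_le hρ hρr
  have hχs1 : ContDiff ℝ 1 χ := hχs.of_le (by exact_mod_cast le_top)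
  set v' : E3 → ℂ := fun x => χ x • v x with hv'
  have hv's : ContDiff ℝ 1 v' := hχs1.smul hv
  have hvc := hv.continuous
  have hgc := sob_continuous_gsq v hv
  have hχc := hχs.continuous
  have hnv' : ∀ x, ‖v' x‖ = χ x * ‖v x‖ := by
    intro x
    rw [hv', norm_smul, Real.norm_eq_abs, abs_of_nonneg (hχ0 x)]
  have one1 : ∀ x : E3, |(fun _ : E3 => (1 : ℝ)) x| ≤ 1 := fun x => by simp
  -- step 1
  have h1 : ∫ x in ball w r, inB w' ρ x * ‖v x‖ ^ 2 / ‖x - R'‖ ≤
      ∫ x in ball w r, ‖v' x‖ ^ 2 / ‖x - R'‖ := by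
    refine integral_mono (cr_ion_inv (cr_inB_meas _ _) (cr_abs_inB _ _) (by fun_prop) _ _ _) ?_ ?_
    · have := cr_ion_inv (g := fun _ => (1 : ℝ)) (h := fun x => ‖v' x‖ ^ 2) measurable_const one1
        (by have := hv's.continuous; fun_prop) w R' r
      simp only [one_mul] at this; exact this
    · intro x
      simp only
      refine div_le_div_of_nonneg_right ?_ (norm_nonneg _)
      rw [hnv', mul_pow]
      refine mul_le_mul_of_nonneg_right ?_ (by positivity)
      unfold inB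
      split_ifs with h
      · rw [hχin x h.le]; norm_num
      · positivity
  have h2 := push w R' r hr v' hv's
  have h3 : 3 / (2 * r) * (∫ x in ball w r, ‖v' x‖ ^ 2)
        + 2 * (∫ x in ball w r, ‖v' x‖ * Real.sqrt (gsq v' x)) =
      ∫ x in ball w r, (3 / (2 * r) * ‖v' x‖ ^ 2 + 2 * (‖v' x‖ * Real.sqrt (gsq v' x))) := by
    rw [integral_add, integral_const_mul, integral_const_mul]
    · have := cr_ion (g := fun _ => (1 : ℝ)) (h := fun x => 3 / (2 * r) * ‖v' x‖ ^ 2)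
        measurable_const one1 (by have := hv's.continuous; fun_prop) w r
      simp only [one_mul] at this; exact this
    · have := cr_ion (g := fun _ => (1 : ℝ)) (h := fun x => 2 * (‖v' x‖ * Real.sqrt (gsq v' x)))
        measurable_const one1 (by have := hv's.continuous; have := sob_continuous_gsq v' hv's; fun_prop) w r
      simp only [one_mul] at this; exact this
  refine h1.trans (h2.trans ?_)
  rw [h3]
  refine integral_mono ?_ (cr_ion (cr_inB_meas _ _) (cr_abs_inB _ _) (by fun_prop) _ _) ?_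
  · have := cr_ion (g := fun _ => (1 : ℝ))
      (h := fun x => 3 / (2 * r) * ‖v' x‖ ^ 2 + 2 * (‖v' x‖ * Real.sqrt (gsq v' x)))
      measurable_const one1 (by have := hv's.continuous; have := sob_continuous_gsq v' hv's; fun_prop) w r
    simp only [one_mul] at this; exact this
  · intro x
    simp only
    unfold inB
    split_ifs with h
    · rw [one_mul]
      have hg := cr_gsq χ v x (hχs1.differentiable (by norm_num) x)
        (hv.differentiable (by norm_num) x)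
      have hn1 : ‖v' x‖ ≤ ‖v x‖ := by
        rw [hnv']
        calc χ x * ‖v x‖ ≤ 1 * ‖v x‖ := mul_le_mul_of_nonneg_right (hχ1 x) (norm_nonneg _)
          _ = ‖v x‖ := one_mul _
      have hs : Real.sqrt (gsq v' x) ≤ Real.sqrt (gsq v x) + 2 * (C₁ / ρ) * ‖v x‖ := by
        refine hg.trans ?_
        have a1 : |χ x| * Real.sqrt (gsq v x) ≤ Real.sqrt (gsq v x) := by
          rw [abs_of_nonneg (hχ0 x)]
          calc χ x * Real.sqrt (gsq v x) ≤ 1 * Real.sqrt (gsq v x) :=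
                mul_le_mul_of_nonneg_right (hχ1 x) (Real.sqrt_nonneg _)
            _ = _ := one_mul _
        have a2 : 2 * ‖fderiv ℝ χ x‖ * ‖v x‖ ≤ 2 * (C₁ / ρ) * ‖v x‖ := by
          have := hχd x
          gcongr
        linarith
      have hsn : ‖v' x‖ ^ 2 ≤ ‖v x‖ ^ 2 := by
        have := norm_nonneg (v' x)
        gcongr
      have h5 : 3 / (2 * r) * ‖v' x‖ ^ 2 ≤ 3 / 2 / ρ * ‖v x‖ ^ 2 := by
        have : 3 / (2 * r) ≤ 3 / 2 / ρ := by
          rw [div_div]
          gcongr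
        gcongr
      have h6 : ‖v' x‖ * Real.sqrt (gsq v' x) ≤
          ‖v x‖ * (Real.sqrt (gsq v x) + 2 * (C₁ / ρ) * ‖v x‖) := by
        gcongr
      have h7 : (3 / 2 + 4 * C₁) / ρ * ‖v x‖ ^ 2 =
          3 / 2 / ρ * ‖v x‖ ^ 2 + 2 * (‖v x‖ * (2 * (C₁ / ρ) * ‖v x‖)) := by ring
      rw [h7]
      nlinarith
    · have : χ x = 0 := hχout x (not_lt.1 h)
      have h0 : ‖v' x‖ = 0 := by rw [hnv', this, zero_mul]
      rw [h0]
      simp

theorem cr_nB_nonneg {ι : Type} [Fintype ι] (w : E3) (r : ℝ) (x : ι → E3) : 0 ≤ nB w r x :=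
  Finset.sum_nonneg fun _ _ => kern_inB_nonneg _ _ _

theorem cr_slice : ∃ C₂ : ℝ, 0 < C₂ ∧ ∀ (κ : Type) [Fintype κ] (z : ℝ) (R : κ → E3) (w : E3)
    (r ρ ε : ℝ) (w' : E3) (v : E3 → ℂ), 0 < z → 0 < ρ → ρ ≤ r → 0 < ε → ContDiff ℝ 1 v →
    ∫⁻ x in ball w r, ENNReal.ofReal
        (z * (∑ j, inB w' ρ x * inB w' ρ (R j) / ‖x - R j‖) * ‖v x‖ ^ 2) ≤
      ∫⁻ x in ball w r, ENNReal.ofReal (inB w' (2 * ρ) x *
        ((z * nB w' ρ R * C₂ / ρ + 8 * z ^ 2 * nB w' ρ R ^ 2 / ε) * ‖v x‖ ^ 2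
          + ε / 8 * gsq v x)) := by
  obtain ⟨C₂, hC₂, h1⟩ := cr_one
  refine ⟨C₂, hC₂, ?_⟩
  intro κ _ z R w r ρ ε w' v hz hρ hρr hε hv
  have hvc := hv.continuous
  have hgc := sob_continuous_gsq v hv
  have hk := cr_nB_nonneg w' ρ R
  set k := nB w' ρ R with hkdef
  -- integrability
  have i1 : ∀ j, IntegrableOn (fun x => inB w' ρ x * ‖v x‖ ^ 2 / ‖x - R j‖) (ball w r) := fun j =>
    cr_ion_inv (cr_inB_meas _ _) (cr_abs_inB _ _) (by fun_prop) _ _ _
  have e1 : ∀ x, z * (∑ j, inB w' ρ x * inB w' ρ (R j) / ‖x - R j‖) * ‖v x‖ ^ 2 =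
      ∑ j, z * inB w' ρ (R j) * (inB w' ρ x * ‖v x‖ ^ 2 / ‖x - R j‖) := by
    intro x
    rw [Finset.mul_sum, Finset.sum_mul]
    refine Finset.sum_congr rfl fun j _ => ?_
    ring
  have i2 : ∀ j, IntegrableOn (fun x => z * inB w' ρ (R j) *
      (inB w' ρ x * ‖v x‖ ^ 2 / ‖x - R j‖)) (ball w r) := fun j => (i1 j).const_mul _
  have i3 : IntegrableOn (fun x => inB w' (2 * ρ) x *
        ((z * k * C₂ / ρ + 8 * z ^ 2 * k ^ 2 / ε) * ‖v x‖ ^ 2 + ε / 8 * gsq v x)) (ball w r) :=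
    cr_ion (cr_inB_meas _ _) (cr_abs_inB _ _) (by fun_prop) _ _
  have i4 : IntegrableOn (fun x => inB w' (2 * ρ) x *
        (C₂ / ρ * ‖v x‖ ^ 2 + 2 * (‖v x‖ * Real.sqrt (gsq v x)))) (ball w r) :=
    cr_ion (cr_inB_meas _ _) (cr_abs_inB _ _) (by fun_prop) _ _
  have hreal : ∫ x in ball w r, z * (∑ j, inB w' ρ x * inB w' ρ (R j) / ‖x - R j‖) * ‖v x‖ ^ 2 ≤
      ∫ x in ball w r, inB w' (2 * ρ) x *
        ((z * k * C₂ / ρ + 8 * z ^ 2 * k ^ 2 / ε) * ‖v x‖ ^ 2 + ε / 8 * gsq v x) := by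
    simp only [e1]
    rw [integral_finsetSum _ fun j _ => i2 j]
    simp only [integral_const_mul]
    calc ∑ j, z * inB w' ρ (R j) * ∫ x in ball w r, inB w' ρ x * ‖v x‖ ^ 2 / ‖x - R j‖
        ≤ ∑ j, z * inB w' ρ (R j) * ∫ x in ball w r, inB w' (2 * ρ) x *
            (C₂ / ρ * ‖v x‖ ^ 2 + 2 * (‖v x‖ * Real.sqrt (gsq v x))) := by
          refine Finset.sum_le_sum fun j _ => ?_
          exact mul_le_mul_of_nonneg_left (h1 w r ρ w' (R j) v hρ hρr hv)
            (mul_nonneg hz.le (kern_inB_nonneg _ _ _))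
      _ = z * k * ∫ x in ball w r, inB w' (2 * ρ) x *
            (C₂ / ρ * ‖v x‖ ^ 2 + 2 * (‖v x‖ * Real.sqrt (gsq v x))) := by
          rw [← Finset.sum_mul, ← Finset.mul_sum]
          rfl
      _ = ∫ x in ball w r, z * k * (inB w' (2 * ρ) x *
            (C₂ / ρ * ‖v x‖ ^ 2 + 2 * (‖v x‖ * Real.sqrt (gsq v x)))) := by
          rw [integral_const_mul]
      _ ≤ _ := by
          refine integral_mono (i4.const_mul _) i3 fun x => ?_
          simp only
          have hI := kern_inB_nonneg w' (2 * ρ) x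
          have hg0 := sob_gsq_nonneg v x
          have hy : 2 * (z * k * ‖v x‖) * Real.sqrt (gsq v x) ≤
              8 * z ^ 2 * k ^ 2 / ε * ‖v x‖ ^ 2 + ε / 8 * gsq v x := by
            set a := z * k * ‖v x‖ with ha
            set b := Real.sqrt (gsq v x) with hb
            have hb2 : gsq v x = b ^ 2 := (Real.sq_sqrt hg0).symm
            have ha2 : 8 * z ^ 2 * k ^ 2 / ε * ‖v x‖ ^ 2 = 8 * a ^ 2 / ε := by
              rw [ha]; ring
            rw [ha2, hb2]
            have : 8 * a ^ 2 / ε + ε / 8 * b ^ 2 - 2 * a * b = (8 * a - ε * b) ^ 2 / (8 * ε) := by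
              field_simp
              ring
            have h0 : 0 ≤ (8 * a - ε * b) ^ 2 / (8 * ε) := by positivity
            linarith
          have : z * k * (inB w' (2 * ρ) x * (C₂ / ρ * ‖v x‖ ^ 2 +
              2 * (‖v x‖ * Real.sqrt (gsq v x)))) =
              inB w' (2 * ρ) x * (z * k * C₂ / ρ * ‖v x‖ ^ 2 +
                2 * (z * k * ‖v x‖) * Real.sqrt (gsq v x)) := by ring
          rw [this]
          refine mul_le_mul_of_nonneg_left ?_ hI
          linarith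
  rw [← ofReal_integral_eq_lintegral_ofReal, ← ofReal_integral_eq_lintegral_ofReal i3]
  · exact ENNReal.ofReal_le_ofReal hreal
  · refine Filter.Eventually.of_forall fun x => ?_
    have hI := kern_inB_nonneg w' (2 * ρ) x
    have hg0 := sob_gsq_nonneg v x
    positivity
  · simp only [e1]
    exact integrable_finsetSum _ fun j _ => i2 j
  · refine Filter.Eventually.of_forall fun x => ?_
    have : 0 ≤ ∑ j, inB w' ρ x * inB w' ρ (R j) / ‖x - R j‖ :=
      Finset.sum_nonneg fun j _ => div_nonneg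
        (mul_nonneg (kern_inB_nonneg _ _ _) (kern_inB_nonneg _ _ _)) (norm_nonneg _)
    positivity

theorem cr_restrict {ι : Type} [Fintype ι] (w : E3) (r : ℝ) :
    (volume : Measure (ι → E3)).restrict (PB ι w r) =
      Measure.pi fun _ : ι => (volume : Measure E3).restrict (ball w r) := by
  unfold PB
  rw [volume_pi, Measure.restrict_pi_pi]

theorem cr_b : ∃ C₂ : ℝ, 0 < C₂ ∧ ∀ (ι κ : Type) [Fintype ι] [DecidableEq ι] [Fintype κ] (z : ℝ)
    (R : κ → E3) (w : E3) (r ρ ε : ℝ) (w' : E3) (u : (ι → E3) → ℂ), 0 < z → 0 < ρ → ρ ≤ r →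
    0 < ε → ContDiff ℝ 1 u →
    ∫⁻ x in PB ι w r, ENNReal.ofReal
        (z * (∑ i, ∑ j, inB w' ρ (x i) * inB w' ρ (R j) / ‖x i - R j‖) * ‖u x‖ ^ 2) ≤
      ∫⁻ x in PB ι w r, ENNReal.ofReal
        (nB w' (2 * ρ) x * (z * nB w' ρ R * C₂ / ρ + 8 * z ^ 2 * nB w' ρ R ^ 2 / ε) * ‖u x‖ ^ 2
          + ε / 8 * ∑ i, inB w' (2 * ρ) (x i) * gradSq u i x) := by
  obtain ⟨C₂, hC₂, h1⟩ := cr_slice
  refine ⟨C₂, hC₂, ?_⟩
  intro ι κ _ _ _ z R w r ρ ε w' u hz hρ hρr hε hu
  have hk := cr_nB_nonneg w' ρ R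
  set k := nB w' ρ R with hkdef
  have huc := hu.continuous
  have hgm : ∀ i, Measurable (gradSq u i) := fun i => (continuous_gradSq u hu i).measurable
  have hg0 : ∀ i x, 0 ≤ gradSq u i x := fun i x => sob_gsq_nonneg _ _
  have hI := fun (a : ℝ) (y : E3) => kern_inB_nonneg w' a y
  have hIm : ∀ (a : ℝ) (i : ι), Measurable fun x : ι → E3 => inB w' a (x i) := fun a i =>
    (cr_inB_meas w' a).comp (measurable_pi_apply i)
  have hum : Measurable fun x => ‖u x‖ ^ 2 := by fun_prop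
  set F : ι → (ι → E3) → ℝ := fun i x =>
    z * (∑ j, inB w' ρ (x i) * inB w' ρ (R j) / ‖x i - R j‖) * ‖u x‖ ^ 2 with hF
  set G : ι → (ι → E3) → ℝ := fun i x => inB w' (2 * ρ) (x i) *
        ((z * k * C₂ / ρ + 8 * z ^ 2 * k ^ 2 / ε) * ‖u x‖ ^ 2 + ε / 8 * gradSq u i x) with hG
  have hFm : ∀ i, Measurable (F i) := by
    intro i
    refine Measurable.mul (Measurable.const_mul (Finset.measurable_sum _ fun j _ => ?_) _) hum
    refine Measurable.div ((hIm ρ i).mul_const _) ?_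
    fun_prop
  have hGm : ∀ i, Measurable (G i) := by
    intro i
    have := hgm i
    have := hIm (2 * ρ) i
    fun_prop
  have hF0 : ∀ i x, 0 ≤ F i x := by
    intro i x
    have : 0 ≤ ∑ j, inB w' ρ (x i) * inB w' ρ (R j) / ‖x i - R j‖ :=
      Finset.sum_nonneg fun j _ => div_nonneg (mul_nonneg (hI _ _) (hI _ _)) (norm_nonneg _)
    positivity
  have hG0 : ∀ i x, 0 ≤ G i x := by
    intro i x
    have := hI (2 * ρ) (x i)
    have := hg0 i x
    positivity
  have e1 : ∀ x, z * (∑ i, ∑ j, inB w' ρ (x i) * inB w' ρ (R j) / ‖x i - R j‖) * ‖u x‖ ^ 2 =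
      ∑ i, F i x := by
    intro x
    rw [Finset.mul_sum, Finset.sum_mul]
  have e2 : ∀ x, nB w' (2 * ρ) x * (z * k * C₂ / ρ + 8 * z ^ 2 * k ^ 2 / ε) * ‖u x‖ ^ 2
          + ε / 8 * ∑ i, inB w' (2 * ρ) (x i) * gradSq u i x = ∑ i, G i x := by
    intro x
    unfold nB
    rw [Finset.sum_mul, Finset.sum_mul, Finset.mul_sum, ← Finset.sum_add_distrib]
    refine Finset.sum_congr rfl fun i _ => ?_
    simp only [hG]
    ring
  simp only [e1, e2]
  have e3 : ∀ x, ENNReal.ofReal (∑ i, F i x) = ∑ i, ENNReal.ofReal (F i x) := fun x =>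
    ENNReal.ofReal_sum_of_nonneg fun i _ => hF0 i x
  have e4 : ∀ x, ENNReal.ofReal (∑ i, G i x) = ∑ i, ENNReal.ofReal (G i x) := fun x =>
    ENNReal.ofReal_sum_of_nonneg fun i _ => hG0 i x
  simp only [e3, e4]
  rw [lintegral_finsetSum _ fun i _ => (hFm i).ennreal_ofReal,
    lintegral_finsetSum _ fun i _ => (hGm i).ennreal_ofReal]
  refine Finset.sum_le_sum fun i _ => ?_
  rw [cr_restrict]
  refine int_slice_le _ _ _ (hFm i).ennreal_ofReal (hGm i).ennreal_ofReal i fun x => ?_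
  have hv : ContDiff ℝ 1 fun t : E3 => u (Function.update x i t) :=
    hu.comp (contDiff_update 1 x i)
  have h2 := h1 κ z R w r ρ ε w' (fun t => u (Function.update x i t)) hz hρ hρr hε hv
  refine le_trans (le_of_eq ?_) (h2.trans (le_of_eq ?_))
  · refine lintegral_congr fun t => ?_
    simp only [hF, Function.update_self]
  · refine lintegral_congr fun t => ?_
    simp only [hG, Function.update_self, gradSq, Function.update_idem]
    rfl

theorem cr_arith (z C₂ ρ ε : ℝ) (m k : ℕ) (hz : 0 < z) (hC₂ : 0 < C₂) (hρ : 0 < ρ) (hε : 0 < ε)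
    (h : (m : ℝ) * ρ ≤ 1 / 256 * ε) :
    (m : ℝ) * (z * k * C₂ / ρ + 8 * z ^ 2 * (k : ℝ) ^ 2 / ε) ≤
      z ^ 2 / 2 * (((k : ℝ) * k - k) / (2 * ρ)) + (z * C₂ + z ^ 2 + 3 * C₂ ^ 2) / ρ * (m : ℝ) ^ 2 := by
  have hm0 : (0 : ℝ) ≤ m := Nat.cast_nonneg m
  have hk0 : (0 : ℝ) ≤ k := Nat.cast_nonneg k
  have h1 : (m : ℝ) * (8 * z ^ 2 * (k : ℝ) ^ 2 / ε) ≤ z ^ 2 * (k : ℝ) ^ 2 / (32 * ρ) := by
    rw [mul_div_assoc', div_le_div_iff₀ hε (by positivity)]
    have : 0 ≤ z ^ 2 * (k : ℝ) ^ 2 := by positivity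
    nlinarith
  have h2 : (m : ℝ) * (z * k * C₂) + z ^ 2 * (k : ℝ) ^ 2 / 32 * (if m = 0 then 0 else 1) ≤
      z ^ 2 / 4 * ((k : ℝ) * k - k) + (z * C₂ + z ^ 2 + 3 * C₂ ^ 2) * (m : ℝ) ^ 2 := by
    rcases Nat.eq_zero_or_pos m with hm | hm
    · subst hm
      simp only [Nat.cast_zero, zero_mul, if_true, mul_zero, add_zero]
      have : 0 ≤ (k : ℝ) * k - k := by
        rcases Nat.eq_zero_or_pos k with hk | hk
        · subst hk; simp
        · have : (1 : ℝ) ≤ k := by exact_mod_cast hk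
          nlinarith
      positivity
    · rw [if_neg (by omega), mul_one]
      have hm1 : (1 : ℝ) ≤ m := by exact_mod_cast hm
      have hmm : (m : ℝ) ≤ (m : ℝ) ^ 2 := by nlinarith
      rcases Nat.lt_or_ge k 2 with hk | hk
      · interval_cases k
        · simp
          positivity
        · simp only [Nat.cast_one, mul_one, one_pow, sub_self, mul_zero, zero_add]
          have a1 : (m : ℝ) * (z * C₂) ≤ z * C₂ * (m : ℝ) ^ 2 := by
            have : 0 ≤ z * C₂ := by positivity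
            nlinarith
          have a2 : z ^ 2 / 32 ≤ z ^ 2 * (m : ℝ) ^ 2 := by
            have : 0 ≤ z ^ 2 := by positivity
            nlinarith
          have a3 : 0 ≤ 3 * C₂ ^ 2 * (m : ℝ) ^ 2 := by positivity
          nlinarith
      · have hk2 : (2 : ℝ) ≤ k := by exact_mod_cast hk
        have b1 : (k : ℝ) ^ 2 / 2 ≤ (k : ℝ) * k - k := by nlinarith
        have b2 : z ^ 2 / 4 * ((k : ℝ) ^ 2 / 2) ≤ z ^ 2 / 4 * ((k : ℝ) * k - k) := by gcongr
        have b3 : (m : ℝ) * (z * k * C₂) ≤ 3 / 32 * (z * k) ^ 2 + 3 * (C₂ * m) ^ 2 := by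
          nlinarith [sq_nonneg (3 / 16 * (z * k) - (C₂ * m)), sq_nonneg (z * k), sq_nonneg (C₂ * m)]
        have b4 : 0 ≤ (z * C₂ + z ^ 2) * (m : ℝ) ^ 2 := by positivity
        nlinarith
  have h3 : (m : ℝ) * (8 * z ^ 2 * (k : ℝ) ^ 2 / ε) ≤
      z ^ 2 * (k : ℝ) ^ 2 / (32 * ρ) * (if m = 0 then 0 else 1) := by
    split_ifs with hm
    · subst hm; simp
    · rw [mul_one]; exact h1
  have e1 : (m : ℝ) * (z * k * C₂ / ρ + 8 * z ^ 2 * (k : ℝ) ^ 2 / ε) =
      (m : ℝ) * (z * k * C₂) / ρ + (m : ℝ) * (8 * z ^ 2 * (k : ℝ) ^ 2 / ε) := by ring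
  have e2 : z ^ 2 / 2 * (((k : ℝ) * k - k) / (2 * ρ)) + (z * C₂ + z ^ 2 + 3 * C₂ ^ 2) / ρ *
      (m : ℝ) ^ 2 = (z ^ 2 / 4 * ((k : ℝ) * k - k) +
        (z * C₂ + z ^ 2 + 3 * C₂ ^ 2) * (m : ℝ) ^ 2) / ρ := by
    field_simp
    ring
  rw [e1, e2]
  have h4 := div_le_div_of_nonneg_right h2 hρ.le
  rw [add_div] at h4
  have e3 : z ^ 2 * (k : ℝ) ^ 2 / 32 * (if m = 0 then (0 : ℝ) else 1) / ρ =
      z ^ 2 * (k : ℝ) ^ 2 / (32 * ρ) * (if m = 0 then 0 else 1) := by
    field_simp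
  rw [e3] at h4
  linarith

theorem cr_nB_nat {ι : Type} [Fintype ι] (w : E3) (r : ℝ) (x : ι → E3) :
    ∃ m : ℕ, nB w r x = m := by
  classical
  refine ⟨(Finset.univ.filter fun i => ‖x i - w‖ < r).card, ?_⟩
  unfold nB inB
  rw [Finset.sum_ite]
  simp

theorem cr_nB_le {ι : Type} [Fintype ι] (w : E3) (r : ℝ) (x : ι → E3) :
    nB w r x ≤ Fintype.card ι := by
  unfold nB
  calc ∑ i, inB w r (x i) ≤ ∑ _i : ι, (1 : ℝ) := Finset.sum_le_sum fun i _ => kern_inB_le _ _ _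
    _ = Fintype.card ι := by simp

theorem cr_inB_01 (w : E3) (r : ℝ) (x : E3) : inB w r x = 0 ∨ inB w r x = 1 ∧ ‖x - w‖ < r := by
  unfold inB
  split_ifs with h
  · exact Or.inr ⟨rfl, h⟩
  · exact Or.inl rfl

theorem cr_static {κ : Type} [Fintype κ] (R : κ → E3) (hR : Function.Injective R) (w : E3)
    (ρ : ℝ) :
    (nB w ρ R * nB w ρ R - nB w ρ R) / (2 * ρ) ≤
      ∑ i, ∑ j, inB w ρ (R i) * inB w ρ (R j) / ‖R i - R j‖ := by
  classical
  have h1 : (nB w ρ R * nB w ρ R - nB w ρ R) / (2 * ρ) = ∑ i, ∑ j,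
      (inB w ρ (R i) * inB w ρ (R j) - if i = j then inB w ρ (R i) else 0) / (2 * ρ) := by
    unfold nB
    rw [Finset.sum_mul_sum]
    simp only [← Finset.sum_div]
    congr 1
    simp only [Finset.sum_sub_distrib]
    simp
  rw [h1]
  refine Finset.sum_le_sum fun i _ => Finset.sum_le_sum fun j _ => ?_
  by_cases hij : i = j
  · subst hij
    simp only [if_true, sub_self, norm_zero, div_zero]
    rcases cr_inB_01 w ρ (R i) with h | ⟨h, _⟩ <;> simp [h]
  · rw [if_neg hij, sub_zero]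
    rcases cr_inB_01 w ρ (R i) with h | ⟨h, hi⟩
    · simp [h]
    rcases cr_inB_01 w ρ (R j) with h' | ⟨h', hj⟩
    · simp [h']
    rw [h, h', one_mul]
    have hne : 0 < ‖R i - R j‖ := norm_pos_iff.mpr (sub_ne_zero.mpr fun e => hij (hR e))
    refine one_div_le_one_div_of_le hne ?_
    calc ‖R i - R j‖ = ‖(R i - w) - (R j - w)‖ := by congr 1; abel
      _ ≤ ‖R i - w‖ + ‖R j - w‖ := norm_sub_le _ _
      _ ≤ 2 * ρ := by linarith

/-- the bound of the square of the number of electrons -/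
theorem cr_msq {ι : Type} [Fintype ι] [DecidableEq ι] (s : ℝ) (hs : 0 < s) (x : ι → E3) (c : ℝ)
    (hc : 0 ≤ c) :
    ∫⁻ b : ℝ × E3, ENNReal.ofReal (c / b.1 * nB b.2 (2 * b.1) x ^ 2) ∂bm s ≤
      ENNReal.ofReal (c * (16 / s * (Fintype.card ι + prs (4 * s) x))) := by
  classical
  set J : ι → ι → ℝ := fun i j => if i = j ∨ ‖x i - x j‖ < 4 * s then 1 else 0 with hJ
  have hJ0 : ∀ i j, 0 ≤ J i j := fun i j => by simp only [hJ]; split_ifs <;> norm_num
  have hm : ∀ i, Measurable fun b : ℝ × E3 => inB b.2 (2 * b.1) (x i) := fun i =>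
    kern_meas 2 (x i)
  have hM : Measurable fun b : ℝ × E3 => nB b.2 (2 * b.1) x := by
    unfold nB
    exact Finset.measurable_sum _ fun i _ => hm i
  -- comparison
  have h1 : ∫⁻ b : ℝ × E3, ENNReal.ofReal (c / b.1 * nB b.2 (2 * b.1) x ^ 2) ∂bm s ≤
      ∫⁻ b : ℝ × E3, ∑ i, ∑ j, ENNReal.ofReal (c * J i j) * (ENNReal.ofReal (1 / b.1) *
        ENNReal.ofReal (inB b.2 (2 * b.1) (x i))) ∂bm s := by
    have hm1 : Measurable fun b : ℝ × E3 => ENNReal.ofReal (c / b.1 * nB b.2 (2 * b.1) x ^ 2) := by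
      fun_prop
    have hm2 : Measurable fun b : ℝ × E3 => ∑ i, ∑ j, ENNReal.ofReal (c * J i j) *
        (ENNReal.ofReal (1 / b.1) * ENNReal.ofReal (inB b.2 (2 * b.1) (x i))) := by
      refine Finset.measurable_sum _ fun i _ => Finset.measurable_sum _ fun j _ => ?_
      refine Measurable.const_mul (Measurable.mul (by fun_prop) (hm i).ennreal_ofReal) _
    rw [bm_lint s _ hm1, bm_lint s _ hm2]
    refine setLIntegral_mono' measurableSet_Ioc fun ρ hρ => ?_
    gcongr with w'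
    simp only
    have hρ0 : 0 < ρ := hρ.1
    have e1 : ∀ i j, ENNReal.ofReal (c * J i j) *
        (ENNReal.ofReal (1 / ρ) * ENNReal.ofReal (inB w' (2 * ρ) (x i))) =
        ENNReal.ofReal (c * J i j * (1 / ρ * inB w' (2 * ρ) (x i))) := by
      intro i j
      rw [ENNReal.ofReal_mul (mul_nonneg hc (hJ0 i j)), ENNReal.ofReal_mul (p := 1 / ρ) (by positivity)]
    simp only [e1]
    have hn : ∀ i j, 0 ≤ c * J i j * (1 / ρ * inB w' (2 * ρ) (x i)) := fun i j => by
      have := hJ0 i j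
      have := kern_inB_nonneg w' (2 * ρ) (x i)
      positivity
    simp only [← ENNReal.ofReal_sum_of_nonneg fun j (_ : j ∈ Finset.univ) => hn _ j]
    rw [← ENNReal.ofReal_sum_of_nonneg fun i _ => Finset.sum_nonneg fun j _ => hn i j]
    refine ENNReal.ofReal_le_ofReal ?_
    unfold nB
    rw [sq, Finset.sum_mul_sum, Finset.mul_sum]
    refine Finset.sum_le_sum fun i _ => ?_
    rw [Finset.mul_sum]
    refine Finset.sum_le_sum fun j _ => ?_
    rcases cr_inB_01 w' (2 * ρ) (x i) with h | ⟨h, hi⟩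
    · simp [h]
    rcases cr_inB_01 w' (2 * ρ) (x j) with h' | ⟨h', hj⟩
    · rw [h']
      simp only [mul_zero]
      exact hn i j
    have hd : ‖x i - x j‖ < 4 * s := by
      calc ‖x i - x j‖ = ‖(x i - w') - (x j - w')‖ := by congr 1; abel
        _ ≤ ‖x i - w'‖ + ‖x j - w'‖ := norm_sub_le _ _
        _ < 4 * s := by have := hρ.2; linarith
    rw [h, h']
    simp only [hJ, if_pos (Or.inr hd : i = j ∨ ‖x i - x j‖ < 4 * s)]
    apply le_of_eq
    ring
  refine h1.trans ?_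
  rw [lintegral_finsetSum]
  swap
  · intro i _
    refine Finset.measurable_sum _ fun j _ => ?_
    refine Measurable.const_mul (Measurable.mul (by fun_prop) (hm i).ennreal_ofReal) _
  have h2 : ∀ i, ∫⁻ b : ℝ × E3, ∑ j, ENNReal.ofReal (c * J i j) * (ENNReal.ofReal (1 / b.1) *
        ENNReal.ofReal (inB b.2 (2 * b.1) (x i))) ∂bm s =
        ∑ j, ENNReal.ofReal (c * J i j) * ENNReal.ofReal (16 / s) := by
    intro i
    rw [lintegral_finsetSum]
    swap
    · intro j _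
      refine Measurable.const_mul (Measurable.mul (by fun_prop) (hm i).ennreal_ofReal) _
    refine Finset.sum_congr rfl fun j _ => ?_
    rw [lintegral_const_mul]
    swap
    · exact Measurable.mul (by fun_prop) (hm i).ennreal_ofReal
    congr 1
    rw [bm_one s 2 hs (by norm_num) (fun ρ => ENNReal.ofReal (1 / ρ)) (by fun_prop) (x i)]
    have h3 : ∫⁻ r in Set.Ioc 0 s, ENNReal.ofReal (1 / r) * ENNReal.ofReal (2 * r / s ^ 2) =
        ∫⁻ _r in Set.Ioc 0 s, ENNReal.ofReal (2 / s ^ 2) := by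
      refine setLIntegral_congr_fun measurableSet_Ioc fun r hr => ?_
      have hr0 : 0 < r := hr.1
      rw [← ENNReal.ofReal_mul (by positivity)]
      congr 1
      field_simp
    rw [h3, setLIntegral_const, Real.volume_Ioc, ← ENNReal.ofReal_mul (by positivity),
      ← ENNReal.ofReal_mul (by positivity)]
    congr 1
    field_simp
    ring
  simp only [h2]
  rw [← Finset.sum_congr rfl fun i _ => Finset.sum_mul _ _ _, ← Finset.sum_mul]
  have h4 : ∑ i, ∑ j, ENNReal.ofReal (c * J i j) = ENNReal.ofReal (∑ i, ∑ j, c * J i j) := by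
    rw [ENNReal.ofReal_sum_of_nonneg fun i _ => Finset.sum_nonneg fun j _ =>
      mul_nonneg hc (hJ0 i j)]
    refine Finset.sum_congr rfl fun i _ => ?_
    rw [ENNReal.ofReal_sum_of_nonneg fun j _ => mul_nonneg hc (hJ0 i j)]
  rw [h4, ← ENNReal.ofReal_mul]
  swap
  · exact Finset.sum_nonneg fun i _ => Finset.sum_nonneg fun j _ => mul_nonneg hc (hJ0 i j)
  refine ENNReal.ofReal_le_ofReal (le_of_eq ?_)
  have h5 : ∑ i, ∑ j, c * J i j = c * (Fintype.card ι + prs (4 * s) x) := by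
    have h6 : ∀ i j, c * J i j = c * ((if i = j then 1 else 0) +
        if i ≠ j ∧ ‖x i - x j‖ < 4 * s then 1 else 0) := by
      intro i j
      simp only [hJ]
      by_cases hij : i = j
      · simp [hij]
      · by_cases hd : ‖x i - x j‖ < 4 * s <;> simp [hij, hd]
    simp only [h6, ← Finset.mul_sum, Finset.sum_add_distrib]
    unfold prs
    simp
  rw [h5]
  ring

theorem cr_pairs_int {α β : Type} [Fintype α] [Fintype β] (s : ℝ) (hs : 0 < s) (p : α → E3)
    (q : β → E3) (c : α → β → ℝ) :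
    Integrable (fun b : ℝ × E3 => ∑ i, ∑ j, c i j * (inB b.2 b.1 (p i) * inB b.2 b.1 (q j)))
      (bm s) :=
  integrable_finsetSum _ fun i _ => integrable_finsetSum _ fun j _ =>
    (bm_pair_int s hs (p i) (q j)).const_mul _

theorem cr_pairs_real {α β : Type} [Fintype α] [Fintype β] (s : ℝ) (hs : 0 < s) (p : α → E3)
    (q : β → E3) (c : α → β → ℝ) :
    ∫ b : ℝ × E3, ∑ i, ∑ j, c i j * (inB b.2 b.1 (p i) * inB b.2 b.1 (q j)) ∂bm s =
      ∑ i, ∑ j, c i j * hker s ‖p i - q j‖ := by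
  rw [integral_finsetSum _ fun i _ => integrable_finsetSum _ fun j _ =>
    (bm_pair_int s hs (p i) (q j)).const_mul _]
  refine Finset.sum_congr rfl fun i _ => ?_
  rw [integral_finsetSum _ fun j _ => (bm_pair_int s hs (p i) (q j)).const_mul _]
  refine Finset.sum_congr rfl fun j _ => ?_
  rw [integral_const_mul, bm_pair s hs]

theorem cr_pairs {α β : Type} [Fintype α] [Fintype β] (s : ℝ) (hs : 0 < s) (p : α → E3)
    (q : β → E3) (c : α → β → ℝ) (hc : ∀ i j, 0 ≤ c i j) :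
    ∫⁻ b : ℝ × E3, ENNReal.ofReal
        (∑ i, ∑ j, c i j * (inB b.2 b.1 (p i) * inB b.2 b.1 (q j))) ∂bm s =
      ENNReal.ofReal (∑ i, ∑ j, c i j * hker s ‖p i - q j‖) := by
  rw [← ofReal_integral_eq_lintegral_ofReal (cr_pairs_int s hs p q c), cr_pairs_real s hs p q c]
  refine Filter.Eventually.of_forall fun b => ?_
  exact Finset.sum_nonneg fun i _ => Finset.sum_nonneg fun j _ => mul_nonneg (hc i j)
    (kern_pn _ _ b)

theorem cr_hker_nonneg (s t : ℝ) : 0 ≤ hker s t := by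
  unfold hker; positivity

theorem cr_hker_le (s t : ℝ) (hs : 0 < s) (ht : 0 ≤ t) : hker s t ≤ 1 := by
  unfold hker
  have h1 : max 0 (1 - t / (2 * s)) ≤ 1 := by
    apply max_le zero_le_one
    have : 0 ≤ t / (2 * s) := by positivity
    linarith
  exact pow_le_one₀ (le_max_left _ _) h1

theorem cr_hker_meas (s : ℝ) : Measurable (hker s) := by
  unfold hker
  fun_prop

theorem cr_inB2 (s : ℝ) (hs : 0 < s) (x : E3) :
    ∫⁻ b : ℝ × E3, ENNReal.ofReal (inB b.2 (2 * b.1) x) ∂bm s = 8 := by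
  have h := bm_one s 2 hs (by norm_num) (fun _ => 1) measurable_const x
  simp only [one_mul] at h
  rw [h]
  have h1 : ∫⁻ r in Set.Ioc 0 s, ENNReal.ofReal (2 * r / s ^ 2) = 1 := by
    rw [← ofReal_integral_eq_lintegral_ofReal]
    · rw [← intervalIntegral.integral_of_le hs.le, intervalIntegral.integral_div,
        intervalIntegral.integral_const_mul, integral_id]
      have : 2 * ((s ^ 2 - 0 ^ 2) / 2) / s ^ 2 = 1 := by field_simp; ring
      rw [this, ENNReal.ofReal_one]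
    · exact (Continuous.integrableOn_Icc (by fun_prop)).mono_set Set.Ioc_subset_Icc_self
    · filter_upwards [ae_restrict_mem measurableSet_Ioc] with r hr
      have := hr.1
      show 0 ≤ 2 * r / s ^ 2
      positivity
  rw [h1, mul_one]
  norm_num

theorem cr_PB_meas {ι : Type} [Fintype ι] (w : E3) (r : ℝ) : MeasurableSet (PB ι w r) :=
  MeasurableSet.univ_pi fun _ => measurableSet_ball

theorem cr_cont_ion {ι : Type} [Fintype ι] (w : E3) (r : ℝ) {h : (ι → E3) → ℝ}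
    (hc : Continuous h) : IntegrableOn h (PB ι w r) := by
  have hK : IsCompact (Set.pi Set.univ fun _ : ι => closedBall w r) :=
    isCompact_univ_pi fun _ => isCompact_closedBall w r
  refine (hc.continuousOn.integrableOn_compact hK).mono_set ?_
  intro x hx i hi
  exact ball_subset_closedBall (hx i hi)

theorem cr_bdd_ion {ι : Type} [Fintype ι] (w : E3) (r : ℝ) {g h : (ι → E3) → ℝ} {B : ℝ}
    (hg : Measurable g) (hB : ∀ x, |g x| ≤ B) (hh : IntegrableOn h (PB ι w r)) :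
    IntegrableOn (fun x => g x * h x) (PB ι w r) := by
  refine Integrable.mono' (hh.norm.const_mul B) (hg.aestronglyMeasurable.mul hh.1) ?_
  refine Filter.Eventually.of_forall fun x => ?_
  rw [norm_mul, Real.norm_eq_abs]
  exact mul_le_mul_of_nonneg_right (hB x) (norm_nonneg _)

theorem cr_prs_meas {ι : Type} [Fintype ι] [DecidableEq ι] (s : ℝ) :
    Measurable fun x : ι → E3 => prs s x := by
  unfold prs
  refine Finset.measurable_sum _ fun i _ => Finset.measurable_sum _ fun j _ => ?_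
  refine Measurable.ite ?_ measurable_const measurable_const
  by_cases hij : i = j
  · simp [hij]
  · simp only [ne_eq, hij, not_false_eq_true, true_and]
    exact measurableSet_lt (by fun_prop) measurable_const

theorem cr_prs_nonneg {ι : Type} [Fintype ι] [DecidableEq ι] (s : ℝ) (x : ι → E3) :
    0 ≤ prs s x := by
  unfold prs
  refine Finset.sum_nonneg fun i _ => Finset.sum_nonneg fun j _ => ?_
  split_ifs <;> norm_num

theorem cr_prs_le {ι : Type} [Fintype ι] [DecidableEq ι] (s : ℝ) (x : ι → E3) :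
    prs s x ≤ (Fintype.card ι : ℝ) * Fintype.card ι := by
  unfold prs
  calc ∑ i, ∑ j, (if i ≠ j ∧ ‖x i - x j‖ < s then (1 : ℝ) else 0) ≤ ∑ _i : ι, ∑ _j : ι, (1 : ℝ) := by
        refine Finset.sum_le_sum fun i _ => Finset.sum_le_sum fun j _ => ?_
        split_ifs <;> norm_num
    _ = _ := by simp

/-- the inequality between the potentials, integrated over the balls -/
theorem cr_main (z : ℝ) (hz : 0 < z) : ∃ C₃ : ℝ, 0 < C₃ ∧
    ∀ (ι κ : Type) [Fintype ι] [DecidableEq ι] [Fintype κ] (R : κ → E3) (w : E3)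
      (r s ε : ℝ) (u : (ι → E3) → ℂ), 0 < s → s ≤ r → 0 < ε →
      Function.Injective R → (Fintype.card ι : ℝ) * s ≤ 1 / 256 * ε → ContDiff ℝ 1 u →
      ∫⁻ x in PB ι w r, ENNReal.ofReal
          ((∑ i, ∑ j, z / ‖x i - R j‖ * hker s ‖x i - R j‖) * ‖u x‖ ^ 2) ≤
        ∫⁻ x in PB ι w r, ENNReal.ofReal
          ((∑ i, ∑ j, z ^ 2 / 2 / ‖R i - R j‖ * hker s ‖R i - R j‖) * ‖u x‖ ^ 2 +
            C₃ * (16 / s * (Fintype.card ι + prs (4 * s) x)) * ‖u x‖ ^ 2 +
            ε * ∑ i, gradSq u i x) := by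
  obtain ⟨C₂, hC₂, hb⟩ := cr_b
  refine ⟨z * C₂ + z ^ 2 + 3 * C₂ ^ 2, by positivity, ?_⟩
  intro ι κ _ _ _ R w r s ε u hs hsr hε hR hcard hu
  set C₃ := z * C₂ + z ^ 2 + 3 * C₂ ^ 2 with hC₃
  have hC₃p : 0 < C₃ := by positivity
  have huc := hu.continuous
  have hgm : ∀ i, Measurable (gradSq u i) := fun i => (continuous_gradSq u hu i).measurable
  have hg0 : ∀ i x, 0 ≤ gradSq u i x := fun i x => sob_gsq_nonneg _ _
  have hum : Measurable fun x => ‖u x‖ ^ 2 := by fun_prop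
  -- measurability
  have mI : ∀ (a : ℝ) (i : ι), Measurable fun p : (ι → E3) × (ℝ × E3) =>
      inB p.2.2 (a * p.2.1) (p.1 i) := by
    intro a i
    unfold inB
    refine Measurable.ite ?_ measurable_const measurable_const
    exact measurableSet_lt (f := fun p : (ι → E3) × (ℝ × E3) => ‖p.1 i - p.2.2‖)
      (g := fun p : (ι → E3) × (ℝ × E3) => a * p.2.1) (by fun_prop) (by fun_prop)
  have mI1 : ∀ (i : ι), Measurable fun p : (ι → E3) × (ℝ × E3) =>
      inB p.2.2 p.2.1 (p.1 i) := by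
    intro i
    have := mI 1 i
    simp only [one_mul] at this
    exact this
  have mR : ∀ (j : κ), Measurable fun p : (ι → E3) × (ℝ × E3) =>
      inB p.2.2 p.2.1 (R j) := fun j => (kern_meas1 (R j)).comp measurable_snd
  have mU : Measurable fun p : (ι → E3) × (ℝ × E3) => ‖u p.1‖ ^ 2 := hum.comp measurable_fst
  set T1 : (ι → E3) → (ℝ × E3) → ℝ := fun x b =>
    z * (∑ i, ∑ j, inB b.2 b.1 (x i) * inB b.2 b.1 (R j) / ‖x i - R j‖) * ‖u x‖ ^ 2 with hT1
  set T2 : (ι → E3) → (ℝ × E3) → ℝ := fun x b =>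
    z ^ 2 / 2 * (∑ i, ∑ j, inB b.2 b.1 (R i) * inB b.2 b.1 (R j) / ‖R i - R j‖) * ‖u x‖ ^ 2
    with hT2
  set T3 : (ι → E3) → (ℝ × E3) → ℝ := fun x b =>
    C₃ / b.1 * nB b.2 (2 * b.1) x ^ 2 * ‖u x‖ ^ 2 with hT3
  set T4 : (ι → E3) → (ℝ × E3) → ℝ := fun x b =>
    ε / 8 * ∑ i, inB b.2 (2 * b.1) (x i) * gradSq u i x with hT4
  have m1 : Measurable (Function.uncurry T1) := by
    simp only [hT1, Function.uncurry_def]
    refine Measurable.mul (Measurable.const_mul (Finset.measurable_sum _ fun i _ =>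
      Finset.measurable_sum _ fun j _ => ?_) _) mU
    refine Measurable.div ((mI1 i).mul (mR j)) ?_
    fun_prop
  have m2 : Measurable (Function.uncurry T2) := by
    simp only [hT2, Function.uncurry_def]
    refine Measurable.mul (Measurable.const_mul (Finset.measurable_sum _ fun i _ =>
      Finset.measurable_sum _ fun j _ => ?_) _) mU
    exact ((mR i).mul (mR j)).div_const _
  have m3 : Measurable (Function.uncurry T3) := by
    simp only [hT3, Function.uncurry_def]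
    have : Measurable fun p : (ι → E3) × (ℝ × E3) => nB p.2.2 (2 * p.2.1) p.1 := by
      unfold nB
      exact Finset.measurable_sum _ fun i _ => mI 2 i
    fun_prop
  have m4 : Measurable (Function.uncurry T4) := by
    simp only [hT4, Function.uncurry_def]
    refine Measurable.const_mul (Finset.measurable_sum _ fun i _ => ?_) _
    exact (mI 2 i).mul ((hgm i).comp measurable_fst)
  -- fixed ball
  have key : ∀ b : ℝ × E3, 0 < b.1 → b.1 ≤ s →
      ∫⁻ x in PB ι w r, ENNReal.ofReal (T1 x b) ≤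
        ∫⁻ x in PB ι w r, (ENNReal.ofReal (T2 x b) + ENNReal.ofReal (T3 x b) +
          ENNReal.ofReal (T4 x b)) := by
    intro b hb0 hbs
    refine (hb ι κ z R w r b.1 ε b.2 u hz hb0 (hbs.trans hsr) hε hu).trans ?_
    refine lintegral_mono fun x => ?_
    simp only
    have hS0 : 0 ≤ ∑ i, ∑ j, inB b.2 b.1 (R i) * inB b.2 b.1 (R j) / ‖R i - R j‖ :=
      Finset.sum_nonneg fun i _ => Finset.sum_nonneg fun j _ => div_nonneg
        (mul_nonneg (kern_inB_nonneg _ _ _) (kern_inB_nonneg _ _ _)) (norm_nonneg _)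
    have p2 : 0 ≤ T2 x b := by simp only [hT2]; positivity
    have p3 : 0 ≤ T3 x b := by simp only [hT3]; positivity
    have p4 : 0 ≤ T4 x b := by
      simp only [hT4]
      have : 0 ≤ ∑ i, inB b.2 (2 * b.1) (x i) * gradSq u i x :=
        Finset.sum_nonneg fun i _ => mul_nonneg (kern_inB_nonneg _ _ _) (hg0 i x)
      positivity
    rw [← ENNReal.ofReal_add p2 p3, ← ENNReal.ofReal_add (add_nonneg p2 p3) p4]
    refine ENNReal.ofReal_le_ofReal ?_
    simp only [hT2, hT3, hT4]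
    obtain ⟨m, hm⟩ := cr_nB_nat b.2 (2 * b.1) x
    obtain ⟨k, hk⟩ := cr_nB_nat b.2 b.1 R
    have hmle := cr_nB_le b.2 (2 * b.1) x
    have hst := cr_static R hR b.2 b.1
    rw [hm] at hmle
    rw [hk] at hst
    rw [hm, hk]
    have hmb : (m : ℝ) * b.1 ≤ 1 / 256 * ε := by
      refine le_trans ?_ hcard
      gcongr
    have ha := cr_arith z C₂ b.1 ε m k hz hC₂ hb0 hε hmb
    have hu0 : 0 ≤ ‖u x‖ ^ 2 := by positivity
    have h7 : (m : ℝ) * (z * k * C₂ / b.1 + 8 * z ^ 2 * (k : ℝ) ^ 2 / ε) ≤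
        z ^ 2 / 2 * (∑ i, ∑ j, inB b.2 b.1 (R i) * inB b.2 b.1 (R j) / ‖R i - R j‖) +
          C₃ / b.1 * (m : ℝ) ^ 2 := by
      refine ha.trans ?_
      have : z ^ 2 / 2 * (((k : ℝ) * k - k) / (2 * b.1)) ≤ z ^ 2 / 2 *
          (∑ i, ∑ j, inB b.2 b.1 (R i) * inB b.2 b.1 (R j) / ‖R i - R j‖) := by gcongr
      linarith
    have h8 := mul_le_mul_of_nonneg_right h7 hu0
    linarith
  -- swap
  have sw : ∀ {T : (ι → E3) → (ℝ × E3) → ℝ}, Measurable (Function.uncurry T) →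
      ∫⁻ x in PB ι w r, ∫⁻ b, ENNReal.ofReal (T x b) ∂bm s =
        ∫⁻ b, (∫⁻ x in PB ι w r, ENNReal.ofReal (T x b)) ∂bm s := by
    intro T hT
    exact lintegral_lintegral_swap (f := fun x b => ENNReal.ofReal (T x b))
      (hT.ennreal_ofReal.aemeasurable)
  have mb : ∀ {T : (ι → E3) → (ℝ × E3) → ℝ}, Measurable (Function.uncurry T) →
      Measurable fun b => ∫⁻ x in PB ι w r, ENNReal.ofReal (T x b) := by
    intro T hT
    exact Measurable.lintegral_prod_left' (f := fun p : (ι → E3) × (ℝ × E3) =>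
      ENNReal.ofReal (T p.1 p.2)) hT.ennreal_ofReal
  have mx : ∀ {T : (ι → E3) → (ℝ × E3) → ℝ}, Measurable (Function.uncurry T) → ∀ b,
      Measurable fun x => ENNReal.ofReal (T x b) := by
    intro T hT b
    exact (hT.comp (measurable_id.prodMk measurable_const)).ennreal_ofReal
  have main : ∫⁻ x in PB ι w r, ∫⁻ b, ENNReal.ofReal (T1 x b) ∂bm s ≤
      ∫⁻ x in PB ι w r, (∫⁻ b, ENNReal.ofReal (T2 x b) ∂bm s +
        ∫⁻ b, ENNReal.ofReal (T3 x b) ∂bm s + ∫⁻ b, ENNReal.ofReal (T4 x b) ∂bm s) := by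
    have mm : ∀ {T : (ι → E3) → (ℝ × E3) → ℝ}, Measurable (Function.uncurry T) →
        Measurable fun x => ∫⁻ b, ENNReal.ofReal (T x b) ∂bm s := by
      intro T hT
      exact Measurable.lintegral_prod_right' (f := fun p : (ι → E3) × (ℝ × E3) =>
        ENNReal.ofReal (T p.1 p.2)) hT.ennreal_ofReal
    rw [lintegral_add_right _ (mm m4), lintegral_add_right _ (mm m3), sw m1, sw m2, sw m3, sw m4,
      ← lintegral_add_right _ (mb m3), ← lintegral_add_right _ (mb m4)]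
    have mbs : Measurable fun b => (∫⁻ x in PB ι w r, ENNReal.ofReal (T2 x b)) +
        (∫⁻ x in PB ι w r, ENNReal.ofReal (T3 x b)) +
        (∫⁻ x in PB ι w r, ENNReal.ofReal (T4 x b)) := ((mb m2).add (mb m3)).add (mb m4)
    rw [bm_lint s _ (mb m1), bm_lint s _ mbs]
    refine setLIntegral_mono' measurableSet_Ioc fun ρ hρ => ?_
    gcongr with w'
    have h9 := key (ρ, w') hρ.1 hρ.2
    rw [lintegral_add_right _ (mx m4 _), lintegral_add_right _ (mx m3 _)] at h9
    exact h9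
  -- left side
  have eL : ∀ x, ENNReal.ofReal ((∑ i, ∑ j, z / ‖x i - R j‖ * hker s ‖x i - R j‖) * ‖u x‖ ^ 2) =
      ∫⁻ b, ENNReal.ofReal (T1 x b) ∂bm s := by
    intro x
    have h := cr_pairs s hs x R (fun i j => z / ‖x i - R j‖ * ‖u x‖ ^ 2)
      (fun i j => by positivity)
    rw [Finset.sum_mul]
    simp only [Finset.sum_mul]
    have e : ∀ i j, z / ‖x i - R j‖ * hker s ‖x i - R j‖ * ‖u x‖ ^ 2 =
      z / ‖x i - R j‖ * ‖u x‖ ^ 2 * hker s ‖x i - R j‖ := fun i j => by ring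
    simp only [e]
    rw [← h]
    refine lintegral_congr fun b => ?_
    congr 1
    simp only [hT1]
    rw [Finset.mul_sum, Finset.sum_mul]
    refine Finset.sum_congr rfl fun i _ => ?_
    rw [Finset.mul_sum, Finset.sum_mul]
    refine Finset.sum_congr rfl fun j _ => ?_
    ring
  have eR2 : ∀ x, ∫⁻ b, ENNReal.ofReal (T2 x b) ∂bm s = ENNReal.ofReal
      ((∑ i, ∑ j, z ^ 2 / 2 / ‖R i - R j‖ * hker s ‖R i - R j‖) * ‖u x‖ ^ 2) := by
    intro x
    have h := cr_pairs s hs R R (fun i j => z ^ 2 / 2 / ‖R i - R j‖ * ‖u x‖ ^ 2)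
      (fun i j => by positivity)
    rw [Finset.sum_mul]
    simp only [Finset.sum_mul]
    have e : ∀ i j, z ^ 2 / 2 / ‖R i - R j‖ * hker s ‖R i - R j‖ * ‖u x‖ ^ 2 =
      z ^ 2 / 2 / ‖R i - R j‖ * ‖u x‖ ^ 2 * hker s ‖R i - R j‖ := fun i j => by ring
    simp only [e]
    rw [← h]
    refine lintegral_congr fun b => ?_
    congr 1
    simp only [hT2]
    rw [Finset.mul_sum, Finset.sum_mul]
    refine Finset.sum_congr rfl fun i _ => ?_
    rw [Finset.mul_sum, Finset.sum_mul]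
    refine Finset.sum_congr rfl fun j _ => ?_
    ring
  have eR3 : ∀ x, ∫⁻ b, ENNReal.ofReal (T3 x b) ∂bm s ≤ ENNReal.ofReal
      (C₃ * (16 / s * (Fintype.card ι + prs (4 * s) x)) * ‖u x‖ ^ 2) := by
    intro x
    have h := cr_msq s hs x C₃ hC₃p.le
    have hu0 : 0 ≤ ‖u x‖ ^ 2 := by positivity
    rw [ENNReal.ofReal_mul' hu0]
    simp only [hT3, ENNReal.ofReal_mul' hu0]
    rw [lintegral_mul_const]
    · gcongr
    · have : Measurable fun b : ℝ × E3 => nB b.2 (2 * b.1) x := by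
        unfold nB
        exact Finset.measurable_sum _ fun i _ => kern_meas 2 (x i)
      fun_prop
  have eR4 : ∀ x, ∫⁻ b, ENNReal.ofReal (T4 x b) ∂bm s = ENNReal.ofReal (ε * ∑ i, gradSq u i x) := by
    intro x
    simp only [hT4]
    have e : ∀ b : ℝ × E3, ENNReal.ofReal (ε / 8 * ∑ i, inB b.2 (2 * b.1) (x i) * gradSq u i x) =
        ∑ i, ENNReal.ofReal (ε / 8 * gradSq u i x) * ENNReal.ofReal (inB b.2 (2 * b.1) (x i)) := by
      intro b
      rw [Finset.mul_sum, ENNReal.ofReal_sum_of_nonneg]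
      · refine Finset.sum_congr rfl fun i _ => ?_
        rw [← ENNReal.ofReal_mul (mul_nonneg (by positivity) (hg0 i x))]
        congr 1
        ring
      · intro i _
        exact mul_nonneg (by positivity) (mul_nonneg (kern_inB_nonneg _ _ _) (hg0 i x))
    simp only [e]
    rw [lintegral_finsetSum _ fun i _ => ((kern_meas 2 (x i)).ennreal_ofReal).const_mul _]
    have e' : ∀ i, ∫⁻ b : ℝ × E3, ENNReal.ofReal (ε / 8 * gradSq u i x) *
        ENNReal.ofReal (inB b.2 (2 * b.1) (x i)) ∂bm s = ENNReal.ofReal (ε * gradSq u i x) := by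
      intro i
      rw [lintegral_const_mul _ (kern_meas 2 (x i)).ennreal_ofReal, cr_inB2 s hs]
      have h8 : (8 : ℝ≥0∞) = ENNReal.ofReal 8 := by simp
      rw [h8, ← ENNReal.ofReal_mul (mul_nonneg (by positivity) (hg0 i x))]
      congr 1
      ring
    simp only [e']
    rw [Finset.mul_sum, ENNReal.ofReal_sum_of_nonneg fun i _ => mul_nonneg hε.le (hg0 i x)]
  simp only [eL]
  refine main.trans (lintegral_mono fun x => ?_)
  simp only
  rw [eR2, eR4, ENNReal.ofReal_add, ENNReal.ofReal_add]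
  · gcongr
    exact eR3 x
  · have : 0 ≤ ∑ i, ∑ j, z ^ 2 / 2 / ‖R i - R j‖ * hker s ‖R i - R j‖ :=
      Finset.sum_nonneg fun i _ => Finset.sum_nonneg fun j _ => mul_nonneg (by positivity)
        (cr_hker_nonneg _ _)
    positivity
  · have := cr_prs_nonneg (4 * s) x
    positivity
  · have : 0 ≤ ∑ i, ∑ j, z ^ 2 / 2 / ‖R i - R j‖ * hker s ‖R i - R j‖ :=
      Finset.sum_nonneg fun i _ => Finset.sum_nonneg fun j _ => mul_nonneg (by positivity)
        (cr_hker_nonneg _ _)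
    have := cr_prs_nonneg (4 * s) x
    positivity
  · exact mul_nonneg hε.le (Finset.sum_nonneg fun i _ => hg0 i x)

theorem cr_coulB_int {ι κ : Type} [Fintype ι] [Fintype κ] (z s : ℝ) (hs : 0 < s) (x : ι → E3)
    (R : κ → E3) :
    ∫ b : ℝ × E3, coulB z x R b.2 b.1 ∂bm s =
      (∑ i, ∑ j, 1 / 2 / ‖x i - x j‖ * hker s ‖x i - x j‖) -
        (∑ i, ∑ j, z / ‖x i - R j‖ * hker s ‖x i - R j‖) +
        (∑ i, ∑ j, z ^ 2 / 2 / ‖R i - R j‖ * hker s ‖R i - R j‖) := by
  have iS : Integrable (fun b : ℝ × E3 =>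
      (∑ i, ∑ j, 1 / 2 / ‖x i - x j‖ * (inB b.2 b.1 (x i) * inB b.2 b.1 (x j))) -
        ∑ i, ∑ j, z / ‖x i - R j‖ * (inB b.2 b.1 (x i) * inB b.2 b.1 (R j))) (bm s) :=
    (cr_pairs_int s hs x x _).sub (cr_pairs_int s hs x R _)
  rw [← cr_pairs_real s hs x x (fun i j => 1 / 2 / ‖x i - x j‖),
    ← cr_pairs_real s hs x R (fun i j => z / ‖x i - R j‖),
    ← cr_pairs_real s hs R R (fun i j => z ^ 2 / 2 / ‖R i - R j‖),
    ← integral_sub (cr_pairs_int s hs x x _) (cr_pairs_int s hs x R _),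
    ← integral_add iS (cr_pairs_int s hs R R _)]
  refine integral_congr_ae (Filter.Eventually.of_forall fun b => ?_)
  simp only [coulB, Finset.mul_sum]
  congr 1
  · congr 1
    · refine Finset.sum_congr rfl fun i _ => Finset.sum_congr rfl fun j _ => ?_
      ring
    · refine Finset.sum_congr rfl fun i _ => Finset.sum_congr rfl fun j _ => ?_
      ring
  · refine Finset.sum_congr rfl fun i _ => Finset.sum_congr rfl fun j _ => ?_
    ring

theorem crude (z : ℝ) (hz : 0 < z) : ∃ C c₀ : ℝ, 0 < C ∧ 0 < c₀ ∧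
    ∀ (ι κ : Type) [Fintype ι] [DecidableEq ι] [Fintype κ] (R : κ → E3) (w : E3)
      (r s ε : ℝ) (u : (ι → E3) → ℂ), 0 < s → s ≤ r → 0 < ε → ε ≤ 1 →
      Function.Injective R → (∀ j, R j ∈ ball w r) →
      (Fintype.card ι : ℝ) * s ≤ c₀ * ε → ContDiff ℝ 1 u →
      -(C / s) * (∫ x in PB ι w r, ((Fintype.card ι : ℝ) + prs (4 * s) x) * ‖u x‖ ^ 2) ≤
        ε * (∑ i, ∫ x in PB ι w r, gradSq u i x) +
          (∫ x in PB ι w r, coul z x R * ‖u x‖ ^ 2) := by
  obtain ⟨C₃, hC₃, hmain⟩ := cr_main z hz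
  refine ⟨16 * C₃ + 3 / 4 * (2 * z + 1), 1 / 256, by positivity, by norm_num, ?_⟩
  intro ι κ _ _ _ R w r s ε u hs hsr hε _ hR _ hcard hu
  have hm := hmain ι κ R w r s ε u hs hsr hε hR hcard hu
  have huc := hu.continuous
  have hg0 : ∀ i x, 0 ≤ gradSq u i x := fun i x => sob_gsq_nonneg _ _
  have hgc : ∀ i, Continuous (gradSq u i) := continuous_gradSq u hu
  set n : ℝ := (Fintype.card ι : ℝ) with hn
  have hn0 : 0 ≤ n := Nat.cast_nonneg _
  set A1 : (ι → E3) → ℝ := fun x => ∑ i, ∑ j, z / ‖x i - R j‖ * hker s ‖x i - R j‖ with hA1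
  set A2 : ℝ := ∑ i, ∑ j, z ^ 2 / 2 / ‖R i - R j‖ * hker s ‖R i - R j‖ with hA2
  have hA20 : 0 ≤ A2 := Finset.sum_nonneg fun i _ => Finset.sum_nonneg fun j _ =>
    mul_nonneg (by positivity) (cr_hker_nonneg _ _)
  have hA10 : ∀ x, 0 ≤ A1 x := fun x => Finset.sum_nonneg fun i _ => Finset.sum_nonneg fun j _ =>
    mul_nonneg (by positivity) (cr_hker_nonneg _ _)
  -- integrability
  have iU : IntegrableOn (fun x => ‖u x‖ ^ 2) (PB ι w r) := cr_cont_ion w r (by fun_prop)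
  have iG : ∀ i, IntegrableOn (gradSq u i) (PB ι w r) := fun i => cr_cont_ion w r (hgc i)
  have iP : IntegrableOn (fun x => (n + prs (4 * s) x) * ‖u x‖ ^ 2) (PB ι w r) := by
    refine cr_bdd_ion w r (B := n + n * n) ((cr_prs_meas _).const_add n) (fun x => ?_) iU
    have h1 := cr_prs_nonneg (4 * s) x
    have h2 := cr_prs_le (4 * s) x
    rw [abs_of_nonneg (by positivity)]
    linarith
  have iA1 : IntegrableOn (fun x => A1 x * ‖u x‖ ^ 2) (PB ι w r) := by
    have e : ∀ x, A1 x * ‖u x‖ ^ 2 =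
        ∑ i, ∑ j, (z * hker s ‖x i - R j‖) * (1 / ‖x i - R j‖ * ‖u x‖ ^ 2) := by
      intro x
      simp only [hA1]
      rw [Finset.sum_mul]
      refine Finset.sum_congr rfl fun i _ => ?_
      rw [Finset.sum_mul]
      refine Finset.sum_congr rfl fun j _ => ?_
      ring
    simp only [e]
    refine integrable_finsetSum _ fun i _ => integrable_finsetSum _ fun j _ => ?_
    refine cr_bdd_ion w r (B := z) ?_ (fun x => ?_) (integrableOn_en w r u huc i (R j))
    · refine Measurable.const_mul ((cr_hker_meas s).comp ?_) _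
      fun_prop
    · rw [abs_of_nonneg (mul_nonneg hz.le (cr_hker_nonneg _ _))]
      have := cr_hker_le s ‖x i - R j‖ hs (norm_nonneg _)
      nlinarith
  have iC : IntegrableOn (fun x => coul z x R * ‖u x‖ ^ 2) (PB ι w r) := by
    have e : ∀ x : ι → E3, coul z x R * ‖u x‖ ^ 2 =
        1 / 2 * (∑ i, ∑ j, 1 / ‖x i - x j‖ * ‖u x‖ ^ 2) -
          z * (∑ i, ∑ j, 1 / ‖x i - R j‖ * ‖u x‖ ^ 2) +
          (z ^ 2 / 2 * ∑ i, ∑ j, 1 / ‖R i - R j‖) * ‖u x‖ ^ 2 := by
      intro x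
      simp only [coul, ← Finset.sum_mul]
      ring
    simp only [e]
    refine Integrable.add (Integrable.sub (Integrable.const_mul ?_ _) (Integrable.const_mul ?_ _))
      (iU.const_mul _)
    · exact integrable_finsetSum _ fun i _ => integrable_finsetSum _ fun j _ =>
        integrableOn_ee w r u huc i j
    · exact integrable_finsetSum _ fun i _ => integrable_finsetSum _ fun j _ =>
        integrableOn_en w r u huc i (R j)
  have iR : IntegrableOn (fun x => A2 * ‖u x‖ ^ 2 + C₃ * (16 / s * (n + prs (4 * s) x)) * ‖u x‖ ^ 2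
      + ε * ∑ i, gradSq u i x) (PB ι w r) := by
    refine Integrable.add (Integrable.add (iU.const_mul _) ?_)
      (Integrable.const_mul (integrable_finsetSum _ fun i _ => iG i) _)
    have := iP.const_mul (C₃ * (16 / s))
    refine this.congr (Filter.Eventually.of_forall fun x => ?_)
    simp only
    ring
  -- real inequality
  have hreal : ∫ x in PB ι w r, A1 x * ‖u x‖ ^ 2 ≤ ∫ x in PB ι w r, (A2 * ‖u x‖ ^ 2 +
      C₃ * (16 / s * (n + prs (4 * s) x)) * ‖u x‖ ^ 2 + ε * ∑ i, gradSq u i x) := by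
    have pR : ∀ x, 0 ≤ A2 * ‖u x‖ ^ 2 +
        C₃ * (16 / s * (n + prs (4 * s) x)) * ‖u x‖ ^ 2 + ε * ∑ i, gradSq u i x := by
      intro x
      have h1 := cr_prs_nonneg (4 * s) x
      have h2 : 0 ≤ ∑ i, gradSq u i x := Finset.sum_nonneg fun i _ => hg0 i x
      positivity
    have pL : ∀ x, 0 ≤ A1 x * ‖u x‖ ^ 2 := fun x => mul_nonneg (hA10 x) (by positivity)
    have h1 := ofReal_integral_eq_lintegral_ofReal iA1 (Filter.Eventually.of_forall pL)
    have h2 := ofReal_integral_eq_lintegral_ofReal iR (Filter.Eventually.of_forall pR)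
    rw [← ENNReal.ofReal_le_ofReal_iff (integral_nonneg pR), h1, h2]
    exact hm
  -- almost everywhere inequality
  have hae : ∫ x in PB ι w r, (A2 * ‖u x‖ ^ 2 - A1 x * ‖u x‖ ^ 2 -
      3 / 4 * (2 * z + 1) * n / s * ‖u x‖ ^ 2) ≤ ∫ x in PB ι w r, coul z x R * ‖u x‖ ^ 2 := by
    refine integral_mono_ae (((iU.const_mul _).sub iA1).sub (iU.const_mul _)) iC ?_
    filter_upwards [ae_restrict_of_ae (distinct_ae (ι := ι) R)] with x hx
    have h1 := gs_balls z s hz.le hs x R hx.1 hR hx.2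
    rw [cr_coulB_int z s hs x R] at h1
    have h2 : 0 ≤ ∑ i, ∑ j, 1 / 2 / ‖x i - x j‖ * hker s ‖x i - x j‖ :=
      Finset.sum_nonneg fun i _ => Finset.sum_nonneg fun j _ =>
        mul_nonneg (by positivity) (cr_hker_nonneg _ _)
    have h3 : A2 - A1 x - 3 / 4 * (2 * z + 1) * n / s ≤ coul z x R := by
      simp only [hA1, hA2]
      linarith
    have hu0 : 0 ≤ ‖u x‖ ^ 2 := by positivity
    have h4 := mul_le_mul_of_nonneg_right h3 hu0
    linarith
  have iS : IntegrableOn (fun x => A2 * ‖u x‖ ^ 2 - A1 x * ‖u x‖ ^ 2) (PB ι w r) :=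
    (iU.const_mul _).sub iA1
  rw [integral_sub iS (iU.const_mul _), integral_sub (iU.const_mul _) iA1,
    integral_const_mul, integral_const_mul] at hae
  have hreal2 : ∫ x in PB ι w r, (A2 * ‖u x‖ ^ 2 +
      C₃ * (16 / s * (n + prs (4 * s) x)) * ‖u x‖ ^ 2 + ε * ∑ i, gradSq u i x) =
      A2 * (∫ x in PB ι w r, ‖u x‖ ^ 2) +
        C₃ * (16 / s) * (∫ x in PB ι w r, (n + prs (4 * s) x) * ‖u x‖ ^ 2) +
        ε * ∑ i, ∫ x in PB ι w r, gradSq u i x := by
    have e : ∀ x, C₃ * (16 / s * (n + prs (4 * s) x)) * ‖u x‖ ^ 2 =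
        C₃ * (16 / s) * ((n + prs (4 * s) x) * ‖u x‖ ^ 2) := fun x => by ring
    simp only [e]
    have iT : IntegrableOn (fun x => A2 * ‖u x‖ ^ 2 +
        C₃ * (16 / s) * ((n + prs (4 * s) x) * ‖u x‖ ^ 2)) (PB ι w r) :=
      (iU.const_mul _).add (iP.const_mul _)
    rw [integral_add iT
      (Integrable.const_mul (integrable_finsetSum _ fun i _ => iG i) _),
      integral_add (iU.const_mul _) (iP.const_mul _), integral_const_mul, integral_const_mul,
      integral_const_mul, integral_finsetSum _ fun i _ => iG i]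
  rw [hreal2] at hreal
  have hUP : n * (∫ x in PB ι w r, ‖u x‖ ^ 2) ≤
      ∫ x in PB ι w r, (n + prs (4 * s) x) * ‖u x‖ ^ 2 := by
    rw [← integral_const_mul]
    refine integral_mono (iU.const_mul _) iP fun x => ?_
    have h1 := cr_prs_nonneg (4 * s) x
    have hu0 : 0 ≤ ‖u x‖ ^ 2 := by positivity
    simp only
    nlinarith
  set U := ∫ x in PB ι w r, ‖u x‖ ^ 2 with hU
  set Pi := ∫ x in PB ι w r, (n + prs (4 * s) x) * ‖u x‖ ^ 2 with hPi
  have h5 : 3 / 4 * (2 * z + 1) * n / s * U ≤ 3 / 4 * (2 * z + 1) / s * Pi := by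
    have : 0 ≤ 3 / 4 * (2 * z + 1) / s := by positivity
    calc 3 / 4 * (2 * z + 1) * n / s * U = 3 / 4 * (2 * z + 1) / s * (n * U) := by ring
      _ ≤ _ := mul_le_mul_of_nonneg_left hUP this
  have h6 : -((16 * C₃ + 3 / 4 * (2 * z + 1)) / s) * Pi =
      -(C₃ * (16 / s) * Pi) - 3 / 4 * (2 * z + 1) / s * Pi := by ring
  rw [h6]
  linarith

end Pool.Agent.H5R2.NL
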