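import Mathlib
import Pool.Agent.H5R2.NL.Defs
import Pool.Agent.H5R2.NL.PoinA

/-!
# Efron-Stein and the Poincaré inequality on products of balls
-/

set_option autoImplicit false

noncomputable section

namespace Pool.Agent.H5R2.NL

open MeasureTheory Metric Set
open scoped ENNReal

section ES

variable {ι : Type} [Fintype ι] [DecidableEq ι]

/-- resampling one coordinate preserves the product measure -/
theorem pbb_mp (μ : Measure E3) [IsProbabilityMeasure μ] (i : ι) :
    MeasurePreserving (fun q : (ι → E3) × E3 => Function.update q.1 i q.2)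
      ((Measure.pi fun _ : ι => μ).prod μ) (Measure.pi fun _ : ι => μ) := by
  have hm : Measurable (fun q : (ι → E3) × E3 => Function.update q.1 i q.2) :=
    measurable_update'
  refine ⟨hm, ?_⟩
  symm
  apply Measure.pi_eq
  intro s hs
  rw [Measure.map_apply hm (MeasurableSet.univ_pi hs)]
  have h1 : (fun q : (ι → E3) × E3 => Function.update q.1 i q.2) ⁻¹' (Set.univ.pi s) =
      (Set.univ.pi (Function.update s i univ)) ×ˢ s i := by
    ext ⟨x, t⟩
    simp only [mem_preimage, mem_univ_pi, mem_prod]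
    constructor
    · intro h
      refine ⟨fun j => ?_, ?_⟩
      · by_cases hj : j = i
        · subst hj; simp
        · have := h j; simpa [hj] using this
      · simpa using h i
    · rintro ⟨h1, h2⟩ j
      by_cases hj : j = i
      · subst hj; simpa using h2
      · simpa [hj] using h1 j
  rw [h1, Measure.prod_prod, Measure.pi_pi]
  have e : (fun j => μ (Function.update s i univ j)) =
      Function.update (fun j => μ (s j)) i 1 := by
    ext j
    by_cases hj : j = i
    · subst hj; simp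
    · simp [hj]
  rw [e, Finset.prod_update_of_mem (Finset.mem_univ i), one_mul, mul_comm]
  exact (Finset.prod_eq_mul_prod_sdiff_singleton_of_mem (Finset.mem_univ i)
    fun j => μ (s j)).symm

theorem pbb_resample {F : Type*} [NormedAddCommGroup F] [NormedSpace ℝ F]
    (μ : Measure E3) [IsProbabilityMeasure μ] (i : ι) (f : (ι → E3) → F)
    (hf : StronglyMeasurable f) (B : ℝ) (hB : ∀ x, ‖f x‖ ≤ B) :
    ∫ x, f x ∂(Measure.pi fun _ : ι => μ) =
      ∫ x, ∫ t, f (Function.update x i t) ∂μ ∂(Measure.pi fun _ : ι => μ) := by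
  have hmp := pbb_mp μ i
  conv_lhs => rw [← hmp.map_eq]
  rw [integral_map hmp.measurable.aemeasurable hf.aestronglyMeasurable]
  rw [integral_prod]
  exact Integrable.of_bound (hf.comp_measurable hmp.measurable).aestronglyMeasurable B
    (Filter.Eventually.of_forall fun x => hB _)

theorem pbb_resample_l (μ : Measure E3) [IsProbabilityMeasure μ] (i : ι) (f : (ι → E3) → ℝ≥0∞)
    (hf : Measurable f) :
    ∫⁻ x, f x ∂(Measure.pi fun _ : ι => μ) =
      ∫⁻ x, ∫⁻ t, f (Function.update x i t) ∂μ ∂(Measure.pi fun _ : ι => μ) := by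
  have hmp := pbb_mp μ i
  conv_lhs => rw [← hmp.map_eq]
  rw [lintegral_map hf hmp.measurable]
  exact lintegral_prod _ (hf.comp hmp.measurable).aemeasurable

/-- average over one coordinate -/
def pbbE (μ : Measure E3) (i : ι) (u : (ι → E3) → ℂ) (x : ι → E3) : ℂ :=
  ∫ t, u (Function.update x i t) ∂μ

variable (μ : Measure E3) [IsProbabilityMeasure μ]

theorem pbbE_meas (i : ι) {u : (ι → E3) → ℂ} (hu : Measurable u) : Measurable (pbbE μ i u) := by
  unfold pbbE
  have h1 : StronglyMeasurable fun q : (ι → E3) × E3 => u (Function.update q.1 i q.2) :=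
    (hu.comp measurable_update').stronglyMeasurable
  exact h1.integral_prod_right'.measurable

omit [Fintype ι] in
theorem pbbE_bdd (i : ι) {u : (ι → E3) → ℂ} {B : ℝ} (hB : ∀ x, ‖u x‖ ≤ B) (x : ι → E3) :
    ‖pbbE μ i u x‖ ≤ B := by
  unfold pbbE
  refine (norm_integral_le_of_norm_le_const (C := B)
    (Filter.Eventually.of_forall fun t => hB _)).trans ?_
  simp

omit [Fintype ι] [IsProbabilityMeasure μ] in
theorem pbbE_update (i : ι) (u : (ι → E3) → ℂ) (x : ι → E3) (t : E3) :
    pbbE μ i u (Function.update x i t) = pbbE μ i u x := by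
  unfold pbbE
  simp only [Function.update_idem]

/-- variance decomposition for one variable -/
theorem pbb_var {α : Type*} [MeasurableSpace α] (ν : Measure α) [IsProbabilityMeasure ν]
    (g : α → ℂ) (hg : Integrable g ν) (hg2 : Integrable (fun x => ‖g x‖ ^ 2) ν) :
    ∫ x, ‖g x - ∫ y, g y ∂ν‖ ^ 2 ∂ν = ∫ x, ‖g x‖ ^ 2 ∂ν - ‖∫ y, g y ∂ν‖ ^ 2 := by
  obtain ⟨m, hm⟩ : ∃ m, m = ∫ y, g y ∂ν := ⟨_, rfl⟩
  rw [← hm]
  have h1 : ∀ x, ‖g x - m‖ ^ 2 = ‖g x‖ ^ 2 - 2 * inner ℝ m (g x) + ‖m‖ ^ 2 := by
    intro x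
    rw [norm_sub_sq_real, real_inner_comm]
  have hi : Integrable (fun x => inner ℝ m (g x)) ν := hg.const_inner m
  have h2 : ∫ x, inner ℝ m (g x) ∂ν = ‖m‖ ^ 2 := by
    rw [integral_inner hg m, ← hm, real_inner_self_eq_norm_sq]
  simp_rw [h1]
  have h3 : ∫ x, (‖g x‖ ^ 2 - 2 * inner ℝ m (g x) + ‖m‖ ^ 2) ∂ν =
      ∫ x, (‖g x‖ ^ 2 - 2 * inner ℝ m (g x)) ∂ν + ∫ _, ‖m‖ ^ 2 ∂ν :=
    integral_add (hg2.sub (hi.const_mul 2)) (integrable_const _)
  rw [h3, integral_sub hg2 (hi.const_mul 2), integral_const_mul, h2]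
  simp
  ring

theorem pbb_decomp (i : ι) {w : (ι → E3) → ℂ} (hw : Measurable w) {B : ℝ}
    (hB : ∀ x, ‖w x‖ ≤ B) :
    ∫ x, ‖w x‖ ^ 2 ∂(Measure.pi fun _ : ι => μ) =
      ∫ x, ‖w x - pbbE μ i w x‖ ^ 2 ∂(Measure.pi fun _ : ι => μ) +
        ∫ x, ‖pbbE μ i w x‖ ^ 2 ∂(Measure.pi fun _ : ι => μ) := by
  have hB0 : 0 ≤ B := (norm_nonneg _).trans (hB (fun _ => 0))
  have hEm := pbbE_meas μ i hw
  have hEb := pbbE_bdd μ i hB
  rw [pbb_resample μ i (fun x => ‖w x‖ ^ 2) (hw.norm.pow_const 2).stronglyMeasurable (B ^ 2)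
      (fun x => by
        rw [norm_pow, norm_norm]
        exact pow_le_pow_left₀ (norm_nonneg _) (hB x) 2),
    pbb_resample μ i (fun x => ‖w x - pbbE μ i w x‖ ^ 2)
      ((hw.sub hEm).norm.pow_const 2).stronglyMeasurable ((2 * B) ^ 2)
      (fun x => by
        rw [norm_pow, norm_norm]
        apply pow_le_pow_left₀ (norm_nonneg _)
        refine (norm_sub_le _ _).trans ?_
        linarith [hB x, hEb x])]
  have h1 : ∀ x : ι → E3, ∫ t, ‖w (Function.update x i t)‖ ^ 2 ∂μ =
      (∫ t, ‖w (Function.update x i t) - pbbE μ i w (Function.update x i t)‖ ^ 2 ∂μ) +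
        ‖pbbE μ i w x‖ ^ 2 := by
    intro x
    simp only [pbbE_update]
    have hgm : Measurable fun t => w (Function.update x i t) :=
      hw.comp (measurable_update x)
    have h2 := pbb_var μ (fun t => w (Function.update x i t))
      (Integrable.of_bound hgm.aestronglyMeasurable B (Filter.Eventually.of_forall fun t => hB _))
      (Integrable.of_bound (hgm.norm.pow_const 2).aestronglyMeasurable (B ^ 2)
        (Filter.Eventually.of_forall fun t => by
          rw [norm_pow, norm_norm]
          exact pow_le_pow_left₀ (norm_nonneg _) (hB _) 2))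
    have h3 : pbbE μ i w x = ∫ t, w (Function.update x i t) ∂μ := rfl
    rw [h3, h2]
    ring
  simp_rw [h1]
  rw [integral_add]
  · have hmm : StronglyMeasurable fun q : (ι → E3) × E3 =>
        ‖w (Function.update q.1 i q.2) - pbbE μ i w (Function.update q.1 i q.2)‖ ^ 2 :=
      (((hw.sub hEm).comp measurable_update').norm.pow_const 2).stronglyMeasurable
    refine Integrable.of_bound hmm.integral_prod_right'.aestronglyMeasurable ((2 * B) ^ 2)
      (Filter.Eventually.of_forall fun x => ?_)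
    refine (norm_integral_le_of_norm_le_const (C := (2 * B) ^ 2)
      (Filter.Eventually.of_forall fun t => ?_)).trans (by simp)
    rw [norm_pow, norm_norm]
    apply pow_le_pow_left₀ (norm_nonneg _)
    refine (norm_sub_le _ _).trans ?_
    linarith [hB (Function.update x i t), hEb (Function.update x i t)]
  · refine Integrable.of_bound (hEm.norm.pow_const 2).aestronglyMeasurable (B ^ 2)
      (Filter.Eventually.of_forall fun x => ?_)
    rw [norm_pow, norm_norm]
    exact pow_le_pow_left₀ (norm_nonneg _) (hEb x) 2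

theorem pbb_contr (i : ι) {w : (ι → E3) → ℂ} (hw : Measurable w) {B : ℝ}
    (hB : ∀ x, ‖w x‖ ≤ B) :
    ∫ x, ‖pbbE μ i w x‖ ^ 2 ∂(Measure.pi fun _ : ι => μ) ≤
      ∫ x, ‖w x‖ ^ 2 ∂(Measure.pi fun _ : ι => μ) := by
  rw [pbb_decomp μ i hw hB]
  have : 0 ≤ ∫ x, ‖w x - pbbE μ i w x‖ ^ 2 ∂(Measure.pi fun _ : ι => μ) :=
    integral_nonneg fun x => by positivity
  linarith

/-- iterated averages -/
def pbbP (μ : Measure E3) (u : (ι → E3) → ℂ) : List ι → (ι → E3) → ℂ
  | [] => u
  | i :: L => pbbE μ i (pbbP μ u L)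

theorem pbbP_meas {u : (ι → E3) → ℂ} (hu : Measurable u) (L : List ι) :
    Measurable (pbbP μ u L) := by
  induction L with
  | nil => exact hu
  | cons i L ih => exact pbbE_meas μ i ih

omit [Fintype ι] in
theorem pbbP_bdd {u : (ι → E3) → ℂ} {B : ℝ} (hB : ∀ x, ‖u x‖ ≤ B) (L : List ι) :
    ∀ x, ‖pbbP μ u L x‖ ≤ B := by
  induction L with
  | nil => exact hB
  | cons i L ih => exact pbbE_bdd μ i ih

omit [Fintype ι] [IsProbabilityMeasure μ] in
theorem pbbP_inv (u : (ι → E3) → ℂ) (L : List ι) :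
    ∀ j ∈ L, ∀ (x : ι → E3) (t : E3), pbbP μ u L (Function.update x j t) = pbbP μ u L x := by
  induction L with
  | nil => simp
  | cons i L ih =>
    intro j hj x t
    by_cases hji : j = i
    · subst hji
      exact pbbE_update μ j _ x t
    · have hjL : j ∈ L := by
        rcases List.mem_cons.1 hj with h | h
        · exact absurd h hji
        · exact h
      change pbbE μ i (pbbP μ u L) (Function.update x j t) = pbbE μ i (pbbP μ u L) x
      unfold pbbE
      congr 1
      ext τ
      rw [Function.update_comm hji]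
      exact ih j hjL _ t

theorem pbbP_int {u : (ι → E3) → ℂ} (hu : Measurable u) {B : ℝ} (hB : ∀ x, ‖u x‖ ≤ B)
    (L : List ι) :
    ∫ x, pbbP μ u L x ∂(Measure.pi fun _ : ι => μ) = ∫ x, u x ∂(Measure.pi fun _ : ι => μ) := by
  induction L with
  | nil => rfl
  | cons i L ih =>
    rw [← ih]
    rw [pbb_resample μ i (pbbP μ u L) (pbbP_meas μ hu L).stronglyMeasurable B
      (pbbP_bdd μ hB L)]
    rfl

theorem pbb_const {f : (ι → E3) → ℂ}
    (hf : ∀ (j : ι) (x : ι → E3) (t : E3), f (Function.update x j t) = f x) (x y : ι → E3) :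
    f x = f y := by
  have h : ∀ s : Finset ι, f (s.piecewise y x) = f x := by
    intro s
    induction s using Finset.induction_on with
    | empty => simp
    | insert i s _ ih =>
      rw [Finset.piecewise_insert, hf, ih]
  have := h Finset.univ
  rw [Finset.piecewise_univ] at this
  exact this.symm

theorem pbb_list {u : (ι → E3) → ℂ} (hu : Measurable u) {B : ℝ} (hB : ∀ x, ‖u x‖ ≤ B)
    (L : List ι) :
    ∫ x, ‖u x - pbbP μ u L x‖ ^ 2 ∂(Measure.pi fun _ : ι => μ) ≤
      (L.map fun i => ∫ x, ‖u x - pbbE μ i u x‖ ^ 2 ∂(Measure.pi fun _ : ι => μ)).sum := by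
  have hint : ∀ (i : ι) {v : (ι → E3) → ℂ}, Measurable v → (∀ x, ‖v x‖ ≤ B) → ∀ x : ι → E3,
      Integrable (fun t => v (Function.update x i t)) μ := fun i v hv hvB x =>
    Integrable.of_bound (hv.comp (measurable_update x)).aestronglyMeasurable B
      (Filter.Eventually.of_forall fun t => hvB _)
  induction L with
  | nil => simp [pbbP]
  | cons i L ih =>
    rw [List.map_cons, List.sum_cons]
    have hPm := pbbP_meas μ hu L
    have hPb := pbbP_bdd μ hB L
    have hEm := pbbE_meas μ i hPm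
    have hEb := pbbE_bdd μ i hPb
    have hwm : Measurable fun x => u x - pbbE μ i (pbbP μ u L) x := hu.sub hEm
    have hwb : ∀ x, ‖u x - pbbE μ i (pbbP μ u L) x‖ ≤ 2 * B := fun x => by
      refine (norm_sub_le _ _).trans ?_
      linarith [hB x, hEb x]
    have h1 : ∀ x, pbbE μ i (fun x => u x - pbbE μ i (pbbP μ u L) x) x =
        pbbE μ i u x - pbbE μ i (pbbP μ u L) x := by
      intro x
      unfold pbbE
      rw [integral_sub (hint i hu hB x)]
      · congr 1
        simp only [Function.update_idem]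
        simp
      · simp only [Function.update_idem]
        exact integrable_const _
    have h2 : ∀ x, pbbE μ i (fun x => u x - pbbP μ u L x) x =
        pbbE μ i u x - pbbE μ i (pbbP μ u L) x := by
      intro x
      unfold pbbE
      rw [integral_sub (hint i hu hB x) (hint i hPm hPb x)]
    change ∫ x, ‖u x - pbbE μ i (pbbP μ u L) x‖ ^ 2 ∂(Measure.pi fun _ : ι => μ) ≤ _
    rw [pbb_decomp μ i hwm hwb]
    have h3 : ∀ x, (u x - pbbE μ i (pbbP μ u L) x) -
        pbbE μ i (fun x => u x - pbbE μ i (pbbP μ u L) x) x = u x - pbbE μ i u x := by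
      intro x; rw [h1]; ring
    simp_rw [h3, h1, ← h2]
    have h4 := pbb_contr μ i (w := fun x => u x - pbbP μ u L x) (hu.sub hPm) (B := 2 * B)
      (fun x => by
        refine (norm_sub_le _ _).trans ?_
        linarith [hB x, hPb x])
    linarith [ih]

end ES

theorem efron_stein {ι : Type} [Fintype ι] [DecidableEq ι] (μ : Measure E3)
    [IsProbabilityMeasure μ] (u : (ι → E3) → ℂ) (hu : Measurable u)
    (hb : ∃ B, ∀ x, ‖u x‖ ≤ B) :
    ∫ x, ‖u x - ∫ y, u y ∂(Measure.pi fun _ : ι => μ)‖ ^ 2 ∂(Measure.pi fun _ : ι => μ) ≤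
      ∑ i, ∫ x, ‖u x - ∫ t, u (Function.update x i t) ∂μ‖ ^ 2 ∂(Measure.pi fun _ : ι => μ) := by
  obtain ⟨B, hB⟩ := hb
  have h1 := pbb_list μ hu hB (Finset.univ : Finset ι).toList
  have h2 : ∀ x, pbbP μ u (Finset.univ : Finset ι).toList x =
      ∫ y, u y ∂(Measure.pi fun _ : ι => μ) := by
    intro x
    rw [← pbbP_int μ hu hB (Finset.univ : Finset ι).toList]
    have h3 : ∀ y, pbbP μ u (Finset.univ : Finset ι).toList y =
        pbbP μ u (Finset.univ : Finset ι).toList x := fun y =>
      pbb_const (fun j z t => pbbP_inv μ u _ j (by simp) z t) y x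
    simp_rw [h3]
    simp
  simp_rw [h2] at h1
  refine h1.trans (le_of_eq ?_)
  rw [Finset.sum_map_toList]
  rfl

theorem pbb_gradSq_eq {ι : Type} [Fintype ι] [DecidableEq ι] {u : (ι → E3) → ℂ}
    (hu : ContDiff ℝ 1 u) (i : ι) (x : ι → E3) :
    gradSq u i x =
      ∑ c : Fin 3, ‖fderiv ℝ u x (Pi.single i (EuclideanSpace.single c (1 : ℝ)))‖ ^ 2 := by
  unfold gradSq gsq
  have h1 : HasFDerivAt (fun y => u (Function.update x i y))
      ((fderiv ℝ u x).comp (.pi (Pi.single i (.id ℝ E3)))) (x i) := by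
    have h2 := hasFDerivAt_update (𝕜 := ℝ) x (i := i) (x i)
    have h3 : HasFDerivAt u (fderiv ℝ u x) (Function.update x i (x i)) := by
      rw [Function.update_eq_self]
      exact (hu.differentiable (by norm_num) x).hasFDerivAt
    exact h3.comp (x i) h2
  rw [h1.fderiv]
  apply Finset.sum_congr rfl
  intro c _
  congr 2
  rw [ContinuousLinearMap.comp_apply]
  congr 1
  ext1 j
  by_cases hj : j = i
  · subst hj; simp
  · simp [Pi.single_eq_of_ne hj]

theorem pbb_continuous_gradSq {ι : Type} [Fintype ι] [DecidableEq ι] {u : (ι → E3) → ℂ}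
    (hu : ContDiff ℝ 1 u) (i : ι) : Continuous (gradSq u i) := by
  have h : Continuous (fderiv ℝ u) := hu.continuous_fderiv (by norm_num)
  have h1 : gradSq u i = fun x =>
      ∑ c : Fin 3, ‖fderiv ℝ u x (Pi.single i (EuclideanSpace.single c (1 : ℝ)))‖ ^ 2 := by
    ext x; exact pbb_gradSq_eq hu i x
  rw [h1]
  refine continuous_finsetSum _ fun c _ => ?_
  exact ((h.clm_apply continuous_const).norm).pow 2

theorem pbb_one {C : ℝ} (hC : 0 < C) (hP : ∀ (w : E3) (r : ℝ) (u : E3 → ℂ), 0 < r →
    ContDiff ℝ 1 u → ∫ x in ball w r, ‖u x - ⨍ y in ball w r, u y‖ ^ 2 ≤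
      C * r ^ 2 * ∫ x in ball w r, gsq u x) {ι : Type} [Fintype ι] [DecidableEq ι] {w : E3}
    {r : ℝ} (hr : 0 < r) {u : (ι → E3) → ℂ} (hu : ContDiff ℝ 1 u) (ν : Measure E3)
    [IsProbabilityMeasure ν]
    (hν : ν = (volume (ball w r))⁻¹ • volume.restrict (ball w r)) (i : ι)
    (hint : Integrable (gradSq u i) (Measure.pi fun _ : ι => ν)) :
    ∫ x, ‖u x - ∫ t, u (Function.update x i t) ∂ν‖ ^ 2 ∂(Measure.pi fun _ : ι => ν) ≤
      C * r ^ 2 * ∫ x, gradSq u i x ∂(Measure.pi fun _ : ι => ν) := by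
  have hum : Measurable u := hu.continuous.measurable
  have hEm := pbbE_meas ν i hum
  have hGc := pbb_continuous_gradSq hu i
  have hG0 : ∀ x, 0 ≤ gradSq u i x := fun x => pba_gsq_nonneg _ _
  have hmain : ∫⁻ x, ENNReal.ofReal (‖u x - pbbE ν i u x‖ ^ 2) ∂(Measure.pi fun _ : ι => ν) ≤
      ENNReal.ofReal (C * r ^ 2) *
        ∫⁻ x, ENNReal.ofReal (gradSq u i x) ∂(Measure.pi fun _ : ι => ν) := by
    rw [pbb_resample_l ν i (fun x => ENNReal.ofReal (‖u x - pbbE ν i u x‖ ^ 2))
        ((hum.sub hEm).norm.pow_const 2).ennreal_ofReal,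
      pbb_resample_l ν i (fun x => ENNReal.ofReal (gradSq u i x))
        hGc.measurable.ennreal_ofReal, ← lintegral_const_mul]
    · apply lintegral_mono
      intro x
      simp only [pbbE_update]
      have hg : ContDiff ℝ 1 fun y => u (Function.update x i y) := hu.comp (contDiff_update 1 x i)
      have h1 := hP w r _ hr hg
      have h2 : ⨍ y in ball w r, u (Function.update x i y) = pbbE ν i u x := by
        unfold pbbE
        rw [setAverage_eq', hν]
      rw [h2] at h1
      have hcg := pba_continuous_gsq hg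
      have hgc := hg.continuous
      have h3 : ∀ t, gradSq u i (Function.update x i t) =
          gsq (fun y => u (Function.update x i y)) t := by
        intro t
        unfold gradSq
        simp only [Function.update_idem, Function.update_self]
      simp only [h3]
      obtain ⟨m, hm⟩ : ∃ m, m = pbbE ν i u x := ⟨_, rfl⟩
      rw [← hm] at h1 ⊢
      rw [hν, lintegral_smul_measure, lintegral_smul_measure, smul_eq_mul, smul_eq_mul,
        ← ofReal_integral_eq_lintegral_ofReal (pba_integrableOn (by fun_prop) w r)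
          (Filter.Eventually.of_forall fun y => by positivity),
        ← ofReal_integral_eq_lintegral_ofReal (pba_integrableOn hcg w r)
          (Filter.Eventually.of_forall fun y => pba_gsq_nonneg _ _), mul_left_comm,
        ← ENNReal.ofReal_mul (by positivity)]
      exact mul_le_mul' le_rfl (ENNReal.ofReal_le_ofReal h1)
    · apply Measurable.lintegral_prod_right'
        (f := fun q : (ι → E3) × E3 => ENNReal.ofReal (gradSq u i (Function.update q.1 i q.2)))
      exact (hGc.measurable.comp measurable_update').ennreal_ofReal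
  rw [← ofReal_integral_eq_lintegral_ofReal hint (Filter.Eventually.of_forall hG0),
    ← ENNReal.ofReal_mul (by positivity)] at hmain
  have h1 : ∫ x, ‖u x - ∫ t, u (Function.update x i t) ∂ν‖ ^ 2 ∂(Measure.pi fun _ : ι => ν) =
      (∫⁻ x, ENNReal.ofReal (‖u x - pbbE ν i u x‖ ^ 2) ∂(Measure.pi fun _ : ι => ν)).toReal :=
    integral_eq_lintegral_of_nonneg_ae (Filter.Eventually.of_forall fun x => by positivity)
      ((hum.sub hEm).norm.pow_const 2).aestronglyMeasurable
  rw [h1]
  refine (ENNReal.toReal_mono ENNReal.ofReal_ne_top hmain).trans (le_of_eq ?_)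
  apply ENNReal.toReal_ofReal
  have : 0 ≤ ∫ x, gradSq u i x ∂(Measure.pi fun _ : ι => ν) := integral_nonneg hG0
  positivity

theorem poincare : ∃ C : ℝ, 0 < C ∧ ∀ (ι : Type) [Fintype ι] [DecidableEq ι] (w : E3) (r : ℝ)
    (u : (ι → E3) → ℂ), 0 < r → ContDiff ℝ 1 u →
    ∫ x in PB ι w r, ‖u x - ⨍ y in PB ι w r, u y‖ ^ 2 ≤
      C * r ^ 2 * ∑ i, ∫ x in PB ι w r, gradSq u i x := by
  obtain ⟨C, hC, hP⟩ := poincare_ball
  refine ⟨C, hC, ?_⟩
  intro ι _ _ w r u hr hu
  have hV0 : volume (ball w r) ≠ 0 := (measure_ball_pos volume w hr).ne'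
  have hVt : volume (ball w r) ≠ ⊤ := measure_ball_lt_top.ne
  obtain ⟨ν, hν⟩ : ∃ ν : Measure E3, ν = (volume (ball w r))⁻¹ • volume.restrict (ball w r) :=
    ⟨_, rfl⟩
  have hνp : IsProbabilityMeasure ν := by
    refine ⟨?_⟩
    rw [hν, Measure.smul_apply, Measure.restrict_apply_univ, smul_eq_mul]
    exact ENNReal.inv_mul_cancel hV0 hVt
  have hTm : MeasurableSet (PB ι w r) := MeasurableSet.univ_pi fun _ => measurableSet_ball
  have hVT : volume (PB ι w r) = ∏ _i : ι, volume (ball w r) := volume_pi_pi _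
  have hT0 : volume (PB ι w r) ≠ 0 := by
    rw [hVT]; exact Finset.prod_ne_zero_iff.2 fun _ _ => hV0
  have hTt : volume (PB ι w r) ≠ ⊤ := by
    rw [hVT]; exact ENNReal.prod_ne_top fun _ _ => hVt
  have hM : (Measure.pi fun _ : ι => ν) =
      (volume (PB ι w r))⁻¹ • (volume : Measure (ι → E3)).restrict (PB ι w r) := by
    apply Measure.pi_eq
    intro s hs
    rw [Measure.smul_apply, Measure.restrict_apply (MeasurableSet.univ_pi hs), smul_eq_mul]
    have h1 : univ.pi s ∩ PB ι w r = univ.pi fun i => s i ∩ ball w r := by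
      unfold PB
      rw [← Set.pi_inter_distrib]
    rw [h1, volume_pi_pi, hVT]
    have h2 : ∀ i, ν (s i) = (volume (ball w r))⁻¹ * volume (s i ∩ ball w r) := by
      intro i
      rw [hν, Measure.smul_apply, Measure.restrict_apply (hs i), smul_eq_mul]
    simp_rw [h2]
    rw [Finset.prod_mul_distrib, Finset.prod_const, Finset.prod_const, ENNReal.inv_pow]
  have hcl : PB ι w r ⊆ univ.pi fun _ : ι => closedBall w r :=
    Set.pi_mono fun _ _ => ball_subset_closedBall
  have hcomp : IsCompact (univ.pi fun _ : ι => closedBall w r) :=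
    isCompact_univ_pi fun _ => isCompact_closedBall w r
  have hint : ∀ {F : Type} [NormedAddCommGroup F] (φ : (ι → E3) → F), Continuous φ →
      Integrable φ (Measure.pi fun _ : ι => ν) := by
    intro F _ φ hφ
    rw [hM]
    have h1 : IntegrableOn φ (PB ι w r) := (hφ.continuousOn.integrableOn_compact hcomp).mono_set hcl
    exact h1.integrable.smul_measure (by simpa using hT0)
  -- reduction to the measure M
  have hav : ⨍ y in PB ι w r, u y = ∫ y, u y ∂(Measure.pi fun _ : ι => ν) := by
    rw [setAverage_eq', hM]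
  have hq : 0 < ((volume (PB ι w r))⁻¹).toReal :=
    ENNReal.toReal_pos (ENNReal.inv_ne_zero.2 hTt) (ENNReal.inv_ne_top.2 hT0)
  have hconv : ∀ f : (ι → E3) → ℝ, ∫ x, f x ∂(Measure.pi fun _ : ι => ν) =
      ((volume (PB ι w r))⁻¹).toReal * ∫ x in PB ι w r, f x := by
    intro f
    rw [hM, integral_smul_measure, smul_eq_mul]
  rw [hav]
  refine le_of_mul_le_mul_left ?_ hq
  rw [← hconv]
  have hrhs : ((volume (PB ι w r))⁻¹).toReal *
      (C * r ^ 2 * ∑ i, ∫ x in PB ι w r, gradSq u i x) =
      ∑ i, C * r ^ 2 * ∫ x, gradSq u i x ∂(Measure.pi fun _ : ι => ν) := by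
    simp_rw [hconv]
    rw [Finset.mul_sum, Finset.mul_sum]
    apply Finset.sum_congr rfl
    intro i _
    ring
  rw [hrhs]
  -- truncation
  obtain ⟨B, hB⟩ := hcomp.exists_bound_of_continuousOn hu.continuous.continuousOn
  have hB0 : 0 ≤ B := by
    have h1 : (fun _ : ι => w) ∈ univ.pi fun _ : ι => closedBall w r := by
      intro i _
      exact mem_closedBall_self hr.le
    exact (norm_nonneg _).trans (hB _ h1)
  have hu'm : Measurable ((PB ι w r).indicator u) := hu.continuous.measurable.indicator hTm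
  have hES := efron_stein ν ((PB ι w r).indicator u) hu'm ⟨B, fun x => by
    by_cases hx : x ∈ PB ι w r
    · rw [indicator_of_mem hx]; exact hB x (hcl hx)
    · rw [indicator_of_notMem hx, norm_zero]; exact hB0⟩
  have haeM : ∀ᵐ x ∂(Measure.pi fun _ : ι => ν), x ∈ PB ι w r := by
    rw [hM]
    exact Measure.ae_smul_measure (ae_restrict_mem hTm) _
  have haeν : ∀ᵐ t ∂ν, t ∈ ball w r := by
    rw [hν]
    exact Measure.ae_smul_measure (ae_restrict_mem measurableSet_ball) _
  have e1 : ∫ y, (PB ι w r).indicator u y ∂(Measure.pi fun _ : ι => ν) =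
      ∫ y, u y ∂(Measure.pi fun _ : ι => ν) := by
    apply integral_congr_ae
    filter_upwards [haeM] with x hx
    rw [indicator_of_mem hx]
  have e2 : ∫ x, ‖(PB ι w r).indicator u x - ∫ y, (PB ι w r).indicator u y
      ∂(Measure.pi fun _ : ι => ν)‖ ^ 2 ∂(Measure.pi fun _ : ι => ν) =
      ∫ x, ‖u x - ∫ y, u y ∂(Measure.pi fun _ : ι => ν)‖ ^ 2 ∂(Measure.pi fun _ : ι => ν) := by
    rw [e1]
    apply integral_congr_ae
    filter_upwards [haeM] with x hx
    rw [indicator_of_mem hx]
  have e3 : ∀ i : ι, ∫ x, ‖(PB ι w r).indicator u x -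
      ∫ t, (PB ι w r).indicator u (Function.update x i t) ∂ν‖ ^ 2 ∂(Measure.pi fun _ : ι => ν) =
      ∫ x, ‖u x - ∫ t, u (Function.update x i t) ∂ν‖ ^ 2 ∂(Measure.pi fun _ : ι => ν) := by
    intro i
    apply integral_congr_ae
    filter_upwards [haeM] with x hx
    have h1 : ∫ t, (PB ι w r).indicator u (Function.update x i t) ∂ν =
        ∫ t, u (Function.update x i t) ∂ν := by
      apply integral_congr_ae
      filter_upwards [haeν] with t ht
      rw [indicator_of_mem]
      intro j _
      by_cases hj : j = i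
      · subst hj; simpa using ht
      · simpa [hj] using hx j (mem_univ j)
    rw [h1, indicator_of_mem hx]
  rw [e2] at hES
  simp_rw [e3] at hES
  refine hES.trans (Finset.sum_le_sum fun i _ => ?_)
  exact pbb_one hC hP hr hu ν hν i (hint _ (pbb_continuous_gradSq hu i))

end Pool.Agent.H5R2.NL
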