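import Mathlib
import Pool.Agent.H5R2.NL.Defs
import Pool.Agent.H5R2.NL.Int
import Pool.Agent.H5R2.NL.Push
import Pool.Agent.H5R2.NL.Poin

/-!
# GAP : few electrons in a small ball (helper728)
-/

set_option autoImplicit false
set_option linter.unusedSectionVars false

noncomputable section

namespace Pool.Agent.H5R2.NL

open MeasureTheory Metric Filter Topology
open scoped ENNReal RealInnerProductSpace

namespace Gap

variable {ι : Type} [Fintype ι] [DecidableEq ι]

theorem restrict_PB (w : E3) (r : ℝ) :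
    (volume : Measure (ι → E3)).restrict (PB ι w r) =
      Measure.pi fun _ : ι => (volume : Measure E3).restrict (ball w r) := by
  unfold PB
  rw [volume_pi, Measure.restrict_pi_pi]

theorem meas_PB (w : E3) (r : ℝ) : MeasurableSet (PB ι w r) :=
  MeasurableSet.univ_pi fun _ => measurableSet_ball

theorem slice_mono (w : E3) (r : ℝ) (i : ι) {F G : (ι → E3) → ℝ≥0∞} (hF : Measurable F)
    (hG : Measurable G)
    (h : ∀ x, ∫⁻ t in ball w r, F (Function.update x i t) ≤
      ∫⁻ t in ball w r, G (Function.update x i t)) :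
    ∫⁻ x in PB ι w r, F x ≤ ∫⁻ x in PB ι w r, G x := by
  rw [restrict_PB]
  apply lintegral_le_of_lmarginal_le {i} hF hG
  rw [lmarginal_singleton, lmarginal_singleton]
  exact h

theorem slice_meas (w : E3) (r : ℝ) (i : ι) {F : (ι → E3) → ℝ≥0∞} (hF : Measurable F) :
    Measurable (fun x => ∫⁻ t in ball w r, F (Function.update x i t)) := by
  have := hF.lmarginal (fun _ : ι => (volume : Measure E3).restrict (ball w r)) (s := {i})
  rw [lmarginal_singleton] at this
  exact this

theorem slice_eq (w : E3) (r : ℝ) (i : ι) {F : (ι → E3) → ℝ≥0∞} (hF : Measurable F) :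
    volume (ball w r) * ∫⁻ x in PB ι w r, F x =
      ∫⁻ x in PB ι w r, ∫⁻ t in ball w r, F (Function.update x i t) := by
  rw [← lintegral_const_mul _ hF]
  rw [restrict_PB]
  apply lintegral_eq_of_lmarginal_eq {i} (hF.const_mul _) (slice_meas w r i hF)
  rw [lmarginal_singleton, lmarginal_singleton]
  funext x
  simp only [Function.update_idem]
  rw [lintegral_const, Measure.restrict_apply MeasurableSet.univ, Set.univ_inter, mul_comm,
    lintegral_const_mul]
  exact hF.comp (measurable_update x)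

theorem vol_PB (w : E3) (r : ℝ) :
    volume (PB ι w r) = (volume (ball w r)) ^ (Fintype.card ι) := by
  unfold PB
  rw [volume_pi, Measure.pi_pi, Finset.prod_const, Finset.card_univ]

theorem vol_PB_lt (w : E3) (r : ℝ) : volume (PB ι w r) < ⊤ := by
  rw [vol_PB]; exact ENNReal.pow_lt_top measure_ball_lt_top

theorem vol_ball_pos {w : E3} {r : ℝ} (hr : 0 < r) : 0 < volume (ball w r) :=
  measure_ball_pos volume w hr

theorem vol_PB_pos {w : E3} {r : ℝ} (hr : 0 < r) : 0 < volume (PB ι w r) := by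
  rw [vol_PB]; exact ENNReal.pow_pos (vol_ball_pos hr) _

instance fin_PB (w : E3) (r : ℝ) :
    IsFiniteMeasure ((volume : Measure (ι → E3)).restrict (PB ι w r)) :=
  ⟨by rw [Measure.restrict_apply MeasurableSet.univ, Set.univ_inter]; exact vol_PB_lt w r⟩

/-- volume of the ball -/
theorem vball {w : E3} {r : ℝ} (hr : 0 < r) :
    volume.real (ball w r) = 4 / 3 * Real.pi * r ^ 3 := by
  have h := EuclideanSpace.volume_ball_fin_three w (r := r)
  rw [measureReal_def, h, ENNReal.toReal_mul, ENNReal.toReal_pow, ENNReal.toReal_ofReal hr.le,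
    ENNReal.toReal_ofReal (by positivity)]
  ring

/-- continuous functions are integrable on `PB` -/
theorem cont_int {E : Type*} [NormedAddCommGroup E] {h : (ι → E3) → E} (hc : Continuous h)
    (w : E3) (r : ℝ) : IntegrableOn h (PB ι w r) := by
  have hK : IsCompact (Set.pi Set.univ fun _ : ι => closedBall w r) :=
    isCompact_univ_pi fun _ => isCompact_closedBall w r
  exact (hc.continuousOn.integrableOn_compact hK).mono_set
    (Set.pi_mono fun _ _ => ball_subset_closedBall)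

/-- bounded on `PB` -/
theorem cont_bdd {h : (ι → E3) → ℝ} (hc : Continuous h) (w : E3) (r : ℝ) :
    ∃ C, ∀ x ∈ PB ι w r, |h x| ≤ C := by
  have hK : IsCompact (Set.pi Set.univ fun _ : ι => closedBall w r) :=
    isCompact_univ_pi fun _ => isCompact_closedBall w r
  obtain ⟨C, hC⟩ := hK.exists_bound_of_continuousOn hc.continuousOn
  exact ⟨C, fun x hx => hC x (Set.pi_mono (fun _ _ => ball_subset_closedBall) hx)⟩

/-- average of `1/|t-y|` -/
theorem avg1 (w y : E3) {r : ℝ} (hr : 0 < r) :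
    ∫⁻ t in ball w r, ENNReal.ofReal (1 / ‖t - y‖) ≤
      ENNReal.ofReal (7 / r * volume.real (ball w r)) := by
  have hint := integrableOn_inv y w r
  rw [← ofReal_integral_eq_lintegral_ofReal hint (Eventually.of_forall fun t => by positivity)]
  apply ENNReal.ofReal_le_ofReal
  have hsplit : ∀ t : E3, t ∈ ball w r → 1 / ‖t - y‖ ≤
      Set.indicator (ball y (2 * r)) (fun t => 1 / ‖t - y‖) t + 1 / (2 * r) := by
    intro t _
    by_cases ht : t ∈ ball y (2 * r)
    · rw [Set.indicator_of_mem ht]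
      have : 0 ≤ 1 / (2 * r) := by positivity
      linarith
    · rw [Set.indicator_of_notMem ht, zero_add]
      rw [mem_ball, dist_eq_norm, not_lt] at ht
      exact one_div_le_one_div_of_le (by positivity) ht
  have hi2 : IntegrableOn (fun t : E3 => 1 / ‖t - y‖) (ball y (2 * r)) := integrableOn_inv y y _
  have hi3 : Integrable (Set.indicator (ball y (2 * r)) (fun t : E3 => 1 / ‖t - y‖)) :=
    hi2.integrable_indicator measurableSet_ball
  calc ∫ t in ball w r, 1 / ‖t - y‖
      ≤ ∫ t in ball w r, (Set.indicator (ball y (2 * r)) (fun t => 1 / ‖t - y‖) t +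
          1 / (2 * r)) := by
        apply setIntegral_mono_on hint _ measurableSet_ball hsplit
        exact hi3.integrableOn.add (integrableOn_const measure_ball_lt_top.ne)
    _ = (∫ t in ball w r, Set.indicator (ball y (2 * r)) (fun t => 1 / ‖t - y‖) t) +
          volume.real (ball w r) * (1 / (2 * r)) := by
        rw [integral_add hi3.integrableOn (integrableOn_const measure_ball_lt_top.ne)]
        simp [measureReal_def]
    _ ≤ 2 * Real.pi * (2 * r) ^ 2 + volume.real (ball w r) * (1 / (2 * r)) := by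
        have h1 : (∫ t in ball w r, Set.indicator (ball y (2 * r)) (fun t => 1 / ‖t - y‖) t) ≤
            ∫ t, Set.indicator (ball y (2 * r)) (fun t => 1 / ‖t - y‖) t :=
          setIntegral_le_integral hi3 (Eventually.of_forall fun t =>
            Set.indicator_nonneg (fun t _ => by positivity) t)
        have h2 : ∫ t, Set.indicator (ball y (2 * r)) (fun t => 1 / ‖t - y‖) t =
            2 * Real.pi * (2 * r) ^ 2 := by
          rw [integral_indicator measurableSet_ball, int_inv y (2 * r) (by positivity)]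
        linarith
    _ ≤ 7 / r * volume.real (ball w r) := by
        rw [vball hr]
        have hπ := Real.pi_pos
        have : 2 * Real.pi * (2 * r) ^ 2 + 4 / 3 * Real.pi * r ^ 3 * (1 / (2 * r)) =
          (8 + 2 / 3) * Real.pi * r ^ 2 := by field_simp; ring
        rw [this]
        have h2 : 7 / r * (4 / 3 * Real.pi * r ^ 3) = (28 / 3) * Real.pi * r ^ 2 := by
          field_simp; ring
        rw [h2]
        have : 0 < Real.pi * r ^ 2 := by positivity
        nlinarith

/-- average of `1/|t-y|²` -/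
theorem avg2 (w y : E3) {r : ℝ} (hr : 0 < r) :
    ∫⁻ t in ball w r, ENNReal.ofReal (1 / ‖t - y‖ ^ 2) ≤
      ENNReal.ofReal (7 / r ^ 2 * volume.real (ball w r)) := by
  have hint := integrableOn_inv_sq y w r
  rw [← ofReal_integral_eq_lintegral_ofReal hint (Eventually.of_forall fun t => by positivity)]
  apply ENNReal.ofReal_le_ofReal
  have hsplit : ∀ t : E3, t ∈ ball w r → 1 / ‖t - y‖ ^ 2 ≤
      Set.indicator (ball y (2 * r)) (fun t => 1 / ‖t - y‖ ^ 2) t + 1 / (2 * r) ^ 2 := by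
    intro t _
    by_cases ht : t ∈ ball y (2 * r)
    · rw [Set.indicator_of_mem ht]
      have : 0 ≤ 1 / (2 * r) ^ 2 := by positivity
      linarith
    · rw [Set.indicator_of_notMem ht, zero_add]
      rw [mem_ball, dist_eq_norm, not_lt] at ht
      apply one_div_le_one_div_of_le (by positivity)
      exact pow_le_pow_left₀ (by positivity) ht 2
  have hi2 : IntegrableOn (fun t : E3 => 1 / ‖t - y‖ ^ 2) (ball y (2 * r)) :=
    integrableOn_inv_sq y y _
  have hi3 : Integrable (Set.indicator (ball y (2 * r)) (fun t : E3 => 1 / ‖t - y‖ ^ 2)) :=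
    hi2.integrable_indicator measurableSet_ball
  calc ∫ t in ball w r, 1 / ‖t - y‖ ^ 2
      ≤ ∫ t in ball w r, (Set.indicator (ball y (2 * r)) (fun t => 1 / ‖t - y‖ ^ 2) t +
          1 / (2 * r) ^ 2) := by
        apply setIntegral_mono_on hint _ measurableSet_ball hsplit
        exact hi3.integrableOn.add (integrableOn_const measure_ball_lt_top.ne)
    _ = (∫ t in ball w r, Set.indicator (ball y (2 * r)) (fun t => 1 / ‖t - y‖ ^ 2) t) +
          volume.real (ball w r) * (1 / (2 * r) ^ 2) := by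
        rw [integral_add hi3.integrableOn (integrableOn_const measure_ball_lt_top.ne)]
        simp [measureReal_def]
    _ ≤ 4 * Real.pi * (2 * r) + volume.real (ball w r) * (1 / (2 * r) ^ 2) := by
        have h1 : (∫ t in ball w r, Set.indicator (ball y (2 * r))
            (fun t => 1 / ‖t - y‖ ^ 2) t) ≤
            ∫ t, Set.indicator (ball y (2 * r)) (fun t => 1 / ‖t - y‖ ^ 2) t :=
          setIntegral_le_integral hi3 (Eventually.of_forall fun t =>
            Set.indicator_nonneg (fun t _ => by positivity) t)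
        have h2 : ∫ t, Set.indicator (ball y (2 * r)) (fun t => 1 / ‖t - y‖ ^ 2) t =
            4 * Real.pi * (2 * r) := by
          rw [integral_indicator measurableSet_ball, int_inv_sq y (2 * r) (by positivity)]
        linarith
    _ ≤ 7 / r ^ 2 * volume.real (ball w r) := by
        rw [vball hr]
        have hπ := Real.pi_pos
        have : 4 * Real.pi * (2 * r) + 4 / 3 * Real.pi * r ^ 3 * (1 / (2 * r) ^ 2) =
          (8 + 1 / 3) * Real.pi * r := by field_simp; ring
        rw [this]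
        have h2 : 7 / r ^ 2 * (4 / 3 * Real.pi * r ^ 3) = (28 / 3) * Real.pi * r := by
          field_simp; ring
        rw [h2]
        have : 0 < Real.pi * r := by positivity
        nlinarith

/-! ### push on slices -/

theorem upd_contDiff {g : (ι → E3) → ℂ} (hg : ContDiff ℝ 1 g) (x : ι → E3) (i : ι) :
    ContDiff ℝ 1 (fun t => g (Function.update x i t)) :=
  hg.comp (contDiff_update 1 x i)

theorem gradSq_upd (g : (ι → E3) → ℂ) (x : ι → E3) (i : ι) (t : E3) :
    gradSq g i (Function.update x i t) = gsq (fun t => g (Function.update x i t)) t := by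
  unfold gradSq
  simp only [Function.update_idem, Function.update_self]

theorem gradSq_nonneg (g : (ι → E3) → ℂ) (i : ι) (x : ι → E3) : 0 ≤ gradSq g i x :=
  Push.gsq_nonneg _ _

theorem push_slice (w R : E3) {r : ℝ} (hr : 0 < r) {g : (ι → E3) → ℂ} (hg : ContDiff ℝ 1 g)
    (i : ι) :
    ∫ x in PB ι w r, 1 / ‖x i - R‖ * ‖g x‖ ^ 2 ≤
      3 / (2 * r) * (∫ x in PB ι w r, ‖g x‖ ^ 2) +
        2 * (∫ x in PB ι w r, ‖g x‖ * Real.sqrt (gradSq g i x)) := by
  have cg : Continuous g := hg.continuous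
  have cG : Continuous (gradSq g i) := continuous_gradSq g hg i
  have hball : ∀ {h : E3 → ℝ}, Continuous h → IntegrableOn h (ball w r) := fun hc =>
    (hc.continuousOn.integrableOn_compact (isCompact_closedBall w r)).mono_set
      ball_subset_closedBall
  set F : (ι → E3) → ℝ≥0∞ := fun x => ENNReal.ofReal (2 * (‖g x‖ ^ 2 / ‖x i - R‖)) with hF
  set G : (ι → E3) → ℝ≥0∞ := fun x => ENNReal.ofReal (3 * r⁻¹ * ‖g x‖ ^ 2 +
    4 * (‖g x‖ * Real.sqrt (gradSq g i x))) with hG
  have mF0 : Measurable (fun x : ι → E3 => 2 * (‖g x‖ ^ 2 / ‖x i - R‖)) := by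
    have h1 : Measurable (fun x : ι → E3 => ‖g x‖ ^ 2) := by fun_prop
    have h2 : Measurable (fun x : ι → E3 => ‖x i - R‖) := by fun_prop
    exact (h1.div h2).const_mul 2
  have cG0 : Continuous (fun x => 3 * r⁻¹ * ‖g x‖ ^ 2 +
    4 * (‖g x‖ * Real.sqrt (gradSq g i x))) := by fun_prop
  have h1 : ∫⁻ x in PB ι w r, F x ≤ ∫⁻ x in PB ι w r, G x := by
    apply slice_mono w r i mF0.ennreal_ofReal cG0.measurable.ennreal_ofReal
    intro x
    have hv := upd_contDiff hg x i
    have cv := hv.continuous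
    have cgs := Push.gsq_cont hv
    have h2 := push_lint w R r hr _ hv
    simp only [hF, hG, gradSq_upd, Function.update_self]
    refine h2.trans (le_of_eq ?_)
    rw [← ofReal_integral_eq_lintegral_ofReal]
    · congr 1
      rw [integral_add, integral_const_mul, integral_const_mul]
      · exact hball (by fun_prop)
      · exact hball (by fun_prop)
    · exact hball (by fun_prop)
    · exact Eventually.of_forall fun t => by
        show 0 ≤ 3 * r⁻¹ * ‖g (Function.update x i t)‖ ^ 2 + 4 * (‖g (Function.update x i t)‖ *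
          Real.sqrt (gsq (fun t => g (Function.update x i t)) t))
        positivity
  have h3 : ∫⁻ x in PB ι w r, G x = ENNReal.ofReal (3 * r⁻¹ * (∫ x in PB ι w r, ‖g x‖ ^ 2) +
        4 * (∫ x in PB ι w r, ‖g x‖ * Real.sqrt (gradSq g i x))) := by
    rw [← ofReal_integral_eq_lintegral_ofReal (cont_int cG0 w r)]
    · congr 1
      rw [integral_add, integral_const_mul, integral_const_mul]
      · exact cont_int (by fun_prop) w r
      · exact cont_int (by fun_prop) w r
    · exact Eventually.of_forall fun x => by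
        show 0 ≤ 3 * r⁻¹ * ‖g x‖ ^ 2 + 4 * (‖g x‖ * Real.sqrt (gradSq g i x))
        positivity
  rw [h3] at h1
  have h4 : ∫ x in PB ι w r, 2 * (‖g x‖ ^ 2 / ‖x i - R‖) ≤
      3 * r⁻¹ * (∫ x in PB ι w r, ‖g x‖ ^ 2) +
        4 * (∫ x in PB ι w r, ‖g x‖ * Real.sqrt (gradSq g i x)) := by
    rw [integral_eq_lintegral_of_nonneg_ae (Eventually.of_forall fun x => by
      show 0 ≤ 2 * (‖g x‖ ^ 2 / ‖x i - R‖)
      positivity) mF0.aestronglyMeasurable]
    refine ENNReal.toReal_le_of_le_ofReal ?_ h1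
    have h5 : 0 ≤ ∫ x in PB ι w r, ‖g x‖ ^ 2 := integral_nonneg fun x => sq_nonneg _
    have h6 : 0 ≤ ∫ x in PB ι w r, ‖g x‖ * Real.sqrt (gradSq g i x) :=
      integral_nonneg fun x => by positivity
    positivity
  rw [integral_const_mul] at h4
  have e1 : 3 / (2 * r) = 3 * r⁻¹ / 2 := by field_simp
  have e2 : ∫ x in PB ι w r, 1 / ‖x i - R‖ * ‖g x‖ ^ 2 =
      ∫ x in PB ι w r, ‖g x‖ ^ 2 / ‖x i - R‖ :=
    integral_congr_ae (Eventually.of_forall fun x => by
      show 1 / ‖x i - R‖ * ‖g x‖ ^ 2 = ‖g x‖ ^ 2 / ‖x i - R‖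
      ring)
  rw [e1, e2]
  linarith

/-! ### the Coulomb energy -/

section coul
variable {κ : Type} [Fintype κ] (z : ℝ) (R : κ → E3)

/-- repulsion of the static charges -/
def UU : ℝ := z ^ 2 / 2 * ∑ i, ∑ j, 1 / ‖R i - R j‖

theorem coul_int {w : E3} {r : ℝ} {g : (ι → E3) → ℂ} (hg : Continuous g) :
    IntegrableOn (fun x => coul z x R * ‖g x‖ ^ 2) (PB ι w r) ∧
    ∫ x in PB ι w r, coul z x R * ‖g x‖ ^ 2 =
      1 / 2 * (∑ i, ∑ j, ∫ x in PB ι w r, 1 / ‖x i - x j‖ * ‖g x‖ ^ 2) -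
      z * (∑ i, ∑ j, ∫ x in PB ι w r, 1 / ‖x i - R j‖ * ‖g x‖ ^ 2) +
      UU z R * ∫ x in PB ι w r, ‖g x‖ ^ 2 := by
  have e : ∀ x : ι → E3, coul z x R * ‖g x‖ ^ 2 =
      1 / 2 * (∑ i, ∑ j, 1 / ‖x i - x j‖ * ‖g x‖ ^ 2) -
      z * (∑ i, ∑ j, 1 / ‖x i - R j‖ * ‖g x‖ ^ 2) + UU z R * ‖g x‖ ^ 2 := by
    intro x
    unfold coul UU
    simp only [← Finset.sum_mul]
    ring
  have i1 : IntegrableOn (fun x => ∑ i, ∑ j, 1 / ‖x i - x j‖ * ‖g x‖ ^ 2) (PB ι w r) :=
    integrable_finsetSum _ fun i _ => integrable_finsetSum _ fun j _ =>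
      integrableOn_ee w r g hg i j
  have i2 : IntegrableOn (fun x => ∑ i, ∑ j, 1 / ‖x i - R j‖ * ‖g x‖ ^ 2) (PB ι w r) :=
    integrable_finsetSum _ fun i _ => integrable_finsetSum _ fun j _ =>
      integrableOn_en w r g hg i (R j)
  have i3 : IntegrableOn (fun x => ‖g x‖ ^ 2) (PB ι w r) := cont_int (by fun_prop) w r
  simp only [e]
  have j12 : IntegrableOn (fun x : ι → E3 => 1 / 2 * (∑ i, ∑ j, 1 / ‖x i - x j‖ * ‖g x‖ ^ 2) -
      z * (∑ i, ∑ j, 1 / ‖x i - R j‖ * ‖g x‖ ^ 2)) (PB ι w r) :=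
    (i1.const_mul _).sub (i2.const_mul _)
  refine ⟨j12.add (i3.const_mul _), ?_⟩
  rw [integral_add j12 (i3.const_mul _),
    integral_sub (i1.const_mul _) (i2.const_mul _), integral_const_mul, integral_const_mul,
    integral_const_mul]
  rw [integral_finsetSum _ fun i _ => integrable_finsetSum _ fun j _ =>
      integrableOn_ee w r g hg i j,
    integral_finsetSum _ fun i _ => integrable_finsetSum _ fun j _ =>
      integrableOn_en w r g hg i (R j)]
  congr 2
  · congr 1
    exact Finset.sum_congr rfl fun i _ => integral_finsetSum _ fun j _ =>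
      integrableOn_ee w r g hg i j
  · congr 1
    exact Finset.sum_congr rfl fun i _ => integral_finsetSum _ fun j _ =>
      integrableOn_en w r g hg i (R j)

theorem UU_ge {w : E3} {r : ℝ} (hr : 0 < r) (hinj : Function.Injective R)
    (hR : ∀ j, R j ∈ ball w r) :
    z ^ 2 * (Fintype.card κ * (Fintype.card κ - 1)) / (4 * r) ≤ UU z R := by
  classical
  have h1 : ∀ i j, (if i = j then (0:ℝ) else 1 / (2 * r)) ≤ 1 / ‖R i - R j‖ := by
    intro i j
    split_ifs with h
    · positivity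
    · have h2 : 0 < ‖R i - R j‖ := norm_pos_iff.2 (sub_ne_zero.2 (hinj.ne h))
      apply one_div_le_one_div_of_le h2
      have h3 : ‖R i - R j‖ ≤ ‖R i - w‖ + ‖R j - w‖ := by
        have := norm_sub_le (R i - w) (R j - w)
        simpa using this
      have h4 := hR i
      have h5 := hR j
      rw [mem_ball, dist_eq_norm] at h4 h5
      linarith
  have h2 : ∑ i : κ, ∑ j : κ, (if i = j then (0:ℝ) else 1 / (2 * r)) ≤
      ∑ i, ∑ j, 1 / ‖R i - R j‖ :=
    Finset.sum_le_sum fun i _ => Finset.sum_le_sum fun j _ => h1 i j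
  have h3 : ∑ i : κ, ∑ j : κ, (if i = j then (0:ℝ) else 1 / (2 * r)) =
      (Fintype.card κ * (Fintype.card κ - 1)) / (2 * r) := by
    have h4 : ∀ i : κ, ∑ j : κ, (if i = j then (0:ℝ) else 1 / (2 * r)) =
        ((Fintype.card κ : ℝ) - 1) / (2 * r) := by
      intro i
      have h5 : ∀ j : κ, (if i = j then (0:ℝ) else 1 / (2 * r)) =
          1 / (2 * r) - (if i = j then 1 / (2 * r) else 0) := by
        intro j; split_ifs <;> simp
      simp only [h5, Finset.sum_sub_distrib, Finset.sum_ite_eq, Finset.mem_univ, if_true,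
        Finset.sum_const, Finset.card_univ, nsmul_eq_mul]
      ring
    simp only [h4, Finset.sum_const, Finset.card_univ, nsmul_eq_mul]
    ring
  rw [h3] at h2
  unfold UU
  calc z ^ 2 * (Fintype.card κ * (Fintype.card κ - 1)) / (4 * r) =
        z ^ 2 / 2 * ((Fintype.card κ * (Fintype.card κ - 1)) / (2 * r)) := by
        field_simp; ring
    _ ≤ _ := mul_le_mul_of_nonneg_left h2 (by positivity)

/-- lower bound of the potential energy by push -/
theorem coul_ge (hz : 0 < z) {w : E3} {r : ℝ} (hr : 0 < r) {g : (ι → E3) → ℂ}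
    (hg : ContDiff ℝ 1 g) {η : ℝ} (hη : 0 < η) :
    (UU z R - 3 * z * Fintype.card ι * Fintype.card κ / (2 * r) -
        z ^ 2 * (Fintype.card κ : ℝ) ^ 2 * Fintype.card ι / η) * (∫ x in PB ι w r, ‖g x‖ ^ 2) -
      η * (∑ i, ∫ x in PB ι w r, gradSq g i x) ≤
    ∫ x in PB ι w r, coul z x R * ‖g x‖ ^ 2 := by
  rw [(coul_int z R hg.continuous).2]
  have cg : Continuous g := hg.continuous
  set X := ∫ x in PB ι w r, ‖g x‖ ^ 2 with hX
  have h1 : 0 ≤ ∑ i, ∑ j, ∫ x in PB ι w r, 1 / ‖x i - x j‖ * ‖g x‖ ^ 2 :=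
    Finset.sum_nonneg fun i _ => Finset.sum_nonneg fun j _ => integral_nonneg fun x => by
      show 0 ≤ 1 / ‖x i - x j‖ * ‖g x‖ ^ 2
      positivity
  have h2 : ∀ i, z * ∑ j, ∫ x in PB ι w r, 1 / ‖x i - R j‖ * ‖g x‖ ^ 2 ≤
      (3 * z * Fintype.card κ / (2 * r) + z ^ 2 * (Fintype.card κ : ℝ) ^ 2 / η) * X +
        η * ∫ x in PB ι w r, gradSq g i x := by
    intro i
    have cG : Continuous (gradSq g i) := continuous_gradSq g hg i
    have h3 : ∑ j, ∫ x in PB ι w r, 1 / ‖x i - R j‖ * ‖g x‖ ^ 2 ≤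
        ∑ _j : κ, (3 / (2 * r) * X + 2 * (∫ x in PB ι w r, ‖g x‖ * Real.sqrt (gradSq g i x))) :=
      Finset.sum_le_sum fun j _ => push_slice w (R j) hr hg i
    rw [Finset.sum_const, Finset.card_univ, nsmul_eq_mul] at h3
    have h4 : 2 * (z * Fintype.card κ) * (∫ x in PB ι w r, ‖g x‖ * Real.sqrt (gradSq g i x)) ≤
        η * (∫ x in PB ι w r, gradSq g i x) + z ^ 2 * (Fintype.card κ : ℝ) ^ 2 / η * X := by
      rw [hX, ← integral_const_mul, ← integral_const_mul, ← integral_const_mul, ← integral_add]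
      · apply integral_mono
        · exact cont_int (by fun_prop) w r
        · exact cont_int (by fun_prop) w r
        · intro x
          show 2 * (z * Fintype.card κ) * (‖g x‖ * Real.sqrt (gradSq g i x)) ≤
            η * gradSq g i x + z ^ 2 * (Fintype.card κ : ℝ) ^ 2 / η * ‖g x‖ ^ 2
          have h5 : Real.sqrt (gradSq g i x) ^ 2 = gradSq g i x :=
            Real.sq_sqrt (gradSq_nonneg g i x)
          have h6 : 0 ≤ (η * Real.sqrt (gradSq g i x) - z * Fintype.card κ * ‖g x‖) ^ 2 / η := by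
            positivity
          have h7 : (η * Real.sqrt (gradSq g i x) - z * Fintype.card κ * ‖g x‖) ^ 2 / η =
              η * Real.sqrt (gradSq g i x) ^ 2 + z ^ 2 * (Fintype.card κ : ℝ) ^ 2 / η * ‖g x‖ ^ 2
              - 2 * (z * Fintype.card κ) * (‖g x‖ * Real.sqrt (gradSq g i x)) := by
            field_simp; ring
          rw [h5] at h7
          linarith
      · exact cont_int (by fun_prop) w r
      · exact cont_int (by fun_prop) w r
    have h8 := mul_le_mul_of_nonneg_left h3 hz.le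
    refine h8.trans ?_
    have e1 : z * ((Fintype.card κ : ℝ) * (3 / (2 * r) * X +
        2 * (∫ x in PB ι w r, ‖g x‖ * Real.sqrt (gradSq g i x)))) =
        3 * z * Fintype.card κ / (2 * r) * X +
        2 * (z * Fintype.card κ) * (∫ x in PB ι w r, ‖g x‖ * Real.sqrt (gradSq g i x)) := by
      ring
    rw [e1]
    linarith
  have h9 : z * (∑ i, ∑ j, ∫ x in PB ι w r, 1 / ‖x i - R j‖ * ‖g x‖ ^ 2) ≤
      Fintype.card ι * ((3 * z * Fintype.card κ / (2 * r) +
        z ^ 2 * (Fintype.card κ : ℝ) ^ 2 / η) * X) + η * ∑ i, ∫ x in PB ι w r, gradSq g i x := by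
    rw [Finset.mul_sum]
    refine (Finset.sum_le_sum fun i _ => h2 i).trans (le_of_eq ?_)
    rw [Finset.sum_add_distrib, Finset.sum_const, Finset.card_univ, nsmul_eq_mul, ← Finset.mul_sum]
  have e2 : (Fintype.card ι : ℝ) * ((3 * z * Fintype.card κ / (2 * r) +
        z ^ 2 * (Fintype.card κ : ℝ) ^ 2 / η) * X) =
      (3 * z * Fintype.card ι * Fintype.card κ / (2 * r) +
        z ^ 2 * (Fintype.card κ : ℝ) ^ 2 * Fintype.card ι / η) * X := by ring
  rw [e2] at h9
  linarith

/-! ### averages over the product of balls -/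

theorem real_vol (w : E3) (r : ℝ) :
    (volume (PB ι w r)) = ENNReal.ofReal (volume.real (PB ι w r)) := by
  rw [measureReal_def, ENNReal.ofReal_toReal (vol_PB_lt w r).ne]

theorem real_volB (w : E3) (r : ℝ) :
    (volume (ball w r)) = ENNReal.ofReal (volume.real (ball w r)) := by
  rw [measureReal_def, ENNReal.ofReal_toReal measure_ball_lt_top.ne]

theorem const_bd {w : E3} {r : ℝ} (i : ι) {F : (ι → E3) → ℝ≥0∞} (hF : Measurable F) {a : ℝ}
    (ha : 0 ≤ a)
    (h : ∀ x, ∫⁻ t in ball w r, F (Function.update x i t) ≤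
      ENNReal.ofReal (a * volume.real (ball w r))) :
    ∫⁻ x in PB ι w r, F x ≤ ENNReal.ofReal (a * volume.real (PB ι w r)) := by
  have h1 := slice_mono w r i hF (G := fun _ => ENNReal.ofReal a) measurable_const (fun x => by
    refine (h x).trans (le_of_eq ?_)
    rw [lintegral_const, Measure.restrict_apply MeasurableSet.univ, Set.univ_inter, real_volB,
      ENNReal.ofReal_mul ha])
  refine h1.trans (le_of_eq ?_)
  rw [lintegral_const, Measure.restrict_apply MeasurableSet.univ, Set.univ_inter, real_vol,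
    ENNReal.ofReal_mul ha]

theorem sq_ee {w : E3} {r : ℝ} (hr : 0 < r) (i j : ι) :
    IntegrableOn (fun x : ι → E3 => 1 / ‖x i - x j‖ ^ 2) (PB ι w r) ∧
    ∫ x in PB ι w r, 1 / ‖x i - x j‖ ^ 2 ≤ 7 / r ^ 2 * volume.real (PB ι w r) := by
  have hm : Measurable (fun x : ι → E3 => 1 / ‖x i - x j‖ ^ 2) := by
    have h2 : Measurable (fun x : ι → E3 => ‖x i - x j‖ ^ 2) := by fun_prop
    exact measurable_const.div h2
  have h1 : ∫⁻ x in PB ι w r, ENNReal.ofReal (1 / ‖x i - x j‖ ^ 2) ≤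
      ENNReal.ofReal (7 / r ^ 2 * volume.real (PB ι w r)) := by
    apply const_bd i hm.ennreal_ofReal (by positivity)
    intro x
    by_cases h : j = i
    · subst h; simp
    · simp only [Function.update_self, Function.update_of_ne h]
      exact avg2 w (x j) hr
  have h0 : 0 ≤ᵐ[volume.restrict (PB ι w r)] fun x : ι → E3 => 1 / ‖x i - x j‖ ^ 2 :=
    Eventually.of_forall fun x => by
      show 0 ≤ 1 / ‖x i - x j‖ ^ 2
      positivity
  constructor
  · refine ⟨hm.aestronglyMeasurable, ?_⟩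
    rw [hasFiniteIntegral_iff_ofReal h0]
    exact lt_of_le_of_lt h1 ENNReal.ofReal_lt_top
  · rw [integral_eq_lintegral_of_nonneg_ae h0 hm.aestronglyMeasurable]
    exact ENNReal.toReal_le_of_le_ofReal (by positivity) h1

theorem sq_en {w : E3} {r : ℝ} (hr : 0 < r) (i : ι) (y : E3) :
    IntegrableOn (fun x : ι → E3 => 1 / ‖x i - y‖ ^ 2) (PB ι w r) ∧
    ∫ x in PB ι w r, 1 / ‖x i - y‖ ^ 2 ≤ 7 / r ^ 2 * volume.real (PB ι w r) := by
  have hm : Measurable (fun x : ι → E3 => 1 / ‖x i - y‖ ^ 2) := by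
    have h2 : Measurable (fun x : ι → E3 => ‖x i - y‖ ^ 2) := by fun_prop
    exact measurable_const.div h2
  have h1 : ∫⁻ x in PB ι w r, ENNReal.ofReal (1 / ‖x i - y‖ ^ 2) ≤
      ENNReal.ofReal (7 / r ^ 2 * volume.real (PB ι w r)) := by
    apply const_bd i hm.ennreal_ofReal (by positivity)
    intro x
    simp only [Function.update_self]
    exact avg2 w y hr
  have h0 : 0 ≤ᵐ[volume.restrict (PB ι w r)] fun x : ι → E3 => 1 / ‖x i - y‖ ^ 2 :=
    Eventually.of_forall fun x => by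
      show 0 ≤ 1 / ‖x i - y‖ ^ 2
      positivity
  constructor
  · refine ⟨hm.aestronglyMeasurable, ?_⟩
    rw [hasFiniteIntegral_iff_ofReal h0]
    exact lt_of_le_of_lt h1 ENNReal.ofReal_lt_top
  · rw [integral_eq_lintegral_of_nonneg_ae h0 hm.aestronglyMeasurable]
    exact ENNReal.toReal_le_of_le_ofReal (by positivity) h1

/-- average of a one-particle function -/
theorem avg_one {w : E3} {r : ℝ} (hr : 0 < r) (i : ι) {f : E3 → ℝ} (hf : Measurable f)
    (h0 : ∀ x, 0 ≤ f x) (hi : IntegrableOn f (ball w r)) :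
    ∫ x in PB ι w r, f (x i) =
      volume.real (PB ι w r) / volume.real (ball w r) * ∫ t in ball w r, f t := by
  have hm : Measurable (fun x : ι → E3 => f (x i)) := hf.comp (measurable_pi_apply i)
  have h1 := slice_eq w r i hm.ennreal_ofReal
  simp only [Function.update_self] at h1
  rw [lintegral_const, Measure.restrict_apply MeasurableSet.univ, Set.univ_inter,
    ← ofReal_integral_eq_lintegral_ofReal hi (Eventually.of_forall h0)] at h1
  have hB : 0 < volume.real (ball w r) := by rw [vball hr]; positivity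
  have h3 : ∫ x in PB ι w r, f (x i) =
      (∫⁻ x in PB ι w r, ENNReal.ofReal (f (x i))).toReal :=
    integral_eq_lintegral_of_nonneg_ae (f := fun x : ι → E3 => f (x i))
      (Eventually.of_forall fun x => h0 (x i)) hm.aestronglyMeasurable
  rw [h3]
  have h2 := congrArg ENNReal.toReal h1
  rw [ENNReal.toReal_mul, ENNReal.toReal_mul, ENNReal.toReal_ofReal (integral_nonneg h0),
    ← measureReal_def, ← measureReal_def] at h2
  rw [div_mul_eq_mul_div, eq_div_iff hB.ne']
  linarith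

/-- the double integral over the ball -/
def DD (w : E3) (r : ℝ) : ℝ := ∫ x in ball w r, ∫ y in ball w r, 1 / ‖x - y‖

def Hh (w : E3) (r : ℝ) (y : E3) : ℝ := ∫ t in ball w r, 1 / ‖t - y‖

theorem Hh_eq (w : E3) (r : ℝ) (y : E3) :
    ENNReal.ofReal (Hh w r y) = ∫⁻ t in ball w r, ENNReal.ofReal (1 / ‖t - y‖) := by
  unfold Hh
  rw [ofReal_integral_eq_lintegral_ofReal (integrableOn_inv y w r)
    (Eventually.of_forall fun t => by positivity)]

theorem Hh_nonneg (w : E3) (r : ℝ) (y : E3) : 0 ≤ Hh w r y :=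
  integral_nonneg fun t => by positivity

theorem Hh_meas (w : E3) (r : ℝ) : Measurable (Hh w r) := by
  have h1 : Measurable (fun y => ∫⁻ t in ball w r, ENNReal.ofReal (1 / ‖t - y‖)) := by
    refine Measurable.lintegral_prod_right' (f := fun p : E3 × E3 =>
      ENNReal.ofReal (1 / ‖p.2 - p.1‖)) ?_
    have h2 : Measurable (fun p : E3 × E3 => ‖p.2 - p.1‖) := by fun_prop
    exact (measurable_const.div h2).ennreal_ofReal
  have h2 : Hh w r = fun y => (∫⁻ t in ball w r, ENNReal.ofReal (1 / ‖t - y‖)).toReal := by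
    funext y
    rw [← Hh_eq, ENNReal.toReal_ofReal (Hh_nonneg w r y)]
  rw [h2]
  exact h1.ennreal_toReal

theorem Hh_le {w : E3} {r : ℝ} (hr : 0 < r) (y : E3) :
    Hh w r y ≤ 7 / r * volume.real (ball w r) := by
  have h1 := avg1 w y hr
  rw [← Hh_eq] at h1
  exact (ENNReal.ofReal_le_ofReal_iff (by positivity)).1 h1

theorem Hh_int {w : E3} {r : ℝ} (hr : 0 < r) : IntegrableOn (Hh w r) (ball w r) := by
  refine Measure.integrableOn_of_bounded (M := 7 / r * volume.real (ball w r))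
    measure_ball_lt_top.ne (Hh_meas w r).aestronglyMeasurable (Eventually.of_forall fun y => ?_)
  rw [Real.norm_eq_abs, abs_of_nonneg (Hh_nonneg w r y)]
  exact Hh_le hr y

theorem DD_eq (w : E3) (r : ℝ) : DD w r = ∫ y in ball w r, Hh w r y := by
  unfold DD Hh
  refine integral_congr_ae (Eventually.of_forall fun x => ?_)
  refine integral_congr_ae (Eventually.of_forall fun y => ?_)
  show 1 / ‖x - y‖ = 1 / ‖y - x‖
  rw [norm_sub_rev]

theorem DD_le {w : E3} {r : ℝ} (hr : 0 < r) :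
    DD w r ≤ 7 / r * volume.real (ball w r) ^ 2 := by
  rw [DD_eq]
  calc ∫ y in ball w r, Hh w r y ≤ ∫ _y in ball w r, 7 / r * volume.real (ball w r) := by
        apply setIntegral_mono (Hh_int hr) (integrableOn_const measure_ball_lt_top.ne)
        intro y; exact Hh_le hr y
    _ = 7 / r * volume.real (ball w r) ^ 2 := by
        rw [setIntegral_const, smul_eq_mul]; ring

theorem avg_pair {w : E3} {r : ℝ} (hr : 0 < r) {i j : ι} (hij : i ≠ j) :
    ∫ x in PB ι w r, 1 / ‖x i - x j‖ =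
      volume.real (PB ι w r) / volume.real (ball w r) ^ 2 * DD w r := by
  have hm : Measurable (fun x : ι → E3 => 1 / ‖x i - x j‖) := by
    have h2 : Measurable (fun x : ι → E3 => ‖x i - x j‖) := by fun_prop
    exact measurable_const.div h2
  have h1 := slice_eq w r i hm.ennreal_ofReal
  have h2 : ∀ x : ι → E3, ∫⁻ t in ball w r, ENNReal.ofReal
      (1 / ‖Function.update x i t i - Function.update x i t j‖) =
      ENNReal.ofReal (Hh w r (x j)) := by
    intro x
    rw [Hh_eq]
    simp only [Function.update_self, Function.update_of_ne hij.symm]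
  simp only [h2] at h1
  have h3 : ∫ x in PB ι w r, Hh w r (x j) =
      volume.real (PB ι w r) / volume.real (ball w r) * DD w r := by
    rw [avg_one hr j (Hh_meas w r) (Hh_nonneg w r) (Hh_int hr), DD_eq]
  have hB : 0 < volume.real (ball w r) := by rw [vball hr]; positivity
  have hmH : Measurable (fun x : ι → E3 => Hh w r (x j)) :=
    (Hh_meas w r).comp (measurable_pi_apply j)
  have h4 := congrArg ENNReal.toReal h1
  rw [ENNReal.toReal_mul, ← measureReal_def] at h4
  have h5 : ∫ x in PB ι w r, 1 / ‖x i - x j‖ =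
      (∫⁻ x in PB ι w r, ENNReal.ofReal (1 / ‖x i - x j‖)).toReal :=
    integral_eq_lintegral_of_nonneg_ae (f := fun x : ι → E3 => 1 / ‖x i - x j‖)
      (Eventually.of_forall fun x => by
        show 0 ≤ 1 / ‖x i - x j‖
        positivity) hm.aestronglyMeasurable
  have h6 : ∫ x in PB ι w r, Hh w r (x j) =
      (∫⁻ x in PB ι w r, ENNReal.ofReal (Hh w r (x j))).toReal :=
    integral_eq_lintegral_of_nonneg_ae (f := fun x : ι → E3 => Hh w r (x j))
      (Eventually.of_forall fun x => Hh_nonneg w r (x j)) hmH.aestronglyMeasurable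
  rw [← h5, ← h6, h3] at h4
  generalize (∫ x in PB ι w r, 1 / ‖x i - x j‖) = I1 at h4 ⊢
  generalize volume.real (PB ι w r) = vP at h4 ⊢
  generalize volume.real (ball w r) = vB at h4 hB ⊢
  generalize DD w r = dd at h4 ⊢
  have h7 : I1 = (vP / vB * dd) / vB := by
    rw [eq_div_iff hB.ne']; linarith
  rw [h7]; field_simp

/-- the non-constant part of the Coulomb energy -/
def QQ (x : ι → E3) : ℝ :=
  1 / 2 * (∑ i, ∑ j, 1 / ‖x i - x j‖) - z * (∑ i, ∑ j, 1 / ‖x i - R j‖)

theorem coul_eq (x : ι → E3) : coul z x R = QQ z R x + UU z R := rfl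

theorem int_one_ee (w : E3) (r : ℝ) (i j : ι) :
    IntegrableOn (fun x : ι → E3 => 1 / ‖x i - x j‖) (PB ι w r) := by
  have := integrableOn_ee w r (fun _ : ι → E3 => (1 : ℂ)) continuous_const i j
  simpa using this

theorem int_one_en (w : E3) (r : ℝ) (i : ι) (y : E3) :
    IntegrableOn (fun x : ι → E3 => 1 / ‖x i - y‖) (PB ι w r) := by
  have := integrableOn_en w r (fun _ : ι → E3 => (1 : ℂ)) continuous_const i y
  simpa using this

theorem QQ_int (w : E3) (r : ℝ) : IntegrableOn (QQ (ι := ι) z R) (PB ι w r) :=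
  ((integrable_finsetSum _ fun i _ => integrable_finsetSum _ fun j _ =>
    int_one_ee w r i j).const_mul _).sub
  ((integrable_finsetSum _ fun i _ => integrable_finsetSum _ fun j _ =>
    int_one_en w r i (R j)).const_mul _)

/-- the average of the Coulomb energy -/
theorem avg_QQ {w : E3} {r : ℝ} (hr : 0 < r) :
    ∫ x in PB ι w r, QQ z R x = volume.real (PB ι w r) *
      (Wj z (Fintype.card ι) R w r - UU z R -
        Fintype.card ι / (2 * volume.real (ball w r) ^ 2) * DD w r) := by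
  have hB : 0 < volume.real (ball w r) := by rw [vball hr]; positivity
  have i1 : IntegrableOn (fun x : ι → E3 => ∑ i, ∑ j, 1 / ‖x i - x j‖) (PB ι w r) :=
    integrable_finsetSum _ fun i _ => integrable_finsetSum _ fun j _ => int_one_ee w r i j
  have i2 : IntegrableOn (fun x : ι → E3 => ∑ i, ∑ j, 1 / ‖x i - R j‖) (PB ι w r) :=
    integrable_finsetSum _ fun i _ => integrable_finsetSum _ fun j _ => int_one_en w r i (R j)
  have e1 : ∫ x in PB ι w r, ∑ i, ∑ j, 1 / ‖x i - x j‖ =
      Fintype.card ι * (Fintype.card ι - 1) *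
        (volume.real (PB ι w r) / volume.real (ball w r) ^ 2 * DD w r) := by
    rw [integral_finsetSum _ fun i _ => integrable_finsetSum _ fun j _ => int_one_ee w r i j]
    have h1 : ∀ i : ι, ∫ x in PB ι w r, ∑ j, 1 / ‖x i - x j‖ = (Fintype.card ι - 1) *
        (volume.real (PB ι w r) / volume.real (ball w r) ^ 2 * DD w r) := by
      intro i
      rw [integral_finsetSum _ fun j _ => int_one_ee w r i j]
      have h2 : ∀ j : ι, ∫ x in PB ι w r, 1 / ‖x i - x j‖ =
          (volume.real (PB ι w r) / volume.real (ball w r) ^ 2 * DD w r) -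
          (if i = j then (volume.real (PB ι w r) / volume.real (ball w r) ^ 2 * DD w r) else 0) := by
        intro j
        by_cases h : i = j
        · subst h; simp
        · rw [avg_pair hr h, if_neg h, sub_zero]
      simp only [h2, Finset.sum_sub_distrib, Finset.sum_ite_eq, Finset.mem_univ, if_true,
        Finset.sum_const, Finset.card_univ, nsmul_eq_mul]
      ring
    simp only [h1, Finset.sum_const, Finset.card_univ, nsmul_eq_mul]
    ring
  have e2 : ∫ x in PB ι w r, ∑ i, ∑ j, 1 / ‖x i - R j‖ =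
      Fintype.card ι * (volume.real (PB ι w r) / volume.real (ball w r) *
        ∑ j, ∫ t in ball w r, 1 / ‖t - R j‖) := by
    rw [integral_finsetSum _ fun i _ => integrable_finsetSum _ fun j _ => int_one_en w r i (R j)]
    have h1 : ∀ i : ι, ∫ x in PB ι w r, ∑ j, 1 / ‖x i - R j‖ =
        (volume.real (PB ι w r) / volume.real (ball w r) *
          ∑ j, ∫ t in ball w r, 1 / ‖t - R j‖) := by
      intro i
      rw [integral_finsetSum _ fun j _ => int_one_en w r i (R j), Finset.mul_sum]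
      refine Finset.sum_congr rfl fun j _ => ?_
      have hmf : Measurable (fun t : E3 => 1 / ‖t - R j‖) := by
        have h2 : Measurable (fun t : E3 => ‖t - R j‖) := by fun_prop
        exact measurable_const.div h2
      exact avg_one hr i hmf (fun t => by positivity) (integrableOn_inv _ _ _)
    simp only [h1, Finset.sum_const, Finset.card_univ, nsmul_eq_mul]
  unfold QQ
  rw [integral_sub (i1.const_mul _) (i2.const_mul _), integral_const_mul, integral_const_mul,
    e1, e2]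
  unfold Wj UU
  rw [show (∫ x in ball w r, ∫ y in ball w r, 1 / ‖x - y‖) = DD w r from rfl]
  field_simp
  ring

/-- majorant of the square -/
def SS (x : ι → E3) : ℝ :=
  1 / 2 * (Fintype.card ι : ℝ) ^ 2 * (∑ i, ∑ j, 1 / ‖x i - x j‖ ^ 2) +
    2 * z ^ 2 * (Fintype.card ι * Fintype.card κ) * (∑ i, ∑ j, 1 / ‖x i - R j‖ ^ 2)

theorem QQ_sq (x : ι → E3) : QQ z R x ^ 2 ≤ SS z R x := by
  have cs : ∀ {α β : Type} [Fintype α] [Fintype β] (f : α → β → ℝ),
      (∑ i, ∑ j, f i j) ^ 2 ≤ (Fintype.card α * Fintype.card β : ℝ) * ∑ i, ∑ j, f i j ^ 2 := by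
    intro α β _ _ f
    have h1 := sq_sum_le_card_mul_sum_sq (s := (Finset.univ : Finset (α × β)))
      (f := fun p => f p.1 p.2)
    rw [Fintype.sum_prod_type, Fintype.sum_prod_type, Finset.card_univ, Fintype.card_prod] at h1
    push_cast at h1
    exact h1
  have h1 := cs (fun i j : ι => 1 / ‖x i - x j‖)
  have h2 := cs (fun (i : ι) (j : κ) => 1 / ‖x i - R j‖)
  simp only [div_pow, one_pow] at h1 h2
  unfold QQ SS
  set a := ∑ i, ∑ j, 1 / ‖x i - x j‖
  set b := ∑ i, ∑ j, 1 / ‖x i - R j‖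
  have h3 : (1 / 2 * a - z * b) ^ 2 ≤ 1 / 2 * a ^ 2 + 2 * z ^ 2 * b ^ 2 := by
    nlinarith [sq_nonneg (1 / 2 * a + z * b)]
  have h4 : 2 * z ^ 2 * b ^ 2 ≤ 2 * z ^ 2 * ((Fintype.card ι * Fintype.card κ : ℝ) *
      ∑ i, ∑ j, 1 / ‖x i - R j‖ ^ 2) := mul_le_mul_of_nonneg_left h2 (by positivity)
  nlinarith

theorem SS_int {w : E3} {r : ℝ} (hr : 0 < r) :
    IntegrableOn (SS (ι := ι) z R) (PB ι w r) ∧ ∫ x in PB ι w r, SS z R x ≤
      7 / r ^ 2 * volume.real (PB ι w r) * (1 / 2 * (Fintype.card ι : ℝ) ^ 4 +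
        2 * z ^ 2 * (Fintype.card ι * Fintype.card κ) ^ 2) := by
  have j1 : ∀ i : ι, IntegrableOn (fun x : ι → E3 => ∑ j, 1 / ‖x i - x j‖ ^ 2) (PB ι w r) :=
    fun i => integrable_finsetSum _ fun j _ => (sq_ee hr i j).1
  have j2 : ∀ i : ι, IntegrableOn (fun x : ι → E3 => ∑ j, 1 / ‖x i - R j‖ ^ 2) (PB ι w r) :=
    fun i => integrable_finsetSum _ fun j _ => (sq_en hr i (R j)).1
  have i1 : IntegrableOn (fun x : ι → E3 => ∑ i, ∑ j, 1 / ‖x i - x j‖ ^ 2) (PB ι w r) :=
    integrable_finsetSum _ fun i _ => j1 i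
  have i2 : IntegrableOn (fun x : ι → E3 => ∑ i, ∑ j, 1 / ‖x i - R j‖ ^ 2) (PB ι w r) :=
    integrable_finsetSum _ fun i _ => j2 i
  have b1 : ∫ x in PB ι w r, ∑ i, ∑ j, 1 / ‖x i - x j‖ ^ 2 ≤
      (Fintype.card ι : ℝ) ^ 2 * (7 / r ^ 2 * volume.real (PB ι w r)) := by
    rw [integral_finsetSum _ fun i _ => j1 i]
    have h1 : ∀ i : ι, ∫ x in PB ι w r, ∑ j, 1 / ‖x i - x j‖ ^ 2 ≤
        Fintype.card ι * (7 / r ^ 2 * volume.real (PB ι w r)) := by
      intro i
      rw [integral_finsetSum _ fun j _ => (sq_ee hr i j).1]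
      refine (Finset.sum_le_sum fun j _ => (sq_ee hr i j).2).trans (le_of_eq ?_)
      rw [Finset.sum_const, Finset.card_univ, nsmul_eq_mul]
    refine (Finset.sum_le_sum fun i _ => h1 i).trans (le_of_eq ?_)
    rw [Finset.sum_const, Finset.card_univ, nsmul_eq_mul]; ring
  have b2 : ∫ x in PB ι w r, ∑ i, ∑ j, 1 / ‖x i - R j‖ ^ 2 ≤
      (Fintype.card ι * Fintype.card κ : ℝ) * (7 / r ^ 2 * volume.real (PB ι w r)) := by
    rw [integral_finsetSum _ fun i _ => j2 i]
    have h1 : ∀ i : ι, ∫ x in PB ι w r, ∑ j, 1 / ‖x i - R j‖ ^ 2 ≤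
        Fintype.card κ * (7 / r ^ 2 * volume.real (PB ι w r)) := by
      intro i
      rw [integral_finsetSum _ fun j _ => (sq_en hr i (R j)).1]
      refine (Finset.sum_le_sum fun j _ => (sq_en hr i (R j)).2).trans (le_of_eq ?_)
      rw [Finset.sum_const, Finset.card_univ, nsmul_eq_mul]
    refine (Finset.sum_le_sum fun i _ => h1 i).trans (le_of_eq ?_)
    rw [Finset.sum_const, Finset.card_univ, nsmul_eq_mul]; ring
  refine ⟨(i1.const_mul _).add (i2.const_mul _), ?_⟩
  unfold SS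
  rw [integral_add (i1.const_mul _) (i2.const_mul _), integral_const_mul, integral_const_mul]
  have c1 := mul_le_mul_of_nonneg_left b1 (show 0 ≤ 1 / 2 * (Fintype.card ι : ℝ) ^ 2 by positivity)
  have c2 := mul_le_mul_of_nonneg_left b2
    (show 0 ≤ 2 * z ^ 2 * (Fintype.card ι * Fintype.card κ : ℝ) by positivity)
  refine (add_le_add c1 c2).trans (le_of_eq ?_)
  ring

theorem UU_nonneg : 0 ≤ UU z R :=
  mul_nonneg (by positivity) (Finset.sum_nonneg fun i _ => Finset.sum_nonneg fun j _ => by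
    positivity)

/-- the easy case -/
theorem easy (hz : 0 < z) {w : E3} {r : ℝ} (hr : 0 < r) {g : (ι → E3) → ℂ}
    (hg : ContDiff ℝ 1 g) {η B : ℝ} (hη : 0 < η) (hB : 0 ≤ B)
    (h : 3 * z * Fintype.card ι * Fintype.card κ / (2 * r) +
        z ^ 2 * (Fintype.card κ : ℝ) ^ 2 * Fintype.card ι / η ≤ UU z R) :
    -B * (∫ x in PB ι w r, ‖g x‖ ^ 2) ≤
      η * (∑ i, ∫ x in PB ι w r, gradSq g i x) + ∫ x in PB ι w r, coul z x R * ‖g x‖ ^ 2 := by
  have h1 := coul_ge z R hz (w := w) hr hg hη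
  have hX : 0 ≤ ∫ x in PB ι w r, ‖g x‖ ^ 2 := integral_nonneg fun x => sq_nonneg _
  have h2 : 0 ≤ (UU z R - 3 * z * Fintype.card ι * Fintype.card κ / (2 * r) -
        z ^ 2 * (Fintype.card κ : ℝ) ^ 2 * Fintype.card ι / η) *
        (∫ x in PB ι w r, ‖g x‖ ^ 2) := mul_nonneg (by linarith) hX
  have h3 : 0 ≤ B * (∫ x in PB ι w r, ‖g x‖ ^ 2) := mul_nonneg hB hX
  linarith

/-- the main decomposition -/
theorem decomp (hz : 0 < z) {w : E3} {r : ℝ} (hr : 0 < r) {u : (ι → E3) → ℂ}
    (hu : ContDiff ℝ 1 u) {ε δ CP : ℝ} (hε : 0 < ε) (hδ : 0 < δ) (hCP : 0 < CP)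
    (hP : ∫ x in PB ι w r, ‖u x - ⨍ y in PB ι w r, u y‖ ^ 2 ≤
      CP * r ^ 2 * ∑ i, ∫ x in PB ι w r, gradSq u i x)
    (hsmall : δ + 3 * z * Fintype.card ι * Fintype.card κ / (2 * r) +
        z ^ 2 * (Fintype.card κ : ℝ) ^ 2 * Fintype.card ι / (ε / 2) ≤ ε / (2 * (CP * r ^ 2)))
    {B : ℝ} (hB0 : 0 ≤ B)
    (hB : -B * volume.real (PB ι w r) ≤ (∫ x in PB ι w r, QQ z R x) +
      UU z R * volume.real (PB ι w r) - 1 / δ * ∫ x in PB ι w r, SS z R x) :
    -B * (∫ x in PB ι w r, ‖u x‖ ^ 2) ≤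
      ε * (∑ i, ∫ x in PB ι w r, gradSq u i x) + ∫ x in PB ι w r, coul z x R * ‖u x‖ ^ 2 := by
  have cu : Continuous u := hu.continuous
  set m : ℂ := ⨍ y in PB ι w r, u y with hm
  set W : (ι → E3) → ℂ := fun x => u x - m with hW
  have hWc : ContDiff ℝ 1 W := hu.sub contDiff_const
  have cW : Continuous W := hWc.continuous
  have hgrad : ∀ i x, gradSq W i x = gradSq u i x := by
    intro i x
    unfold gradSq gsq
    refine Finset.sum_congr rfl fun c _ => ?_
    have : fderiv ℝ (fun y => W (Function.update x i y)) (x i) =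
        fderiv ℝ (fun y => u (Function.update x i y)) (x i) := by
      simp only [hW]
      rw [fderiv_sub_const]
    rw [this]
  have hvP : 0 < volume.real (PB ι w r) :=
    ENNReal.toReal_pos (vol_PB_pos hr).ne' (vol_PB_lt w r).ne
  set vP := volume.real (PB ι w r) with hvPdef
  have iu : IntegrableOn u (PB ι w r) := cont_int cu w r
  have hW0 : ∫ x in PB ι w r, W x = 0 := by
    simp only [hW]
    rw [integral_sub iu (integrableOn_const (vol_PB_lt w r).ne), setIntegral_const, hm,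
      setAverage_eq]
    rw [smul_smul, mul_inv_cancel₀ hvP.ne', one_smul, sub_self]
  set h : (ι → E3) → ℝ := fun x => ⟪m, W x⟫ with hh
  have ch : Continuous h := continuous_const.inner cW
  have hh0 : ∫ x in PB ι w r, h x = 0 := by
    simp only [hh]
    rw [integral_inner (cont_int cW w r) m, hW0, inner_zero_right]
  have hnorm : ∀ x, ‖u x‖ ^ 2 = ‖m‖ ^ 2 + 2 * h x + ‖W x‖ ^ 2 := by
    intro x
    have : u x = m + W x := by simp [hW]
    rw [this, norm_add_sq_real]
  have ic : ∀ a : ℝ, IntegrableOn (fun _ : ι → E3 => a) (PB ι w r) := fun a =>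
    cont_int continuous_const w r
  have iW : IntegrableOn (fun x => ‖W x‖ ^ 2) (PB ι w r) := cont_int (by fun_prop) w r
  have ih : IntegrableOn h (PB ι w r) := cont_int ch w r
  have iSS := (SS_int (ι := ι) z R (w := w) hr).1
  have iQ := QQ_int (ι := ι) z R w r
  have iQh : IntegrableOn (fun x => QQ z R x * h x) (PB ι w r) := by
    obtain ⟨C, hC⟩ := cont_bdd ch w r
    exact iQ.mul_bdd (c := C) ch.aestronglyMeasurable
      ((ae_restrict_iff' (meas_PB w r)).2 (Eventually.of_forall fun x hx => hC x hx))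
  set Y := ∫ x in PB ι w r, ‖W x‖ ^ 2 with hY
  have hY0 : 0 ≤ Y := integral_nonneg fun x => sq_nonneg _
  -- X
  have hX : ∫ x in PB ι w r, ‖u x‖ ^ 2 = ‖m‖ ^ 2 * vP + Y := by
    simp only [hnorm]
    have j1 : IntegrableOn (fun x => ‖m‖ ^ 2 + 2 * h x) (PB ι w r) :=
      (ic _).add (ih.const_mul 2)
    rw [integral_add j1 iW, integral_add (ic _)
      (ih.const_mul 2), integral_const_mul, hh0, setIntegral_const, smul_eq_mul]
    ring
  -- potential
  have hV : ∫ x in PB ι w r, coul z x R * ‖u x‖ ^ 2 =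
      ‖m‖ ^ 2 * ((∫ x in PB ι w r, QQ z R x) + UU z R * vP) +
        2 * (∫ x in PB ι w r, QQ z R x * h x) +
        ∫ x in PB ι w r, coul z x R * ‖W x‖ ^ 2 := by
    have e : ∀ x, coul z x R * ‖u x‖ ^ 2 = ‖m‖ ^ 2 * (QQ z R x + UU z R) +
        (2 * (QQ z R x * h x) + 2 * UU z R * h x) + coul z x R * ‖W x‖ ^ 2 := by
      intro x
      rw [hnorm x, coul_eq]; ring
    simp only [e]
    have j1 : IntegrableOn (fun x => ‖m‖ ^ 2 * (QQ z R x + UU z R)) (PB ι w r) :=
      (iQ.add (ic _)).const_mul _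
    have j2 : IntegrableOn (fun x => 2 * (QQ z R x * h x) + 2 * UU z R * h x) (PB ι w r) :=
      (iQh.const_mul 2).add (ih.const_mul _)
    have j3 : IntegrableOn (fun x => ‖m‖ ^ 2 * (QQ z R x + UU z R) +
        (2 * (QQ z R x * h x) + 2 * UU z R * h x)) (PB ι w r) := j1.add j2
    rw [integral_add j3 (coul_int z R cW).1, integral_add j1 j2,
      integral_add (iQh.const_mul 2) (ih.const_mul _), integral_const_mul, integral_const_mul,
      integral_const_mul, hh0, integral_add iQ (ic _),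
      setIntegral_const, smul_eq_mul]
    ring
  -- cross term
  have hcross : -(1 / δ * ‖m‖ ^ 2 * (∫ x in PB ι w r, SS z R x)) - δ * Y ≤
      2 * (∫ x in PB ι w r, QQ z R x * h x) := by
    rw [hY, ← integral_const_mul, ← integral_const_mul, ← integral_const_mul, ← integral_neg,
      ← integral_sub]
    · apply integral_mono
      · exact (iSS.const_mul _).neg.sub (iW.const_mul _)
      · exact iQh.const_mul 2
      · intro x
        show -(1 / δ * ‖m‖ ^ 2 * SS z R x) - δ * ‖W x‖ ^ 2 ≤ 2 * (QQ z R x * h x)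
        have h1 : |h x| ≤ ‖m‖ * ‖W x‖ := abs_real_inner_le_norm _ _
        have h2 := QQ_sq z R x
        have h3 : |QQ z R x * h x| ≤ |QQ z R x| * (‖m‖ * ‖W x‖) := by
          rw [abs_mul]; exact mul_le_mul_of_nonneg_left h1 (abs_nonneg _)
        have h4 : 2 * (|QQ z R x| * (‖m‖ * ‖W x‖)) ≤
            1 / δ * ‖m‖ ^ 2 * QQ z R x ^ 2 + δ * ‖W x‖ ^ 2 := by
          have h5 : 0 ≤ (|QQ z R x| * ‖m‖ - δ * ‖W x‖) ^ 2 / δ := by positivity
          have h6 : (|QQ z R x| * ‖m‖ - δ * ‖W x‖) ^ 2 / δ =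
              1 / δ * ‖m‖ ^ 2 * |QQ z R x| ^ 2 + δ * ‖W x‖ ^ 2 -
                2 * (|QQ z R x| * (‖m‖ * ‖W x‖)) := by
            field_simp; ring
          rw [sq_abs] at h6
          linarith
        have h7 : 1 / δ * ‖m‖ ^ 2 * QQ z R x ^ 2 ≤ 1 / δ * ‖m‖ ^ 2 * SS z R x :=
          mul_le_mul_of_nonneg_left h2 (by positivity)
        have h8 := neg_abs_le (QQ z R x * h x)
        linarith
    · exact (iSS.const_mul _).neg
    · exact iW.const_mul _
  -- potential of W
  have hVW := coul_ge z R hz (w := w) hr hWc (η := ε / 2) (by linarith)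
  have hUU := UU_nonneg z R
  set Γ := ∑ i, ∫ x in PB ι w r, gradSq u i x with hΓ
  have hΓW : ∑ i, ∫ x in PB ι w r, gradSq W i x = Γ := by
    simp only [hgrad, hΓ]
  rw [hΓW] at hVW
  have hPY : Y ≤ CP * r ^ 2 * Γ := hP
  have hPY2 : ε / (2 * (CP * r ^ 2)) * Y ≤ ε / 2 * Γ := by
    calc ε / (2 * (CP * r ^ 2)) * Y ≤ ε / (2 * (CP * r ^ 2)) * (CP * r ^ 2 * Γ) :=
          mul_le_mul_of_nonneg_left hPY (by positivity)
      _ = ε / 2 * Γ := by field_simp
  have hs2 := mul_le_mul_of_nonneg_right hsmall hY0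
  have hB2 := mul_le_mul_of_nonneg_left hB (sq_nonneg ‖m‖)
  have hUY : 0 ≤ UU z R * Y := mul_nonneg hUU hY0
  have hBY : 0 ≤ B * Y := mul_nonneg hB0 hY0
  rw [hX, hV]
  set a1 := 3 * z * (Fintype.card ι : ℝ) * Fintype.card κ / (2 * r)
  set a2 := z ^ 2 * (Fintype.card κ : ℝ) ^ 2 * Fintype.card ι / (ε / 2)
  have e1 : (UU z R - a1 - a2) * Y = UU z R * Y - (a1 + a2) * Y := by ring
  have e2 : (δ + a1 + a2) * Y = δ * Y + (a1 + a2) * Y := by ring
  rw [← hY, e1] at hVW
  rw [e2] at hs2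
  set q := ∫ x in PB ι w r, QQ z R x
  set ss := ∫ x in PB ι w r, SS z R x
  have e3 : ‖m‖ ^ 2 * (q + UU z R * vP - 1 / δ * ss) = ‖m‖ ^ 2 * (q + UU z R * vP) -
      1 / δ * ‖m‖ ^ 2 * ss := by ring
  have e4 : ‖m‖ ^ 2 * (-B * vP) = -B * (‖m‖ ^ 2 * vP) := by ring
  rw [e3, e4] at hB2
  have e5 : -B * (‖m‖ ^ 2 * vP + Y) = -B * (‖m‖ ^ 2 * vP) - B * Y := by ring
  rw [e5]
  linarith

end coul

theorem gap_main (z : ℝ) (hz : 0 < z) : ∃ C c₀ : ℝ, 0 < C ∧ 0 < c₀ ∧
    ∀ (ι κ : Type) [Fintype ι] [DecidableEq ι] [Fintype κ] (R : κ → E3) (w : E3)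
      (r ε A : ℝ) (u : (ι → E3) → ℂ), 0 < r → 0 < ε → ε ≤ 1 → 0 ≤ A →
      Function.Injective R → (∀ j, R j ∈ ball w r) →
      r * (Fintype.card ι : ℝ) ^ 2 ≤ c₀ * ε → -A ≤ Wj z (Fintype.card ι) R w r →
      ContDiff ℝ 1 u →
      -(A + C * (Fintype.card ι : ℝ) ^ 4 / ε + C * (Fintype.card ι : ℝ) / r) *
          (∫ x in PB ι w r, ‖u x‖ ^ 2) ≤
        ε * (∑ i, ∫ x in PB ι w r, gradSq u i x) +
          (∫ x in PB ι w r, coul z x R * ‖u x‖ ^ 2) := by
  obtain ⟨CP, hCP, hPoin⟩ := poincare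
  set C1 : ℝ := 1 + 48 / z with hC1
  have hC1p : 0 < C1 := by positivity
  set K2 : ℝ := 7 * (1 / 2 + 2 * z ^ 2 * C1 ^ 2) with hK2
  have hK2p : 0 < K2 := by positivity
  set c₀ : ℝ := min (1 / 32) (min (1 / (12 * z * C1 * CP)) (1 / (16 * z ^ 2 * C1 ^ 2 * CP)))
    with hc₀
  have hc1 : c₀ ≤ 1 / 32 := min_le_left _ _
  have hc2 : c₀ ≤ 1 / (12 * z * C1 * CP) := (min_le_right _ _).trans (min_le_left _ _)
  have hc3 : c₀ ≤ 1 / (16 * z ^ 2 * C1 ^ 2 * CP) := (min_le_right _ _).trans (min_le_right _ _)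
  have hcp : 0 < c₀ := by
    rw [hc₀]; refine lt_min (by norm_num) (lt_min ?_ ?_) <;> positivity
  refine ⟨4 * CP * K2 + 7 / 2, c₀, by positivity, hcp, ?_⟩
  intro ι κ _ _ _ R w r ε A u hr hε hε1 hA hinj hR hrn hWj hu
  set n : ℝ := (Fintype.card ι : ℝ) with hn
  set k : ℝ := (Fintype.card κ : ℝ) with hk
  have hn0 : 0 ≤ n := Nat.cast_nonneg _
  have hk0 : 0 ≤ k := Nat.cast_nonneg _
  have hUU := UU_ge z R hr hinj hR
  rw [← hk] at hUU
  have hUU0 := UU_nonneg z R
  have hBig : 0 ≤ A + (4 * CP * K2 + 7 / 2) * n ^ 4 / ε + (4 * CP * K2 + 7 / 2) * n / r := by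
    positivity
  -- n ≤ n²
  have hnn : n ≤ n ^ 2 := by
    rcases Nat.eq_zero_or_pos (Fintype.card ι) with h | h
    · rw [hn, h]; norm_num
    · have h1 : (1 : ℝ) ≤ n := by rw [hn]; exact_mod_cast h
      nlinarith
  have hrn1 : r * n ≤ c₀ * ε := (mul_le_mul_of_nonneg_left hnn hr.le).trans hrn
  by_cases hcase : Fintype.card ι = 0 ∨ (2 ≤ Fintype.card κ ∧ 48 * n ≤ z * k)
  · apply easy z R hz hr hu hε hBig
    rw [← hn, ← hk]
    rcases hcase with h | ⟨h2, h48⟩
    · have : n = 0 := by rw [hn, h]; norm_num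
      rw [this]; simpa using hUU0
    · have hk2 : (2 : ℝ) ≤ k := by rw [hk]; exact_mod_cast h2
      have h1 : z ^ 2 * k ^ 2 / (8 * r) ≤ UU z R := by
        refine le_trans ?_ hUU
        rw [div_le_div_iff₀ (by positivity) (by positivity)]
        have h3 : k ^ 2 ≤ 2 * (k * (k - 1)) := by nlinarith
        have h4 : 0 < z ^ 2 * (4 * r) := by positivity
        nlinarith
      have h3 : 3 * z * n * k / (2 * r) ≤ z ^ 2 * k ^ 2 / (32 * r) := by
        rw [div_le_div_iff₀ (by positivity) (by positivity)]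
        have h4 : 0 ≤ z * k * (2 * r) := by positivity
        nlinarith
      have h5 : z ^ 2 * k ^ 2 * n / ε ≤ z ^ 2 * k ^ 2 / (32 * r) := by
        rw [div_le_div_iff₀ hε (by positivity)]
        have h6 : n * (32 * r) ≤ ε := by
          have : c₀ * ε ≤ 1 / 32 * ε := mul_le_mul_of_nonneg_right hc1 hε.le
          linarith
        have h7 : 0 ≤ z ^ 2 * k ^ 2 := by positivity
        calc z ^ 2 * k ^ 2 * n * (32 * r) = z ^ 2 * k ^ 2 * (n * (32 * r)) := by ring
          _ ≤ z ^ 2 * k ^ 2 * ε := mul_le_mul_of_nonneg_left h6 h7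
      have h8 : z ^ 2 * k ^ 2 / (32 * r) + z ^ 2 * k ^ 2 / (32 * r) ≤ z ^ 2 * k ^ 2 / (8 * r) := by
        have : z ^ 2 * k ^ 2 / (8 * r) - (z ^ 2 * k ^ 2 / (32 * r) + z ^ 2 * k ^ 2 / (32 * r)) =
          z ^ 2 * k ^ 2 / (16 * r) := by field_simp; ring
        have h9 : 0 ≤ z ^ 2 * k ^ 2 / (16 * r) := by positivity
        linarith
      linarith
  · -- the main case
    push Not at hcase
    obtain ⟨hι, hκ⟩ := hcase
    have hn1 : 1 ≤ n := by rw [hn]; exact_mod_cast Nat.one_le_iff_ne_zero.2 hι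
    have hkn : k ≤ C1 * n := by
      rcases Nat.lt_or_ge (Fintype.card κ) 2 with h | h
      · have h1 : k ≤ 1 := by rw [hk]; exact_mod_cast Nat.lt_succ_iff.1 h
        have h2 : 1 ≤ C1 := by rw [hC1]; have : 0 < 48 / z := by positivity
                               linarith
        nlinarith
      · have h1 := hκ h
        have h2 : k ≤ 48 / z * n := by
          rw [div_mul_eq_mul_div, le_div_iff₀ hz]; linarith
        rw [hC1]; nlinarith
    set δ : ℝ := ε / (4 * (CP * r ^ 2)) with hδ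
    have hδp : 0 < δ := by positivity
    have hr2 : 0 < r ^ 2 := by positivity
    apply decomp z R hz hr hu hε hδp hCP (hPoin ι w r u hr hu)
    · rw [← hn, ← hk]
      -- first error
      have h1 : 3 * z * n * k / (2 * r) ≤ ε / (8 * (CP * r ^ 2)) := by
        have h2 : 3 * z * n * k ≤ 3 * z * C1 * n ^ 2 := by
          have : 0 ≤ 3 * z * n := by positivity
          nlinarith
        have h3 : r * (3 * z * C1 * n ^ 2) ≤ 3 * z * C1 * (c₀ * ε) := by
          have : 0 ≤ 3 * z * C1 := by positivity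
          nlinarith
        have h4 : 3 * z * C1 * (c₀ * ε) ≤ ε / (4 * CP) := by
          have h5 : 3 * z * C1 * c₀ ≤ 1 / (4 * CP) := by
            calc 3 * z * C1 * c₀ ≤ 3 * z * C1 * (1 / (12 * z * C1 * CP)) :=
                  mul_le_mul_of_nonneg_left hc2 (by positivity)
              _ = 1 / (4 * CP) := by field_simp; norm_num
          calc 3 * z * C1 * (c₀ * ε) = (3 * z * C1 * c₀) * ε := by ring
            _ ≤ 1 / (4 * CP) * ε := mul_le_mul_of_nonneg_right h5 hε.le
            _ = ε / (4 * CP) := by ring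
        have h6 : r * (3 * z * n * k) ≤ ε / (4 * CP) :=
          (mul_le_mul_of_nonneg_left h2 hr.le).trans (h3.trans h4)
        calc 3 * z * n * k / (2 * r) = (r * (3 * z * n * k)) * (1 / (2 * r ^ 2)) := by
              field_simp
          _ ≤ ε / (4 * CP) * (1 / (2 * r ^ 2)) :=
              mul_le_mul_of_nonneg_right h6 (by positivity)
          _ = ε / (8 * (CP * r ^ 2)) := by field_simp; norm_num
      -- second error
      have h2 : z ^ 2 * k ^ 2 * n / (ε / 2) ≤ ε / (8 * (CP * r ^ 2)) := by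
        have h3 : k ^ 2 * n ≤ C1 ^ 2 * n ^ 4 := by
          have h4 : k ^ 2 ≤ (C1 * n) ^ 2 := pow_le_pow_left₀ hk0 hkn 2
          calc k ^ 2 * n ≤ (C1 * n) ^ 2 * n := mul_le_mul_of_nonneg_right h4 hn0
            _ = C1 ^ 2 * (n ^ 2 * n) := by ring
            _ ≤ C1 ^ 2 * (n ^ 2 * n ^ 2) := by gcongr
            _ = C1 ^ 2 * n ^ 4 := by ring
        have h5 : r ^ 2 * n ^ 4 ≤ c₀ * ε ^ 2 := by
          have h6 : (r * n ^ 2) ^ 2 ≤ (c₀ * ε) ^ 2 := pow_le_pow_left₀ (by positivity) hrn 2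
          have h7 : c₀ ^ 2 ≤ c₀ := by
            have : c₀ ≤ 1 := hc1.trans (by norm_num)
            nlinarith
          calc r ^ 2 * n ^ 4 = (r * n ^ 2) ^ 2 := by ring
            _ ≤ (c₀ * ε) ^ 2 := h6
            _ = c₀ ^ 2 * ε ^ 2 := by ring
            _ ≤ c₀ * ε ^ 2 := mul_le_mul_of_nonneg_right h7 (by positivity)
        have h8 : r ^ 2 * (z ^ 2 * k ^ 2 * n) ≤ ε ^ 2 / (16 * CP) := by
          calc r ^ 2 * (z ^ 2 * k ^ 2 * n) = r ^ 2 * z ^ 2 * (k ^ 2 * n) := by ring
            _ ≤ r ^ 2 * z ^ 2 * (C1 ^ 2 * n ^ 4) :=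
                mul_le_mul_of_nonneg_left h3 (by positivity)
            _ = z ^ 2 * C1 ^ 2 * (r ^ 2 * n ^ 4) := by ring
            _ ≤ z ^ 2 * C1 ^ 2 * (c₀ * ε ^ 2) :=
                mul_le_mul_of_nonneg_left h5 (by positivity)
            _ ≤ z ^ 2 * C1 ^ 2 * (1 / (16 * z ^ 2 * C1 ^ 2 * CP) * ε ^ 2) := by gcongr
            _ = ε ^ 2 / (16 * CP) := by field_simp
        calc z ^ 2 * k ^ 2 * n / (ε / 2) = (r ^ 2 * (z ^ 2 * k ^ 2 * n)) * (2 / (ε * r ^ 2)) := by
              field_simp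
          _ ≤ ε ^ 2 / (16 * CP) * (2 / (ε * r ^ 2)) :=
              mul_le_mul_of_nonneg_right h8 (by positivity)
          _ = ε / (8 * (CP * r ^ 2)) := by field_simp; norm_num
      have h9 : δ + ε / (8 * (CP * r ^ 2)) + ε / (8 * (CP * r ^ 2)) = ε / (2 * (CP * r ^ 2)) := by
        rw [hδ]; field_simp; norm_num
      linarith
    · exact hBig
    · rw [avg_QQ z R hr]
      have hSS := (SS_int (ι := ι) z R (w := w) hr).2
      rw [← hn, ← hk] at hSS
      rw [← hn]
      have hvP : 0 < volume.real (PB ι w r) :=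
        ENNReal.toReal_pos (vol_PB_pos hr).ne' (vol_PB_lt w r).ne
      have hvB : 0 < volume.real (ball w r) := by rw [vball hr]; positivity
      set vP := volume.real (PB ι w r) with hvPd
      set vB := volume.real (ball w r) with hvBd
      have hDD := DD_le (w := w) hr
      rw [← hvBd] at hDD
      have h1 : n / (2 * vB ^ 2) * DD w r ≤ 7 / 2 * n / r := by
        calc n / (2 * vB ^ 2) * DD w r ≤ n / (2 * vB ^ 2) * (7 / r * vB ^ 2) :=
              mul_le_mul_of_nonneg_left hDD (by positivity)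
          _ = 7 / 2 * n / r := by field_simp
      have h2 : 1 / 2 * n ^ 4 + 2 * z ^ 2 * (n * k) ^ 2 ≤ (1 / 2 + 2 * z ^ 2 * C1 ^ 2) * n ^ 4 := by
        have h4 : k ^ 2 ≤ (C1 * n) ^ 2 := pow_le_pow_left₀ hk0 hkn 2
        have h5 : 2 * z ^ 2 * n ^ 2 * k ^ 2 ≤ 2 * z ^ 2 * n ^ 2 * (C1 * n) ^ 2 :=
          mul_le_mul_of_nonneg_left h4 (by positivity)
        calc 1 / 2 * n ^ 4 + 2 * z ^ 2 * (n * k) ^ 2
            = 1 / 2 * n ^ 4 + 2 * z ^ 2 * n ^ 2 * k ^ 2 := by ring
          _ ≤ 1 / 2 * n ^ 4 + 2 * z ^ 2 * n ^ 2 * (C1 * n) ^ 2 := by linarith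
          _ = (1 / 2 + 2 * z ^ 2 * C1 ^ 2) * n ^ 4 := by ring
      have h3 : ∫ x in PB ι w r, SS z R x ≤ K2 * n ^ 4 * vP / r ^ 2 := by
        refine hSS.trans ?_
        calc 7 / r ^ 2 * vP * (1 / 2 * n ^ 4 + 2 * z ^ 2 * (n * k) ^ 2)
            ≤ 7 / r ^ 2 * vP * ((1 / 2 + 2 * z ^ 2 * C1 ^ 2) * n ^ 4) :=
              mul_le_mul_of_nonneg_left h2 (by positivity)
          _ = K2 * n ^ 4 * vP / r ^ 2 := by rw [hK2]; field_simp
      have h4 : 1 / δ * (∫ x in PB ι w r, SS z R x) ≤ 4 * CP * K2 * n ^ 4 / ε * vP := by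
        calc 1 / δ * (∫ x in PB ι w r, SS z R x) ≤ 1 / δ * (K2 * n ^ 4 * vP / r ^ 2) :=
              mul_le_mul_of_nonneg_left h3 (by positivity)
          _ = 4 * CP * K2 * n ^ 4 / ε * vP := by rw [hδ]; field_simp
      have h5 : vP * (Wj z n R w r - UU z R - n / (2 * vB ^ 2) * DD w r) + UU z R * vP ≥
          vP * (-A - 7 / 2 * n / r) := by
        have : vP * (Wj z n R w r - UU z R - n / (2 * vB ^ 2) * DD w r) + UU z R * vP =
          vP * (Wj z n R w r - n / (2 * vB ^ 2) * DD w r) := by ring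
        rw [this]
        exact mul_le_mul_of_nonneg_left (by linarith) hvP.le
      have h6 : 0 ≤ 7 / 2 * n ^ 4 / ε * vP := by positivity
      have h7 : 0 ≤ 4 * CP * K2 * n / r * vP := by positivity
      have h8 : -(A + (4 * CP * K2 + 7 / 2) * n ^ 4 / ε + (4 * CP * K2 + 7 / 2) * n / r) * vP =
          vP * (-A - 7 / 2 * n / r) - 4 * CP * K2 * n ^ 4 / ε * vP - 7 / 2 * n ^ 4 / ε * vP -
            4 * CP * K2 * n / r * vP := by
        ring
      rw [h8]
      linarith

end Gap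

theorem gap (z : ℝ) (hz : 0 < z) : ∃ C c₀ : ℝ, 0 < C ∧ 0 < c₀ ∧
    ∀ (ι κ : Type) [Fintype ι] [DecidableEq ι] [Fintype κ] (R : κ → E3) (w : E3)
      (r ε A : ℝ) (u : (ι → E3) → ℂ), 0 < r → 0 < ε → ε ≤ 1 → 0 ≤ A →
      Function.Injective R → (∀ j, R j ∈ ball w r) →
      r * (Fintype.card ι : ℝ) ^ 2 ≤ c₀ * ε → -A ≤ Wj z (Fintype.card ι) R w r →
      ContDiff ℝ 1 u →
      -(A + C * (Fintype.card ι : ℝ) ^ 4 / ε + C * (Fintype.card ι : ℝ) / r) *
          (∫ x in PB ι w r, ‖u x‖ ^ 2) ≤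
        ε * (∑ i, ∫ x in PB ι w r, gradSq u i x) +
          (∫ x in PB ι w r, coul z x R * ‖u x‖ ^ 2) :=
  Gap.gap_main z hz

end Pool.Agent.H5R2.NL
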