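import Pool.Agent.H5R2.NL.Defs

/-!
# JLA: the law of a randomly shifted configuration
-/

set_option autoImplicit false

noncomputable section

namespace Pool.Agent.H5R2.NL

open MeasureTheory Metric
open scoped ENNReal

theorem jla_inB_meas (r : ℝ) (x : E3) : Measurable fun c : E3 => inB c r x := by
  unfold inB
  exact Measurable.ite (measurableSet_lt (by fun_prop) measurable_const) measurable_const
    measurable_const

theorem jla_inB_zero {w c x : E3} {lam r : ℝ} (hrl : r ≤ lam) (hx : x ∈ ball w 1)
    (hc : c ∉ ball w (1 + lam)) : inB c r x = 0 := by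
  unfold inB
  rw [if_neg]
  intro h
  apply hc
  rw [mem_ball, dist_eq_norm] at hx ⊢
  calc ‖c - w‖ = ‖(c - x) + (x - w)‖ := by congr 1; abel
    _ ≤ ‖c - x‖ + ‖x - w‖ := norm_add_le _ _
    _ < 1 + lam := by rw [norm_sub_rev c x]; linarith

theorem jla_inB_01 (c x : E3) (r : ℝ) : inB c r x = 0 ∨ inB c r x = 1 := by
  unfold inB
  split_ifs
  · exact Or.inr rfl
  · exact Or.inl rfl

theorem jla_prob {w : E3} {ρ : ℝ} (hρ : 0 < ρ) :
    IsProbabilityMeasure ((volume (ball w ρ))⁻¹ • (volume : Measure E3).restrict (ball w ρ)) := by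
  constructor
  rw [Measure.smul_apply, Measure.restrict_apply_univ, smul_eq_mul]
  exact ENNReal.inv_mul_cancel (measure_ball_pos _ _ hρ).ne' measure_ball_lt_top.ne

theorem jla_term {w x : E3} {lam r : ℝ} (hrl : r ≤ lam) (hx : x ∈ ball w 1)
    (f : E3 → ℝ≥0∞) (hf : Measurable f) :
    ∫⁻ c in ball w (1 + lam), ENNReal.ofReal (inB c r x) * f (x - c) =
      ∫⁻ v in ball (0 : E3) r, f v := by
  have h1 : ∫⁻ c in ball w (1 + lam), ENNReal.ofReal (inB c r x) * f (x - c) =
      ∫⁻ c, ENNReal.ofReal (inB c r x) * f (x - c) := by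
    apply setLIntegral_eq_of_support_subset
    intro c hc
    by_contra hcon
    apply hc
    simp only
    rw [jla_inB_zero hrl hx hcon]
    simp
  rw [h1]
  have h2 : ∫⁻ c, ENNReal.ofReal (inB c r x) * f (x - c) =
      ∫⁻ c, (fun v => (ball (0 : E3) r).indicator f v) (x - c) := by
    congr 1
    funext c
    show ENNReal.ofReal (inB c r x) * f (x - c) = (ball (0 : E3) r).indicator f (x - c)
    unfold inB
    by_cases h : ‖x - c‖ < r
    · rw [if_pos h, Set.indicator_of_mem (by rw [mem_ball_zero_iff]; exact h)]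
      simp
    · rw [if_neg h, Set.indicator_of_notMem (by rw [mem_ball_zero_iff]; exact h)]
      simp
  rw [h2, lintegral_sub_left_eq_self, lintegral_indicator measurableSet_ball]

theorem jla_ofReal {w : E3} {ρ : ℝ} (hρ : 0 < ρ) (M : ℕ) :
    ENNReal.ofReal ((M : ℝ) / volume.real (ball w ρ)) = (volume (ball w ρ))⁻¹ * (M : ℝ≥0∞) := by
  have h0 : volume (ball w ρ) ≠ 0 := (measure_ball_pos _ _ hρ).ne'
  have h1 : volume (ball w ρ) ≠ ∞ := measure_ball_lt_top.ne
  have h2 : 0 < volume.real (ball w ρ) := ENNReal.toReal_pos h0 h1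
  rw [ENNReal.ofReal_div_of_pos h2, ENNReal.ofReal_natCast, Measure.real, ENNReal.ofReal_toReal h1,
    div_eq_mul_inv, mul_comm]

variable {κ : Type} [Fintype κ]

/-- the law -/
def jlaLaw (R : κ → E3) (w : E3) (lam r : ℝ) (hr : 0 < r)
    (hrl : r ≤ lam) (hinj : Function.Injective R) (hR : ∀ j, R j ∈ ball w 1) :
    Law (ballI 0 r (Fintype.card κ / volume.real (ball w (1 + lam)))) where
  Ω := E3
  mΩ := inferInstance
  P := (volume (ball w (1 + lam)))⁻¹ • (volume : Measure E3).restrict (ball w (1 + lam))
  prob := jla_prob (by linarith)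
  M := Fintype.card κ
  X := fun c i => R ((Fintype.equivFin κ).symm i) - c
  a := fun c i => inB c r (R ((Fintype.equivFin κ).symm i))
  hX := by
    apply measurable_pi_lambda
    intro i
    fun_prop
  ha := by
    apply measurable_pi_lambda
    intro i
    exact jla_inB_meas r _
  ha01 := fun c i => jla_inB_01 _ _ _
  distinct := by
    apply Filter.Eventually.of_forall
    intro c i j hij _ _ h
    apply hij
    exact (Fintype.equivFin κ).symm.injective (hinj (sub_left_inj.1 h))
  intensity := by
    intro f hf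
    rw [lintegral_smul_measure, smul_eq_mul, lintegral_finsetSum _ (by
      intro i _
      exact ((jla_inB_meas r _).ennreal_ofReal).mul (hf.comp (by fun_prop)))]
    have h1 : ∀ i : Fin (Fintype.card κ),
        ∫⁻ c in ball w (1 + lam), ENNReal.ofReal (inB c r (R ((Fintype.equivFin κ).symm i))) *
          f (R ((Fintype.equivFin κ).symm i) - c) = ∫⁻ v in ball (0 : E3) r, f v := fun i =>
      jla_term hrl (hR _) f hf
    rw [Finset.sum_congr rfl fun i _ => h1 i, Finset.sum_const, Finset.card_univ,
      Fintype.card_fin, nsmul_eq_mul]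
    have h2 : ∀ x, ENNReal.ofReal (ballI 0 r (Fintype.card κ / volume.real (ball w (1 + lam))) x) *
        f x = (ball (0 : E3) r).indicator
          (fun x => ENNReal.ofReal (Fintype.card κ / volume.real (ball w (1 + lam))) * f x) x := by
      intro x
      unfold ballI
      by_cases h : x ∈ ball (0 : E3) r
      · rw [Set.indicator_of_mem h, Set.indicator_of_mem h]
      · rw [Set.indicator_of_notMem h, Set.indicator_of_notMem h]
        simp
    simp_rw [h2]
    rw [lintegral_indicator measurableSet_ball, lintegral_const_mul _ hf,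
      jla_ofReal (by linarith), mul_assoc]
  integ := by
    have := jla_prob (w := w) (ρ := 1 + lam) (by linarith)
    apply integrable_finsetSum
    intro i _
    apply integrable_finsetSum
    intro j _
    refine Integrable.of_bound (C := 1 / ‖R ((Fintype.equivFin κ).symm i) -
      R ((Fintype.equivFin κ).symm j)‖) ?_ ?_
    · apply Measurable.aestronglyMeasurable
      have := (jla_inB_meas r (R ((Fintype.equivFin κ).symm i))).mul
        (jla_inB_meas r (R ((Fintype.equivFin κ).symm j)))
      simp only [sub_sub_sub_cancel_right]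
      exact this.div_const _
    · apply Filter.Eventually.of_forall
      intro c
      simp only [sub_sub_sub_cancel_right]
      rw [norm_div, norm_norm]
      apply div_le_div_of_nonneg_right _ (norm_nonneg _)
      rcases jla_inB_01 c (R ((Fintype.equivFin κ).symm i)) r with h | h <;>
      rcases jla_inB_01 c (R ((Fintype.equivFin κ).symm j)) r with h' | h' <;>
      rw [h, h'] <;> simp

theorem jla_int2 (r ν : ℝ) :
    (∫ x, ∫ y, ballI (0 : E3) r ν x * ballI (0 : E3) r ν y / ‖x - y‖) =
      ν ^ 2 * ∫ x in ball (0 : E3) r, ∫ y in ball (0 : E3) r, 1 / ‖x - y‖ := by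
  rw [← integral_const_mul, ← integral_indicator measurableSet_ball]
  congr 1
  funext x
  by_cases hx : x ∈ ball (0 : E3) r
  · rw [Set.indicator_of_mem hx, ← integral_const_mul, ← integral_indicator measurableSet_ball]
    congr 1
    funext y
    unfold ballI
    rw [Set.indicator_of_mem hx]
    by_cases hy : y ∈ ball (0 : E3) r
    · rw [Set.indicator_of_mem hy, Set.indicator_of_mem hy]
      ring
    · rw [Set.indicator_of_notMem hy, Set.indicator_of_notMem hy]
      simp
  · rw [Set.indicator_of_notMem hx]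
    unfold ballI
    simp only [Set.indicator_of_notMem hx]
    simp

theorem jla_en (R : κ → E3) (w : E3) (lam r : ℝ) (hr : 0 < r)
    (hrl : r ≤ lam) (hinj : Function.Injective R) (hR : ∀ j, R j ∈ ball w 1) :
    (jlaLaw R w lam r hr hrl hinj hR).en =
      1 / 2 * (∑ i, ∑ j, (∫ c, inB c r (R i) * inB c r (R j)) / ‖R i - R j‖) /
          volume.real (ball w (1 + lam))
        - 1 / 2 * (Fintype.card κ / volume.real (ball w (1 + lam))) ^ 2 *
          (∫ x in ball (0 : E3) r, ∫ y in ball (0 : E3) r, 1 / ‖x - y‖) := by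
  unfold Law.en
  rw [jla_int2]
  have hint : ∀ i j : κ, Integrable (fun c => inB c r (R i) * inB c r (R j) / ‖R i - R j‖)
      ((volume : Measure E3).restrict (ball w (1 + lam))) := by
    intro i j
    have : IsFiniteMeasure ((volume : Measure E3).restrict (ball w (1 + lam))) :=
      ⟨by rw [Measure.restrict_apply_univ]; exact measure_ball_lt_top⟩
    refine Integrable.of_bound (C := 1 / ‖R i - R j‖) ?_ ?_
    · apply Measurable.aestronglyMeasurable
      exact ((jla_inB_meas r (R i)).mul (jla_inB_meas r (R j))).div_const _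
    · apply Filter.Eventually.of_forall
      intro c
      rw [norm_div, norm_norm]
      apply div_le_div_of_nonneg_right _ (norm_nonneg _)
      rcases jla_inB_01 c (R i) r with h | h <;>
      rcases jla_inB_01 c (R j) r with h' | h' <;>
      rw [h, h'] <;> simp
  have h1 : (∫ ω, ∑ i, ∑ j, (jlaLaw R w lam r hr hrl hinj hR).a ω i *
        (jlaLaw R w lam r hr hrl hinj hR).a ω j /
          ‖(jlaLaw R w lam r hr hrl hinj hR).X ω i - (jlaLaw R w lam r hr hrl hinj hR).X ω j‖
        ∂(jlaLaw R w lam r hr hrl hinj hR).P) =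
      (∑ i, ∑ j, (∫ c, inB c r (R i) * inB c r (R j)) / ‖R i - R j‖) /
          volume.real (ball w (1 + lam)) := by
    show (∫ c, ∑ i : Fin (Fintype.card κ), ∑ j : Fin (Fintype.card κ),
        inB c r (R ((Fintype.equivFin κ).symm i)) * inB c r (R ((Fintype.equivFin κ).symm j)) /
          ‖(R ((Fintype.equivFin κ).symm i) - c) - (R ((Fintype.equivFin κ).symm j) - c)‖
        ∂((volume (ball w (1 + lam)))⁻¹ • (volume : Measure E3).restrict (ball w (1 + lam)))) = _
    rw [integral_smul_measure]
    have h2 : ∀ c : E3, (∑ i : Fin (Fintype.card κ), ∑ j : Fin (Fintype.card κ),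
        inB c r (R ((Fintype.equivFin κ).symm i)) * inB c r (R ((Fintype.equivFin κ).symm j)) /
          ‖(R ((Fintype.equivFin κ).symm i) - c) - (R ((Fintype.equivFin κ).symm j) - c)‖) =
        ∑ i, ∑ j, inB c r (R i) * inB c r (R j) / ‖R i - R j‖ := by
      intro c
      simp only [sub_sub_sub_cancel_right]
      rw [← Equiv.sum_comp (Fintype.equivFin κ).symm]
      apply Finset.sum_congr rfl
      intro i _
      rw [← Equiv.sum_comp (Fintype.equivFin κ).symm]
    simp_rw [h2]
    rw [integral_finsetSum _ fun i _ => integrable_finsetSum _ fun j _ => hint i j]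
    rw [ENNReal.toReal_inv, smul_eq_mul, div_eq_inv_mul]
    congr 1
    apply Finset.sum_congr rfl
    intro i _
    rw [integral_finsetSum _ fun j _ => hint i j]
    apply Finset.sum_congr rfl
    intro j _
    rw [integral_div]
    congr 1
    apply setIntegral_eq_integral_of_forall_compl_eq_zero
    intro c hc
    rw [jla_inB_zero hrl (hR i) hc, zero_mul]
  rw [h1]
  ring

theorem shift_law {κ : Type} [Fintype κ] (R : κ → E3) (w : E3) (lam r : ℝ) (hr : 0 < r)
    (hrl : r ≤ lam) (hinj : Function.Injective R) (hR : ∀ j, R j ∈ ball w 1) :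
    ∃ v : ℝ, HasLaw (ballI 0 r (Fintype.card κ / volume.real (ball w (1 + lam))))
      (1 / 2 * (∑ i, ∑ j, (∫ c, inB c r (R i) * inB c r (R j)) / ‖R i - R j‖) /
          volume.real (ball w (1 + lam))
        - 1 / 2 * (Fintype.card κ / volume.real (ball w (1 + lam))) ^ 2 *
          (∫ x in ball (0 : E3) r, ∫ y in ball (0 : E3) r, 1 / ‖x - y‖)) v :=
  ⟨(jlaLaw R w lam r hr hrl hinj hR).var, jlaLaw R w lam r hr hrl hinj hR,
    (jla_en R w lam r hr hrl hinj hR).le, le_rfl⟩

end Pool.Agent.H5R2.NL
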