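import Mathlib
import Pool.Agent.H5R2.NL.Defs
import Pool.Agent.H5R2.NL.Int

/-!
# Coulomb potentials of nice densities
-/

set_option autoImplicit false

noncomputable section

namespace Pool.Agent.H5R2.NL

open MeasureTheory Metric
open scoped ENNReal

theorem pot_meas : Measurable (fun p : E3 × E3 => ENNReal.ofReal (1 / ‖p.1 - p.2‖)) := by
  fun_prop

theorem pot_measR : Measurable (fun p : E3 × E3 => 1 / ‖p.1 - p.2‖) := by
  fun_prop

theorem pot_meas_l (x : E3) : Measurable (fun y : E3 => ENNReal.ofReal (1 / ‖x - y‖)) := by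
  fun_prop

theorem pot_ball (x : E3) (r : ℝ) (hr : 0 ≤ r) :
    ∫⁻ y in ball x r, ENNReal.ofReal (1 / ‖x - y‖) = ENNReal.ofReal (2 * Real.pi * r ^ 2) := by
  rw [← int_inv x r hr, ofReal_integral_eq_lintegral_ofReal (integrableOn_inv x x r)]
  · refine lintegral_congr fun y => ?_
    rw [norm_sub_rev]
  · exact Filter.Eventually.of_forall fun y => by positivity

theorem pot_lint_I {I : E3 → ℝ} (hI : Nice I) :
    ∫⁻ y, ENNReal.ofReal (I y) = ENNReal.ofReal (∫ y, I y) :=
  (ofReal_integral_eq_lintegral_ofReal hI.int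
    (Filter.Eventually.of_forall fun y => hI.nonneg y)).symm

theorem pot_bound_explicit {I : E3 → ℝ} (hI : Nice I) (B : ℝ) (hB : ∀ x, I x ≤ B) (x : E3) :
    ∫⁻ y, ENNReal.ofReal (I y) * ENNReal.ofReal (1 / ‖x - y‖) ≤
      ENNReal.ofReal (B * (2 * Real.pi) + ∫ y, I y) := by
  have hB0 : 0 ≤ B := (hI.nonneg 0).trans (hB 0)
  have hI0 : 0 ≤ ∫ y, I y := integral_nonneg hI.nonneg
  rw [← lintegral_add_compl _ (measurableSet_ball (x := x) (ε := 1)), ENNReal.ofReal_add
    (by positivity) hI0]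
  refine add_le_add ?_ ?_
  · calc ∫⁻ y in ball x 1, ENNReal.ofReal (I y) * ENNReal.ofReal (1 / ‖x - y‖)
        ≤ ∫⁻ y in ball x 1, ENNReal.ofReal B * ENNReal.ofReal (1 / ‖x - y‖) :=
          lintegral_mono fun y => mul_le_mul_left (ENNReal.ofReal_le_ofReal (hB y)) _
      _ = ENNReal.ofReal B * ENNReal.ofReal (2 * Real.pi * 1 ^ 2) := by
          rw [lintegral_const_mul _ (pot_meas_l x), pot_ball x 1 zero_le_one]
      _ = ENNReal.ofReal (B * (2 * Real.pi)) := by
          rw [← ENNReal.ofReal_mul hB0]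
          congr 1
          ring
  · rw [← pot_lint_I hI]
    calc ∫⁻ y in (ball x 1)ᶜ, ENNReal.ofReal (I y) * ENNReal.ofReal (1 / ‖x - y‖)
        ≤ ∫⁻ y in (ball x 1)ᶜ, ENNReal.ofReal (I y) := by
          refine setLIntegral_mono' measurableSet_ball.compl fun y hy => ?_
          have h1 : 1 ≤ ‖x - y‖ := by
            rw [Set.mem_compl_iff, mem_ball_iff_norm, not_lt, norm_sub_rev] at hy
            exact hy
          have h2 : ENNReal.ofReal (1 / ‖x - y‖) ≤ 1 := by
            rw [ENNReal.ofReal_le_one, div_le_one (by linarith)]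
            exact h1
          calc ENNReal.ofReal (I y) * ENNReal.ofReal (1 / ‖x - y‖) ≤ ENNReal.ofReal (I y) * 1 :=
                mul_le_mul_right h2 _
            _ = _ := mul_one _
      _ ≤ ∫⁻ y, ENNReal.ofReal (I y) := setLIntegral_le_lintegral _ _

theorem pot_bound {I : E3 → ℝ} (hI : Nice I) : ∃ C : ℝ, 0 ≤ C ∧ ∀ x : E3,
    ∫⁻ y, ENNReal.ofReal (I y) * ENNReal.ofReal (1 / ‖x - y‖) ≤ ENNReal.ofReal C := by
  obtain ⟨B, hB⟩ := hI.bdd
  have hB0 : 0 ≤ B := (hI.nonneg 0).trans (hB 0)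
  have hI0 : 0 ≤ ∫ y, I y := integral_nonneg hI.nonneg
  exact ⟨B * (2 * Real.pi) + ∫ y, I y, by positivity, pot_bound_explicit hI B hB⟩

theorem pot_ofReal {a t : ℝ} (ha : 0 ≤ a) :
    ENNReal.ofReal (a / t) = ENNReal.ofReal a * ENNReal.ofReal (1 / t) := by
  rw [← ENNReal.ofReal_mul ha, mul_one_div]

theorem pot_integrable {I : E3 → ℝ} (hI : Nice I) (x : E3) :
    Integrable (fun y => I y / ‖x - y‖) := by
  obtain ⟨C, _, hC⟩ := pot_bound hI
  have hm : Measurable (fun y => I y / ‖x - y‖) := by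
    have := hI.meas
    fun_prop
  refine ⟨hm.aestronglyMeasurable, ?_⟩
  rw [hasFiniteIntegral_iff_ofReal
    (Filter.Eventually.of_forall fun y => div_nonneg (hI.nonneg y) (norm_nonneg _))]
  calc ∫⁻ y, ENNReal.ofReal (I y / ‖x - y‖)
      = ∫⁻ y, ENNReal.ofReal (I y) * ENNReal.ofReal (1 / ‖x - y‖) :=
        lintegral_congr fun y => pot_ofReal (hI.nonneg y)
    _ ≤ ENNReal.ofReal C := hC x
    _ < ⊤ := ENNReal.ofReal_lt_top

theorem pot_eq {I : E3 → ℝ} (hI : Nice I) (x : E3) :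
    ∫ y, I y / ‖x - y‖ =
      (∫⁻ y, ENNReal.ofReal (I y) * ENNReal.ofReal (1 / ‖x - y‖)).toReal := by
  rw [integral_eq_lintegral_of_nonneg_ae
    (Filter.Eventually.of_forall fun y => div_nonneg (hI.nonneg y) (norm_nonneg _))
    (pot_integrable hI x).aestronglyMeasurable]
  congr 1
  exact lintegral_congr fun y => pot_ofReal (hI.nonneg y)

/-- the interaction of two densities, as a Lebesgue integral -/
def potD (I J : E3 → ℝ) : ℝ≥0∞ :=
  ∫⁻ x, ENNReal.ofReal (I x) * ∫⁻ y, ENNReal.ofReal (J y) * ENNReal.ofReal (1 / ‖x - y‖)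

theorem pot_inner_meas {J : E3 → ℝ} (hJ : Nice J) :
    Measurable fun x : E3 => ∫⁻ y, ENNReal.ofReal (J y) * ENNReal.ofReal (1 / ‖x - y‖) := by
  have hm : Measurable fun p : E3 × E3 =>
      ENNReal.ofReal (J p.2) * ENNReal.ofReal (1 / ‖p.1 - p.2‖) :=
    ((hJ.meas.comp measurable_snd).ennreal_ofReal).mul pot_meas
  exact hm.lintegral_prod_right'

theorem potD_lt_top {I J : E3 → ℝ} (hI : Nice I) (hJ : Nice J) : potD I J < ⊤ := by
  obtain ⟨C, _, hC⟩ := pot_bound hJ
  calc potD I J ≤ ∫⁻ x, ENNReal.ofReal (I x) * ENNReal.ofReal C :=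
        lintegral_mono fun x => mul_le_mul_right (hC x) _
    _ = ENNReal.ofReal (∫ y, I y) * ENNReal.ofReal C := by
        rw [lintegral_mul_const _ hI.meas.ennreal_ofReal, pot_lint_I hI]
    _ < ⊤ := ENNReal.mul_lt_top ENNReal.ofReal_lt_top ENNReal.ofReal_lt_top

theorem pot_double {I J : E3 → ℝ} (hI : Nice I) (hJ : Nice J) :
    ∫ x, ∫ y, I x * J y / ‖x - y‖ = (potD I J).toReal := by
  obtain ⟨C, _, hC⟩ := pot_bound hJ
  have h1 : ∀ x, ∫ y, I x * J y / ‖x - y‖ = (ENNReal.ofReal (I x) *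
      ∫⁻ y, ENNReal.ofReal (J y) * ENNReal.ofReal (1 / ‖x - y‖)).toReal := by
    intro x
    rw [ENNReal.toReal_mul, ENNReal.toReal_ofReal (hI.nonneg x), ← pot_eq hJ x,
      ← integral_const_mul]
    refine integral_congr_ae (Filter.Eventually.of_forall fun y => ?_)
    simp only [mul_div_assoc]
  simp only [h1]
  rw [integral_toReal]
  · rfl
  · exact (hI.meas.ennreal_ofReal.mul (pot_inner_meas hJ)).aemeasurable
  · exact Filter.Eventually.of_forall fun x =>
      ENNReal.mul_lt_top ENNReal.ofReal_lt_top ((hC x).trans_lt ENNReal.ofReal_lt_top)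

theorem pot_outer_integrable {I J : E3 → ℝ} (hI : Nice I) (hJ : Nice J) :
    Integrable fun x => ∫ y, I x * J y / ‖x - y‖ := by
  obtain ⟨C, _, hC⟩ := pot_bound hJ
  have h1 : ∀ x, ∫ y, I x * J y / ‖x - y‖ = (ENNReal.ofReal (I x) *
      ∫⁻ y, ENNReal.ofReal (J y) * ENNReal.ofReal (1 / ‖x - y‖)).toReal := by
    intro x
    rw [ENNReal.toReal_mul, ENNReal.toReal_ofReal (hI.nonneg x), ← pot_eq hJ x,
      ← integral_const_mul]
    refine integral_congr_ae (Filter.Eventually.of_forall fun y => ?_)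
    simp only [mul_div_assoc]
  simp only [h1]
  exact integrable_toReal_of_lintegral_ne_top
    (hI.meas.ennreal_ofReal.mul (pot_inner_meas hJ)).aemeasurable (potD_lt_top hI hJ).ne

end Pool.Agent.H5R2.NL
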