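import Mathlib
import Pool.Agent.H5R2.NL.Defs
import Pool.Agent.H5R2.NL.Int
import Pool.Agent.H5R2.NL.Kern
import Pool.Agent.H5R2.NL.Pot
import Pool.Agent.H5R2.NL.GS

/-!
# Lower bound for the energy of a law
-/

set_option autoImplicit false

noncomputable section

namespace Pool.Agent.H5R2.NL

open MeasureTheory Metric
open scoped ENNReal

/-! ### Linear statistics of a law -/

theorem law1c_lin {I : E3 → ℝ} (hI : Nice I) (l : Law I) (φ : E3 → ℝ) (hφ : Measurable φ)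
    (h0 : ∀ x, 0 ≤ φ x) (B : ℝ) (hB : ∀ x, φ x ≤ B) :
    (let _ := l.mΩ
     Integrable (fun ω => ∑ i, l.a ω i * φ (l.X ω i)) l.P) ∧
    (let _ := l.mΩ
     ∫ ω, ∑ i, l.a ω i * φ (l.X ω i) ∂l.P = ∫ x, I x * φ x) := by
  let _ := l.mΩ
  have hP := l.prob
  have ha0 : ∀ ω i, 0 ≤ l.a ω i := by
    intro ω i
    rcases l.ha01 ω i with h | h <;> simp [h]
  have ha1 : ∀ ω i, l.a ω i ≤ 1 := by
    intro ω i
    rcases l.ha01 ω i with h | h <;> simp [h]
  have hB0 : 0 ≤ B := (h0 0).trans (hB 0)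
  have hXi : ∀ i, Measurable fun ω => l.X ω i := fun i => (measurable_pi_iff.1 l.hX) i
  have hai : ∀ i, Measurable fun ω => l.a ω i := fun i => (measurable_pi_iff.1 l.ha) i
  have hm : Measurable fun ω => ∑ i, l.a ω i * φ (l.X ω i) :=
    Finset.measurable_fun_sum _ fun i _ => (hai i).mul (hφ.comp (hXi i))
  have hnn : ∀ ω, 0 ≤ ∑ i, l.a ω i * φ (l.X ω i) := fun ω =>
    Finset.sum_nonneg fun i _ => mul_nonneg (ha0 ω i) (h0 _)
  constructor
  · refine Integrable.of_bound hm.aestronglyMeasurable (l.M * B)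
      (Filter.Eventually.of_forall fun ω => ?_)
    rw [Real.norm_eq_abs, abs_of_nonneg (hnn ω)]
    calc ∑ i, l.a ω i * φ (l.X ω i) ≤ ∑ _i : Fin l.M, B := by
          refine Finset.sum_le_sum fun i _ => ?_
          calc l.a ω i * φ (l.X ω i) ≤ 1 * B :=
                mul_le_mul (ha1 ω i) (hB _) (h0 _) zero_le_one
            _ = B := one_mul _
      _ = l.M * B := by simp
  · rw [integral_eq_lintegral_of_nonneg_ae (Filter.Eventually.of_forall hnn)
      hm.aestronglyMeasurable, integral_eq_lintegral_of_nonneg_ae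
      (Filter.Eventually.of_forall fun x => mul_nonneg (hI.nonneg x) (h0 x))
      (hI.meas.mul hφ).aestronglyMeasurable]
    congr 1
    have h1 := l.intensity (fun x => ENNReal.ofReal (φ x)) hφ.ennreal_ofReal
    have h2 : ∀ ω, ENNReal.ofReal (∑ i, l.a ω i * φ (l.X ω i)) =
        ∑ i, ENNReal.ofReal (l.a ω i) * ENNReal.ofReal (φ (l.X ω i)) := by
      intro ω
      rw [ENNReal.ofReal_sum_of_nonneg fun i _ => mul_nonneg (ha0 ω i) (h0 _)]
      exact Finset.sum_congr rfl fun i _ => ENNReal.ofReal_mul (ha0 ω i)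
    have h3 : ∀ x, ENNReal.ofReal (I x * φ x) = ENNReal.ofReal (I x) * ENNReal.ofReal (φ x) :=
      fun x => ENNReal.ofReal_mul (hI.nonneg x)
    simp only [h2, h3]
    exact h1

/-! ### The kernel `Fk` -/

theorem law1c_hker_nonneg (ℓ t : ℝ) : 0 ≤ hker ℓ t := by
  unfold hker
  exact pow_nonneg (le_max_left _ _) 3

theorem law1c_hker_le_one {ℓ t : ℝ} (hℓ : 0 < ℓ) (ht : 0 ≤ t) : hker ℓ t ≤ 1 := by
  unfold hker
  refine pow_le_one₀ (le_max_left _ _) (max_le zero_le_one ?_)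
  have : 0 ≤ t / (2 * ℓ) := by positivity
  linarith

theorem law1c_hker_zero {ℓ t : ℝ} (hℓ : 0 < ℓ) (ht : 2 * ℓ ≤ t) : hker ℓ t = 0 := by
  unfold hker
  have h1 : 1 - t / (2 * ℓ) ≤ 0 := by
    rw [sub_nonpos, one_le_div (by positivity)]
    exact ht
  rw [max_eq_left h1]
  norm_num

theorem law1c_Fk_eq {ℓ t : ℝ} (ht : 0 < t) : Fk ℓ t = 1 / t - hker ℓ t / t := by
  unfold Fk
  rw [if_neg ht.ne', sub_div]

theorem law1c_Fk_zero (ℓ : ℝ) : Fk ℓ 0 = 3 / (2 * ℓ) := by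
  unfold Fk
  rw [if_pos rfl]

theorem law1c_Fk_le {ℓ t : ℝ} (hℓ : 0 < ℓ) (ht : 0 ≤ t) : Fk ℓ t ≤ 3 / (2 * ℓ) := by
  unfold Fk
  split_ifs with h
  · exact le_rfl
  · have ht0 : 0 < t := lt_of_le_of_ne ht (Ne.symm h)
    rw [div_le_iff₀ ht0]
    unfold hker
    set s : ℝ := t / (2 * ℓ) with hs
    have hs0 : 0 ≤ s := by positivity
    have h1 : 3 / (2 * ℓ) * t = 3 * s := by rw [hs]; ring
    rw [h1]
    by_cases h2 : s ≤ 1
    · rw [max_eq_right (by linarith)]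
      nlinarith [mul_nonneg (mul_nonneg hs0 hs0) (sub_nonneg.2 h2), mul_nonneg hs0 hs0]
    · push Not at h2
      rw [max_eq_left (by linarith)]
      norm_num
      linarith

theorem law1c_Fk_meas (ℓ : ℝ) : Measurable (Fk ℓ) := by
  unfold Fk
  refine Measurable.ite (measurableSet_eq) measurable_const ?_
  unfold hker
  fun_prop

theorem law1c_sub {n : ℕ} (a : Fin n → ℝ) (ha : ∀ i, a i = 0 ∨ a i = 1) (g : Fin n → ℝ)
    [Fintype {i // a i = 1}] :
    ∑ j : {i // a i = 1}, g j = ∑ i, a i * g i := by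
  classical
  rw [← Finset.sum_subtype (Finset.univ.filter fun i => a i = 1) (by simp) g,
    Finset.sum_filter]
  refine Finset.sum_congr rfl fun i _ => ?_
  rcases ha i with h | h <;> simp [h]

/-- the potential with the kernel `Fk` -/
def law1cφ (I : E3 → ℝ) (ℓ : ℝ) (x : E3) : ℝ := ∫ y, I y * Fk ℓ ‖x - y‖

theorem law1c_F_int {I : E3 → ℝ} (hI : Nice I) {ℓ : ℝ} (hℓ : 0 < ℓ) (x : E3) :
    Integrable fun y => I y * Fk ℓ ‖x - y‖ := by
  refine hI.int.mul_bdd (c := 3 / (2 * ℓ)) ?_ ?_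
  · exact ((law1c_Fk_meas ℓ).comp (by fun_prop)).aestronglyMeasurable
  · refine Filter.Eventually.of_forall fun y => ?_
    rw [Real.norm_eq_abs, abs_of_nonneg (kern_Fk_nonneg ℓ _ hℓ (norm_nonneg _))]
    exact law1c_Fk_le hℓ (norm_nonneg _)

theorem law1c_phi_nonneg {I : E3 → ℝ} (hI : Nice I) {ℓ : ℝ} (hℓ : 0 < ℓ) (x : E3) :
    0 ≤ law1cφ I ℓ x :=
  integral_nonneg fun y => mul_nonneg (hI.nonneg y) (kern_Fk_nonneg ℓ _ hℓ (norm_nonneg _))

theorem law1c_phi_le {I : E3 → ℝ} (hI : Nice I) {ℓ : ℝ} (hℓ : 0 < ℓ) (x : E3) :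
    law1cφ I ℓ x ≤ (∫ y, I y) * (3 / (2 * ℓ)) := by
  unfold law1cφ
  rw [← integral_mul_const]
  refine integral_mono (law1c_F_int hI hℓ x) (hI.int.mul_const _) fun y => ?_
  exact mul_le_mul_of_nonneg_left (law1c_Fk_le hℓ (norm_nonneg _)) (hI.nonneg y)

theorem law1c_phi_meas {I : E3 → ℝ} (hI : Nice I) (ℓ : ℝ) : Measurable (law1cφ I ℓ) := by
  have hm : StronglyMeasurable fun p : E3 × E3 => I p.2 * Fk ℓ ‖p.1 - p.2‖ := by
    refine Measurable.stronglyMeasurable ?_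
    exact (hI.meas.comp measurable_snd).mul ((law1c_Fk_meas ℓ).comp (by fun_prop))
  exact hm.integral_prod_right'.measurable

theorem law1c_DF {I : E3 → ℝ} (ℓ : ℝ) :
    ∫ x, ∫ y, I x * I y * Fk ℓ ‖x - y‖ = ∫ x, I x * law1cφ I ℓ x := by
  refine integral_congr_ae (Filter.Eventually.of_forall fun x => ?_)
  simp only [law1cφ]
  rw [← integral_const_mul]
  refine integral_congr_ae (Filter.Eventually.of_forall fun y => ?_)
  simp only [mul_assoc]

theorem law1c_pot {I : E3 → ℝ} (hI : Nice I) {ν : ℝ} (hν : ∀ x, I x ≤ ν) {ℓ : ℝ} (hℓ : 0 < ℓ)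
    (x : E3) : ∫ y, I y / ‖x - y‖ ≤ law1cφ I ℓ x + ν * (2 * Real.pi * (2 * ℓ) ^ 2) := by
  have hν0 : 0 ≤ ν := (hI.nonneg 0).trans (hν 0)
  have hi : IntegrableOn (fun y => ν * (1 / ‖y - x‖)) (ball x (2 * ℓ)) :=
    (integrableOn_inv x x (2 * ℓ)).const_mul ν
  have h1 : ν * (2 * Real.pi * (2 * ℓ) ^ 2) =
      ∫ y, (ball x (2 * ℓ)).indicator (fun y => ν * (1 / ‖y - x‖)) y := by
    rw [integral_indicator measurableSet_ball, integral_const_mul, int_inv x _ (by positivity)]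
  rw [h1]
  unfold law1cφ
  have hi' : Integrable ((ball x (2 * ℓ)).indicator (fun y => ν * (1 / ‖y - x‖))) :=
    (integrable_indicator_iff measurableSet_ball).2 hi
  rw [← integral_add (law1c_F_int hI hℓ x) hi']
  refine integral_mono (pot_integrable hI x) ((law1c_F_int hI hℓ x).add hi') fun y => ?_
  have hF := kern_Fk_nonneg ℓ ‖x - y‖ hℓ (norm_nonneg _)
  simp only
  by_cases ht : ‖x - y‖ = 0
  · have h2 : 0 ≤ (ball x (2 * ℓ)).indicator (fun y => ν * (1 / ‖y - x‖)) y :=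
      Set.indicator_nonneg (fun z _ => by positivity) y
    rw [ht, div_zero]
    rw [ht] at hF
    have := mul_nonneg (hI.nonneg y) hF
    linarith
  · have ht0 : 0 < ‖x - y‖ := lt_of_le_of_ne (norm_nonneg _) (Ne.symm ht)
    rw [law1c_Fk_eq ht0]
    by_cases hy : y ∈ ball x (2 * ℓ)
    · rw [Set.indicator_of_mem hy, norm_sub_rev y x]
      have h3 : hker ℓ ‖x - y‖ / ‖x - y‖ ≤ 1 / ‖x - y‖ :=
        div_le_div_of_nonneg_right (law1c_hker_le_one hℓ (norm_nonneg _)) (norm_nonneg _)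
      have h4 : I y * (hker ℓ ‖x - y‖ / ‖x - y‖) ≤ ν * (1 / ‖x - y‖) :=
        mul_le_mul (hν y) h3 (div_nonneg (law1c_hker_nonneg _ _) (norm_nonneg _)) hν0
      have h5 : I y / ‖x - y‖ = I y * (1 / ‖x - y‖) := by ring
      rw [h5, mul_sub]
      linarith
    · rw [Set.indicator_of_notMem hy]
      rw [mem_ball_iff_norm, not_lt, norm_sub_rev] at hy
      rw [law1c_hker_zero hℓ hy]
      apply le_of_eq
      ring

theorem law1c_main {I : E3 → ℝ} (hI : Nice I) {ν : ℝ} (hν : ∀ x, I x ≤ ν) {ℓ : ℝ} (hℓ : 0 < ℓ)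
    (l : Law I) : -((3 / (4 * ℓ) + 4 * Real.pi * ν * ℓ ^ 2) * ∫ x, I x) ≤ l.en := by
  classical
  let _ := l.mΩ
  have hP := l.prob
  have hI0 : 0 ≤ ∫ x, I x := integral_nonneg hI.nonneg
  have hφi : Integrable fun x => I x * law1cφ I ℓ x := by
    refine hI.int.mul_bdd (c := (∫ y, I y) * (3 / (2 * ℓ))) ?_ ?_
    · exact (law1c_phi_meas hI ℓ).aestronglyMeasurable
    · refine Filter.Eventually.of_forall fun y => ?_
      rw [Real.norm_eq_abs, abs_of_nonneg (law1c_phi_nonneg hI hℓ _)]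
      exact law1c_phi_le hI hℓ y
  -- the direct energy
  have hDD : ∫ x, ∫ y, I x * I y / ‖x - y‖ ≤
      (∫ x, I x * law1cφ I ℓ x) + ν * (2 * Real.pi * (2 * ℓ) ^ 2) * ∫ x, I x := by
    rw [← integral_const_mul, ← integral_add hφi (hI.int.const_mul _)]
    refine integral_mono (pot_outer_integrable hI hI) (hφi.add (hI.int.const_mul _)) fun x => ?_
    have h1 : ∫ y, I x * I y / ‖x - y‖ = I x * ∫ y, I y / ‖x - y‖ := by
      rw [← integral_const_mul]
      refine integral_congr_ae (Filter.Eventually.of_forall fun y => ?_)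
      simp only [mul_div_assoc]
    simp only [h1]
    have h2 := mul_le_mul_of_nonneg_left (law1c_pot hI hν hℓ x) (hI.nonneg x)
    calc I x * ∫ y, I y / ‖x - y‖ ≤ _ := h2
      _ = _ := by ring
  -- the pointwise inequality
  have hpt : ∀ᵐ ω ∂l.P, 2 * (∑ i, l.a ω i * law1cφ I ℓ (l.X ω i)) -
      (∫ x, I x * law1cφ I ℓ x) - 3 / (2 * ℓ) * (∑ i, l.a ω i * (fun _ => (1 : ℝ)) (l.X ω i)) ≤
      ∑ i, ∑ j, l.a ω i * l.a ω j / ‖l.X ω i - l.X ω j‖ := by
    filter_upwards [l.distinct] with ω hω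
    have h1 := pd_points ℓ hℓ (fun j : {i // l.a ω i = 1} => l.X ω j) I hI
    rw [law1c_DF] at h1
    have h2 : ∑ i : {i // l.a ω i = 1}, ∑ j : {i // l.a ω i = 1}, Fk ℓ ‖l.X ω i - l.X ω j‖ =
        ∑ i, ∑ j, l.a ω i * (l.a ω j * Fk ℓ ‖l.X ω i - l.X ω j‖) := by
      have h3 : ∀ i : {i // l.a ω i = 1}, ∑ j : {i // l.a ω i = 1}, Fk ℓ ‖l.X ω i - l.X ω j‖ =
          ∑ j, l.a ω j * Fk ℓ ‖l.X ω i - l.X ω j‖ := fun i =>
        law1c_sub (l.a ω) (l.ha01 ω) fun j => Fk ℓ ‖l.X ω i - l.X ω j‖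
      simp only [h3]
      rw [law1c_sub (l.a ω) (l.ha01 ω) fun i => ∑ j, l.a ω j * Fk ℓ ‖l.X ω i - l.X ω j‖]
      refine Finset.sum_congr rfl fun i _ => ?_
      rw [Finset.mul_sum]
    have h4 : ∑ j : {i // l.a ω i = 1}, ∫ y, I y * Fk ℓ ‖l.X ω j - y‖ =
        ∑ i, l.a ω i * law1cφ I ℓ (l.X ω i) :=
      law1c_sub (l.a ω) (l.ha01 ω) fun j => law1cφ I ℓ (l.X ω j)
    rw [h2, h4] at h1
    have h5 : ∑ i, ∑ j, l.a ω i * (l.a ω j * Fk ℓ ‖l.X ω i - l.X ω j‖) ≤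
        (∑ i, ∑ j, l.a ω i * l.a ω j / ‖l.X ω i - l.X ω j‖) + 3 / (2 * ℓ) * ∑ i, l.a ω i := by
      rw [Finset.mul_sum, ← Finset.sum_add_distrib]
      refine Finset.sum_le_sum fun i _ => ?_
      have h6 : 3 / (2 * ℓ) * l.a ω i = ∑ j, if i = j then 3 / (2 * ℓ) * l.a ω i else 0 := by
        simp
      rw [h6, ← Finset.sum_add_distrib]
      refine Finset.sum_le_sum fun j _ => ?_
      by_cases hij : i = j
      · subst hij
        rw [if_pos rfl, sub_self, norm_zero, law1c_Fk_zero, div_zero, zero_add]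
        rcases l.ha01 ω i with h | h <;> simp [h]
      · rw [if_neg hij, add_zero]
        rcases l.ha01 ω i with h | h
        · simp [h]
        · rcases l.ha01 ω j with h' | h'
          · simp [h']
          · rw [h, h', one_mul, one_mul, one_mul]
            have h7 : 0 < ‖l.X ω i - l.X ω j‖ :=
              norm_pos_iff.2 (sub_ne_zero.2 (hω i j hij h h'))
            rw [law1c_Fk_eq h7]
            have : 0 ≤ hker ℓ ‖l.X ω i - l.X ω j‖ / ‖l.X ω i - l.X ω j‖ :=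
              div_nonneg (law1c_hker_nonneg _ _) h7.le
            linarith
    simp only [mul_one]
    linarith
  obtain ⟨hi1, hv1⟩ := law1c_lin hI l (law1cφ I ℓ) (law1c_phi_meas hI ℓ)
    (law1c_phi_nonneg hI hℓ) _ (law1c_phi_le hI hℓ)
  obtain ⟨hi2, hv2⟩ := law1c_lin hI l (fun _ => 1) measurable_const (fun _ => zero_le_one) 1
    (fun _ => le_rfl)
  have hA : Integrable (fun ω => 2 * (∑ i, l.a ω i * law1cφ I ℓ (l.X ω i)) -
      (∫ x, I x * law1cφ I ℓ x)) l.P := (hi1.const_mul 2).sub (integrable_const _)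
  have hB : Integrable (fun ω => 3 / (2 * ℓ) *
      (∑ i, l.a ω i * (fun _ => (1 : ℝ)) (l.X ω i))) l.P := hi2.const_mul (3 / (2 * ℓ))
  have hmono := integral_mono_ae (hA.sub hB) l.integ hpt
  have e0 : ∫ ω, ((fun ω => 2 * (∑ i, l.a ω i * law1cφ I ℓ (l.X ω i)) -
      (∫ x, I x * law1cφ I ℓ x)) - fun ω => 3 / (2 * ℓ) *
      (∑ i, l.a ω i * (fun _ => (1 : ℝ)) (l.X ω i))) ω ∂l.P =
      2 * (∫ x, I x * law1cφ I ℓ x) - (∫ x, I x * law1cφ I ℓ x) - 3 / (2 * ℓ) * ∫ x, I x := by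
    rw [integral_sub' hA hB, integral_sub (hi1.const_mul 2) (integrable_const _),
      integral_const_mul, integral_const_mul, integral_const]
    simp only [probReal_univ, smul_eq_mul, one_mul]
    simp only at hv1 hv2
    rw [hv1, hv2]
    simp only [mul_one]
  rw [e0] at hmono
  unfold Law.en
  have e1 : (3 / (4 * ℓ) + 4 * Real.pi * ν * ℓ ^ 2) * ∫ x, I x =
      1 / 2 * (3 / (2 * ℓ) * ∫ x, I x) + 1 / 2 * (ν * (2 * Real.pi * (2 * ℓ) ^ 2) * ∫ x, I x) := by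
    field_simp
    ring
  rw [e1]
  linarith

theorem hasLaw_lower : ∃ C : ℝ, 0 < C ∧ ∀ (I : E3 → ℝ) (ν e v : ℝ), Nice I → 0 < ν →
    (∀ x, I x ≤ ν) → HasLaw I e v → -(C * ν ^ (1 / 3 : ℝ) * ∫ x, I x) ≤ e := by
  refine ⟨3 / 4 + 4 * Real.pi, by positivity, ?_⟩
  intro I ν e v hI hν hle ⟨l, he, _⟩
  set t : ℝ := ν ^ (1 / 3 : ℝ) with ht
  have ht0 : 0 < t := Real.rpow_pos_of_pos hν _
  have ht3 : ν = t ^ 3 := by
    rw [ht, ← Real.rpow_natCast, ← Real.rpow_mul hν.le]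
    norm_num
  have h1 := law1c_main hI hle (inv_pos.2 ht0) l
  have h2 : 3 / (4 * t⁻¹) + 4 * Real.pi * ν * t⁻¹ ^ 2 = (3 / 4 + 4 * Real.pi) * t := by
    rw [ht3]
    field_simp
  rw [h2] at h1
  exact h1.trans he

end Pool.Agent.H5R2.NL
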