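import Mathlib
import Pool.Agent.H5R2.NL.Defs
import Pool.Agent.H5R2.NL.Int

/-!
# LAW1A : the independent superposition of two laws
-/

set_option autoImplicit false

noncomputable section

namespace Pool.Agent.H5R2.NL

open MeasureTheory Metric
open scoped ENNReal

/-- the potential of a nice intensity is bounded. -/
theorem l1a_pot (I : E3 → ℝ) (hI : Nice I) : ∃ C : ℝ≥0∞, C ≠ ∞ ∧ ∀ p : E3,
    ∫⁻ y, ENNReal.ofReal (I y) * ENNReal.ofReal (1 / ‖p - y‖) ≤ C := by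
  obtain ⟨B, hB⟩ := hI.bdd
  have hB0 : 0 ≤ B := (hI.nonneg 0).trans (hB 0)
  refine ⟨ENNReal.ofReal B * ENNReal.ofReal (2 * Real.pi * 1 ^ 2) + ∫⁻ y, ENNReal.ofReal (I y),
    ?_, fun p => ?_⟩
  · refine ENNReal.add_ne_top.2 ⟨ENNReal.mul_ne_top ENNReal.ofReal_ne_top ENNReal.ofReal_ne_top, ?_⟩
    exact (Integrable.lintegral_lt_top hI.int).ne
  have h1 : ∫⁻ y in ball p 1, ENNReal.ofReal (1 / ‖p - y‖) = ENNReal.ofReal (2 * Real.pi * 1 ^ 2) := by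
    rw [← int_inv p 1 zero_le_one, ofReal_integral_eq_lintegral_ofReal (integrableOn_inv p p 1)
      (Filter.Eventually.of_forall fun y => by positivity)]
    refine lintegral_congr fun y => ?_
    rw [norm_sub_rev]
  have h2 : ∀ y, ENNReal.ofReal (I y) * ENNReal.ofReal (1 / ‖p - y‖) ≤
      ENNReal.ofReal B * (ball p 1).indicator (fun y => ENNReal.ofReal (1 / ‖p - y‖)) y +
        ENNReal.ofReal (I y) := by
    intro y
    by_cases hy : y ∈ ball p 1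
    · rw [Set.indicator_of_mem hy]
      exact le_add_right (mul_le_mul' (ENNReal.ofReal_le_ofReal (hB y)) le_rfl)
    · rw [Set.indicator_of_notMem hy, mul_zero, zero_add]
      have h3 : 1 / ‖p - y‖ ≤ 1 := by
        rw [mem_ball, dist_comm, dist_eq_norm, not_lt] at hy
        rw [div_le_one (by linarith)]
        exact hy
      calc _ ≤ ENNReal.ofReal (I y) * 1 := by
            refine mul_le_mul' le_rfl ?_
            rw [← ENNReal.ofReal_one]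
            exact ENNReal.ofReal_le_ofReal h3
        _ = _ := mul_one _
  calc _ ≤ ∫⁻ y, ENNReal.ofReal B * (ball p 1).indicator (fun y => ENNReal.ofReal (1 / ‖p - y‖)) y +
        ENNReal.ofReal (I y) := lintegral_mono h2
    _ = ENNReal.ofReal B * (∫⁻ y in ball p 1, ENNReal.ofReal (1 / ‖p - y‖)) +
        ∫⁻ y, ENNReal.ofReal (I y) := by
      have hm : Measurable fun y : E3 => ENNReal.ofReal (1 / ‖p - y‖) := by fun_prop
      rw [lintegral_add_left ((hm.indicator measurableSet_ball).const_mul _),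
        lintegral_const_mul _ (hm.indicator measurableSet_ball),
        lintegral_indicator measurableSet_ball]
    _ = _ := by rw [h1]

/-- the function of two variables. -/
def l1a_F (I J : E3 → ℝ) (z : E3 × E3) : ℝ := I z.1 * J z.2 / ‖z.1 - z.2‖

theorem l1a_F_meas (I J : E3 → ℝ) (hI : Nice I) (hJ : Nice J) : Measurable (l1a_F I J) := by
  unfold l1a_F
  have := hI.meas
  have := hJ.meas
  fun_prop

theorem l1a_F_nonneg (I J : E3 → ℝ) (hI : Nice I) (hJ : Nice J) (z : E3 × E3) :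
    0 ≤ l1a_F I J z :=
  div_nonneg (mul_nonneg (hI.nonneg _) (hJ.nonneg _)) (norm_nonneg _)

theorem l1a_F_ofReal (I J : E3 → ℝ) (hI : Nice I) (hJ : Nice J) (x y : E3) :
    ENNReal.ofReal (l1a_F I J (x, y)) =
      ENNReal.ofReal (I x) * (ENNReal.ofReal (J y) * ENNReal.ofReal (1 / ‖x - y‖)) := by
  rw [← ENNReal.ofReal_mul (hJ.nonneg y), ← ENNReal.ofReal_mul (hI.nonneg x)]
  congr 1
  unfold l1a_F
  ring

theorem l1a_F_lint (I J : E3 → ℝ) (hI : Nice I) (hJ : Nice J) :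
    ∫⁻ z, ENNReal.ofReal (l1a_F I J z) ∂((volume : Measure E3).prod volume) =
      ∫⁻ x, ENNReal.ofReal (I x) *
        ∫⁻ y, ENNReal.ofReal (J y) * ENNReal.ofReal (1 / ‖x - y‖) := by
  have hJm := hJ.meas
  rw [lintegral_prod _ (l1a_F_meas I J hI hJ).ennreal_ofReal.aemeasurable]
  refine lintegral_congr fun x => ?_
  rw [← lintegral_const_mul _ (by fun_prop)]
  refine lintegral_congr fun y => ?_
  exact l1a_F_ofReal I J hI hJ x y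

theorem l1a_F_int (I J : E3 → ℝ) (hI : Nice I) (hJ : Nice J) :
    Integrable (l1a_F I J) ((volume : Measure E3).prod volume) := by
  refine ⟨(l1a_F_meas I J hI hJ).aestronglyMeasurable, ?_⟩
  rw [hasFiniteIntegral_iff_ofReal (Filter.Eventually.of_forall (l1a_F_nonneg I J hI hJ)),
    l1a_F_lint I J hI hJ]
  obtain ⟨C, hC, h⟩ := l1a_pot J hJ
  calc _ ≤ ∫⁻ x, ENNReal.ofReal (I x) * C :=
        lintegral_mono fun x => mul_le_mul' le_rfl (h x)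
    _ = (∫⁻ x, ENNReal.ofReal (I x)) * C := lintegral_mul_const _ hI.meas.ennreal_ofReal
    _ < ∞ := ENNReal.mul_lt_top (Integrable.lintegral_lt_top hI.int) (lt_top_iff_ne_top.2 hC)

theorem l1a_F_iter (I J : E3 → ℝ) (hI : Nice I) (hJ : Nice J) :
    ∫ x, ∫ y, I x * J y / ‖x - y‖ = ∫ z, l1a_F I J z ∂((volume : Measure E3).prod volume) :=
  (integral_prod _ (l1a_F_int I J hI hJ)).symm

theorem l1a_F_swap (I J : E3 → ℝ) :
    ∫ z, l1a_F I J z ∂((volume : Measure E3).prod volume) =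
      ∫ z, l1a_F J I z ∂((volume : Measure E3).prod volume) := by
  rw [← integral_prod_swap]
  refine integral_congr_ae (Filter.Eventually.of_forall fun z => ?_)
  simp only [l1a_F, Prod.fst_swap, Prod.snd_swap]
  rw [norm_sub_rev, mul_comm (I z.2)]

theorem l1a_nice_add {I J : E3 → ℝ} (hI : Nice I) (hJ : Nice J) : Nice (fun x => I x + J x) := by
  obtain ⟨B, hB⟩ := hI.bdd
  obtain ⟨B', hB'⟩ := hJ.bdd
  exact ⟨hI.meas.add hJ.meas, fun x => add_nonneg (hI.nonneg x) (hJ.nonneg x),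
    ⟨B + B', fun x => add_le_add (hB x) (hB' x)⟩, hI.int.add hJ.int⟩

theorem l1a_F_add (I J : E3 → ℝ) (hI : Nice I) (hJ : Nice J) :
    ∫ x, ∫ y, (I x + J x) * (I y + J y) / ‖x - y‖ =
      (∫ x, ∫ y, I x * I y / ‖x - y‖) + (∫ x, ∫ y, J x * J y / ‖x - y‖) +
        2 * ∫ z, l1a_F I J z ∂((volume : Measure E3).prod volume) := by
  rw [l1a_F_iter _ _ (l1a_nice_add hI hJ) (l1a_nice_add hI hJ), l1a_F_iter I I hI hI,
    l1a_F_iter J J hJ hJ, two_mul]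
  nth_rewrite 2 [l1a_F_swap I J]
  rw [← integral_add (l1a_F_int I I hI hI) (l1a_F_int J J hJ hJ),
    ← integral_add (l1a_F_int I J hI hJ) (l1a_F_int J I hJ hI),
    ← integral_add (f := fun z => l1a_F I I z + l1a_F J J z)
      (g := fun z => l1a_F I J z + l1a_F J I z) ((l1a_F_int I I hI hI).add (l1a_F_int J J hJ hJ))
      ((l1a_F_int I J hI hJ).add (l1a_F_int J I hJ hI))]
  refine integral_congr_ae (Filter.Eventually.of_forall fun z => ?_)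
  simp only [l1a_F]
  ring

section Cross

variable {Ω₁ Ω₂ : Type} [MeasurableSpace Ω₁] [MeasurableSpace Ω₂] {P₁ : Measure Ω₁}
  {P₂ : Measure Ω₂} [IsProbabilityMeasure P₁] [IsProbabilityMeasure P₂] {M₁ M₂ : ℕ}
  {X₁ : Ω₁ → Fin M₁ → E3} {a₁ : Ω₁ → Fin M₁ → ℝ} {X₂ : Ω₂ → Fin M₂ → E3} {a₂ : Ω₂ → Fin M₂ → ℝ}
  {I₁ I₂ : E3 → ℝ}

/-- the interaction of the two configurations. -/
def l1a_cross (X₁ : Ω₁ → Fin M₁ → E3) (a₁ : Ω₁ → Fin M₁ → ℝ) (X₂ : Ω₂ → Fin M₂ → E3)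
    (a₂ : Ω₂ → Fin M₂ → ℝ) (ω : Ω₁ × Ω₂) : ℝ :=
  ∑ i, ∑ j, a₁ ω.1 i * a₂ ω.2 j / ‖X₁ ω.1 i - X₂ ω.2 j‖

theorem l1a_cross_meas (hX₁ : Measurable X₁) (ha₁ : Measurable a₁) (hX₂ : Measurable X₂)
    (ha₂ : Measurable a₂) : Measurable (l1a_cross X₁ a₁ X₂ a₂) := by
  unfold l1a_cross
  refine Finset.measurable_sum _ fun i _ => Finset.measurable_sum _ fun j _ => ?_
  fun_prop

theorem l1a_cross_lint (h₁ : Nice I₁) (h₂ : Nice I₂) (hX₁ : Measurable X₁) (ha₁ : Measurable a₁)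
    (hX₂ : Measurable X₂) (ha₂ : Measurable a₂) (ha₁0 : ∀ ω i, 0 ≤ a₁ ω i)
    (ha₂0 : ∀ ω i, 0 ≤ a₂ ω i)
    (int₁ : ∀ f : E3 → ℝ≥0∞, Measurable f →
      ∫⁻ ω, ∑ i, ENNReal.ofReal (a₁ ω i) * f (X₁ ω i) ∂P₁ = ∫⁻ x, ENNReal.ofReal (I₁ x) * f x)
    (int₂ : ∀ f : E3 → ℝ≥0∞, Measurable f →
      ∫⁻ ω, ∑ i, ENNReal.ofReal (a₂ ω i) * f (X₂ ω i) ∂P₂ = ∫⁻ x, ENNReal.ofReal (I₂ x) * f x) :
    ∫⁻ ω, ENNReal.ofReal (l1a_cross X₁ a₁ X₂ a₂ ω) ∂(P₁.prod P₂) =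
      ∫⁻ z, ENNReal.ofReal (l1a_F I₁ I₂ z) ∂((volume : Measure E3).prod volume) := by
  have hI₂m := h₂.meas
  set V : E3 → ℝ≥0∞ := fun p => ∫⁻ y, ENNReal.ofReal (I₂ y) * ENNReal.ofReal (1 / ‖p - y‖) with hV
  have hVm : Measurable V := by
    apply Measurable.lintegral_prod_right'
      (f := fun z : E3 × E3 => ENNReal.ofReal (I₂ z.2) * ENNReal.ofReal (1 / ‖z.1 - z.2‖))
    fun_prop
  rw [l1a_F_lint I₁ I₂ h₁ h₂, ← int₁ V hVm,
    lintegral_prod _ (l1a_cross_meas hX₁ ha₁ hX₂ ha₂).ennreal_ofReal.aemeasurable]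
  refine lintegral_congr fun ω₁ => ?_
  have e : ∀ ω₂, ENNReal.ofReal (l1a_cross X₁ a₁ X₂ a₂ (ω₁, ω₂)) =
      ∑ i, ENNReal.ofReal (a₁ ω₁ i) * ∑ j, ENNReal.ofReal (a₂ ω₂ j) *
        ENNReal.ofReal (1 / ‖X₁ ω₁ i - X₂ ω₂ j‖) := by
    intro ω₂
    have h0 : ∀ i j, 0 ≤ a₁ ω₁ i * a₂ ω₂ j / ‖X₁ ω₁ i - X₂ ω₂ j‖ := fun i j =>
      div_nonneg (mul_nonneg (ha₁0 _ _) (ha₂0 _ _)) (norm_nonneg _)
    unfold l1a_cross
    rw [ENNReal.ofReal_sum_of_nonneg fun i _ => Finset.sum_nonneg fun j _ => h0 i j]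
    refine Finset.sum_congr rfl fun i _ => ?_
    rw [ENNReal.ofReal_sum_of_nonneg fun j _ => h0 i j, Finset.mul_sum]
    refine Finset.sum_congr rfl fun j _ => ?_
    rw [← ENNReal.ofReal_mul (ha₂0 _ _), ← ENNReal.ofReal_mul (ha₁0 _ _)]
    congr 1
    ring
  simp_rw [e]
  have hm : ∀ i, Measurable fun ω₂ => ∑ j, ENNReal.ofReal (a₂ ω₂ j) *
      ENNReal.ofReal (1 / ‖X₁ ω₁ i - X₂ ω₂ j‖) := by
    intro i
    refine Finset.measurable_sum _ fun j _ => ?_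
    fun_prop
  rw [lintegral_finsetSum _ fun i _ => (hm i).const_mul _]
  refine Finset.sum_congr rfl fun i _ => ?_
  rw [lintegral_const_mul _ (hm i), int₂ (fun y => ENNReal.ofReal (1 / ‖X₁ ω₁ i - y‖))
    (by fun_prop)]

theorem l1a_cross_nonneg (ha₁0 : ∀ ω i, 0 ≤ a₁ ω i) (ha₂0 : ∀ ω i, 0 ≤ a₂ ω i) (ω : Ω₁ × Ω₂) :
    0 ≤ l1a_cross X₁ a₁ X₂ a₂ ω :=
  Finset.sum_nonneg fun i _ => Finset.sum_nonneg fun j _ =>
    div_nonneg (mul_nonneg (ha₁0 _ _) (ha₂0 _ _)) (norm_nonneg _)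

theorem l1a_cross_int (h₁ : Nice I₁) (h₂ : Nice I₂) (hX₁ : Measurable X₁) (ha₁ : Measurable a₁)
    (hX₂ : Measurable X₂) (ha₂ : Measurable a₂) (ha₁0 : ∀ ω i, 0 ≤ a₁ ω i)
    (ha₂0 : ∀ ω i, 0 ≤ a₂ ω i)
    (int₁ : ∀ f : E3 → ℝ≥0∞, Measurable f →
      ∫⁻ ω, ∑ i, ENNReal.ofReal (a₁ ω i) * f (X₁ ω i) ∂P₁ = ∫⁻ x, ENNReal.ofReal (I₁ x) * f x)
    (int₂ : ∀ f : E3 → ℝ≥0∞, Measurable f →
      ∫⁻ ω, ∑ i, ENNReal.ofReal (a₂ ω i) * f (X₂ ω i) ∂P₂ = ∫⁻ x, ENNReal.ofReal (I₂ x) * f x) :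
    Integrable (l1a_cross X₁ a₁ X₂ a₂) (P₁.prod P₂) ∧
      ∫ ω, l1a_cross X₁ a₁ X₂ a₂ ω ∂(P₁.prod P₂) =
        ∫ z, l1a_F I₁ I₂ z ∂((volume : Measure E3).prod volume) := by
  have hl := l1a_cross_lint (P₁ := P₁) (P₂ := P₂) h₁ h₂ hX₁ ha₁ hX₂ ha₂ ha₁0 ha₂0 int₁ int₂
  have hm := l1a_cross_meas hX₁ ha₁ hX₂ ha₂
  have hn := l1a_cross_nonneg (X₁ := X₁) (X₂ := X₂) ha₁0 ha₂0
  have hF := l1a_F_int I₁ I₂ h₁ h₂
  refine ⟨⟨hm.aestronglyMeasurable, ?_⟩, ?_⟩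
  · rw [hasFiniteIntegral_iff_ofReal (Filter.Eventually.of_forall hn), hl]
    exact Integrable.lintegral_lt_top hF
  · rw [integral_eq_lintegral_of_nonneg_ae (Filter.Eventually.of_forall hn)
      hm.aestronglyMeasurable, hl, integral_eq_lintegral_of_nonneg_ae
      (Filter.Eventually.of_forall (l1a_F_nonneg I₁ I₂ h₁ h₂)) hF.1]

/-- the two configurations do not meet. -/
theorem l1a_disj (hX₁ : Measurable X₁) (ha₁ : Measurable a₁)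
    (hX₂ : Measurable X₂) (ha₂ : Measurable a₂)
    (int₂ : ∀ f : E3 → ℝ≥0∞, Measurable f →
      ∫⁻ ω, ∑ i, ENNReal.ofReal (a₂ ω i) * f (X₂ ω i) ∂P₂ = ∫⁻ x, ENNReal.ofReal (I₂ x) * f x) :
    ∀ᵐ ω ∂(P₁.prod P₂), ∀ i j, a₂ ω.2 j = 1 → X₁ ω.1 i ≠ X₂ ω.2 j := by
  rw [ae_all_iff]
  intro i
  rw [ae_all_iff]
  intro j
  have hms : MeasurableSet {ω : Ω₁ × Ω₂ | a₂ ω.2 j = 1 ∧ X₁ ω.1 i = X₂ ω.2 j} := by
    apply MeasurableSet.inter
    · exact measurableSet_eq_fun (by fun_prop) measurable_const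
    · exact measurableSet_eq_fun (by fun_prop) (by fun_prop)
  have h0 : (P₁.prod P₂) {ω : Ω₁ × Ω₂ | a₂ ω.2 j = 1 ∧ X₁ ω.1 i = X₂ ω.2 j} = 0 := by
    rw [Measure.measure_prod_null hms]
    refine Filter.Eventually.of_forall fun ω₁ => ?_
    have hz : ∫⁻ ω, ∑ k, ENNReal.ofReal (a₂ ω k) *
        ({X₁ ω₁ i} : Set E3).indicator (fun _ => (1 : ℝ≥0∞)) (X₂ ω k) ∂P₂ = 0 := by
      rw [int₂ _ (measurable_const.indicator (measurableSet_singleton _))]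
      have hne : ∀ᵐ x : E3, x ≠ X₁ ω₁ i := compl_mem_ae_iff.2 (measure_singleton _)
      rw [← lintegral_zero (μ := (volume : Measure E3))]
      refine lintegral_congr_ae ?_
      filter_upwards [hne] with x hx
      rw [Set.indicator_of_notMem (by simpa using hx), mul_zero]
    have hmeas : Measurable fun ω => ∑ k, ENNReal.ofReal (a₂ ω k) *
        ({X₁ ω₁ i} : Set E3).indicator (fun _ => (1 : ℝ≥0∞)) (X₂ ω k) := by
      refine Finset.measurable_sum _ fun k _ => Measurable.mul (by fun_prop) ?_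
      exact (measurable_const.indicator (measurableSet_singleton _)).comp (by fun_prop)
    have hz' := (lintegral_eq_zero_iff hmeas).1 hz
    refine measure_mono_null ?_ (ae_iff.1 hz')
    intro ω hω hcon
    obtain ⟨h1, h2⟩ := hω
    have h3 := (Finset.sum_eq_zero_iff_of_nonneg (fun k _ => zero_le)).1 hcon j
      (Finset.mem_univ j)
    rw [h1, ← h2, Set.indicator_of_mem (Set.mem_singleton _)] at h3
    simp at h3
  rw [← compl_mem_ae_iff] at h0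
  filter_upwards [h0] with ω hω h1 h2
  exact hω ⟨h1, h2⟩

theorem l1a_a_int (ha₁ : Measurable a₁) (ha01 : ∀ ω i, a₁ ω i = 0 ∨ a₁ ω i = 1) (i : Fin M₁) :
    Integrable (fun ω => a₁ ω i) P₁ := by
  refine Integrable.of_bound (C := 1) (by fun_prop) (Filter.Eventually.of_forall fun ω => ?_)
  rcases ha01 ω i with h | h <;> rw [h] <;> simp

theorem l1a_mean (h₁ : Nice I₁) (ha₁ : Measurable a₁) (ha01 : ∀ ω i, a₁ ω i = 0 ∨ a₁ ω i = 1)
    (int₁ : ∀ f : E3 → ℝ≥0∞, Measurable f →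
      ∫⁻ ω, ∑ i, ENNReal.ofReal (a₁ ω i) * f (X₁ ω i) ∂P₁ = ∫⁻ x, ENNReal.ofReal (I₁ x) * f x) :
    Integrable (fun ω => ∑ i, a₁ ω i) P₁ ∧ ∫ ω, ∑ i, a₁ ω i ∂P₁ = ∫ x, I₁ x := by
  have ha0 : ∀ ω i, 0 ≤ a₁ ω i := by
    intro ω i
    rcases ha01 ω i with h | h <;> rw [h] <;> norm_num
  have hint : Integrable (fun ω => ∑ i, a₁ ω i) P₁ :=
    integrable_finsetSum _ fun i _ => l1a_a_int ha₁ ha01 i
  refine ⟨hint, ?_⟩
  have h := int₁ (fun _ => 1) measurable_const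
  simp only [mul_one] at h
  rw [integral_eq_lintegral_of_nonneg_ae
    (Filter.Eventually.of_forall fun ω => Finset.sum_nonneg fun i _ => ha0 ω i) hint.1,
    integral_eq_lintegral_of_nonneg_ae (Filter.Eventually.of_forall h₁.nonneg) h₁.int.1, ← h]
  congr 1
  refine lintegral_congr fun ω => ?_
  rw [ENNReal.ofReal_sum_of_nonneg fun i _ => ha0 ω i]

theorem l1a_var {f : Ω₁ → ℝ} {g : Ω₂ → ℝ} (hf : Integrable f P₁) (hg : Integrable g P₂)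
    (hf2 : Integrable (fun ω => f ω ^ 2) P₁) (hg2 : Integrable (fun ω => g ω ^ 2) P₂)
    (hf0 : ∫ ω, f ω ∂P₁ = 0) :
    ∫ ω : Ω₁ × Ω₂, (f ω.1 + g ω.2) ^ 2 ∂(P₁.prod P₂) =
      (∫ ω, f ω ^ 2 ∂P₁) + ∫ ω, g ω ^ 2 ∂P₂ := by
  have e : ∀ ω : Ω₁ × Ω₂, (f ω.1 + g ω.2) ^ 2 = (f ω.1 ^ 2 + g ω.2 ^ 2) + 2 * (f ω.1 * g ω.2) :=
    fun ω => by ring
  simp_rw [e]
  rw [integral_add (f := fun ω : Ω₁ × Ω₂ => f ω.1 ^ 2 + g ω.2 ^ 2)
      (g := fun ω : Ω₁ × Ω₂ => 2 * (f ω.1 * g ω.2))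
      ((hf2.comp_fst P₂).add (hg2.comp_snd P₁)) ((hf.mul_prod hg).const_mul 2),
    integral_add (hf2.comp_fst P₂) (hg2.comp_snd P₁), integral_const_mul, integral_prod_mul, hf0,
    integral_fun_fst (fun ω => f ω ^ 2), integral_fun_snd (fun ω => g ω ^ 2)]
  simp

theorem l1a_block (x₁ : Fin M₁ → E3) (x₂ : Fin M₂ → E3) (b₁ : Fin M₁ → ℝ) (b₂ : Fin M₂ → ℝ) :
    ∑ i, ∑ j, Fin.append b₁ b₂ i * Fin.append b₁ b₂ j /
        ‖Fin.append x₁ x₂ i - Fin.append x₁ x₂ j‖ =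
      (∑ i, ∑ j, b₁ i * b₁ j / ‖x₁ i - x₁ j‖) + (∑ i, ∑ j, b₂ i * b₂ j / ‖x₂ i - x₂ j‖) +
        2 * ∑ i, ∑ j, b₁ i * b₂ j / ‖x₁ i - x₂ j‖ := by
  have hs : ∑ i, ∑ j, b₂ i * b₁ j / ‖x₂ i - x₁ j‖ = ∑ i, ∑ j, b₁ i * b₂ j / ‖x₁ i - x₂ j‖ := by
    rw [Finset.sum_comm]
    refine Finset.sum_congr rfl fun i _ => Finset.sum_congr rfl fun j _ => ?_
    rw [norm_sub_rev, mul_comm]
  simp only [Fin.sum_univ_add, Fin.append_left, Fin.append_right, Finset.sum_add_distrib]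
  rw [hs]
  ring

end Cross

theorem hasLaw_add (I₁ I₂ : E3 → ℝ) (e₁ e₂ v₁ v₂ : ℝ) (h₁ : Nice I₁) (h₂ : Nice I₂)
    (l₁ : HasLaw I₁ e₁ v₁) (l₂ : HasLaw I₂ e₂ v₂) :
    HasLaw (fun x => I₁ x + I₂ x) (e₁ + e₂) (v₁ + v₂) := by
  obtain ⟨⟨Ω₁, mΩ₁, P₁, prob₁, M₁, X₁, a₁, hX₁, ha₁, ha01₁, dist₁, inten₁, integ₁⟩, he₁, hv₁⟩ := l₁
  obtain ⟨⟨Ω₂, mΩ₂, P₂, prob₂, M₂, X₂, a₂, hX₂, ha₂, ha01₂, dist₂, inten₂, integ₂⟩, he₂, hv₂⟩ := l₂
  simp only [Law.en] at he₁ he₂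
  simp only [Law.var] at hv₁ hv₂
  have ha0₁ : ∀ ω i, 0 ≤ a₁ ω i := by
    intro ω i
    rcases ha01₁ ω i with h | h <;> rw [h] <;> norm_num
  have ha0₂ : ∀ ω i, 0 ≤ a₂ ω i := by
    intro ω i
    rcases ha01₂ ω i with h | h <;> rw [h] <;> norm_num
  obtain ⟨hci, hcv⟩ := l1a_cross_int (P₁ := P₁) (P₂ := P₂) h₁ h₂ hX₁ ha₁ hX₂ ha₂ ha0₁ ha0₂
    inten₁ inten₂
  have hmX : Measurable fun ω : Ω₁ × Ω₂ => Fin.append (X₁ ω.1) (X₂ ω.2) := by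
    rw [measurable_pi_iff]
    intro i
    refine Fin.addCases (fun i => ?_) (fun i => ?_) i
    · simp only [Fin.append_left]
      fun_prop
    · simp only [Fin.append_right]
      fun_prop
  have hma : Measurable fun ω : Ω₁ × Ω₂ => Fin.append (a₁ ω.1) (a₂ ω.2) := by
    rw [measurable_pi_iff]
    intro i
    refine Fin.addCases (fun i => ?_) (fun i => ?_) i
    · simp only [Fin.append_left]
      fun_prop
    · simp only [Fin.append_right]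
      fun_prop
  have hint : Integrable (fun ω : Ω₁ × Ω₂ => ∑ i, ∑ j,
      Fin.append (a₁ ω.1) (a₂ ω.2) i * Fin.append (a₁ ω.1) (a₂ ω.2) j /
        ‖Fin.append (X₁ ω.1) (X₂ ω.2) i - Fin.append (X₁ ω.1) (X₂ ω.2) j‖) (P₁.prod P₂) := by
    simp_rw [l1a_block]
    exact ((integ₁.comp_fst P₂).add (integ₂.comp_snd P₁)).add (hci.const_mul 2)
  have hen : ∫ ω : Ω₁ × Ω₂, ∑ i, ∑ j,
      Fin.append (a₁ ω.1) (a₂ ω.2) i * Fin.append (a₁ ω.1) (a₂ ω.2) j /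
        ‖Fin.append (X₁ ω.1) (X₂ ω.2) i - Fin.append (X₁ ω.1) (X₂ ω.2) j‖ ∂(P₁.prod P₂) =
      (∫ ω, ∑ i, ∑ j, a₁ ω i * a₁ ω j / ‖X₁ ω i - X₁ ω j‖ ∂P₁) +
        (∫ ω, ∑ i, ∑ j, a₂ ω i * a₂ ω j / ‖X₂ ω i - X₂ ω j‖ ∂P₂) +
          2 * ∫ z, l1a_F I₁ I₂ z ∂((volume : Measure E3).prod volume) := by
    simp_rw [l1a_block]
    have hcv' : ∫ ω : Ω₁ × Ω₂, ∑ i, ∑ j, a₁ ω.1 i * a₂ ω.2 j / ‖X₁ ω.1 i - X₂ ω.2 j‖ ∂(P₁.prod P₂) =
      ∫ z, l1a_F I₁ I₂ z ∂((volume : Measure E3).prod volume) := hcv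
    rw [← hcv', integral_add (f := fun ω : Ω₁ × Ω₂ =>
        (∑ i, ∑ j, a₁ ω.1 i * a₁ ω.1 j / ‖X₁ ω.1 i - X₁ ω.1 j‖) +
          (∑ i, ∑ j, a₂ ω.2 i * a₂ ω.2 j / ‖X₂ ω.2 i - X₂ ω.2 j‖))
        (g := fun ω : Ω₁ × Ω₂ => 2 * ∑ i, ∑ j, a₁ ω.1 i * a₂ ω.2 j / ‖X₁ ω.1 i - X₂ ω.2 j‖)
        ((integ₁.comp_fst P₂).add (integ₂.comp_snd P₁)) (hci.const_mul 2),
      integral_add (integ₁.comp_fst P₂) (integ₂.comp_snd P₁), integral_const_mul,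
      integral_fun_fst (fun ω => ∑ i, ∑ j, a₁ ω i * a₁ ω j / ‖X₁ ω i - X₁ ω j‖),
      integral_fun_snd (fun ω => ∑ i, ∑ j, a₂ ω i * a₂ ω j / ‖X₂ ω i - X₂ ω j‖)]
    simp
  refine ⟨⟨Ω₁ × Ω₂, inferInstance, P₁.prod P₂, inferInstance, M₁ + M₂,
    fun ω => Fin.append (X₁ ω.1) (X₂ ω.2), fun ω => Fin.append (a₁ ω.1) (a₂ ω.2), hmX, hma,
    ?_, ?_, ?_, hint⟩, ?_, ?_⟩
  · intro ω i
    refine Fin.addCases (fun i => ?_) (fun i => ?_) i
    · simp only [Fin.append_left]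
      exact ha01₁ _ _
    · simp only [Fin.append_right]
      exact ha01₂ _ _
  · have hd := l1a_disj (P₁ := P₁) (P₂ := P₂) hX₁ ha₁ hX₂ ha₂ inten₂
    have hd1 : ∀ᵐ ω ∂(P₁.prod P₂), ∀ i j, i ≠ j → a₁ ω.1 i = 1 → a₁ ω.1 j = 1 →
        X₁ ω.1 i ≠ X₁ ω.1 j := measurePreserving_fst.quasiMeasurePreserving.ae dist₁
    have hd2 : ∀ᵐ ω ∂(P₁.prod P₂), ∀ i j, i ≠ j → a₂ ω.2 i = 1 → a₂ ω.2 j = 1 →
        X₂ ω.2 i ≠ X₂ ω.2 j := measurePreserving_snd.quasiMeasurePreserving.ae dist₂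
    filter_upwards [hd, hd1, hd2] with ω h h1 h2
    intro i
    refine Fin.addCases (fun i => ?_) (fun i => ?_) i
    · intro j
      refine Fin.addCases (fun j => ?_) (fun j => ?_) j
      · simp only [Fin.append_left]
        intro hij
        exact h1 i j (fun e => hij (by rw [e]))
      · simp only [Fin.append_left, Fin.append_right]
        intro _ _ hj
        exact h i j hj
    · intro j
      refine Fin.addCases (fun j => ?_) (fun j => ?_) j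
      · simp only [Fin.append_left, Fin.append_right]
        intro _ hi _
        exact (h j i hi).symm
      · simp only [Fin.append_right]
        intro hij
        exact h2 i j (fun e => hij (by rw [e]))
  · intro f hf
    simp only [Fin.sum_univ_add, Fin.append_left, Fin.append_right]
    have hm1 : Measurable fun ω : Ω₁ => ∑ i, ENNReal.ofReal (a₁ ω i) * f (X₁ ω i) :=
      Finset.measurable_sum _ fun i _ => by fun_prop
    have hm2 : Measurable fun ω : Ω₂ => ∑ i, ENNReal.ofReal (a₂ ω i) * f (X₂ ω i) :=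
      Finset.measurable_sum _ fun i _ => by fun_prop
    have hI₁m := h₁.meas
    have hI₂m := h₂.meas
    have e1 : ∫⁻ ω : Ω₁ × Ω₂, ∑ x, ENNReal.ofReal (a₁ ω.1 x) * f (X₁ ω.1 x) ∂(P₁.prod P₂) =
        ∫⁻ x, ENNReal.ofReal (I₁ x) * f x := by
      rw [← inten₁ f hf]
      exact (measurePreserving_fst (μ := P₁) (ν := P₂)).lintegral_comp hm1
    have e2 : ∫⁻ ω : Ω₁ × Ω₂, ∑ x, ENNReal.ofReal (a₂ ω.2 x) * f (X₂ ω.2 x) ∂(P₁.prod P₂) =
        ∫⁻ x, ENNReal.ofReal (I₂ x) * f x := by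
      rw [← inten₂ f hf]
      exact (measurePreserving_snd (μ := P₁) (ν := P₂)).lintegral_comp hm2
    rw [lintegral_add_left (f := fun ω : Ω₁ × Ω₂ => ∑ x, ENNReal.ofReal (a₁ ω.1 x) * f (X₁ ω.1 x))
        (hm1.comp measurable_fst), e1, e2, ← lintegral_add_left (by fun_prop)]
    refine lintegral_congr fun x => ?_
    rw [ENNReal.ofReal_add (h₁.nonneg x) (h₂.nonneg x), add_mul]
  · simp only [Law.en]
    rw [hen, l1a_F_add I₁ I₂ h₁ h₂]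
    linarith
  · simp only [Law.var]
    obtain ⟨hi1, hm1⟩ := l1a_mean (X₁ := X₁) h₁ ha₁ ha01₁ inten₁
    obtain ⟨hi2, hm2⟩ := l1a_mean (X₁ := X₂) h₂ ha₂ ha01₂ inten₂
    have hb1 : ∀ ω, ‖∑ i, a₁ ω i - ∫ x, I₁ x‖ ≤ M₁ + |∫ x, I₁ x| := by
      intro ω
      refine (norm_sub_le _ _).trans (add_le_add ?_ le_rfl)
      refine (norm_sum_le _ _).trans ?_
      calc ∑ i, ‖a₁ ω i‖ ≤ ∑ i : Fin M₁, (1 : ℝ) := Finset.sum_le_sum fun i _ => by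
            rcases ha01₁ ω i with h | h <;> rw [h] <;> simp
        _ = M₁ := by simp
    have hb2 : ∀ ω, ‖∑ i, a₂ ω i - ∫ x, I₂ x‖ ≤ M₂ + |∫ x, I₂ x| := by
      intro ω
      refine (norm_sub_le _ _).trans (add_le_add ?_ le_rfl)
      refine (norm_sum_le _ _).trans ?_
      calc ∑ i, ‖a₂ ω i‖ ≤ ∑ i : Fin M₂, (1 : ℝ) := Finset.sum_le_sum fun i _ => by
            rcases ha01₂ ω i with h | h <;> rw [h] <;> simp
        _ = M₂ := by simp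
    have hf1 : Integrable (fun ω => ∑ i, a₁ ω i - ∫ x, I₁ x) P₁ := hi1.sub (integrable_const _)
    have hf2 : Integrable (fun ω => ∑ i, a₂ ω i - ∫ x, I₂ x) P₂ := hi2.sub (integrable_const _)
    have hg1 : Integrable (fun ω => (∑ i, a₁ ω i - ∫ x, I₁ x) ^ 2) P₁ := by
      refine Integrable.of_bound (C := (M₁ + |∫ x, I₁ x|) ^ 2) (hf1.1.pow 2)
        (Filter.Eventually.of_forall fun ω => ?_)
      rw [norm_pow]
      exact pow_le_pow_left₀ (norm_nonneg _) (hb1 ω) 2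
    have hg2 : Integrable (fun ω => (∑ i, a₂ ω i - ∫ x, I₂ x) ^ 2) P₂ := by
      refine Integrable.of_bound (C := (M₂ + |∫ x, I₂ x|) ^ 2) (hf2.1.pow 2)
        (Filter.Eventually.of_forall fun ω => ?_)
      rw [norm_pow]
      exact pow_le_pow_left₀ (norm_nonneg _) (hb2 ω) 2
    have h0 : ∫ ω, (∑ i, a₁ ω i - ∫ x, I₁ x) ∂P₁ = 0 := by
      rw [integral_sub hi1 (integrable_const _), hm1]
      simp
    have hv := l1a_var (P₁ := P₁) (P₂ := P₂) hf1 hf2 hg1 hg2 h0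
    refine le_trans (le_of_eq ?_) (add_le_add hv₁ hv₂)
    rw [← hv, integral_add h₁.int h₂.int]
    refine integral_congr_ae (Filter.Eventually.of_forall fun ω => ?_)
    simp only [Fin.sum_univ_add, Fin.append_left, Fin.append_right]
    ring

end Pool.Agent.H5R2.NL
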