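import Mathlib
import Pool.Agent.H5R2.NL.Defs
import Pool.Agent.H5R2.NL.Int
import Pool.Agent.H5R2.NL.Pot

/-!
# Calculus of laws: independent points, scaling
-/

set_option autoImplicit false

noncomputable section

namespace Pool.Agent.H5R2.NL

open MeasureTheory Metric
open scoped ENNReal

/-! ### Scaling -/

theorem law1b_lcov (g : E3 → ℝ≥0∞) (hg : Measurable g) (lam : ℝ) (hl : 0 < lam) (c : E3) :
    ∫⁻ x, g x = ENNReal.ofReal (lam ^ 3) * ∫⁻ x, g (lam • x + c) := by
  have h1 : ∫⁻ x, g (lam • x + c) = ∫⁻ y, g (y + c) ∂(Measure.map (fun x : E3 => lam • x) volume) := by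
    rw [lintegral_map (by fun_prop) (by fun_prop)]
  rw [h1, Measure.map_addHaar_smul _ hl.ne', lintegral_smul_measure, smul_eq_mul,
    lintegral_add_right_eq_self g c]
  rw [finrank_euclideanSpace_fin, ← mul_assoc, ← ENNReal.ofReal_mul (by positivity),
    abs_of_pos (by positivity), mul_inv_cancel₀ (by positivity), ENNReal.ofReal_one, one_mul]

theorem law1b_cov (g : E3 → ℝ) (lam : ℝ) (hl : 0 < lam) (c : E3) :
    ∫ x, g x = lam ^ 3 * ∫ x, g (lam • x + c) := by
  have h1 := Measure.integral_comp_smul (volume : Measure E3) (fun x => g (x + c)) lam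
  rw [h1, integral_add_right_eq_self g c, finrank_euclideanSpace_fin, smul_eq_mul,
    abs_of_pos (by positivity), ← mul_assoc, mul_inv_cancel₀ (by positivity), one_mul]

theorem hasLaw_scale (I : E3 → ℝ) (h : Nice I) (e v lam : ℝ) (c : E3) (hl : 0 < lam)
    (l : HasLaw I e v) :
    HasLaw (fun x => (lam ^ 3)⁻¹ * I (lam⁻¹ • (x - c))) (e / lam) v := by
  obtain ⟨l, he, hv⟩ := l
  have hsub : ∀ x : E3, lam⁻¹ • (lam • x + c - c) = x := by
    intro x
    rw [add_sub_cancel_right, smul_smul, inv_mul_cancel₀ hl.ne', one_smul]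
  have hdist : ∀ x y : E3, ‖(lam • x + c) - (lam • y + c)‖ = lam * ‖x - y‖ := by
    intro x y
    rw [add_sub_add_right_eq_sub, ← smul_sub, norm_smul, Real.norm_eq_abs, abs_of_pos hl]
  let _ := l.mΩ
  have hin : ∀ ω, ∑ i, ∑ j, l.a ω i * l.a ω j / ‖(lam • l.X ω i + c) - (lam • l.X ω j + c)‖ =
      lam⁻¹ * ∑ i, ∑ j, l.a ω i * l.a ω j / ‖l.X ω i - l.X ω j‖ := by
    intro ω
    rw [Finset.mul_sum]
    refine Finset.sum_congr rfl fun i _ => ?_
    rw [Finset.mul_sum]
    refine Finset.sum_congr rfl fun j _ => ?_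
    rw [hdist, div_mul_eq_div_div_swap, div_eq_inv_mul _ lam]
  let l' : Law (fun x => (lam ^ 3)⁻¹ * I (lam⁻¹ • (x - c))) :=
    { Ω := l.Ω
      mΩ := l.mΩ
      P := l.P
      prob := l.prob
      M := l.M
      X := fun ω i => lam • l.X ω i + c
      a := l.a
      hX := by
        have := l.hX
        rw [measurable_pi_iff] at this ⊢
        intro i
        exact ((this i).const_smul lam).add_const c
      ha := l.ha
      ha01 := l.ha01
      distinct := by
        filter_upwards [l.distinct] with ω hω i j hij hi hj heq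
        refine hω i j hij hi hj ?_
        have h1 : lam • l.X ω i = lam • l.X ω j := add_right_cancel heq
        exact smul_right_injective _ hl.ne' h1
      intensity := by
        intro f hf
        have h1 := l.intensity (fun x => f (lam • x + c)) (by fun_prop)
        rw [h1]
        have hm : Measurable fun x => ENNReal.ofReal ((lam ^ 3)⁻¹ * I (lam⁻¹ • (x - c))) * f x := by
          have := h.meas
          fun_prop
        rw [law1b_lcov _ hm lam hl c, ← lintegral_const_mul _ (by
          have := h.meas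
          fun_prop)]
        refine lintegral_congr fun x => ?_
        rw [hsub, ENNReal.ofReal_mul (by positivity), ← mul_assoc, ← mul_assoc,
          ← ENNReal.ofReal_mul (by positivity), mul_inv_cancel₀ (by positivity),
          ENNReal.ofReal_one, one_mul]
      integ := by
        simp only [hin]
        exact l.integ.const_mul _ }
  refine ⟨l', ?_, ?_⟩
  · have h1 : l'.en = l.en / lam := by
      unfold Law.en
      have h2 : ∀ ω, ∑ i, ∑ j, l'.a ω i * l'.a ω j / ‖l'.X ω i - l'.X ω j‖ =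
        lam⁻¹ * ∑ i, ∑ j, l.a ω i * l.a ω j / ‖l.X ω i - l.X ω j‖ := hin
      simp only [h2]
      have h3 : (∫ x, ∫ y, ((lam ^ 3)⁻¹ * I (lam⁻¹ • (x - c))) *
          ((lam ^ 3)⁻¹ * I (lam⁻¹ • (y - c))) / ‖x - y‖) =
          lam⁻¹ * ∫ x, ∫ y, I x * I y / ‖x - y‖ := by
        rw [law1b_cov _ lam hl c]
        have h4 : ∀ x : E3, (∫ y, ((lam ^ 3)⁻¹ * I (lam⁻¹ • (lam • x + c - c))) *
          ((lam ^ 3)⁻¹ * I (lam⁻¹ • (y - c))) / ‖lam • x + c - y‖) =
            (lam ^ 3)⁻¹ * lam⁻¹ * ∫ y, I x * I y / ‖x - y‖ := by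
          intro x
          rw [law1b_cov _ lam hl c, ← integral_const_mul, ← integral_const_mul]
          refine integral_congr_ae (Filter.Eventually.of_forall fun y => ?_)
          simp only [hsub, hdist]
          field_simp
        simp only [h4]
        rw [integral_const_mul, ← mul_assoc]
        congr 1
        field_simp
      rw [h3, integral_const_mul]
      change 1 / 2 * (lam⁻¹ * ∫ ω, ∑ i, ∑ j, l.a ω i * l.a ω j / ‖l.X ω i - l.X ω j‖ ∂l.P) -
        1 / 2 * (lam⁻¹ * ∫ x, ∫ y, I x * I y / ‖x - y‖) = _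
      field_simp
    rw [h1]
    exact div_le_div_of_nonneg_right he hl.le
  · have h1 : l'.var = l.var := by
      unfold Law.var
      have h2 : (∫ x, (lam ^ 3)⁻¹ * I (lam⁻¹ • (x - c))) = ∫ x, I x := by
        rw [law1b_cov _ lam hl c]
        simp only [hsub]
        rw [integral_const_mul, ← mul_assoc, mul_inv_cancel₀ (by positivity), one_mul]
      rw [h2]
    rw [h1]
    exact hv

/-! ### Independent points -/

/-- the value of a mark -/
def law1bM (b : Bool) : ℝ := if b then 1 else 0

theorem law1bM_meas : Measurable law1bM := measurable_of_finite _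

theorem law1bM_nonneg (b : Bool) : 0 ≤ law1bM b := by
  unfold law1bM; split_ifs <;> norm_num

/-- one marked point: present with probability `(∫ I) / M`, with density proportional to `I` -/
def law1bmu (I : E3 → ℝ) (M : ℝ) : Measure (E3 × Bool) :=
  ENNReal.ofReal (1 / M) • Measure.map (fun x : E3 => (x, true))
      (volume.withDensity fun x => ENNReal.ofReal (I x))
    + ENNReal.ofReal (1 - (∫ x, I x) / M) • Measure.dirac ((0 : E3), false)

theorem law1b_lint {I : E3 → ℝ} (hI : Nice I) (M : ℝ) (F : E3 × Bool → ℝ≥0∞)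
    (hF : Measurable F) :
    ∫⁻ y, F y ∂(law1bmu I M) =
      ENNReal.ofReal (1 / M) * (∫⁻ x, ENNReal.ofReal (I x) * F (x, true)) +
        ENNReal.ofReal (1 - (∫ x, I x) / M) * F (0, false) := by
  unfold law1bmu
  rw [lintegral_add_measure, lintegral_smul_measure, lintegral_smul_measure,
    lintegral_map hF (by fun_prop), lintegral_dirac' _ hF, smul_eq_mul, smul_eq_mul,
    lintegral_withDensity_eq_lintegral_mul _ hI.meas.ennreal_ofReal (by fun_prop)]
  rfl

theorem law1b_prob {I : E3 → ℝ} (hI : Nice I) (M : ℝ) (hM : 0 < M) (hIM : ∫ x, I x ≤ M) :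
    IsProbabilityMeasure (law1bmu I M) := by
  refine ⟨?_⟩
  have h := law1b_lint hI M (fun _ => 1) measurable_const
  simp only [lintegral_const, one_mul, mul_one] at h
  rw [h, pot_lint_I hI, ← ENNReal.ofReal_mul (by positivity), ← ENNReal.ofReal_add]
  · rw [show 1 / M * (∫ x, I x) + (1 - (∫ x, I x) / M) = 1 by ring, ENNReal.ofReal_one]
  · have : 0 ≤ ∫ x, I x := integral_nonneg hI.nonneg
    positivity
  · rw [sub_nonneg, div_le_one hM]
    exact hIM

theorem law1b_key {I : E3 → ℝ} (hI : Nice I) (M : ℝ) (f : E3 → ℝ≥0∞) (hf : Measurable f) :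
    ∫⁻ y, ENNReal.ofReal (law1bM y.2) * f y.1 ∂(law1bmu I M) =
      ENNReal.ofReal (1 / M) * ∫⁻ x, ENNReal.ofReal (I x) * f x := by
  have hm : Measurable fun y : E3 × Bool => ENNReal.ofReal (law1bM y.2) * f y.1 :=
    (law1bM_meas.comp measurable_snd).ennreal_ofReal.mul (hf.comp measurable_fst)
  rw [law1b_lint hI M _ hm]
  simp [law1bM]

theorem law1b_pair {n : ℕ} (μ : Measure (E3 × Bool)) [IsProbabilityMeasure μ] (i j : Fin n)
    (hij : i ≠ j) (G : (E3 × Bool) → (E3 × Bool) → ℝ≥0∞)
    (hG : Measurable fun p : (E3 × Bool) × (E3 × Bool) => G p.1 p.2) :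
    ∫⁻ ω, G (ω i) (ω j) ∂(Measure.pi fun _ : Fin n => μ) = ∫⁻ y, ∫⁻ y', G y y' ∂μ ∂μ := by
  have h1 := (ProbabilityTheory.iIndepFun_pi (μ := fun _ : Fin n => μ)
    (X := fun _ => (id : E3 × Bool → E3 × Bool)) (fun _ => aemeasurable_id)).indepFun hij
  have hev : ∀ k : Fin n, AEMeasurable (fun ω : Fin n → E3 × Bool => id (ω k))
      (Measure.pi fun _ : Fin n => μ) := fun k => (measurable_pi_apply k).aemeasurable
  have h2 := (ProbabilityTheory.indepFun_iff_map_prod_eq_prod_map_map
    (hev i) (hev j)).1 h1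
  simp only [id_eq] at h2
  have h3 : ∀ k : Fin n, Measure.map (fun ω : Fin n → E3 × Bool => ω k)
      (Measure.pi fun _ : Fin n => μ) = μ :=
    fun k => (measurePreserving_eval (fun _ : Fin n => μ) k).map_eq
  rw [h3 i, h3 j] at h2
  rw [← lintegral_prod _ hG.aemeasurable, ← h2, lintegral_map hG (by fun_prop)]

theorem law1b_pe {I : E3 → ℝ} (hI : Nice I) (n : ℕ) (hn0 : (0 : ℝ) < n)
    (hIn : ∫ x, I x ≤ n) (i j : Fin n) (hij : i ≠ j) :
    Integrable (fun ω : Fin n → E3 × Bool =>
      law1bM (ω i).2 * law1bM (ω j).2 / ‖(ω i).1 - (ω j).1‖)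
        (Measure.pi fun _ => law1bmu I n) ∧
    ∫ ω : Fin n → E3 × Bool, law1bM (ω i).2 * law1bM (ω j).2 / ‖(ω i).1 - (ω j).1‖
        ∂(Measure.pi fun _ => law1bmu I n) = 1 / (n : ℝ) * (1 / n * (potD I I).toReal) := by
  have hpr : IsProbabilityMeasure (law1bmu I n) := law1b_prob hI n hn0 hIn
  have hnn : ∀ ω : Fin n → E3 × Bool,
      0 ≤ law1bM (ω i).2 * law1bM (ω j).2 / ‖(ω i).1 - (ω j).1‖ := fun ω =>
    div_nonneg (mul_nonneg (law1bM_nonneg _) (law1bM_nonneg _)) (norm_nonneg _)
  have hmb : ∀ k : Fin n, Measurable fun ω : Fin n → E3 × Bool => law1bM (ω k).2 :=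
    fun k => law1bM_meas.comp (by fun_prop)
  have hm : Measurable fun ω : Fin n → E3 × Bool =>
      law1bM (ω i).2 * law1bM (ω j).2 / ‖(ω i).1 - (ω j).1‖ := by
    have := hmb i
    have := hmb j
    fun_prop
  have hG : Measurable fun p : (E3 × Bool) × (E3 × Bool) =>
      ENNReal.ofReal (law1bM p.1.2) * (ENNReal.ofReal (law1bM p.2.2) *
        ENNReal.ofReal (1 / ‖p.1.1 - p.2.1‖)) :=
    ((law1bM_meas.comp (by fun_prop)).ennreal_ofReal).mul
      (((law1bM_meas.comp (by fun_prop)).ennreal_ofReal).mul (by fun_prop))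
  have h1 : ∫⁻ ω : Fin n → E3 × Bool,
      ENNReal.ofReal (law1bM (ω i).2 * law1bM (ω j).2 / ‖(ω i).1 - (ω j).1‖)
        ∂(Measure.pi fun _ => law1bmu I n) =
      ENNReal.ofReal (1 / n) * (ENNReal.ofReal (1 / n) * potD I I) := by
    have h2 : ∀ ω : Fin n → E3 × Bool,
        ENNReal.ofReal (law1bM (ω i).2 * law1bM (ω j).2 / ‖(ω i).1 - (ω j).1‖) =
        ENNReal.ofReal (law1bM (ω i).2) * (ENNReal.ofReal (law1bM (ω j).2) *
          ENNReal.ofReal (1 / ‖(ω i).1 - (ω j).1‖)) := by
      intro ω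
      rw [← ENNReal.ofReal_mul (law1bM_nonneg _), ← ENNReal.ofReal_mul (law1bM_nonneg _),
        mul_one_div, mul_div_assoc]
    simp only [h2]
    rw [law1b_pair (law1bmu I n) i j hij (fun y y' => ENNReal.ofReal (law1bM y.2) *
      (ENNReal.ofReal (law1bM y'.2) * ENNReal.ofReal (1 / ‖y.1 - y'.1‖))) hG]
    have h3 : ∀ y : E3 × Bool, ∫⁻ y' : E3 × Bool, ENNReal.ofReal (law1bM y.2) *
        (ENNReal.ofReal (law1bM y'.2) * ENNReal.ofReal (1 / ‖y.1 - y'.1‖)) ∂(law1bmu I n) =
        ENNReal.ofReal (law1bM y.2) * (ENNReal.ofReal (1 / n) *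
          ∫⁻ x, ENNReal.ofReal (I x) * ENNReal.ofReal (1 / ‖y.1 - x‖)) := by
      intro y
      have hmy : Measurable fun y' : E3 × Bool =>
          ENNReal.ofReal (law1bM y'.2) * ENNReal.ofReal (1 / ‖y.1 - y'.1‖) :=
        ((law1bM_meas.comp measurable_snd).ennreal_ofReal).mul (by fun_prop)
      rw [lintegral_const_mul _ hmy,
        law1b_key hI n (fun x => ENNReal.ofReal (1 / ‖y.1 - x‖)) (by fun_prop)]
    simp only [h3]
    have hin := pot_inner_meas hI
    rw [law1b_key hI n (fun z => ENNReal.ofReal (1 / n) *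
      ∫⁻ x, ENNReal.ofReal (I x) * ENNReal.ofReal (1 / ‖z - x‖)) (hin.const_mul _)]
    congr 1
    unfold potD
    have hmx : Measurable fun x : E3 => ENNReal.ofReal (I x) *
        ∫⁻ y, ENNReal.ofReal (I y) * ENNReal.ofReal (1 / ‖x - y‖) :=
      hI.meas.ennreal_ofReal.mul hin
    rw [← lintegral_const_mul _ hmx]
    refine lintegral_congr fun x => ?_
    rw [mul_left_comm]
  have hfin : ENNReal.ofReal (1 / n) * (ENNReal.ofReal (1 / n) * potD I I) < ⊤ :=
    ENNReal.mul_lt_top ENNReal.ofReal_lt_top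
      (ENNReal.mul_lt_top ENNReal.ofReal_lt_top (potD_lt_top hI hI))
  constructor
  · refine ⟨hm.aestronglyMeasurable, ?_⟩
    rw [hasFiniteIntegral_iff_ofReal (Filter.Eventually.of_forall hnn), h1]
    exact hfin
  · rw [integral_eq_lintegral_of_nonneg_ae (Filter.Eventually.of_forall hnn)
      hm.aestronglyMeasurable, h1, ENNReal.toReal_mul, ENNReal.toReal_mul,
      ENNReal.toReal_ofReal (by positivity)]

theorem law1b_en {I : E3 → ℝ} (hI : Nice I) (n : ℕ) (hn0 : (0 : ℝ) < n)
    (hIn : ∫ x, I x ≤ n) :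
    Integrable (fun ω : Fin n → E3 × Bool =>
      ∑ i, ∑ j, law1bM (ω i).2 * law1bM (ω j).2 / ‖(ω i).1 - (ω j).1‖)
        (Measure.pi fun _ => law1bmu I n) ∧
    ∫ ω : Fin n → E3 × Bool, ∑ i, ∑ j, law1bM (ω i).2 * law1bM (ω j).2 / ‖(ω i).1 - (ω j).1‖
        ∂(Measure.pi fun _ => law1bmu I n) ≤ (potD I I).toReal := by
  have hD : 0 ≤ (potD I I).toReal := ENNReal.toReal_nonneg
  have hint : ∀ i j : Fin n, Integrable (fun ω : Fin n → E3 × Bool =>
      law1bM (ω i).2 * law1bM (ω j).2 / ‖(ω i).1 - (ω j).1‖)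
        (Measure.pi fun _ => law1bmu I n) := by
    intro i j
    by_cases hij : i = j
    · subst hij
      simp
    · exact (law1b_pe hI n hn0 hIn i j hij).1
  have hval : ∀ i j : Fin n, ∫ ω : Fin n → E3 × Bool,
      law1bM (ω i).2 * law1bM (ω j).2 / ‖(ω i).1 - (ω j).1‖
        ∂(Measure.pi fun _ => law1bmu I n) ≤ 1 / (n : ℝ) * (1 / n * (potD I I).toReal) := by
    intro i j
    by_cases hij : i = j
    · subst hij
      simp only [sub_self, norm_zero, div_zero, integral_zero]
      positivity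
    · exact (law1b_pe hI n hn0 hIn i j hij).2.le
  refine ⟨integrable_finsetSum _ fun i _ => integrable_finsetSum _ fun j _ => hint i j, ?_⟩
  rw [integral_finsetSum _ fun i _ => integrable_finsetSum _ fun j _ => hint i j]
  have h1 : ∀ i : Fin n, ∫ ω : Fin n → E3 × Bool,
      ∑ j, law1bM (ω i).2 * law1bM (ω j).2 / ‖(ω i).1 - (ω j).1‖
        ∂(Measure.pi fun _ => law1bmu I n) ≤
        ∑ _j : Fin n, 1 / (n : ℝ) * (1 / n * (potD I I).toReal) := by
    intro i
    rw [integral_finsetSum _ fun j _ => hint i j]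
    exact Finset.sum_le_sum fun j _ => hval i j
  refine (Finset.sum_le_sum fun i _ => h1 i).trans (le_of_eq ?_)
  simp only [Finset.sum_const, Finset.card_univ, Fintype.card_fin, nsmul_eq_mul]
  field_simp

/-- the independent points -/
def law1bLaw (I : E3 → ℝ) (hI : Nice I) : Law I := by
  classical
  set n : ℕ := ⌊∫ x, I x⌋₊ + 1 with hn
  have hn0 : (0 : ℝ) < n := by positivity
  have hIn : ∫ x, I x ≤ n := by
    rw [hn]
    push_cast
    exact (Nat.lt_floor_add_one _).le
  have hpr : IsProbabilityMeasure (law1bmu I n) := law1b_prob hI n hn0 hIn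
  exact
  { Ω := Fin n → E3 × Bool
    mΩ := inferInstance
    P := Measure.pi fun _ => law1bmu I n
    prob := inferInstance
    M := n
    X := fun ω i => (ω i).1
    a := fun ω i => law1bM (ω i).2
    hX := by fun_prop
    ha := by
      rw [measurable_pi_iff]
      intro i
      exact law1bM_meas.comp (by fun_prop)
    ha01 := by
      intro ω i
      unfold law1bM
      split_ifs <;> simp
    distinct := by
      rw [ae_all_iff]
      intro i
      rw [ae_all_iff]
      intro j
      by_cases hij : i = j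
      · exact Filter.Eventually.of_forall fun ω h => absurd hij h
      have hG : Measurable fun p : (E3 × Bool) × (E3 × Bool) =>
          ENNReal.ofReal (law1bM p.1.2) * (ENNReal.ofReal (law1bM p.2.2) *
            Set.indicator {q : E3 × E3 | q.1 = q.2} (fun _ => (1 : ℝ≥0∞)) (p.1.1, p.2.1)) := by
        refine ((law1bM_meas.comp (by fun_prop)).ennreal_ofReal).mul
          (((law1bM_meas.comp (by fun_prop)).ennreal_ofReal).mul ?_)
        refine (measurable_const.indicator ?_).comp (by fun_prop)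
        exact measurableSet_eq_fun measurable_fst measurable_snd
      have h1 := law1b_pair (law1bmu I n) i j hij (fun y y' =>
          ENNReal.ofReal (law1bM y.2) * (ENNReal.ofReal (law1bM y'.2) *
            Set.indicator {q : E3 × E3 | q.1 = q.2} (fun _ => (1 : ℝ≥0∞)) (y.1, y'.1))) hG
      have h2 : ∀ y : E3 × Bool, ∫⁻ y' : E3 × Bool, ENNReal.ofReal (law1bM y.2) *
          (ENNReal.ofReal (law1bM y'.2) *
            Set.indicator {q : E3 × E3 | q.1 = q.2} (fun _ => (1 : ℝ≥0∞)) (y.1, y'.1))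
              ∂(law1bmu I n) = 0 := by
        intro y
        have hm : Measurable fun x' : E3 =>
            Set.indicator {q : E3 × E3 | q.1 = q.2} (fun _ => (1 : ℝ≥0∞)) (y.1, x') :=
          (measurable_const.indicator (measurableSet_eq_fun measurable_fst measurable_snd)).comp
            (by fun_prop)
        rw [lintegral_const_mul _ (by
          exact ((law1bM_meas.comp measurable_snd).ennreal_ofReal).mul
            (hm.comp measurable_fst)), law1b_key hI n _ hm]
        have h3 : ∫⁻ x : E3, ENNReal.ofReal (I x) *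
            Set.indicator {q : E3 × E3 | q.1 = q.2} (fun _ => (1 : ℝ≥0∞)) (y.1, x) = 0 := by
          refine (lintegral_eq_zero_iff (hI.meas.ennreal_ofReal.mul hm)).2 ?_
          have h4 : ∀ᵐ x : E3, x ≠ y.1 := by
            rw [ae_iff]
            simp
          filter_upwards [h4] with x hx
          simp [Set.indicator, Ne.symm hx]
        rw [h3, mul_zero, mul_zero]
      simp only [h2, lintegral_zero] at h1
      have hG2 : Measurable fun ω : Fin n → E3 × Bool =>
          ENNReal.ofReal (law1bM (ω i).2) * (ENNReal.ofReal (law1bM (ω j).2) *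
            Set.indicator {q : E3 × E3 | q.1 = q.2} (fun _ => (1 : ℝ≥0∞))
              ((ω i).1, (ω j).1)) := hG.comp (f := fun ω : Fin n → E3 × Bool => (ω i, ω j))
                (by fun_prop)
      rw [lintegral_eq_zero_iff hG2] at h1
      filter_upwards [h1] with ω hω _ hi hj heq
      simp only [hi, hj, heq, Pi.zero_apply, ENNReal.ofReal_one, one_mul] at hω
      simp [Set.indicator] at hω
    intensity := by
      intro f hf
      rw [lintegral_finsetSum _ fun i _ => by
        exact ((law1bM_meas.comp (by fun_prop)).ennreal_ofReal).mul (hf.comp (by fun_prop))]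
      have h1 : ∀ i : Fin n, ∫⁻ ω : Fin n → E3 × Bool, ENNReal.ofReal (law1bM (ω i).2) *
          f (ω i).1 ∂(Measure.pi fun _ => law1bmu I n) =
          ENNReal.ofReal (1 / n) * ∫⁻ x, ENNReal.ofReal (I x) * f x := by
        intro i
        rw [← law1b_key hI n f hf]
        have := (measurePreserving_eval (fun _ : Fin n => law1bmu I n) i).lintegral_comp
          (f := fun y : E3 × Bool => ENNReal.ofReal (law1bM y.2) * f y.1)
          ((law1bM_meas.comp measurable_snd).ennreal_ofReal.mul (hf.comp measurable_fst))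
        exact this
      simp only [h1, Finset.sum_const, Finset.card_univ, Fintype.card_fin, nsmul_eq_mul]
      rw [← mul_assoc, ← ENNReal.ofReal_natCast, ← ENNReal.ofReal_mul (by positivity),
        mul_one_div_cancel hn0.ne', ENNReal.ofReal_one, one_mul]
    integ := (law1b_en hI n hn0 hIn).1 }

theorem law1b_var {I : E3 → ℝ} (hI : Nice I) (n : ℕ) (hn0 : (0 : ℝ) < n)
    (hIn : ∫ x, I x ≤ n) (hIn' : n ≤ (∫ x, I x) + 1) :
    ∫ ω : Fin n → E3 × Bool, (∑ i, law1bM (ω i).2 - (∫ x, I x)) ^ 2
        ∂(Measure.pi fun _ => law1bmu I n) ≤ 1 := by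
  have hpr : IsProbabilityMeasure (law1bmu I n) := law1b_prob hI n hn0 hIn
  have hm0 : 0 ≤ ∫ x, I x := integral_nonneg hI.nonneg
  set m : ℝ := ∫ x, I x with hm
  have hY : Measurable fun y : E3 × Bool => law1bM y.2 := law1bM_meas.comp measurable_snd
  have hYb : ∀ y : E3 × Bool, ‖law1bM y.2‖ ≤ 1 := by
    intro y
    unfold law1bM
    split_ifs <;> simp
  have hLp : MemLp (fun y : E3 × Bool => law1bM y.2) 2 (law1bmu I n) :=
    MemLp.of_bound hY.aestronglyMeasurable 1 (Filter.Eventually.of_forall hYb)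
  have hE : ∫ y, law1bM y.2 ∂(law1bmu I n) = m / n := by
    rw [integral_eq_lintegral_of_nonneg_ae (Filter.Eventually.of_forall fun y =>
      law1bM_nonneg _) hY.aestronglyMeasurable]
    have := law1b_key hI n (fun _ => 1) measurable_const
    simp only [mul_one] at this
    rw [this, pot_lint_I hI, ENNReal.toReal_mul, ENNReal.toReal_ofReal (by positivity),
      ENNReal.toReal_ofReal hm0]
    ring
  have hE2 : ∫ y, (fun y : E3 × Bool => law1bM y.2) y ^ 2 ∂(law1bmu I n) = m / n := by
    rw [← hE]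
    refine integral_congr_ae (Filter.Eventually.of_forall fun y => ?_)
    simp only [law1bM]
    split_ifs <;> simp
  have hV := ProbabilityTheory.variance_sum_pi (μ := fun _ : Fin n => law1bmu I n)
    (X := fun _ (y : E3 × Bool) => law1bM y.2) fun _ => hLp
  have hEs : ∫ ω : Fin n → E3 × Bool, (∑ i, fun ω : Fin n → E3 × Bool => law1bM (ω i).2) ω
      ∂(Measure.pi fun _ => law1bmu I n) = m := by
    simp only [Finset.sum_apply]
    rw [integral_finsetSum]
    · have h1 : ∀ i : Fin n, ∫ ω : Fin n → E3 × Bool, law1bM (ω i).2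
          ∂(Measure.pi fun _ => law1bmu I n) = m / n := by
        intro i
        rw [← hE]
        have h2 := (measurePreserving_eval (fun _ : Fin n => law1bmu I n) i).map_eq
        conv_rhs => rw [← h2]
        rw [integral_map (measurable_pi_apply i).aemeasurable hY.aestronglyMeasurable]
      simp only [h1, Finset.sum_const, Finset.card_univ, Fintype.card_fin, nsmul_eq_mul]
      field_simp
    · intro i _
      exact Integrable.of_bound (law1bM_meas.comp (by fun_prop)).aestronglyMeasurable 1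
        (Filter.Eventually.of_forall fun ω => hYb (ω i))
  rw [ProbabilityTheory.variance_eq_integral, hEs] at hV
  · simp only [Finset.sum_apply] at hV
    rw [hV]
    have hv1 : ProbabilityTheory.variance (fun y : E3 × Bool => law1bM y.2) (law1bmu I n) =
        m / n - (m / n) ^ 2 := by
      rw [ProbabilityTheory.variance_eq_sub hLp, hE]
      congr 1
    simp only [hv1, Finset.sum_const, Finset.card_univ, Fintype.card_fin, nsmul_eq_mul]
    have h1 : (n : ℝ) * (m / n - (m / n) ^ 2) = m * (n - m) / n := by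
      field_simp
    rw [h1, div_le_one hn0]
    nlinarith
  · exact Finset.aemeasurable_sum _ fun i _ =>
      (law1bM_meas.comp (by fun_prop)).aemeasurable

theorem hasLaw_iid (I : E3 → ℝ) (h : Nice I) : HasLaw I 0 1 := by
  have hn0 : (0 : ℝ) < (⌊∫ x, I x⌋₊ + 1 : ℕ) := by positivity
  have hIn : ∫ x, I x ≤ (⌊∫ x, I x⌋₊ + 1 : ℕ) := by
    push_cast
    exact (Nat.lt_floor_add_one _).le
  refine ⟨law1bLaw I h, ?_, ?_⟩
  · unfold Law.en
    rw [pot_double h h]
    have := (law1b_en h _ hn0 hIn).2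
    change 1 / 2 * (∫ ω : Fin (⌊∫ x, I x⌋₊ + 1) → E3 × Bool,
      ∑ i, ∑ j, law1bM (ω i).2 * law1bM (ω j).2 / ‖(ω i).1 - (ω j).1‖
        ∂(Measure.pi fun _ => law1bmu I (⌊∫ x, I x⌋₊ + 1 : ℕ))) - 1 / 2 * _ ≤ 0
    linarith
  · unfold Law.var
    refine law1b_var h _ hn0 hIn ?_
    push_cast
    have := Nat.floor_le (a := ∫ x, I x) (integral_nonneg h.nonneg)
    linarith

end Pool.Agent.H5R2.NL
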