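import Mathlib
import Pool.Agent.H5R2.NL.Defs
import Pool.Agent.H5R2.NL.Law1A
import Pool.Agent.H5R2.NL.Law1B
import Pool.Agent.H5R2.NL.Law1C

/-!
# The jellium constant: near optimal laws in cubes, superposition, lower bound in balls
-/

set_option autoImplicit false

noncomputable section

namespace Pool.Agent.H5R2.NL

open MeasureTheory Metric
open scoped ENNReal

/-! ### Basic facts -/

theorem law2_mono {I : E3 → ℝ} {e e' v v' : ℝ} (h : HasLaw I e v) (he : e ≤ e')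
    (hv : v ≤ v') : HasLaw I e' v' := by
  obtain ⟨l, h1, h2⟩ := h
  exact ⟨l, h1.trans he, h2.trans hv⟩

theorem law2_congr {I J : E3 → ℝ} {e v : ℝ} (h : HasLaw I e v) (hIJ : ∀ x, I x = J x) :
    HasLaw J e v := by
  have : I = J := funext hIJ
  rwa [← this]

theorem law2_nice_add {I J : E3 → ℝ} (hI : Nice I) (hJ : Nice J) :
    Nice (fun x => I x + J x) := by
  obtain ⟨B, hB⟩ := hI.bdd
  obtain ⟨B', hB'⟩ := hJ.bdd
  exact ⟨hI.meas.add hJ.meas, fun x => add_nonneg (hI.nonneg x) (hJ.nonneg x),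
    ⟨B + B', fun x => add_le_add (hB x) (hB' x)⟩, hI.int.add hJ.int⟩

theorem law2_nice_zero : Nice (fun _ : E3 => (0 : ℝ)) :=
  ⟨measurable_const, fun _ => le_rfl, ⟨0, fun _ => le_rfl⟩, integrable_zero _ _ _⟩

theorem law2_nice_sum {κ : Type} (s : Finset κ) (I : κ → E3 → ℝ)
    (h : ∀ k ∈ s, Nice (I k)) : Nice (fun x => ∑ k ∈ s, I k x) := by
  classical
  induction s using Finset.induction_on with
  | empty => simpa using law2_nice_zero
  | insert a s ha ih =>
    have h1 := h a (Finset.mem_insert_self a s)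
    have h2 := ih fun k hk => h k (Finset.mem_insert_of_mem hk)
    simpa only [Finset.sum_insert ha] using law2_nice_add h1 h2

theorem law2_sum {κ : Type} (s : Finset κ) (I : κ → E3 → ℝ) (e v : κ → ℝ) (I0 : E3 → ℝ)
    (e0 v0 : ℝ) (h0 : Nice I0) (l0 : HasLaw I0 e0 v0) (h : ∀ k ∈ s, Nice (I k))
    (l : ∀ k ∈ s, HasLaw (I k) (e k) (v k)) :
    HasLaw (fun x => I0 x + ∑ k ∈ s, I k x) (e0 + ∑ k ∈ s, e k) (v0 + ∑ k ∈ s, v k) := by
  classical
  induction s using Finset.induction_on with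
  | empty => simpa using l0
  | insert a s ha ih =>
    have h1 := h a (Finset.mem_insert_self a s)
    have l1 := l a (Finset.mem_insert_self a s)
    have l2 := ih (fun k hk => h k (Finset.mem_insert_of_mem hk))
      (fun k hk => l k (Finset.mem_insert_of_mem hk))
    have h2 : Nice (fun x => I0 x + ∑ k ∈ s, I k x) :=
      law2_nice_add h0 (law2_nice_sum s I fun k hk => h k (Finset.mem_insert_of_mem hk))
    have l3 := hasLaw_add _ _ _ _ _ _ h1 h2 l1 l2
    simp only [Finset.sum_insert ha]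
    have e1 : e0 + (e a + ∑ k ∈ s, e k) = e a + (e0 + ∑ k ∈ s, e k) := by ring
    have e2 : v0 + (v a + ∑ k ∈ s, v k) = v a + (v0 + ∑ k ∈ s, v k) := by ring
    rw [e1, e2]
    refine law2_congr l3 fun x => ?_
    ring

/-- superposition of laws below a given intensity -/
theorem law2_super {κ : Type} (s : Finset κ) (I : κ → E3 → ℝ) (e v : κ → ℝ) (J : E3 → ℝ)
    (hJ : Nice J) (h : ∀ k ∈ s, Nice (I k)) (l : ∀ k ∈ s, HasLaw (I k) (e k) (v k))
    (hle : ∀ x, ∑ k ∈ s, I k x ≤ J x) :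
    HasLaw J (∑ k ∈ s, e k) (1 + ∑ k ∈ s, v k) := by
  have hS := law2_nice_sum s I h
  have h0 : Nice (fun x => J x - ∑ k ∈ s, I k x) := by
    obtain ⟨B, hB⟩ := hJ.bdd
    refine ⟨hJ.meas.sub hS.meas, fun x => sub_nonneg.2 (hle x), ⟨B, fun x => ?_⟩,
      hJ.int.sub hS.int⟩
    have := hS.nonneg x
    have := hB x
    linarith
  have l0 := hasLaw_iid _ h0
  have l1 := law2_sum s I e v _ 0 1 h0 l0 h l
  rw [zero_add] at l1
  refine law2_congr l1 fun x => ?_
  ring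

/-! ### Cubes -/

theorem law2_cube_meas (c : E3) (b : ℝ) :
    MeasurableSet {x : E3 | ∀ i, c i ≤ x i ∧ x i < c i + b} := by
  have : {x : E3 | ∀ i, c i ≤ x i ∧ x i < c i + b} =
      ⋂ i : Fin 3, {x : E3 | c i ≤ x i ∧ x i < c i + b} := by
    ext x; simp
  rw [this]
  refine MeasurableSet.iInter fun i => ?_
  have hm : Measurable fun x : E3 => x i := by fun_prop
  exact (measurableSet_le measurable_const hm).inter (measurableSet_lt hm measurable_const)

theorem law2_cube_vol (c : E3) (b : ℝ) (hb : 0 ≤ b) :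
    volume {x : E3 | ∀ i, c i ≤ x i ∧ x i < c i + b} = ENNReal.ofReal (b ^ 3) := by
  have h1 := (EuclideanSpace.volume_preserving_symm_measurableEquiv_toLp (Fin 3)).symm
  have h2 : {x : E3 | ∀ i, c i ≤ x i ∧ x i < c i + b} =
      (MeasurableEquiv.toLp 2 (Fin 3 → ℝ)).symm ⁻¹'
        (Set.pi Set.univ fun i => Set.Ico (c i) (c i + b)) := by
    ext x
    simp [Set.mem_pi]
  rw [h2]
  have h3 := EuclideanSpace.volume_preserving_symm_measurableEquiv_toLp (Fin 3)
  rw [h3.measure_preimage (MeasurableSet.univ_pi fun i => measurableSet_Ico).nullMeasurableSet]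
  rw [Real.volume_pi_Ico]
  simp only [add_sub_cancel_left, Finset.prod_const, Finset.card_univ, Fintype.card_fin]
  rw [ENNReal.ofReal_pow hb]

theorem law2_nice_cube (c : E3) (b ν : ℝ) (hb : 0 ≤ b) (hν : 0 ≤ ν) :
    Nice (cubeI c b ν) := by
  refine ⟨?_, ?_, ⟨ν, ?_⟩, ?_⟩
  · exact measurable_const.indicator (law2_cube_meas c b)
  · intro x
    exact Set.indicator_nonneg (fun _ _ => hν) x
  · intro x
    exact Set.indicator_le_self' (fun _ _ => hν) x
  · refine (integrable_indicator_iff (law2_cube_meas c b)).2 ?_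
    refine integrableOn_const ?_
    rw [law2_cube_vol c b hb]
    exact ENNReal.ofReal_ne_top

theorem law2_int_cube (c : E3) (b ν : ℝ) (hb : 0 ≤ b) :
    ∫ x, cubeI c b ν x = ν * b ^ 3 := by
  unfold cubeI
  rw [integral_indicator (law2_cube_meas c b), setIntegral_const, Measure.real,
    law2_cube_vol c b hb, ENNReal.toReal_ofReal (by positivity), smul_eq_mul]
  ring

theorem law2_cube_scale (c c' : E3) (b ν lam : ℝ) (hl : 0 < lam) (x : E3) :
    (lam ^ 3)⁻¹ * cubeI c b ν (lam⁻¹ • (x - c')) =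
      cubeI (c' + lam • c) (lam * b) (ν / lam ^ 3) x := by
  unfold cubeI
  have hiff : (lam⁻¹ • (x - c')) ∈ {x : E3 | ∀ i, c i ≤ x i ∧ x i < c i + b} ↔
      x ∈ {x : E3 | ∀ i, (c' + lam • c) i ≤ x i ∧ x i < (c' + lam • c) i + lam * b} := by
    simp only [Set.mem_ofPred_eq, PiLp.smul_apply, PiLp.sub_apply, PiLp.add_apply, smul_eq_mul]
    refine forall_congr' fun i => ?_
    have e : lam⁻¹ * (x i - c' i) = (x i - c' i) / lam := by
      rw [div_eq_inv_mul]
    rw [e, le_div_iff₀ hl, div_lt_iff₀ hl]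
    constructor
    · rintro ⟨h1, h2⟩
      constructor <;> nlinarith
    · rintro ⟨h1, h2⟩
      constructor <;> nlinarith
  by_cases h : (lam⁻¹ • (x - c')) ∈ {x : E3 | ∀ i, c i ≤ x i ∧ x i < c i + b}
  · rw [Set.indicator_of_mem h, Set.indicator_of_mem (hiff.1 h)]
    rw [div_eq_inv_mul]
  · rw [Set.indicator_of_notMem h, Set.indicator_of_notMem (fun h' => h (hiff.2 h')), mul_zero]

/-! ### `cstar` -/

theorem cstar_bdd :
    BddAbove {s | ∃ b : ℝ, 0 < b ∧ ∃ v, HasLaw (cubeI 0 b 1) (-(s * b ^ 3)) v} := by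
  obtain ⟨C, hC, h⟩ := hasLaw_lower
  refine ⟨C, ?_⟩
  rintro s ⟨b, hb, v, l⟩
  have h1 := h (cubeI 0 b 1) 1 _ v (law2_nice_cube 0 b 1 hb.le zero_le_one) one_pos
    (fun x => Set.indicator_le_self' (fun _ _ => zero_le_one) x) l
  rw [law2_int_cube 0 b 1 hb.le, Real.one_rpow] at h1
  have hb3 : 0 < b ^ 3 := by positivity
  have h2 : s * b ^ 3 ≤ C * b ^ 3 := by linarith
  exact le_of_mul_le_mul_right h2 hb3

theorem law2_zero_mem :
    (0 : ℝ) ∈ {s | ∃ b : ℝ, 0 < b ∧ ∃ v, HasLaw (cubeI 0 b 1) (-(s * b ^ 3)) v} := by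
  refine ⟨1, one_pos, 1, ?_⟩
  have := hasLaw_iid _ (law2_nice_cube 0 1 1 zero_le_one zero_le_one)
  simpa using this

theorem cstar_nonneg : 0 ≤ cstar := le_csSup cstar_bdd law2_zero_mem

/-- the energy of any law in a cube with density one -/
theorem law2_le_cstar (c : E3) (b e v : ℝ) (hb : 0 < b) (l : HasLaw (cubeI c b 1) e v) :
    -(cstar * b ^ 3) ≤ e := by
  have h1 := hasLaw_scale _ (law2_nice_cube c b 1 hb.le zero_le_one) e v 1 (-c) one_pos l
  have h2 : HasLaw (cubeI 0 b 1) e v := by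
    rw [div_one] at h1
    refine law2_congr h1 fun x => ?_
    rw [law2_cube_scale c (-c) b 1 1 one_pos x]
    simp
  have hb3 : 0 < b ^ 3 := by positivity
  have h3 : -(e / b ^ 3) ∈ {s | ∃ b : ℝ, 0 < b ∧ ∃ v, HasLaw (cubeI 0 b 1) (-(s * b ^ 3)) v} := by
    refine ⟨b, hb, v, ?_⟩
    have : -(-(e / b ^ 3) * b ^ 3) = e := by
      field_simp
    rwa [this]
  have h4 : -(e / b ^ 3) ≤ cstar := le_csSup cstar_bdd h3
  have h5 : -e ≤ cstar * b ^ 3 := by
    have : -(e / b ^ 3) * b ^ 3 ≤ cstar * b ^ 3 := mul_le_mul_of_nonneg_right h4 hb3.le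
    have h6 : -(e / b ^ 3) * b ^ 3 = -e := by field_simp
    linarith
  linarith

/-! ### Grids -/

/-- corner of a grid cube -/
def law2gc {m : ℕ} (c : E3) (b : ℝ) (k : Fin 3 → Fin m) : E3 :=
  c + WithLp.toLp 2 (fun i => b * ((k i : ℕ) : ℝ))

theorem law2gc_apply {m : ℕ} (c : E3) (b : ℝ) (k : Fin 3 → Fin m) (i : Fin 3) :
    law2gc c b k i = c i + b * ((k i : ℕ) : ℝ) := by
  simp [law2gc]

theorem law2_grid_unique {m : ℕ} (c : E3) (b : ℝ) (hb : 0 < b) (k k' : Fin 3 → Fin m)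
    (x : E3) (h : ∀ i, law2gc c b k i ≤ x i ∧ x i < law2gc c b k i + b)
    (h' : ∀ i, law2gc c b k' i ≤ x i ∧ x i < law2gc c b k' i + b) : k = k' := by
  funext i
  obtain ⟨h1, h2⟩ := h i
  obtain ⟨h3, h4⟩ := h' i
  rw [law2gc_apply] at h1 h2 h3 h4
  have h5 : b * ((k i : ℕ) : ℝ) < b * (((k' i : ℕ) : ℝ) + 1) := by linarith
  have h6 : b * ((k' i : ℕ) : ℝ) < b * (((k i : ℕ) : ℝ) + 1) := by linarith
  have h7 := lt_of_mul_lt_mul_left h5 hb.le
  have h8 := lt_of_mul_lt_mul_left h6 hb.le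
  norm_cast at h7 h8
  apply Fin.ext
  omega

theorem law2_grid_sub {m : ℕ} (c : E3) (b : ℝ) (hb : 0 < b) (k : Fin 3 → Fin m)
    (x : E3) (h : ∀ i, law2gc c b k i ≤ x i ∧ x i < law2gc c b k i + b) :
    ∀ i, c i ≤ x i ∧ x i < c i + m * b := by
  intro i
  obtain ⟨h1, h2⟩ := h i
  rw [law2gc_apply] at h1 h2
  have h3 : (0 : ℝ) ≤ ((k i : ℕ) : ℝ) := Nat.cast_nonneg _
  have h4 : ((k i : ℕ) : ℝ) + 1 ≤ m := by
    have := (k i).2
    exact_mod_cast this
  constructor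
  · nlinarith
  · nlinarith

theorem law2_cube_mem (c : E3) (b ν : ℝ) (x : E3) (h : ∀ i, c i ≤ x i ∧ x i < c i + b) :
    cubeI c b ν x = ν := by
  unfold cubeI
  exact Set.indicator_of_mem (s := {x : E3 | ∀ i, c i ≤ x i ∧ x i < c i + b}) h _

theorem law2_cube_notMem (c : E3) (b ν : ℝ) (x : E3) (h : ¬ ∀ i, c i ≤ x i ∧ x i < c i + b) :
    cubeI c b ν x = 0 := by
  unfold cubeI
  exact Set.indicator_of_notMem (s := {x : E3 | ∀ i, c i ≤ x i ∧ x i < c i + b}) h _

theorem law2_grid_sum_le {m : ℕ} (c : E3) (b ρ : ℝ) (hb : 0 < b) (hρ : 0 ≤ ρ)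
    (s : Finset (Fin 3 → Fin m)) (x : E3) :
    ∑ k ∈ s, cubeI (law2gc c b k) b ρ x ≤ cubeI c (m * b) ρ x := by
  classical
  by_cases h : ∃ k ∈ s, ∀ i, law2gc c b k i ≤ x i ∧ x i < law2gc c b k i + b
  · obtain ⟨k, hk, hx⟩ := h
    rw [Finset.sum_eq_single k]
    · rw [law2_cube_mem _ _ _ _ hx, law2_cube_mem _ _ _ _ (law2_grid_sub c b hb k x hx)]
    · intro k' _ hne
      refine law2_cube_notMem _ _ _ _ ?_
      intro hx'
      exact hne (law2_grid_unique c b hb k' k x hx' hx)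
    · intro h'
      exact absurd hk h'
  · push Not at h
    rw [Finset.sum_eq_zero]
    · exact Set.indicator_nonneg (fun _ _ => hρ) x
    · intro k hk
      refine law2_cube_notMem _ _ _ _ ?_
      intro hx'
      obtain ⟨i, hi⟩ := h k hk
      exact absurd (hx' i).2 (not_lt.2 (hi (hx' i).1))

theorem law2_nice_scale_cube (lam b ν : ℝ) (hl : 0 < lam) (c : E3) (e v : ℝ) (hb : 0 < b)
    (hν : 0 ≤ ν) (l : HasLaw (cubeI 0 b ν) e v) :
    HasLaw (cubeI c (lam * b) (ν / lam ^ 3)) (e / lam) v := by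
  have h1 := hasLaw_scale _ (law2_nice_cube 0 b ν hb.le hν) e v lam c hl l
  refine law2_congr h1 fun x => ?_
  rw [law2_cube_scale 0 c b ν lam hl x]
  simp

theorem law2_exists (η : ℝ) (hη : 0 < η) : ∃ s b v : ℝ, 0 ≤ s ∧ cstar - η < s ∧ 0 < b ∧
    0 ≤ v ∧ HasLaw (cubeI 0 b 1) (-(s * b ^ 3)) v := by
  by_cases h : cstar - η < 0
  · obtain ⟨b, hb, v, l⟩ := law2_zero_mem
    exact ⟨0, b, |v|, le_rfl, h, hb, abs_nonneg _, law2_mono l le_rfl (le_abs_self _)⟩
  · push Not at h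
    obtain ⟨s, ⟨b, hb, v, l⟩, hs⟩ := exists_lt_of_lt_csSup ⟨0, law2_zero_mem⟩
      (show cstar - η < sSup {s | ∃ b : ℝ, 0 < b ∧ ∃ v, HasLaw (cubeI 0 b 1) (-(s * b ^ 3)) v}
        from by
          have : cstar - η < cstar := by linarith
          exact this)
    exact ⟨s, b, |v|, by linarith, hs, hb, abs_nonneg _, law2_mono l le_rfl (le_abs_self _)⟩

/-- near optimal laws in all large cubes -/
theorem cube_law (η : ℝ) (hη : 0 < η) : ∃ L V : ℝ, 0 < L ∧ 0 < V ∧
    ∀ (c : E3) (b ν : ℝ), 0 < b → 0 < ν → L ≤ b * ν ^ (1 / 3 : ℝ) →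
      HasLaw (cubeI c b ν) (-((cstar - η) * ν ^ (4 / 3 : ℝ) * b ^ 3)) (V * (1 + ν * b ^ 3)) := by
  obtain ⟨s, b0, v0, hs0, hs, hb0, hv0, l0⟩ := law2_exists (η / 2) (by linarith)
  refine ⟨max b0 (8 * s * b0 / η), max 1 (v0 / b0 ^ 3), lt_max_of_lt_left hb0,
    lt_max_of_lt_left one_pos, ?_⟩
  intro c b ν hb hν hL
  set t : ℝ := ν ^ (1 / 3 : ℝ) with ht
  have ht0 : 0 < t := Real.rpow_pos_of_pos hν _
  have ht3 : ν = t ^ 3 := by
    rw [ht, ← Real.rpow_natCast, ← Real.rpow_mul hν.le]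
    norm_num
  have ht4 : ν ^ (4 / 3 : ℝ) = t ^ 4 := by
    rw [ht, ← Real.rpow_natCast, ← Real.rpow_mul hν.le]
    norm_num
  have hL1 : b0 ≤ b * t := (le_max_left _ _).trans hL
  have hL2 : 8 * s * b0 / η ≤ b * t := (le_max_right _ _).trans hL
  have hbt : 0 < b * t := mul_pos hb ht0
  set m : ℕ := ⌊b * t / b0⌋₊ with hm
  have hm1 : 1 ≤ m := by
    rw [hm, Nat.one_le_floor_iff, one_le_div hb0]
    exact hL1
  have hm0 : (0 : ℝ) < m := by exact_mod_cast hm1
  have hm2 : (m : ℝ) ≤ b * t / b0 := Nat.floor_le (by positivity)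
  have hm3 : b * t / b0 < m + 1 := Nat.lt_floor_add_one _
  have hmb : (m : ℝ) * b0 ≤ b * t := by
    rwa [le_div_iff₀ hb0] at hm2
  have hmb' : b * t < m * b0 + b0 := by
    rw [div_lt_iff₀ hb0] at hm3
    linarith
  set lam : ℝ := b / m / b0 with hlam
  have hlam0 : 0 < lam := by positivity
  have hlb : lam * b0 = b / m := by
    rw [hlam]; field_simp
  have hlt : 1 / lam ≤ t := by
    rw [hlam, div_div, one_div, inv_div, div_le_iff₀ hb]
    linarith
  -- the laws in the subcubes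
  have l1 : ∀ k : Fin 3 → Fin m, HasLaw (cubeI (law2gc c (b / m) k) (b / m) (1 / lam ^ 3))
      (-(s * b0 ^ 3) / lam) v0 := by
    intro k
    have := law2_nice_scale_cube lam b0 1 hlam0 (law2gc c (b / m) k) _ _ hb0 zero_le_one l0
    rwa [hlb] at this
  have l2 := law2_super (Finset.univ : Finset (Fin 3 → Fin m))
    (fun k => cubeI (law2gc c (b / m) k) (b / m) (1 / lam ^ 3))
    (fun _ => -(s * b0 ^ 3) / lam) (fun _ => v0) (cubeI c b ν)
    (law2_nice_cube c b ν hb.le hν.le)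
    (fun k _ => law2_nice_cube _ _ _ (by positivity) (by positivity)) (fun k _ => l1 k) ?_
  · simp only [Finset.sum_const, Finset.card_univ, Fintype.card_fun, Fintype.card_fin,
      nsmul_eq_mul, Nat.cast_pow] at l2
    refine law2_mono l2 ?_ ?_
    · rw [ht4]
      have e1 : (m : ℝ) ^ 3 * (-(s * b0 ^ 3) / lam) = -(s * ((m : ℝ) * b0) ^ 4 / b) := by
        rw [hlam]
        field_simp
      rw [e1]
      -- (m b0)^4 ≥ (b t)^4 (1 - 4 b0/(bt))
      have h1 : b * t - b0 ≤ m * b0 := by linarith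
      have h2 : (b * t) ^ 4 * (1 - 4 * (b0 / (b * t))) ≤ ((m : ℝ) * b0) ^ 4 := by
        have h3 : (b * t - b0) ^ 4 ≤ ((m : ℝ) * b0) ^ 4 :=
          pow_le_pow_left₀ (by linarith) h1 4
        have h4 : (b * t) ^ 4 * (1 - 4 * (b0 / (b * t))) ≤ (b * t - b0) ^ 4 := by
          have e2 : (b * t - b0) ^ 4 = (b * t) ^ 4 * (1 + (-(b0 / (b * t)))) ^ 4 := by
            rw [← mul_pow]
            congr 1
            field_simp
            ring
          rw [e2]
          refine mul_le_mul_of_nonneg_left ?_ (by positivity)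
          have h5 : b0 / (b * t) ≤ 1 := by rwa [div_le_one hbt]
          have := one_add_mul_le_pow (a := -(b0 / (b * t))) (by linarith) 4
          push_cast at this
          linarith
        exact h4.trans h3
      have h6 : s * ((b * t) ^ 4 * (1 - 4 * (b0 / (b * t)))) ≤ s * ((m : ℝ) * b0) ^ 4 :=
        mul_le_mul_of_nonneg_left h2 hs0
      have h7 : (cstar - η) * (b * t) ^ 4 ≤ s * ((b * t) ^ 4 * (1 - 4 * (b0 / (b * t)))) := by
        have h8 : s * 4 * (b0 / (b * t)) ≤ η / 2 := by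
          rw [div_le_iff₀ hη] at hL2
          rw [mul_div_assoc', div_le_iff₀ hbt]
          nlinarith
        have h9 : cstar - η ≤ s * (1 - 4 * (b0 / (b * t))) := by linarith
        calc (cstar - η) * (b * t) ^ 4 ≤ (s * (1 - 4 * (b0 / (b * t)))) * (b * t) ^ 4 :=
              mul_le_mul_of_nonneg_right h9 (by positivity)
          _ = _ := by ring
      have h10 : (cstar - η) * t ^ 4 * b ^ 3 * b ≤ s * ((m : ℝ) * b0) ^ 4 := by
        calc (cstar - η) * t ^ 4 * b ^ 3 * b = (cstar - η) * (b * t) ^ 4 := by ring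
          _ ≤ _ := h7.trans h6
      have h11 : (cstar - η) * t ^ 4 * b ^ 3 ≤ s * ((m : ℝ) * b0) ^ 4 / b := by
        rwa [le_div_iff₀ hb]
      linarith
    · have h1 : (m : ℝ) ^ 3 * v0 ≤ v0 / b0 ^ 3 * (ν * b ^ 3) := by
        have h2 : ((m : ℝ) * b0) ^ 3 ≤ (b * t) ^ 3 := pow_le_pow_left₀ (by positivity) hmb 3
        have h3 : (m : ℝ) ^ 3 * v0 = v0 / b0 ^ 3 * ((m : ℝ) * b0) ^ 3 := by
          field_simp
        rw [h3, ht3]
        have h4 : t ^ 3 * b ^ 3 = (b * t) ^ 3 := by ring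
        rw [h4]
        exact mul_le_mul_of_nonneg_left h2 (by positivity)
      have h5 : v0 / b0 ^ 3 * (ν * b ^ 3) ≤ max 1 (v0 / b0 ^ 3) * (ν * b ^ 3) :=
        mul_le_mul_of_nonneg_right (le_max_right _ _) (by positivity)
      have h6 : (1 : ℝ) ≤ max 1 (v0 / b0 ^ 3) := le_max_left _ _
      rw [mul_add, mul_one]
      linarith
  · intro x
    refine (law2_grid_sum_le c (b / m) (1 / lam ^ 3) (by positivity) (by positivity) _ x).trans ?_
    have e1 : (m : ℝ) * (b / m) = b := by field_simp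
    rw [e1]
    unfold cubeI
    refine Set.indicator_le_indicator ?_
    rw [ht3]
    have : 1 / lam ^ 3 = (1 / lam) ^ 3 := by rw [one_div_pow]
    rw [this]
    exact pow_le_pow_left₀ (by positivity) hlt 3

theorem assemble (η : ℝ) (hη : 0 < η) : ∃ L V : ℝ, 0 < L ∧ 0 < V ∧
    ∀ (I : E3 → ℝ) (κ : Type) (s : Finset κ) (c : κ → E3) (b ν : κ → ℝ), Nice I →
      (∀ k ∈ s, 0 < b k) → (∀ k ∈ s, 0 < ν k) → (∀ k ∈ s, L ≤ b k * ν k ^ (1 / 3 : ℝ)) →
      (∀ x, ∑ k ∈ s, cubeI (c k) (b k) (ν k) x ≤ I x) →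
      HasLaw I (-(cstar - η) * ∑ k ∈ s, ν k ^ (4 / 3 : ℝ) * b k ^ 3)
        (V * (1 + ∑ k ∈ s, (1 + ν k * b k ^ 3))) := by
  obtain ⟨L, V, hL, hV, h⟩ := cube_law η hη
  refine ⟨L, max V 1, hL, lt_max_of_lt_left hV, ?_⟩
  intro I κ s c b ν hI hb hν hLb hle
  have l1 := law2_super s (fun k => cubeI (c k) (b k) (ν k))
    (fun k => -((cstar - η) * ν k ^ (4 / 3 : ℝ) * b k ^ 3))
    (fun k => V * (1 + ν k * b k ^ 3)) I hI
    (fun k hk => law2_nice_cube _ _ _ (hb k hk).le (hν k hk).le)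
    (fun k hk => h (c k) (b k) (ν k) (hb k hk) (hν k hk) (hLb k hk)) hle
  refine law2_mono l1 (le_of_eq ?_) ?_
  · rw [Finset.mul_sum]
    refine Finset.sum_congr rfl fun k _ => ?_
    ring
  · rw [← Finset.mul_sum]
    have h1 : 0 ≤ ∑ k ∈ s, (1 + ν k * b k ^ 3) :=
      Finset.sum_nonneg fun k hk => by
        have := hb k hk
        have := hν k hk
        positivity
    have h2 : V * ∑ k ∈ s, (1 + ν k * b k ^ 3) ≤ max V 1 * ∑ k ∈ s, (1 + ν k * b k ^ 3) :=
      mul_le_mul_of_nonneg_right (le_max_left _ _) h1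
    have h3 : (1 : ℝ) ≤ max V 1 := le_max_right _ _
    rw [mul_add, mul_one]
    linarith

/-! ### Balls -/

theorem law2_ball_vol (r : ℝ) (hr : 0 ≤ r) :
    volume.real (ball (0 : E3) r) = r ^ 3 * volume.real (ball (0 : E3) 1) := by
  rw [Measure.real, Measure.addHaar_ball _ _ hr, ENNReal.toReal_mul,
    ENNReal.toReal_ofReal (by positivity)]
  simp [Measure.real]

theorem law2_ball_pos : 0 < volume.real (ball (0 : E3) 1) := by
  refine ENNReal.toReal_pos ?_ ?_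
  · exact (measure_ball_pos _ _ one_pos).ne'
  · exact measure_ball_lt_top.ne

theorem law2_nice_ball (c : E3) (ρ ν : ℝ) (hν : 0 ≤ ν) : Nice (ballI c ρ ν) := by
  refine ⟨?_, ?_, ⟨ν, ?_⟩, ?_⟩
  · exact measurable_const.indicator measurableSet_ball
  · intro x
    exact Set.indicator_nonneg (fun _ _ => hν) x
  · intro x
    exact Set.indicator_le_self' (fun _ _ => hν) x
  · refine (integrable_indicator_iff measurableSet_ball).2 ?_
    exact integrableOn_const measure_ball_lt_top.ne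

/-- distance of two points in a grid cube -/
theorem law2_cube_diam (c : E3) (b : ℝ) (hb : 0 < b) (x y : E3)
    (hx : ∀ i, c i ≤ x i ∧ x i < c i + b) (hy : ∀ i, c i ≤ y i ∧ y i < c i + b) :
    ‖x - y‖ ≤ 2 * b := by
  have h1 : ‖x - y‖ ^ 2 ≤ (2 * b) ^ 2 := by
    rw [EuclideanSpace.norm_sq_eq]
    have h2 : ∀ i : Fin 3, ‖(x - y) i‖ ^ 2 ≤ b ^ 2 := by
      intro i
      rw [PiLp.sub_apply, Real.norm_eq_abs, sq_abs]
      obtain ⟨h3, h4⟩ := hx i
      obtain ⟨h5, h6⟩ := hy i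
      have h7 : |x i - y i| ≤ b := by
        rw [abs_le]
        constructor <;> linarith
      calc (x i - y i) ^ 2 = |x i - y i| ^ 2 := (sq_abs _).symm
        _ ≤ b ^ 2 := pow_le_pow_left₀ (abs_nonneg _) h7 2
    calc ∑ i : Fin 3, ‖(x - y) i‖ ^ 2 ≤ ∑ _i : Fin 3, b ^ 2 := Finset.sum_le_sum fun i _ => h2 i
      _ = 3 * b ^ 2 := by simp
      _ ≤ (2 * b) ^ 2 := by nlinarith [sq_nonneg b]
  exact le_of_sq_le_sq h1 (by positivity)

theorem law2_ball_unit (η : ℝ) (hη : 0 < η) : ∃ ρ₀ : ℝ, 0 < ρ₀ ∧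
    ∀ (ρ e v : ℝ), ρ₀ ≤ ρ → HasLaw (ballI 0 ρ 1) e v →
      -((cstar + η) * volume.real (ball (0 : E3) ρ)) ≤ e := by
  classical
  set W : ℝ := volume.real (ball (0 : E3) 1) with hW
  have hW0 : 0 < W := law2_ball_pos
  set η' : ℝ := η * W / 16 with hη'
  have hη'0 : 0 < η' := by positivity
  obtain ⟨L, V, hL, hV, hA⟩ := assemble η' hη'0
  have hc := cstar_nonneg
  refine ⟨max (4 * L) (64 * cstar * L / η + 1), lt_max_of_lt_left (by positivity), ?_⟩
  intro ρ e v hρ l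
  have hρ1 : 4 * L ≤ ρ := (le_max_left _ _).trans hρ
  have hρ2 : 64 * cstar * L / η + 1 ≤ ρ := (le_max_right _ _).trans hρ
  have hρ0 : 0 < ρ := by linarith
  set m : ℕ := ⌊2 * ρ / L⌋₊ with hm
  have hm1 : 1 ≤ m := by
    rw [hm, Nat.one_le_floor_iff, one_le_div hL]
    linarith
  have hm0 : (0 : ℝ) < m := by exact_mod_cast hm1
  have hm2 : (m : ℝ) ≤ 2 * ρ / L := Nat.floor_le (by positivity)
  have hm3 : 2 * ρ / L < m + 1 := Nat.lt_floor_add_one _
  set b1 : ℝ := 2 * ρ / m with hb1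
  have hb10 : 0 < b1 := by positivity
  have hmb : (m : ℝ) * b1 = 2 * ρ := by rw [hb1]; field_simp
  have hb1L : L ≤ b1 := by
    rw [hb1, le_div_iff₀ hm0]
    rw [le_div_iff₀ hL] at hm2
    linarith
  have hb1L2 : b1 ≤ 2 * L := by
    rw [hb1, div_le_iff₀ hm0]
    rw [div_lt_iff₀ hL] at hm3
    have : (1 : ℝ) ≤ m := by exact_mod_cast hm1
    nlinarith
  set cc : E3 := WithLp.toLp 2 (fun _ => -ρ) with hcc
  have hcci : ∀ i, cc i = -ρ := fun i => by simp [hcc]
  -- the grid cubes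
  set cube : (Fin 3 → Fin m) → Set E3 :=
    fun k => {x : E3 | ∀ i, law2gc cc b1 k i ≤ x i ∧ x i < law2gc cc b1 k i + b1} with hcube
  set s : Finset (Fin 3 → Fin m) := Finset.univ.filter fun k => Disjoint (cube k) (ball 0 ρ)
    with hs
  set J : E3 → ℝ := fun x => cubeI cc (2 * ρ) 1 x - ballI 0 ρ 1 x with hJ
  have hball_sub : ∀ x : E3, x ∈ ball (0 : E3) ρ → ∀ i, cc i ≤ x i ∧ x i < cc i + 2 * ρ := by
    intro x hx i
    rw [mem_ball_zero_iff] at hx
    have h1 : |x i| ≤ ‖x‖ := by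
      have := PiLp.norm_apply_le x i
      rwa [Real.norm_eq_abs] at this
    have h2 := abs_lt.1 (h1.trans_lt hx)
    rw [hcci]
    constructor <;> linarith [h2.1, h2.2]
  have hQ := law2_nice_cube cc (2 * ρ) 1 (by positivity) zero_le_one
  have hBn := law2_nice_ball 0 ρ 1 zero_le_one
  have hJn : Nice J := by
    refine ⟨hQ.meas.sub hBn.meas, fun x => ?_, ⟨1, fun x => ?_⟩, hQ.int.sub hBn.int⟩
    · rw [hJ, sub_nonneg]
      by_cases hx : x ∈ ball (0 : E3) ρ
      · rw [law2_cube_mem _ _ _ _ (hball_sub x hx)]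
        exact Set.indicator_le_self' (fun _ _ => zero_le_one) x
      · unfold ballI
        rw [Set.indicator_of_notMem hx]
        exact hQ.nonneg x
    · have h1 : cubeI cc (2 * ρ) 1 x ≤ 1 := Set.indicator_le_self' (fun _ _ => zero_le_one) x
      have h2 := hBn.nonneg x
      simp only [hJ]
      linarith
  have hsum : ∀ x, ∑ k ∈ s, cubeI (law2gc cc b1 k) b1 1 x ≤ J x := by
    intro x
    by_cases hx : x ∈ ball (0 : E3) ρ
    · rw [Finset.sum_eq_zero]
      · exact hJn.nonneg x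
      · intro k hk
        refine law2_cube_notMem _ _ _ _ ?_
        intro hx'
        rw [hs, Finset.mem_filter] at hk
        exact Set.disjoint_left.1 hk.2 (show x ∈ cube k from hx') hx
    · have h1 : J x = cubeI cc (2 * ρ) 1 x := by
        simp only [hJ, ballI]
        rw [Set.indicator_of_notMem hx, sub_zero]
      rw [h1, ← hmb]
      exact law2_grid_sum_le cc b1 1 hb10 zero_le_one s x
  have l1 := hA J (Fin 3 → Fin m) s (fun k => law2gc cc b1 k) (fun _ => b1) (fun _ => 1) hJn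
    (fun _ _ => hb10) (fun _ _ => one_pos) (fun _ _ => by rw [Real.one_rpow, mul_one]; exact hb1L)
    hsum
  have l2 := hasLaw_add _ _ _ _ _ _ hBn hJn l l1
  have l3 := law2_congr l2 (J := cubeI cc (2 * ρ) 1) (fun x => by simp only [hJ]; ring)
  have h4 := law2_le_cstar cc (2 * ρ) _ _ (by positivity) l3
  simp only [Real.one_rpow, one_mul, Finset.sum_const, nsmul_eq_mul] at h4
  -- the volume of the chosen cubes
  set S : ℝ := (s.card : ℝ) * b1 ^ 3 with hS
  have hS1 : S ≤ (2 * ρ) ^ 3 := by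
    have h5 : (s.card : ℝ) ≤ (m : ℝ) ^ 3 := by
      have : s.card ≤ m ^ 3 := by
        refine (Finset.card_le_univ s).trans ?_
        simp
      exact_mod_cast this
    calc S ≤ (m : ℝ) ^ 3 * b1 ^ 3 := mul_le_mul_of_nonneg_right h5 (by positivity)
      _ = (2 * ρ) ^ 3 := by rw [← mul_pow, hmb]
  have hS2 : (2 * ρ) ^ 3 - S ≤ volume.real (ball (0 : E3) (ρ + 2 * b1)) := by
    have h5 : (2 * ρ) ^ 3 - S = ((sᶜ).card : ℝ) * b1 ^ 3 := by
      have h6 : s.card + (sᶜ).card = m ^ 3 := by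
        rw [Finset.card_add_card_compl]
        simp
      have h7 : (s.card : ℝ) + ((sᶜ).card : ℝ) = (m : ℝ) ^ 3 := by exact_mod_cast h6
      rw [hS, ← hmb, mul_pow, ← h7]
      ring
    rw [h5]
    have hmeas : ∀ k, MeasurableSet (cube k) := fun k => law2_cube_meas _ _
    have hvol : ∀ k, volume (cube k) = ENNReal.ofReal (b1 ^ 3) :=
      fun k => law2_cube_vol _ _ hb10.le
    have h8 : volume (⋃ k ∈ sᶜ, cube k) = ∑ k ∈ sᶜ, volume (cube k) := by
      refine measure_biUnion_finset ?_ fun k _ => hmeas k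
      intro k _ k' _ hne
      refine Set.disjoint_left.2 fun x hx hx' => hne ?_
      exact law2_grid_unique cc b1 hb10 k k' x hx hx'
    have h9 : (⋃ k ∈ sᶜ, cube k) ⊆ ball (0 : E3) (ρ + 2 * b1) := by
      intro x hx
      simp only [Set.mem_iUnion] at hx
      obtain ⟨k, hk, hx⟩ := hx
      rw [Finset.mem_compl, hs, Finset.mem_filter] at hk
      have h10 : ¬ Disjoint (cube k) (ball 0 ρ) := fun h => hk ⟨Finset.mem_univ _, h⟩
      rw [Set.not_disjoint_iff] at h10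
      obtain ⟨y, hy, hy'⟩ := h10
      rw [mem_ball_zero_iff] at hy' ⊢
      have h11 := law2_cube_diam _ _ hb10 x y hx hy
      calc ‖x‖ = ‖y + (x - y)‖ := by congr 1; abel
        _ ≤ ‖y‖ + ‖x - y‖ := norm_add_le _ _
        _ < ρ + 2 * b1 := by linarith
    have h12 : volume.real (⋃ k ∈ sᶜ, cube k) = ((sᶜ).card : ℝ) * b1 ^ 3 := by
      rw [Measure.real, h8]
      simp only [hvol, Finset.sum_const, nsmul_eq_mul, ENNReal.toReal_mul,
        ENNReal.toReal_natCast]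
      rw [ENNReal.toReal_ofReal (by positivity)]
    rw [← h12]
    exact measureReal_mono h9 measure_ball_lt_top.ne
  rw [law2_ball_vol _ (by positivity), ← hW] at hS2
  rw [law2_ball_vol _ hρ0.le, ← hW]
  have hWW : (1 : ℝ) ≤ 1 := le_rfl
  -- final estimate
  have h13 : cstar * ((2 * ρ) ^ 3 - S) ≤ cstar * ((ρ + 2 * b1) ^ 3 * W) :=
    mul_le_mul_of_nonneg_left hS2 hc
  have h14 : (ρ + 2 * b1) ^ 3 ≤ ρ ^ 3 + 28 * L * ρ ^ 2 := by
    have h15 : ρ + 2 * b1 ≤ ρ + 4 * L := by linarith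
    have h16 : (ρ + 2 * b1) ^ 3 ≤ (ρ + 4 * L) ^ 3 := pow_le_pow_left₀ (by positivity) h15 3
    refine h16.trans ?_
    have h17 : (4 * L) ^ 2 ≤ 4 * L * ρ := by nlinarith
    have h18 : (4 * L) ^ 3 ≤ 4 * L * ρ ^ 2 := by
      calc (4 * L) ^ 3 = 4 * L * (4 * L) ^ 2 := by ring
        _ ≤ 4 * L * ρ ^ 2 := by
          refine mul_le_mul_of_nonneg_left ?_ (by positivity)
          exact pow_le_pow_left₀ (by positivity) hρ1 2
    nlinarith
  have h19 : cstar * ((ρ + 2 * b1) ^ 3 * W) ≤ cstar * (ρ ^ 3 + 28 * L * ρ ^ 2) * W := by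
    have := mul_le_mul_of_nonneg_right h14 hW0.le
    have := mul_le_mul_of_nonneg_left this hc
    linarith
  have h20 : cstar * (28 * L * ρ ^ 2) ≤ η / 2 * ρ ^ 3 := by
    have h21 : 64 * cstar * L ≤ η * ρ := by
      have : 64 * cstar * L / η ≤ ρ := by linarith
      rw [div_le_iff₀ hη] at this
      linarith
    have h22 : 0 ≤ ρ ^ 2 := by positivity
    have h23 : 64 * cstar * L * ρ ^ 2 ≤ η * ρ * ρ ^ 2 := mul_le_mul_of_nonneg_right h21 h22
    have h24 : 0 ≤ cstar * L * ρ ^ 2 := by positivity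
    nlinarith
  have h25 : η' * S ≤ η / 2 * ρ ^ 3 * W := by
    have h26 : η' * S ≤ η' * (2 * ρ) ^ 3 := mul_le_mul_of_nonneg_left hS1 hη'0.le
    have h27 : η' * (2 * ρ) ^ 3 = η / 2 * ρ ^ 3 * W := by rw [hη']; ring
    linarith
  have h28 : cstar * (28 * L * ρ ^ 2) * W ≤ η / 2 * ρ ^ 3 * W :=
    mul_le_mul_of_nonneg_right h20 hW0.le
  nlinarith

theorem ball_lower (η : ℝ) (hη : 0 < η) : ∃ τ : ℝ, 0 < τ ∧
    ∀ (c : E3) (ρ ν e v : ℝ), 0 < ρ → 0 < ν → τ ≤ ν * ρ ^ 3 → HasLaw (ballI c ρ ν) e v →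
      -((cstar + η) * ν ^ (4 / 3 : ℝ) * volume.real (ball (0 : E3) ρ)) ≤ e := by
  obtain ⟨ρ₀, hρ₀, h⟩ := law2_ball_unit η hη
  refine ⟨ρ₀ ^ 3, by positivity, ?_⟩
  intro c ρ ν e v hρ hν hτ l
  set t : ℝ := ν ^ (1 / 3 : ℝ) with ht
  have ht0 : 0 < t := Real.rpow_pos_of_pos hν _
  have ht3 : ν = t ^ 3 := by
    rw [ht, ← Real.rpow_natCast, ← Real.rpow_mul hν.le]
    norm_num
  have ht4 : ν ^ (4 / 3 : ℝ) = t ^ 4 := by
    rw [ht, ← Real.rpow_natCast, ← Real.rpow_mul hν.le]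
    norm_num
  have h1 := hasLaw_scale _ (law2_nice_ball c ρ ν hν.le) e v t (-(t • c)) ht0 l
  have h2 : HasLaw (ballI 0 (t * ρ) 1) (e / t) v := by
    refine law2_congr h1 fun x => ?_
    have hiff : t⁻¹ • (x - -(t • c)) ∈ ball c ρ ↔ x ∈ ball (0 : E3) (t * ρ) := by
      rw [mem_ball_iff_norm, mem_ball_zero_iff]
      have e1 : t⁻¹ • (x - -(t • c)) - c = t⁻¹ • x := by
        rw [sub_neg_eq_add, smul_add, smul_smul, inv_mul_cancel₀ ht0.ne', one_smul]
        abel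
      rw [e1, norm_smul, norm_inv, Real.norm_eq_abs, abs_of_pos ht0, ← div_eq_inv_mul,
        div_lt_iff₀ ht0, mul_comm]
    unfold ballI
    by_cases hx : x ∈ ball (0 : E3) (t * ρ)
    · rw [Set.indicator_of_mem hx, Set.indicator_of_mem (hiff.2 hx), ht3]
      field_simp
    · rw [Set.indicator_of_notMem hx, Set.indicator_of_notMem (fun h' => hx (hiff.1 h')),
        mul_zero]
  have h3 : ρ₀ ≤ t * ρ := by
    rw [ht3, ← mul_pow] at hτ
    exact le_of_pow_le_pow_left₀ (by norm_num) (by positivity) hτ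
  have h4 := h (t * ρ) (e / t) v h3 h2
  rw [le_div_iff₀ ht0, law2_ball_vol _ (by positivity)] at h4
  rw [law2_ball_vol _ hρ.le, ht4]
  nlinarith

end Pool.Agent.H5R2.NL
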