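import Mathlib
import Pool.Agent.H5R2.NL.Defs
import Pool.Agent.H5R2.NL.Int
import Pool.Agent.H5R2.NL.Kern
import Pool.Agent.H5R2.NL.GS
import Pool.Agent.H5R2.NL.JLA
import Pool.Agent.H5R2.NL.Law1C
import Pool.Agent.H5R2.NL.Law2

/-!
# The jellium energy in the unit ball
-/

set_option autoImplicit false

noncomputable section

namespace Pool.Agent.H5R2.NL

open MeasureTheory Metric Filter
open scoped ENNReal Topology

/-! ### kernels -/

/-- `hker / t` -/
def jlb_h (lam t : ℝ) : ℝ := hker lam t / t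

theorem jlb_hker_nonneg (lam t : ℝ) : 0 ≤ hker lam t := by
  unfold hker
  positivity

theorem jlb_hker_le (lam t : ℝ) (hl : 0 < lam) (ht : 0 ≤ t) : hker lam t ≤ 1 := by
  unfold hker
  apply pow_le_one₀ (le_max_left _ _)
  apply max_le (by norm_num)
  have : 0 ≤ t / (2 * lam) := by positivity
  linarith

theorem jlb_hker_meas (lam : ℝ) : Measurable (hker lam) := by
  unfold hker
  fun_prop

theorem jlb_h_nonneg (lam t : ℝ) (ht : 0 ≤ t) : 0 ≤ jlb_h lam t :=
  div_nonneg (jlb_hker_nonneg _ _) ht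

theorem jlb_h_le (lam t : ℝ) (hl : 0 < lam) (ht : 0 ≤ t) : jlb_h lam t ≤ 1 / t :=
  div_le_div_of_nonneg_right (jlb_hker_le lam t hl ht) ht

theorem jlb_h_meas (lam : ℝ) : Measurable (jlb_h lam) := by
  unfold jlb_h
  exact (jlb_hker_meas lam).div measurable_id

theorem jlb_h_zero (lam t : ℝ) (hl : 0 < lam) (ht : 2 * lam ≤ t) : jlb_h lam t = 0 := by
  unfold jlb_h hker
  have : 1 - t / (2 * lam) ≤ 0 := by
    rw [sub_nonpos, one_le_div (by positivity)]
    exact ht
  rw [max_eq_left this]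
  simp

theorem jlb_F (lam t : ℝ) (ht : t ≠ 0) : Fk lam t = 1 / t - jlb_h lam t := by
  unfold Fk jlb_h
  rw [if_neg ht]
  ring

/-! ### integrability -/

theorem jlb_inner_int (k : ℝ → ℝ) (hk : Measurable k) (h0 : ∀ t, 0 ≤ t → 0 ≤ k t)
    (h1 : ∀ t, 0 ≤ t → k t ≤ 1 / t) (w x : E3) (ρ : ℝ) :
    IntegrableOn (fun y => k ‖x - y‖) (ball w ρ) := by
  refine (integrableOn_inv x w ρ).mono' ?_ (Eventually.of_forall fun y => ?_)
  · exact (hk.comp (measurable_const.sub measurable_id).norm).aestronglyMeasurable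
  · rw [Real.norm_of_nonneg (h0 _ (norm_nonneg _)), norm_sub_rev y x]
    exact h1 _ (norm_nonneg _)

theorem jlb_inner_nonneg (k : ℝ → ℝ) (h0 : ∀ t, 0 ≤ t → 0 ≤ k t) (w x : E3) (ρ : ℝ) :
    0 ≤ ∫ y in ball w ρ, k ‖x - y‖ :=
  setIntegral_nonneg measurableSet_ball fun _ _ => h0 _ (norm_nonneg _)

theorem jlb_inner_le (k : ℝ → ℝ) (hk : Measurable k) (h0 : ∀ t, 0 ≤ t → 0 ≤ k t)
    (h1 : ∀ t, 0 ≤ t → k t ≤ 1 / t) (w x : E3) (hx : x ∈ ball w 1) :
    ∫ y in ball w 1, k ‖x - y‖ ≤ 8 * Real.pi := by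
  have hsub : ball w 1 ⊆ ball x 2 := by
    intro y hy
    rw [mem_ball] at *
    calc dist y x ≤ dist y w + dist w x := dist_triangle _ _ _
      _ < 1 + 1 := by rw [dist_comm w x]; linarith
      _ = 2 := by norm_num
  calc ∫ y in ball w 1, k ‖x - y‖ ≤ ∫ y in ball w 1, 1 / ‖y - x‖ := by
        apply setIntegral_mono (jlb_inner_int k hk h0 h1 w x 1) (integrableOn_inv x w 1)
        intro y
        simp only
        rw [norm_sub_rev y x]
        exact h1 _ (norm_nonneg _)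
    _ ≤ ∫ y in ball x 2, 1 / ‖y - x‖ := by
        apply setIntegral_mono_set (integrableOn_inv x x 2)
        · exact Eventually.of_forall fun y => by positivity
        · exact hsub.eventuallyLE
    _ = 8 * Real.pi := by rw [int_inv x 2 (by norm_num)]; ring

theorem jlb_outer_meas (k : ℝ → ℝ) (hk : Measurable k) (w : E3) :
    StronglyMeasurable (fun x => ∫ y in ball w 1, k ‖x - y‖) := by
  have h : StronglyMeasurable (fun p : E3 × E3 => k ‖p.1 - p.2‖) :=
    (hk.comp (measurable_fst.sub measurable_snd).norm).stronglyMeasurable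
  exact h.integral_prod_right' (ν := volume.restrict (ball w 1))

theorem jlb_outer_int (k : ℝ → ℝ) (hk : Measurable k) (h0 : ∀ t, 0 ≤ t → 0 ≤ k t)
    (h1 : ∀ t, 0 ≤ t → k t ≤ 1 / t) (w : E3) :
    IntegrableOn (fun x => ∫ y in ball w 1, k ‖x - y‖) (ball w 1) := by
  apply Measure.integrableOn_of_bounded (M := 8 * Real.pi) measure_ball_lt_top.ne
    (jlb_outer_meas k hk w).aestronglyMeasurable
  rw [ae_restrict_iff' measurableSet_ball]
  refine Eventually.of_forall fun x hx => ?_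
  rw [Real.norm_of_nonneg (jlb_inner_nonneg k h0 w x 1)]
  exact jlb_inner_le k hk h0 h1 w x hx

/-! ### the total mass of `hker / t` -/

theorem jlb_poly1 (lam : ℝ) (hl : 0 < lam) :
    ∫ t in (0 : ℝ)..(2 * lam), t * (1 - t / (2 * lam)) ^ 3 = lam ^ 2 / 5 := by
  have h : ∀ t ∈ Set.uIcc 0 (2 * lam), HasDerivAt
      (fun t : ℝ => t ^ 2 / 2 - t ^ 3 / (2 * lam) + 3 / 4 * t ^ 4 / (2 * lam) ^ 2
        - t ^ 5 / 5 / (2 * lam) ^ 3) (t * (1 - t / (2 * lam)) ^ 3) t := by
    intro t _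
    have h1 : HasDerivAt (fun t : ℝ => t ^ 2 / 2) (((2 : ℕ) : ℝ) * t ^ (2 - 1) / 2) t :=
      (hasDerivAt_pow 2 t).div_const 2
    have h2 : HasDerivAt (fun t : ℝ => t ^ 3 / (2 * lam)) (((3 : ℕ) : ℝ) * t ^ (3 - 1) / (2 * lam)) t :=
      (hasDerivAt_pow 3 t).div_const _
    have h3 : HasDerivAt (fun t : ℝ => 3 / 4 * t ^ 4 / (2 * lam) ^ 2)
        (3 / 4 * (((4 : ℕ) : ℝ) * t ^ (4 - 1)) / (2 * lam) ^ 2) t :=
      ((hasDerivAt_pow 4 t).const_mul (3 / 4)).div_const _
    have h4 : HasDerivAt (fun t : ℝ => t ^ 5 / 5 / (2 * lam) ^ 3)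
        (((5 : ℕ) : ℝ) * t ^ (5 - 1) / 5 / (2 * lam) ^ 3) t :=
      ((hasDerivAt_pow 5 t).div_const 5).div_const _
    refine (((h1.sub h2).add h3).sub h4).congr_deriv ?_
    push_cast
    field_simp
    ring
  rw [intervalIntegral.integral_eq_sub_of_hasDerivAt h (by
    apply Continuous.intervalIntegrable
    fun_prop)]
  field_simp
  ring

theorem jlb_H (lam : ℝ) (hl : 0 < lam) (x : E3) :
    Integrable (fun y => jlb_h lam ‖x - y‖) ∧
      ∫ y, jlb_h lam ‖x - y‖ = 4 * Real.pi / 5 * lam ^ 2 := by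
  have hz : ∀ y, y ∉ ball x (2 * lam) → jlb_h lam ‖x - y‖ = 0 := by
    intro y hy
    apply jlb_h_zero lam _ hl
    rw [mem_ball, dist_eq_norm, norm_sub_rev] at hy
    linarith
  have hint : IntegrableOn (fun y => jlb_h lam ‖x - y‖) (ball x (2 * lam)) :=
    jlb_inner_int _ (jlb_h_meas lam) (fun t ht => jlb_h_nonneg lam t ht)
      (fun t ht => jlb_h_le lam t hl ht) x x _
  constructor
  · rw [← integrable_indicator_iff measurableSet_ball] at hint
    refine hint.congr (Eventually.of_forall fun y => ?_)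
    by_cases hy : y ∈ ball x (2 * lam)
    · simp only [Set.indicator_of_mem hy]
    · simp only [Set.indicator_of_notMem hy, hz y hy]
  · rw [← setIntegral_eq_integral_of_forall_compl_eq_zero (s := ball x (2 * lam)) hz]
    have h1 : ∫ y in ball x (2 * lam), jlb_h lam ‖x - y‖
        = ∫ y in ball x (2 * lam), jlb_h lam ‖y - x‖ := by
      refine integral_congr_ae (Eventually.of_forall fun y => ?_)
      simp only
      rw [norm_sub_rev]
    rw [h1, int_radial]
    have h2 : ∫ t in Set.Ioo 0 (2 * lam), t ^ 2 * jlb_h lam t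
        = ∫ t in Set.Ioo 0 (2 * lam), t * (1 - t / (2 * lam)) ^ 3 := by
      apply setIntegral_congr_fun measurableSet_Ioo
      intro t ht
      have ht0 := ht.1.ne'
      simp only [jlb_h, hker]
      have : 0 ≤ 1 - t / (2 * lam) := by
        rw [sub_nonneg, div_le_one (by positivity)]
        exact ht.2.le
      rw [max_eq_right this]
      field_simp
    rw [h2, ← integral_Ioc_eq_integral_Ioo, ← intervalIntegral.integral_of_le (by positivity),
      jlb_poly1 lam hl]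
    ring

/-! ### the self energy of a ball -/

theorem jlb_poly2 (r : ℝ) :
    ∫ t in (0 : ℝ)..(2 * r), t * ((4 * r + t) * (2 * r - t) ^ 2) = 32 / 5 * r ^ 5 := by
  have h : ∀ t ∈ Set.uIcc 0 (2 * r), HasDerivAt
      (fun t : ℝ => 8 * r ^ 3 * t ^ 2 - 4 * r ^ 2 * t ^ 3 + t ^ 5 / 5)
      (t * ((4 * r + t) * (2 * r - t) ^ 2)) t := by
    intro t _
    have h1 : HasDerivAt (fun t : ℝ => 8 * r ^ 3 * t ^ 2) (8 * r ^ 3 * (((2 : ℕ) : ℝ) * t ^ (2 - 1))) t :=
      (hasDerivAt_pow 2 t).const_mul _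
    have h2 : HasDerivAt (fun t : ℝ => 4 * r ^ 2 * t ^ 3) (4 * r ^ 2 * (((3 : ℕ) : ℝ) * t ^ (3 - 1))) t :=
      (hasDerivAt_pow 3 t).const_mul _
    have h3 : HasDerivAt (fun t : ℝ => t ^ 5 / 5) (((5 : ℕ) : ℝ) * t ^ (5 - 1) / 5) t :=
      (hasDerivAt_pow 5 t).div_const _
    refine ((h1.sub h2).add h3).congr_deriv ?_
    push_cast
    ring
  rw [intervalIntegral.integral_eq_sub_of_hasDerivAt h (by
    apply Continuous.intervalIntegrable
    fun_prop)]
  ring

theorem jlb_inB_meas (r : ℝ) : Measurable fun p : E3 × E3 => inB p.1 r p.2 := by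
  unfold inB
  refine Measurable.ite ?_ measurable_const measurable_const
  exact measurableSet_lt (measurable_snd.sub measurable_fst).norm measurable_const

theorem jlb_D (r : ℝ) (hr : 0 < r) :
    ∫ x in ball (0 : E3) r, ∫ y in ball (0 : E3) r, 1 / ‖x - y‖ = 32 / 15 * Real.pi ^ 2 * r ^ 5 := by
  -- inner substitution
  have h1 : ∀ x : E3, ∫ y in ball (0 : E3) r, 1 / ‖x - y‖ = ∫ v, inB x r v * (1 / ‖v‖) := by
    intro x
    rw [← integral_indicator measurableSet_ball,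
      ← integral_sub_left_eq_self (fun y => (ball (0 : E3) r).indicator (fun y => 1 / ‖x - y‖) y)
        volume x]
    refine integral_congr_ae (Eventually.of_forall fun v => ?_)
    simp only [inB]
    by_cases hv : ‖v - x‖ < r
    · have hm : x - v ∈ ball (0 : E3) r := by
        rw [mem_ball, dist_zero_right, norm_sub_rev]; exact hv
      rw [Set.indicator_of_mem hm, if_pos hv, sub_sub_cancel, one_mul]
    · have hm : x - v ∉ ball (0 : E3) r := by
        rw [mem_ball, dist_zero_right, norm_sub_rev]; exact hv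
      rw [Set.indicator_of_notMem hm, if_neg hv, zero_mul]
  have h2 : ∫ x in ball (0 : E3) r, ∫ y in ball (0 : E3) r, 1 / ‖x - y‖
      = ∫ x, ∫ v, inB x r 0 * (inB x r v * (1 / ‖v‖)) := by
    rw [← integral_indicator measurableSet_ball]
    refine integral_congr_ae (Eventually.of_forall fun x => ?_)
    simp only
    rw [integral_const_mul, ← h1 x]
    simp only [inB, zero_sub, norm_neg]
    by_cases hv : ‖x‖ < r
    · have hm : x ∈ ball (0 : E3) r := by rw [mem_ball, dist_zero_right]; exact hv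
      rw [Set.indicator_of_mem hm, if_pos hv, one_mul]
    · have hm : x ∉ ball (0 : E3) r := by rw [mem_ball, dist_zero_right]; exact hv
      rw [Set.indicator_of_notMem hm, if_neg hv, zero_mul]
  -- integrability on the product
  have hI : Integrable (Function.uncurry fun (x v : E3) => inB x r 0 * (inB x r v * (1 / ‖v‖)))
      ((volume : Measure E3).prod volume) := by
    have g1 : Integrable ((ball (0 : E3) r).indicator fun _ : E3 => (1 : ℝ)) := by
      rw [integrable_indicator_iff measurableSet_ball]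
      exact integrableOn_const measure_ball_lt_top.ne
    have g2 : Integrable ((ball (0 : E3) (2 * r)).indicator fun v : E3 => 1 / ‖v‖) := by
      rw [integrable_indicator_iff measurableSet_ball]
      have := integrableOn_inv 0 0 (2 * r)
      simpa using this
    refine (g1.mul_prod g2).mono' ?_ (Eventually.of_forall fun p => ?_)
    · apply Measurable.aestronglyMeasurable
      have m1 : Measurable fun p : E3 × E3 => inB p.1 r 0 := (kern_measw r 0).comp measurable_fst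
      exact m1.mul ((jlb_inB_meas r).mul (measurable_const.div measurable_snd.norm))
    · obtain ⟨x, v⟩ := p
      simp only [Function.uncurry_apply_pair]
      rw [Real.norm_of_nonneg (mul_nonneg (kern_inB_nonneg _ _ _)
        (mul_nonneg (kern_inB_nonneg _ _ _) (by positivity)))]
      simp only [inB, zero_sub, norm_neg]
      have n1 : 0 ≤ (ball (0 : E3) r).indicator (fun _ : E3 => (1 : ℝ)) x :=
        Set.indicator_nonneg (fun _ _ => zero_le_one) _
      have n2 : 0 ≤ (ball (0 : E3) (2 * r)).indicator (fun v : E3 => 1 / ‖v‖) v :=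
        Set.indicator_nonneg (fun _ _ => by positivity) _
      by_cases hx : ‖x‖ < r
      · by_cases hv : ‖v - x‖ < r
        · have hv2 : ‖v‖ < 2 * r := by
            calc ‖v‖ = ‖(v - x) + x‖ := by congr 1; abel
              _ ≤ ‖v - x‖ + ‖x‖ := norm_add_le _ _
              _ < 2 * r := by linarith
          have hm1 : x ∈ ball (0 : E3) r := by rw [mem_ball, dist_zero_right]; exact hx
          have hm2 : v ∈ ball (0 : E3) (2 * r) := by rw [mem_ball, dist_zero_right]; exact hv2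
          rw [Set.indicator_of_mem hm1, Set.indicator_of_mem hm2, if_pos hx, if_pos hv, one_mul]
        · rw [if_neg hv, zero_mul, mul_zero]
          exact mul_nonneg n1 n2
      · rw [if_neg hx, zero_mul]
        exact mul_nonneg n1 n2
  rw [h2, integral_integral_swap hI]
  -- the lens
  have h3 : ∀ v : E3, ∫ x, inB x r 0 * (inB x r v * (1 / ‖v‖)) = kern_L r ‖v‖ * (1 / ‖v‖) := by
    intro v
    have : (fun x => inB x r 0 * (inB x r v * (1 / ‖v‖)))
        = fun x => (inB x r 0 * inB x r v) * (1 / ‖v‖) := by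
      ext x; ring
    rw [this, integral_mul_const, lens r hr 0 v, zero_sub, norm_neg]
    rfl
  simp_rw [h3]
  have hz : ∀ v : E3, v ∉ ball (0 : E3) (2 * r) → kern_L r ‖v‖ * (1 / ‖v‖) = 0 := by
    intro v hv
    rw [mem_ball, dist_zero_right] at hv
    unfold kern_L
    rw [if_neg hv]; simp
  rw [← setIntegral_eq_integral_of_forall_compl_eq_zero (s := ball (0 : E3) (2 * r)) hz]
  have h4 : ∫ v in ball (0 : E3) (2 * r), kern_L r ‖v‖ * (1 / ‖v‖)
      = ∫ v in ball (0 : E3) (2 * r), (fun t => kern_L r t * (1 / t)) ‖v - 0‖ := by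
    simp only [sub_zero]
  rw [h4, int_radial (fun t => kern_L r t * (1 / t)) 0 (2 * r)]
  have h5 : ∫ t in Set.Ioo 0 (2 * r), t ^ 2 * (kern_L r t * (1 / t))
      = ∫ t in Set.Ioo 0 (2 * r), Real.pi / 12 * (t * ((4 * r + t) * (2 * r - t) ^ 2)) := by
    apply setIntegral_congr_fun measurableSet_Ioo
    intro t ht
    have ht0 := ht.1.ne'
    simp only [kern_L]
    rw [if_pos ht.2]
    field_simp
  rw [h5, ← integral_Ioc_eq_integral_Ioo, ← intervalIntegral.integral_of_le (by positivity),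
    intervalIntegral.integral_const_mul, jlb_poly2]
  ring

/-! ### `hker` as an integral over the radius -/

theorem jlb_kernL_meas (t : ℝ) : Measurable fun r => kern_L r t := by
  unfold kern_L
  refine Measurable.ite ?_ ?_ measurable_const
  · exact measurableSet_lt measurable_const (measurable_const.mul measurable_id)
  · fun_prop

theorem jlb_hker (lam : ℝ) (hl : 0 < lam) (x y : E3) :
    IntegrableOn (fun r => 3 / (2 * Real.pi * lam ^ 2) / r ^ 2 * kern_L r ‖x - y‖)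
        (Set.Ioc 0 lam) ∧
      ∫ r in Set.Ioc 0 lam, 3 / (2 * Real.pi * lam ^ 2) / r ^ 2 * kern_L r ‖x - y‖ =
        hker lam ‖x - y‖ := by
  have hpi := Real.pi_pos
  have h := bm_pair_lint lam hl x y
  rw [bm_lint _ _ (kern_pm x y).ennreal_ofReal] at h
  have h1 : ∫⁻ r in Set.Ioc 0 lam, ENNReal.ofReal (3 / (2 * Real.pi * lam ^ 2) / r ^ 2) *
      ∫⁻ w, ENNReal.ofReal (inB w r x * inB w r y) =
      ∫⁻ r in Set.Ioc 0 lam, ENNReal.ofReal
        (3 / (2 * Real.pi * lam ^ 2) / r ^ 2 * kern_L r ‖x - y‖) := by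
    refine setLIntegral_congr_fun measurableSet_Ioc fun r hr => ?_
    have hr0 : 0 < r := hr.1
    rw [kern_lint r hr0, ← ENNReal.ofReal_mul (by positivity)]
  rw [h1] at h
  have hm : Measurable fun r => 3 / (2 * Real.pi * lam ^ 2) / r ^ 2 * kern_L r ‖x - y‖ :=
    (measurable_const.div (measurable_id.pow_const 2)).mul (jlb_kernL_meas _)
  have hn : 0 ≤ᵐ[volume.restrict (Set.Ioc 0 lam)]
      fun r => 3 / (2 * Real.pi * lam ^ 2) / r ^ 2 * kern_L r ‖x - y‖ := by
    rw [EventuallyLE, ae_restrict_iff' measurableSet_Ioc]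
    refine Eventually.of_forall fun r hr => ?_
    have := kern_L_nonneg hr.1 (norm_nonneg (x - y))
    simp only [Pi.zero_apply]
    positivity
  constructor
  · refine ⟨hm.aestronglyMeasurable, ?_⟩
    rw [hasFiniteIntegral_iff_ofReal hn, h]
    exact ENNReal.ofReal_lt_top
  · rw [integral_eq_lintegral_of_nonneg_ae hn hm.aestronglyMeasurable, h,
      ENNReal.toReal_ofReal (jlb_hker_nonneg _ _)]

theorem jlb_nice (c : E3) (r ν : ℝ) (hν : 0 ≤ ν) : Nice (ballI c r ν) := by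
  constructor
  · exact measurable_const.indicator measurableSet_ball
  · intro x
    exact Set.indicator_nonneg (fun _ _ => hν) _
  · refine ⟨ν, fun x => ?_⟩
    unfold ballI
    by_cases hx : x ∈ ball c r
    · rw [Set.indicator_of_mem hx]
    · rw [Set.indicator_of_notMem hx]; exact hν
  · unfold ballI
    rw [integrable_indicator_iff measurableSet_ball]
    exact integrableOn_const measure_ball_lt_top.ne

theorem jlb_ballI_int (c : E3) (r ν : ℝ) : ∫ x, ballI c r ν x = ν * volume.real (ball c r) := by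
  unfold ballI
  rw [integral_indicator measurableSet_ball, setIntegral_const, smul_eq_mul, mul_comm]

theorem jlb_poly3 (lam a b c : ℝ) (hl : 0 < lam) :
    IntegrableOn (fun r : ℝ => a * r ^ 3 - b * r - c) (Set.Ioc 0 lam) ∧
      ∫ r in Set.Ioc 0 lam, (a * r ^ 3 - b * r - c) = a * lam ^ 4 / 4 - b * lam ^ 2 / 2 - c * lam := by
  constructor
  · exact (Continuous.integrableOn_Icc (by fun_prop)).mono_set Set.Ioc_subset_Icc_self
  · have h : ∀ t ∈ Set.uIcc 0 lam, HasDerivAt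
        (fun t : ℝ => a * t ^ 4 / 4 - b * t ^ 2 / 2 - c * t) (a * t ^ 3 - b * t - c) t := by
      intro t _
      have h1 : HasDerivAt (fun t : ℝ => a * t ^ 4 / 4) (a * (((4 : ℕ) : ℝ) * t ^ (4 - 1)) / 4) t :=
        ((hasDerivAt_pow 4 t).const_mul _).div_const _
      have h2 : HasDerivAt (fun t : ℝ => b * t ^ 2 / 2) (b * (((2 : ℕ) : ℝ) * t ^ (2 - 1)) / 2) t :=
        ((hasDerivAt_pow 2 t).const_mul _).div_const _
      have h3 : HasDerivAt (fun t : ℝ => c * t) (c * 1) t := (hasDerivAt_id t).const_mul _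
      refine ((h1.sub h2).sub h3).congr_deriv ?_
      push_cast
      ring
    rw [← intervalIntegral.integral_of_le hl.le,
      intervalIntegral.integral_eq_sub_of_hasDerivAt h (by
        apply Continuous.intervalIntegrable
        fun_prop)]
    ring

/-- lower bound of the short range part of the point energy -/
theorem jlb_S1 {κ : Type} [Fintype κ] (R : κ → E3) (lam c' τ C1 ν V' : ℝ)
    (hl : 0 < lam) (hc' : 0 ≤ c') (hτ : 0 < τ) (hC1 : 0 ≤ C1) (hV : 0 < V') (hν0 : 0 < ν)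
    (HS : ∀ r, 0 < r → r ≤ lam → ∃ v : ℝ, HasLaw (ballI 0 r ν)
      (1 / 2 * (∑ i, ∑ j, (∫ c, inB c r (R i) * inB c r (R j)) / ‖R i - R j‖) / V'
        - 1 / 2 * ν ^ 2 * (∫ x in ball (0 : E3) r, ∫ y in ball (0 : E3) r, 1 / ‖x - y‖)) v)
    (HB : ∀ (r e v : ℝ), 0 < r → τ ≤ ν * r ^ 3 → HasLaw (ballI 0 r ν) e v →
      -(c' * ν ^ (4 / 3 : ℝ) * volume.real (ball (0 : E3) r)) ≤ e)
    (HL : ∀ (r e v : ℝ), 0 < r → HasLaw (ballI 0 r ν) e v →
      -(C1 * ν ^ (1 / 3 : ℝ) * (ν * volume.real (ball (0 : E3) r))) ≤ e) :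
    V' * (2 * Real.pi / 5 * lam ^ 2 * ν ^ 2 - c' * ν ^ (4 / 3 : ℝ)
        - 2 * C1 * τ ^ (1 / 3 : ℝ) * ν / lam) ≤
      1 / 2 * ∑ i, ∑ j, jlb_h lam ‖R i - R j‖ := by
  have hpi := Real.pi_pos
  set T : ℝ := τ ^ (1 / 3 : ℝ) with hT
  have hT0 : 0 < T := Real.rpow_pos_of_pos hτ _
  set N43 : ℝ := ν ^ (4 / 3 : ℝ) with hN43
  have hN0 : 0 < N43 := Real.rpow_pos_of_pos hν0 _
  -- the integrand
  have hpt : ∀ r ∈ Set.Ioc 0 lam,
      V' * (8 * Real.pi / (5 * lam ^ 2) * ν ^ 2) * r ^ 3 - V' * (2 / lam ^ 2 * c' * N43) * r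
        - V' * (2 / lam ^ 2 * C1 * T * ν) ≤
      1 / 2 * ∑ i, ∑ j, (3 / (2 * Real.pi * lam ^ 2) / r ^ 2 * kern_L r ‖R i - R j‖)
        / ‖R i - R j‖ := by
    intro r hr
    obtain ⟨hr0, hrl⟩ := hr
    obtain ⟨v, hv⟩ := HS r hr0 hrl
    set S : ℝ := ∑ i, ∑ j, kern_L r ‖R i - R j‖ / ‖R i - R j‖ with hS
    have e1 : ∑ i, ∑ j, (∫ c, inB c r (R i) * inB c r (R j)) / ‖R i - R j‖ = S := by
      rw [hS]
      refine Finset.sum_congr rfl fun i _ => Finset.sum_congr rfl fun j _ => ?_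
      rw [lens r hr0]
      rfl
    rw [e1, jlb_D r hr0] at hv
    have hvol : volume.real (ball (0 : E3) r) = 4 / 3 * Real.pi * r ^ 3 := int_vol_ball 0 r hr0.le
    have key : -(c' * N43 * (4 / 3 * Real.pi * r ^ 3)) - C1 * T * ν * (4 / 3 * Real.pi * r ^ 2) ≤
        1 / 2 * S / V' - 1 / 2 * ν ^ 2 * (32 / 15 * Real.pi ^ 2 * r ^ 5) := by
      rcases le_or_gt τ (ν * r ^ 3) with h | h
      · have := HB r _ v hr0 h hv
        rw [hvol] at this
        have h2 : 0 ≤ C1 * T * ν * (4 / 3 * Real.pi * r ^ 2) := by positivity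
        linarith
      · have := HL r _ v hr0 hv
        rw [hvol] at this
        have h2 : 0 ≤ c' * N43 * (4 / 3 * Real.pi * r ^ 3) := by positivity
        have h3 : ν ^ (1 / 3 : ℝ) * r ≤ T := by
          have h4 : (ν * r ^ 3) ^ (1 / 3 : ℝ) ≤ T :=
            Real.rpow_le_rpow (by positivity) h.le (by norm_num)
          rw [Real.mul_rpow hν0.le (by positivity), ← Real.rpow_natCast r 3,
            ← Real.rpow_mul hr0.le] at h4
          norm_num at h4
          norm_num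
          exact h4
        have h5 : C1 * ν ^ (1 / 3 : ℝ) * (ν * (4 / 3 * Real.pi * r ^ 3)) ≤
            C1 * T * ν * (4 / 3 * Real.pi * r ^ 2) := by
          have h6 : C1 * ν ^ (1 / 3 : ℝ) * (ν * (4 / 3 * Real.pi * r ^ 3))
              = (C1 * ν * (4 / 3 * Real.pi * r ^ 2)) * (ν ^ (1 / 3 : ℝ) * r) := by ring
          have h7 : C1 * T * ν * (4 / 3 * Real.pi * r ^ 2)
              = (C1 * ν * (4 / 3 * Real.pi * r ^ 2)) * T := by ring
          rw [h6, h7]
          exact mul_le_mul_of_nonneg_left h3 (by positivity)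
        linarith
    have key2 : V' * (1 / 2 * ν ^ 2 * (32 / 15 * Real.pi ^ 2 * r ^ 5)
        - c' * N43 * (4 / 3 * Real.pi * r ^ 3) - C1 * T * ν * (4 / 3 * Real.pi * r ^ 2))
        ≤ 1 / 2 * S := by
      have h1 : V' * (1 / 2 * S / V') = 1 / 2 * S := by field_simp
      rw [← h1]
      exact mul_le_mul_of_nonneg_left (by linarith) hV.le
    have e2 : 1 / 2 * ∑ i, ∑ j, (3 / (2 * Real.pi * lam ^ 2) / r ^ 2 * kern_L r ‖R i - R j‖)
        / ‖R i - R j‖ = 3 / (2 * Real.pi * lam ^ 2) / r ^ 2 * (1 / 2 * S) := by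
      rw [hS, Finset.mul_sum, Finset.mul_sum, Finset.mul_sum]
      refine Finset.sum_congr rfl fun i _ => ?_
      rw [Finset.mul_sum, Finset.mul_sum, Finset.mul_sum]
      refine Finset.sum_congr rfl fun j _ => ?_
      ring
    rw [e2]
    have e3 : V' * (8 * Real.pi / (5 * lam ^ 2) * ν ^ 2) * r ^ 3 - V' * (2 / lam ^ 2 * c' * N43) * r
        - V' * (2 / lam ^ 2 * C1 * T * ν) = 3 / (2 * Real.pi * lam ^ 2) / r ^ 2 *
        (V' * (1 / 2 * ν ^ 2 * (32 / 15 * Real.pi ^ 2 * r ^ 5)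
        - c' * N43 * (4 / 3 * Real.pi * r ^ 3) - C1 * T * ν * (4 / 3 * Real.pi * r ^ 2))) := by
      field_simp
      ring
    rw [e3]
    exact mul_le_mul_of_nonneg_left key2 (by positivity)
  -- integrate over the radius
  have hint : ∀ i j, IntegrableOn (fun r => (3 / (2 * Real.pi * lam ^ 2) / r ^ 2 *
      kern_L r ‖R i - R j‖) / ‖R i - R j‖) (Set.Ioc 0 lam) := fun i j =>
    (jlb_hker lam hl (R i) (R j)).1.div_const _
  have hG : IntegrableOn (fun r => 1 / 2 * ∑ i, ∑ j, (3 / (2 * Real.pi * lam ^ 2) / r ^ 2 *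
      kern_L r ‖R i - R j‖) / ‖R i - R j‖) (Set.Ioc 0 lam) := by
    refine Integrable.const_mul ?_ _
    refine integrable_finsetSum _ fun i _ => integrable_finsetSum _ fun j _ => hint i j
  have hval : ∫ r in Set.Ioc 0 lam, 1 / 2 * ∑ i, ∑ j, (3 / (2 * Real.pi * lam ^ 2) / r ^ 2 *
      kern_L r ‖R i - R j‖) / ‖R i - R j‖ = 1 / 2 * ∑ i, ∑ j, jlb_h lam ‖R i - R j‖ := by
    rw [integral_const_mul, integral_finsetSum _ fun i _ => integrable_finsetSum _ fun j _ =>
      hint i j]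
    congr 1
    refine Finset.sum_congr rfl fun i _ => ?_
    rw [integral_finsetSum _ fun j _ => hint i j]
    refine Finset.sum_congr rfl fun j _ => ?_
    rw [integral_div, (jlb_hker lam hl (R i) (R j)).2]
    rfl
  obtain ⟨hp1, hp2⟩ := jlb_poly3 lam (V' * (8 * Real.pi / (5 * lam ^ 2) * ν ^ 2))
    (V' * (2 / lam ^ 2 * c' * N43)) (V' * (2 / lam ^ 2 * C1 * T * ν)) hl
  have hfin := setIntegral_mono_on hp1 hG measurableSet_Ioc hpt
  rw [hp2, hval] at hfin
  refine le_trans (le_of_eq ?_) hfin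
  field_simp
  ring

theorem jlb_S2 (lam : ℝ) (hl : 0 < lam) (w x : E3) :
    ∫ y in ball w 1, jlb_h lam ‖x - y‖ ≤ 4 * Real.pi / 5 * lam ^ 2 := by
  rw [← (jlb_H lam hl x).2]
  exact setIntegral_le_integral (jlb_H lam hl x).1
    (Eventually.of_forall fun y => jlb_h_nonneg _ _ (norm_nonneg _))

theorem jlb_S3 (lam : ℝ) (hl : 0 < lam) (hl2 : lam ≤ 1 / 4) (w : E3) :
    4 / 3 * Real.pi * (1 - 2 * lam) ^ 3 * (4 * Real.pi / 5 * lam ^ 2) ≤
      ∫ x in ball w 1, ∫ y in ball w 1, jlb_h lam ‖x - y‖ := by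
  have hsub : ball w (1 - 2 * lam) ⊆ ball w 1 := ball_subset_ball (by linarith)
  have hout := jlb_outer_int (jlb_h lam) (jlb_h_meas lam) (fun t ht => jlb_h_nonneg lam t ht)
    (fun t ht => jlb_h_le lam t hl ht) w
  calc 4 / 3 * Real.pi * (1 - 2 * lam) ^ 3 * (4 * Real.pi / 5 * lam ^ 2)
      = ∫ x in ball w (1 - 2 * lam), 4 * Real.pi / 5 * lam ^ 2 := by
        rw [setIntegral_const, smul_eq_mul, int_vol_ball w _ (by linarith)]
    _ = ∫ x in ball w (1 - 2 * lam), ∫ y in ball w 1, jlb_h lam ‖x - y‖ := by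
        apply setIntegral_congr_fun measurableSet_ball
        intro x hx
        simp only
        rw [← (jlb_H lam hl x).2]
        symm
        apply setIntegral_eq_integral_of_forall_compl_eq_zero
        intro y hy
        apply jlb_h_zero lam _ hl
        rw [mem_ball] at hx hy
        have h1 : dist y w ≤ dist y x + dist x w := dist_triangle _ _ _
        rw [← dist_eq_norm, dist_comm x y]
        linarith
    _ ≤ ∫ x in ball w 1, ∫ y in ball w 1, jlb_h lam ‖x - y‖ := by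
        apply setIntegral_mono_set hout
        · exact Eventually.of_forall fun x =>
            jlb_inner_nonneg _ (fun t ht => jlb_h_nonneg lam t ht) w x 1
        · exact hsub.eventuallyLE

theorem jlb_Fint (lam : ℝ) (hl : 0 < lam) (w x : E3) :
    ∫ y in ball w 1, Fk lam ‖x - y‖ =
      (∫ y in ball w 1, 1 / ‖x - y‖) - ∫ y in ball w 1, jlb_h lam ‖x - y‖ := by
  rw [← integral_sub (jlb_inner_int (fun t => 1 / t) (measurable_const.div measurable_id)
    (fun t ht => by positivity) (fun t _ => le_refl _) w x 1)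
    (jlb_inner_int _ (jlb_h_meas lam) (fun t ht => jlb_h_nonneg lam t ht)
      (fun t ht => jlb_h_le lam t hl ht) w x 1)]
  apply integral_congr_ae
  have h0 : ∀ᵐ y : E3 ∂(volume.restrict (ball w 1)), y ≠ x := by
    refine ae_restrict_of_ae ?_
    rw [ae_iff]
    simp
  filter_upwards [h0] with y hy
  exact jlb_F lam _ (norm_ne_zero_iff.2 (sub_ne_zero.2 (Ne.symm hy)))

/-- splitting off the positive definite long range part -/
theorem jlb_pd {κ : Type} [Fintype κ] (R : κ → E3) (w : E3) (lam q : ℝ) (hl : 0 < lam)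
    (hinj : Function.Injective R)
    (PD : 0 ≤ 1 / 2 * ∑ i, ∑ j, Fk lam ‖R i - R j‖
      - (∑ j, ∫ y, ballI w 1 q y * Fk lam ‖R j - y‖)
      + 1 / 2 * (∫ x, ∫ y, ballI w 1 q x * ballI w 1 q y * Fk lam ‖x - y‖)) :
    1 / 2 * ∑ i, ∑ j, jlb_h lam ‖R i - R j‖
      - q * (∑ j, ∫ y in ball w 1, jlb_h lam ‖R j - y‖)
      + q ^ 2 / 2 * (∫ x in ball w 1, ∫ y in ball w 1, jlb_h lam ‖x - y‖)
      - 3 / (4 * lam) * Fintype.card κ ≤
      Wj 1 (q * volume.real (ball w 1)) R w 1 := by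
  classical
  have hB : 0 < volume.real (ball w 1) := by
    rw [int_vol_ball w 1 zero_le_one]; positivity
  -- sums
  have s1 : ∑ i, ∑ j, Fk lam ‖R i - R j‖ = ∑ i, ∑ j, 1 / ‖R i - R j‖
      - ∑ i, ∑ j, jlb_h lam ‖R i - R j‖ + 3 / (2 * lam) * Fintype.card κ := by
    have : ∀ i j, Fk lam ‖R i - R j‖ = (1 / ‖R i - R j‖ - jlb_h lam ‖R i - R j‖)
        + (if i = j then 3 / (2 * lam) else 0) := by
      intro i j
      by_cases hij : i = j
      · subst hij
        simp [Fk, jlb_h]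
      · rw [if_neg hij, add_zero]
        exact jlb_F lam _ (norm_ne_zero_iff.2 (sub_ne_zero.2 fun h => hij (hinj h)))
    simp_rw [this, Finset.sum_add_distrib, Finset.sum_sub_distrib]
    simp only [Finset.sum_ite_eq, Finset.mem_univ, if_true, Finset.sum_const, Finset.card_univ,
      nsmul_eq_mul]
    ring
  have s2 : ∀ x : E3, ∫ y, ballI w 1 q y * Fk lam ‖x - y‖ =
      q * ((∫ y in ball w 1, 1 / ‖x - y‖) - ∫ y in ball w 1, jlb_h lam ‖x - y‖) := by
    intro x
    rw [← jlb_Fint lam hl w x, ← integral_const_mul, ← integral_indicator measurableSet_ball]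
    refine integral_congr_ae (Eventually.of_forall fun y => ?_)
    simp only [ballI]
    by_cases hy : y ∈ ball w 1
    · rw [Set.indicator_of_mem hy, Set.indicator_of_mem hy]
    · rw [Set.indicator_of_notMem hy, Set.indicator_of_notMem hy, zero_mul]
  have s3 : ∫ x, ∫ y, ballI w 1 q x * ballI w 1 q y * Fk lam ‖x - y‖ =
      q ^ 2 * ((∫ x in ball w 1, ∫ y in ball w 1, 1 / ‖x - y‖)
        - ∫ x in ball w 1, ∫ y in ball w 1, jlb_h lam ‖x - y‖) := by
    have e1 : ∀ x, ∫ y, ballI w 1 q x * ballI w 1 q y * Fk lam ‖x - y‖ =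
        ballI w 1 q x * (q * ((∫ y in ball w 1, 1 / ‖x - y‖)
          - ∫ y in ball w 1, jlb_h lam ‖x - y‖)) := by
      intro x
      rw [← s2 x, ← integral_const_mul]
      refine integral_congr_ae (Eventually.of_forall fun y => ?_)
      simp only
      ring
    simp_rw [e1]
    rw [← integral_sub (jlb_outer_int (fun t => 1 / t) (measurable_const.div measurable_id)
      (fun t ht => by positivity) (fun t _ => le_refl _) w)
      (jlb_outer_int _ (jlb_h_meas lam) (fun t ht => jlb_h_nonneg lam t ht)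
      (fun t ht => jlb_h_le lam t hl ht) w), ← integral_const_mul,
      ← integral_indicator measurableSet_ball]
    refine integral_congr_ae (Eventually.of_forall fun x => ?_)
    simp only [ballI]
    by_cases hy : x ∈ ball w 1
    · rw [Set.indicator_of_mem hy, Set.indicator_of_mem hy]; ring
    · rw [Set.indicator_of_notMem hy, Set.indicator_of_notMem hy, zero_mul]
  simp_rw [s2] at PD
  rw [s1, s3, ← Finset.mul_sum, Finset.sum_sub_distrib] at PD
  have s4 : ∑ j, ∫ x in ball w 1, 1 / ‖x - R j‖ = ∑ j, ∫ y in ball w 1, 1 / ‖R j - y‖ := by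
    refine Finset.sum_congr rfl fun j _ => integral_congr_ae (Eventually.of_forall fun y => ?_)
    simp only
    rw [norm_sub_rev]
  unfold Wj
  rw [s4]
  have s5 : 1 * (q * volume.real (ball w 1)) / volume.real (ball w 1) = q := by field_simp
  have s6 : (q * volume.real (ball w 1)) ^ 2 / (2 * volume.real (ball w 1) ^ 2) = q ^ 2 / 2 := by
    field_simp
  rw [s5, s6]
  have s7 : 3 / (2 * lam) * (Fintype.card κ : ℝ) = 2 * (3 / (4 * lam) * Fintype.card κ) := by
    field_simp; ring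
  rw [s7] at PD
  linarith

/-! ### real analysis -/

theorem jlb_real (c' C3 η : ℝ) (hc' : 0 ≤ c') (hC3 : 0 ≤ C3) (hη : 0 < η) :
    ∃ s0 : ℝ, 2 ≤ s0 ∧ ∀ s : ℝ, s0 ≤ s → ∀ ν : ℝ, 0 ≤ ν → ∀ lam : ℝ, lam = (s ^ 5)⁻¹ →
      -(4 / 3 * Real.pi * (c' + η) * s ^ 24) ≤
        2 * Real.pi / 5 * lam ^ 2 * ((4 / 3 * Real.pi * (1 + lam) ^ 3) * ν ^ 2
          - 2 * s ^ 18 * (ν * (4 / 3 * Real.pi * (1 + lam) ^ 3))
          + (s ^ 18) ^ 2 * (4 / 3 * Real.pi * (1 - 2 * lam) ^ 3))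
        - (4 / 3 * Real.pi * (1 + lam) ^ 3) * (c' * ν ^ (4 / 3 : ℝ) + C3 * ν / lam) := by
  have hpi := Real.pi_pos
  have hpi3 := Real.pi_gt_three
  have hpi4 := Real.pi_lt_d2
  refine ⟨max 2 (max (2 * c' + C3) ((15 * c' + 16 * C3 + 12) / η)), le_max_left _ _, ?_⟩
  intro s hs ν hν lam hlam
  have hs2 : 2 ≤ s := (le_max_left _ _).trans hs
  have hsA : 2 * c' + C3 ≤ s := (le_max_left _ _).trans ((le_max_right _ _).trans hs)
  have hsB : 15 * c' + 16 * C3 + 12 ≤ η * s := by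
    have : (15 * c' + 16 * C3 + 12) / η ≤ s := (le_max_right _ _).trans ((le_max_right _ _).trans hs)
    rw [div_le_iff₀ hη] at this
    linarith
  have hs0 : 0 < s := by linarith
  have hs1 : 1 ≤ s := by linarith
  have hlam0 : 0 < lam := by rw [hlam]; positivity
  have hls : lam * s ^ 5 = 1 := by rw [hlam]; field_simp
  have hlam1 : lam * s ≤ 1 := by
    calc lam * s ≤ lam * s ^ 5 := by
          apply mul_le_mul_of_nonneg_left _ hlam0.le
          calc s = s ^ 1 := (pow_one s).symm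
            _ ≤ s ^ 5 := pow_le_pow_right₀ hs1 (by norm_num)
      _ = 1 := hls
  have hlam2 : lam ≤ 1 / 2 := by
    have : lam * 2 ≤ lam * s := mul_le_mul_of_nonneg_left hs2 hlam0.le
    linarith
  -- normalised variable
  set x : ℝ := ν / s ^ 18 with hx
  have hx0 : 0 ≤ x := by positivity
  have hνx : ν = s ^ 18 * x := by rw [hx]; field_simp
  set δ : ℝ := |x - 1| with hδ
  have hδ0 : 0 ≤ δ := abs_nonneg _
  have hxδ : x ≤ 1 + δ := by
    have := le_abs_self (x - 1); rw [← hδ] at this; linarith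
  have hδ2 : (x - 1) ^ 2 = δ ^ 2 := by rw [hδ, sq_abs]
  set P : ℝ := 4 / 3 * Real.pi with hP
  have hP0 : 0 < P := by positivity
  set V : ℝ := P * (1 + lam) ^ 3 with hV
  have hV0 : 0 < V := by positivity
  have hVV : V - P * (1 - 2 * lam) ^ 3 ≤ 9 * P * lam := by
    have : V - P * (1 - 2 * lam) ^ 3 = P * (9 * lam - 9 * lam ^ 2 + 9 * lam ^ 3) := by
      rw [hV]; ring
    rw [this]
    have h1 : 9 * lam - 9 * lam ^ 2 + 9 * lam ^ 3 ≤ 9 * lam := by
      have h10 := mul_nonneg (sq_nonneg lam) (show (0:ℝ) ≤ 1 - lam by linarith)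
      have h11 : lam ^ 2 * (1 - lam) = lam ^ 2 - lam ^ 3 := by ring
      linarith
    calc P * (9 * lam - 9 * lam ^ 2 + 9 * lam ^ 3) ≤ P * (9 * lam) :=
          mul_le_mul_of_nonneg_left h1 hP0.le
      _ = 9 * P * lam := by ring
  have hV7 : V * s ≤ P * (s + 7) := by
    have h1 : (1 + lam) ^ 3 ≤ 1 + 7 * lam := by
      have h10 : lam * lam ≤ lam * 1 := mul_le_mul_of_nonneg_left (by linarith) hlam0.le
      have h11 : lam * (lam * lam) ≤ lam * 1 :=
        mul_le_mul_of_nonneg_left (by linarith) hlam0.le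
      have h12 : (1 + lam) ^ 3 = 1 + 3 * lam + 3 * (lam * lam) + lam * (lam * lam) := by ring
      rw [h12]; linarith
    calc V * s = P * ((1 + lam) ^ 3 * s) := by rw [hV]; ring
      _ ≤ P * ((1 + 7 * lam) * s) := by
          apply mul_le_mul_of_nonneg_left _ hP0.le
          exact mul_le_mul_of_nonneg_right h1 hs0.le
      _ ≤ P * (s + 7) := by
          apply mul_le_mul_of_nonneg_left _ hP0.le
          have : (1 + 7 * lam) * s = s + 7 * (lam * s) := by ring
          rw [this]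
          linarith
  -- the term with the power 4/3
  have hpow : ν ^ (4 / 3 : ℝ) ≤ s ^ 24 * (1 + δ) ^ 2 := by
    rw [hνx, Real.mul_rpow (by positivity) hx0]
    have h1 : (s ^ 18) ^ (4 / 3 : ℝ) = s ^ 24 := by
      rw [← Real.rpow_natCast s 18, ← Real.rpow_mul hs0.le, ← Real.rpow_natCast s 24]
      norm_num
    rw [h1]
    apply mul_le_mul_of_nonneg_left _ (by positivity)
    calc x ^ (4 / 3 : ℝ) ≤ (1 + δ) ^ (4 / 3 : ℝ) := Real.rpow_le_rpow hx0 hxδ (by norm_num)
      _ ≤ (1 + δ) ^ (2 : ℝ) := Real.rpow_le_rpow_of_exponent_le (by linarith) (by norm_num)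
      _ = (1 + δ) ^ 2 := by norm_num
  -- AM-GM
  have hA : s * (1 + δ) ^ 2 ≤ s + (s ^ 2 * δ ^ 2 + 1) + s * δ ^ 2 := by
    have h10 := sq_nonneg (s * δ - 1)
    have h11 : (s * δ - 1) ^ 2 = s ^ 2 * δ ^ 2 - 2 * (s * δ) + 1 := by ring
    have h12 : s * (1 + δ) ^ 2 = s + 2 * (s * δ) + s * δ ^ 2 := by ring
    linarith
  have hB : 1 + δ ≤ 2 + δ ^ 2 := by
    have h10 := sq_nonneg (δ - 1)
    have h11 : (δ - 1) ^ 2 = δ ^ 2 - 2 * δ + 1 := by ring
    linarith
  -- powers
  set a : ℝ := s ^ 23 with ha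
  have ha0 : 0 < a := by positivity
  have e24 : s ^ 24 = a * s := by rw [ha]; ring
  have hC3ν : C3 * ν / lam = C3 * a * x := by
    have : ν / lam = a * x := by
      rw [div_eq_iff hlam0.ne', hνx, ha]
      calc s ^ 18 * x = s ^ 18 * x * (lam * s ^ 5) := by rw [hls, mul_one]
        _ = s ^ 23 * x * lam := by ring
    rw [mul_div_assoc, this]; ring
  have hquad : 2 * Real.pi / 5 * lam ^ 2 * (V * ν ^ 2 - 2 * s ^ 18 * (ν * V)
      + (s ^ 18) ^ 2 * (P * (1 - 2 * lam) ^ 3)) =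
      2 * Real.pi / 5 * V * (a * s ^ 3) * δ ^ 2
        - 2 * Real.pi / 5 * (lam ^ 2 * s ^ 36) * (V - P * (1 - 2 * lam) ^ 3) := by
    have h1 : lam ^ 2 * s ^ 36 = a * s ^ 3 := by
      have : s ^ 36 = (s ^ 5) ^ 2 * s ^ 26 := by ring
      rw [this]
      calc lam ^ 2 * ((s ^ 5) ^ 2 * s ^ 26) = (lam * s ^ 5) ^ 2 * s ^ 26 := by ring
        _ = s ^ 26 := by rw [hls]; ring
        _ = a * s ^ 3 := by rw [ha]; ring
    rw [hνx, ← hδ2, ← h1]
    ring
  have hlast : 2 * Real.pi / 5 * (lam ^ 2 * s ^ 36) * (V - P * (1 - 2 * lam) ^ 3) ≤ P * (12 * a) := by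
    calc 2 * Real.pi / 5 * (lam ^ 2 * s ^ 36) * (V - P * (1 - 2 * lam) ^ 3)
        ≤ 2 * Real.pi / 5 * (lam ^ 2 * s ^ 36) * (9 * P * lam) :=
          mul_le_mul_of_nonneg_left hVV (by positivity)
      _ = 18 * Real.pi / 5 * P * ((lam * s ^ 5) ^ 3 * s ^ 21) := by ring
      _ = 18 * Real.pi / 5 * P * s ^ 21 := by rw [hls]; ring
      _ ≤ 18 * Real.pi / 5 * P * a := by
          apply mul_le_mul_of_nonneg_left _ (by positivity)
          rw [ha]
          exact pow_le_pow_right₀ hs1 (by norm_num)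
      _ ≤ P * (12 * a) := by
          have : 18 * Real.pi / 5 ≤ 12 := by linarith
          calc 18 * Real.pi / 5 * P * a = 18 * Real.pi / 5 * (P * a) := by ring
            _ ≤ 12 * (P * a) := mul_le_mul_of_nonneg_right this (by positivity)
            _ = P * (12 * a) := by ring
  rw [hquad, hC3ν, e24]
  have h1 : V * (c' * ν ^ (4 / 3 : ℝ) + C3 * a * x) ≤
      V * (c' * (a * (s + (s ^ 2 * δ ^ 2 + 1) + s * δ ^ 2)) + C3 * a * (2 + δ ^ 2)) := by
    apply mul_le_mul_of_nonneg_left _ hV0.le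
    apply add_le_add
    · apply mul_le_mul_of_nonneg_left _ hc'
      calc ν ^ (4 / 3 : ℝ) ≤ s ^ 24 * (1 + δ) ^ 2 := hpow
        _ = a * (s * (1 + δ) ^ 2) := by rw [e24]; ring
        _ ≤ _ := mul_le_mul_of_nonneg_left hA ha0.le
    · apply mul_le_mul_of_nonneg_left (hxδ.trans hB) (by positivity)
  -- coefficient of δ²
  have h2 : V * a * δ ^ 2 * (c' * s ^ 2 + c' * s + C3) ≤ 2 * Real.pi / 5 * V * (a * s ^ 3) * δ ^ 2 := by
    have h3 : c' * s ^ 2 + c' * s + C3 ≤ 2 * Real.pi / 5 * s ^ 3 := by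
      have hss : s ≤ s ^ 2 := le_self_pow₀ hs1 (by norm_num)
      have h4 : c' * s ≤ c' * s ^ 2 := mul_le_mul_of_nonneg_left hss hc'
      have h5 : C3 * 1 ≤ C3 * s ^ 2 := mul_le_mul_of_nonneg_left (one_le_pow₀ hs1) hC3
      have h6 : (2 * c' + C3) * s ^ 2 ≤ s * s ^ 2 := mul_le_mul_of_nonneg_right hsA (by positivity)
      have h7 : 1 * s ^ 3 ≤ 2 * Real.pi / 5 * s ^ 3 :=
        mul_le_mul_of_nonneg_right (by linarith) (by positivity)
      linarith
    calc V * a * δ ^ 2 * (c' * s ^ 2 + c' * s + C3) ≤ V * a * δ ^ 2 * (2 * Real.pi / 5 * s ^ 3) :=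
          mul_le_mul_of_nonneg_left h3 (by positivity)
      _ = _ := by ring
  have h3 : V * (c' * (a * s) + (c' + 2 * C3) * a) ≤ P * (a * (c' * s + (15 * c' + 16 * C3))) := by
    have h4 : V * (c' * (a * s) + (c' + 2 * C3) * a) = a * (c' * (V * s) + (c' + 2 * C3) * V) := by ring
    have h5 : V ≤ 8 * P := by
      have h50 : (1 + lam) ^ 3 ≤ 2 ^ 3 := pow_le_pow_left₀ (by linarith) (by linarith) 3
      calc V = P * (1 + lam) ^ 3 := rfl
        _ ≤ P * 2 ^ 3 := mul_le_mul_of_nonneg_left h50 hP0.le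
        _ = 8 * P := by ring
    have h6 : c' * (V * s) ≤ c' * (P * (s + 7)) := mul_le_mul_of_nonneg_left hV7 hc'
    have h7 : (c' + 2 * C3) * V ≤ (c' + 2 * C3) * (8 * P) := mul_le_mul_of_nonneg_left h5 (by positivity)
    have h8 : P * (a * (c' * s + (15 * c' + 16 * C3))) = a * (c' * (P * (s + 7)) + (c' + 2 * C3) * (8 * P)) := by
      ring
    rw [h4, h8]
    exact mul_le_mul_of_nonneg_left (by linarith) ha0.le
  have h4 : P * (a * (15 * c' + 16 * C3 + 12)) ≤ P * (a * (η * s)) :=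
    mul_le_mul_of_nonneg_left (mul_le_mul_of_nonneg_left hsB ha0.le) hP0.le
  have h5 : V * (c' * (a * (s + (s ^ 2 * δ ^ 2 + 1) + s * δ ^ 2)) + C3 * a * (2 + δ ^ 2)) =
      V * a * δ ^ 2 * (c' * s ^ 2 + c' * s + C3) + V * (c' * (a * s) + (c' + 2 * C3) * a) := by
    ring
  have h6 : P * (a * (c' * s + (15 * c' + 16 * C3))) + P * (12 * a)
      = P * (a * (c' * s)) + P * (a * (15 * c' + 16 * C3 + 12)) := by ring
  have h7 : P * (c' + η) * (a * s) = P * (a * (c' * s)) + P * (a * (η * s)) := by ring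
  rw [h7]
  linarith

/-! ### the rough bound -/

theorem jlb_Wj {κ : Type} [Fintype κ] (R : κ → E3) (w : E3) (q : ℝ) :
    Wj 1 (q * volume.real (ball w 1)) R w 1 = 1 / 2 * ∑ i, ∑ j, 1 / ‖R i - R j‖
      - q * (∑ j, ∫ y in ball w 1, 1 / ‖R j - y‖)
      + q ^ 2 / 2 * (∫ x in ball w 1, ∫ y in ball w 1, 1 / ‖x - y‖) := by
  have hB : 0 < volume.real (ball w 1) := by
    rw [int_vol_ball w 1 zero_le_one]; positivity
  have s4 : ∑ j, ∫ x in ball w 1, 1 / ‖x - R j‖ = ∑ j, ∫ y in ball w 1, 1 / ‖R j - y‖ := by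
    refine Finset.sum_congr rfl fun j _ => integral_congr_ae (Eventually.of_forall fun y => ?_)
    simp only
    rw [norm_sub_rev]
  unfold Wj
  rw [s4]
  have s5 : 1 * (q * volume.real (ball w 1)) / volume.real (ball w 1) = q := by field_simp
  have s6 : (q * volume.real (ball w 1)) ^ 2 / (2 * volume.real (ball w 1) ^ 2) = q ^ 2 / 2 := by
    field_simp
  rw [s5, s6]
  ring

theorem jlb_rough {κ : Type} [Fintype κ] (R : κ → E3) (w : E3) (q q0 : ℝ) (hq : 0 ≤ q)
    (hq0 : q ≤ q0) (hinj : Function.Injective R) (hR : ∀ j, R j ∈ ball w 1) :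
    -(1 / 4 + 8 * Real.pi * q0) ^ 2 ≤ Wj 1 (q * volume.real (ball w 1)) R w 1 ∧
      (Fintype.card κ = 0 → 0 ≤ Wj 1 (q * volume.real (ball w 1)) R w 1) := by
  classical
  have hpi := Real.pi_pos
  have hm : Measurable fun t : ℝ => 1 / t := measurable_const.div measurable_id
  have hn : ∀ t : ℝ, 0 ≤ t → 0 ≤ 1 / t := fun t ht => by positivity
  have hD : 0 ≤ ∫ x in ball w 1, ∫ y in ball w 1, 1 / ‖x - y‖ :=
    setIntegral_nonneg measurableSet_ball fun x _ => jlb_inner_nonneg _ hn w x 1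
  have hS : ∑ j, ∫ y in ball w 1, 1 / ‖R j - y‖ ≤ Fintype.card κ * (8 * Real.pi) := by
    calc ∑ j, ∫ y in ball w 1, 1 / ‖R j - y‖ ≤ ∑ _j : κ, 8 * Real.pi :=
          Finset.sum_le_sum fun j _ =>
            jlb_inner_le (fun t => 1 / t) hm hn (fun t _ => le_refl _) w (R j) (hR j)
      _ = Fintype.card κ * (8 * Real.pi) := by
          rw [Finset.sum_const, Finset.card_univ, nsmul_eq_mul]
  have hS0 : 0 ≤ ∑ j, ∫ y in ball w 1, 1 / ‖R j - y‖ :=
    Finset.sum_nonneg fun j _ => jlb_inner_nonneg (fun t => 1 / t) hn w (R j) 1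
  have hP : ((Fintype.card κ : ℝ) ^ 2 - Fintype.card κ) / 2 ≤ ∑ i, ∑ j, 1 / ‖R i - R j‖ := by
    have h1 : ∀ i j, (1 : ℝ) / 2 - (if i = j then 1 / 2 else 0) ≤ 1 / ‖R i - R j‖ := by
      intro i j
      by_cases hij : i = j
      · rw [if_pos hij]
        have : 0 ≤ 1 / ‖R i - R j‖ := by positivity
        linarith
      · rw [if_neg hij, sub_zero]
        have h2 : 0 < ‖R i - R j‖ := norm_pos_iff.2 (sub_ne_zero.2 fun h => hij (hinj h))
        have h3 : ‖R i - R j‖ ≤ 2 := by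
          rw [← dist_eq_norm]
          have h4 := hR i
          have h5 := hR j
          rw [mem_ball] at h4 h5
          have h6 := dist_triangle (R i) w (R j)
          rw [dist_comm w (R j)] at h6
          linarith
        exact one_div_le_one_div_of_le h2 h3
    calc ((Fintype.card κ : ℝ) ^ 2 - Fintype.card κ) / 2
        = ∑ i : κ, ∑ j : κ, ((1 : ℝ) / 2 - (if i = j then 1 / 2 else 0)) := by
          simp only [Finset.sum_sub_distrib, Finset.sum_ite_eq, Finset.mem_univ, if_true,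
            Finset.sum_const, Finset.card_univ, nsmul_eq_mul]
          ring
      _ ≤ _ := Finset.sum_le_sum fun i _ => Finset.sum_le_sum fun j _ => h1 i j
  rw [jlb_Wj]
  set k : ℝ := (Fintype.card κ : ℝ) with hk
  have hk0 : 0 ≤ k := Nat.cast_nonneg _
  have hqS : q * (∑ j, ∫ y in ball w 1, 1 / ‖R j - y‖) ≤ q0 * (k * (8 * Real.pi)) :=
    mul_le_mul hq0 hS hS0 (hq.trans hq0)
  have hqD : 0 ≤ q ^ 2 / 2 * (∫ x in ball w 1, ∫ y in ball w 1, 1 / ‖x - y‖) :=
    mul_nonneg (by positivity) hD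
  constructor
  · have h1 : 0 ≤ (k / 2 - (1 / 4 + 8 * Real.pi * q0)) ^ 2 := sq_nonneg _
    have h2 : (k / 2 - (1 / 4 + 8 * Real.pi * q0)) ^ 2 = (k ^ 2 - k) / 4 - q0 * (k * (8 * Real.pi))
        + (1 / 4 + 8 * Real.pi * q0) ^ 2 := by ring
    linarith
  · intro hc
    have hk1 : k = 0 := by rw [hk, hc]; simp
    have h3 : 0 ≤ ∑ i, ∑ j, 1 / ‖R i - R j‖ :=
      Finset.sum_nonneg fun i _ => Finset.sum_nonneg fun j _ => by positivity
    rw [hk1] at hqS
    linarith

/-- the jellium energy in the unit ball (with the inputs as hypotheses) -/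
theorem jell_unit_of (hcs : 0 ≤ cstar)
    (pd_points : ∀ {κ : Type} [Fintype κ] (ℓ : ℝ), 0 < ℓ → ∀ (R : κ → E3) (I : E3 → ℝ), Nice I →
      0 ≤ 1 / 2 * ∑ i, ∑ j, Fk ℓ ‖R i - R j‖ - (∑ j, ∫ y, I y * Fk ℓ ‖R j - y‖)
        + 1 / 2 * (∫ x, ∫ y, I x * I y * Fk ℓ ‖x - y‖))
    (hasLaw_lower : ∃ C : ℝ, 0 < C ∧ ∀ (I : E3 → ℝ) (ν e v : ℝ), Nice I → 0 < ν →
      (∀ x, I x ≤ ν) → HasLaw I e v → -(C * ν ^ (1 / 3 : ℝ) * ∫ x, I x) ≤ e)
    (ball_lower : ∀ η : ℝ, 0 < η → ∃ τ : ℝ, 0 < τ ∧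
      ∀ (c : E3) (ρ ν e v : ℝ), 0 < ρ → 0 < ν → τ ≤ ν * ρ ^ 3 → HasLaw (ballI c ρ ν) e v →
        -((cstar + η) * ν ^ (4 / 3 : ℝ) * volume.real (ball (0 : E3) ρ)) ≤ e)
    (shift_law : ∀ {κ : Type} [Fintype κ] (R : κ → E3) (w : E3) (lam r : ℝ), 0 < r →
      r ≤ lam → Function.Injective R → (∀ j, R j ∈ ball w 1) →
      ∃ v : ℝ, HasLaw (ballI 0 r (Fintype.card κ / volume.real (ball w (1 + lam))))
        (1 / 2 * (∑ i, ∑ j, (∫ c, inB c r (R i) * inB c r (R j)) / ‖R i - R j‖) /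
            volume.real (ball w (1 + lam))
          - 1 / 2 * (Fintype.card κ / volume.real (ball w (1 + lam))) ^ 2 *
            (∫ x in ball (0 : E3) r, ∫ y in ball (0 : E3) r, 1 / ‖x - y‖)) v)
    (η : ℝ) (hη : 0 < η) : ∃ C : ℝ, 0 < C ∧
    ∀ (κ : Type) [Fintype κ] (R : κ → E3) (w : E3) (y : ℝ), 0 ≤ y →
      Function.Injective R → (∀ j, R j ∈ ball w 1) →
      -((cstar + η) * y ^ (4 / 3 : ℝ) * volume.real (ball w 1) ^ (-(1 / 3) : ℝ) +
          C * (1 + y)) ≤ Wj 1 y R w 1 := by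
  have hpi := Real.pi_pos
  obtain ⟨C1, hC1, HL⟩ := hasLaw_lower
  obtain ⟨τ, hτ, HB⟩ := ball_lower (η / 2) (by positivity)
  have hT0 : 0 < τ ^ (1 / 3 : ℝ) := Real.rpow_pos_of_pos hτ _
  set C3 : ℝ := 2 * C1 * τ ^ (1 / 3 : ℝ) + 3 / 4 with hC3
  obtain ⟨s0, hs02, HR⟩ := jlb_real (cstar + η / 2) C3 (η / 2) (by positivity) (by positivity)
    (by positivity)
  set q0 : ℝ := s0 ^ 18 with hq0
  have hs0p : 0 < s0 := by linarith
  have hq0p : 0 < q0 := by positivity
  refine ⟨(1 / 4 + 8 * Real.pi * q0) ^ 2, by positivity, ?_⟩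
  intro κ _ R w y hy hinj hR
  have hvol : volume.real (ball w 1) = 4 / 3 * Real.pi := by
    rw [int_vol_ball w 1 zero_le_one]; ring
  set P : ℝ := volume.real (ball w 1) with hP
  have hP0 : 0 < P := by rw [hvol]; positivity
  set q : ℝ := y / P with hq
  have hqy : y = q * P := by rw [hq]; field_simp
  have hq0' : 0 ≤ q := by positivity
  have hmain0 : 0 ≤ (cstar + η) * y ^ (4 / 3 : ℝ) * P ^ (-(1 / 3) : ℝ) := by positivity
  rcases le_or_gt q q0 with hle | hgt
  · -- small density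
    have h1 := (jlb_rough R w q q0 hq0' hle hinj hR).1
    rw [← hP, ← hqy] at h1
    have h2 : (1 / 4 + 8 * Real.pi * q0) ^ 2 * 1 ≤ (1 / 4 + 8 * Real.pi * q0) ^ 2 * (1 + y) :=
      mul_le_mul_of_nonneg_left (by linarith) (by positivity)
    linarith
  have hCy : 0 ≤ (1 / 4 + 8 * Real.pi * q0) ^ 2 * (1 + y) := by positivity
  rcases Nat.eq_zero_or_pos (Fintype.card κ) with hc | hc
  · have h1 := (jlb_rough R w q q hq0' le_rfl hinj hR).2 hc
    rw [← hP, ← hqy] at h1
    linarith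
  -- large density
  set s : ℝ := q ^ (1 / 18 : ℝ) with hs
  have hqp : 0 < q := hq0p.trans hgt
  have hs18 : s ^ 18 = q := by
    rw [hs, ← Real.rpow_natCast, ← Real.rpow_mul hqp.le]
    norm_num
  have hs0 : s0 ≤ s := by
    have h1 : s0 ^ 18 ≤ s ^ 18 := by rw [hs18]; exact hgt.le
    exact le_of_pow_le_pow_left₀ (by norm_num) (by positivity) h1
  have hsp : 0 < s := hs0p.trans_le hs0
  set lam : ℝ := (s ^ 5)⁻¹ with hlam
  have hlam0 : 0 < lam := by positivity
  have hlam4 : lam ≤ 1 / 4 := by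
    have h1 : (2 : ℝ) ^ 5 ≤ s ^ 5 := pow_le_pow_left₀ (by norm_num) (by linarith) 5
    rw [hlam, inv_le_comm₀ (by positivity) (by norm_num)]
    norm_num at h1 ⊢
    linarith
  set V : ℝ := volume.real (ball w (1 + lam)) with hV
  have hVv : V = 4 / 3 * Real.pi * (1 + lam) ^ 3 := by
    rw [hV, int_vol_ball w _ (by linarith)]
  have hV0 : 0 < V := by rw [hVv]; positivity
  set ν : ℝ := (Fintype.card κ : ℝ) / V with hν
  have hk : (Fintype.card κ : ℝ) = ν * V := by rw [hν]; field_simp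
  have hν0 : 0 < ν := by
    have : (0 : ℝ) < Fintype.card κ := by exact_mod_cast hc
    positivity
  -- short range energy of the points
  have hS1 := jlb_S1 R lam (cstar + η / 2) τ C1 ν V hlam0 (by positivity) hτ hC1.le hV0 hν0
    (fun r hr hrl => shift_law R w lam r hr hrl hinj hR)
    (fun r e v hr h1 h2 => HB 0 r ν e v hr hν0 h1 h2)
    (fun r e v hr h1 => by
      have := HL (ballI 0 r ν) ν e v (jlb_nice 0 r ν hν0.le) hν0 (fun x => by
        unfold ballI
        by_cases hx : x ∈ ball (0 : E3) r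
        · rw [Set.indicator_of_mem hx]
        · rw [Set.indicator_of_notMem hx]; exact hν0.le) h1
      rw [jlb_ballI_int] at this
      exact this)
  have hPD := jlb_pd R w lam q hlam0 hinj (pd_points lam hlam0 R _ (jlb_nice w 1 q hq0'))
  have hS2 : ∑ j, ∫ y in ball w 1, jlb_h lam ‖R j - y‖ ≤ ν * V * (4 * Real.pi / 5 * lam ^ 2) := by
    calc ∑ j, ∫ y in ball w 1, jlb_h lam ‖R j - y‖ ≤ ∑ _j : κ, 4 * Real.pi / 5 * lam ^ 2 :=
          Finset.sum_le_sum fun j _ => jlb_S2 lam hlam0 w (R j)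
      _ = ν * V * (4 * Real.pi / 5 * lam ^ 2) := by
          rw [Finset.sum_const, Finset.card_univ, nsmul_eq_mul, hk]
  have hS2' := mul_le_mul_of_nonneg_left hS2 hq0'
  have hS3 := mul_le_mul_of_nonneg_left (jlb_S3 lam hlam0 hlam4 w)
    (show 0 ≤ q ^ 2 / 2 by positivity)
  have hfin := HR s hs0 ν hν0.le lam rfl
  rw [hs18, ← hVv] at hfin
  have hJ : 2 * Real.pi / 5 * lam ^ 2 * (V * ν ^ 2 - 2 * q * (ν * V)
      + q ^ 2 * (4 / 3 * Real.pi * (1 - 2 * lam) ^ 3))
      - V * ((cstar + η / 2) * ν ^ (4 / 3 : ℝ) + C3 * ν / lam) ≤ Wj 1 y R w 1 := by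
    rw [← hP, ← hqy, hk] at hPD
    refine le_trans ?_ hPD
    have e1 : V * (2 * Real.pi / 5 * lam ^ 2 * ν ^ 2 - (cstar + η / 2) * ν ^ (4 / 3 : ℝ)
        - 2 * C1 * τ ^ (1 / 3 : ℝ) * ν / lam)
        - q * (ν * V * (4 * Real.pi / 5 * lam ^ 2))
        + q ^ 2 / 2 * (4 / 3 * Real.pi * (1 - 2 * lam) ^ 3 * (4 * Real.pi / 5 * lam ^ 2))
        - 3 / (4 * lam) * (ν * V) =
        2 * Real.pi / 5 * lam ^ 2 * (V * ν ^ 2 - 2 * q * (ν * V)
          + q ^ 2 * (4 / 3 * Real.pi * (1 - 2 * lam) ^ 3))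
        - V * ((cstar + η / 2) * ν ^ (4 / 3 : ℝ) + C3 * ν / lam) := by
      rw [hC3]
      field_simp
      ring
    rw [← e1]
    linarith
  have hpow : (cstar + η) * y ^ (4 / 3 : ℝ) * P ^ (-(1 / 3) : ℝ)
      = 4 / 3 * Real.pi * (cstar + η / 2 + η / 2) * s ^ 24 := by
    have h1 : y ^ (4 / 3 : ℝ) = s ^ 24 * P ^ (4 / 3 : ℝ) := by
      rw [hqy, ← hs18, Real.mul_rpow (by positivity) hP0.le]
      congr 1
      rw [← Real.rpow_natCast s 18, ← Real.rpow_mul hsp.le, ← Real.rpow_natCast s 24]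
      norm_num
    have h2 : P ^ (4 / 3 : ℝ) * P ^ (-(1 / 3) : ℝ) = P := by
      rw [← Real.rpow_add hP0]
      norm_num
    rw [h1]
    calc (cstar + η) * (s ^ 24 * P ^ (4 / 3 : ℝ)) * P ^ (-(1 / 3) : ℝ)
        = (cstar + η) * s ^ 24 * (P ^ (4 / 3 : ℝ) * P ^ (-(1 / 3) : ℝ)) := by ring
      _ = _ := by rw [h2, hvol]; ring
  rw [hpow]
  linarith

/-- the jellium energy in the unit ball -/
theorem jell_unit (η : ℝ) (hη : 0 < η) : ∃ C : ℝ, 0 < C ∧
    ∀ (κ : Type) [Fintype κ] (R : κ → E3) (w : E3) (y : ℝ), 0 ≤ y →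
      Function.Injective R → (∀ j, R j ∈ ball w 1) →
      -((cstar + η) * y ^ (4 / 3 : ℝ) * volume.real (ball w 1) ^ (-(1 / 3) : ℝ) +
          C * (1 + y)) ≤ Wj 1 y R w 1 :=
  jell_unit_of cstar_nonneg (fun ℓ hℓ R I hI => pd_points ℓ hℓ R I hI) hasLaw_lower ball_lower
    (fun R w lam r hr hrl hinj hR => shift_law R w lam r hr hrl hinj hR) η hη

end Pool.Agent.H5R2.NL
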