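import Mathlib
import Pool.Agent.H5R2.NL.Defs

/-!
# The jellium lower bound in a ball follows from the one in the unit ball (scaling)
-/

set_option autoImplicit false

noncomputable section

namespace Pool.Agent.H5R2.NL

open MeasureTheory Metric
open scoped ENNReal Pointwise

lemma jl_setInt_scale (w : E3) (r : ℝ) (hr : 0 < r) (f : E3 → ℝ) :
    ∫ x in ball w r, f x = r ^ 3 * ∫ x in ball (r⁻¹ • w) 1, f (r • x) := by
  have h := MeasureTheory.Measure.setIntegral_comp_smul (volume : Measure E3) f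
    (s := ball (r⁻¹ • w) 1) hr.ne'
  have hb : r • ball (r⁻¹ • w) (1 : ℝ) = ball w r := by
    rw [_root_.smul_ball hr.ne', smul_smul, mul_inv_cancel₀ hr.ne', one_smul, mul_one,
      Real.norm_of_nonneg hr.le]
  rw [hb] at h
  have hd : Module.finrank ℝ E3 = 3 := by simp
  rw [hd, abs_of_nonneg (by positivity), smul_eq_mul] at h
  rw [h]
  field_simp

lemma jl_vol_scale (w : E3) (r : ℝ) (hr : 0 < r) :
    volume.real (ball w r) = r ^ 3 * volume.real (ball (r⁻¹ • w) (1 : ℝ)) := by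
  have h := jl_setInt_scale w r hr (fun _ => 1)
  simpa using h

lemma jl_norm_scale (r : ℝ) (hr : 0 < r) (a b : E3) :
    1 / ‖r • a - b‖ = r⁻¹ * (1 / ‖a - r⁻¹ • b‖) := by
  have h : r • a - b = r • (a - r⁻¹ • b) := by
    rw [smul_sub, smul_smul, mul_inv_cancel₀ hr.ne', one_smul]
  rw [h, norm_smul, Real.norm_of_nonneg hr.le, one_div, mul_inv, one_div]

lemma jl_norm_scale2 (r : ℝ) (hr : 0 < r) (a b : E3) :
    1 / ‖a - b‖ = r⁻¹ * (1 / ‖r⁻¹ • a - r⁻¹ • b‖) := by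
  have h := jl_norm_scale r hr (r⁻¹ • a) b
  rwa [smul_smul, mul_inv_cancel₀ hr.ne', one_smul] at h

lemma jl_Wj_scale {κ : Type} [Fintype κ] (z n : ℝ) (hz : 0 < z) (R : κ → E3) (w : E3) (r : ℝ)
    (hr : 0 < r) :
    Wj z n R w r = z ^ 2 / r * Wj 1 (n / z) (fun j => r⁻¹ • R j) (r⁻¹ • w) 1 := by
  have hV : 0 < volume.real (ball (r⁻¹ • w) (1 : ℝ)) := by
    rw [Measure.real, ENNReal.toReal_pos_iff]
    exact ⟨measure_ball_pos _ _ one_pos, measure_ball_lt_top⟩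
  unfold Wj
  rw [jl_vol_scale w r hr]
  set V := volume.real (ball (r⁻¹ • w) (1 : ℝ)) with hVdef
  have h1 : ∑ i, ∑ j, 1 / ‖R i - R j‖ = r⁻¹ * ∑ i, ∑ j, 1 / ‖r⁻¹ • R i - r⁻¹ • R j‖ := by
    rw [Finset.mul_sum]
    refine Finset.sum_congr rfl fun i _ => ?_
    rw [Finset.mul_sum]
    refine Finset.sum_congr rfl fun j _ => ?_
    exact jl_norm_scale2 r hr _ _
  have h2 : ∑ j, ∫ x in ball w r, 1 / ‖x - R j‖
      = r ^ 2 * ∑ j, ∫ x in ball (r⁻¹ • w) 1, 1 / ‖x - r⁻¹ • R j‖ := by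
    rw [Finset.mul_sum]
    refine Finset.sum_congr rfl fun j _ => ?_
    rw [jl_setInt_scale w r hr]
    simp_rw [jl_norm_scale r hr]
    rw [integral_const_mul]
    field_simp
  have h3 : ∫ x in ball w r, ∫ y in ball w r, 1 / ‖x - y‖
      = r ^ 5 * ∫ x in ball (r⁻¹ • w) 1, ∫ y in ball (r⁻¹ • w) 1, 1 / ‖x - y‖ := by
    rw [jl_setInt_scale w r hr]
    have : ∀ x : E3, ∫ y in ball w r, 1 / ‖r • x - y‖
        = r ^ 2 * ∫ y in ball (r⁻¹ • w) 1, 1 / ‖x - y‖ := by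
      intro x
      rw [jl_setInt_scale w r hr]
      have e : ∀ y : E3, 1 / ‖r • x - r • y‖ = r⁻¹ * (1 / ‖x - y‖) := by
        intro y
        rw [jl_norm_scale r hr, smul_smul, inv_mul_cancel₀ hr.ne', one_smul]
      simp_rw [e]
      rw [integral_const_mul]
      field_simp
    simp_rw [this]
    rw [integral_const_mul]
    ring
  rw [h1, h2, h3]
  field_simp

/-- the lower bound in all balls from the lower bound in the unit ball -/
theorem jl_core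
    (hunit : ∀ η : ℝ, 0 < η → ∃ C : ℝ, 0 < C ∧
      ∀ (κ : Type) [Fintype κ] (R : κ → E3) (w : E3) (y : ℝ), 0 ≤ y →
        Function.Injective R → (∀ j, R j ∈ ball w 1) →
        -((cstar + η) * y ^ (4 / 3 : ℝ) * volume.real (ball w 1) ^ (-(1 / 3) : ℝ) +
            C * (1 + y)) ≤ Wj 1 y R w 1)
    (z η : ℝ) (hz : 0 < z) (hη : 0 < η) : ∃ C : ℝ, 0 < C ∧
    ∀ (κ : Type) [Fintype κ] (R : κ → E3) (w : E3) (r : ℝ) (n : ℕ), 0 < r →
      Function.Injective R → (∀ j, R j ∈ ball w r) →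
      -((z ^ (2 / 3 : ℝ) * cstar + η) * (n : ℝ) ^ (4 / 3 : ℝ) *
          volume.real (ball w r) ^ (-(1 / 3) : ℝ) + C * n / r) ≤ Wj z n R w r := by
  have hz23 : 0 < z ^ (2 / 3 : ℝ) := Real.rpow_pos_of_pos hz _
  obtain ⟨C, hC, h⟩ := hunit (η / z ^ (2 / 3 : ℝ)) (div_pos hη hz23)
  refine ⟨C * (z ^ 2 + z), by positivity, ?_⟩
  intro κ _ R w r n hr hR hmem
  rcases Nat.eq_zero_or_pos n with hn | hn
  · subst hn
    have hz43 : ((0 : ℕ) : ℝ) ^ (4 / 3 : ℝ) = 0 := by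
      rw [Nat.cast_zero]
      exact Real.zero_rpow (by norm_num)
    rw [hz43]
    unfold Wj
    have hs : 0 ≤ z ^ 2 / 2 * ∑ i, ∑ j, 1 / ‖R i - R j‖ := by positivity
    simp only [Nat.cast_zero]
    simp
    simpa using hs
  · have hn1 : (1 : ℝ) ≤ n := by exact_mod_cast hn
    rw [jl_Wj_scale z n hz R w r hr]
    have hV : 0 < volume.real (ball (r⁻¹ • w) (1 : ℝ)) := by
      rw [Measure.real, ENNReal.toReal_pos_iff]
      exact ⟨measure_ball_pos _ _ one_pos, measure_ball_lt_top⟩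
    have hy : 0 ≤ (n : ℝ) / z := by positivity
    have hinj : Function.Injective (fun j => r⁻¹ • R j) := by
      intro a b hab
      apply hR
      have : r • (r⁻¹ • R a) = r • (r⁻¹ • R b) := congrArg (fun v => r • v) hab
      rwa [smul_smul, smul_smul, mul_inv_cancel₀ hr.ne', one_smul, one_smul] at this
    have hmem' : ∀ j, r⁻¹ • R j ∈ ball (r⁻¹ • w) (1 : ℝ) := by
      intro j
      have hj := hmem j
      rw [mem_ball_iff_norm] at hj ⊢
      rw [← smul_sub, norm_smul, Real.norm_of_nonneg (by positivity)]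
      rw [inv_mul_lt_iff₀ hr, mul_one]
      exact hj
    have key := h κ (fun j => r⁻¹ • R j) (r⁻¹ • w) (n / z) hy hinj hmem'
    rw [jl_vol_scale w r hr]
    set V := volume.real (ball (r⁻¹ • w) (1 : ℝ)) with hVdef
    set W := Wj 1 (n / z) (fun j => r⁻¹ • R j) (r⁻¹ • w) 1 with hW
    have hzr : 0 < z ^ 2 / r := by positivity
    have key2 := mul_le_mul_of_nonneg_left key hzr.le
    refine le_trans ?_ key2
    have e1 : (r ^ 3 * V) ^ (-(1 / 3) : ℝ) = r⁻¹ * V ^ (-(1 / 3) : ℝ) := by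
      rw [Real.mul_rpow (by positivity) hV.le]
      congr 1
      rw [← Real.rpow_natCast r 3, ← Real.rpow_mul hr.le, ← Real.rpow_neg_one]
      norm_num
    have e2 : z ^ 2 * ((n : ℝ) / z) ^ (4 / 3 : ℝ) = z ^ (2 / 3 : ℝ) * (n : ℝ) ^ (4 / 3 : ℝ) := by
      rw [Real.div_rpow (by positivity) hz.le]
      have : z ^ 2 = z ^ (2 / 3 : ℝ) * z ^ (4 / 3 : ℝ) := by
        rw [← Real.rpow_add hz, ← Real.rpow_natCast z 2]
        norm_num
      rw [this]
      have hz43 : 0 < z ^ (4 / 3 : ℝ) := Real.rpow_pos_of_pos hz _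
      field_simp
    rw [e1]
    have e3 : z ^ 2 / r * ((cstar + η / z ^ (2 / 3 : ℝ)) * ((n : ℝ) / z) ^ (4 / 3 : ℝ) *
        V ^ (-(1 / 3) : ℝ)) = (z ^ (2 / 3 : ℝ) * cstar + η) * (n : ℝ) ^ (4 / 3 : ℝ) *
          (r⁻¹ * V ^ (-(1 / 3) : ℝ)) := by
      have : z ^ 2 / r * ((cstar + η / z ^ (2 / 3 : ℝ)) * ((n : ℝ) / z) ^ (4 / 3 : ℝ) *
        V ^ (-(1 / 3) : ℝ)) = (z ^ 2 * ((n : ℝ) / z) ^ (4 / 3 : ℝ)) *
          (cstar + η / z ^ (2 / 3 : ℝ)) * (r⁻¹ * V ^ (-(1 / 3) : ℝ)) := by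
        rw [div_eq_mul_inv]; ring
      rw [this, e2]
      field_simp
    have e4 : z ^ 2 / r * (C * (1 + (n : ℝ) / z)) ≤ C * (z ^ 2 + z) * n / r := by
      have : z ^ 2 / r * (C * (1 + (n : ℝ) / z)) = C * (z ^ 2 + z * n) / r := by
        field_simp
      rw [this]
      apply div_le_div_of_nonneg_right _ hr.le
      nlinarith [mul_pos hC (pow_pos hz 2), mul_nonneg hC.le (sq_nonneg z)]
    have e5 : z ^ 2 / r * -((cstar + η / z ^ (2 / 3 : ℝ)) * ((n : ℝ) / z) ^ (4 / 3 : ℝ) *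
        V ^ (-(1 / 3) : ℝ) + C * (1 + (n : ℝ) / z)) =
        -(z ^ 2 / r * ((cstar + η / z ^ (2 / 3 : ℝ)) * ((n : ℝ) / z) ^ (4 / 3 : ℝ) *
        V ^ (-(1 / 3) : ℝ))) - z ^ 2 / r * (C * (1 + (n : ℝ) / z)) := by ring
    rw [e5, e3]
    linarith

end Pool.Agent.H5R2.NL
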