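import Mathlib
import Pool.Agent.H5R2.NL.Defs
import Pool.Agent.H5R2.NL.JLcore
import Pool.Agent.H5R2.NL.JLB

/-!
# Lower bound for the jellium energy in a ball
-/

set_option autoImplicit false

noncomputable section

namespace Pool.Agent.H5R2.NL

open MeasureTheory Metric
open scoped ENNReal

theorem jell_lower (z η : ℝ) (hz : 0 < z) (hη : 0 < η) : ∃ C : ℝ, 0 < C ∧
    ∀ (κ : Type) [Fintype κ] (R : κ → E3) (w : E3) (r : ℝ) (n : ℕ), 0 < r →
      Function.Injective R → (∀ j, R j ∈ ball w r) →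
      -((z ^ (2 / 3 : ℝ) * cstar + η) * (n : ℝ) ^ (4 / 3 : ℝ) *
          volume.real (ball w r) ^ (-(1 / 3) : ℝ) + C * n / r) ≤ Wj z n R w r :=
  jl_core jell_unit z η hz hη

end Pool.Agent.H5R2.NL
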