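import Mathlib
import Pool.Agent.H5R2.NL.Defs
import Pool.Agent.H5R2.NL.Int

set_option autoImplicit false

noncomputable section

namespace Pool.Agent.H5R2.NL

open MeasureTheory Metric
open scoped ENNReal

/-- the splitting of the coordinates -/
def locE {N : ℕ} (S : Finset (Fin N)) :
    (Fin N → E3) ≃ᵐ (↥S → E3) × ({i : Fin N // i ∉ S} → E3) :=
  MeasurableEquiv.piEquivPiSubtypeProd (fun _ : Fin N => E3) (fun i => i ∈ S)

theorem locE_mp {N : ℕ} (S : Finset (Fin N)) : MeasurePreserving (locE S) volume volume := by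
  have h := volume_preserving_piEquivPiSubtypeProd (fun _ : Fin N => E3) (fun i => i ∈ S)
  have e : (Subtype.fintype fun i => i ∈ S : Fintype {i : Fin N // i ∈ S}) =
      Finset.Subtype.fintype S := Subsingleton.elim _ _
  rw [e] at h
  exact h

/-- extension of the outer coordinates -/
def locX {N : ℕ} (S : Finset (Fin N)) (y' : {i : Fin N // i ∉ S} → E3) : Fin N → E3 :=
  fun i => if h : i ∈ S then 0 else y' ⟨i, h⟩

theorem locE_symm {N : ℕ} (S : Finset (Fin N)) (y : ↥S → E3)
    (y' : {i : Fin N // i ∉ S} → E3) : (locE S).symm (y, y') = glue S y (locX S y') := by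
  funext i
  by_cases h : i ∈ S
  · simp [locE, glue, h, MeasurableEquiv.piEquivPiSubtypeProd, Equiv.piEquivPiSubtypeProd]
  · simp [locE, glue, locX, h, MeasurableEquiv.piEquivPiSubtypeProd,
      Equiv.piEquivPiSubtypeProd]

theorem loc_measurable_inB (w : E3) (r : ℝ) : Measurable (inB w r) := by
  unfold inB
  exact Measurable.ite (measurableSet_lt (by fun_prop) measurable_const) measurable_const
    measurable_const

theorem loc_inB_mem {w : E3} {r : ℝ} {x : E3} (h : x ∈ ball w r) : inB w r x = 1 := by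
  unfold inB
  rw [mem_ball, dist_eq_norm] at h
  rw [if_pos h]

theorem loc_inB_notMem {w : E3} {r : ℝ} {x : E3} (h : x ∉ ball w r) : inB w r x = 0 := by
  unfold inB
  rw [mem_ball, dist_eq_norm] at h
  rw [if_neg h]

theorem loc_inB_le (w : E3) (r : ℝ) (x : E3) : ‖inB w r x‖ ≤ 1 := by
  unfold inB
  split_ifs <;> simp

theorem loc_glue_update {N : ℕ} (S : Finset (Fin N)) (y : ↥S → E3) (x' : Fin N → E3) (i : ↥S)
    (v : E3) : glue S (Function.update y i v) x' = Function.update (glue S y x') i v := by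
  funext j
  by_cases hj : j ∈ S
  · by_cases hji : j = i
    · subst hji
      simp [glue]
    · have : (⟨j, hj⟩ : ↥S) ≠ i := fun h => hji (congrArg Subtype.val h)
      rw [Function.update_of_ne hji]
      simp [glue, hj, this]
  · have hji : j ≠ i := fun h => hj (h ▸ i.2)
    rw [Function.update_of_ne hji]
    simp [glue, hj]

theorem loc_glue_apply {N : ℕ} (S : Finset (Fin N)) (y : ↥S → E3) (x' : Fin N → E3) (i : ↥S) :
    glue S y x' i = y i := by
  simp [glue]

theorem loc_gradSq {N : ℕ} (S : Finset (Fin N)) (ψ : (Fin N → E3) → ℂ) (y : ↥S → E3)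
    (x' : Fin N → E3) (i : ↥S) :
    gradSq (fun y => ψ (glue S y x')) i y = gradSq ψ (i : Fin N) (glue S y x') := by
  unfold gradSq
  rw [loc_glue_apply]
  congr 1
  funext v
  show ψ (glue S (Function.update y i v) x') = _
  rw [loc_glue_update]

theorem loc_sum_S {N : ℕ} (S : Finset (Fin N)) (w : E3) (r : ℝ) (x : Fin N → E3)
    (hx : ∀ i, x i ∈ ball w r ↔ i ∈ S) (f : Fin N → ℝ) :
    ∑ i, inB w r (x i) * f i = ∑ i : ↥S, f i := by
  classical
  have h1 : ∀ i, inB w r (x i) * f i = if i ∈ S then f i else 0 := by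
    intro i
    split_ifs with h
    · rw [loc_inB_mem ((hx i).2 h), one_mul]
    · rw [loc_inB_notMem (fun h' => h ((hx i).1 h')), zero_mul]
  simp_rw [h1]
  rw [Finset.sum_ite_mem, Finset.univ_inter, ← Finset.sum_coe_sort]

theorem loc_sum_R {K : ℕ} (R : Fin K → E3) (w : E3) (r : ℝ) (f : Fin K → ℝ) :
    ∑ j, inB w r (R j) * f j = ∑ j : {j : Fin K // R j ∈ ball w r}, f j := by
  classical
  have h1 : ∀ j, inB w r (R j) * f j = if R j ∈ ball w r then f j else 0 := by
    intro j
    split_ifs with h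
    · rw [loc_inB_mem h, one_mul]
    · rw [loc_inB_notMem h, zero_mul]
  simp_rw [h1]
  rw [← Finset.sum_filter]
  exact Finset.sum_subtype _ (by simp) f

theorem loc_coulB {N K : ℕ} (S : Finset (Fin N)) (z : ℝ) (R : Fin K → E3) (w : E3) (r : ℝ)
    (x : Fin N → E3) (hx : ∀ i, x i ∈ ball w r ↔ i ∈ S) :
    coulB z x R w r = coul z (fun i : ↥S => x i)
      (fun j : {j : Fin K // R j ∈ ball w r} => R j.1) := by
  unfold coulB coul
  have e1 : ∑ i, ∑ j, inB w r (x i) * inB w r (x j) / ‖x i - x j‖ =
      ∑ i : ↥S, ∑ j : ↥S, 1 / ‖x i - x j‖ := by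
    rw [← loc_sum_S S w r x hx (fun i => ∑ j : ↥S, 1 / ‖x i - x j‖)]
    refine Finset.sum_congr rfl fun i _ => ?_
    rw [← loc_sum_S S w r x hx (fun j => 1 / ‖x i - x j‖), Finset.mul_sum]
    exact Finset.sum_congr rfl fun j _ => by ring
  have e2 : ∑ i, ∑ j, inB w r (x i) * inB w r (R j) / ‖x i - R j‖ =
      ∑ i : ↥S, ∑ j : {j : Fin K // R j ∈ ball w r}, 1 / ‖x i - R j‖ := by
    rw [← loc_sum_S S w r x hx
      (fun i => ∑ j : {j : Fin K // R j ∈ ball w r}, 1 / ‖x i - R j‖)]
    refine Finset.sum_congr rfl fun i _ => ?_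
    rw [← loc_sum_R R w r (fun j => 1 / ‖x i - R j‖), Finset.mul_sum]
    exact Finset.sum_congr rfl fun j _ => by ring
  have e3 : ∑ i, ∑ j, inB w r (R i) * inB w r (R j) / ‖R i - R j‖ =
      ∑ i : {j : Fin K // R j ∈ ball w r}, ∑ j : {j : Fin K // R j ∈ ball w r},
        1 / ‖R i - R j‖ := by
    rw [← loc_sum_R R w r (fun i => ∑ j : {j : Fin K // R j ∈ ball w r}, 1 / ‖R i - R j‖)]
    refine Finset.sum_congr rfl fun i _ => ?_
    rw [← loc_sum_R R w r (fun j => 1 / ‖R i - R j‖), Finset.mul_sum]
    exact Finset.sum_congr rfl fun j _ => by ring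
  rw [e1, e2, e3]

theorem loc_contDiff_glue {N : ℕ} (S : Finset (Fin N)) (x' : Fin N → E3) :
    ContDiff ℝ 1 (fun y : ↥S → E3 => glue S y x') := by
  rw [contDiff_pi]
  intro i
  by_cases h : i ∈ S
  · simp only [glue, h, dif_pos]
    fun_prop
  · simp only [glue, h, dif_neg, not_false_eq_true]
    fun_prop

theorem loc_measurable_PB {ι : Type} [Fintype ι] (w : E3) (r : ℝ) : MeasurableSet (PB ι w r) :=
  MeasurableSet.univ_pi fun _ => measurableSet_ball

theorem loc_cont_integrableOn {ι : Type} [Fintype ι] (w : E3) (r : ℝ) (f : (ι → E3) → ℝ)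
    (hf : Continuous f) : IntegrableOn f (PB ι w r) := by
  have hK : IsCompact (Set.pi Set.univ fun _ : ι => closedBall w r) :=
    isCompact_univ_pi fun _ => isCompact_closedBall w r
  refine (hf.continuousOn.integrableOn_compact hK).mono_set ?_
  intro x hx i hi
  exact ball_subset_closedBall (hx i hi)

theorem loc_int_PB {ι κ : Type} [Fintype ι] [Fintype κ] (z : ℝ) (R : κ → E3) (w : E3) (r : ℝ)
    (u : (ι → E3) → ℂ) (hu : Continuous u) (Q : (ι → E3) → ℝ) (hQm : Measurable Q)
    (hQb : ∃ B, ∀ x, |Q x| ≤ B) :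
    IntegrableOn (fun y => (coul z y R + Q y) * ‖u y‖ ^ 2) (PB ι w r) := by
  obtain ⟨B, hB⟩ := hQb
  have h1 : IntegrableOn (fun y => ∑ i, ∑ j, 1 / ‖y i - y j‖ * ‖u y‖ ^ 2) (PB ι w r) :=
    integrable_finsetSum _ fun i _ => integrable_finsetSum _ fun j _ =>
      integrableOn_ee w r u hu i j
  have h2 : IntegrableOn (fun y => ∑ i, ∑ j, 1 / ‖y i - R j‖ * ‖u y‖ ^ 2) (PB ι w r) :=
    integrable_finsetSum _ fun i _ => integrable_finsetSum _ fun j _ =>
      integrableOn_en w r u hu i (R j)
  have h3 : IntegrableOn (fun y => ‖u y‖ ^ 2) (PB ι w r) :=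
    loc_cont_integrableOn w r _ (by fun_prop)
  have h4 : IntegrableOn (fun y => Q y * ‖u y‖ ^ 2) (PB ι w r) :=
    Integrable.bdd_mul (c := B) h3 hQm.aestronglyMeasurable (Filter.Eventually.of_forall hB)
  have h5 := (((h1.const_mul (1 / 2)).sub (h2.const_mul z)).add
    (h3.const_mul (z ^ 2 / 2 * ∑ i, ∑ j, 1 / ‖R i - R j‖))).add h4
  refine h5.congr (Filter.Eventually.of_forall fun y => ?_)
  simp only [Pi.add_apply, Pi.sub_apply, coul, ← Finset.sum_mul]
  ring

theorem loc {N K : ℕ} (z ε : ℝ) (R : Fin K → E3) (w : E3) (r : ℝ) (hr : 0 < r)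
    (hε : 0 ≤ ε) (ψ : (Fin N → E3) → ℂ) (hψ : ContDiff ℝ 1 ψ) (hc : HasCompactSupport ψ)
    (Q : (Fin N → E3) → ℝ) (hQm : Measurable Q) (hQb : ∃ B, ∀ x, |Q x| ≤ B)
    (h : ∀ (S : Finset (Fin N)) (x' : Fin N → E3) (u : (↥S → E3) → ℂ),
      (∀ i, i ∉ S → x' i ∉ ball w r) → ContDiff ℝ 1 u →
      0 ≤ ε * (∑ i, ∫ y in PB ↥S w r, gradSq u i y) +
        (∫ y in PB ↥S w r, (coul z y (fun j : {j : Fin K // R j ∈ ball w r} => R j.1)
          + Q (glue S y x')) * ‖u y‖ ^ 2)) :
    0 ≤ ε * (∫ x, ∑ i, inB w r (x i) * gradSq ψ i x) +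
      (∫ x, (coulB z x R w r + Q x) * ‖ψ x‖ ^ 2) := by
  classical
  have hinB := loc_measurable_inB w r
  have hinBi : ∀ i : Fin N, Measurable (fun x : Fin N → E3 => inB w r (x i)) := fun i =>
    hinB.comp (measurable_pi_apply i)
  -- integrability
  have hG1 : Integrable (fun x : Fin N → E3 => ∑ i, inB w r (x i) * gradSq ψ i x) :=
    integrable_finsetSum _ fun i _ => Integrable.bdd_mul (c := 1) (integrable_gradSq ψ hψ hc i)
      (hinBi i).aestronglyMeasurable (Filter.Eventually.of_forall fun x => loc_inB_le _ _ _)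
  have hψc : Continuous ψ := hψ.continuous
  have h3 : Integrable (fun x => ‖ψ x‖ ^ 2) := by
    refine Continuous.integrable_of_hasCompactSupport (by fun_prop) ?_
    exact hc.comp_left (g := fun c : ℂ => ‖c‖ ^ 2) (by simp)
  have hG2 : Integrable (fun x => (coulB z x R w r + Q x) * ‖ψ x‖ ^ 2) := by
    obtain ⟨B, hB⟩ := hQb
    have hb2 : ∀ a b : E3, ‖inB w r a * inB w r b‖ ≤ 1 := by
      intro a b
      rw [norm_mul]
      exact mul_le_one₀ (loc_inB_le _ _ _) (norm_nonneg _) (loc_inB_le _ _ _)
    have h1 : Integrable (fun x : Fin N → E3 => ∑ i, ∑ j, (inB w r (x i) * inB w r (x j)) *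
        (1 / ‖x i - x j‖ * ‖ψ x‖ ^ 2)) :=
      integrable_finsetSum _ fun i _ => integrable_finsetSum _ fun j _ =>
        Integrable.bdd_mul (c := 1) (integrable_ee ψ hψc hc i j)
          ((hinBi i).mul (hinBi j)).aestronglyMeasurable
          (Filter.Eventually.of_forall fun x => hb2 _ _)
    have h2 : Integrable (fun x : Fin N → E3 => ∑ i, ∑ j, (inB w r (x i) * inB w r (R j)) *
        (1 / ‖x i - R j‖ * ‖ψ x‖ ^ 2)) :=
      integrable_finsetSum _ fun i _ => integrable_finsetSum _ fun j _ =>
        Integrable.bdd_mul (c := 1) (integrable_en ψ hψc hc i (R j))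
          ((hinBi i).mul measurable_const).aestronglyMeasurable
          (Filter.Eventually.of_forall fun x => hb2 _ _)
    have h4 : Integrable (fun x => Q x * ‖ψ x‖ ^ 2) :=
      Integrable.bdd_mul (c := B) h3 hQm.aestronglyMeasurable (Filter.Eventually.of_forall hB)
    have h5 := (((h1.const_mul (1 / 2)).sub (h2.const_mul z)).add
      (h3.const_mul (z ^ 2 / 2 * ∑ i, ∑ j, inB w r (R i) * inB w r (R j) / ‖R i - R j‖))).add h4
    refine h5.congr (Filter.Eventually.of_forall fun x => ?_)
    simp only [Pi.add_apply, Pi.sub_apply, coulB]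
    have e1 : ∑ i, ∑ j, (inB w r (x i) * inB w r (x j)) * (1 / ‖x i - x j‖ * ‖ψ x‖ ^ 2) =
        (∑ i, ∑ j, inB w r (x i) * inB w r (x j) / ‖x i - x j‖) * ‖ψ x‖ ^ 2 := by
      simp only [Finset.sum_mul]
      exact Finset.sum_congr rfl fun i _ => Finset.sum_congr rfl fun j _ => by ring
    have e2 : ∑ i, ∑ j, (inB w r (x i) * inB w r (R j)) * (1 / ‖x i - R j‖ * ‖ψ x‖ ^ 2) =
        (∑ i, ∑ j, inB w r (x i) * inB w r (R j) / ‖x i - R j‖) * ‖ψ x‖ ^ 2 := by
      simp only [Finset.sum_mul]
      exact Finset.sum_congr rfl fun i _ => Finset.sum_congr rfl fun j _ => by ring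
    rw [e1, e2]
    ring
  set G : (Fin N → E3) → ℝ := fun x =>
    ε * (∑ i, inB w r (x i) * gradSq ψ i x) + (coulB z x R w r + Q x) * ‖ψ x‖ ^ 2 with hGdef
  have hG : Integrable G := (hG1.const_mul ε).add hG2
  have e0 : ε * (∫ x, ∑ i, inB w r (x i) * gradSq ψ i x) +
      (∫ x, (coulB z x R w r + Q x) * ‖ψ x‖ ^ 2) = ∫ x, G x := by
    rw [hGdef, integral_add (hG1.const_mul ε) hG2, integral_const_mul]
  rw [e0]
  set A : Finset (Fin N) → Set (Fin N → E3) := fun S => {x | ∀ i, x i ∈ ball w r ↔ i ∈ S}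
    with hAdef
  have hA : ∀ S, MeasurableSet (A S) := by
    intro S
    have : A S = ⋂ i : Fin N, {x : Fin N → E3 | x i ∈ ball w r ↔ i ∈ S} := by
      ext x; simp [hAdef]
    rw [this]
    refine MeasurableSet.iInter fun i => ?_
    have hi : MeasurableSet {x : Fin N → E3 | x i ∈ ball w r} :=
      measurable_pi_apply i measurableSet_ball
    by_cases hS : i ∈ S
    · simpa [hS] using hi
    · have hc' : {x : Fin N → E3 | x i ∈ ball w r ↔ i ∈ S} = {x | x i ∈ ball w r}ᶜ := by
        ext x
        simp only [Set.mem_ofPred_eq, Set.mem_compl_iff, hS, iff_false]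
      rw [hc']
      exact hi.compl
  have hdec : ∀ x, G x = ∑ S : Finset (Fin N), (A S).indicator G x := by
    intro x
    rw [Finset.sum_eq_single (Finset.univ.filter (fun i => x i ∈ ball w r))]
    · rw [Set.indicator_of_mem]
      intro i
      simp
    · intro S _ hS
      rw [Set.indicator_of_notMem]
      intro hx
      apply hS
      ext i
      rw [Finset.mem_filter]
      simp only [Finset.mem_univ, true_and]
      exact (hx i).symm
    · intro hx
      exact absurd (Finset.mem_univ _) hx
  have e1 : ∫ x, G x = ∑ S : Finset (Fin N), ∫ x, (A S).indicator G x := by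
    rw [← integral_finsetSum _ fun S _ => hG.indicator (hA S)]
    exact integral_congr_ae (Filter.Eventually.of_forall hdec)
  rw [e1]
  refine Finset.sum_nonneg fun S _ => ?_
  have hmp := (locE_mp S).symm (locE S)
  have hFint : Integrable ((A S).indicator G) := hG.indicator (hA S)
  have hFint2 : Integrable (fun p => (A S).indicator G ((locE S).symm p)) :=
    (hmp.integrable_comp_emb (locE S).symm.measurableEmbedding).2 hFint
  have e2 : ∫ x, (A S).indicator G x = ∫ p, (A S).indicator G ((locE S).symm p) :=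
    (hmp.integral_comp (locE S).symm.measurableEmbedding _).symm
  rw [e2]
  have e3 : ∫ p, (A S).indicator G ((locE S).symm p) =
      ∫ y' : {i : Fin N // i ∉ S} → E3, ∫ y : ↥S → E3, (A S).indicator G ((locE S).symm (y, y')) :=
    integral_prod_symm _ hFint2
  rw [e3]
  refine integral_nonneg fun y' => ?_
  simp only [locE_symm, Pi.zero_apply]
  by_cases hout : ∀ i, i ∉ S → locX S y' i ∉ ball w r
  · have e4 : (fun y : ↥S → E3 => (A S).indicator G (glue S y (locX S y'))) =
        (PB ↥S w r).indicator (fun y => G (glue S y (locX S y'))) := by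
      funext y
      by_cases hy : y ∈ PB ↥S w r
      · rw [Set.indicator_of_mem hy, Set.indicator_of_mem]
        intro i
        by_cases hi : i ∈ S
        · simp only [hi, iff_true]
          have := loc_glue_apply S y (locX S y') ⟨i, hi⟩
          simp only at this
          rw [this]
          exact hy ⟨i, hi⟩ (Set.mem_univ _)
        · simp only [hi, iff_false]
          have : glue S y (locX S y') i = locX S y' i := by simp [glue, hi]
          rw [this]
          exact hout i hi
      · rw [Set.indicator_of_notMem hy, Set.indicator_of_notMem]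
        intro hx
        apply hy
        intro i _
        have := loc_glue_apply S y (locX S y') i
        rw [← this]
        exact (hx i).2 i.2
    rw [e4, integral_indicator (loc_measurable_PB w r)]
    set u : (↥S → E3) → ℂ := fun y => ψ (glue S y (locX S y')) with hu
    have hucd : ContDiff ℝ 1 u := hψ.comp (loc_contDiff_glue S (locX S y'))
    have hmain := h S (locX S y') u hout hucd
    have hglm : Measurable (fun y : ↥S → E3 => glue S y (locX S y')) :=
      (loc_contDiff_glue S (locX S y')).continuous.measurable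
    have i1 : IntegrableOn (fun y => ∑ i, gradSq u i y) (PB ↥S w r) :=
      integrable_finsetSum _ fun i _ =>
        loc_cont_integrableOn w r _ (continuous_gradSq u hucd i)
    have i2 : IntegrableOn (fun y => (coul z y
        (fun j : {j : Fin K // R j ∈ ball w r} => R j.1) + Q (glue S y (locX S y'))) *
          ‖u y‖ ^ 2) (PB ↥S w r) :=
      loc_int_PB z _ w r u hucd.continuous (fun y => Q (glue S y (locX S y')))
        (hQm.comp hglm) ⟨hQb.choose, fun y => hQb.choose_spec _⟩
    have e5 : ∫ y in PB ↥S w r, G (glue S y (locX S y')) =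
        ∫ y in PB ↥S w r, (ε * (∑ i, gradSq u i y) + (coul z y
        (fun j : {j : Fin K // R j ∈ ball w r} => R j.1) + Q (glue S y (locX S y'))) *
          ‖u y‖ ^ 2) := by
      refine setIntegral_congr_fun (loc_measurable_PB w r) fun y hy => ?_
      have hxA : ∀ i, glue S y (locX S y') i ∈ ball w r ↔ i ∈ S := by
        intro i
        by_cases hi : i ∈ S
        · simp only [hi, iff_true]
          have := loc_glue_apply S y (locX S y') ⟨i, hi⟩
          simp only at this
          rw [this]
          exact hy ⟨i, hi⟩ (Set.mem_univ _)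
        · simp only [hi, iff_false]
          have : glue S y (locX S y') i = locX S y' i := by simp [glue, hi]
          rw [this]
          exact hout i hi
      simp only [hGdef]
      rw [loc_sum_S S w r _ hxA (fun i => gradSq ψ i (glue S y (locX S y'))),
        loc_coulB S z R w r _ hxA]
      simp only [loc_glue_apply, hu, loc_gradSq]
    rw [e5, integral_add (i1.const_mul ε) i2, integral_const_mul,
      integral_finsetSum _ fun i _ => loc_cont_integrableOn w r _ (continuous_gradSq u hucd i)]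
    exact hmain
  · have e4 : (fun y : ↥S → E3 => (A S).indicator G (glue S y (locX S y'))) = fun _ => 0 := by
      funext y
      rw [Set.indicator_of_notMem]
      intro hx
      apply hout
      intro i hi hmem
      have : glue S y (locX S y') i = locX S y' i := by simp [glue, hi]
      exact hi ((hx i).1 (by rw [this]; exact hmem))
    rw [e4]
    simp

end Pool.Agent.H5R2.NL
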