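import Mathlib
import Pool.Agent.H5R2.NL.Defs
import Pool.Agent.H5R2.NL.Sob0

/-!
# Dual Sobolev inequality
-/

set_option autoImplicit false

noncomputable section

namespace Pool.Agent.H5R2.NL

open MeasureTheory Metric
open scoped ENNReal

theorem sob_memLp_of_rpow (W : E3 → ℝ) (p : ℝ) (hp : 0 < p) (h0 : ∀ x, 0 ≤ W x) (hm : Measurable W)
    (hi : Integrable fun x => W x ^ p) : MemLp W (ENNReal.ofReal p) := by
  have h1 : ENNReal.ofReal p ≠ 0 := by simpa using hp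
  rw [← integrable_norm_rpow_iff hm.aestronglyMeasurable h1 ENNReal.ofReal_ne_top,
    ENNReal.toReal_ofReal hp.le]
  refine hi.congr (Filter.Eventually.of_forall fun x => ?_)
  simp only [Real.norm_of_nonneg (h0 x)]

theorem sob_memLp_norm (u : E3 → ℂ) (hu : Continuous u) (hc : HasCompactSupport u) (a : ℝ)
    (ha : 0 < a) (p : ℝ≥0∞) : MemLp (fun x => ‖u x‖ ^ a) p := by
  have h1 : Continuous fun x => ‖u x‖ ^ a := hu.norm.rpow_const fun _ => Or.inr ha.le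
  have h2 : HasCompactSupport fun x => ‖u x‖ ^ a :=
    hc.comp_left (g := fun z : ℂ => ‖z‖ ^ a) (by simp [ha.ne'])
  exact h1.memLp_of_hasCompactSupport h2

theorem sob_dual : ∃ C : ℝ, 0 < C ∧ ∀ (W : E3 → ℝ) (u : E3 → ℂ), (∀ x, 0 ≤ W x) →
    Measurable W → (∃ B, ∀ x, W x ≤ B) → (Integrable fun x => W x ^ (3 / 2 : ℝ)) →
    ContDiff ℝ 1 u → HasCompactSupport u →
    ∫ x, W x * ‖u x‖ ^ 2 ≤ C * (∫ x, W x ^ (3 / 2 : ℝ)) ^ (2 / 3 : ℝ) * (∫ x, gsq u x) := by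
  obtain ⟨C, hC, hsob⟩ := sob_six
  refine ⟨C ^ (1 / 3 : ℝ), by positivity, fun W u h0 hm _ hi hu hc => ?_⟩
  have hpq : (3 / 2 : ℝ).HolderConjugate 3 := by
    rw [Real.holderConjugate_iff]; norm_num
  have hH := integral_mul_le_Lp_mul_Lq_of_nonneg (μ := (volume : Measure E3)) hpq (f := W)
    (g := fun x => ‖u x‖ ^ (2 : ℝ)) (Filter.Eventually.of_forall h0)
    (Filter.Eventually.of_forall fun x => by positivity)
    (sob_memLp_of_rpow W _ (by norm_num) h0 hm hi)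
    (sob_memLp_norm u hu.continuous hc 2 (by norm_num) _)
  have hG0 : 0 ≤ ∫ x, gsq u x := integral_nonneg fun x => sob_gsq_nonneg u x
  have e1 : ∀ x, (‖u x‖ ^ (2 : ℝ)) ^ (3 : ℝ) = ‖u x‖ ^ (6 : ℝ) := by
    intro x; rw [← Real.rpow_mul (norm_nonneg _)]; norm_num
  simp only [e1] at hH
  have hs := hsob u hu hc
  have e2 : ∫ x, W x * ‖u x‖ ^ 2 = ∫ x, W x * ‖u x‖ ^ (2 : ℝ) := by
    simp only [show (2 : ℝ) = ((2 : ℕ) : ℝ) by norm_num, Real.rpow_natCast]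
  rw [e2]
  have hA0 : 0 ≤ ∫ x, ‖u x‖ ^ (6 : ℝ) := integral_nonneg fun _ => by positivity
  have hW0 : 0 ≤ ∫ x, W x ^ (3 / 2 : ℝ) := integral_nonneg fun x => Real.rpow_nonneg (h0 x) _
  have e3 : (∫ x, ‖u x‖ ^ (6 : ℝ)) ^ (1 / 3 : ℝ) ≤ C ^ (1 / 3 : ℝ) * ∫ x, gsq u x := by
    calc (∫ x, ‖u x‖ ^ (6 : ℝ)) ^ (1 / 3 : ℝ) ≤ (C * (∫ x, gsq u x) ^ 3) ^ (1 / 3 : ℝ) := by
          gcongr
      _ = C ^ (1 / 3 : ℝ) * ∫ x, gsq u x := by
          rw [Real.mul_rpow hC.le (by positivity), ← Real.rpow_natCast (∫ x, gsq u x),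
            ← Real.rpow_mul hG0]
          norm_num
  have e4 : (1 : ℝ) / (3 / 2) = 2 / 3 := by norm_num
  rw [e4] at hH
  calc ∫ x, W x * ‖u x‖ ^ (2 : ℝ) ≤ (∫ x, W x ^ (3 / 2 : ℝ)) ^ (2 / 3 : ℝ) *
        (∫ x, ‖u x‖ ^ (6 : ℝ)) ^ (1 / 3 : ℝ) := hH
    _ ≤ (∫ x, W x ^ (3 / 2 : ℝ)) ^ (2 / 3 : ℝ) * (C ^ (1 / 3 : ℝ) * ∫ x, gsq u x) := by gcongr
    _ = _ := by ring

end Pool.Agent.H5R2.NL
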