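import Mathlib
import Pool.Agent.H5R2.NL.Defs
import Pool.Agent.H5R2.NL.Sob0
import Pool.Agent.H5R2.NL.SobB

/-!
# The constant `Gam` and the one-body inequality
-/

set_option autoImplicit false

noncomputable section

namespace Pool.Agent.H5R2.NL

open MeasureTheory Metric
open scoped ENNReal

theorem sob_pow_two (u : E3 → ℂ) : ∫ x, ‖u x‖ ^ 2 = ∫ x, ‖u x‖ ^ (2 : ℝ) := by
  simp only [show (2 : ℝ) = ((2 : ℕ) : ℝ) by norm_num, Real.rpow_natCast]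

/-- Gagliardo-Nirenberg -/
theorem sob_gn : ∃ C : ℝ, 0 < C ∧ ∀ u : E3 → ℂ, ContDiff ℝ 1 u → HasCompactSupport u →
    (∫ x, ‖u x‖ ^ (8 / 3 : ℝ)) ^ 2 ≤ C * (∫ x, gsq u x) * (∫ x, ‖u x‖ ^ 2) ^ (5 / 3 : ℝ) := by
  obtain ⟨C, hC, hsob⟩ := sob_six
  refine ⟨C ^ (1 / 3 : ℝ), by positivity, fun u hu hc => ?_⟩
  have hpq : (6 / 5 : ℝ).HolderConjugate 6 := by
    rw [Real.holderConjugate_iff]; norm_num
  have hH := integral_mul_le_Lp_mul_Lq_of_nonneg (μ := (volume : Measure E3)) hpq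
    (f := fun x => ‖u x‖ ^ (5 / 3 : ℝ))
    (g := fun x => ‖u x‖ ^ (1 : ℝ)) (Filter.Eventually.of_forall fun x => by positivity)
    (Filter.Eventually.of_forall fun x => by positivity)
    (sob_memLp_norm u hu.continuous hc _ (by norm_num) _)
    (sob_memLp_norm u hu.continuous hc _ (by norm_num) _)
  have hG0 : 0 ≤ ∫ x, gsq u x := integral_nonneg fun x => sob_gsq_nonneg u x
  have e1 : ∀ x, (‖u x‖ ^ (1 : ℝ)) ^ (6 : ℝ) = ‖u x‖ ^ (6 : ℝ) := by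
    intro x; rw [← Real.rpow_mul (norm_nonneg _)]; norm_num
  have e2 : ∀ x, (‖u x‖ ^ (5 / 3 : ℝ)) ^ (6 / 5 : ℝ) = ‖u x‖ ^ (2 : ℝ) := by
    intro x; rw [← Real.rpow_mul (norm_nonneg _)]; norm_num
  have e3 : ∀ x, ‖u x‖ ^ (5 / 3 : ℝ) * ‖u x‖ ^ (1 : ℝ) = ‖u x‖ ^ (8 / 3 : ℝ) := by
    intro x; rw [← Real.rpow_add_of_nonneg (norm_nonneg _) (by norm_num) (by norm_num)]; norm_num
  simp only [e1, e2, e3] at hH
  rw [← sob_pow_two] at hH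
  have hs := hsob u hu hc
  have hA0 : 0 ≤ ∫ x, ‖u x‖ ^ (6 : ℝ) := integral_nonneg fun _ => by positivity
  have hM0 : 0 ≤ ∫ x, ‖u x‖ ^ 2 := integral_nonneg fun x => by positivity
  have hS0 : 0 ≤ ∫ x, ‖u x‖ ^ (8 / 3 : ℝ) := integral_nonneg fun x => by positivity
  have e5 : ((∫ x, ‖u x‖ ^ (6 : ℝ)) ^ (1 / 6 : ℝ)) ^ 2 ≤ C ^ (1 / 3 : ℝ) * ∫ x, gsq u x := by
    calc ((∫ x, ‖u x‖ ^ (6 : ℝ)) ^ (1 / 6 : ℝ)) ^ 2 ≤ ((C * (∫ x, gsq u x) ^ 3) ^ (1 / 6 : ℝ)) ^ 2 := by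
          gcongr
      _ = C ^ (1 / 3 : ℝ) * ∫ x, gsq u x := by
          rw [← Real.rpow_natCast ((C * (∫ x, gsq u x) ^ 3) ^ (1 / 6 : ℝ)) 2,
            ← Real.rpow_mul (by positivity),
            Real.mul_rpow hC.le (by positivity), ← Real.rpow_natCast (∫ x, gsq u x),
            ← Real.rpow_mul hG0]
          norm_num
  have e6 : ((∫ x, ‖u x‖ ^ 2) ^ (1 / (6 / 5) : ℝ)) ^ 2 = (∫ x, ‖u x‖ ^ 2) ^ (5 / 3 : ℝ) := by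
    rw [← Real.rpow_natCast ((∫ x, ‖u x‖ ^ 2) ^ (1 / (6 / 5) : ℝ)) 2, ← Real.rpow_mul hM0]
    norm_num
  calc (∫ x, ‖u x‖ ^ (8 / 3 : ℝ)) ^ 2 ≤ ((∫ x, ‖u x‖ ^ 2) ^ (1 / (6 / 5) : ℝ) *
        (∫ x, ‖u x‖ ^ (6 : ℝ)) ^ (1 / 6 : ℝ)) ^ 2 := by gcongr
    _ = (∫ x, ‖u x‖ ^ 2) ^ (5 / 3 : ℝ) * ((∫ x, ‖u x‖ ^ (6 : ℝ)) ^ (1 / 6 : ℝ)) ^ 2 := by
        rw [mul_pow, e6]
    _ ≤ (∫ x, ‖u x‖ ^ 2) ^ (5 / 3 : ℝ) * (C ^ (1 / 3 : ℝ) * ∫ x, gsq u x) := by gcongr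
    _ = _ := by ring

theorem gam_bdd : BddAbove {q | ∃ u : E3 → ℂ, ContDiff ℝ ((⊤ : ℕ∞) : WithTop ℕ∞) u ∧
    HasCompactSupport u ∧ ∫ x, ‖u x‖ ^ 2 = 1 ∧
    q = (∫ x, ‖u x‖ ^ (8 / 3 : ℝ)) ^ 2 / (∫ x, gsq u x)} := by
  obtain ⟨C, hC, h⟩ := sob_gn
  refine ⟨C, ?_⟩
  rintro q ⟨u, hu, hc, h1, rfl⟩
  have h2 := h u (hu.of_le (by exact_mod_cast le_top)) hc
  rw [h1, Real.one_rpow, mul_one] at h2
  have hG0 : 0 ≤ ∫ x, gsq u x := integral_nonneg fun x => sob_gsq_nonneg u x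
  rcases hG0.eq_or_lt with h0 | h0
  · rw [← h0, div_zero]; exact hC.le
  · rw [div_le_iff₀ h0]; exact h2

theorem sob_gam_nonneg : 0 ≤ Gam := by
  apply Real.sSup_nonneg
  rintro q ⟨u, hu, hc, h1, rfl⟩
  have hG0 : 0 ≤ ∫ x, gsq u x := integral_nonneg fun x => sob_gsq_nonneg u x
  positivity

theorem sob_gsq_smul (c : ℝ) (u : E3 → ℂ) (hu : ContDiff ℝ 1 u) (x : E3) :
    gsq (fun y => (c : ℂ) * u y) x = c ^ 2 * gsq u x := by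
  unfold gsq
  rw [Finset.mul_sum]
  refine Finset.sum_congr rfl fun i _ => ?_
  have h1 : fderiv ℝ (fun y => (c : ℂ) * u y) x = (c : ℂ) • fderiv ℝ u x := by
    exact fderiv_const_mul (hu.differentiable (by norm_num) x) (c : ℂ)
  rw [h1]
  change ‖(c : ℂ) • (fderiv ℝ u x) (EuclideanSpace.single i 1)‖ ^ 2 = _
  rw [norm_smul, mul_pow]
  simp

/-- homogeneous form of the inequality defining `Gam` -/
theorem sob_gam (u : E3 → ℂ) (hu : ContDiff ℝ ((⊤ : ℕ∞) : WithTop ℕ∞) u)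
    (hc : HasCompactSupport u) :
    (∫ x, ‖u x‖ ^ (8 / 3 : ℝ)) ^ 2 ≤ Gam * (∫ x, gsq u x) * (∫ x, ‖u x‖ ^ 2) ^ (5 / 3 : ℝ) := by
  obtain ⟨C, hC, h⟩ := sob_gn
  have hu1 : ContDiff ℝ 1 u := hu.of_le (by exact_mod_cast le_top)
  have h2 := h u hu1 hc
  have hG0 : 0 ≤ ∫ x, gsq u x := integral_nonneg fun x => sob_gsq_nonneg u x
  have hM0 : 0 ≤ ∫ x, ‖u x‖ ^ 2 := integral_nonneg fun x => by positivity
  have hS0 : 0 ≤ ∫ x, ‖u x‖ ^ (8 / 3 : ℝ) := integral_nonneg fun x => by positivity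
  have hGam := sob_gam_nonneg
  rcases hM0.eq_or_lt with hM | hM
  · rw [← hM, Real.zero_rpow (by norm_num), mul_zero] at h2
    rw [← hM, Real.zero_rpow (by norm_num), mul_zero]
    exact h2
  rcases hG0.eq_or_lt with hG | hG
  · rw [← hG, mul_zero, zero_mul] at h2
    rw [← hG, mul_zero, zero_mul]
    exact h2
  set M := ∫ x, ‖u x‖ ^ 2 with hMd
  set c : ℝ := M ^ (-(1 / 2) : ℝ) with hcd
  have hc0 : 0 < c := by positivity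
  have hcM : c ^ 2 * M = 1 := by
    rw [hcd, ← Real.rpow_natCast (M ^ (-(1 / 2) : ℝ)), ← Real.rpow_mul hM.le]
    have : M = M ^ (1 : ℝ) := (Real.rpow_one M).symm
    nth_rw 2 [this]
    rw [← Real.rpow_add hM]
    norm_num
  have hv : ContDiff ℝ ((⊤ : ℕ∞) : WithTop ℕ∞) (fun y => (c : ℂ) * u y) := contDiff_const.mul hu
  have hvc : HasCompactSupport (fun y => (c : ℂ) * u y) := hc.mul_left
  have hn : ∀ x, ‖(c : ℂ) * u x‖ = c * ‖u x‖ := by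
    intro x; rw [norm_mul, Complex.norm_real, Real.norm_of_nonneg hc0.le]
  have hv1 : ∫ x, ‖(c : ℂ) * u x‖ ^ 2 = 1 := by
    simp only [hn, mul_pow]
    rw [integral_const_mul]
    exact hcM
  have hq := le_csSup gam_bdd ⟨fun y => (c : ℂ) * u y, hv, hvc, hv1, rfl⟩
  change _ ≤ Gam at hq
  have hS : ∫ x, ‖(c : ℂ) * u x‖ ^ (8 / 3 : ℝ) = c ^ (8 / 3 : ℝ) * ∫ x, ‖u x‖ ^ (8 / 3 : ℝ) := by
    simp only [hn, Real.mul_rpow hc0.le (norm_nonneg _)]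
    rw [integral_const_mul]
  have hGv : ∫ x, gsq (fun y => (c : ℂ) * u y) x = c ^ 2 * ∫ x, gsq u x := by
    simp only [sob_gsq_smul c u hu1]
    rw [integral_const_mul]
  simp only at hq
  rw [hS, hGv, div_le_iff₀ (by positivity), mul_pow] at hq
  have e1 : (c ^ (8 / 3 : ℝ)) ^ 2 = M ^ (-(8 / 3) : ℝ) := by
    rw [hcd, ← Real.rpow_natCast ((M ^ (-(1 / 2) : ℝ)) ^ (8 / 3 : ℝ)), ← Real.rpow_mul hM.le,
      ← Real.rpow_mul hM.le]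
    norm_num
  have e2 : c ^ 2 = M ^ (-1 : ℝ) := by
    rw [hcd, ← Real.rpow_natCast (M ^ (-(1 / 2) : ℝ)), ← Real.rpow_mul hM.le]
    norm_num
  rw [e1, e2] at hq
  have e3 : M ^ (8 / 3 : ℝ) * M ^ (-(8 / 3) : ℝ) = 1 := by
    rw [← Real.rpow_add hM]; norm_num
  have e4 : M ^ (8 / 3 : ℝ) * M ^ (-1 : ℝ) = M ^ (5 / 3 : ℝ) := by
    rw [← Real.rpow_add hM]; norm_num
  have hpos : 0 < M ^ (8 / 3 : ℝ) := by positivity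
  calc (∫ x, ‖u x‖ ^ (8 / 3 : ℝ)) ^ 2 = M ^ (8 / 3 : ℝ) * (M ^ (-(8 / 3) : ℝ) *
        (∫ x, ‖u x‖ ^ (8 / 3 : ℝ)) ^ 2) := by rw [← mul_assoc, e3, one_mul]
    _ ≤ M ^ (8 / 3 : ℝ) * (Gam * (M ^ (-1 : ℝ) * ∫ x, gsq u x)) := by gcongr
    _ = Gam * (∫ x, gsq u x) * (M ^ (8 / 3 : ℝ) * M ^ (-1 : ℝ)) := by ring
    _ = _ := by rw [e4]

theorem one_body (U : E3 → ℝ) (hU0 : ∀ x, 0 ≤ U x) (hUm : Measurable U)
    (hUb : ∃ B, ∀ x, U x ≤ B) (hU4 : Integrable fun x => U x ^ 4) (u : E3 → ℂ)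
    (hu : ContDiff ℝ ((⊤ : ℕ∞) : WithTop ℕ∞) u) (hc : HasCompactSupport u) :
    -(5 / 3 * (3 / 8 : ℝ) ^ (8 / 5 : ℝ) * Gam ^ (3 / 5 : ℝ) *
        (∫ x, U x ^ 4) ^ (2 / 5 : ℝ)) * (∫ x, ‖u x‖ ^ 2) ≤
      (∫ x, gsq u x) - (∫ x, U x * ‖u x‖ ^ 2) := by
  have hu1 : ContDiff ℝ 1 u := hu.of_le (by exact_mod_cast le_top)
  have hG0 : 0 ≤ ∫ x, gsq u x := integral_nonneg fun x => sob_gsq_nonneg u x
  have hM0 : 0 ≤ ∫ x, ‖u x‖ ^ 2 := integral_nonneg fun x => by positivity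
  have hS0 : 0 ≤ ∫ x, ‖u x‖ ^ (8 / 3 : ℝ) := integral_nonneg fun x => by positivity
  have hGam := sob_gam_nonneg
  have hgam := sob_gam u hu hc
  have hU4' : ∀ x, U x ^ (4 : ℝ) = U x ^ 4 := by
    intro x
    rw [show (4 : ℝ) = ((4 : ℕ) : ℝ) by norm_num, Real.rpow_natCast]
  have hpq : (4 : ℝ).HolderConjugate (4 / 3) := by
    rw [Real.holderConjugate_iff]; norm_num
  have hH := integral_mul_le_Lp_mul_Lq_of_nonneg (μ := (volume : Measure E3)) hpq (f := U)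
    (g := fun x => ‖u x‖ ^ (2 : ℝ)) (Filter.Eventually.of_forall hU0)
    (Filter.Eventually.of_forall fun x => by positivity)
    (sob_memLp_of_rpow U _ (by norm_num) hU0 hUm (by simpa only [hU4'] using hU4))
    (sob_memLp_norm u hu.continuous hc 2 (by norm_num) _)
  have e1 : ∀ x, (‖u x‖ ^ (2 : ℝ)) ^ (4 / 3 : ℝ) = ‖u x‖ ^ (8 / 3 : ℝ) := by
    intro x; rw [← Real.rpow_mul (norm_nonneg _)]; norm_num
  simp only [e1, hU4'] at hH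
  have e2 : ∫ x, U x * ‖u x‖ ^ 2 = ∫ x, U x * ‖u x‖ ^ (2 : ℝ) := by
    simp only [show (2 : ℝ) = ((2 : ℕ) : ℝ) by norm_num, Real.rpow_natCast]
  rw [e2]
  set X := ∫ x, U x ^ 4 with hX
  set S := ∫ x, ‖u x‖ ^ (8 / 3 : ℝ) with hS
  set G := ∫ x, gsq u x with hG
  set M := ∫ x, ‖u x‖ ^ 2 with hM
  have hX0 : 0 ≤ X := integral_nonneg fun x => by positivity
  have e3 : (1 : ℝ) / (4 / 3) = 3 / 4 := by norm_num
  rw [e3] at hH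
  have e4 : S ^ (3 / 4 : ℝ) ≤ (Gam * G) ^ (3 / 8 : ℝ) * M ^ (5 / 8 : ℝ) := by
    calc S ^ (3 / 4 : ℝ) = (S ^ 2) ^ (3 / 8 : ℝ) := by
          rw [← Real.rpow_natCast S 2, ← Real.rpow_mul hS0]; norm_num
      _ ≤ (Gam * G * M ^ (5 / 3 : ℝ)) ^ (3 / 8 : ℝ) := by gcongr
      _ = (Gam * G) ^ (3 / 8 : ℝ) * M ^ (5 / 8 : ℝ) := by
          rw [Real.mul_rpow (by positivity) (by positivity), ← Real.rpow_mul hM0]; norm_num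
  -- Young
  set y : ℝ := (3 / 8 : ℝ) ^ (3 / 5 : ℝ) * Gam ^ (3 / 5 : ℝ) * X ^ (2 / 5 : ℝ) * M with hy
  have hy0 : 0 ≤ y := by positivity
  have hY := Real.geom_mean_le_arith_mean2_weighted (w₁ := 3 / 8) (w₂ := 5 / 8) (p₁ := 8 / 3 * G)
    (p₂ := y) (by norm_num) (by norm_num) (by positivity) hy0 (by norm_num)
  have e5 : (8 / 3 * G) ^ (3 / 8 : ℝ) * y ^ (5 / 8 : ℝ) =
      X ^ (1 / 4 : ℝ) * ((Gam * G) ^ (3 / 8 : ℝ) * M ^ (5 / 8 : ℝ)) := by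
    rw [hy, Real.mul_rpow (by norm_num) hG0, Real.mul_rpow (by positivity) hM0,
      Real.mul_rpow (by positivity) (by positivity), Real.mul_rpow (by positivity) (by positivity),
      Real.mul_rpow hGam hG0, ← Real.rpow_mul (by norm_num), ← Real.rpow_mul hGam,
      ← Real.rpow_mul hX0]
    have h1 : (3 / 5 : ℝ) * (5 / 8) = 3 / 8 := by norm_num
    have h2 : (2 / 5 : ℝ) * (5 / 8) = 1 / 4 := by norm_num
    rw [h1, h2]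
    have h3 : (8 / 3 : ℝ) ^ (3 / 8 : ℝ) * (3 / 8 : ℝ) ^ (3 / 8 : ℝ) = 1 := by
      rw [← Real.mul_rpow (by norm_num) (by norm_num)]; norm_num
    linear_combination (G ^ (3 / 8 : ℝ) * Gam ^ (3 / 8 : ℝ) * X ^ (1 / 4 : ℝ) * M ^ (5 / 8 : ℝ)) * h3
  have e6 : 5 / 8 * y = 5 / 3 * (3 / 8 : ℝ) ^ (8 / 5 : ℝ) * Gam ^ (3 / 5 : ℝ) *
      X ^ (2 / 5 : ℝ) * M := by
    have h1 : (3 / 8 : ℝ) ^ (8 / 5 : ℝ) = (3 / 8) * (3 / 8 : ℝ) ^ (3 / 5 : ℝ) := by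
      rw [show (8 / 5 : ℝ) = 1 + 3 / 5 by norm_num, Real.rpow_add (by norm_num), Real.rpow_one]
    rw [h1, hy]; ring
  have e7 : ∫ x, U x * ‖u x‖ ^ (2 : ℝ) ≤ G + 5 / 8 * y := by
    calc ∫ x, U x * ‖u x‖ ^ (2 : ℝ) ≤ X ^ (1 / 4 : ℝ) * S ^ (3 / 4 : ℝ) := hH
      _ ≤ X ^ (1 / 4 : ℝ) * ((Gam * G) ^ (3 / 8 : ℝ) * M ^ (5 / 8 : ℝ)) := by gcongr
      _ = (8 / 3 * G) ^ (3 / 8 : ℝ) * y ^ (5 / 8 : ℝ) := e5.symm
      _ ≤ _ := by linarith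
  linarith

end Pool.Agent.H5R2.NL
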