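import Mathlib
import Pool.Agent.H5R2.NL.Defs
import Pool.Agent.H5R2.NL.Int
import Pool.Agent.H5R2.NL.SobA

/-!
# The sampling inequality: auxiliary lemmas
-/

set_option autoImplicit false

noncomputable section

namespace Pool.Agent.H5R2.NL

open MeasureTheory Metric
open scoped ENNReal

theorem samp_inB_nonneg (w : E3) (r : ℝ) (x : E3) : 0 ≤ inB w r x := by
  unfold inB; split_ifs <;> norm_num

theorem samp_inB_le_one (w : E3) (r : ℝ) (x : E3) : inB w r x ≤ 1 := by
  unfold inB; split_ifs <;> norm_num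

theorem samp_inB_cases (w : E3) (r : ℝ) (x : E3) : inB w r x = 0 ∨ inB w r x = 1 := by
  unfold inB; split_ifs <;> simp

theorem samp_meas_inB (r : ℝ) : Measurable fun p : E3 × E3 => inB p.1 r p.2 := by
  unfold inB
  refine Measurable.ite ?_ measurable_const measurable_const
  exact measurableSet_lt (by fun_prop) measurable_const

theorem samp_inB_eq_indicator (w : E3) (r : ℝ) (t : E3) :
    inB w r t = (ball t r).indicator (fun _ => (1 : ℝ)) w := by
  unfold inB Set.indicator
  simp only [mem_ball, dist_eq_norm, norm_sub_rev t w]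

theorem samp_inB_eq_indicator' (w : E3) (r : ℝ) (t : E3) :
    inB w r t = (ball w r).indicator (fun _ => (1 : ℝ)) t := by
  unfold inB Set.indicator
  simp only [mem_ball, dist_eq_norm]

theorem samp_vol_ball (t : E3) (r : ℝ) :
    (volume : Measure E3).real (ball t r) = volume.real (ball (0 : E3) r) := by
  rw [Measure.real, Measure.real, Measure.addHaar_ball_center]

theorem samp_vol_pos (r : ℝ) (hr : 0 < r) : 0 < volume.real (ball (0 : E3) r) := by
  rw [int_vol_ball _ _ hr.le]; positivity

theorem samp_integrable_inB (t : E3) (r : ℝ) : Integrable fun w => inB w r t := by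
  have h : (fun w => inB w r t) = (ball t r).indicator fun _ => (1 : ℝ) := by
    funext w; exact samp_inB_eq_indicator w r t
  rw [h, integrable_indicator_iff measurableSet_ball]
  exact integrableOn_const measure_ball_lt_top.ne

theorem samp_integral_inB (t : E3) (r : ℝ) : ∫ w, inB w r t = volume.real (ball (0 : E3) r) := by
  have h : (fun w => inB w r t) = (ball t r).indicator fun _ => (1 : ℝ) := by
    funext w; exact samp_inB_eq_indicator w r t
  rw [h, integral_indicator measurableSet_ball, setIntegral_const, smul_eq_mul, mul_one,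
    samp_vol_ball]

theorem samp_integrable_inB' (w : E3) (r : ℝ) : Integrable fun t => inB w r t := by
  have h : (fun t => inB w r t) = (ball w r).indicator fun _ => (1 : ℝ) := by
    funext t; exact samp_inB_eq_indicator' w r t
  rw [h, integrable_indicator_iff measurableSet_ball]
  exact integrableOn_const measure_ball_lt_top.ne

theorem samp_integral_inB' (w : E3) (r : ℝ) : ∫ t, inB w r t = volume.real (ball (0 : E3) r) := by
  have h : (fun t => inB w r t) = (ball w r).indicator fun _ => (1 : ℝ) := by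
    funext t; exact samp_inB_eq_indicator' w r t
  rw [h, integral_indicator measurableSet_ball, setIntegral_const, smul_eq_mul, mul_one,
    samp_vol_ball]

theorem samp_nB_nonneg {ι : Type} [Fintype ι] (w : E3) (r : ℝ) (x : ι → E3) : 0 ≤ nB w r x :=
  Finset.sum_nonneg fun _ _ => samp_inB_nonneg _ _ _

theorem samp_nB_le {ι : Type} [Fintype ι] (w : E3) (r : ℝ) (x : ι → E3) :
    nB w r x ≤ Fintype.card ι := by
  unfold nB
  calc ∑ i, inB w r (x i) ≤ ∑ _i : ι, (1 : ℝ) := Finset.sum_le_sum fun _ _ => samp_inB_le_one _ _ _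
    _ = Fintype.card ι := by simp

theorem samp_integrable_nB {ι : Type} [Fintype ι] (r : ℝ) (x : ι → E3) :
    Integrable fun w => nB w r x :=
  integrable_finsetSum _ fun i _ => samp_integrable_inB (x i) r

theorem samp_integral_nB {ι : Type} [Fintype ι] (r : ℝ) (x : ι → E3) :
    ∫ w, nB w r x = Fintype.card ι * volume.real (ball (0 : E3) r) := by
  unfold nB
  rw [integral_finsetSum _ fun i _ => samp_integrable_inB (x i) r]
  simp [samp_integral_inB]

theorem samp_meas_nB {ι : Type} [Fintype ι] (r : ℝ) :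
    Measurable fun p : E3 × (ι → E3) => nB p.1 r p.2 := by
  have h1 : ∀ i : ι, Measurable fun p : E3 × (ι → E3) => inB p.1 r (p.2 i) := by
    intro i
    have h : Measurable fun p : E3 × (ι → E3) => (p.1, p.2 i) := by fun_prop
    have := (samp_meas_inB r).comp h
    exact this
  have h2 := Finset.measurable_fun_sum (Finset.univ : Finset ι) (fun i _ => h1 i)
  exact h2

/-- integrals over the centre of functions dominated by the number of particles -/
theorem samp_dom {ι : Type} [Fintype ι] (r : ℝ) (g : E3 × (ι → E3) → ℝ) (hg : Measurable g)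
    (B : ℝ) (hB : ∀ w x, |g (w, x)| ≤ B * nB w r x) :
    (∀ x, Integrable fun w => g (w, x)) ∧ (Measurable fun x => ∫ w, g (w, x)) ∧
      ∀ x, |∫ w, g (w, x)| ≤ B * (Fintype.card ι * volume.real (ball (0 : E3) r)) := by
  have h1 : ∀ x, Integrable fun w => g (w, x) := by
    intro x
    refine Integrable.mono' ((samp_integrable_nB r x).const_mul B)
      (hg.comp (measurable_id.prodMk measurable_const)).aestronglyMeasurable
      (Filter.Eventually.of_forall fun w => ?_)
    exact hB w x
  refine ⟨h1, ?_, fun x => ?_⟩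
  · have : StronglyMeasurable fun p : (ι → E3) × E3 => g (p.2, p.1) :=
      (hg.comp measurable_swap).stronglyMeasurable
    exact this.integral_prod_right.measurable
  · calc |∫ w, g (w, x)| ≤ ∫ w, |g (w, x)| := abs_integral_le_integral_abs
      _ ≤ ∫ w, B * nB w r x :=
        integral_mono (h1 x).abs ((samp_integrable_nB r x).const_mul B) fun w => hB w x
      _ = _ := by rw [integral_const_mul, samp_integral_nB]

theorem samp_scalar (n m : ℝ) (hn : 0 ≤ n) (hm : 0 ≤ m) :
    n ^ (4 / 3 : ℝ) ≤ 4 / 3 * m ^ (1 / 3 : ℝ) * n - 1 / 3 * m ^ (4 / 3 : ℝ) +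
      |n - m| ^ (4 / 3 : ℝ) := by
  set s := n ^ (1 / 3 : ℝ) with hs
  set t := m ^ (1 / 3 : ℝ) with ht
  have hs0 : 0 ≤ s := by positivity
  have ht0 : 0 ≤ t := by positivity
  have e1 : n = s ^ 3 := by
    rw [hs, ← Real.rpow_natCast, ← Real.rpow_mul hn]; norm_num
  have e2 : m = t ^ 3 := by
    rw [ht, ← Real.rpow_natCast, ← Real.rpow_mul hm]; norm_num
  have e3 : n ^ (4 / 3 : ℝ) = s ^ 4 := by
    rw [hs, ← Real.rpow_natCast, ← Real.rpow_mul hn]; norm_num
  have e4 : m ^ (4 / 3 : ℝ) = t ^ 4 := by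
    rw [ht, ← Real.rpow_natCast, ← Real.rpow_mul hm]; norm_num
  rw [e3, e4]
  set d := |s - t| with hd
  have hd0 : 0 ≤ d := abs_nonneg _
  set P := s ^ 2 + s * t + t ^ 2 with hP
  have hP0 : 0 ≤ P := by positivity
  have hst : 0 ≤ s * t := by positivity
  have e5 : |n - m| = d * P := by
    have : n - m = (s - t) * P := by rw [e1, e2, hP]; ring
    rw [this, abs_mul, abs_of_nonneg hP0]
  have hdP : d ^ 2 ≤ P := by
    rw [hd, sq_abs, hP]; nlinarith
  have key : d ^ 2 * P ≤ (d * P) ^ (4 / 3 : ℝ) := by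
    rw [Real.mul_rpow hd0 hP0]
    have h1 : P ^ (4 / 3 : ℝ) = P * P ^ (1 / 3 : ℝ) := by
      rw [show (4 / 3 : ℝ) = 1 + 1 / 3 by norm_num,
        Real.rpow_add_of_nonneg hP0 (by norm_num) (by norm_num), Real.rpow_one]
    have h2 : d ^ 2 = d ^ (4 / 3 : ℝ) * (d ^ 2) ^ (1 / 3 : ℝ) := by
      rw [← Real.rpow_natCast, ← Real.rpow_mul hd0,
        ← Real.rpow_add_of_nonneg hd0 (by norm_num) (by norm_num)]
      norm_num
    calc d ^ 2 * P = d ^ (4 / 3 : ℝ) * (d ^ 2) ^ (1 / 3 : ℝ) * P := by rw [← h2]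
      _ ≤ d ^ (4 / 3 : ℝ) * P ^ (1 / 3 : ℝ) * P := by gcongr
      _ = _ := by rw [h1]; ring
  rw [e5]
  have h3 : s ^ 4 - 4 / 3 * t * s ^ 3 + 1 / 3 * t ^ 4 ≤ d ^ 2 * P := by
    rw [hd, sq_abs, hP]
    have : (s - t) ^ 2 * (s ^ 2 + s * t + t ^ 2) - (s ^ 4 - 4 / 3 * t * s ^ 3 + 1 / 3 * t ^ 4) =
      (s - t) ^ 2 * (1 / 3 * (s * t) + 2 / 3 * t ^ 2) := by ring
    have : 0 ≤ (s - t) ^ 2 * (1 / 3 * (s * t) + 2 / 3 * t ^ 2) := by positivity
    linarith
  rw [e1]
  linarith

/-- Bernoulli weights -/
def sampW {ι : Type} [DecidableEq ι] (a : ℝ) (s S : Finset ι) : ℝ :=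
  ∏ i ∈ s, if i ∈ S then a else 1 - a

theorem sampW_nonneg {ι : Type} [DecidableEq ι] (a : ℝ) (ha : 0 ≤ a) (ha1 : a ≤ 1)
    (s S : Finset ι) : 0 ≤ sampW a s S := by
  unfold sampW
  refine Finset.prod_nonneg fun i _ => ?_
  split_ifs <;> linarith

theorem samp_bern {ι : Type} [DecidableEq ι] (a : ℝ) (ha : 0 < a) (b : ι → ℝ) (s : Finset ι) :
    ∑ S ∈ s.powerset, sampW a s S = 1 ∧
    ∑ S ∈ s.powerset, sampW a s S * (∑ i ∈ s, b i * (1 - if i ∈ S then 1 / a else 0)) = 0 ∧
    ∑ S ∈ s.powerset, sampW a s S * (∑ i ∈ s, b i * (1 - if i ∈ S then 1 / a else 0)) ^ 2 =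
      (∑ i ∈ s, b i ^ 2) * ((1 - a) / a) := by
  induction s using Finset.induction_on with
  | empty => simp [sampW]
  | insert j s hj ih =>
    obtain ⟨h0, h1, h2⟩ := ih
    have w1 : ∀ S ∈ s.powerset, sampW a (insert j s) S = (1 - a) * sampW a s S := by
      intro S hS
      rw [Finset.mem_powerset] at hS
      unfold sampW
      rw [Finset.prod_insert hj, if_neg fun h => hj (hS h)]
    have w2 : ∀ S ∈ s.powerset, sampW a (insert j s) (insert j S) = a * sampW a s S := by
      intro S hS
      unfold sampW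
      rw [Finset.prod_insert hj, if_pos (Finset.mem_insert_self j S)]
      congr 1
      refine Finset.prod_congr rfl fun i hi => ?_
      have : i ≠ j := fun h => hj (h ▸ hi)
      simp [Finset.mem_insert, this]
    have y1 : ∀ S ∈ s.powerset, ∑ i ∈ insert j s, b i * (1 - if i ∈ S then 1 / a else 0) =
        b j + ∑ i ∈ s, b i * (1 - if i ∈ S then 1 / a else 0) := by
      intro S hS
      rw [Finset.mem_powerset] at hS
      rw [Finset.sum_insert hj, if_neg fun h => hj (hS h)]
      ring
    have y2 : ∀ S ∈ s.powerset,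
        ∑ i ∈ insert j s, b i * (1 - if i ∈ insert j S then 1 / a else 0) =
        b j * (1 - 1 / a) + ∑ i ∈ s, b i * (1 - if i ∈ S then 1 / a else 0) := by
      intro S hS
      rw [Finset.sum_insert hj, if_pos (Finset.mem_insert_self j S)]
      congr 1
      refine Finset.sum_congr rfl fun i hi => ?_
      have : i ≠ j := fun h => hj (h ▸ hi)
      simp [Finset.mem_insert, this]
    refine ⟨?_, ?_, ?_⟩
    · rw [Finset.sum_powerset_insert hj, Finset.sum_congr rfl w1, Finset.sum_congr rfl w2,
        ← Finset.mul_sum, ← Finset.mul_sum, h0]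
      ring
    · have z1 : ∀ S ∈ s.powerset, sampW a (insert j s) S *
          (∑ i ∈ insert j s, b i * (1 - if i ∈ S then 1 / a else 0)) +
          sampW a (insert j s) (insert j S) *
          (∑ i ∈ insert j s, b i * (1 - if i ∈ insert j S then 1 / a else 0)) =
          sampW a s S * (∑ i ∈ s, b i * (1 - if i ∈ S then 1 / a else 0)) := by
        intro S hS
        rw [w1 S hS, w2 S hS, y1 S hS, y2 S hS]
        generalize (∑ i ∈ s, b i * (1 - if i ∈ S then 1 / a else 0)) = Y
        field_simp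
        ring
      rw [Finset.sum_powerset_insert hj, ← Finset.sum_add_distrib, Finset.sum_congr rfl z1, h1]
    · have z2 : ∀ S ∈ s.powerset, sampW a (insert j s) S *
          (∑ i ∈ insert j s, b i * (1 - if i ∈ S then 1 / a else 0)) ^ 2 +
          sampW a (insert j s) (insert j S) *
          (∑ i ∈ insert j s, b i * (1 - if i ∈ insert j S then 1 / a else 0)) ^ 2 =
          (b j ^ 2 * ((1 - a) / a)) * sampW a s S +
          sampW a s S * (∑ i ∈ s, b i * (1 - if i ∈ S then 1 / a else 0)) ^ 2 := by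
        intro S hS
        rw [w1 S hS, w2 S hS, y1 S hS, y2 S hS]
        generalize (∑ i ∈ s, b i * (1 - if i ∈ S then 1 / a else 0)) = Y
        field_simp
        ring
      rw [Finset.sum_powerset_insert hj, ← Finset.sum_add_distrib, Finset.sum_congr rfl z2,
        Finset.sum_add_distrib, ← Finset.mul_sum, h0, h2, Finset.sum_insert hj]
      ring

end Pool.Agent.H5R2.NL
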