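import Mathlib
import Pool.Agent.H5R2.NL.Defs
import Pool.Agent.H5R2.NL.Int
import Pool.Agent.H5R2.NL.SobA
import Pool.Agent.H5R2.NL.SampAux

/-!
# The sampling inequality: the averaged potential
-/

set_option autoImplicit false

noncomputable section

namespace Pool.Agent.H5R2.NL

open MeasureTheory Metric
open scoped ENNReal

theorem samp_mul_inB (f : E3 → ℝ) (t : E3) (r : ℝ) :
    ∫ w, f w * inB w r t = ∫ w in ball t r, f w := by
  rw [← integral_indicator measurableSet_ball]
  congr 1
  funext w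
  rw [samp_inB_eq_indicator]
  by_cases h : w ∈ ball t r <;> simp [h]

/-- Jensen and Fubini for the averages over balls -/
theorem samp_jensen (r : ℝ) (hr : 0 < r) (f : E3 → ℝ) (hf : Measurable f) (h0 : ∀ w, 0 ≤ f w)
    (M : ℝ) (hM : ∀ w, f w ≤ M) (hi : Integrable fun w => f w ^ 4) :
    Integrable (fun t => ((volume.real (ball (0 : E3) r))⁻¹ * ∫ w, f w * inB w r t) ^ 4) ∧
      ∫ t, ((volume.real (ball (0 : E3) r))⁻¹ * ∫ w, f w * inB w r t) ^ 4 ≤ ∫ w, f w ^ 4 := by
  set V := volume.real (ball (0 : E3) r) with hV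
  have hV0 : 0 < V := samp_vol_pos r hr
  have hmeas : Measurable fun p : E3 × E3 => f p.1 ^ 4 * inB p.1 r p.2 :=
    ((hf.comp measurable_fst).pow_const 4).mul (samp_meas_inB r)
  have hH : Integrable (fun p : E3 × E3 => f p.1 ^ 4 * inB p.1 r p.2)
      ((volume : Measure E3).prod volume) := by
    rw [integrable_prod_iff hmeas.aestronglyMeasurable]
    refine ⟨Filter.Eventually.of_forall fun w => (samp_integrable_inB' w r).const_mul (f w ^ 4), ?_⟩
    have e : ∀ w, ∫ t, ‖f w ^ 4 * inB w r t‖ = V * f w ^ 4 := by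
      intro w
      have : ∀ t, ‖f w ^ 4 * inB w r t‖ = f w ^ 4 * inB w r t := fun t =>
        Real.norm_of_nonneg (mul_nonneg (by positivity) (samp_inB_nonneg _ _ _))
      simp only [this]
      rw [integral_const_mul, samp_integral_inB', mul_comm]
    simp only [e]
    exact hi.const_mul V
  have hG : Integrable fun t => ∫ w, f w ^ 4 * inB w r t := hH.integral_prod_right
  have hGe : ∫ t, ∫ w, f w ^ 4 * inB w r t = V * ∫ w, f w ^ 4 := by
    rw [← integral_integral_swap hH]
    simp only [integral_const_mul, samp_integral_inB']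
    rw [integral_mul_const, mul_comm]
  have hJ : ∀ t, (V⁻¹ * ∫ w, f w * inB w r t) ^ 4 ≤ V⁻¹ * ∫ w, f w ^ 4 * inB w r t := by
    intro t
    rw [samp_mul_inB, samp_mul_inB (fun w => f w ^ 4)]
    have hc : ConvexOn ℝ Set.univ fun x : ℝ => x ^ 4 := Even.convexOn_pow (by decide)
    have hfin : (volume : Measure E3) (ball t r) ≠ ∞ := measure_ball_lt_top.ne
    have hpos : (volume : Measure E3) (ball t r) ≠ 0 := (measure_ball_pos _ t hr).ne'
    have hfb : IntegrableOn f (ball t r) := by
      refine Measure.integrableOn_of_bounded (M := M) hfin hf.aestronglyMeasurable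
        (Filter.Eventually.of_forall fun w => ?_)
      rw [Real.norm_of_nonneg (h0 w)]; exact hM w
    have := hc.map_set_average_le (f := f) (t := ball t r) (μ := (volume : Measure E3))
      (by fun_prop) isClosed_univ hpos hfin (by simp) hfb hi.integrableOn
    rw [setAverage_eq, setAverage_eq, samp_vol_ball, smul_eq_mul, smul_eq_mul] at this
    exact this
  have hm1 : Measurable fun t => ∫ w, f w * inB w r t := by
    have : StronglyMeasurable fun p : E3 × E3 => f p.2 * inB p.2 r p.1 :=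
      ((hf.comp measurable_snd).mul ((samp_meas_inB r).comp measurable_swap)).stronglyMeasurable
    exact this.integral_prod_right.measurable
  have hint : Integrable fun t => (V⁻¹ * ∫ w, f w * inB w r t) ^ 4 := by
    refine Integrable.mono' (hG.const_mul V⁻¹) ((hm1.const_mul _).pow_const 4).aestronglyMeasurable
      (Filter.Eventually.of_forall fun t => ?_)
    rw [Real.norm_of_nonneg (by positivity)]
    exact hJ t
  refine ⟨hint, ?_⟩
  calc ∫ t, (V⁻¹ * ∫ w, f w * inB w r t) ^ 4 ≤ ∫ t, V⁻¹ * ∫ w, f w ^ 4 * inB w r t :=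
        integral_mono hint (hG.const_mul V⁻¹) hJ
    _ = ∫ w, f w ^ 4 := by
        rw [integral_const_mul, hGe, ← mul_assoc, inv_mul_cancel₀ hV0.ne', one_mul]

/-- comparison by slices, for real integrals -/
theorem samp_slice {ι : Type} [Fintype ι] [DecidableEq ι] (P Q : (ι → E3) → ℝ)
    (hPm : Measurable P) (hQm : Measurable Q) (hP0 : ∀ x, 0 ≤ P x) (hQ0 : ∀ x, 0 ≤ Q x)
    (hP : Integrable P) (i : ι)
    (h1 : ∀ x : ι → E3, Integrable fun t => P (Function.update x i t))
    (h2 : ∀ x : ι → E3, Integrable fun t => Q (Function.update x i t))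
    (h : ∀ x : ι → E3, ∫ t, Q (Function.update x i t) ≤ ∫ t, P (Function.update x i t)) :
    ∫ x, Q x ≤ ∫ x, P x := by
  have key : ∫⁻ x, ENNReal.ofReal (Q x) ≤ ∫⁻ x, ENNReal.ofReal (P x) := by
    rw [volume_pi]
    refine int_slice_le volume _ _ hQm.ennreal_ofReal hPm.ennreal_ofReal i fun x => ?_
    rw [← ofReal_integral_eq_lintegral_ofReal (h2 x) (Filter.Eventually.of_forall fun t => hQ0 _),
      ← ofReal_integral_eq_lintegral_ofReal (h1 x) (Filter.Eventually.of_forall fun t => hP0 _)]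
    exact ENNReal.ofReal_le_ofReal (h x)
  rw [integral_eq_lintegral_of_nonneg_ae (Filter.Eventually.of_forall hQ0)
    hQm.aestronglyMeasurable, integral_eq_lintegral_of_nonneg_ae (Filter.Eventually.of_forall hP0)
    hPm.aestronglyMeasurable]
  refine ENNReal.toReal_mono ?_ key
  have := hP.lintegral_lt_top
  exact this.ne

/-- the smoothed number of the sampled particles -/
def sM {ι : Type} (a r : ℝ) (S : Finset ι) (w : E3) (x : ι → E3) : ℝ :=
  1 / a * ∑ i ∈ S, inB w r (x i)

theorem sM_nonneg {ι : Type} (a r : ℝ) (ha : 0 < a) (S : Finset ι) (w : E3) (x : ι → E3) :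
    0 ≤ sM a r S w x := by
  unfold sM
  have : 0 ≤ ∑ i ∈ S, inB w r (x i) := Finset.sum_nonneg fun _ _ => samp_inB_nonneg _ _ _
  positivity

theorem sM_le {ι : Type} [Fintype ι] (a r : ℝ) (ha : 0 < a) (S : Finset ι) (w : E3)
    (x : ι → E3) : sM a r S w x ≤ nB w r x / a := by
  unfold sM nB
  rw [div_mul_eq_mul_div, one_mul]
  have h : ∑ i ∈ S, inB w r (x i) ≤ ∑ i, inB w r (x i) :=
    Finset.sum_le_sum_of_subset_of_nonneg (Finset.subset_univ S)
      fun j _ _ => samp_inB_nonneg w r (x j)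
  exact div_le_div_of_nonneg_right h ha.le

theorem sM_meas {ι : Type} [Fintype ι] (a r : ℝ) (S : Finset ι) :
    Measurable fun p : E3 × (ι → E3) => sM a r S p.1 p.2 := by
  have h1 : ∀ i : ι, Measurable fun p : E3 × (ι → E3) => inB p.1 r (p.2 i) := by
    intro i
    have h : Measurable fun p : E3 × (ι → E3) => (p.1, p.2 i) := by fun_prop
    have := (samp_meas_inB r).comp h
    exact this
  have h2 := (Finset.measurable_fun_sum S (fun i _ => h1 i)).const_mul (1 / a)
  exact h2

theorem sM_update {ι : Type} [DecidableEq ι] (a r : ℝ) (S : Finset ι) (w : E3) (x : ι → E3)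
    (i : ι) (hi : i ∉ S) (t : E3) : sM a r S w (Function.update x i t) = sM a r S w x := by
  unfold sM
  congr 1
  refine Finset.sum_congr rfl fun j hj => ?_
  have : j ≠ i := fun h => hi (h ▸ hj)
  rw [Function.update_of_ne this]

theorem samp_pow_dom (a V n t N : ℝ) (ha : 0 < a) (hV : 0 < V) (hn : 0 ≤ n) (hnN : n ≤ N)
    (ht0 : 0 ≤ t) (ht : t ≤ n / a) :
    (t / V) ^ (4 / 3 : ℝ) ≤ (N / (a * V)) ^ (1 / 3 : ℝ) / (a * V) * n := by
  have h0 : 0 ≤ t / V := by positivity
  have h1 : t / V ≤ n / (a * V) := by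
    rw [div_le_div_iff₀ hV (by positivity)]
    rw [le_div_iff₀ ha] at ht
    nlinarith
  have h2 : t / V ≤ N / (a * V) := h1.trans (by gcongr)
  have e : (t / V) ^ (4 / 3 : ℝ) = (t / V) ^ (1 / 3 : ℝ) * (t / V) := by
    rw [show (4 / 3 : ℝ) = 1 / 3 + 1 by norm_num,
      Real.rpow_add_of_nonneg h0 (by norm_num) (by norm_num), Real.rpow_one]
  rw [e]
  have hN0 : 0 ≤ N := hn.trans hnN
  calc (t / V) ^ (1 / 3 : ℝ) * (t / V) ≤ (N / (a * V)) ^ (1 / 3 : ℝ) * (n / (a * V)) := by
        gcongr
    _ = _ := by ring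

end Pool.Agent.H5R2.NL
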