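import Mathlib
import Pool.Agent.H5R2.NL.Defs
import Pool.Agent.H5R2.NL.Int
import Pool.Agent.H5R2.NL.SobB
import Pool.Agent.H5R2.NL.SampAux
import Pool.Agent.H5R2.NL.SampAux2

/-!
# The 5/3 moment of the number of particles in balls
-/

set_option autoImplicit false

noncomputable section

namespace Pool.Agent.H5R2.NL

open MeasureTheory Metric
open scoped ENNReal

/-- Jensen and Fubini for the averages over balls, exponent `3/2` -/
theorem moma_jensen (r : ℝ) (hr : 0 < r) (f : E3 → ℝ) (hf : Measurable f) (h0 : ∀ w, 0 ≤ f w)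
    (M : ℝ) (hM : ∀ w, f w ≤ M) (hi : Integrable fun w => f w ^ (3 / 2 : ℝ)) :
    Integrable (fun t => ((volume.real (ball (0 : E3) r))⁻¹ * ∫ w, f w * inB w r t) ^
        (3 / 2 : ℝ)) ∧
      ∫ t, ((volume.real (ball (0 : E3) r))⁻¹ * ∫ w, f w * inB w r t) ^ (3 / 2 : ℝ) ≤
        ∫ w, f w ^ (3 / 2 : ℝ) := by
  set V := volume.real (ball (0 : E3) r) with hV
  have hV0 : 0 < V := samp_vol_pos r hr
  have hmeas : Measurable fun p : E3 × E3 => f p.1 ^ (3 / 2 : ℝ) * inB p.1 r p.2 :=
    ((hf.comp measurable_fst).pow_const _).mul (samp_meas_inB r)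
  have hp0 : ∀ w, 0 ≤ f w ^ (3 / 2 : ℝ) := fun w => Real.rpow_nonneg (h0 w) _
  have hH : Integrable (fun p : E3 × E3 => f p.1 ^ (3 / 2 : ℝ) * inB p.1 r p.2)
      ((volume : Measure E3).prod volume) := by
    rw [integrable_prod_iff hmeas.aestronglyMeasurable]
    refine ⟨Filter.Eventually.of_forall fun w =>
      (samp_integrable_inB' w r).const_mul (f w ^ (3 / 2 : ℝ)), ?_⟩
    have e : ∀ w, ∫ t, ‖f w ^ (3 / 2 : ℝ) * inB w r t‖ = V * f w ^ (3 / 2 : ℝ) := by
      intro w
      have : ∀ t, ‖f w ^ (3 / 2 : ℝ) * inB w r t‖ = f w ^ (3 / 2 : ℝ) * inB w r t := fun t =>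
        Real.norm_of_nonneg (mul_nonneg (hp0 w) (samp_inB_nonneg _ _ _))
      simp only [this]
      rw [integral_const_mul, samp_integral_inB', mul_comm]
    simp only [e]
    exact hi.const_mul V
  have hG : Integrable fun t => ∫ w, f w ^ (3 / 2 : ℝ) * inB w r t := hH.integral_prod_right
  have hGe : ∫ t, ∫ w, f w ^ (3 / 2 : ℝ) * inB w r t = V * ∫ w, f w ^ (3 / 2 : ℝ) := by
    rw [← integral_integral_swap hH]
    simp only [integral_const_mul, samp_integral_inB']
    rw [integral_mul_const, mul_comm]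
  have hI0 : ∀ t, 0 ≤ ∫ w, f w * inB w r t := fun t =>
    integral_nonneg fun w => mul_nonneg (h0 w) (samp_inB_nonneg _ _ _)
  have hJ : ∀ t, (V⁻¹ * ∫ w, f w * inB w r t) ^ (3 / 2 : ℝ) ≤
      V⁻¹ * ∫ w, f w ^ (3 / 2 : ℝ) * inB w r t := by
    intro t
    rw [samp_mul_inB, samp_mul_inB (fun w => f w ^ (3 / 2 : ℝ))]
    have hc : ConvexOn ℝ (Set.Ici 0) fun x : ℝ => x ^ (3 / 2 : ℝ) :=
      convexOn_rpow (by norm_num)
    have hfin : (volume : Measure E3) (ball t r) ≠ ∞ := measure_ball_lt_top.ne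
    have hpos : (volume : Measure E3) (ball t r) ≠ 0 := (measure_ball_pos _ t hr).ne'
    have hfb : IntegrableOn f (ball t r) := by
      refine Measure.integrableOn_of_bounded (M := M) hfin hf.aestronglyMeasurable
        (Filter.Eventually.of_forall fun w => ?_)
      rw [Real.norm_of_nonneg (h0 w)]; exact hM w
    have := hc.map_set_average_le (f := f) (t := ball t r) (μ := (volume : Measure E3))
      (continuousOn_id.rpow_const fun _ _ => Or.inr (by norm_num)) isClosed_Ici hpos hfin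
      (Filter.Eventually.of_forall fun w => h0 w) hfb hi.integrableOn
    rw [setAverage_eq, setAverage_eq, samp_vol_ball, smul_eq_mul, smul_eq_mul] at this
    exact this
  have hm1 : Measurable fun t => ∫ w, f w * inB w r t := by
    have : StronglyMeasurable fun p : E3 × E3 => f p.2 * inB p.2 r p.1 :=
      ((hf.comp measurable_snd).mul ((samp_meas_inB r).comp measurable_swap)).stronglyMeasurable
    exact this.integral_prod_right.measurable
  have hint : Integrable fun t => (V⁻¹ * ∫ w, f w * inB w r t) ^ (3 / 2 : ℝ) := by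
    refine Integrable.mono' (hG.const_mul V⁻¹) ((hm1.const_mul _).pow_const _).aestronglyMeasurable
      (Filter.Eventually.of_forall fun t => ?_)
    have := hI0 t
    rw [Real.norm_of_nonneg (by positivity)]
    exact hJ t
  refine ⟨hint, ?_⟩
  calc ∫ t, (V⁻¹ * ∫ w, f w * inB w r t) ^ (3 / 2 : ℝ) ≤
        ∫ t, V⁻¹ * ∫ w, f w ^ (3 / 2 : ℝ) * inB w r t :=
        integral_mono hint (hG.const_mul V⁻¹) hJ
    _ = ∫ w, f w ^ (3 / 2 : ℝ) := by
        rw [integral_const_mul, hGe, ← mul_assoc, inv_mul_cancel₀ hV0.ne', one_mul]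

/-- number of the other particles -/
def momaN {N : ℕ} (r : ℝ) (i : Fin N) (w : E3) (x : Fin N → E3) : ℝ :=
  ∑ j ∈ Finset.univ.erase i, inB w r (x j)

theorem momaN_nonneg {N : ℕ} (r : ℝ) (i : Fin N) (w : E3) (x : Fin N → E3) :
    0 ≤ momaN r i w x := Finset.sum_nonneg fun _ _ => samp_inB_nonneg _ _ _

theorem momaN_eq {N : ℕ} (r : ℝ) (i : Fin N) (w : E3) (x : Fin N → E3) :
    nB w r x = inB w r (x i) + momaN r i w x := by
  unfold nB momaN
  exact (Finset.add_sum_erase Finset.univ (fun j => inB w r (x j)) (Finset.mem_univ i)).symm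

theorem momaN_le {N : ℕ} (r : ℝ) (i : Fin N) (w : E3) (x : Fin N → E3) :
    momaN r i w x ≤ nB w r x := by
  rw [momaN_eq r i w x]
  linarith [samp_inB_nonneg w r (x i)]

theorem momaN_update {N : ℕ} (r : ℝ) (i : Fin N) (w : E3) (x : Fin N → E3) (t : E3) :
    momaN r i w (Function.update x i t) = momaN r i w x := by
  unfold momaN
  refine Finset.sum_congr rfl fun j hj => ?_
  rw [Function.update_of_ne (Finset.ne_of_mem_erase hj)]

theorem momaN_meas {N : ℕ} (r : ℝ) (i : Fin N) :
    Measurable fun p : E3 × (Fin N → E3) => momaN r i p.1 p.2 := by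
  have h1 : ∀ i : Fin N, Measurable fun p : E3 × (Fin N → E3) => inB p.1 r (p.2 i) := by
    intro i
    have h : Measurable fun p : E3 × (Fin N → E3) => (p.1, p.2 i) := by fun_prop
    have := (samp_meas_inB r).comp h
    exact this
  have h2 := Finset.measurable_fun_sum (Finset.univ.erase i) (fun i _ => h1 i)
  exact h2

def momaW {N : ℕ} (r : ℝ) (i : Fin N) (x : Fin N → E3) : ℝ :=
  ∫ w, momaN r i w x ^ (2 / 3 : ℝ) * inB w r (x i)

theorem momaW_dom {N : ℕ} (r : ℝ) (i : Fin N) :
    (∀ x : Fin N → E3, Integrable fun w => momaN r i w x ^ (2 / 3 : ℝ) * inB w r (x i)) ∧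
    Measurable (momaW r i) ∧ ∃ B, ∀ x : Fin N → E3, |momaW r i x| ≤ B := by
  have hmi : Measurable fun p : E3 × (Fin N → E3) => inB p.1 r (p.2 i) := by
    have h : Measurable fun p : E3 × (Fin N → E3) => (p.1, p.2 i) := by fun_prop
    have := (samp_meas_inB r).comp h
    exact this
  have h := samp_dom (ι := Fin N) r
    (fun p => momaN r i p.1 p.2 ^ (2 / 3 : ℝ) * inB p.1 r (p.2 i))
    (((momaN_meas r i).pow_const _).mul hmi) ((N : ℝ) ^ (2 / 3 : ℝ))
    (fun w x => by
      have h1 := momaN_nonneg r i w x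
      have h2 := momaN_le r i w x
      have h3 : nB w r x ≤ N := by simpa using samp_nB_le w r x
      have h4 := samp_inB_nonneg w r (x i)
      simp only
      rw [abs_of_nonneg (by positivity)]
      have h5 : inB w r (x i) ≤ nB w r x :=
        Finset.single_le_sum (f := fun j => inB w r (x j))
          (fun j _ => samp_inB_nonneg w r (x j)) (Finset.mem_univ i)
      have h6 : momaN r i w x ≤ N := h2.trans h3
      gcongr)
  exact ⟨h.1, h.2.1, _, h.2.2⟩

theorem moma_point {N : ℕ} (r : ℝ) (w : E3) (x : Fin N → E3) :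
    nB w r x ^ (5 / 3 : ℝ) ≤ nB w r x + ∑ i, momaN r i w x ^ (2 / 3 : ℝ) * inB w r (x i) := by
  have hn := samp_nB_nonneg w r x
  have e1 : nB w r x ^ (5 / 3 : ℝ) = ∑ i, inB w r (x i) * nB w r x ^ (2 / 3 : ℝ) := by
    rw [← Finset.sum_mul]
    change _ = nB w r x * _
    rw [show (5 / 3 : ℝ) = 1 + 2 / 3 by norm_num,
      Real.rpow_add_of_nonneg hn (by norm_num) (by norm_num), Real.rpow_one]
  rw [e1]
  have e2 : nB w r x = ∑ i, inB w r (x i) := rfl
  nth_rw 2 [e2]
  rw [← Finset.sum_add_distrib]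
  refine Finset.sum_le_sum fun i _ => ?_
  rcases samp_inB_cases w r (x i) with h | h
  · rw [h]; simp
  · rw [h, one_mul, mul_one, momaN_eq r i w x, h]
    have := momaN_nonneg r i w x
    have h3 := Real.rpow_add_le_add_rpow (p := 2 / 3) zero_le_one this (by norm_num) (by norm_num)
    simpa using h3

theorem moma_slice : ∃ C : ℝ, 0 < C ∧ ∀ (N : ℕ) (ψ : (Fin N → E3) → ℂ) (r : ℝ),
    IsState ψ → 0 < r → ∀ i : Fin N,
    ∫ x, momaW r i x * ‖ψ x‖ ^ 2 ≤
      C * volume.real (ball (0 : E3) r) ^ (5 / 3 : ℝ) * (N : ℝ) ^ (2 / 3 : ℝ) *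
        ∫ x, gradSq ψ i x := by
  obtain ⟨C, hC, hsob⟩ := sob_dual
  refine ⟨C, hC, fun N ψ r hψ hr i => ?_⟩
  set V := volume.real (ball (0 : E3) r) with hV
  have hV0 : 0 < V := samp_vol_pos r hr
  have hψ1 : ContDiff ℝ 1 ψ := hψ.smooth.of_le (by exact_mod_cast le_top)
  have hψc : Continuous ψ := hψ.smooth.continuous
  obtain ⟨hW1, hWm, BW, hWB⟩ := momaW_dom r i
  have hW0 : ∀ x, 0 ≤ momaW r i x := fun x => integral_nonneg fun w => by
    have h1 := momaN_nonneg r i w x
    have h2 := samp_inB_nonneg w r (x i)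
    positivity
  have hsqm : Measurable fun x => ‖ψ x‖ ^ 2 := by
    have : Continuous fun x => ‖ψ x‖ ^ 2 := by fun_prop
    exact this.measurable
  have hgm : Measurable (gradSq ψ i) := (continuous_gradSq ψ hψ1 i).measurable
  have hg0 : ∀ x, 0 ≤ gradSq ψ i x := fun x => sob_gsq_nonneg _ _
  have hguess : ∀ (x : Fin N → E3) (t : E3),
      gradSq ψ i (Function.update x i t) = gsq (fun y => ψ (Function.update x i y)) t := by
    intro x t
    unfold gradSq
    simp only [Function.update_idem, Function.update_self]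
  have hWu : ∀ (x : Fin N → E3) (t : E3), momaW r i (Function.update x i t) =
      ∫ w, momaN r i w x ^ (2 / 3 : ℝ) * inB w r t := by
    intro x t
    unfold momaW
    simp only [momaN_update, Function.update_self]
  have hu : ∀ x : Fin N → E3, ContDiff ℝ ((⊤ : ℕ∞) : WithTop ℕ∞) fun y => ψ (Function.update x i y) :=
    fun x => hψ.smooth.comp (contDiff_update _ x i)
  obtain ⟨r0, _, hr0⟩ := int_support_PB ψ hψ.compact
  have huc : ∀ x : Fin N → E3, HasCompactSupport fun y => ψ (Function.update x i y) := by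
    intro x
    refine HasCompactSupport.intro (isCompact_closedBall (0 : E3) r0) fun y hy => ?_
    apply hr0
    intro h
    apply hy
    have := h i (Set.mem_univ i)
    rw [Function.update_self] at this
    exact ball_subset_closedBall this
  have hu1 : ∀ x : Fin N → E3, ContDiff ℝ 1 fun y => ψ (Function.update x i y) :=
    fun x => (hu x).of_le (by exact_mod_cast le_top)
  have hu2 : ∀ x : Fin N → E3, Integrable fun t => ‖ψ (Function.update x i t)‖ ^ 2 := by
    intro x
    have hc : Continuous fun t => ‖ψ (Function.update x i t)‖ ^ 2 := by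
      have := (hu x).continuous
      fun_prop
    refine hc.integrable_of_hasCompactSupport ?_
    exact (huc x).comp_left (g := fun z : ℂ => ‖z‖ ^ 2) (by simp)
  rw [← integral_const_mul]
  refine samp_slice (fun x => C * V ^ (5 / 3 : ℝ) * (N : ℝ) ^ (2 / 3 : ℝ) * gradSq ψ i x)
    (fun x => momaW r i x * ‖ψ x‖ ^ 2)
    (hgm.const_mul _) (hWm.mul hsqm)
    (fun x => by have := hg0 x; positivity)
    (fun x => by have := hW0 x; positivity)
    ((integrable_gradSq ψ hψ1 hψ.compact i).const_mul _) i ?_ ?_ ?_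
  · intro x
    simp only [hguess]
    exact (sob_integrable_gsq _ (hu1 x) (huc x)).const_mul _
  · intro x
    refine Integrable.mono' ((hu2 x).const_mul BW) ?_
      (Filter.Eventually.of_forall fun t => ?_)
    · have h1 : Measurable fun t => Function.update x i t := measurable_update x
      exact ((hWm.comp h1).mul (hsqm.comp h1)).aestronglyMeasurable
    · have h1 := hW0 (Function.update x i t)
      rw [Real.norm_of_nonneg (by positivity)]
      have h2 := hWB (Function.update x i t)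
      rw [abs_of_nonneg h1] at h2
      gcongr
  · intro x
    simp only [hguess, hWu]
    set f : E3 → ℝ := fun w => momaN r i w x ^ (2 / 3 : ℝ) with hf
    have hfm : Measurable f := by
      have h1 : Measurable fun w : E3 => (w, x) := by fun_prop
      exact ((momaN_meas r i).comp h1).pow_const _
    have hf0 : ∀ w, 0 ≤ f w := fun w => by
      have := momaN_nonneg r i w x
      rw [hf]; positivity
    have hf4 : ∀ w, f w ^ (3 / 2 : ℝ) = momaN r i w x := fun w => by
      have := momaN_nonneg r i w x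
      rw [hf]
      simp only
      rw [← Real.rpow_mul (by positivity)]
      norm_num
    have hfM : ∀ w, f w ≤ (N : ℝ) ^ (2 / 3 : ℝ) := by
      intro w
      have h1 := momaN_nonneg r i w x
      have h2 := momaN_le r i w x
      have h3 : nB w r x ≤ N := by simpa using samp_nB_le w r x
      rw [hf]
      simp only
      have := h2.trans h3
      gcongr
    have hfi : Integrable fun w => f w ^ (3 / 2 : ℝ) := by
      simp only [hf4]
      exact integrable_finsetSum _ fun j _ => samp_integrable_inB (x j) r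
    obtain ⟨j1, j2⟩ := moma_jensen r hr f hfm hf0 _ hfM hfi
    have hXf : ∫ w, f w ^ (3 / 2 : ℝ) ≤ N * V := by
      simp only [hf4]
      calc ∫ w, momaN r i w x ≤ ∫ w, nB w r x :=
            integral_mono (integrable_finsetSum _ fun j _ => samp_integrable_inB (x j) r)
              (samp_integrable_nB r x) fun w => momaN_le r i w x
        _ = N * V := by rw [samp_integral_nB, Fintype.card_fin]
    rw [← hV] at j1 j2
    set W : E3 → ℝ := fun t => ∫ w, f w * inB w r t with hW
    have hW0' : ∀ t, 0 ≤ W t := fun t =>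
      integral_nonneg fun w => mul_nonneg (hf0 w) (samp_inB_nonneg _ _ _)
    have hWm' : Measurable W := by
      have : StronglyMeasurable fun p : E3 × E3 => f p.2 * inB p.2 r p.1 :=
        ((hfm.comp measurable_snd).mul ((samp_meas_inB r).comp measurable_swap)).stronglyMeasurable
      exact this.integral_prod_right.measurable
    have hWb' : ∃ B, ∀ t, W t ≤ B := by
      refine ⟨BW, fun t => ?_⟩
      have h1 := hW0 (Function.update x i t)
      have h2 := hWB (Function.update x i t)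
      rw [abs_of_nonneg h1, hWu] at h2
      exact h2
    have hW32 : ∀ t, W t ^ (3 / 2 : ℝ) = V ^ (3 / 2 : ℝ) * (V⁻¹ * W t) ^ (3 / 2 : ℝ) := fun t => by
      rw [← Real.mul_rpow hV0.le (by have := hW0' t; positivity), ← mul_assoc,
        mul_inv_cancel₀ hV0.ne', one_mul]
    have hWi : Integrable fun t => W t ^ (3 / 2 : ℝ) := by
      simp only [hW32]; exact j1.const_mul _
    have hWe : ∫ t, W t ^ (3 / 2 : ℝ) ≤ V ^ (5 / 2 : ℝ) * N := by
      simp only [hW32]
      rw [integral_const_mul]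
      calc V ^ (3 / 2 : ℝ) * ∫ t, (V⁻¹ * W t) ^ (3 / 2 : ℝ) ≤ V ^ (3 / 2 : ℝ) * (N * V) := by
            gcongr
            exact j2.trans hXf
        _ = V ^ (5 / 2 : ℝ) * N := by
            rw [show (5 / 2 : ℝ) = 3 / 2 + 1 by norm_num, Real.rpow_add hV0, Real.rpow_one]
            ring
    have hob := hsob W (fun y => ψ (Function.update x i y)) hW0' hWm' hWb' hWi (hu1 x) (huc x)
    have hWI0 : 0 ≤ ∫ t, W t ^ (3 / 2 : ℝ) := integral_nonneg fun t =>
      Real.rpow_nonneg (hW0' t) _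
    have hG0 : 0 ≤ ∫ t, gsq (fun y => ψ (Function.update x i y)) t :=
      integral_nonneg fun t => sob_gsq_nonneg _ _
    have e1 : (∫ t, W t ^ (3 / 2 : ℝ)) ^ (2 / 3 : ℝ) ≤ V ^ (5 / 3 : ℝ) * (N : ℝ) ^ (2 / 3 : ℝ) := by
      calc (∫ t, W t ^ (3 / 2 : ℝ)) ^ (2 / 3 : ℝ) ≤ (V ^ (5 / 2 : ℝ) * N) ^ (2 / 3 : ℝ) := by
            gcongr
        _ = _ := by
            rw [Real.mul_rpow (by positivity) (by positivity), ← Real.rpow_mul hV0.le]
            norm_num
    rw [integral_const_mul]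
    calc ∫ t, W t * ‖ψ (Function.update x i t)‖ ^ 2
        ≤ C * (∫ t, W t ^ (3 / 2 : ℝ)) ^ (2 / 3 : ℝ) *
          ∫ t, gsq (fun y => ψ (Function.update x i y)) t := hob
      _ ≤ C * (V ^ (5 / 3 : ℝ) * (N : ℝ) ^ (2 / 3 : ℝ)) *
          ∫ t, gsq (fun y => ψ (Function.update x i y)) t := by gcongr
      _ = _ := by ring

theorem sum_five_thirds : ∃ C : ℝ, 0 < C ∧ ∀ (N : ℕ) (ψ : (Fin N → E3) → ℂ) (r : ℝ),
    IsState ψ → 0 < r →
    ∫⁻ x, ∫⁻ w, ENNReal.ofReal (nB w r x ^ (5 / 3 : ℝ) * ‖ψ x‖ ^ 2) ≤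
      ENNReal.ofReal (C * r ^ 3 * (N + (N : ℝ) ^ (2 / 3 : ℝ) * r ^ 2 * kin ψ)) := by
  obtain ⟨C, hC, hs⟩ := moma_slice
  set v : ℝ := 4 / 3 * Real.pi with hv
  have hv0 : 0 < v := by positivity
  refine ⟨v + C * v ^ (5 / 3 : ℝ), by positivity, fun N ψ r hψ hr => ?_⟩
  set V := volume.real (ball (0 : E3) r) with hV
  have hV0 : 0 < V := samp_vol_pos r hr
  have hVr : V = v * r ^ 3 := int_vol_ball _ _ hr.le
  have hψ1 : ContDiff ℝ 1 ψ := hψ.smooth.of_le (by exact_mod_cast le_top)
  have hn : Integrable fun x => ‖ψ x‖ ^ 2 := by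
    have hc : Continuous fun x => ‖ψ x‖ ^ 2 := by
      have := hψ.smooth.continuous
      fun_prop
    refine hc.integrable_of_hasCompactSupport ?_
    exact hψ.compact.comp_left (g := fun z : ℂ => ‖z‖ ^ 2) (by simp)
  have hpt : ∀ x : Fin N → E3, ∫⁻ w, ENNReal.ofReal (nB w r x ^ (5 / 3 : ℝ) * ‖ψ x‖ ^ 2) ≤
      ENNReal.ofReal ((N * V + ∑ i, momaW r i x) * ‖ψ x‖ ^ 2) := by
    intro x
    have hi : Integrable fun w =>
        nB w r x + ∑ i, momaN r i w x ^ (2 / 3 : ℝ) * inB w r (x i) :=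
      (samp_integrable_nB r x).add (integrable_finsetSum _ fun i _ => (momaW_dom r i).1 x)
    calc ∫⁻ w, ENNReal.ofReal (nB w r x ^ (5 / 3 : ℝ) * ‖ψ x‖ ^ 2)
        ≤ ∫⁻ w, ENNReal.ofReal ((nB w r x + ∑ i, momaN r i w x ^ (2 / 3 : ℝ) * inB w r (x i)) *
            ‖ψ x‖ ^ 2) := by
          refine lintegral_mono fun w => ENNReal.ofReal_le_ofReal ?_
          exact mul_le_mul_of_nonneg_right (moma_point r w x) (by positivity)
      _ = ENNReal.ofReal (∫ w, (nB w r x + ∑ i, momaN r i w x ^ (2 / 3 : ℝ) * inB w r (x i)) *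
            ‖ψ x‖ ^ 2) := by
          refine (ofReal_integral_eq_lintegral_ofReal (hi.mul_const _)
            (Filter.Eventually.of_forall fun w => ?_)).symm
          have h1 := samp_nB_nonneg w r x
          have h2 : 0 ≤ ∑ i, momaN r i w x ^ (2 / 3 : ℝ) * inB w r (x i) :=
            Finset.sum_nonneg fun i _ => mul_nonneg (Real.rpow_nonneg (momaN_nonneg r i w x) _)
              (samp_inB_nonneg _ _ _)
          simp only
          positivity
      _ = _ := by
          rw [integral_mul_const, integral_add (samp_integrable_nB r x)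
            (integrable_finsetSum _ fun i _ => (momaW_dom r i).1 x), samp_integral_nB,
            integral_finsetSum _ fun i _ => (momaW_dom r i).1 x, Fintype.card_fin]
          rfl
  have iW : ∀ i : Fin N, Integrable fun x => momaW r i x * ‖ψ x‖ ^ 2 := by
    intro i
    obtain ⟨_, hWm, BW, hWB⟩ := momaW_dom r i
    refine Integrable.mono' (hn.const_mul BW) (hWm.aestronglyMeasurable.mul hn.aestronglyMeasurable)
      (Filter.Eventually.of_forall fun x => ?_)
    rw [norm_mul, Real.norm_eq_abs, Real.norm_of_nonneg (by positivity : 0 ≤ ‖ψ x‖ ^ 2)]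
    exact mul_le_mul_of_nonneg_right (hWB x) (by positivity)
  have hW0 : ∀ (i : Fin N) (x : Fin N → E3), 0 ≤ momaW r i x := fun i x => integral_nonneg fun w => by
    have h1 := momaN_nonneg r i w x
    have h2 := samp_inB_nonneg w r (x i)
    positivity
  have e0 : ∀ x : Fin N → E3, (N * V + ∑ i, momaW r i x) * ‖ψ x‖ ^ 2 =
      N * V * ‖ψ x‖ ^ 2 + ∑ i, momaW r i x * ‖ψ x‖ ^ 2 := by
    intro x; rw [add_mul, Finset.sum_mul]
  have iF : Integrable fun x => (N * V + ∑ i, momaW r i x) * ‖ψ x‖ ^ 2 := by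
    simp only [e0]
    exact (hn.const_mul _).add (integrable_finsetSum _ fun i _ => iW i)
  refine (lintegral_mono hpt).trans ?_
  rw [← ofReal_integral_eq_lintegral_ofReal iF (Filter.Eventually.of_forall fun x => by
    have : 0 ≤ ∑ i, momaW r i x := Finset.sum_nonneg fun i _ => hW0 i x
    simp only
    positivity)]
  refine ENNReal.ofReal_le_ofReal ?_
  simp only [e0]
  rw [integral_add (hn.const_mul _) (integrable_finsetSum _ fun i _ => iW i), integral_const_mul,
    hψ.normalized, mul_one, integral_finsetSum _ fun i _ => iW i]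
  have hk : kin ψ = ∑ i, ∫ x, gradSq ψ i x := by
    unfold kin
    rw [integral_finsetSum _ fun i _ => integrable_gradSq ψ hψ1 hψ.compact i]
  have hk0 : 0 ≤ kin ψ := integral_nonneg fun x => Finset.sum_nonneg fun i _ => sob_gsq_nonneg _ _
  have h1 : ∑ i, ∫ x, momaW r i x * ‖ψ x‖ ^ 2 ≤
      C * V ^ (5 / 3 : ℝ) * (N : ℝ) ^ (2 / 3 : ℝ) * kin ψ := by
    rw [hk, Finset.mul_sum]
    exact Finset.sum_le_sum fun i _ => hs N ψ r hψ hr i
  have hV53 : V ^ (5 / 3 : ℝ) = v ^ (5 / 3 : ℝ) * r ^ 5 := by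
    rw [hVr, Real.mul_rpow hv0.le (by positivity), ← Real.rpow_natCast r 3, ← Real.rpow_mul hr.le,
      ← Real.rpow_natCast r 5]
    norm_num
  rw [hV53] at h1
  rw [hVr]
  have hN : (0 : ℝ) ≤ N := Nat.cast_nonneg _
  have hp : 0 ≤ v * r ^ 3 * ((N : ℝ) ^ (2 / 3 : ℝ) * r ^ 2 * kin ψ) := by positivity
  have hp2 : 0 ≤ C * v ^ (5 / 3 : ℝ) * r ^ 3 * N := by positivity
  calc N * (v * r ^ 3) + ∑ i, ∫ x, momaW r i x * ‖ψ x‖ ^ 2
      ≤ N * (v * r ^ 3) + C * (v ^ (5 / 3 : ℝ) * r ^ 5) * (N : ℝ) ^ (2 / 3 : ℝ) * kin ψ := by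
        linarith
    _ ≤ N * (v * r ^ 3) + C * (v ^ (5 / 3 : ℝ) * r ^ 5) * (N : ℝ) ^ (2 / 3 : ℝ) * kin ψ +
        (v * r ^ 3 * ((N : ℝ) ^ (2 / 3 : ℝ) * r ^ 2 * kin ψ) +
          C * v ^ (5 / 3 : ℝ) * r ^ 3 * N) := by linarith
    _ = _ := by ring

end Pool.Agent.H5R2.NL
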