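import Mathlib
import Pool.Agent.H5R2.NL.Defs
import Pool.Agent.H5R2.NL.Int
import Pool.Agent.H5R2.NL.Kern
import Pool.Agent.H5R2.NL.Cut
import Pool.Agent.H5R2.NL.MomA

/-!
# Balls with many particles
-/

set_option autoImplicit false
set_option maxHeartbeats 400000

noncomputable section

namespace Pool.Agent.H5R2.NL

open MeasureTheory Metric Set
open scoped ENNReal

/-- The error of the balls with more than `n₀` particles. -/
def badQ {N : ℕ} (n₀ : ℝ) (w : E3) (r : ℝ) (x : Fin N → E3) : ℝ :=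
  if n₀ < nB w r x then
    Real.sqrt (nB w r x) / r * (nB w r x + prsB w r (4 * r / Real.sqrt (nB w r x)) x)
  else 0

/-! ### measurability -/

theorem mb_inB_meas {α : Type*} [MeasurableSpace α] {w : α → E3} {r : α → ℝ} {x : α → E3}
    (hw : Measurable w) (hr : Measurable r) (hx : Measurable x) :
    Measurable fun a => inB (w a) (r a) (x a) := by
  unfold inB
  exact Measurable.ite (measurableSet_lt ((hx.sub hw).norm) hr) measurable_const measurable_const

theorem mb_nB_meas {N : ℕ} {α : Type*} [MeasurableSpace α] {w : α → E3} {r : α → ℝ}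
    {x : α → Fin N → E3} (hw : Measurable w) (hr : Measurable r) (hx : Measurable x) :
    Measurable fun a => nB (w a) (r a) (x a) := by
  unfold nB
  exact Finset.measurable_sum _ fun i _ => mb_inB_meas hw hr ((measurable_pi_apply i).comp hx)

theorem mb_prsB_meas {N : ℕ} {α : Type*} [MeasurableSpace α] {w : α → E3} {r s : α → ℝ}
    {x : α → Fin N → E3} (hw : Measurable w) (hr : Measurable r) (hs : Measurable s)
    (hx : Measurable x) :
    Measurable fun a => prsB (w a) (r a) (s a) (x a) := by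
  unfold prsB
  refine Finset.measurable_sum _ fun i _ => Finset.measurable_sum _ fun j _ => ?_
  have hi := (measurable_pi_apply i).comp hx
  have hj := (measurable_pi_apply j).comp hx
  refine Measurable.ite ?_ ((mb_inB_meas hw hr hi).mul (mb_inB_meas hw hr hj)) measurable_const
  by_cases hij : i ≠ j
  · simp only [hij, ne_eq, not_false_eq_true, true_and]
    exact measurableSet_lt ((hi.sub hj).norm) hs
  · simp only [hij, false_and]
    simp

theorem mb_badQ_meas {N : ℕ} (n₀ : ℝ) {α : Type*} [MeasurableSpace α] {w : α → E3} {r : α → ℝ}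
    {x : α → Fin N → E3} (hw : Measurable w) (hr : Measurable r) (hx : Measurable x) :
    Measurable fun a => badQ n₀ (w a) (r a) (x a) := by
  unfold badQ
  have hn := mb_nB_meas hw hr hx
  refine Measurable.ite (measurableSet_lt measurable_const hn) ?_ measurable_const
  refine (hn.sqrt.div hr).mul (hn.add ?_)
  exact mb_prsB_meas hw hr ((hr.const_mul 4).div hn.sqrt) hx

/-! ### pointwise bounds -/

theorem mb_inB_cases (w : E3) (r : ℝ) (x : E3) : inB w r x = 0 ∨ inB w r x = 1 := by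
  unfold inB
  split_ifs
  · right; rfl
  · left; rfl

theorem mb_inB_nonneg (w : E3) (r : ℝ) (x : E3) : 0 ≤ inB w r x := by
  rcases mb_inB_cases w r x with h | h <;> simp [h]

theorem mb_inB_mono (w : E3) {r : ℝ} (hr : 0 ≤ r) (x : E3) : inB w r x ≤ inB w (2 * r) x := by
  unfold inB
  split_ifs with h1 h2 h2
  · exact le_rfl
  · exact absurd (by linarith) h2
  · exact zero_le_one
  · exact le_rfl

theorem mb_nB_nonneg {N : ℕ} (w : E3) (r : ℝ) (x : Fin N → E3) : 0 ≤ nB w r x :=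
  Finset.sum_nonneg fun i _ => mb_inB_nonneg w r (x i)

/-- number of the other particles in the ball -/
def mbm {N : ℕ} (w : E3) (r : ℝ) (i : Fin N) (x : Fin N → E3) : ℝ :=
  ∑ k ∈ Finset.univ.erase i, inB w r (x k)

theorem mbm_nonneg {N : ℕ} (w : E3) (r : ℝ) (i : Fin N) (x : Fin N → E3) : 0 ≤ mbm w r i x :=
  Finset.sum_nonneg fun i _ => mb_inB_nonneg w r (x i)

theorem mbm_add {N : ℕ} (w : E3) (r : ℝ) (i : Fin N) (x : Fin N → E3) :
    inB w r (x i) + mbm w r i x = nB w r x := by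
  unfold mbm nB
  exact Finset.add_sum_erase Finset.univ (fun k => inB w r (x k)) (Finset.mem_univ i)

theorem mbm_le {N : ℕ} (w : E3) (r : ℝ) (i : Fin N) (x : Fin N → E3) : mbm w r i x ≤ N := by
  unfold mbm
  calc ∑ k ∈ Finset.univ.erase i, inB w r (x k) ≤ ∑ k : Fin N, inB w r (x k) :=
        Finset.sum_le_sum_of_subset_of_nonneg (Finset.erase_subset _ _)
          fun k _ _ => mb_inB_nonneg w r (x k)
    _ ≤ ∑ _k : Fin N, (1 : ℝ) := by
        apply Finset.sum_le_sum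
        intro k _
        rcases mb_inB_cases w r (x k) with h | h <;> simp [h]
    _ = N := by simp

theorem mbm_update {N : ℕ} (w : E3) (r : ℝ) (i : Fin N) (x : Fin N → E3) (t : E3) :
    mbm w r i (Function.update x i t) = mbm w r i x := by
  unfold mbm
  apply Finset.sum_congr rfl
  intro k hk
  rw [Function.update_of_ne (Finset.ne_of_mem_erase hk)]

theorem mbm_meas {N : ℕ} (w : E3) (r : ℝ) (i : Fin N) : Measurable (mbm w r i) := by
  unfold mbm
  exact Finset.measurable_sum _ fun k _ =>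
    mb_inB_meas measurable_const measurable_const (measurable_pi_apply k)

theorem mb_pow {n₀ n : ℝ} (h0 : 1 ≤ n₀) (h : n₀ ≤ n) :
    Real.sqrt n * n ≤ n₀ ^ (-(1 / 6) : ℝ) * n ^ (5 / 3 : ℝ) := by
  have hn0 : 0 < n₀ := by linarith
  have hn : 0 < n := by linarith
  have h1 : Real.sqrt n * n = n ^ (3 / 2 : ℝ) := by
    rw [Real.sqrt_eq_rpow]
    nth_rewrite 2 [← Real.rpow_one n]
    rw [← Real.rpow_add hn]
    norm_num
  have h2 : n ^ (5 / 3 : ℝ) = n ^ (1 / 6 : ℝ) * n ^ (3 / 2 : ℝ) := by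
    rw [← Real.rpow_add hn]; norm_num
  rw [h1, h2, ← mul_assoc]
  have h3 : 1 ≤ n₀ ^ (-(1 / 6) : ℝ) * n ^ (1 / 6 : ℝ) := by
    rw [Real.rpow_neg hn0.le, inv_mul_eq_div, one_le_div (by positivity)]
    exact Real.rpow_le_rpow hn0.le h (by norm_num)
  have h4 : 0 ≤ n ^ (3 / 2 : ℝ) := by positivity
  nlinarith

/-- the weight of the pairs -/
def mbK {N : ℕ} (n₀ : ℝ) (w : E3) (r : ℝ) (i : Fin N) (x : Fin N → E3) : ℝ :=
  if n₀ < mbm w r i x + 1 then 16 * r / Real.sqrt (mbm w r i x) else 0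

theorem mbK_nonneg {N : ℕ} (n₀ : ℝ) (w : E3) {r : ℝ} (hr : 0 < r) (i : Fin N)
    (x : Fin N → E3) : 0 ≤ mbK n₀ w r i x := by
  unfold mbK
  split_ifs
  · positivity
  · exact le_rfl

theorem mbK_update {N : ℕ} (n₀ : ℝ) (w : E3) (r : ℝ) (i : Fin N) (x : Fin N → E3) (t : E3) :
    mbK n₀ w r i (Function.update x i t) = mbK n₀ w r i x := by
  unfold mbK
  rw [mbm_update]

theorem mbK_meas {N : ℕ} (n₀ : ℝ) (w : E3) (r : ℝ) (i : Fin N) :
    Measurable (mbK (N := N) n₀ w r i) := by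
  unfold mbK
  have h := mbm_meas w r i
  exact Measurable.ite (measurableSet_lt measurable_const (h.add_const 1))
    (measurable_const.div h.sqrt) measurable_const

theorem mb_point {N : ℕ} {n₀ r : ℝ} (w : E3) (x : Fin N → E3) (hr : 0 < r) (hn : 1 ≤ n₀)
    (hx : ∀ i j, x i = x j → i = j) :
    badQ n₀ w r x ≤ n₀ ^ (-(1 / 6) : ℝ) / r * nB w r x ^ (5 / 3 : ℝ) +
      ∑ i, ∑ j ∈ Finset.univ.erase i,
        (mbK n₀ w r i x * inB w r (x j)) * (inB w r (x i) / ‖x i - x j‖ ^ 2) := by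
  have hsum0 : 0 ≤ ∑ i, ∑ j ∈ Finset.univ.erase i,
      (mbK n₀ w r i x * inB w r (x j)) * (inB w r (x i) / ‖x i - x j‖ ^ 2) := by
    refine Finset.sum_nonneg fun i _ => Finset.sum_nonneg fun j _ => ?_
    have h1 := mbK_nonneg n₀ w hr i x
    have h2 := mb_inB_nonneg w r (x i)
    have h3 := mb_inB_nonneg w r (x j)
    positivity
  have hn0 : 0 < n₀ := by linarith
  unfold badQ
  split_ifs with h
  · obtain ⟨n, hnn⟩ : ∃ n, n = nB w r x := ⟨_, rfl⟩
    rw [← hnn] at h ⊢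
    have hnpos : 0 < n := by linarith
    have hsq : 0 < Real.sqrt n := Real.sqrt_pos.2 hnpos
    have hsqn : Real.sqrt n ^ 2 = n := Real.sq_sqrt hnpos.le
    rw [mul_add]
    refine add_le_add ?_ ?_
    · rw [div_mul_eq_mul_div, div_mul_eq_mul_div]
      exact div_le_div_of_nonneg_right (mb_pow hn h.le) hr.le
    · unfold prsB
      rw [Finset.mul_sum]
      apply Finset.sum_le_sum
      intro i _
      rw [Finset.mul_sum, ← Finset.add_sum_erase _ _ (Finset.mem_univ i)]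
      simp only [ne_eq, not_true_eq_false, false_and, if_false, mul_zero, zero_add]
      apply Finset.sum_le_sum
      intro j hj
      have hij : j ≠ i := Finset.ne_of_mem_erase hj
      have hKn := mbK_nonneg n₀ w hr i x
      have hi0 := mb_inB_nonneg w r (x i)
      have hj0 := mb_inB_nonneg w r (x j)
      split_ifs with h1
      · obtain ⟨-, h2⟩ := h1
        rcases mb_inB_cases w r (x i) with hi | hi
        · rw [hi]; simp
        rcases mb_inB_cases w r (x j) with hj' | hj'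
        · rw [hj']; simp
        rw [hi, hj']
        simp only [mul_one]
        have ht : 0 < ‖x i - x j‖ := by
          rw [norm_pos_iff, sub_ne_zero]
          intro h3
          exact hij (hx i j h3).symm
        have hm := mbm_add w r i x
        rw [hi, ← hnn] at hm
        have hm1 : 1 ≤ mbm w r i x := by
          unfold mbm
          calc (1 : ℝ) = inB w r (x j) := hj'.symm
            _ ≤ _ := Finset.single_le_sum (f := fun k => inB w r (x k))
              (fun k _ => mb_inB_nonneg w r (x k)) hj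
        unfold mbK
        rw [if_pos (by linarith)]
        have hsm : 0 < Real.sqrt (mbm w r i x) := Real.sqrt_pos.2 (by linarith)
        have hsmn : Real.sqrt (mbm w r i x) ≤ Real.sqrt n := Real.sqrt_le_sqrt (by linarith)
        have h3 : ‖x i - x j‖ * Real.sqrt n ≤ 4 * r := by
          rw [lt_div_iff₀ hsq] at h2
          exact h2.le
        have h4 : (‖x i - x j‖ * Real.sqrt n) ^ 2 ≤ (4 * r) ^ 2 :=
          pow_le_pow_left₀ (by positivity) h3 2
        rw [mul_one_div, div_div, div_le_div_iff₀ hr (by positivity)]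
        calc Real.sqrt n * (Real.sqrt (mbm w r i x) * ‖x i - x j‖ ^ 2)
            ≤ Real.sqrt n * (Real.sqrt n * ‖x i - x j‖ ^ 2) := by gcongr
          _ = (‖x i - x j‖ * Real.sqrt n) ^ 2 := by ring
          _ ≤ (4 * r) ^ 2 := h4
          _ = 16 * r * r := by ring
      · rw [mul_zero]; positivity
  · have h1 : 0 ≤ n₀ ^ (-(1 / 6) : ℝ) / r * nB w r x ^ (5 / 3 : ℝ) := by
      have := mb_nB_nonneg w r x
      positivity
    linarith

theorem mb_point2 {N : ℕ} {n₀ r C P : ℝ} (w : E3) (x : Fin N → E3) (G : Fin N → ℝ)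
    (hr : 0 < r) (hn : 1 ≤ n₀) (hC : 0 ≤ C) (hP : 0 ≤ P) (hG : ∀ i, 0 ≤ G i) :
    ∑ i, ∑ j ∈ Finset.univ.erase i,
        (mbK n₀ w r i x * inB w r (x j)) * (inB w (2 * r) (x i) * (8 * G i + C / r ^ 2 * P)) ≤
      (∑ i, 128 * Real.sqrt N * r * inB w (2 * r) (x i) * G i) +
        16 * C / r * (n₀ ^ (-(1 / 6) : ℝ) * nB w (2 * r) x ^ (5 / 3 : ℝ)) * P := by
  have hn0 : 0 < n₀ := by linarith
  have h1 : ∀ i, ∑ j ∈ Finset.univ.erase i,
      (mbK n₀ w r i x * inB w r (x j)) * (inB w (2 * r) (x i) * (8 * G i + C / r ^ 2 * P)) =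
      (mbK n₀ w r i x * mbm w r i x) * (inB w (2 * r) (x i) * (8 * G i + C / r ^ 2 * P)) := by
    intro i
    rw [← Finset.sum_mul, ← Finset.mul_sum]
    rfl
  simp_rw [h1]
  have hKm : ∀ i, mbK n₀ w r i x * mbm w r i x =
      if n₀ < mbm w r i x + 1 then 16 * r * Real.sqrt (mbm w r i x) else 0 := by
    intro i
    unfold mbK
    split_ifs with h
    · rw [div_mul_eq_mul_div, mul_div_assoc, Real.div_sqrt]
    · rw [zero_mul]
  obtain ⟨ns, hns⟩ : ∃ ns, ns = nB w (2 * r) x := ⟨_, rfl⟩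
  have hns0 : 0 ≤ ns := by rw [hns]; exact mb_nB_nonneg _ _ _
  rw [← hns]
  have hkey : ∀ i, (mbK n₀ w r i x * mbm w r i x) *
      (inB w (2 * r) (x i) * (8 * G i + C / r ^ 2 * P)) ≤
      128 * Real.sqrt N * r * inB w (2 * r) (x i) * G i +
        16 * C / r * ((if n₀ ≤ ns then Real.sqrt ns else 0) * inB w (2 * r) (x i)) * P := by
    intro i
    rw [hKm]
    have hmN : Real.sqrt (mbm w r i x) ≤ Real.sqrt N := Real.sqrt_le_sqrt (mbm_le w r i x)
    have hGi := hG i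
    split_ifs with h h2 h2
    · rcases mb_inB_cases w (2 * r) (x i) with hi | hi
      · rw [hi]; simp
      · rw [hi]
        have h3 : mbm w r i x + 1 ≤ ns := by
          rw [hns, ← mbm_add w (2 * r) i x, hi, add_comm]
          apply add_le_add le_rfl
          unfold mbm
          exact Finset.sum_le_sum fun k _ => mb_inB_mono w hr.le (x k)
        have h4 : Real.sqrt (mbm w r i x) ≤ Real.sqrt ns := Real.sqrt_le_sqrt (by linarith)
        have h5 : 16 * r * Real.sqrt (mbm w r i x) * (1 * (8 * G i + C / r ^ 2 * P)) =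
            128 * Real.sqrt (mbm w r i x) * r * G i +
              16 * C / r * Real.sqrt (mbm w r i x) * P := by
          field_simp
          ring
        rw [h5]
        have h6 : 128 * Real.sqrt (mbm w r i x) * r * G i ≤ 128 * Real.sqrt N * r * G i := by
          gcongr
        have h7 : 16 * C / r * Real.sqrt (mbm w r i x) * P ≤ 16 * C / r * Real.sqrt ns * P := by
          gcongr
        simp only [mul_one]
        linarith
    · rcases mb_inB_cases w (2 * r) (x i) with hi | hi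
      · rw [hi]; simp
      · exfalso
        apply h2
        rw [hns, ← mbm_add w (2 * r) i x, hi]
        have : mbm w r i x ≤ mbm w (2 * r) i x := by
          unfold mbm
          exact Finset.sum_le_sum fun k _ => mb_inB_mono w hr.le (x k)
        linarith
    · have := mb_inB_nonneg w (2 * r) (x i)
      rw [zero_mul]
      positivity
    · have := mb_inB_nonneg w (2 * r) (x i)
      rw [zero_mul]
      positivity
  refine (Finset.sum_le_sum fun i _ => hkey i).trans ?_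
  rw [Finset.sum_add_distrib]
  apply add_le_add le_rfl
  rw [← Finset.sum_mul, ← Finset.mul_sum, ← Finset.mul_sum]
  have h8 : ∑ i, inB w (2 * r) (x i) = ns := by rw [hns]; rfl
  rw [h8]
  apply mul_le_mul_of_nonneg_right _ hP
  apply mul_le_mul_of_nonneg_left _ (by positivity)
  split_ifs with h
  · exact mb_pow hn h
  · rw [zero_mul]; positivity

/-! ### the Hardy step -/

theorem mb_inB_lint (w : E3) (r k : ℝ) (hk : 0 ≤ k) (f : E3 → ℝ) :
    ∫⁻ t, ENNReal.ofReal (k * (inB w r t * f t)) =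
      ENNReal.ofReal k * ∫⁻ t in ball w r, ENNReal.ofReal (f t) := by
  rw [← lintegral_const_mul' _ _ ENNReal.ofReal_ne_top, ← lintegral_indicator measurableSet_ball]
  apply lintegral_congr
  intro t
  unfold inB
  by_cases ht : t ∈ ball w r
  · rw [indicator_of_mem ht]
    rw [mem_ball, dist_eq_norm] at ht
    rw [if_pos ht, one_mul, ENNReal.ofReal_mul hk]
  · rw [indicator_of_notMem ht]
    rw [mem_ball, dist_eq_norm] at ht
    rw [if_neg ht, zero_mul, mul_zero, ENNReal.ofReal_zero]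

theorem mb_hardy {C : ℝ} (hC0 : 0 < C) (hH : ∀ (w y : E3) (r : ℝ) (u : E3 → ℂ), 0 < r →
    ContDiff ℝ 1 u → ∫ x in ball w r, ‖u x‖ ^ 2 / ‖x - y‖ ^ 2 ≤
      8 * (∫ x in ball w (2 * r), gsq u x) +
        C / r ^ 2 * (∫ x in ball w (2 * r), ‖u x‖ ^ 2))
    {N : ℕ} (ψ : (Fin N → E3) → ℂ) (hψ : ContDiff ℝ 1 ψ) (w : E3) {r : ℝ} (hr : 0 < r)
    (i j : Fin N) (hij : j ≠ i) (K : (Fin N → E3) → ℝ) (hK : Measurable K) (hK0 : ∀ x, 0 ≤ K x)
    (hKu : ∀ x t, K (Function.update x i t) = K x) :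
    ∫⁻ x, ENNReal.ofReal (K x * (inB w r (x i) / ‖x i - x j‖ ^ 2) * ‖ψ x‖ ^ 2) ≤
      ∫⁻ x, ENNReal.ofReal (K x * (inB w (2 * r) (x i) *
        (8 * gradSq ψ i x + C / r ^ 2 * ‖ψ x‖ ^ 2))) := by
  have hψm : Measurable ψ := hψ.continuous.measurable
  have hGm : Measurable (gradSq ψ i) := (continuous_gradSq ψ hψ i).measurable
  have hii := fun ρ : ℝ => mb_inB_meas (α := Fin N → E3) (w := fun _ => w) (r := fun _ => ρ)
    measurable_const measurable_const (measurable_pi_apply i)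
  refine int_slice_le volume _ _ ?_ ?_ i fun x => ?_
  · refine Measurable.ennreal_ofReal ?_
    refine (hK.mul ((hii r).div ?_)).mul (hψm.norm.pow_const 2)
    exact (((measurable_pi_apply i).sub (measurable_pi_apply j)).norm.pow_const 2)
  · refine Measurable.ennreal_ofReal ?_
    exact hK.mul ((hii (2 * r)).mul ((hGm.const_mul 8).add ((hψm.norm.pow_const 2).const_mul _)))
  · simp only [hKu, Function.update_self, Function.update_of_ne hij]
    obtain ⟨u, hu⟩ : ∃ u : E3 → ℂ, u = fun t => ψ (Function.update x i t) := ⟨_, rfl⟩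
    have hud : ContDiff ℝ 1 u := by rw [hu]; exact hψ.comp (contDiff_update 1 x i)
    have h1 : ∀ t, gradSq ψ i (Function.update x i t) = gsq u t := by
      intro t
      unfold gradSq
      simp only [Function.update_idem, Function.update_self]
      rw [hu]
    have h2 : ∀ t, ψ (Function.update x i t) = u t := fun t => by rw [hu]
    simp only [h1, h2]
    have h3 : ∀ t, K x * (inB w r t / ‖t - x j‖ ^ 2) * ‖u t‖ ^ 2 =
        K x * (inB w r t * (‖u t‖ ^ 2 / ‖t - x j‖ ^ 2)) := fun t => by ring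
    simp only [h3]
    rw [mb_inB_lint w r _ (hK0 x), mb_inB_lint w (2 * r) _ (hK0 x)]
    refine mul_le_mul' le_rfl ?_
    have hcu := hud.continuous
    have hcG := pba_continuous_gsq hud
    obtain ⟨B, hB⟩ := (isCompact_closedBall w r).exists_bound_of_continuousOn
      (f := fun t => ‖u t‖ ^ 2) (by fun_prop)
    have hi1 : IntegrableOn (fun t => ‖u t‖ ^ 2 / ‖t - x j‖ ^ 2) (ball w r) := by
      have h4 : IntegrableOn (fun t => B * (1 / ‖t - x j‖ ^ 2)) (ball w r) :=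
        (integrableOn_inv_sq (x j) w r).const_mul B
      refine Integrable.mono' h4 ?_ ?_
      · have h5 : Measurable fun t : E3 => ‖t - x j‖ ^ 2 :=
          (measurable_id.sub_const _).norm.pow_const 2
        exact ((hcu.measurable.norm.pow_const 2).div h5).aestronglyMeasurable
      · filter_upwards [ae_restrict_mem measurableSet_ball] with t ht
        rw [Real.norm_of_nonneg (by positivity), div_eq_mul_one_div]
        apply mul_le_mul_of_nonneg_right _ (by positivity)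
        exact (le_abs_self _).trans (hB t (ball_subset_closedBall ht))
    have hi2 : IntegrableOn (fun t => 8 * gsq u t + C / r ^ 2 * ‖u t‖ ^ 2) (ball w (2 * r)) :=
      pba_integrableOn (by fun_prop) w _
    rw [← ofReal_integral_eq_lintegral_ofReal hi1
        (Filter.Eventually.of_forall fun t => by positivity),
      ← ofReal_integral_eq_lintegral_ofReal hi2
        (Filter.Eventually.of_forall fun t => by
          have := pba_gsq_nonneg u t
          positivity)]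
    apply ENNReal.ofReal_le_ofReal
    refine (hH w (x j) r u hr hud).trans (le_of_eq ?_)
    rw [← integral_const_mul, ← integral_const_mul, ← integral_add]
    · exact pba_integrableOn (by fun_prop) w _
    · exact pba_integrableOn (by fun_prop) w _

/-- the bound for a fixed ball -/
theorem mb_fixed {C : ℝ} (hC0 : 0 < C) (hH : ∀ (w y : E3) (r : ℝ) (u : E3 → ℂ), 0 < r →
    ContDiff ℝ 1 u → ∫ x in ball w r, ‖u x‖ ^ 2 / ‖x - y‖ ^ 2 ≤
      8 * (∫ x in ball w (2 * r), gsq u x) +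
        C / r ^ 2 * (∫ x in ball w (2 * r), ‖u x‖ ^ 2))
    {N : ℕ} (ψ : (Fin N → E3) → ℂ) (hψ : ContDiff ℝ 1 ψ) {n₀ : ℝ} (hn : 1 ≤ n₀) (w : E3) (r : ℝ) :
    ∫⁻ x, ENNReal.ofReal (badQ n₀ w r x * ‖ψ x‖ ^ 2) ≤
      ENNReal.ofReal (n₀ ^ (-(1 / 6) : ℝ)) * (ENNReal.ofReal (1 / r) *
          ∫⁻ x, ENNReal.ofReal (nB w (1 * r) x ^ (5 / 3 : ℝ) * ‖ψ x‖ ^ 2)) +
      (∑ i, ∫⁻ x, ENNReal.ofReal (128 * Real.sqrt N * r) *
        ENNReal.ofReal (inB w (2 * r) (x i)) * ENNReal.ofReal (gradSq ψ i x)) +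
      ENNReal.ofReal (16 * C * n₀ ^ (-(1 / 6) : ℝ)) * (ENNReal.ofReal (1 / r) *
          ∫⁻ x, ENNReal.ofReal (nB w (2 * r) x ^ (5 / 3 : ℝ) * ‖ψ x‖ ^ 2)) := by
  have hn0 : 0 < n₀ := by linarith
  rcases le_or_gt r 0 with hr0 | hr
  · have h1 : ∀ x : Fin N → E3, badQ n₀ w r x = 0 := by
      intro x
      have h2 : nB w r x = 0 := by
        unfold nB inB
        apply Finset.sum_eq_zero
        intro i _
        rw [if_neg]
        have := norm_nonneg (x i - w)
        linarith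
      unfold badQ
      rw [h2, if_neg (by linarith)]
    simp only [h1, zero_mul, ENNReal.ofReal_zero, lintegral_zero]
    exact zero_le
  have hψm : Measurable ψ := hψ.continuous.measurable
  have hPm : Measurable fun x => ‖ψ x‖ ^ 2 := hψm.norm.pow_const 2
  have hGm : ∀ i, Measurable (gradSq ψ i) := fun i => (continuous_gradSq ψ hψ i).measurable
  have hG0 : ∀ i x, 0 ≤ gradSq ψ i x := fun i x => pba_gsq_nonneg _ _
  have hii := fun (ρ : ℝ) (i : Fin N) => mb_inB_meas (α := Fin N → E3) (w := fun _ => w)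
    (r := fun _ => ρ) measurable_const measurable_const (measurable_pi_apply i)
  have hnB := fun ρ : ℝ => mb_nB_meas (N := N) (α := Fin N → E3) (w := fun _ => w)
    (r := fun _ => ρ) measurable_const measurable_const measurable_id
  have hm53 : ∀ ρ : ℝ, Measurable fun x : Fin N → E3 =>
      ENNReal.ofReal (nB w ρ x ^ (5 / 3 : ℝ) * ‖ψ x‖ ^ 2) := fun ρ =>
    (((hnB ρ).pow_const _).mul hPm).ennreal_ofReal
  have hm53' : Measurable fun x : Fin N → E3 =>
      ENNReal.ofReal (16 * C * n₀ ^ (-(1 / 6) : ℝ)) * (ENNReal.ofReal (1 / r) *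
              ENNReal.ofReal (nB w (2 * r) x ^ (5 / 3 : ℝ) * ‖ψ x‖ ^ 2)) :=
    ((hm53 (2 * r)).const_mul _).const_mul _
  have hmG : ∀ i : Fin N, Measurable fun x : Fin N → E3 => ENNReal.ofReal (128 * Real.sqrt N * r) *
            ENNReal.ofReal (inB w (2 * r) (x i)) * ENNReal.ofReal (gradSq ψ i x) := fun i =>
    (((hii (2 * r) i).ennreal_ofReal).const_mul _).mul (hGm i).ennreal_ofReal
  have hA : Measurable fun x : Fin N → E3 => ENNReal.ofReal
      ((n₀ ^ (-(1 / 6) : ℝ) / r * nB w r x ^ (5 / 3 : ℝ)) * ‖ψ x‖ ^ 2) :=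
    ((((hnB r).pow_const _).const_mul _).mul hPm).ennreal_ofReal
  have hT : ∀ i j, Measurable fun x : Fin N → E3 => ENNReal.ofReal
      ((mbK n₀ w r i x * inB w r (x j)) * (inB w r (x i) / ‖x i - x j‖ ^ 2) * ‖ψ x‖ ^ 2) := by
    intro i j
    refine Measurable.ennreal_ofReal ?_
    refine (((mbK_meas n₀ w r i).mul (hii r j)).mul ((hii r i).div ?_)).mul hPm
    exact (((measurable_pi_apply i).sub (measurable_pi_apply j)).norm.pow_const 2)
  have hT' : ∀ i j, Measurable fun x : Fin N → E3 => ENNReal.ofReal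
      ((mbK n₀ w r i x * inB w r (x j)) * (inB w (2 * r) (x i) *
        (8 * gradSq ψ i x + C / r ^ 2 * ‖ψ x‖ ^ 2))) := by
    intro i j
    refine Measurable.ennreal_ofReal ?_
    exact ((mbK_meas n₀ w r i).mul (hii r j)).mul ((hii (2 * r) i).mul
      (((hGm i).const_mul 8).add (hPm.const_mul _)))
  have hTn : ∀ i j x, 0 ≤ (mbK n₀ w r i x * inB w r (x j)) *
      (inB w r (x i) / ‖x i - x j‖ ^ 2) * ‖ψ x‖ ^ 2 := by
    intro i j x
    have h1 := mbK_nonneg n₀ w hr i x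
    have h2 := mb_inB_nonneg w r (x i)
    have h3 := mb_inB_nonneg w r (x j)
    positivity
  have hTn' : ∀ i j x, 0 ≤ (mbK n₀ w r i x * inB w r (x j)) *
      (inB w (2 * r) (x i) * (8 * gradSq ψ i x + C / r ^ 2 * ‖ψ x‖ ^ 2)) := by
    intro i j x
    have h1 := mbK_nonneg n₀ w hr i x
    have h2 := mb_inB_nonneg w (2 * r) (x i)
    have h3 := mb_inB_nonneg w r (x j)
    have h4 := hG0 i x
    positivity
  have hdist := distinct_ae (ι := Fin N) (κ := Empty) (fun e => e.elim)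
  calc ∫⁻ x, ENNReal.ofReal (badQ n₀ w r x * ‖ψ x‖ ^ 2)
      ≤ ∫⁻ x, (ENNReal.ofReal ((n₀ ^ (-(1 / 6) : ℝ) / r * nB w r x ^ (5 / 3 : ℝ)) * ‖ψ x‖ ^ 2) +
          ∑ i, ∑ j ∈ Finset.univ.erase i, ENNReal.ofReal
            ((mbK n₀ w r i x * inB w r (x j)) * (inB w r (x i) / ‖x i - x j‖ ^ 2) *
              ‖ψ x‖ ^ 2)) := by
        apply lintegral_mono_ae
        filter_upwards [hdist] with x hx
        have h1 := mb_point w x hr hn (fun i j h => hx.1 h)
        have h2 := mul_le_mul_of_nonneg_right h1 (sq_nonneg ‖ψ x‖)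
        refine (ENNReal.ofReal_le_ofReal h2).trans ?_
        rw [add_mul, Finset.sum_mul]
        refine ENNReal.ofReal_add_le.trans ?_
        refine add_le_add le_rfl ?_
        rw [ENNReal.ofReal_sum_of_nonneg]
        · apply Finset.sum_le_sum
          intro i _
          rw [Finset.sum_mul, ENNReal.ofReal_sum_of_nonneg fun j _ => hTn i j x]
        · intro i _
          rw [Finset.sum_mul]
          exact Finset.sum_nonneg fun j _ => hTn i j x
    _ = (∫⁻ x, ENNReal.ofReal ((n₀ ^ (-(1 / 6) : ℝ) / r * nB w r x ^ (5 / 3 : ℝ)) * ‖ψ x‖ ^ 2)) +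
          ∑ i, ∑ j ∈ Finset.univ.erase i, ∫⁻ x, ENNReal.ofReal
            ((mbK n₀ w r i x * inB w r (x j)) * (inB w r (x i) / ‖x i - x j‖ ^ 2) *
              ‖ψ x‖ ^ 2) := by
        rw [lintegral_add_left hA, lintegral_finsetSum _ fun i _ =>
          Finset.measurable_sum _ fun j _ => hT i j]
        congr 1
        apply Finset.sum_congr rfl
        intro i _
        rw [lintegral_finsetSum _ fun j _ => hT i j]
    _ ≤ (∫⁻ x, ENNReal.ofReal ((n₀ ^ (-(1 / 6) : ℝ) / r * nB w r x ^ (5 / 3 : ℝ)) * ‖ψ x‖ ^ 2)) +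
          ∑ i, ∑ j ∈ Finset.univ.erase i, ∫⁻ x, ENNReal.ofReal
            ((mbK n₀ w r i x * inB w r (x j)) * (inB w (2 * r) (x i) *
              (8 * gradSq ψ i x + C / r ^ 2 * ‖ψ x‖ ^ 2))) := by
        refine add_le_add le_rfl (Finset.sum_le_sum fun i _ => Finset.sum_le_sum fun j hj => ?_)
        have hij : j ≠ i := Finset.ne_of_mem_erase hj
        refine mb_hardy hC0 hH ψ hψ w hr i j hij
          (fun x => mbK n₀ w r i x * inB w r (x j)) ((mbK_meas n₀ w r i).mul (hii r j))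
          (fun x => mul_nonneg (mbK_nonneg n₀ w hr i x) (mb_inB_nonneg w r (x j))) ?_
        intro x t
        simp only [mbK_update, Function.update_of_ne hij]
    _ = (∫⁻ x, ENNReal.ofReal ((n₀ ^ (-(1 / 6) : ℝ) / r * nB w r x ^ (5 / 3 : ℝ)) * ‖ψ x‖ ^ 2)) +
          ∫⁻ x, ENNReal.ofReal (∑ i, ∑ j ∈ Finset.univ.erase i,
            (mbK n₀ w r i x * inB w r (x j)) * (inB w (2 * r) (x i) *
              (8 * gradSq ψ i x + C / r ^ 2 * ‖ψ x‖ ^ 2))) := by
        congr 1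
        have h1 : ∀ x : Fin N → E3, ENNReal.ofReal (∑ i, ∑ j ∈ Finset.univ.erase i,
            (mbK n₀ w r i x * inB w r (x j)) * (inB w (2 * r) (x i) *
              (8 * gradSq ψ i x + C / r ^ 2 * ‖ψ x‖ ^ 2))) =
            ∑ i, ∑ j ∈ Finset.univ.erase i, ENNReal.ofReal
            ((mbK n₀ w r i x * inB w r (x j)) * (inB w (2 * r) (x i) *
              (8 * gradSq ψ i x + C / r ^ 2 * ‖ψ x‖ ^ 2))) := by
          intro x
          rw [ENNReal.ofReal_sum_of_nonneg]
          · apply Finset.sum_congr rfl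
            intro i _
            rw [ENNReal.ofReal_sum_of_nonneg fun j _ => hTn' i j x]
          · intro i _
            exact Finset.sum_nonneg fun j _ => hTn' i j x
        simp_rw [h1]
        rw [lintegral_finsetSum _ fun i _ => Finset.measurable_sum _ fun j _ => hT' i j]
        apply Finset.sum_congr rfl
        intro i _
        rw [lintegral_finsetSum _ fun j _ => hT' i j]
    _ ≤ (∫⁻ x, ENNReal.ofReal ((n₀ ^ (-(1 / 6) : ℝ) / r * nB w r x ^ (5 / 3 : ℝ)) * ‖ψ x‖ ^ 2)) +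
          ∫⁻ x, ((∑ i, ENNReal.ofReal (128 * Real.sqrt N * r) *
            ENNReal.ofReal (inB w (2 * r) (x i)) * ENNReal.ofReal (gradSq ψ i x)) +
            ENNReal.ofReal (16 * C * n₀ ^ (-(1 / 6) : ℝ)) * (ENNReal.ofReal (1 / r) *
              ENNReal.ofReal (nB w (2 * r) x ^ (5 / 3 : ℝ) * ‖ψ x‖ ^ 2))) := by
        refine add_le_add le_rfl (lintegral_mono fun x => ?_)
        have h1 := mb_point2 (n₀ := n₀) (C := C) (P := ‖ψ x‖ ^ 2) w x (fun i => gradSq ψ i x) hr hn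
          hC0.le (by positivity) (fun i => hG0 i x)
        refine (ENNReal.ofReal_le_ofReal h1).trans ?_
        refine ENNReal.ofReal_add_le.trans ?_
        refine add_le_add ?_ ?_
        · rw [ENNReal.ofReal_sum_of_nonneg]
          · apply Finset.sum_le_sum
            intro i _
            rw [← ENNReal.ofReal_mul (by positivity),
              ← ENNReal.ofReal_mul (mul_nonneg (by positivity) (mb_inB_nonneg _ _ _))]
          · intro i _
            have h2 := mb_inB_nonneg w (2 * r) (x i)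
            have h3 := hG0 i x
            positivity
        · rw [← ENNReal.ofReal_mul (by positivity), ← ENNReal.ofReal_mul (by positivity)]
          apply ENNReal.ofReal_le_ofReal
          apply le_of_eq
          ring
    _ = _ := by
        rw [one_mul, lintegral_add_right _ hm53', lintegral_finsetSum _ fun i _ => hmG i,
          ← add_assoc,
          lintegral_const_mul' _ _ ENNReal.ofReal_ne_top,
          lintegral_const_mul' _ _ ENNReal.ofReal_ne_top]
        congr 2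
        rw [← lintegral_const_mul' _ _ ENNReal.ofReal_ne_top,
          ← lintegral_const_mul' _ _ ENNReal.ofReal_ne_top]
        apply lintegral_congr
        intro x
        rw [← ENNReal.ofReal_mul (by positivity), ← ENNReal.ofReal_mul (by positivity)]
        congr 1
        ring

/-- integration over the balls of the five-thirds moment -/
theorem mb_L {C5 : ℝ} (hC5 : 0 < C5) {N : ℕ} (ψ : (Fin N → E3) → ℂ) (hψ : IsState ψ)
    (h53 : ∀ r : ℝ, 0 < r →
      ∫⁻ x, ∫⁻ w, ENNReal.ofReal (nB w r x ^ (5 / 3 : ℝ) * ‖ψ x‖ ^ 2) ≤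
        ENNReal.ofReal (C5 * r ^ 3 * (N + (N : ℝ) ^ (2 / 3 : ℝ) * r ^ 2 * kin ψ)))
    (hkin : 0 ≤ kin ψ) {ℓ c : ℝ} (hℓ : 0 < ℓ) (hc : 0 < c) :
    ∫⁻ b, (ENNReal.ofReal (1 / b.1) *
        ∫⁻ x, ENNReal.ofReal (nB b.2 (c * b.1) x ^ (5 / 3 : ℝ) * ‖ψ x‖ ^ 2)) ∂bm ℓ ≤
      ENNReal.ofReal (C5 * c ^ 3 * (N / ℓ + (N : ℝ) ^ (2 / 3 : ℝ) * c ^ 2 * ℓ * kin ψ)) := by
  have hψm : Measurable ψ := hψ.smooth.continuous.measurable
  have hmm : Measurable fun q : (ℝ × E3) × (Fin N → E3) =>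
      ENNReal.ofReal (nB q.1.2 (c * q.1.1) q.2 ^ (5 / 3 : ℝ) * ‖ψ q.2‖ ^ 2) := by
    refine Measurable.ennreal_ofReal ?_
    refine ((mb_nB_meas ?_ ?_ measurable_snd).pow_const _).mul
      ((hψm.comp measurable_snd).norm.pow_const 2)
    · fun_prop
    · fun_prop
  have hF : Measurable fun b : ℝ × E3 =>
      ∫⁻ x, ENNReal.ofReal (nB b.2 (c * b.1) x ^ (5 / 3 : ℝ) * ‖ψ x‖ ^ 2) :=
    hmm.lintegral_prod_right'
  have hFF : Measurable fun b : ℝ × E3 => (ENNReal.ofReal (1 / b.1) *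
      ∫⁻ x, ENNReal.ofReal (nB b.2 (c * b.1) x ^ (5 / 3 : ℝ) * ‖ψ x‖ ^ 2)) :=
    Measurable.mul (f := fun b : ℝ × E3 => ENNReal.ofReal (1 / b.1)) (by fun_prop) hF
  rw [bm_lint _ _ hFF]
  obtain ⟨Q, hQ⟩ : ∃ Q : ℝ, Q = 3 / (2 * Real.pi * ℓ ^ 2) * C5 * c ^ 3 *
      (N + (N : ℝ) ^ (2 / 3 : ℝ) * c ^ 2 * ℓ ^ 2 * kin ψ) := ⟨_, rfl⟩
  have hpi := Real.pi_pos
  have hQ0 : 0 ≤ Q := by rw [hQ]; positivity
  calc ∫⁻ r in Ioc 0 ℓ, ENNReal.ofReal (3 / (2 * Real.pi * ℓ ^ 2) / r ^ 2) *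
        ∫⁻ w : E3, ENNReal.ofReal (1 / r) *
          ∫⁻ x, ENNReal.ofReal (nB w (c * r) x ^ (5 / 3 : ℝ) * ‖ψ x‖ ^ 2)
      ≤ ∫⁻ _r in Ioc 0 ℓ, ENNReal.ofReal Q := by
        apply setLIntegral_mono' measurableSet_Ioc
        intro r hr
        have hr0 : 0 < r := hr.1
        rw [lintegral_const_mul' _ _ ENNReal.ofReal_ne_top]
        have h1 : ∫⁻ w : E3, ∫⁻ x, ENNReal.ofReal (nB w (c * r) x ^ (5 / 3 : ℝ) * ‖ψ x‖ ^ 2) =
            ∫⁻ x, ∫⁻ w : E3, ENNReal.ofReal (nB w (c * r) x ^ (5 / 3 : ℝ) * ‖ψ x‖ ^ 2) := by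
          apply lintegral_lintegral_swap
          have h2 : Measurable fun q : E3 × (Fin N → E3) =>
              ENNReal.ofReal (nB q.1 (c * r) q.2 ^ (5 / 3 : ℝ) * ‖ψ q.2‖ ^ 2) := by
            refine Measurable.ennreal_ofReal ?_
            exact ((mb_nB_meas measurable_fst measurable_const measurable_snd).pow_const _).mul
              ((hψm.comp measurable_snd).norm.pow_const 2)
          exact h2.aemeasurable
        rw [h1]
        have h2 := h53 (c * r) (by positivity)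
        refine (mul_le_mul' le_rfl (mul_le_mul' le_rfl h2)).trans ?_
        rw [← ENNReal.ofReal_mul (by positivity), ← ENNReal.ofReal_mul (by positivity)]
        apply ENNReal.ofReal_le_ofReal
        have h3 : 3 / (2 * Real.pi * ℓ ^ 2) / r ^ 2 * (1 / r *
            (C5 * (c * r) ^ 3 * (N + (N : ℝ) ^ (2 / 3 : ℝ) * (c * r) ^ 2 * kin ψ))) =
            3 / (2 * Real.pi * ℓ ^ 2) * C5 * c ^ 3 *
              (N + (N : ℝ) ^ (2 / 3 : ℝ) * c ^ 2 * r ^ 2 * kin ψ) := by
          field_simp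
        rw [h3, hQ]
        have h4 : r ^ 2 ≤ ℓ ^ 2 := pow_le_pow_left₀ hr0.le hr.2 2
        gcongr
    _ = ENNReal.ofReal (Q * ℓ) := by
        rw [lintegral_const, Measure.restrict_apply_univ, Real.volume_Ioc, sub_zero,
          ENNReal.ofReal_mul hQ0]
    _ ≤ _ := by
        apply ENNReal.ofReal_le_ofReal
        have h1 : Q * ℓ = 3 / (2 * Real.pi) * (C5 * c ^ 3 *
            (N / ℓ + (N : ℝ) ^ (2 / 3 : ℝ) * c ^ 2 * ℓ * kin ψ)) := by
          rw [hQ]; field_simp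
        rw [h1]
        have h2 : 3 / (2 * Real.pi) ≤ 1 := by
          rw [div_le_one (by positivity)]
          linarith [Real.pi_gt_three]
        have h3 : 0 ≤ C5 * c ^ 3 * (N / ℓ + (N : ℝ) ^ (2 / 3 : ℝ) * c ^ 2 * ℓ * kin ψ) := by
          positivity
        nlinarith

/-- integration over the balls of the gradient term -/
theorem mb_G {N : ℕ} (ψ : (Fin N → E3) → ℂ) (hψ : ContDiff ℝ 1 ψ) (i : Fin N) {ℓ a : ℝ}
    (hℓ : 0 < ℓ) (ha : 0 ≤ a) :
    ∫⁻ b, (∫⁻ x, ENNReal.ofReal (a * b.1) *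
        ENNReal.ofReal (inB b.2 (2 * b.1) (x i)) * ENNReal.ofReal (gradSq ψ i x)) ∂bm ℓ ≤
      ENNReal.ofReal (16 * a * ℓ) * ∫⁻ x, ENNReal.ofReal (gradSq ψ i x) := by
  have hGm : Measurable (gradSq ψ i) := (continuous_gradSq ψ hψ i).measurable
  rw [lintegral_lintegral_swap, ← lintegral_const_mul' _ _ ENNReal.ofReal_ne_top]
  · apply lintegral_mono
    intro x
    beta_reduce
    rw [lintegral_mul_const]
    · refine mul_le_mul' ?_ le_rfl
      have h1 := bm_one ℓ 2 hℓ (by norm_num) (fun r => ENNReal.ofReal (a * r)) (by fun_prop) (x i)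
      rw [h1]
      have h2 : ∫⁻ r in Ioc 0 ℓ, ENNReal.ofReal (a * r) * ENNReal.ofReal (2 * r / ℓ ^ 2) ≤
          ∫⁻ _r in Ioc 0 ℓ, ENNReal.ofReal (2 * a) := by
        apply setLIntegral_mono' measurableSet_Ioc
        intro r hr
        have hr0 : 0 < r := hr.1
        rw [← ENNReal.ofReal_mul (by positivity)]
        apply ENNReal.ofReal_le_ofReal
        have h3 : a * r * (2 * r / ℓ ^ 2) = 2 * a * (r ^ 2 / ℓ ^ 2) := by ring
        rw [h3]
        have h4 : r ^ 2 / ℓ ^ 2 ≤ 1 := by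
          rw [div_le_one (by positivity)]
          exact pow_le_pow_left₀ hr0.le hr.2 2
        calc 2 * a * (r ^ 2 / ℓ ^ 2) ≤ 2 * a * 1 := by gcongr
          _ = 2 * a := mul_one _
      refine (mul_le_mul' le_rfl h2).trans ?_
      rw [lintegral_const, Measure.restrict_apply_univ, Real.volume_Ioc, sub_zero,
        ← ENNReal.ofReal_mul (by positivity), ← ENNReal.ofReal_mul (by positivity)]
      apply ENNReal.ofReal_le_ofReal
      apply le_of_eq
      ring
    · refine Measurable.mul (f := fun b : ℝ × E3 => ENNReal.ofReal (a * b.1)) (by fun_prop) ?_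
      exact (mb_inB_meas (w := fun b : ℝ × E3 => b.2) (r := fun b => 2 * b.1)
        (x := fun _ => x i) (by fun_prop) (by fun_prop) (by fun_prop)).ennreal_ofReal
  · have hmm : Measurable fun q : (ℝ × E3) × (Fin N → E3) =>
        ENNReal.ofReal (a * q.1.1) *
        ENNReal.ofReal (inB q.1.2 (2 * q.1.1) (q.2 i)) * ENNReal.ofReal (gradSq ψ i q.2) := by
      refine Measurable.mul (Measurable.mul
        (f := fun q : (ℝ × E3) × (Fin N → E3) => ENNReal.ofReal (a * q.1.1)) (by fun_prop) ?_) ?_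
      · refine Measurable.ennreal_ofReal ?_
        exact mb_inB_meas (w := fun q : (ℝ × E3) × (Fin N → E3) => q.1.2)
          (r := fun q => 2 * q.1.1) (x := fun q => q.2 i) (by fun_prop) (by fun_prop) (by fun_prop)
      · exact (hGm.comp measurable_snd).ennreal_ofReal
    exact hmm.aemeasurable

theorem bad_bound_of (h53 : ∃ C : ℝ, 0 < C ∧ ∀ (N : ℕ) (ψ : (Fin N → E3) → ℂ) (r : ℝ),
    IsState ψ → 0 < r →
    ∫⁻ x, ∫⁻ w, ENNReal.ofReal (nB w r x ^ (5 / 3 : ℝ) * ‖ψ x‖ ^ 2) ≤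
      ENNReal.ofReal (C * r ^ 3 * (N + (N : ℝ) ^ (2 / 3 : ℝ) * r ^ 2 * kin ψ))) :
    ∃ C : ℝ, 0 < C ∧ ∀ (N : ℕ) (ψ : (Fin N → E3) → ℂ) (ℓ n₀ : ℝ),
    IsState ψ → 0 < ℓ → 1 ≤ n₀ →
    ∫⁻ x, ∫⁻ b : ℝ × E3, ENNReal.ofReal (badQ n₀ b.2 b.1 x * ‖ψ x‖ ^ 2) ∂bm ℓ ≤
      ENNReal.ofReal (C * (n₀ ^ (-(1 / 6) : ℝ) * (N / ℓ + (N : ℝ) ^ (2 / 3 : ℝ) * ℓ * kin ψ)
        + Real.sqrt N * ℓ * kin ψ)) := by
  obtain ⟨C5, hC5, h53⟩ := h53
  obtain ⟨C, hC, hH⟩ := hardy_local
  refine ⟨2048 + 32 * C5 + 16 * C * (32 * C5), by positivity, ?_⟩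
  intro N ψ ℓ n₀ hψ hℓ hn
  have hn0 : 0 < n₀ := by linarith
  have hψ1 : ContDiff ℝ 1 ψ := hψ.smooth.of_le (by exact_mod_cast le_top)
  have hψm : Measurable ψ := hψ.smooth.continuous.measurable
  have hPm : Measurable fun x => ‖ψ x‖ ^ 2 := hψm.norm.pow_const 2
  have hGm : ∀ i, Measurable (gradSq ψ i) := fun i => (continuous_gradSq ψ hψ1 i).measurable
  have hG0 : ∀ i x, 0 ≤ gradSq ψ i x := fun i x => pba_gsq_nonneg _ _
  have hGI : ∀ i, Integrable (gradSq ψ i) := fun i => integrable_gradSq ψ hψ1 hψ.compact i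
  have hkin0 : 0 ≤ kin ψ := integral_nonneg fun x => Finset.sum_nonneg fun i _ => hG0 i x
  have hkin : ∑ i, ∫⁻ x, ENNReal.ofReal (gradSq ψ i x) = ENNReal.ofReal (kin ψ) := by
    unfold kin
    rw [integral_finsetSum _ fun i _ => hGI i, ENNReal.ofReal_sum_of_nonneg fun i _ =>
      integral_nonneg (hG0 i)]
    apply Finset.sum_congr rfl
    intro i _
    rw [ofReal_integral_eq_lintegral_ofReal (hGI i) (Filter.Eventually.of_forall (hG0 i))]
  have hjoint : Measurable fun q : (Fin N → E3) × (ℝ × E3) =>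
      ENNReal.ofReal (badQ n₀ q.2.2 q.2.1 q.1 * ‖ψ q.1‖ ^ 2) := by
    refine Measurable.ennreal_ofReal ?_
    exact (mb_badQ_meas n₀ (by fun_prop) (by fun_prop) measurable_fst).mul
      (hPm.comp measurable_fst)
  have hFm : ∀ c : ℝ, Measurable fun b : ℝ × E3 => ENNReal.ofReal (1 / b.1) *
      ∫⁻ x : Fin N → E3, ENNReal.ofReal (nB b.2 (c * b.1) x ^ (5 / 3 : ℝ) * ‖ψ x‖ ^ 2) := by
    intro c
    have hmm : Measurable fun q : (ℝ × E3) × (Fin N → E3) =>
        ENNReal.ofReal (nB q.1.2 (c * q.1.1) q.2 ^ (5 / 3 : ℝ) * ‖ψ q.2‖ ^ 2) := by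
      refine Measurable.ennreal_ofReal ?_
      refine ((mb_nB_meas ?_ ?_ measurable_snd).pow_const _).mul
        ((hψm.comp measurable_snd).norm.pow_const 2)
      · fun_prop
      · fun_prop
    exact Measurable.mul (f := fun b : ℝ × E3 => ENNReal.ofReal (1 / b.1)) (by fun_prop)
      hmm.lintegral_prod_right'
  have hGGm : ∀ i : Fin N, Measurable fun b : ℝ × E3 =>
      ∫⁻ x, ENNReal.ofReal (128 * Real.sqrt N * b.1) *
        ENNReal.ofReal (inB b.2 (2 * b.1) (x i)) * ENNReal.ofReal (gradSq ψ i x) := by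
    intro i
    have hmm : Measurable fun q : (ℝ × E3) × (Fin N → E3) =>
        ENNReal.ofReal (128 * Real.sqrt N * q.1.1) *
        ENNReal.ofReal (inB q.1.2 (2 * q.1.1) (q.2 i)) * ENNReal.ofReal (gradSq ψ i q.2) := by
      refine Measurable.mul (Measurable.mul
        (f := fun q : (ℝ × E3) × (Fin N → E3) => ENNReal.ofReal (128 * Real.sqrt N * q.1.1))
        (by fun_prop) ?_) ?_
      · refine Measurable.ennreal_ofReal ?_
        exact mb_inB_meas (w := fun q : (ℝ × E3) × (Fin N → E3) => q.1.2)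
          (r := fun q => 2 * q.1.1) (x := fun q => q.2 i) (by fun_prop) (by fun_prop) (by fun_prop)
      · exact ((hGm i).comp measurable_snd).ennreal_ofReal
    exact hmm.lintegral_prod_right'
  rw [lintegral_lintegral_swap hjoint.aemeasurable]
  obtain ⟨F, hF⟩ : ∃ F : ℝ → ℝ × E3 → ℝ≥0∞, F = fun c b => ENNReal.ofReal (1 / b.1) *
      ∫⁻ x : Fin N → E3, ENNReal.ofReal (nB b.2 (c * b.1) x ^ (5 / 3 : ℝ) * ‖ψ x‖ ^ 2) :=
    ⟨_, rfl⟩
  obtain ⟨H, hHd⟩ : ∃ H : Fin N → ℝ × E3 → ℝ≥0∞, H = fun i b =>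
      ∫⁻ x, ENNReal.ofReal (128 * Real.sqrt N * b.1) *
        ENNReal.ofReal (inB b.2 (2 * b.1) (x i)) * ENNReal.ofReal (gradSq ψ i x) := ⟨_, rfl⟩
  have hFm' : ∀ c, Measurable (F c) := by
    intro c; rw [hF]; exact hFm c
  have hHm' : ∀ i, Measurable (H i) := by
    intro i; rw [hHd]; exact hGGm i
  have hfix : ∀ b : ℝ × E3, ∫⁻ x, ENNReal.ofReal (badQ n₀ b.2 b.1 x * ‖ψ x‖ ^ 2) ≤
      ENNReal.ofReal (n₀ ^ (-(1 / 6) : ℝ)) * F 1 b + (∑ i, H i b) +
        ENNReal.ofReal (16 * C * n₀ ^ (-(1 / 6) : ℝ)) * F 2 b := by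
    intro b
    rw [hF, hHd]
    exact mb_fixed hC hH ψ hψ1 hn b.2 b.1
  have t1 : ∫⁻ b, F 1 b ∂bm ℓ ≤ ENNReal.ofReal (C5 * 1 ^ 3 *
      (N / ℓ + (N : ℝ) ^ (2 / 3 : ℝ) * 1 ^ 2 * ℓ * kin ψ)) := by
    rw [hF]
    exact mb_L hC5 ψ hψ (fun r hr => h53 N ψ r hψ hr) hkin0 hℓ (c := 1) one_pos
  have t2 : ∫⁻ b, F 2 b ∂bm ℓ ≤ ENNReal.ofReal (C5 * 2 ^ 3 *
      (N / ℓ + (N : ℝ) ^ (2 / 3 : ℝ) * 2 ^ 2 * ℓ * kin ψ)) := by
    rw [hF]
    exact mb_L hC5 ψ hψ (fun r hr => h53 N ψ r hψ hr) hkin0 hℓ (c := 2) two_pos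
  have t3 : ∑ i, ∫⁻ b, H i b ∂bm ℓ ≤ ENNReal.ofReal (2048 * (Real.sqrt N * ℓ * kin ψ)) := by
    have h1 : ∀ i, ∫⁻ b, H i b ∂bm ℓ ≤ ENNReal.ofReal (16 * (128 * Real.sqrt N) * ℓ) *
        ∫⁻ x, ENNReal.ofReal (gradSq ψ i x) := by
      intro i
      rw [hHd]
      exact mb_G ψ hψ1 i hℓ (by positivity)
    refine (Finset.sum_le_sum fun i _ => h1 i).trans ?_
    rw [← Finset.mul_sum, hkin, ← ENNReal.ofReal_mul (by positivity)]
    apply ENNReal.ofReal_le_ofReal
    apply le_of_eq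
    ring
  refine (lintegral_mono hfix).trans ?_
  rw [lintegral_add_right _ ((hFm' 2).const_mul _), lintegral_add_right _
      (Finset.measurable_sum _ fun i _ => hHm' i), lintegral_finsetSum _ fun i _ => hHm' i,
    lintegral_const_mul _ (hFm' 1), lintegral_const_mul _ (hFm' 2)]
  refine (add_le_add (add_le_add (mul_le_mul' le_rfl t1) t3) (mul_le_mul' le_rfl t2)).trans ?_
  rw [← ENNReal.ofReal_mul (by positivity), ← ENNReal.ofReal_mul (by positivity),
    ← ENNReal.ofReal_add (by positivity) (by positivity),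
    ← ENNReal.ofReal_add (by positivity) (by positivity)]
  apply ENNReal.ofReal_le_ofReal
  obtain ⟨q, hq⟩ : ∃ q, q = n₀ ^ (-(1 / 6) : ℝ) := ⟨_, rfl⟩
  have hq0 : 0 < q := by rw [hq]; positivity
  obtain ⟨X, hX⟩ : ∃ X : ℝ, X = N / ℓ := ⟨_, rfl⟩
  obtain ⟨Y, hY⟩ : ∃ Y : ℝ, Y = (N : ℝ) ^ (2 / 3 : ℝ) * ℓ * kin ψ := ⟨_, rfl⟩
  obtain ⟨Z, hZ⟩ : ∃ Z : ℝ, Z = Real.sqrt N * ℓ * kin ψ := ⟨_, rfl⟩
  have hX0 : 0 ≤ X := by rw [hX]; positivity
  have hY0 : 0 ≤ Y := by rw [hY]; positivity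
  have hZ0 : 0 ≤ Z := by rw [hZ]; positivity
  have e1 : (N : ℝ) ^ (2 / 3 : ℝ) * 1 ^ 2 * ℓ * kin ψ = Y := by rw [hY]; ring
  have e2 : (N : ℝ) ^ (2 / 3 : ℝ) * 2 ^ 2 * ℓ * kin ψ = 4 * Y := by rw [hY]; ring
  rw [e1, e2, ← hq, ← hX, ← hY, ← hZ]
  have f1 : 0 ≤ q * C5 * X := by positivity
  have f2 : 0 ≤ q * C5 * Y := by positivity
  have f3 : 0 ≤ C5 * Z := by positivity
  have f4 : 0 ≤ C * C5 * Z := by positivity
  have f5 : 0 ≤ q * X := by positivity
  have f6 : 0 ≤ q * Y := by positivity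
  have f7 : 0 ≤ C * (q * C5 * X) := by positivity
  have f8 : 0 ≤ C * (q * C5 * Y) := by positivity
  have g1 : (2048 + 32 * C5 + 16 * C * (32 * C5)) * (q * (X + Y) + Z) -
      (q * (C5 * 1 ^ 3 * (X + Y)) + 2048 * Z + 16 * C * q * (C5 * 2 ^ 3 * (X + 4 * Y))) =
      2048 * (q * X) + 2048 * (q * Y) + 31 * (q * C5 * X) + 31 * (q * C5 * Y) +
        32 * (C5 * Z) + 384 * (C * (q * C5 * X)) + 512 * (C * C5 * Z) := by ring
  linarith

theorem bad_bound : ∃ C : ℝ, 0 < C ∧ ∀ (N : ℕ) (ψ : (Fin N → E3) → ℂ) (ℓ n₀ : ℝ),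
    IsState ψ → 0 < ℓ → 1 ≤ n₀ →
    ∫⁻ x, ∫⁻ b : ℝ × E3, ENNReal.ofReal (badQ n₀ b.2 b.1 x * ‖ψ x‖ ^ 2) ∂bm ℓ ≤
      ENNReal.ofReal (C * (n₀ ^ (-(1 / 6) : ℝ) * (N / ℓ + (N : ℝ) ^ (2 / 3 : ℝ) * ℓ * kin ψ)
        + Real.sqrt N * ℓ * kin ψ)) :=
  bad_bound_of sum_five_thirds

end Pool.Agent.H5R2.NL
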