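import Mathlib
import Pool.Agent.H5R2.NL.Defs
import Pool.Agent.H5R2.NL.Int
import Pool.Agent.H5R2.NL.SobA
import Pool.Agent.H5R2.NL.SampAux
import Pool.Agent.H5R2.NL.SampAux2

/-!
# The sampling inequality
-/

set_option autoImplicit false

noncomputable section

namespace Pool.Agent.H5R2.NL

open MeasureTheory Metric
open scoped ENNReal

def sD {N : ℕ} (r : ℝ) (x : Fin N → E3) : ℝ :=
  ∫ w, (nB w r x / volume.real (ball (0 : E3) r)) ^ (4 / 3 : ℝ)

def sX {N : ℕ} (a r : ℝ) (S : Finset (Fin N)) (x : Fin N → E3) : ℝ :=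
  ∫ w, (sM a r S w x / volume.real (ball (0 : E3) r)) ^ (4 / 3 : ℝ)

def sE {N : ℕ} (a r : ℝ) (S : Finset (Fin N)) (x : Fin N → E3) : ℝ :=
  ∫ w, (|nB w r x - sM a r S w x| / volume.real (ball (0 : E3) r)) ^ (4 / 3 : ℝ)

def sG {N : ℕ} (a r : ℝ) (S : Finset (Fin N)) (i : Fin N) (x : Fin N → E3) : ℝ :=
  ∫ w, (sM a r S w x / volume.real (ball (0 : E3) r)) ^ (1 / 3 : ℝ) * inB w r (x i)

theorem sD_dom {N : ℕ} (r : ℝ) (hr : 0 < r) :
    (∀ x : Fin N → E3, Integrable fun w =>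
      (nB w r x / volume.real (ball (0 : E3) r)) ^ (4 / 3 : ℝ)) ∧
    Measurable (sD (N := N) r) ∧ ∃ B, ∀ x : Fin N → E3, |sD r x| ≤ B := by
  set V := volume.real (ball (0 : E3) r) with hV
  have hV0 : 0 < V := samp_vol_pos r hr
  have h := samp_dom (ι := Fin N) r (fun p => (nB p.1 r p.2 / V) ^ (4 / 3 : ℝ))
    (((samp_meas_nB r).div_const V).pow_const _) ((N / (1 * V)) ^ (1 / 3 : ℝ) / (1 * V))
    (fun w x => by
      have h0 := samp_nB_nonneg w r x
      simp only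
      rw [abs_of_nonneg (by positivity)]
      refine samp_pow_dom 1 V (nB w r x) (nB w r x) N one_pos hV0 h0 ?_ h0 (by simp)
      simpa using samp_nB_le w r x)
  exact ⟨h.1, h.2.1, _, h.2.2⟩

theorem sX_dom {N : ℕ} (a r : ℝ) (ha : 0 < a) (hr : 0 < r) (S : Finset (Fin N)) :
    (∀ x : Fin N → E3, Integrable fun w =>
      (sM a r S w x / volume.real (ball (0 : E3) r)) ^ (4 / 3 : ℝ)) ∧
    Measurable (sX a r S) ∧ ∃ B, ∀ x : Fin N → E3, |sX a r S x| ≤ B := by
  set V := volume.real (ball (0 : E3) r) with hV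
  have hV0 : 0 < V := samp_vol_pos r hr
  have h := samp_dom (ι := Fin N) r (fun p => (sM a r S p.1 p.2 / V) ^ (4 / 3 : ℝ))
    (((sM_meas a r S).div_const V).pow_const _) ((N / (a * V)) ^ (1 / 3 : ℝ) / (a * V))
    (fun w x => by
      have h0 := samp_nB_nonneg w r x
      have h1 := sM_nonneg a r ha S w x
      simp only
      rw [abs_of_nonneg (by positivity)]
      refine samp_pow_dom a V (nB w r x) (sM a r S w x) N ha hV0 h0 ?_ h1 (sM_le a r ha S w x)
      simpa using samp_nB_le w r x)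
  exact ⟨h.1, h.2.1, _, h.2.2⟩

theorem sE_dom {N : ℕ} (a r : ℝ) (ha : 0 < a) (ha1 : a ≤ 1) (hr : 0 < r) (S : Finset (Fin N)) :
    (∀ x : Fin N → E3, Integrable fun w =>
      (|nB w r x - sM a r S w x| / volume.real (ball (0 : E3) r)) ^ (4 / 3 : ℝ)) ∧
    Measurable (sE a r S) ∧ ∃ B, ∀ x : Fin N → E3, |sE a r S x| ≤ B := by
  set V := volume.real (ball (0 : E3) r) with hV
  have hV0 : 0 < V := samp_vol_pos r hr
  have h := samp_dom (ι := Fin N) r (fun p => (|nB p.1 r p.2 - sM a r S p.1 p.2| / V) ^ (4 / 3 : ℝ))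
    ((((samp_meas_nB r).sub (sM_meas a r S)).abs.div_const V).pow_const _)
    ((N / (a * V)) ^ (1 / 3 : ℝ) / (a * V))
    (fun w x => by
      have h0 := samp_nB_nonneg w r x
      have h1 := sM_nonneg a r ha S w x
      have h2 := sM_le a r ha S w x
      have h3 : nB w r x ≤ nB w r x / a := by
        rw [le_div_iff₀ ha]; nlinarith
      simp only
      rw [abs_of_nonneg (by positivity)]
      refine samp_pow_dom a V (nB w r x) _ N ha hV0 h0 ?_ (abs_nonneg _) ?_
      · simpa using samp_nB_le w r x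
      · rw [abs_le]; constructor <;> linarith)
  exact ⟨h.1, h.2.1, _, h.2.2⟩

theorem sG_dom {N : ℕ} (a r : ℝ) (ha : 0 < a) (hr : 0 < r) (S : Finset (Fin N)) (i : Fin N) :
    (∀ x : Fin N → E3, Integrable fun w =>
      (sM a r S w x / volume.real (ball (0 : E3) r)) ^ (1 / 3 : ℝ) * inB w r (x i)) ∧
    Measurable (sG a r S i) ∧ ∃ B, ∀ x : Fin N → E3, |sG a r S i x| ≤ B := by
  set V := volume.real (ball (0 : E3) r) with hV
  have hV0 : 0 < V := samp_vol_pos r hr
  have hmi : Measurable fun p : E3 × (Fin N → E3) => inB p.1 r (p.2 i) := by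
    have h : Measurable fun p : E3 × (Fin N → E3) => (p.1, p.2 i) := by fun_prop
    have := (samp_meas_inB r).comp h
    exact this
  have h := samp_dom (ι := Fin N) r
    (fun p => (sM a r S p.1 p.2 / V) ^ (1 / 3 : ℝ) * inB p.1 r (p.2 i))
    ((((sM_meas a r S).div_const V).pow_const _).mul hmi) ((N / (a * V)) ^ (1 / 3 : ℝ))
    (fun w x => by
      have h0 := samp_nB_nonneg w r x
      have h1 := sM_nonneg a r ha S w x
      have h2 := sM_le a r ha S w x
      have h3 : nB w r x ≤ N := by simpa using samp_nB_le w r x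
      have h4 := samp_inB_nonneg w r (x i)
      simp only
      rw [abs_of_nonneg (by positivity)]
      have h5 : inB w r (x i) ≤ nB w r x :=
        Finset.single_le_sum (f := fun j => inB w r (x j))
          (fun j _ => samp_inB_nonneg w r (x j)) (Finset.mem_univ i)
      have h6 : sM a r S w x / V ≤ N / (a * V) := by
        rw [div_le_div_iff₀ hV0 (by positivity)]
        rw [le_div_iff₀ ha] at h2
        nlinarith
      gcongr)
  exact ⟨h.1, h.2.1, _, h.2.2⟩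

theorem samp_integrable_mul {N : ℕ} (ψ : (Fin N → E3) → ℂ) (hψ : IsState ψ)
    (F : (Fin N → E3) → ℝ) (hF : Measurable F) (hB : ∃ B, ∀ x, |F x| ≤ B) :
    Integrable fun x => F x * ‖ψ x‖ ^ 2 := by
  obtain ⟨B, hB⟩ := hB
  have h1 : Integrable fun x => ‖ψ x‖ ^ 2 := by
    have hc : Continuous fun x => ‖ψ x‖ ^ 2 := by
      have := hψ.smooth.continuous
      fun_prop
    refine hc.integrable_of_hasCompactSupport ?_
    exact hψ.compact.comp_left (g := fun z : ℂ => ‖z‖ ^ 2) (by simp)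
  refine Integrable.mono' (h1.const_mul B) (hF.aestronglyMeasurable.mul h1.aestronglyMeasurable)
    (Filter.Eventually.of_forall fun x => ?_)
  rw [norm_mul, Real.norm_eq_abs, Real.norm_of_nonneg (by positivity : 0 ≤ ‖ψ x‖ ^ 2)]
  exact mul_le_mul_of_nonneg_right (hB x) (by positivity)

/-- the pointwise inequality, integrated over the centre -/
theorem samp_pointwise {N : ℕ} (A a r : ℝ) (hA : 0 ≤ A) (ha : 0 < a) (ha1 : a ≤ 1) (hr : 0 < r)
    (S : Finset (Fin N)) (x : Fin N → E3) :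
    A * sD r x ≤ (∑ i ∈ Sᶜ, 4 / 3 * A * ((volume.real (ball (0 : E3) r))⁻¹ * sG a r S i x))
      - A / 3 * (1 - 4 * a) * sX a r S x + A * sE a r S x := by
  set V := volume.real (ball (0 : E3) r) with hV
  have hV0 : 0 < V := samp_vol_pos r hr
  have hD := (sD_dom (N := N) r hr).1 x
  have hX := (sX_dom a r ha hr S).1 x
  have hE := (sE_dom a r ha ha1 hr S).1 x
  have hG := fun i => (sG_dom a r ha hr S i).1 x
  rw [← hV] at hD hX hE hG
  have hGs : Integrable fun w => ∑ i ∈ Sᶜ, 4 / 3 * (V⁻¹ *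
      ((sM a r S w x / V) ^ (1 / 3 : ℝ) * inB w r (x i))) :=
    integrable_finsetSum _ fun i _ => ((hG i).const_mul _).const_mul _
  have key : ∀ w, (nB w r x / V) ^ (4 / 3 : ℝ) ≤
      (∑ i ∈ Sᶜ, 4 / 3 * (V⁻¹ * ((sM a r S w x / V) ^ (1 / 3 : ℝ) * inB w r (x i))))
      - 1 / 3 * (1 - 4 * a) * (sM a r S w x / V) ^ (4 / 3 : ℝ) +
      (|nB w r x - sM a r S w x| / V) ^ (4 / 3 : ℝ) := by
    intro w
    have h0 := samp_nB_nonneg w r x
    have h1 := sM_nonneg a r ha S w x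
    have h := samp_scalar (nB w r x / V) (sM a r S w x / V) (by positivity) (by positivity)
    have e1 : |nB w r x / V - sM a r S w x / V| = |nB w r x - sM a r S w x| / V := by
      rw [← sub_div, abs_div, abs_of_pos hV0]
    rw [e1] at h
    have e2 : nB w r x = a * sM a r S w x + ∑ i ∈ Sᶜ, inB w r (x i) := by
      unfold nB sM
      rw [← Finset.sum_add_sum_compl S, ← mul_assoc, mul_one_div_cancel ha.ne', one_mul]
    have e3 : (sM a r S w x / V) ^ (4 / 3 : ℝ) =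
        (sM a r S w x / V) ^ (1 / 3 : ℝ) * (sM a r S w x / V) := by
      rw [show (4 / 3 : ℝ) = 1 / 3 + 1 by norm_num,
        Real.rpow_add_of_nonneg (by positivity) (by norm_num) (by norm_num), Real.rpow_one]
    have e4 : ∑ i ∈ Sᶜ, 4 / 3 * (V⁻¹ * ((sM a r S w x / V) ^ (1 / 3 : ℝ) * inB w r (x i))) =
        4 / 3 * (V⁻¹ * ((sM a r S w x / V) ^ (1 / 3 : ℝ) * ∑ i ∈ Sᶜ, inB w r (x i))) := by
      rw [Finset.mul_sum, Finset.mul_sum, Finset.mul_sum]
    rw [e4]
    refine h.trans (le_of_eq ?_)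
    have e5 : nB w r x / V = V⁻¹ * (∑ i ∈ Sᶜ, inB w r (x i)) + a * (sM a r S w x / V) := by
      rw [e2]; field_simp; ring
    rw [e5, e3]
    ring
  have hint : Integrable fun w =>
      (∑ i ∈ Sᶜ, 4 / 3 * (V⁻¹ * ((sM a r S w x / V) ^ (1 / 3 : ℝ) * inB w r (x i))))
      - 1 / 3 * (1 - 4 * a) * (sM a r S w x / V) ^ (4 / 3 : ℝ) :=
    hGs.sub (hX.const_mul _)
  have h2 := integral_mono hD (hint.add hE) key
  rw [integral_add' hint hE, integral_sub hGs (hX.const_mul _), integral_const_mul,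
    integral_finsetSum _ fun i _ => ((hG i).const_mul _).const_mul _] at h2
  simp only [integral_const_mul] at h2
  have h3 := mul_le_mul_of_nonneg_left h2 hA
  refine h3.trans (le_of_eq ?_)
  unfold sG sX sE
  rw [← hV]
  rw [mul_add, mul_sub, Finset.mul_sum]
  congr 1
  congr 1
  · refine Finset.sum_congr rfl fun i _ => ?_
    ring
  · ring

/-- the inequality for one particle which is not sampled -/
theorem samp_one {N : ℕ} (A a r : ℝ) (hA : 0 ≤ A) (ha : 0 < a) (hr : 0 < r)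
    (ψ : (Fin N → E3) → ℂ) (hψ : IsState ψ) (S : Finset (Fin N)) (i : Fin N) (hi : i ∉ S) :
    ∫ x, 4 / 3 * A * ((volume.real (ball (0 : E3) r))⁻¹ * sG a r S i x) * ‖ψ x‖ ^ 2 ≤
      ∫ x, (gradSq ψ i x + 5 / 3 * (1 / 2 : ℝ) ^ (8 / 5 : ℝ) * Gam ^ (3 / 5 : ℝ) *
        A ^ (8 / 5 : ℝ) * sX a r S x ^ (2 / 5 : ℝ) * ‖ψ x‖ ^ 2) := by
  set V := volume.real (ball (0 : E3) r) with hV
  have hV0 : 0 < V := samp_vol_pos r hr
  have hψ1 : ContDiff ℝ 1 ψ := hψ.smooth.of_le (by exact_mod_cast le_top)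
  have hψc : Continuous ψ := hψ.smooth.continuous
  obtain ⟨hX1, hXm, BX, hXB⟩ := sX_dom a r ha hr S
  obtain ⟨hG1, hGm, BG, hGB⟩ := sG_dom a r ha hr S i
  have hGam := sob_gam_nonneg
  have hX0 : ∀ x, 0 ≤ sX a r S x := fun x => integral_nonneg fun w => by
    have := sM_nonneg a r ha S w x
    positivity
  have hG0 : ∀ x, 0 ≤ sG a r S i x := fun x => integral_nonneg fun w => by
    have h1 := sM_nonneg a r ha S w x
    have h2 := samp_inB_nonneg w r (x i)
    positivity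
  set κ := 5 / 3 * (1 / 2 : ℝ) ^ (8 / 5 : ℝ) * Gam ^ (3 / 5 : ℝ) * A ^ (8 / 5 : ℝ) with hκ
  have hκ0 : 0 ≤ κ := by positivity
  have hXm2 : Measurable fun x => sX a r S x ^ (2 / 5 : ℝ) := hXm.pow_const _
  have hsqm : Measurable fun x => ‖ψ x‖ ^ 2 := by
    have : Continuous fun x => ‖ψ x‖ ^ 2 := by fun_prop
    exact this.measurable
  have hgm : Measurable (gradSq ψ i) := (continuous_gradSq ψ hψ1 i).measurable
  have hg0 : ∀ x, 0 ≤ gradSq ψ i x := fun x => sob_gsq_nonneg _ _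
  have hXu : ∀ (x : Fin N → E3) (t : E3), sX a r S (Function.update x i t) = sX a r S x := by
    intro x t
    unfold sX
    simp only [sM_update a r S _ x i hi t]
  have hguess : ∀ (x : Fin N → E3) (t : E3),
      gradSq ψ i (Function.update x i t) = gsq (fun y => ψ (Function.update x i y)) t := by
    intro x t
    unfold gradSq
    simp only [Function.update_idem, Function.update_self]
  have hGu : ∀ (x : Fin N → E3) (t : E3), sG a r S i (Function.update x i t) =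
      ∫ w, (sM a r S w x / V) ^ (1 / 3 : ℝ) * inB w r t := by
    intro x t
    unfold sG
    simp only [sM_update a r S _ x i hi t, Function.update_self]
    rw [← hV]
  have hu : ∀ x : Fin N → E3, ContDiff ℝ ((⊤ : ℕ∞) : WithTop ℕ∞) fun y => ψ (Function.update x i y) :=
    fun x => hψ.smooth.comp (contDiff_update _ x i)
  obtain ⟨r0, _, hr0⟩ := int_support_PB ψ hψ.compact
  have huc : ∀ x : Fin N → E3, HasCompactSupport fun y => ψ (Function.update x i y) := by
    intro x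
    refine HasCompactSupport.intro (isCompact_closedBall (0 : E3) r0) fun y hy => ?_
    apply hr0
    intro h
    apply hy
    have := h i (Set.mem_univ i)
    rw [Function.update_self] at this
    exact ball_subset_closedBall this
  have hu1 : ∀ x : Fin N → E3, ContDiff ℝ 1 fun y => ψ (Function.update x i y) :=
    fun x => (hu x).of_le (by exact_mod_cast le_top)
  have hu2 : ∀ x : Fin N → E3, Integrable fun t => ‖ψ (Function.update x i t)‖ ^ 2 := by
    intro x
    have hc : Continuous fun t => ‖ψ (Function.update x i t)‖ ^ 2 := by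
      have := (hu x).continuous
      fun_prop
    refine hc.integrable_of_hasCompactSupport ?_
    exact (huc x).comp_left (g := fun z : ℂ => ‖z‖ ^ 2) (by simp)
  refine samp_slice (fun x => gradSq ψ i x + κ * sX a r S x ^ (2 / 5 : ℝ) * ‖ψ x‖ ^ 2)
    (fun x => 4 / 3 * A * (V⁻¹ * sG a r S i x) * ‖ψ x‖ ^ 2)
    (hgm.add ((hXm2.const_mul κ).mul hsqm)) (((hGm.const_mul _).const_mul _).mul hsqm)
    (fun x => by have := hX0 x; have := hg0 x; positivity)
    (fun x => by have := hG0 x; positivity) ?_ i ?_ ?_ ?_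
  · refine (integrable_gradSq ψ hψ1 hψ.compact i).add ?_
    refine samp_integrable_mul ψ hψ _ (hXm2.const_mul κ) ⟨κ * BX ^ (2 / 5 : ℝ), fun x => ?_⟩
    have h1 := hX0 x
    rw [abs_of_nonneg (by positivity)]
    have h2 := hXB x
    rw [abs_of_nonneg h1] at h2
    gcongr
  · intro x
    simp only [hguess, hXu]
    exact (sob_integrable_gsq _ (hu1 x) (huc x)).add ((hu2 x).const_mul _)
  · intro x
    refine Integrable.mono' ((hu2 x).const_mul (4 / 3 * A * (V⁻¹ * BG))) ?_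
      (Filter.Eventually.of_forall fun t => ?_)
    · have h1 : Measurable fun t => Function.update x i t := measurable_update x
      exact ((((hGm.comp h1).const_mul _).const_mul _).mul (hsqm.comp h1)).aestronglyMeasurable
    · have h1 := hG0 (Function.update x i t)
      rw [Real.norm_of_nonneg (by positivity)]
      have h2 := hGB (Function.update x i t)
      rw [abs_of_nonneg h1] at h2
      gcongr
  · intro x
    simp only [hguess, hXu, hGu]
    set f : E3 → ℝ := fun w => (sM a r S w x / V) ^ (1 / 3 : ℝ) with hf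
    have hfm : Measurable f := by
      have h1 : Measurable fun w : E3 => (w, x) := by fun_prop
      exact (((sM_meas a r S).comp h1).div_const V).pow_const _
    have hf0 : ∀ w, 0 ≤ f w := fun w => by
      have := sM_nonneg a r ha S w x
      rw [hf]; positivity
    have hf4 : ∀ w, f w ^ 4 = (sM a r S w x / V) ^ (4 / 3 : ℝ) := fun w => by
      have := sM_nonneg a r ha S w x
      rw [hf]
      simp only
      rw [← Real.rpow_natCast, ← Real.rpow_mul (by positivity)]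
      norm_num
    obtain ⟨M, hM⟩ : ∃ M, ∀ w, f w ≤ M := by
      refine ⟨(N / (a * V)) ^ (1 / 3 : ℝ), fun w => ?_⟩
      have h1 := sM_nonneg a r ha S w x
      have h2 := sM_le a r ha S w x
      have h3 : nB w r x ≤ N := by simpa using samp_nB_le w r x
      have h6 : sM a r S w x / V ≤ N / (a * V) := by
        rw [div_le_div_iff₀ hV0 (by positivity)]
        rw [le_div_iff₀ ha] at h2
        nlinarith
      rw [hf]
      simp only
      gcongr
    have hfi : Integrable fun w => f w ^ 4 := by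
      simp only [hf4]; exact hX1 x
    obtain ⟨j1, j2⟩ := samp_jensen r hr f hfm hf0 M hM hfi
    have hXf : ∫ w, f w ^ 4 = sX a r S x := by
      simp only [hf4]; rfl
    rw [← hV] at j1 j2
    rw [hXf] at j2
    set U : E3 → ℝ := fun t => 4 / 3 * A * (V⁻¹ * ∫ w, f w * inB w r t) with hU
    have hU0 : ∀ t, 0 ≤ U t := fun t => by
      have : 0 ≤ ∫ w, f w * inB w r t :=
        integral_nonneg fun w => mul_nonneg (hf0 w) (samp_inB_nonneg _ _ _)
      rw [hU]; positivity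
    have hUm : Measurable U := by
      have : StronglyMeasurable fun p : E3 × E3 => f p.2 * inB p.2 r p.1 :=
        ((hfm.comp measurable_snd).mul ((samp_meas_inB r).comp measurable_swap)).stronglyMeasurable
      exact (this.integral_prod_right.measurable.const_mul _).const_mul _
    have hUb : ∃ B, ∀ t, U t ≤ B := by
      refine ⟨4 / 3 * A * (V⁻¹ * BG), fun t => ?_⟩
      have h1 := hG0 (Function.update x i t)
      have h2 := hGB (Function.update x i t)
      rw [abs_of_nonneg h1, hGu] at h2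
      rw [hU]
      simp only
      gcongr
    have hU4 : ∀ t, U t ^ 4 = (4 / 3 * A) ^ 4 * (V⁻¹ * ∫ w, f w * inB w r t) ^ 4 := fun t => by
      rw [hU]; simp only; rw [mul_pow]
    have hU4i : Integrable fun t => U t ^ 4 := by
      simp only [hU4]; exact j1.const_mul _
    have hU4e : ∫ t, U t ^ 4 ≤ (4 / 3 * A) ^ 4 * sX a r S x := by
      simp only [hU4]
      rw [integral_const_mul]
      exact mul_le_mul_of_nonneg_left j2 (by positivity)
    have hob := one_body U hU0 hUm hUb hU4i (fun y => ψ (Function.update x i y)) (hu x) (huc x)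
    have hU40 : 0 ≤ ∫ t, U t ^ 4 := integral_nonneg fun t => by positivity
    have hX0x := hX0 x
    have e1 : (∫ t, U t ^ 4) ^ (2 / 5 : ℝ) ≤ (4 / 3 : ℝ) ^ (8 / 5 : ℝ) * A ^ (8 / 5 : ℝ) *
        sX a r S x ^ (2 / 5 : ℝ) := by
      calc (∫ t, U t ^ 4) ^ (2 / 5 : ℝ) ≤ ((4 / 3 * A) ^ 4 * sX a r S x) ^ (2 / 5 : ℝ) := by
            gcongr
        _ = _ := by
            rw [Real.mul_rpow (by positivity) hX0x, ← Real.rpow_natCast,
              ← Real.rpow_mul (by positivity), ← Real.mul_rpow (by norm_num) hA]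
            norm_num
    have e2 : (3 / 8 : ℝ) ^ (8 / 5 : ℝ) * (4 / 3 : ℝ) ^ (8 / 5 : ℝ) = (1 / 2 : ℝ) ^ (8 / 5 : ℝ) := by
      rw [← Real.mul_rpow (by norm_num) (by norm_num)]; norm_num
    have hM0 : 0 ≤ ∫ t, ‖ψ (Function.update x i t)‖ ^ 2 := integral_nonneg fun t => by positivity
    have e3 : 5 / 3 * (3 / 8 : ℝ) ^ (8 / 5 : ℝ) * Gam ^ (3 / 5 : ℝ) *
        (∫ t, U t ^ 4) ^ (2 / 5 : ℝ) ≤ κ * sX a r S x ^ (2 / 5 : ℝ) := by
      calc 5 / 3 * (3 / 8 : ℝ) ^ (8 / 5 : ℝ) * Gam ^ (3 / 5 : ℝ) * (∫ t, U t ^ 4) ^ (2 / 5 : ℝ)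
          ≤ 5 / 3 * (3 / 8 : ℝ) ^ (8 / 5 : ℝ) * Gam ^ (3 / 5 : ℝ) *
            ((4 / 3 : ℝ) ^ (8 / 5 : ℝ) * A ^ (8 / 5 : ℝ) * sX a r S x ^ (2 / 5 : ℝ)) := by gcongr
        _ = _ := by rw [hκ, ← e2]; ring
    rw [integral_add (sob_integrable_gsq _ (hu1 x) (huc x)) ((hu2 x).const_mul _),
      integral_const_mul]
    have e4 := mul_le_mul_of_nonneg_right e3 hM0
    change ∫ t, U t * ‖ψ (Function.update x i t)‖ ^ 2 ≤ _
    linarith

theorem samp_young (A θ G n X : ℝ) (hA : 0 ≤ A) (hθ : 0 < θ) (hG : 0 ≤ G) (hn : 0 ≤ n)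
    (hX : 0 ≤ X) :
    n * (5 / 3 * (1 / 2 : ℝ) ^ (8 / 5 : ℝ) * G ^ (3 / 5 : ℝ) * A ^ (8 / 5 : ℝ) * X ^ (2 / 5 : ℝ)) ≤
      A / 3 * θ * X + A ^ 2 * G / 4 * θ ^ (-(2 / 3) : ℝ) * n ^ (5 / 3 : ℝ) := by
  set p1 := 5 / 6 * (A * θ * X) with hp1
  set p2 := 5 / 12 * (A ^ 2 * G * θ ^ (-(2 / 3) : ℝ) * n ^ (5 / 3 : ℝ)) with hp2
  have h1 : 0 ≤ p1 := by positivity
  have h2 : 0 ≤ p2 := by positivity
  have h := Real.geom_mean_le_arith_mean2_weighted (w₁ := 2 / 5) (w₂ := 3 / 5) (p₁ := p1)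
    (p₂ := p2) (by norm_num) (by norm_num) h1 h2 (by norm_num)
  have e : p1 ^ (2 / 5 : ℝ) * p2 ^ (3 / 5 : ℝ) =
      n * (5 / 3 * (1 / 2 : ℝ) ^ (8 / 5 : ℝ) * G ^ (3 / 5 : ℝ) * A ^ (8 / 5 : ℝ) * X ^ (2 / 5 : ℝ)) := by
    rw [hp1, hp2, Real.mul_rpow (by norm_num) (by positivity), Real.mul_rpow (by positivity) hX,
      Real.mul_rpow hA hθ.le, Real.mul_rpow (by norm_num) (by positivity),
      Real.mul_rpow (by positivity) (by positivity), Real.mul_rpow (by positivity) (by positivity),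
      Real.mul_rpow (by positivity) hG, ← Real.rpow_mul hθ.le, ← Real.rpow_mul hn,
      ← Real.rpow_natCast A 2, ← Real.rpow_mul hA]
    have a1 : θ ^ (2 / 5 : ℝ) * θ ^ (-(2 / 3) * (3 / 5) : ℝ) = 1 := by
      rw [← Real.rpow_add hθ]; norm_num
    have a2 : n ^ (5 / 3 * (3 / 5) : ℝ) = n := by norm_num
    have a3 : A ^ (2 / 5 : ℝ) * A ^ (((2 : ℕ) : ℝ) * (3 / 5)) = A ^ (8 / 5 : ℝ) := by
      rw [← Real.rpow_add_of_nonneg hA (by norm_num) (by norm_num)]; norm_num
    have a4 : (5 / 6 : ℝ) ^ (2 / 5 : ℝ) * (5 / 12 : ℝ) ^ (3 / 5 : ℝ) =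
        5 / 3 * (1 / 2 : ℝ) ^ (8 / 5 : ℝ) := by
      have b1 : (5 / 6 : ℝ) = (5 / 12) * 2 := by norm_num
      have b2 : (2 : ℝ) ^ (2 / 5 : ℝ) = 4 * (1 / 2 : ℝ) ^ (8 / 5 : ℝ) := by
        rw [one_div, Real.inv_rpow (by norm_num), ← Real.rpow_neg (by norm_num)]
        rw [show (4 : ℝ) = (2 : ℝ) ^ (2 : ℝ) by norm_num, ← Real.rpow_add (by norm_num)]
        norm_num
      rw [b1, Real.mul_rpow (by norm_num) (by norm_num), b2]
      have b3 : (5 / 12 : ℝ) ^ (2 / 5 : ℝ) * (5 / 12 : ℝ) ^ (3 / 5 : ℝ) = 5 / 12 := by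
        rw [← Real.rpow_add (by norm_num)]; norm_num
      linear_combination (4 * (1 / 2 : ℝ) ^ (8 / 5 : ℝ)) * b3
    rw [a2]
    calc (5 / 6 : ℝ) ^ (2 / 5 : ℝ) * (A ^ (2 / 5 : ℝ) * θ ^ (2 / 5 : ℝ) * X ^ (2 / 5 : ℝ)) *
          ((5 / 12 : ℝ) ^ (3 / 5 : ℝ) * (A ^ (((2 : ℕ) : ℝ) * (3 / 5)) * G ^ (3 / 5 : ℝ) *
            θ ^ (-(2 / 3) * (3 / 5) : ℝ) * n))
        = ((5 / 6 : ℝ) ^ (2 / 5 : ℝ) * (5 / 12 : ℝ) ^ (3 / 5 : ℝ)) *
          (A ^ (2 / 5 : ℝ) * A ^ (((2 : ℕ) : ℝ) * (3 / 5))) *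
          (θ ^ (2 / 5 : ℝ) * θ ^ (-(2 / 3) * (3 / 5) : ℝ)) * G ^ (3 / 5 : ℝ) * n *
          X ^ (2 / 5 : ℝ) := by ring
      _ = _ := by rw [a1, a3, a4]; ring
  rw [← e]
  refine h.trans (le_of_eq ?_)
  rw [hp1, hp2]; ring

theorem samp_fixed {N : ℕ} (A a r : ℝ) (hA : 0 ≤ A) (ha : 0 < a) (ha1 : a ≤ 1 / 8) (hr : 0 < r)
    (ψ : (Fin N → E3) → ℂ) (hψ : IsState ψ) (S : Finset (Fin N)) :
    A * ∫ x, sD r x * ‖ψ x‖ ^ 2 ≤ kin ψ +
      A ^ 2 * Gam / 4 * (1 - 4 * a) ^ (-(2 / 3) : ℝ) * (N : ℝ) ^ (5 / 3 : ℝ) +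
      A * ∫ x, sE a r S x * ‖ψ x‖ ^ 2 := by
  set V := volume.real (ball (0 : E3) r) with hV
  have hV0 : 0 < V := samp_vol_pos r hr
  have hψ1 : ContDiff ℝ 1 ψ := hψ.smooth.of_le (by exact_mod_cast le_top)
  have hGam := sob_gam_nonneg
  have ha1' : a ≤ 1 := by linarith
  set κ := 5 / 3 * (1 / 2 : ℝ) ^ (8 / 5 : ℝ) * Gam ^ (3 / 5 : ℝ) * A ^ (8 / 5 : ℝ) with hκ
  have hκ0 : 0 ≤ κ := by positivity
  obtain ⟨hD1, hDm, hDB⟩ := sD_dom (N := N) r hr
  obtain ⟨hX1, hXm, BX, hXB⟩ := sX_dom a r ha hr S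
  obtain ⟨hE1, hEm, hEB⟩ := sE_dom a r ha ha1' hr S
  have hX0 : ∀ x, 0 ≤ sX a r S x := fun x => integral_nonneg fun w => by
    have := sM_nonneg a r ha S w x
    positivity
  have iD := samp_integrable_mul ψ hψ _ hDm hDB
  have iX := samp_integrable_mul ψ hψ _ hXm ⟨BX, hXB⟩
  have iE := samp_integrable_mul ψ hψ _ hEm hEB
  have iG : ∀ i, Integrable fun x => 4 / 3 * A * (V⁻¹ * sG a r S i x) * ‖ψ x‖ ^ 2 := by
    intro i
    obtain ⟨_, hGm, BG, hGB⟩ := sG_dom a r ha hr S i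
    refine samp_integrable_mul ψ hψ _ ((hGm.const_mul _).const_mul _)
      ⟨|4 / 3 * A| * (|V⁻¹| * BG), fun x => ?_⟩
    rw [abs_mul, abs_mul V⁻¹]
    gcongr
    exact hGB x
  have iX2 : Integrable fun x => κ * sX a r S x ^ (2 / 5 : ℝ) * ‖ψ x‖ ^ 2 := by
    refine samp_integrable_mul ψ hψ _ ((hXm.pow_const _).const_mul κ)
      ⟨κ * BX ^ (2 / 5 : ℝ), fun x => ?_⟩
    have h1 := hX0 x
    rw [abs_of_nonneg (by positivity)]
    have h2 := hXB x
    rw [abs_of_nonneg h1] at h2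
    gcongr
  have ig : ∀ i, Integrable (gradSq ψ i) := fun i => integrable_gradSq ψ hψ1 hψ.compact i
  have h1 : A * ∫ x, sD r x * ‖ψ x‖ ^ 2 ≤
      (∑ i ∈ Sᶜ, ∫ x, 4 / 3 * A * (V⁻¹ * sG a r S i x) * ‖ψ x‖ ^ 2) -
        A / 3 * (1 - 4 * a) * (∫ x, sX a r S x * ‖ψ x‖ ^ 2) +
        A * ∫ x, sE a r S x * ‖ψ x‖ ^ 2 := by
    have isub : Integrable fun x => (∑ i ∈ Sᶜ, 4 / 3 * A * (V⁻¹ * sG a r S i x) * ‖ψ x‖ ^ 2) -
        A / 3 * (1 - 4 * a) * (sX a r S x * ‖ψ x‖ ^ 2) :=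
      (integrable_finsetSum _ fun i _ => iG i).sub (iX.const_mul _)
    rw [← integral_finsetSum _ fun i _ => iG i, ← integral_const_mul, ← integral_const_mul,
      ← integral_const_mul, ← integral_sub (integrable_finsetSum _ fun i _ => iG i)
        (iX.const_mul _), ← integral_add isub (iE.const_mul _)]
    refine integral_mono (iD.const_mul _) (isub.add (iE.const_mul _)) fun x => ?_
    have h := samp_pointwise A a r hA ha ha1' hr S x
    rw [← hV] at h
    have h' := mul_le_mul_of_nonneg_right h (by positivity : 0 ≤ ‖ψ x‖ ^ 2)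
    simp only
    rw [← Finset.sum_mul]
    calc A * (sD r x * ‖ψ x‖ ^ 2) = A * sD r x * ‖ψ x‖ ^ 2 := by ring
      _ ≤ _ := h'
      _ = _ := by ring
  have h2 : ∑ i ∈ Sᶜ, ∫ x, 4 / 3 * A * (V⁻¹ * sG a r S i x) * ‖ψ x‖ ^ 2 ≤
      kin ψ + N * ∫ x, κ * sX a r S x ^ (2 / 5 : ℝ) * ‖ψ x‖ ^ 2 := by
    have hk : kin ψ = ∑ i, ∫ x, gradSq ψ i x := by
      unfold kin
      rw [integral_finsetSum _ fun i _ => ig i]
    have hI0 : 0 ≤ ∫ x, κ * sX a r S x ^ (2 / 5 : ℝ) * ‖ψ x‖ ^ 2 :=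
      integral_nonneg fun x => by have := hX0 x; positivity
    calc ∑ i ∈ Sᶜ, ∫ x, 4 / 3 * A * (V⁻¹ * sG a r S i x) * ‖ψ x‖ ^ 2
        ≤ ∑ i ∈ Sᶜ, ((∫ x, gradSq ψ i x) + ∫ x, κ * sX a r S x ^ (2 / 5 : ℝ) * ‖ψ x‖ ^ 2) := by
          refine Finset.sum_le_sum fun i hi => ?_
          rw [Finset.mem_compl] at hi
          have := samp_one A a r hA ha hr ψ hψ S i hi
          rw [← hV, integral_add (ig i) iX2] at this
          exact this
      _ ≤ ∑ i, ((∫ x, gradSq ψ i x) + ∫ x, κ * sX a r S x ^ (2 / 5 : ℝ) * ‖ψ x‖ ^ 2) := by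
          refine Finset.sum_le_sum_of_subset_of_nonneg (Finset.subset_univ _) fun i _ _ => ?_
          exact add_nonneg (integral_nonneg fun x => sob_gsq_nonneg _ _) hI0
      _ = _ := by rw [Finset.sum_add_distrib, hk]; simp
  have h3 : N * (∫ x, κ * sX a r S x ^ (2 / 5 : ℝ) * ‖ψ x‖ ^ 2) -
      A / 3 * (1 - 4 * a) * (∫ x, sX a r S x * ‖ψ x‖ ^ 2) ≤
      A ^ 2 * Gam / 4 * (1 - 4 * a) ^ (-(2 / 3) : ℝ) * (N : ℝ) ^ (5 / 3 : ℝ) := by
    rw [← integral_const_mul, ← integral_const_mul, ← integral_sub (iX2.const_mul _)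
      (iX.const_mul _)]
    have hn : Integrable fun x => ‖ψ x‖ ^ 2 := by
      have := samp_integrable_mul ψ hψ (fun _ => 1) measurable_const ⟨1, fun x => by simp⟩
      simpa using this
    calc ∫ x, (N * (κ * sX a r S x ^ (2 / 5 : ℝ) * ‖ψ x‖ ^ 2) -
          A / 3 * (1 - 4 * a) * (sX a r S x * ‖ψ x‖ ^ 2))
        ≤ ∫ x, A ^ 2 * Gam / 4 * (1 - 4 * a) ^ (-(2 / 3) : ℝ) * (N : ℝ) ^ (5 / 3 : ℝ) *
            ‖ψ x‖ ^ 2 := by
          refine integral_mono ((iX2.const_mul _).sub (iX.const_mul _)) (hn.const_mul _)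
            fun x => ?_
          have hy := samp_young A (1 - 4 * a) Gam N (sX a r S x) hA (by linarith) hGam
            (Nat.cast_nonneg _) (hX0 x)
          have hy' := mul_le_mul_of_nonneg_right hy (by positivity : 0 ≤ ‖ψ x‖ ^ 2)
          simp only
          rw [hκ]
          linarith
      _ = _ := by rw [integral_const_mul, hψ.normalized, mul_one]
  linarith

/-- the variance bound -/
theorem samp_var {N : ℕ} (a r : ℝ) (ha : 0 < a) (ha1 : a ≤ 1) (w : E3) (x : Fin N → E3) :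
    ∑ S ∈ (Finset.univ : Finset (Fin N)).powerset, sampW a Finset.univ S *
      |nB w r x - sM a r S w x| ^ (4 / 3 : ℝ) ≤ a ^ (-(2 / 3) : ℝ) * nB w r x := by
  obtain ⟨h0, _, h2⟩ := samp_bern a ha (fun i => inB w r (x i)) (Finset.univ : Finset (Fin N))
  have hy : ∀ S : Finset (Fin N), ∑ i, inB w r (x i) * (1 - if i ∈ S then 1 / a else 0) =
      nB w r x - sM a r S w x := by
    intro S
    unfold nB sM
    simp only [mul_sub, mul_one, Finset.sum_sub_distrib]
    congr 1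
    rw [Finset.mul_sum]
    simp only [mul_ite, mul_zero]
    rw [← Finset.sum_filter, Finset.filter_univ_mem]
    refine Finset.sum_congr rfl fun i _ => ?_
    ring
  simp only [hy] at h2
  have hb2 : ∑ i, inB w r (x i) ^ 2 = nB w r x := by
    unfold nB
    refine Finset.sum_congr rfl fun i _ => ?_
    rcases samp_inB_cases w r (x i) with h | h <;> rw [h] <;> norm_num
  rw [hb2] at h2
  have hn0 := samp_nB_nonneg w r x
  have hJ := Real.rpow_arith_mean_le_arith_mean_rpow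
    (Finset.univ : Finset (Fin N)).powerset (fun S => sampW a Finset.univ S)
    (fun S => |nB w r x - sM a r S w x| ^ (4 / 3 : ℝ))
    (fun S _ => sampW_nonneg a ha.le ha1 _ _) h0 (fun S _ => by positivity)
    (p := 3 / 2) (by norm_num)
  have e1 : ∀ S : Finset (Fin N), (|nB w r x - sM a r S w x| ^ (4 / 3 : ℝ)) ^ (3 / 2 : ℝ) =
      (nB w r x - sM a r S w x) ^ 2 := by
    intro S
    rw [← Real.rpow_mul (abs_nonneg _), ← sq_abs (nB w r x - sM a r S w x), ← Real.rpow_natCast]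
    norm_num
  simp only [e1] at hJ
  rw [h2] at hJ
  set T := ∑ S ∈ (Finset.univ : Finset (Fin N)).powerset, sampW a Finset.univ S *
      |nB w r x - sM a r S w x| ^ (4 / 3 : ℝ) with hT
  have hT0 : 0 ≤ T := Finset.sum_nonneg fun S _ =>
    mul_nonneg (sampW_nonneg a ha.le ha1 _ _) (by positivity)
  have h3 : T ^ (3 / 2 : ℝ) ≤ nB w r x / a := by
    refine hJ.trans ?_
    rw [mul_div_assoc', div_le_div_iff_of_pos_right ha]
    nlinarith
  have h4 : T ≤ (nB w r x / a) ^ (2 / 3 : ℝ) := by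
    calc T = (T ^ (3 / 2 : ℝ)) ^ (2 / 3 : ℝ) := by
          rw [← Real.rpow_mul hT0]; norm_num
      _ ≤ _ := by gcongr
  have h5 : nB w r x = 0 ∨ 1 ≤ nB w r x := by
    by_cases h : ∃ i, inB w r (x i) = 1
    · obtain ⟨i, hi⟩ := h
      right
      have := Finset.single_le_sum (f := fun j => inB w r (x j))
          (fun j _ => samp_inB_nonneg w r (x j)) (Finset.mem_univ i)
      simp only [hi] at this
      exact this
    · left
      push Not at h
      exact Finset.sum_eq_zero fun i _ => (samp_inB_cases w r (x i)).resolve_right (h i)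
  have h6 : nB w r x ^ (2 / 3 : ℝ) ≤ nB w r x := by
    rcases h5 with h | h
    · rw [h, Real.zero_rpow (by norm_num)]
    · calc nB w r x ^ (2 / 3 : ℝ) ≤ nB w r x ^ (1 : ℝ) :=
            Real.rpow_le_rpow_of_exponent_le h (by norm_num)
        _ = _ := Real.rpow_one _
  refine h4.trans ?_
  rw [Real.div_rpow hn0 ha.le, Real.rpow_neg ha.le, div_eq_mul_inv, mul_comm]
  gcongr

theorem sampling (A δ : ℝ) (hA : 0 ≤ A) (hδ : 0 < δ) : ∃ C : ℝ, 0 < C ∧
    ∀ (N : ℕ) (ψ : (Fin N → E3) → ℂ) (r : ℝ), IsState ψ → 0 < r →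
    -(A ^ 2 * Gam / 4 + δ) * (N : ℝ) ^ (5 / 3 : ℝ) - C * N / r ≤
      kin ψ - A * (∫ x, (∫ w, (nB w r x / volume.real (ball (0 : E3) r)) ^ (4 / 3 : ℝ)) *
        ‖ψ x‖ ^ 2) := by
  have hGam := sob_gam_nonneg
  set K0 := A ^ 2 * Gam / 4 with hK0
  have hK00 : 0 ≤ K0 := by positivity
  set a := min (1 / 8) (δ / (8 * K0 + 8)) with haa
  have ha : 0 < a := by rw [haa]; positivity
  have ha1 : a ≤ 1 / 8 := min_le_left _ _
  have ha2 : a ≤ δ / (8 * K0 + 8) := min_le_right _ _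
  set c0 : ℝ := (4 / 3 * Real.pi) ^ (-(1 / 3) : ℝ) with hc0
  refine ⟨A * a ^ (-(2 / 3) : ℝ) * c0 + 1, by positivity, fun N ψ r hψ hr => ?_⟩
  set V := volume.real (ball (0 : E3) r) with hV
  have hV0 : 0 < V := samp_vol_pos r hr
  have ha1' : a ≤ 1 := by linarith
  change _ ≤ kin ψ - A * ∫ x, sD r x * ‖ψ x‖ ^ 2
  obtain ⟨h0, _, _⟩ := samp_bern a ha (fun _ => (0 : ℝ)) (Finset.univ : Finset (Fin N))
  have iE : ∀ S : Finset (Fin N), Integrable fun x => sE a r S x * ‖ψ x‖ ^ 2 := fun S => by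
    obtain ⟨hE1, hEm, hEB⟩ := sE_dom a r ha ha1' hr S
    exact samp_integrable_mul ψ hψ _ hEm hEB
  have hn : Integrable fun x => ‖ψ x‖ ^ 2 := by
    have := samp_integrable_mul ψ hψ (fun _ => 1) measurable_const ⟨1, fun x => by simp⟩
    simpa using this
  -- average of the errors
  have hsum : ∑ S ∈ (Finset.univ : Finset (Fin N)).powerset, sampW a Finset.univ S *
      (∫ x, sE a r S x * ‖ψ x‖ ^ 2) ≤ a ^ (-(2 / 3) : ℝ) * c0 * N / r := by
    have e1 : ∑ S ∈ (Finset.univ : Finset (Fin N)).powerset, sampW a Finset.univ S *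
        (∫ x, sE a r S x * ‖ψ x‖ ^ 2) =
        ∫ x, ∑ S ∈ (Finset.univ : Finset (Fin N)).powerset, sampW a Finset.univ S *
          (sE a r S x * ‖ψ x‖ ^ 2) := by
      rw [integral_finsetSum _ fun S _ => (iE S).const_mul _]
      simp only [integral_const_mul]
    rw [e1]
    have hx : ∀ x : Fin N → E3, ∑ S ∈ (Finset.univ : Finset (Fin N)).powerset,
        sampW a Finset.univ S * sE a r S x ≤ a ^ (-(2 / 3) : ℝ) * c0 * N / r := by
      intro x
      have e2 : ∑ S ∈ (Finset.univ : Finset (Fin N)).powerset, sampW a Finset.univ S *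
          sE a r S x = ∫ w, ∑ S ∈ (Finset.univ : Finset (Fin N)).powerset,
          sampW a Finset.univ S * (|nB w r x - sM a r S w x| / V) ^ (4 / 3 : ℝ) := by
        rw [integral_finsetSum _ fun S _ => ((sE_dom a r ha ha1' hr S).1 x).const_mul _]
        simp only [integral_const_mul]
        rfl
      rw [e2]
      have hint : Integrable fun w => ∑ S ∈ (Finset.univ : Finset (Fin N)).powerset,
          sampW a Finset.univ S * (|nB w r x - sM a r S w x| / V) ^ (4 / 3 : ℝ) :=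
        integrable_finsetSum _ fun S _ => ((sE_dom a r ha ha1' hr S).1 x).const_mul _
      calc ∫ w, ∑ S ∈ (Finset.univ : Finset (Fin N)).powerset,
            sampW a Finset.univ S * (|nB w r x - sM a r S w x| / V) ^ (4 / 3 : ℝ)
          ≤ ∫ w, V ^ (-(4 / 3) : ℝ) * (a ^ (-(2 / 3) : ℝ) * nB w r x) := by
            refine integral_mono hint (((samp_integrable_nB r x).const_mul _).const_mul _)
              fun w => ?_
            have hv := samp_var a r ha ha1' w x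
            have hv' := mul_le_mul_of_nonneg_left hv (by positivity : 0 ≤ V ^ (-(4 / 3) : ℝ))
            refine le_trans (le_of_eq ?_) hv'
            rw [Finset.mul_sum]
            refine Finset.sum_congr rfl fun S _ => ?_
            rw [Real.div_rpow (abs_nonneg _) hV0.le, Real.rpow_neg hV0.le]
            ring
        _ = a ^ (-(2 / 3) : ℝ) * c0 * N / r := by
            rw [integral_const_mul, integral_const_mul, samp_integral_nB, ← hV]
            have e3 : V ^ (-(4 / 3) : ℝ) * V = c0 / r := by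
              have e4 : V ^ (-(4 / 3) : ℝ) * V = V ^ (-(1 / 3) : ℝ) := by
                nth_rw 2 [← Real.rpow_one V]
                rw [← Real.rpow_add hV0]; norm_num
              rw [e4, hV, int_vol_ball _ _ hr.le, Real.mul_rpow (by positivity) (by positivity),
                ← Real.rpow_natCast r, ← Real.rpow_mul hr.le, hc0, div_eq_mul_inv]
              congr 1
              rw [← Real.rpow_neg_one]
              norm_num
            rw [Fintype.card_fin]
            calc V ^ (-(4 / 3) : ℝ) * (a ^ (-(2 / 3) : ℝ) * (N * V)) =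
                  (V ^ (-(4 / 3) : ℝ) * V) * a ^ (-(2 / 3) : ℝ) * N := by ring
              _ = _ := by rw [e3]; ring
    calc ∫ x, ∑ S ∈ (Finset.univ : Finset (Fin N)).powerset, sampW a Finset.univ S *
          (sE a r S x * ‖ψ x‖ ^ 2) ≤ ∫ x, a ^ (-(2 / 3) : ℝ) * c0 * N / r * ‖ψ x‖ ^ 2 := by
          refine integral_mono (integrable_finsetSum _ fun S _ => (iE S).const_mul _)
            (hn.const_mul _) fun x => ?_
          have hv' := mul_le_mul_of_nonneg_right (hx x) (by positivity : 0 ≤ ‖ψ x‖ ^ 2)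
          refine le_trans (le_of_eq ?_) hv'
          rw [Finset.sum_mul]
          refine Finset.sum_congr rfl fun S _ => ?_
          ring
      _ = _ := by rw [integral_const_mul, hψ.normalized, mul_one]
  -- average of the inequalities
  have havg : A * (∫ x, sD r x * ‖ψ x‖ ^ 2) ≤ kin ψ +
      K0 * (1 - 4 * a) ^ (-(2 / 3) : ℝ) * (N : ℝ) ^ (5 / 3 : ℝ) +
      A * (a ^ (-(2 / 3) : ℝ) * c0 * N / r) := by
    have h1 : ∑ S ∈ (Finset.univ : Finset (Fin N)).powerset, sampW a Finset.univ S *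
        (A * ∫ x, sD r x * ‖ψ x‖ ^ 2) ≤
        ∑ S ∈ (Finset.univ : Finset (Fin N)).powerset, sampW a Finset.univ S *
        (kin ψ + K0 * (1 - 4 * a) ^ (-(2 / 3) : ℝ) * (N : ℝ) ^ (5 / 3 : ℝ) +
          A * ∫ x, sE a r S x * ‖ψ x‖ ^ 2) :=
      Finset.sum_le_sum fun S _ => mul_le_mul_of_nonneg_left
        (samp_fixed A a r hA ha ha1 hr ψ hψ S) (sampW_nonneg a ha.le ha1' _ _)
    rw [← Finset.sum_mul, h0, one_mul] at h1
    refine h1.trans ?_
    simp only [mul_add (sampW _ _ _)]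
    rw [Finset.sum_add_distrib]
    simp only [← mul_add (sampW _ _ _)]
    rw [← Finset.sum_mul, h0, one_mul]
    have e5 : ∑ S ∈ (Finset.univ : Finset (Fin N)).powerset, sampW a Finset.univ S *
        (A * ∫ x, sE a r S x * ‖ψ x‖ ^ 2) = A * ∑ S ∈ (Finset.univ : Finset (Fin N)).powerset,
        sampW a Finset.univ S * ∫ x, sE a r S x * ‖ψ x‖ ^ 2 := by
      rw [Finset.mul_sum]
      refine Finset.sum_congr rfl fun S _ => ?_
      ring
    rw [e5]
    gcongr
  -- the constant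
  have hconst : K0 * (1 - 4 * a) ^ (-(2 / 3) : ℝ) ≤ K0 + δ := by
    have hθ : 0 < 1 - 4 * a := by linarith
    have h1 : (1 - 4 * a) ^ (-(2 / 3) : ℝ) ≤ (1 - 4 * a) ^ (-1 : ℝ) :=
      Real.rpow_le_rpow_of_exponent_ge hθ (by linarith) (by norm_num)
    rw [Real.rpow_neg_one] at h1
    have h2 : (1 - 4 * a)⁻¹ ≤ 1 + 8 * a := by
      rw [inv_le_comm₀ hθ (by linarith), inv_le_iff_one_le_mul₀ (by linarith)]
      nlinarith
    have h3 : K0 * (1 - 4 * a) ^ (-(2 / 3) : ℝ) ≤ K0 * (1 + 8 * a) :=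
      mul_le_mul_of_nonneg_left (h1.trans h2) hK00
    have h4 : 8 * K0 * a ≤ δ := by
      rw [le_div_iff₀ (by positivity)] at ha2
      nlinarith
    linarith
  have hN : 0 ≤ (N : ℝ) ^ (5 / 3 : ℝ) := by positivity
  have hfin := mul_le_mul_of_nonneg_right hconst hN
  have hNr : 0 ≤ (N : ℝ) / r := by positivity
  have e6 : (A * a ^ (-(2 / 3) : ℝ) * c0 + 1) * N / r =
      A * (a ^ (-(2 / 3) : ℝ) * c0 * N / r) + N / r := by ring
  rw [e6]
  linarith

end Pool.Agent.H5R2.NL
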