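import Mathlib
import Pool.Agent.H5R2.NL.Defs
import Pool.Agent.H5R2.NL.Int
import Pool.Agent.H5R2.NL.Kern
import Pool.Agent.H5R2.NL.GS
import Pool.Agent.H5R2.NL.Gap
import Pool.Agent.H5R2.NL.Crude
import Pool.Agent.H5R2.NL.MomA
import Pool.Agent.H5R2.NL.MomB
import Pool.Agent.H5R2.NL.Samp
import Pool.Agent.H5R2.NL.Loc
import Pool.Agent.H5R2.NL.Law2
import Pool.Agent.H5R2.NL.JL

/-!
# All ingredients of the lower bound
-/
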