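import Mathlib
import Pool.Agent.H5R2.NL.Defs
import Pool.Agent.H5R2.NL.Int
import Pool.Agent.H5R2.NL.GS

/-!
# From laws to configurations
-/

set_option autoImplicit false

noncomputable section

namespace Pool.Agent.H5R2.NL

open MeasureTheory Metric Filter
open scoped ENNReal

/-! ### the kernels -/

theorem ext_hker_nonneg (l t : ℝ) : 0 ≤ hker l t := by
  unfold hker
  positivity

theorem ext_hker_le (l t : ℝ) (hl : 0 < l) (ht : 0 ≤ t) : hker l t ≤ 1 := by
  unfold hker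
  apply pow_le_one₀ (le_max_left _ _)
  apply max_le zero_le_one
  have : 0 ≤ t / (2 * l) := by positivity
  linarith

theorem ext_hker_zero (l t : ℝ) (hl : 0 < l) (ht : 2 * l ≤ t) : hker l t = 0 := by
  unfold hker
  rw [max_eq_left]
  · norm_num
  · have : 1 ≤ t / (2 * l) := by rwa [le_div_iff₀ (by positivity), one_mul]
    linarith

theorem ext_Fk_nonneg (l t : ℝ) (hl : 0 < l) (ht : 0 ≤ t) : 0 ≤ Fk l t := by
  unfold Fk
  split_ifs with h
  · positivity
  · have := ext_hker_le l t hl ht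
    apply div_nonneg _ ht
    linarith

theorem ext_Fk_le (l t : ℝ) (ht : 0 < t) : Fk l t ≤ 1 / t := by
  unfold Fk
  rw [if_neg ht.ne']
  have := ext_hker_nonneg l t
  apply div_le_div_of_nonneg_right _ ht.le
  linarith

theorem ext_Fk_zero (l : ℝ) : Fk l 0 = 3 / (2 * l) := by
  unfold Fk
  rw [if_pos rfl]

theorem ext_Fk_meas (l : ℝ) : Measurable (Fk l) := by
  unfold Fk hker
  apply Measurable.ite (measurableSet_singleton 0) measurable_const
  fun_prop

theorem ext_split (l t : ℝ) (ht : 0 < t) : 1 / t = Fk l t + hker l t / t := by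
  unfold Fk
  rw [if_neg ht.ne']
  ring

/-! ### the potential -/

section pot

variable (g : E3 → ℝ)

/-- the potential of `g` -/
def Gp (y : E3) : ℝ := ∫ x, g x / ‖x - y‖

variable (hg : Continuous g) (hc : HasCompactSupport g) (h0 : ∀ x, 0 ≤ g x)

include hg hc in
theorem ext_bdd : ∃ G : ℝ, 0 < G ∧ ∀ x, g x ≤ G := by
  obtain ⟨C, hC⟩ := hc.exists_bound_of_continuous hg
  refine ⟨|C| + 1, by positivity, fun x => ?_⟩
  have := hC x
  rw [Real.norm_eq_abs] at this
  linarith [le_abs_self (g x), le_abs_self C]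

include hg hc in
theorem ext_int : Integrable g := hg.integrable_of_hasCompactSupport hc

include hc in
theorem ext_supp : ∃ ρ : ℝ, 0 < ρ ∧ ∀ x, ρ ≤ ‖x‖ → g x = 0 := by
  obtain ⟨ρ, hρ⟩ := hc.isCompact.isBounded.subset_ball (0 : E3)
  refine ⟨|ρ| + 1, by positivity, fun x hx => ?_⟩
  by_contra h
  have h1 : x ∈ tsupport g := subset_tsupport g h
  have h2 := hρ h1
  rw [mem_ball_zero_iff] at h2
  linarith [le_abs_self ρ]

include hg hc h0 in
theorem ext_pot_int (y : E3) : Integrable (fun x => g x / ‖x - y‖) := by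
  obtain ⟨G, hG0, hG⟩ := ext_bdd g hg hc
  obtain ⟨ρ, hρ0, hρ⟩ := ext_supp g hc
  have h1 : Integrable (fun x => (ball (0 : E3) ρ).indicator (fun x => G * (1 / ‖x - y‖)) x) := by
    rw [integrable_indicator_iff measurableSet_ball]
    exact (integrableOn_inv y 0 ρ).const_mul G
  refine h1.mono' ?_ (Eventually.of_forall fun x => ?_)
  · apply Measurable.aestronglyMeasurable
    have := hg.measurable
    fun_prop
  · rw [Real.norm_eq_abs, abs_of_nonneg (div_nonneg (h0 x) (norm_nonneg _))]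
    by_cases hx : x ∈ ball (0 : E3) ρ
    · rw [Set.indicator_of_mem hx, div_eq_mul_one_div]
      exact mul_le_mul_of_nonneg_right (hG x) (by positivity)
    · rw [Set.indicator_of_notMem hx]
      rw [mem_ball_zero_iff, not_lt] at hx
      rw [hρ x hx, zero_div]

include h0 in
theorem ext_Gp_nonneg (y : E3) : 0 ≤ Gp g y :=
  integral_nonneg fun x => div_nonneg (h0 x) (norm_nonneg _)

include hg in
theorem ext_Gp_meas : Measurable (Gp g) := by
  have h : StronglyMeasurable (Function.uncurry fun (x y : E3) => g x / ‖x - y‖) := by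
    apply Measurable.stronglyMeasurable
    have := hg.measurable
    unfold Function.uncurry
    fun_prop
  exact (StronglyMeasurable.integral_prod_left (μ := (volume : Measure E3)) h).measurable

include hg hc h0 in
theorem ext_Gp_le : ∃ B : ℝ, 0 < B ∧ ∀ y, Gp g y ≤ B := by
  obtain ⟨G, hG0, hG⟩ := ext_bdd g hg hc
  have hgi := ext_int g hg hc
  have hgn : 0 ≤ ∫ x, g x := integral_nonneg h0
  refine ⟨G * (2 * Real.pi * 1 ^ 2) + (∫ x, g x), by have := Real.pi_pos; positivity, fun y => ?_⟩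
  have h1 : Integrable (fun x => (ball y 1).indicator (fun x => G * (1 / ‖x - y‖)) x) := by
    rw [integrable_indicator_iff measurableSet_ball]
    exact (integrableOn_inv y y 1).const_mul G
  have h2 : Gp g y ≤ ∫ x, ((ball y 1).indicator (fun x => G * (1 / ‖x - y‖)) x + g x) := by
    unfold Gp
    apply integral_mono (ext_pot_int g hg hc h0 y) (h1.add hgi)
    intro x
    change g x / ‖x - y‖ ≤ (ball y 1).indicator (fun x => G * (1 / ‖x - y‖)) x + g x
    by_cases hx : x ∈ ball y 1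
    · rw [Set.indicator_of_mem hx, div_eq_mul_one_div]
      have := mul_le_mul_of_nonneg_right (hG x) (by positivity : (0:ℝ) ≤ 1 / ‖x - y‖)
      linarith [h0 x]
    · rw [Set.indicator_of_notMem hx, zero_add]
      rw [mem_ball, dist_eq_norm, not_lt] at hx
      rw [div_le_iff₀ (by linarith)]
      nlinarith [h0 x]
  rw [integral_add h1 hgi, integral_indicator measurableSet_ball, integral_const_mul,
    int_inv y 1 zero_le_one] at h2
  exact h2

include hg hc h0 in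
theorem ext_double_int : Integrable (fun x => g x * Gp g x) := by
  obtain ⟨B, hB0, hB⟩ := ext_Gp_le g hg hc h0
  refine ((ext_int g hg hc).mul_const B).mono' ?_ (Eventually.of_forall fun x => ?_)
  · exact (hg.measurable.mul (ext_Gp_meas g hg)).aestronglyMeasurable
  · rw [Real.norm_eq_abs, abs_of_nonneg (mul_nonneg (h0 x) (ext_Gp_nonneg g h0 x))]
    exact mul_le_mul_of_nonneg_left (hB x) (h0 x)

theorem ext_inner (x : E3) : ∫ y, g x * g y / ‖x - y‖ = g x * Gp g x := by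
  unfold Gp
  rw [← integral_const_mul]
  congr 1
  ext y
  rw [norm_sub_rev]
  ring

/-! ### lower bound of the energy of points -/

include hg hc h0 in
theorem ext_lower : ∃ C : ℝ, 0 < C ∧ ∀ (κ : Type) [Fintype κ] (R : κ → E3) (K : ℝ), 1 ≤ K →
    Function.Injective R → -(C * K ^ (1 / 3 : ℝ) * Fintype.card κ) ≤ Jb K g R := by
  classical
  obtain ⟨G, hG0, hG⟩ := ext_bdd g hg hc
  have hπ := Real.pi_pos
  have hgi := ext_int g hg hc
  refine ⟨3 / 4 + 8 * Real.pi * G, by positivity, ?_⟩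
  intro κ _ R K hK hR
  have hK0 : 0 < K := by linarith
  set l : ℝ := K ^ (-(1 / 3) : ℝ) with hl
  have hl0 : 0 < l := Real.rpow_pos_of_pos hK0 _
  have hl1 : 1 / l = K ^ (1 / 3 : ℝ) := by
    rw [hl, Real.rpow_neg hK0.le, one_div, inv_inv]
  have hl2 : K * l ^ 2 = K ^ (1 / 3 : ℝ) := by
    have h1 : l ^ 2 = K ^ (-(2 / 3) : ℝ) := by
      rw [hl, ← Real.rpow_natCast, ← Real.rpow_mul hK0.le]
      norm_num
    rw [h1]
    nth_rewrite 1 [← Real.rpow_one K]
    rw [← Real.rpow_add hK0]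
    norm_num
  -- positive definiteness
  have hN : Nice (fun x => K * g x) := by
    refine ⟨hg.measurable.const_mul K, fun x => mul_nonneg hK0.le (h0 x), ⟨K * G, fun x => ?_⟩,
      hgi.const_mul K⟩
    exact mul_le_mul_of_nonneg_left (hG x) hK0.le
  have hpd := pd_points l hl0 R (fun x => K * g x) hN
  have hFm : ∀ y : E3, Measurable (fun x : E3 => g x * Fk l ‖y - x‖) := by
    intro y
    have h1 : Measurable (fun x : E3 => ‖y - x‖) := by fun_prop
    exact hg.measurable.mul ((ext_Fk_meas l).comp h1)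
  have hne : ∀ y : E3, ∀ᵐ x : E3, x ≠ y := fun y => by
    rw [ae_iff]
    simp
  have hFi : ∀ y : E3, Integrable (fun x => g x * Fk l ‖y - x‖) := by
    intro y
    refine (ext_pot_int g hg hc h0 y).mono' (hFm y).aestronglyMeasurable ?_
    filter_upwards [hne y] with x hx
    have ht : 0 < ‖y - x‖ := norm_pos_iff.2 (sub_ne_zero.2 (Ne.symm hx))
    rw [Real.norm_eq_abs, abs_of_nonneg (mul_nonneg (h0 x) (ext_Fk_nonneg l _ hl0 ht.le)),
      norm_sub_rev x y, div_eq_mul_one_div]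
    exact mul_le_mul_of_nonneg_left (ext_Fk_le l _ ht) (h0 x)
  -- 1. points
  have e1 : 1 / 2 * ∑ i, ∑ j, Fk l ‖R i - R j‖ - 3 / 4 * K ^ (1 / 3 : ℝ) * Fintype.card κ ≤
      1 / 2 * ∑ i, ∑ j, 1 / ‖R i - R j‖ := by
    have h1 : ∀ i, ∑ j, Fk l ‖R i - R j‖ ≤ ∑ j, 1 / ‖R i - R j‖ + 3 / (2 * l) := by
      intro i
      rw [← Finset.add_sum_erase _ _ (Finset.mem_univ i),
        ← Finset.add_sum_erase (a := i) _ (fun j => 1 / ‖R i - R j‖) (Finset.mem_univ i)]
      have h2 : ∑ j ∈ Finset.univ.erase i, Fk l ‖R i - R j‖ ≤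
          ∑ j ∈ Finset.univ.erase i, 1 / ‖R i - R j‖ := by
        apply Finset.sum_le_sum
        intro j hj
        apply ext_Fk_le
        rw [norm_pos_iff, sub_ne_zero]
        intro h
        exact (Finset.mem_erase.1 hj).1 (hR h).symm
      rw [sub_self, norm_zero, ext_Fk_zero, div_zero]
      linarith
    have h2 := Finset.sum_le_sum (fun i (_ : i ∈ Finset.univ) => h1 i)
    rw [Finset.sum_add_distrib, Finset.sum_const, Finset.card_univ, nsmul_eq_mul] at h2
    have h3 : (3 : ℝ) / (2 * l) = 3 / 2 * K ^ (1 / 3 : ℝ) := by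
      rw [← hl1]
      field_simp
    rw [h3] at h2
    linarith
  -- 2. attraction
  have e2 : ∀ j, K * Gp g (R j) ≤ (∫ y, K * g y * Fk l ‖R j - y‖) +
      8 * Real.pi * G * K ^ (1 / 3 : ℝ) := by
    intro j
    have h1 : Integrable (fun x => (ball (R j) (2 * l)).indicator
        (fun x => G * (1 / ‖x - R j‖)) x) := by
      rw [integrable_indicator_iff measurableSet_ball]
      exact (integrableOn_inv (R j) (R j) (2 * l)).const_mul G
    have h2 : Gp g (R j) ≤ ∫ x, (g x * Fk l ‖R j - x‖ + (ball (R j) (2 * l)).indicator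
        (fun x => G * (1 / ‖x - R j‖)) x) := by
      unfold Gp
      apply integral_mono_ae (ext_pot_int g hg hc h0 (R j)) ((hFi (R j)).add h1)
      filter_upwards [hne (R j)] with x hx
      have ht : 0 < ‖R j - x‖ := norm_pos_iff.2 (sub_ne_zero.2 (Ne.symm hx))
      change g x / ‖x - R j‖ ≤ g x * Fk l ‖R j - x‖ + (ball (R j) (2 * l)).indicator
        (fun x => G * (1 / ‖x - R j‖)) x
      have hsp : g x / ‖x - R j‖ = g x * Fk l ‖R j - x‖ + g x * (hker l ‖R j - x‖ / ‖R j - x‖) := by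
        rw [norm_sub_rev x (R j), div_eq_mul_one_div, ext_split l _ ht, mul_add]
      rw [hsp]
      apply add_le_add le_rfl
      by_cases hx2 : x ∈ ball (R j) (2 * l)
      · rw [Set.indicator_of_mem hx2]
        have h3 := ext_hker_le l _ hl0 ht.le
        rw [norm_sub_rev x (R j)]
        apply mul_le_mul (hG x) _ (div_nonneg (ext_hker_nonneg l _) ht.le) hG0.le
        exact div_le_div_of_nonneg_right h3 ht.le
      · rw [Set.indicator_of_notMem hx2]
        rw [mem_ball, dist_eq_norm, not_lt, norm_sub_rev] at hx2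
        rw [ext_hker_zero l _ hl0 hx2, zero_div, mul_zero]
    rw [integral_add (hFi (R j)) h1, integral_indicator measurableSet_ball, integral_const_mul,
      int_inv (R j) (2 * l) (by positivity)] at h2
    have h3 : ∫ y, K * g y * Fk l ‖R j - y‖ = K * ∫ y, g y * Fk l ‖R j - y‖ := by
      rw [← integral_const_mul]
      congr 1
      ext y
      ring
    rw [h3, ← hl2]
    nlinarith
  -- 3. self energy of the background
  have e3 : 1 / 2 * (∫ x, ∫ y, K * g x * (K * g y) * Fk l ‖x - y‖) ≤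
      K ^ 2 / 2 * (∫ x, ∫ y, g x * g y / ‖x - y‖) := by
    have h1 : ∫ x, ∫ y, K * g x * (K * g y) * Fk l ‖x - y‖ =
        K ^ 2 * ∫ x, g x * ∫ y, g y * Fk l ‖x - y‖ := by
      rw [← integral_const_mul]
      congr 1
      ext x
      rw [← integral_const_mul, ← integral_const_mul]
      congr 1
      ext y
      ring
    have h2 : ∫ x, ∫ y, g x * g y / ‖x - y‖ = ∫ x, g x * Gp g x := by
      congr 1
      ext x
      exact ext_inner g x
    rw [h1, h2]
    have h3 : ∫ x, g x * ∫ y, g y * Fk l ‖x - y‖ ≤ ∫ x, g x * Gp g x := by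
      apply integral_mono_of_nonneg
      · exact Eventually.of_forall fun x => mul_nonneg (h0 x) (integral_nonneg fun y =>
          mul_nonneg (h0 y) (ext_Fk_nonneg l _ hl0 (norm_nonneg _)))
      · exact ext_double_int g hg hc h0
      · refine Eventually.of_forall fun x => ?_
        apply mul_le_mul_of_nonneg_left _ (h0 x)
        unfold Gp
        apply integral_mono_ae (hFi x) (ext_pot_int g hg hc h0 x)
        filter_upwards [hne x] with y hy
        have ht : 0 < ‖x - y‖ := norm_pos_iff.2 (sub_ne_zero.2 (Ne.symm hy))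
        rw [norm_sub_rev y x, div_eq_mul_one_div]
        exact mul_le_mul_of_nonneg_left (ext_Fk_le l _ ht) (h0 y)
    have := mul_le_mul_of_nonneg_left h3 (sq_nonneg K)
    linarith
  have e4 := Finset.sum_le_sum (fun j (_ : j ∈ Finset.univ) => e2 j)
  rw [Finset.sum_add_distrib, Finset.sum_const, Finset.card_univ, nsmul_eq_mul,
    ← Finset.mul_sum] at e4
  unfold Jb
  have e5 : ∑ j, ∫ x, g x / ‖x - R j‖ = ∑ j, Gp g (R j) := rfl
  rw [e5]
  nlinarith

/-! ### adding far away points -/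

theorem ext_unit : ∃ ev : E3, ‖ev‖ = 1 :=
  ⟨EuclideanSpace.single 0 (1 : ℝ), by rw [EuclideanSpace.norm_single, norm_one]⟩

theorem ext_points (κ : Type) [Fintype κ] (R : κ → E3) (ρ : ℝ) (hρ0 : 0 < ρ) (N : ℕ) :
    ∃ p : Fin N → E3, (∀ m m', m ≠ m' → ρ ≤ ‖p m - p m'‖) ∧ ∀ m i, ρ ≤ ‖R i - p m‖ := by
  obtain ⟨B, hB0, hRB⟩ : ∃ B : ℝ, 0 ≤ B ∧ ∀ i, ‖R i‖ ≤ B := by
    refine ⟨∑ i, ‖R i‖, Finset.sum_nonneg fun i _ => norm_nonneg _, fun i => ?_⟩
    exact Finset.single_le_sum (f := fun i => ‖R i‖) (fun i _ => norm_nonneg _)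
      (Finset.mem_univ i)
  obtain ⟨ev, hev1⟩ := ext_unit
  have hpn : ∀ m : Fin N, ‖(B + ρ * (m.1 + 1)) • ev‖ = B + ρ * (m.1 + 1) := by
    intro m
    have h : 0 ≤ B + ρ * ((m.1 : ℝ) + 1) := by positivity
    rw [norm_smul, hev1, mul_one, Real.norm_eq_abs, abs_of_nonneg h]
  refine ⟨fun m => (B + ρ * (m.1 + 1)) • ev, ?_, ?_⟩
  · intro m m' hmm
    have h1 : (B + ρ * ((m.1 : ℝ) + 1)) • ev - (B + ρ * ((m'.1 : ℝ) + 1)) • ev =
        (ρ * ((m.1 : ℝ) - m'.1)) • ev := by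
      rw [← sub_smul]
      congr 1
      ring
    have h2 : (1 : ℝ) ≤ |(m.1 : ℝ) - m'.1| := by
      have h3 : (1 : ℤ) ≤ |(m.1 : ℤ) - m'.1| := by
        apply Int.one_le_abs
        intro h
        apply hmm
        ext
        omega
      exact_mod_cast h3
    simp only
    rw [h1, norm_smul, hev1, mul_one, Real.norm_eq_abs, abs_mul, abs_of_pos hρ0]
    nlinarith
  · intro m i
    have h1 : ‖(B + ρ * ((m.1 : ℝ) + 1)) • ev‖ - ‖R i‖ ≤
        ‖R i - (B + ρ * ((m.1 : ℝ) + 1)) • ev‖ := by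
      rw [norm_sub_rev]
      exact norm_sub_norm_le _ _
    rw [hpn m] at h1
    have h2 := hRB i
    have h3 : ρ ≤ ρ * ((m.1 : ℝ) + 1) := by
      have : (0 : ℝ) ≤ m.1 := Nat.cast_nonneg _
      nlinarith
    simp only
    linarith

include hg hc h0 in
theorem ext_far (K : ℕ) (hK : 1 ≤ K) (κ : Type) [Fintype κ] (R : κ → E3)
    (hR : Function.Injective R) (hcard : Fintype.card κ ≤ K) :
    ∃ R' : Fin K → E3, Function.Injective R' ∧ Jb K g R' ≤ Jb K g R + 1 := by
  classical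
  obtain ⟨n, hn⟩ : ∃ n, n = Fintype.card κ := ⟨_, rfl⟩
  rw [← hn] at hcard
  have hKr : (1 : ℝ) ≤ K := by exact_mod_cast hK
  obtain ⟨ρ, hρ⟩ : ∃ ρ : ℝ, ρ = (K : ℝ) ^ 2 := ⟨_, rfl⟩
  have hρ0 : 0 < ρ := by rw [hρ]; positivity
  obtain ⟨p, hpp, hpR⟩ := ext_points κ R ρ hρ0 (K - n)
  set Q : κ ⊕ Fin (K - n) → E3 := Sum.elim R p with hQ
  have hQinj : Function.Injective Q := by
    rintro (i | m) (j | m') h
    · simp only [hQ, Sum.elim_inl] at h
      rw [hR h]
    · exfalso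
      simp only [hQ, Sum.elim_inl, Sum.elim_inr] at h
      have := hpR m' i
      rw [h, sub_self, norm_zero] at this
      linarith
    · exfalso
      simp only [hQ, Sum.elim_inl, Sum.elim_inr] at h
      have := hpR m j
      rw [← h, sub_self, norm_zero] at this
      linarith
    · simp only [hQ, Sum.elim_inr] at h
      by_contra h1
      have h2 : m ≠ m' := fun h3 => h1 (by rw [h3])
      have := hpp m m' h2
      rw [h, sub_self, norm_zero] at this
      linarith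
  have hc' : Fintype.card (Fin K) = Fintype.card (κ ⊕ Fin (K - n)) := by
    rw [Fintype.card_sum, Fintype.card_fin, Fintype.card_fin, ← hn]
    exact (Nat.add_sub_of_le hcard).symm
  set E := Fintype.equivOfCardEq hc' with hE
  refine ⟨Q ∘ E, hQinj.comp E.injective, ?_⟩
  have hre : Jb K g (Q ∘ E) = Jb K g Q := by
    unfold Jb
    have h1 : ∑ i : Fin K, ∑ j : Fin K, 1 / ‖(Q ∘ E) i - (Q ∘ E) j‖ =
        ∑ i, ∑ j, 1 / ‖Q i - Q j‖ := by
      rw [← E.sum_comp (fun i => ∑ j, 1 / ‖Q i - Q j‖)]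
      apply Finset.sum_congr rfl
      intro i _
      rw [← E.sum_comp (fun j => 1 / ‖Q (E i) - Q j‖)]
      rfl
    have h2 : ∑ j : Fin K, ∫ x, g x / ‖x - (Q ∘ E) j‖ = ∑ j, ∫ x, g x / ‖x - Q j‖ :=
      E.sum_comp (fun j => ∫ x, g x / ‖x - Q j‖)
    rw [h1, h2]
  rw [hre]
  unfold Jb
  rw [Fintype.sum_sum_type, Fintype.sum_sum_type (fun j => ∫ x, g x / ‖x - Q j‖)]
  simp only [Fintype.sum_sum_type, hQ, Sum.elim_inl, Sum.elim_inr]
  rw [Finset.sum_add_distrib, Finset.sum_add_distrib]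
  have hT : (0 : ℝ) ≤ ∑ m, ∫ x, g x / ‖x - p m‖ :=
    Finset.sum_nonneg fun m _ => ext_Gp_nonneg g h0 (p m)
  have hnr : (Fintype.card κ : ℝ) = n := by rw [hn]
  have hm1 : ∑ i : κ, ∑ m : Fin (K - n), 1 / ‖R i - p m‖ ≤ n * ((K - n : ℕ) : ℝ) / ρ := by
    have : ∑ i : κ, ∑ m : Fin (K - n), 1 / ‖R i - p m‖ ≤ ∑ i : κ, ∑ m : Fin (K - n), 1 / ρ := by
      apply Finset.sum_le_sum; intro i _
      apply Finset.sum_le_sum; intro m _
      exact one_div_le_one_div_of_le hρ0 (hpR m i)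
    refine this.trans (le_of_eq ?_)
    simp only [Finset.sum_const, Finset.card_univ, nsmul_eq_mul, Fintype.card_fin, hnr]
    ring
  have hm2 : ∑ m : Fin (K - n), ∑ i : κ, 1 / ‖p m - R i‖ ≤ n * ((K - n : ℕ) : ℝ) / ρ := by
    have : ∑ m : Fin (K - n), ∑ i : κ, 1 / ‖p m - R i‖ ≤ ∑ m : Fin (K - n), ∑ i : κ, 1 / ρ := by
      apply Finset.sum_le_sum; intro m _
      apply Finset.sum_le_sum; intro i _
      rw [norm_sub_rev]
      exact one_div_le_one_div_of_le hρ0 (hpR m i)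
    refine this.trans (le_of_eq ?_)
    simp only [Finset.sum_const, Finset.card_univ, nsmul_eq_mul, Fintype.card_fin, hnr]
    ring
  have hm3 : ∑ m : Fin (K - n), ∑ m' : Fin (K - n), 1 / ‖p m - p m'‖ ≤
      ((K - n : ℕ) : ℝ) * ((K - n : ℕ) : ℝ) / ρ := by
    have : ∑ m : Fin (K - n), ∑ m' : Fin (K - n), 1 / ‖p m - p m'‖ ≤
        ∑ m : Fin (K - n), ∑ m' : Fin (K - n), 1 / ρ := by
      apply Finset.sum_le_sum; intro m _
      apply Finset.sum_le_sum; intro m' _
      by_cases h : m = m'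
      · subst h
        rw [sub_self, norm_zero, div_zero]
        positivity
      · exact one_div_le_one_div_of_le hρ0 (hpp m m' h)
    refine this.trans (le_of_eq ?_)
    simp only [Finset.sum_const, Finset.card_univ, nsmul_eq_mul, Fintype.card_fin, hnr]
    ring
  have hKn : (n : ℝ) + ((K - n : ℕ) : ℝ) = K := by
    rw [← Nat.cast_add, Nat.add_sub_of_le hcard]
  set d : ℝ := ((K - n : ℕ) : ℝ) with hd
  have hd0 : 0 ≤ d := Nat.cast_nonneg _
  have hn0 : (0 : ℝ) ≤ n := Nat.cast_nonneg _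
  have hs : n * d / ρ + n * d / ρ + d * d / ρ ≤ 1 := by
    rw [← add_div, ← add_div, div_le_one hρ0, hρ, ← hKn]
    nlinarith
  have hKT : 0 ≤ (K : ℝ) * ∑ m, ∫ x, g x / ‖x - p m‖ := mul_nonneg (by linarith) hT
  rw [mul_add (K : ℝ)]
  linarith

end pot

/-! ### sums over the present points -/

theorem ext_sub_sum {M : ℕ} (a : Fin M → ℝ) (ha : ∀ i, a i = 0 ∨ a i = 1) (F : Fin M → ℝ) :
    ∑ i, a i * F i = ∑ i : {i // a i = 1}, F i.1 := by
  classical
  have h1 : ∑ i, a i * F i = ∑ i ∈ Finset.univ.filter (fun i => a i = 1), F i := by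
    rw [Finset.sum_filter]
    apply Finset.sum_congr rfl
    intro i _
    rcases ha i with h | h <;> simp [h]
  rw [h1]
  exact Finset.sum_subtype _ (by simp) F

theorem ext_sub_sum2 {M : ℕ} (a : Fin M → ℝ) (ha : ∀ i, a i = 0 ∨ a i = 1)
    (F : Fin M → Fin M → ℝ) :
    ∑ i, ∑ j, a i * a j * F i j = ∑ i : {i // a i = 1}, ∑ j : {i // a i = 1}, F i.1 j.1 := by
  have h1 : ∀ i, ∑ j, a i * a j * F i j = a i * ∑ j : {i // a i = 1}, F i j.1 := by
    intro i
    rw [← ext_sub_sum a ha (F i), Finset.mul_sum]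
    apply Finset.sum_congr rfl
    intro j _
    ring
  simp_rw [h1]
  exact ext_sub_sum a ha _

/-! ### expectations -/

theorem ext_expect {I : E3 → ℝ} (hI : Nice I) (l : Law I) (f : E3 → ℝ) (hf : Measurable f)
    (hf0 : ∀ x, 0 ≤ f x) (B : ℝ) (hB : ∀ x, f x ≤ B) :
    letI := l.mΩ
    Integrable (fun ω => ∑ i, l.a ω i * f (l.X ω i)) l.P ∧
      ∫ ω, ∑ i, l.a ω i * f (l.X ω i) ∂l.P = ∫ x, I x * f x := by
  letI := l.mΩ
  haveI := l.prob
  have hai : ∀ i, Measurable fun ω => l.a ω i := fun i => (measurable_pi_apply i).comp l.ha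
  have hXi : ∀ i, Measurable fun ω => l.X ω i := fun i => (measurable_pi_apply i).comp l.hX
  have ha0 : ∀ ω i, 0 ≤ l.a ω i := by
    intro ω i
    rcases l.ha01 ω i with h | h <;> simp [h]
  have hmeas : Measurable (fun ω => ∑ i, l.a ω i * f (l.X ω i)) :=
    Finset.measurable_sum _ fun i _ => (hai i).mul (hf.comp (hXi i))
  have hnn : ∀ ω, 0 ≤ ∑ i, l.a ω i * f (l.X ω i) := fun ω =>
    Finset.sum_nonneg fun i _ => mul_nonneg (ha0 ω i) (hf0 _)
  constructor
  · refine Integrable.mono' (integrable_const (∑ _i : Fin l.M, B)) hmeas.aestronglyMeasurable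
      (Eventually.of_forall fun ω => ?_)
    rw [Real.norm_eq_abs, abs_of_nonneg (hnn ω)]
    apply Finset.sum_le_sum
    intro i _
    have hB0 : 0 ≤ B := (hf0 _).trans (hB (l.X ω i))
    rcases l.ha01 ω i with h | h
    · rw [h, zero_mul]
      exact hB0
    · rw [h, one_mul]
      exact hB _
  · rw [integral_eq_lintegral_of_nonneg_ae (Eventually.of_forall hnn) hmeas.aestronglyMeasurable,
      integral_eq_lintegral_of_nonneg_ae
        (Eventually.of_forall fun x => mul_nonneg (hI.nonneg x) (hf0 x))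
        (hI.meas.mul hf).aestronglyMeasurable]
    congr 1
    have h1 := l.intensity (fun x => ENNReal.ofReal (f x)) hf.ennreal_ofReal
    have h2 : ∫⁻ ω, ENNReal.ofReal (∑ i, l.a ω i * f (l.X ω i)) ∂l.P =
        ∫⁻ ω, ∑ i, ENNReal.ofReal (l.a ω i) * ENNReal.ofReal (f (l.X ω i)) ∂l.P := by
      apply lintegral_congr
      intro ω
      rw [ENNReal.ofReal_sum_of_nonneg fun i _ => mul_nonneg (ha0 ω i) (hf0 _)]
      apply Finset.sum_congr rfl
      intro i _
      rw [ENNReal.ofReal_mul (ha0 ω i)]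
    rw [h2, h1]
    apply lintegral_congr
    intro x
    rw [ENNReal.ofReal_mul (hI.nonneg x)]

theorem extract (g : E3 → ℝ) (hg : Continuous g) (hc : HasCompactSupport g)
    (h0 : ∀ x, 0 ≤ g x) (h1 : ∫ x, g x = 1) : ∃ C : ℝ, 0 < C ∧
    ∀ (K : ℕ) (θ e v : ℝ), 1 ≤ K → 0 < θ → θ < 1 → e ≤ 0 → 0 ≤ v →
      2 * v ≤ (θ * K) ^ 2 → HasLaw (fun x => (1 - θ) * K * g x) e v →
      ∃ R : Fin K → E3, Function.Injective R ∧
        Jb K g R ≤ e + C * (θ ^ 2 * (K : ℝ) ^ 2 + (K : ℝ) ^ (-(2 / 3) : ℝ) * v / θ ^ 2 + 1) := by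
  classical
  obtain ⟨G, hG0, hG⟩ := ext_bdd g hg hc
  obtain ⟨B, hB0, hB⟩ := ext_Gp_le g hg hc h0
  obtain ⟨CA, hCA0, hCA⟩ := ext_lower g hg hc h0
  have hgi := ext_int g hg hc
  obtain ⟨D, hD⟩ : ∃ D : ℝ, D = ∫ x, g x * Gp g x := ⟨_, rfl⟩
  have hD0 : 0 ≤ D := by
    rw [hD]
    exact integral_nonneg fun x => mul_nonneg (h0 x) (ext_Gp_nonneg g h0 x)
  have hDD : ∫ x, ∫ y, g x * g y / ‖x - y‖ = D := by
    rw [hD]
    congr 1
    ext x
    exact ext_inner g x
  refine ⟨D + 4 * CA + 1, by positivity, ?_⟩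
  intro K θ e v hK hθ0 hθ1 he hv hvK hl
  obtain ⟨l, hen, hvar⟩ := hl
  letI := l.mΩ
  haveI := l.prob
  have hKr : (1 : ℝ) ≤ K := by exact_mod_cast hK
  have hK0 : (0 : ℝ) < K := by linarith
  obtain ⟨m, hm⟩ : ∃ m : ℝ, m = (1 - θ) * K := ⟨_, rfl⟩
  have hm0 : 0 < m := by
    rw [hm]
    have : 0 < 1 - θ := by linarith
    positivity
  have hmK : m ≤ K := by
    rw [hm]
    nlinarith
  have hI : Nice (fun x => (1 - θ) * K * g x) := by
    rw [← hm]
    exact ⟨hg.measurable.const_mul m, fun x => mul_nonneg hm0.le (h0 x),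
      ⟨m * G, fun x => mul_le_mul_of_nonneg_left (hG x) hm0.le⟩, hgi.const_mul m⟩
  have hIint : ∫ x, (1 - θ) * K * g x = m := by
    rw [integral_const_mul, h1, mul_one, hm]
  -- the number of points
  obtain ⟨hni, hne⟩ := ext_expect hI l (fun _ => 1) measurable_const (fun _ => zero_le_one) 1
    (fun _ => le_rfl)
  simp only [mul_one] at hni hne
  rw [hIint] at hne
  -- the potential
  obtain ⟨hpi, hpe⟩ := ext_expect hI l (Gp g) (ext_Gp_meas g hg) (ext_Gp_nonneg g h0) B hB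
  have hpe' : ∫ ω, ∑ i, l.a ω i * Gp g (l.X ω i) ∂l.P = m * D := by
    rw [hpe, hD, ← integral_const_mul, hm]
    congr 1
    ext x
    ring
  obtain ⟨num, hnum⟩ : ∃ num : l.Ω → ℝ, num = fun ω => ∑ i, l.a ω i := ⟨_, rfl⟩
  obtain ⟨W, hW⟩ : ∃ W : l.Ω → ℝ, W = fun ω => ∑ i, ∑ j, l.a ω i * l.a ω j /
    ‖l.X ω i - l.X ω j‖ := ⟨_, rfl⟩
  obtain ⟨Pt, hPt⟩ : ∃ Pt : l.Ω → ℝ, Pt = fun ω => ∑ i, l.a ω i * Gp g (l.X ω i) := ⟨_, rfl⟩
  have hWi : Integrable W l.P := by rw [hW]; exact l.integ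
  rw [← hPt] at hpi hpe'
  rw [← hnum] at hni hne
  have hnm : Measurable num := by
    rw [hnum]
    exact Finset.measurable_sum _ fun i _ => (measurable_pi_apply i).comp l.ha
  have hn0 : ∀ ω, 0 ≤ num ω := by
    intro ω
    rw [hnum]
    apply Finset.sum_nonneg
    intro i _
    rcases l.ha01 ω i with h | h <;> simp [h]
  have hnM : ∀ ω, num ω ≤ l.M := by
    intro ω
    rw [hnum]
    have : ∑ i, l.a ω i ≤ ∑ _i : Fin l.M, (1 : ℝ) := by
      apply Finset.sum_le_sum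
      intro i _
      rcases l.ha01 ω i with h | h <;> simp [h]
    simpa using this
  -- the variance
  have hSi : Integrable (fun ω => (num ω - m) ^ 2) l.P := by
    refine Integrable.mono' (integrable_const (((l.M : ℝ) + m) ^ 2))
      ((hnm.sub_const m).pow_const 2).aestronglyMeasurable (Eventually.of_forall fun ω => ?_)
    rw [Real.norm_eq_abs, abs_of_nonneg (sq_nonneg _)]
    have h2 := hn0 ω
    have h3 := hnM ω
    apply sq_le_sq'
    · linarith
    · linarith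
  have hS : ∫ ω, (num ω - m) ^ 2 ∂l.P ≤ v := by
    have : l.var = ∫ ω, (num ω - m) ^ 2 ∂l.P := by
      unfold Law.var
      rw [hIint, hnum]
    rw [← this]
    exact hvar
  have hS0 : 0 ≤ ∫ ω, (num ω - m) ^ 2 ∂l.P := integral_nonneg fun ω => sq_nonneg _
  -- the energy
  obtain ⟨J, hJ⟩ : ∃ J : l.Ω → ℝ, J = fun ω => 1 / 2 * W ω - K * Pt ω + (K : ℝ) ^ 2 / 2 * D :=
    ⟨_, rfl⟩
  have hJi : Integrable J l.P := by
    rw [hJ]
    exact ((hWi.const_mul _).sub (hpi.const_mul _)).add (integrable_const _)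
  have hJe : ∫ ω, J ω ∂l.P ≤ e + θ ^ 2 * (K : ℝ) ^ 2 * D / 2 := by
    have h2 : ∫ ω, J ω ∂l.P = 1 / 2 * (∫ ω, W ω ∂l.P) - K * (m * D) + (K : ℝ) ^ 2 / 2 * D := by
      have e1 : ∫ ω, J ω ∂l.P = (∫ ω, (1 / 2 * W ω - K * Pt ω) ∂l.P) +
          ∫ _ω, (K : ℝ) ^ 2 / 2 * D ∂l.P := by
        rw [hJ]
        exact integral_add ((hWi.const_mul _).sub (hpi.const_mul _)) (integrable_const _)
      have e2 : ∫ ω, (1 / 2 * W ω - K * Pt ω) ∂l.P = (∫ ω, 1 / 2 * W ω ∂l.P) -
          ∫ ω, K * Pt ω ∂l.P := integral_sub (hWi.const_mul _) (hpi.const_mul _)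
      rw [e1, e2, integral_const_mul, integral_const_mul, hpe', integral_const]
      simp
    have h3 : l.en = 1 / 2 * (∫ ω, W ω ∂l.P) - 1 / 2 * (m ^ 2 * D) := by
      have e1 : ∫ x, ∫ y, ((1 - θ) * K * g x) * ((1 - θ) * K * g y) / ‖x - y‖ = m ^ 2 * D := by
        rw [← hDD, ← integral_const_mul]
        congr 1
        ext x
        rw [← integral_const_mul]
        congr 1
        ext y
        rw [hm]
        ring
      unfold Law.en
      rw [hW, e1]
    rw [h3] at hen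
    rw [h2]
    have h4 : θ ^ 2 * (K : ℝ) ^ 2 * D / 2 =
        1 / 2 * (m ^ 2 * D) - K * (m * D) + (K : ℝ) ^ 2 / 2 * D := by
      rw [hm]
      ring
    rw [h4]
    linarith
  -- the energy of a configuration
  have hJb : ∀ ω, J ω = Jb K g (fun i : {i // l.a ω i = 1} => l.X ω i.1) := by
    intro ω
    rw [hJ]
    unfold Jb
    rw [hDD]
    have h2 : W ω = ∑ i : {i // l.a ω i = 1}, ∑ j : {i // l.a ω i = 1},
        1 / ‖l.X ω i.1 - l.X ω j.1‖ := by
      rw [← ext_sub_sum2 (l.a ω) (l.ha01 ω) (fun i j => 1 / ‖l.X ω i - l.X ω j‖), hW]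
      simp only [mul_one_div]
    have h3 : Pt ω = ∑ j : {i // l.a ω i = 1}, ∫ x, g x / ‖x - l.X ω j.1‖ := by
      rw [hPt]
      exact ext_sub_sum (l.a ω) (l.ha01 ω) (fun i => Gp g (l.X ω i))
    simp only [h2, h3]
  have hcardn : ∀ ω, (Fintype.card {i // l.a ω i = 1} : ℝ) = num ω := by
    intro ω
    have h2 := ext_sub_sum (l.a ω) (l.ha01 ω) (fun _ => 1)
    simp only [mul_one, Finset.sum_const, Finset.card_univ, nsmul_eq_mul] at h2
    rw [hnum]
    exact h2.symm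
  have hinj : ∀ᵐ ω ∂l.P, Function.Injective (fun i : {i // l.a ω i = 1} => l.X ω i.1) := by
    filter_upwards [l.distinct] with ω hω
    intro i j hij
    by_contra h
    exact hω i.1 j.1 (fun h' => h (Subtype.ext h')) i.2 j.2 hij
  have hlow : ∀ᵐ ω ∂l.P, -(CA * (K : ℝ) ^ (1 / 3 : ℝ) * num ω) ≤ J ω := by
    filter_upwards [hinj] with ω hω
    rw [hJb ω, ← hcardn ω]
    exact hCA _ _ K hKr hω
  -- the good event
  obtain ⟨Gd, hGd⟩ : ∃ Gd : Set l.Ω, Gd = {ω | num ω ≤ K} := ⟨_, rfl⟩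
  have hGm : MeasurableSet Gd := by
    rw [hGd]
    exact measurableSet_le hnm measurable_const
  have hθK : 0 < θ * K := by positivity
  have hbad : ∀ ω ∈ Gdᶜ, θ * K ≤ num ω - m := by
    intro ω hω
    rw [hGd, Set.mem_compl_iff, Set.mem_ofPred_eq, not_le] at hω
    rw [hm]
    linarith
  have hPb : l.P.real Gdᶜ ≤ v / (θ * K) ^ 2 := by
    have h2 : l.P.real Gdᶜ = ∫ ω in Gdᶜ, (1 : ℝ) ∂l.P := by simp
    have h3 : ∫ ω in Gdᶜ, (1 : ℝ) ∂l.P ≤ ∫ ω in Gdᶜ, 1 / (θ * K) ^ 2 * (num ω - m) ^ 2 ∂l.P := by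
      apply setIntegral_mono_on (integrable_const _).integrableOn
        (hSi.const_mul _).integrableOn hGm.compl
      intro ω hω
      have h4 := pow_le_pow_left₀ hθK.le (hbad ω hω) 2
      rw [one_div, inv_mul_eq_div, le_div_iff₀ (by positivity), one_mul]
      exact h4
    have h5 : ∫ ω in Gdᶜ, 1 / (θ * K) ^ 2 * (num ω - m) ^ 2 ∂l.P ≤
        ∫ ω, 1 / (θ * K) ^ 2 * (num ω - m) ^ 2 ∂l.P :=
      setIntegral_le_integral (hSi.const_mul _) (Eventually.of_forall fun ω => by positivity)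
    have h6 : ∫ ω, 1 / (θ * K) ^ 2 * (num ω - m) ^ 2 ∂l.P =
        1 / (θ * K) ^ 2 * ∫ ω, (num ω - m) ^ 2 ∂l.P := integral_const_mul _ _
    rw [h2]
    refine h3.trans (h5.trans (h6.le.trans ?_))
    rw [one_div, inv_mul_eq_div]
    exact div_le_div_of_nonneg_right hS (by positivity)
  have hPb2 : l.P.real Gdᶜ ≤ 1 / 2 := by
    refine hPb.trans ?_
    rw [div_le_iff₀ (by positivity)]
    linarith
  have hPg : 1 / 2 ≤ l.P.real Gd := by
    have h2 := probReal_add_probReal_compl (μ := l.P) hGm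
    linarith
  have hPg1 : l.P.real Gd ≤ 1 := measureReal_le_one
  -- the bad event
  have hnb : ∫ ω in Gdᶜ, num ω ∂l.P ≤ 2 * v / (θ ^ 2 * K) := by
    have h3 : ∫ ω in Gdᶜ, num ω ∂l.P ≤
        ∫ ω in Gdᶜ, 2 / (θ ^ 2 * K) * (num ω - m) ^ 2 ∂l.P := by
      apply setIntegral_mono_on hni.integrableOn (hSi.const_mul _).integrableOn hGm.compl
      intro ω hω
      have h4 := hbad ω hω
      obtain ⟨y, hy⟩ : ∃ y : ℝ, y = num ω - m := ⟨_, rfl⟩
      rw [← hy] at h4 ⊢
      have h5 : num ω = y + m := by rw [hy]; ring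
      have h6 : y ≤ y ^ 2 / (θ * K) := by
        rw [le_div_iff₀ hθK]
        nlinarith
      have h7 : m ≤ K * (y ^ 2 / (θ * K) ^ 2) := by
        have h8 : 1 ≤ y ^ 2 / (θ * K) ^ 2 := by
          rw [le_div_iff₀ (by positivity), one_mul]
          exact pow_le_pow_left₀ hθK.le h4 2
        nlinarith
      have h9 : y ^ 2 / (θ * K) ≤ y ^ 2 / (θ ^ 2 * K) := by
        apply div_le_div_of_nonneg_left (sq_nonneg y) (by positivity)
        nlinarith
      have h10 : K * (y ^ 2 / (θ * K) ^ 2) = y ^ 2 / (θ ^ 2 * K) := by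
        field_simp
      have h11 : 2 / (θ ^ 2 * K) * y ^ 2 = y ^ 2 / (θ ^ 2 * K) + y ^ 2 / (θ ^ 2 * K) := by
        ring
      rw [h5, h11]
      rw [h10] at h7
      linarith
    have h5 : ∫ ω in Gdᶜ, 2 / (θ ^ 2 * K) * (num ω - m) ^ 2 ∂l.P ≤
        ∫ ω, 2 / (θ ^ 2 * K) * (num ω - m) ^ 2 ∂l.P :=
      setIntegral_le_integral (hSi.const_mul _) (Eventually.of_forall fun ω => by positivity)
    have h6 : ∫ ω, 2 / (θ ^ 2 * K) * (num ω - m) ^ 2 ∂l.P =
        2 / (θ ^ 2 * K) * ∫ ω, (num ω - m) ^ 2 ∂l.P := integral_const_mul _ _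
    refine h3.trans (h5.trans (h6.le.trans ?_))
    rw [div_mul_eq_mul_div]
    apply div_le_div_of_nonneg_right _ (by positivity)
    linarith
  have hJb2 : -(CA * (K : ℝ) ^ (1 / 3 : ℝ) * (2 * v / (θ ^ 2 * K))) ≤ ∫ ω in Gdᶜ, J ω ∂l.P := by
    have h2 : ∫ ω in Gdᶜ, -(CA * (K : ℝ) ^ (1 / 3 : ℝ) * num ω) ∂l.P ≤
        ∫ ω in Gdᶜ, J ω ∂l.P := by
      apply setIntegral_mono_ae (hni.const_mul _).neg.integrableOn hJi.integrableOn hlow
    rw [integral_neg, integral_const_mul] at h2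
    refine le_trans ?_ h2
    apply neg_le_neg
    exact mul_le_mul_of_nonneg_left hnb (by positivity)
  have hpw : (K : ℝ) ^ (1 / 3 : ℝ) * (2 * v / (θ ^ 2 * K)) =
      2 * ((K : ℝ) ^ (-(2 / 3) : ℝ) * v / θ ^ 2) := by
    have h2 : (K : ℝ) ^ (1 / 3 : ℝ) = (K : ℝ) ^ (-(2 / 3) : ℝ) * K := by
      nth_rewrite 3 [← Real.rpow_one (K : ℝ)]
      rw [← Real.rpow_add hK0]
      norm_num
    rw [h2]
    field_simp
  obtain ⟨q, hq⟩ : ∃ q : ℝ, q = (K : ℝ) ^ (-(2 / 3) : ℝ) * v / θ ^ 2 := ⟨_, rfl⟩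
  have hq0 : 0 ≤ q := by rw [hq]; positivity
  rw [mul_assoc, hpw, ← hq] at hJb2
  have hsum := integral_add_compl hGm hJi
  have hJG : ∫ ω in Gd, J ω ∂l.P ≤ e + (θ ^ 2 * (K : ℝ) ^ 2 * D / 2 + 2 * CA * q) := by
    nlinarith
  -- choose a configuration
  have hres : l.P.restrict Gd ≠ 0 := by
    rw [Ne, Measure.restrict_eq_zero]
    intro h
    have : l.P.real Gd = 0 := by rw [Measure.real, h, ENNReal.toReal_zero]
    linarith
  obtain ⟨Nl, hNl⟩ : ∃ Nl : Set l.Ω, Nl = {ω | ¬ Function.Injective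
      (fun i : {i // l.a ω i = 1} => l.X ω i.1)} ∪ Gdᶜ := ⟨_, rfl⟩
  have hN0 : l.P.restrict Gd Nl = 0 := by
    rw [hNl]
    apply measure_union_null
    · have h2 : l.P {ω | ¬ Function.Injective (fun i : {i // l.a ω i = 1} => l.X ω i.1)} = 0 :=
        hinj
      exact le_antisymm ((Measure.restrict_apply_le _ _).trans (le_of_eq h2)) (by simp)
    · rw [Measure.restrict_apply hGm.compl, Set.compl_inter_self]
      simp
  obtain ⟨ω, hωN, hωJ⟩ := exists_notMem_null_le_average hres hJi.integrableOn hN0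
  rw [hNl, Set.mem_union, not_or, Set.mem_ofPred_eq, not_not, Set.notMem_compl_iff] at hωN
  obtain ⟨hω1, hω2⟩ := hωN
  have hω3 : num ω ≤ K := by rw [hGd] at hω2; exact hω2
  have hJω : J ω ≤ e + 2 * (θ ^ 2 * (K : ℝ) ^ 2 * D / 2 + 2 * CA * q) := by
    refine hωJ.trans ?_
    rw [setAverage_eq, smul_eq_mul]
    obtain ⟨x, hx⟩ : ∃ x : ℝ, x = ∫ ω in Gd, J ω ∂l.P := ⟨_, rfl⟩
    rw [← hx] at hJG ⊢
    obtain ⟨Er, hEr⟩ : ∃ Er : ℝ, Er = θ ^ 2 * (K : ℝ) ^ 2 * D / 2 + 2 * CA * q := ⟨_, rfl⟩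
    rw [← hEr] at hJG ⊢
    have hEr0 : 0 ≤ Er := by rw [hEr]; positivity
    have hPpos : 0 < l.P.real Gd := by linarith
    rw [inv_mul_le_iff₀ hPpos]
    by_cases hx0 : x ≤ 0
    · have h2 : x ≤ e + 2 * Er := by linarith
      by_cases h3 : 0 ≤ e + 2 * Er
      · nlinarith
      · push Not at h3
        nlinarith
    · push Not at hx0
      have h2 : 0 ≤ e + 2 * Er := by linarith
      nlinarith
  have hcK : Fintype.card {i // l.a ω i = 1} ≤ K := by
    have h2 := hcardn ω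
    have h3 : (Fintype.card {i // l.a ω i = 1} : ℝ) ≤ K := by rw [h2]; exact hω3
    exact_mod_cast h3
  obtain ⟨R, hRinj, hR⟩ := ext_far g hg hc h0 K hK _ _ hω1 hcK
  refine ⟨R, hRinj, hR.trans ?_⟩
  rw [← hJb ω, ← hq]
  have h2 : 0 ≤ θ ^ 2 * (K : ℝ) ^ 2 := by positivity
  nlinarith [mul_nonneg hD0 hq0, mul_nonneg hCA0.le h2]

end Pool.Agent.H5R2.NL
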