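import Mathlib
import Pool.Agent.H5R2.NL.Defs

/-!
# Trial functions in `H¹(ℝ^{3N})`: definitions
-/

set_option autoImplicit false

noncomputable section

namespace Pool.Agent.H5R2.NL

open MeasureTheory Metric
open scoped ENNReal

/-- The unit vector of `(ℝ³)^N` in the direction of the coordinate `c` of the `i`-th particle. -/
def dir {N : ℕ} (i : Fin N) (c : Fin 3) : Fin N → E3 :=
  Pi.single i (EuclideanSpace.single c (1 : ℝ))

/-- `ψ` belongs to the Sobolev space `H¹(ℝ^{3N})` and `g i c` is its weak partial derivative with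
respect to the coordinate `c` of the `i`-th particle. -/
structure IsH1 {N : ℕ} (ψ : (Fin N → E3) → ℂ) (g : Fin N → Fin 3 → (Fin N → E3) → ℂ) :
    Prop where
  memLp : MemLp ψ 2
  memLp_grad : ∀ i c, MemLp (g i c) 2
  weak : ∀ i c, ∀ φ : (Fin N → E3) → ℂ, ContDiff ℝ ((⊤ : ℕ∞) : WithTop ℕ∞) φ →
    HasCompactSupport φ → ∫ x, ψ x * fderiv ℝ φ x (dir i c) = -∫ x, g i c x * φ x

/-- The quadratic form of the Hamiltonian for `ψ ∈ H¹` with weak partial derivatives `g i c`. -/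
def formH1 {N K : ℕ} (z : ℝ) (R : Fin K → E3) (ψ : (Fin N → E3) → ℂ)
    (g : Fin N → Fin 3 → (Fin N → E3) → ℂ) : ℝ :=
  (∑ i, ∑ c, ∫ x, ‖g i c x‖ ^ 2) + (∫ x, coul z x R * ‖ψ x‖ ^ 2)

/-- The energies `⟨ψ, H_{N,R} ψ⟩` of all normalised `ψ ∈ H¹(ℝ^{3N})`, for all positions of the `K`
static particles (at different points). -/
def energiesH1 (z : ℝ) (K N : ℕ) : Set ℝ :=
  {e | ∃ R : Fin K → E3, Function.Injective R ∧ ∃ (ψ : (Fin N → E3) → ℂ)
    (g : Fin N → Fin 3 → (Fin N → E3) → ℂ), IsH1 ψ g ∧ ∫ x, ‖ψ x‖ ^ 2 = 1 ∧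
    formH1 z R ψ g = e}

/-- The ground state energy. -/
def E0H1 (z : ℝ) (K N : ℕ) : ℝ := sInf (energiesH1 z K N)

end Pool.Agent.H5R2.NL
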