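import Mathlib
import Pool.Agent.H5R2.NL.H1Defs

/-!
# Trial functions in `H¹(ℝ^{3N})`: mollification
-/

set_option autoImplicit false

noncomputable section

namespace Pool.Agent.H5R2.NL

open MeasureTheory Metric Set Filter Topology
open scoped ENNReal Convolution ContDiff

theorem h1a_neg (N : ℕ) : (volume : Measure (Fin N → E3)).IsNegInvariant :=
  Measure.pi.isNegInvariant _

/-- Jensen / Hölder on a probability measure. -/
theorem h1a_lint_sq_le {α : Type*} [MeasurableSpace α] (ν : Measure α) (hν : ν univ = 1)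
    {h : α → ℝ≥0∞} (hh : AEMeasurable h ν) :
    (∫⁻ a, h a ∂ν) ^ (2 : ℝ) ≤ ∫⁻ a, h a ^ (2 : ℝ) ∂ν := by
  have hpq : (2 : ℝ).HolderConjugate 2 := Real.HolderConjugate.two_two
  have := ENNReal.lintegral_mul_le_Lp_mul_Lq ν hpq hh (g := fun _ => 1) aemeasurable_const
  simp only [Pi.mul_apply, mul_one, ENNReal.one_rpow, lintegral_const, hν] at this
  calc (∫⁻ a, h a ∂ν) ^ (2 : ℝ) ≤ ((∫⁻ a, h a ^ (2 : ℝ) ∂ν) ^ (1 / (2 : ℝ))) ^ (2 : ℝ) :=
        ENNReal.rpow_le_rpow this (by norm_num)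
    _ = _ := by
        rw [← ENNReal.rpow_mul]
        norm_num

/-- continuity of translations in `L²`. -/
theorem h1a_transl {N : ℕ} (g : (Fin N → E3) → ℂ) (hg : MemLp g 2 volume) (η : ℝ≥0∞)
    (hη : 0 < η) :
    ∃ ε : ℝ, 0 < ε ∧ ∀ t : Fin N → E3, ‖t‖ < ε →
      eLpNorm (fun z => g (z - t) - g z) 2 volume ≤ η := by
  let G : (Fin N → E3) → C((Fin N → E3), (Fin N → E3)) := fun t => ⟨fun z => z - t, by fun_prop⟩
  have hG : Continuous G := ContinuousMap.continuous_of_continuous_uncurry _ (by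
    show Continuous fun p : (Fin N → E3) × (Fin N → E3) => p.2 - p.1
    fun_prop)
  have hmp : ∀ t, MeasurePreserving (G t) volume volume := fun t =>
    measurePreserving_sub_right volume t
  have hc : Continuous fun t => Lp.compMeasurePreserving (G t) (hmp t) (hg.toLp g) :=
    Continuous.compMeasurePreservingLp continuous_const hG hmp (by norm_num)
  have h0 := hc.tendsto 0
  rw [EMetric.tendsto_nhds] at h0
  have h1 := h0 η hη
  rw [Metric.eventually_nhds_iff] at h1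
  obtain ⟨ε, hε, h2⟩ := h1
  refine ⟨ε, hε, fun t ht => ?_⟩
  have h3 := h2 (y := t) (by rw [dist_eq_norm, sub_zero]; exact ht)
  rw [Lp.edist_def] at h3
  have hcoe : ∀ s : Fin N → E3,
      (Lp.compMeasurePreserving (G s) (hmp s) (hg.toLp g) : (Fin N → E3) → ℂ) =ᵐ[volume]
      fun z => g (z - s) := by
    intro s
    have e1 := Lp.coeFn_compMeasurePreserving (hg.toLp g) (hmp s)
    have e2 : (fun z => (hg.toLp g : (Fin N → E3) → ℂ) (G s z)) =ᵐ[volume] fun z => g (G s z) :=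
      (hmp s).quasiMeasurePreserving.ae_eq_comp hg.coeFn_toLp
    exact e1.trans e2
  have h4 : eLpNorm (fun z => g (z - t) - g z) 2 volume =
      eLpNorm ((Lp.compMeasurePreserving (G t) (hmp t) (hg.toLp g) : (Fin N → E3) → ℂ) -
        (Lp.compMeasurePreserving (G 0) (hmp 0) (hg.toLp g) : (Fin N → E3) → ℂ)) 2 volume := by
    apply eLpNorm_congr_ae
    filter_upwards [hcoe t, hcoe 0] with z h5 h6
    rw [Pi.sub_apply, h5, h6, sub_zero]
  rw [h4]
  exact h3.le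

theorem h1a_moll {N : ℕ} (g : (Fin N → E3) → ℂ) (hgm : Measurable g) (hg : MemLp g 2 volume)
    (ρ : (Fin N → E3) → ℝ)
    (hρc : Continuous ρ) (hρs : HasCompactSupport ρ) (hρ0 : ∀ t, 0 ≤ ρ t) (hρ1 : ∫ t, ρ t = 1)
    (ε : ℝ) (hρε : ∀ t, ρ t ≠ 0 → ‖t‖ < ε) (η : ℝ≥0∞)
    (h : ∀ t : Fin N → E3, ‖t‖ < ε → eLpNorm (fun z => g (z - t) - g z) 2 volume ≤ η) :
    eLpNorm (fun z => (∫ t, ρ t • g (z - t)) - g z) 2 volume ≤ η := by
  have hneg := h1a_neg N
  have hρint : Integrable ρ := hρc.integrable_of_hasCompactSupport hρs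
  have hloc : LocallyIntegrable g volume := hg.locallyIntegrable (by norm_num)
  have hρm : Measurable fun t => ‖ρ t‖ₑ := hρc.measurable.enorm
  set ν : Measure (Fin N → E3) := volume.withDensity fun t => ‖ρ t‖ₑ with hν
  have hρ1' : ∫⁻ t, ‖ρ t‖ₑ = 1 := by
    rw [← ofReal_integral_norm_eq_lintegral_enorm hρint]
    have : ∫ x, ‖ρ x‖ = 1 := by
      rw [← hρ1]
      refine integral_congr_ae (Filter.Eventually.of_forall fun w => ?_)
      exact Real.norm_of_nonneg (hρ0 w)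
    rw [this, ENNReal.ofReal_one]
  have hν1 : ν univ = 1 := by
    rw [hν, withDensity_apply _ MeasurableSet.univ, Measure.restrict_univ, hρ1']
  have hpt : ∀ z, ‖(∫ t, ρ t • g (z - t)) - g z‖ₑ ^ (2 : ℝ) ≤
      ∫⁻ t, ‖ρ t‖ₑ * ‖g (z - t) - g z‖ₑ ^ (2 : ℝ) := by
    intro z
    have hi1 : Integrable fun t => ρ t • g (z - t) :=
      hρs.convolutionExists_left (ContinuousLinearMap.lsmul ℝ ℝ) hρc hloc z
    have hi2 : Integrable fun t => ρ t • g z := hρint.smul_const _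
    have e1 : (∫ t, ρ t • g (z - t)) - g z = ∫ t, ρ t • (g (z - t) - g z) := by
      have : ∫ t, ρ t • g z = g z := by rw [integral_smul_const, hρ1, one_smul]
      calc (∫ t, ρ t • g (z - t)) - g z = (∫ t, ρ t • g (z - t)) - ∫ t, ρ t • g z := by rw [this]
        _ = ∫ t, (ρ t • g (z - t) - ρ t • g z) := (integral_sub hi1 hi2).symm
        _ = _ := by simp only [smul_sub]
    have hm1 : Measurable fun t => ‖g (z - t) - g z‖ₑ :=
      ((hgm.comp (measurable_const.sub measurable_id)).sub measurable_const).enorm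
    have h1 : ‖∫ t, ρ t • (g (z - t) - g z)‖ₑ ≤ ∫⁻ t, ‖g (z - t) - g z‖ₑ ∂ν := by
      refine (enorm_integral_le_lintegral_enorm _).trans (le_of_eq ?_)
      rw [hν, lintegral_withDensity_eq_lintegral_mul _ hρm hm1]
      refine lintegral_congr fun t => ?_
      rw [enorm_smul]
      rfl
    rw [e1]
    calc ‖∫ t, ρ t • (g (z - t) - g z)‖ₑ ^ (2 : ℝ) ≤ (∫⁻ t, ‖g (z - t) - g z‖ₑ ∂ν) ^ (2 : ℝ) :=
          ENNReal.rpow_le_rpow h1 (by norm_num)
      _ ≤ ∫⁻ t, ‖g (z - t) - g z‖ₑ ^ (2 : ℝ) ∂ν := h1a_lint_sq_le ν hν1 hm1.aemeasurable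
      _ = _ := by
          rw [hν, lintegral_withDensity_eq_lintegral_mul _ hρm (hm1.pow_const _)]
          rfl
  have hmm : Measurable fun q : (Fin N → E3) × (Fin N → E3) =>
      ‖ρ q.2‖ₑ * ‖g (q.1 - q.2) - g q.1‖ₑ ^ (2 : ℝ) :=
    (hρm.comp measurable_snd).mul ((((hgm.comp (measurable_fst.sub measurable_snd)).sub
      (hgm.comp measurable_fst)).enorm).pow_const _)
  have key : ∫⁻ z, ‖(∫ t, ρ t • g (z - t)) - g z‖ₑ ^ (2 : ℝ) ≤ η ^ (2 : ℝ) := by
    calc ∫⁻ z, ‖(∫ t, ρ t • g (z - t)) - g z‖ₑ ^ (2 : ℝ)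
        ≤ ∫⁻ z, ∫⁻ t, ‖ρ t‖ₑ * ‖g (z - t) - g z‖ₑ ^ (2 : ℝ) := lintegral_mono hpt
      _ = ∫⁻ t, ∫⁻ z, ‖ρ t‖ₑ * ‖g (z - t) - g z‖ₑ ^ (2 : ℝ) :=
          lintegral_lintegral_swap hmm.aemeasurable
      _ ≤ ∫⁻ t, ‖ρ t‖ₑ * η ^ (2 : ℝ) := by
          refine lintegral_mono fun t => ?_
          simp only
          have hmt : Measurable fun z => ‖g (z - t) - g z‖ₑ ^ (2 : ℝ) :=
            (((hgm.comp (measurable_id.sub_const t)).sub hgm).enorm).pow_const _
          rw [lintegral_const_mul _ hmt]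
          by_cases ht : ρ t = 0
          · rw [ht]; simp
          · gcongr
            have h1 := h t (hρε t ht)
            rw [eLpNorm_eq_lintegral_rpow_enorm_toReal (by norm_num) (by norm_num)] at h1
            simp only [ENNReal.toReal_ofNat] at h1
            have h2 := ENNReal.rpow_le_rpow h1 (show (0 : ℝ) ≤ 2 by norm_num)
            rw [← ENNReal.rpow_mul] at h2
            norm_num at h2
            norm_num
            exact h2
      _ = η ^ (2 : ℝ) := by rw [lintegral_mul_const _ hρm, hρ1', one_mul]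
  rw [eLpNorm_eq_lintegral_rpow_enorm_toReal (by norm_num) (by norm_num)]
  simp only [ENNReal.toReal_ofNat]
  calc (∫⁻ z, ‖(∫ t, ρ t • g (z - t)) - g z‖ₑ ^ (2 : ℝ)) ^ (1 / (2 : ℝ))
      ≤ (η ^ (2 : ℝ)) ^ (1 / (2 : ℝ)) := ENNReal.rpow_le_rpow key (by norm_num)
    _ = η := by rw [← ENNReal.rpow_mul]; norm_num

theorem h1a_int {N : ℕ} (f : (Fin N → E3) → ℂ) (hf : MemLp f 2 volume) (ε : ℝ) (hε : 0 < ε)
    (h : eLpNorm f 2 volume ≤ ENNReal.ofReal (√ε)) : ∫ x, ‖f x‖ ^ 2 ≤ ε := by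
  rw [hf.eLpNorm_eq_integral_rpow_norm (by norm_num) (by norm_num)] at h
  simp only [ENNReal.toReal_ofNat, Real.rpow_ofNat] at h
  rw [ENNReal.ofReal_le_ofReal_iff (Real.sqrt_nonneg _)] at h
  have h0 : 0 ≤ ∫ x, ‖f x‖ ^ 2 := integral_nonneg fun x => by positivity
  rw [show (2 : ℝ)⁻¹ = 1 / 2 by norm_num, ← Real.sqrt_eq_rpow] at h
  exact (Real.sqrt_le_sqrt_iff hε.le).1 h

/-- the derivative of the mollified function -/
theorem h1a_deriv {N : ℕ} (φ : ContDiffBump (0 : Fin N → E3)) {ψ : (Fin N → E3) → ℂ}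
    {g : Fin N → Fin 3 → (Fin N → E3) → ℂ} (h : IsH1 ψ g) :
    ContDiff ℝ ((⊤ : ℕ∞) : WithTop ℕ∞) (fun x => ∫ t, φ.normed volume t • ψ (x - t)) ∧
    ∀ i c x, fderiv ℝ (fun x => ∫ t, φ.normed volume t • ψ (x - t)) x (dir i c) =
      ∫ t, φ.normed volume t • g i c (x - t) := by
  have hneg := h1a_neg N
  have hloc : LocallyIntegrable ψ volume := h.memLp.locallyIntegrable (by norm_num)
  set ρ : (Fin N → E3) → ℝ := φ.normed volume with hρ
  have hρs : ContDiff ℝ ((⊤ : ℕ∞) : WithTop ℕ∞) ρ := φ.contDiff_normed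
  have hρ1 : ContDiff ℝ 1 ρ := hρs.of_le (by exact_mod_cast le_top)
  have hρc : HasCompactSupport ρ := φ.hasCompactSupport_normed
  have hfun : (fun x => ∫ t, ρ t • ψ (x - t)) =
      (ρ ⋆[ContinuousLinearMap.lsmul ℝ ℝ, volume] ψ) := rfl
  refine ⟨?_, ?_⟩
  · rw [hfun]
    exact hρc.contDiff_convolution_left (ContinuousLinearMap.lsmul ℝ ℝ) hρs hloc
  intro i c x
  have h1 := hρc.hasFDerivAt_convolution_left (ContinuousLinearMap.lsmul ℝ ℝ) hρ1 hloc x
  have h2 : ConvolutionExistsAt (fderiv ℝ ρ) ψ x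
      ((ContinuousLinearMap.lsmul ℝ ℝ : ℝ →L[ℝ] ℂ →L[ℝ] ℂ).precompL (Fin N → E3)) volume :=
    (hρc.fderiv ℝ).convolutionExists_left _ (hρ1.continuous_fderiv (by norm_num)) hloc x
  have h3 : fderiv ℝ (fun x => ∫ t, ρ t • ψ (x - t)) x (dir i c) =
      ∫ t, (fderiv ℝ ρ t (dir i c) : ℝ) • ψ (x - t) := by
    rw [hfun, h1.fderiv]
    unfold convolution
    rw [ContinuousLinearMap.integral_apply h2]
    refine integral_congr_ae (Eventually.of_forall fun t => ?_)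
    simp [ContinuousLinearMap.precompL_apply]
  have h4 : ∫ t, (fderiv ℝ ρ t (dir i c) : ℝ) • ψ (x - t) =
      ∫ y, (fderiv ℝ ρ (x - y) (dir i c) : ℝ) • ψ y := by
    rw [← integral_sub_left_eq_self (fun y => (fderiv ℝ ρ (x - y) (dir i c) : ℝ) • ψ y) volume x]
    refine integral_congr_ae (Eventually.of_forall fun t => ?_)
    simp
  have hcs : HasCompactSupport (fun y => ((ρ (x - y) : ℝ) : ℂ)) :=
    (hρc.comp_homeomorph (Homeomorph.subLeft x)).comp_left (g := fun r : ℝ => (r : ℂ))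
      Complex.ofReal_zero
  have hsm' : ContDiff ℝ ((⊤ : ℕ∞) : WithTop ℕ∞) (fun y => ρ (x - y)) :=
    hρs.comp (contDiff_const.sub contDiff_id)
  have hsm : ContDiff ℝ ((⊤ : ℕ∞) : WithTop ℕ∞) (fun y => ((ρ (x - y) : ℝ) : ℂ)) :=
    Complex.ofRealCLM.contDiff.comp hsm'
  have hpd : ∀ y, fderiv ℝ (fun y => ((ρ (x - y) : ℝ) : ℂ)) y (dir i c) =
      - ((fderiv ℝ ρ (x - y) (dir i c) : ℝ) : ℂ) := by
    intro y
    have e1 : HasFDerivAt (fun y : Fin N → E3 => x - y)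
        (-ContinuousLinearMap.id ℝ (Fin N → E3)) y := (hasFDerivAt_id y).const_sub x
    have e2 : HasFDerivAt ρ (fderiv ℝ ρ (x - y)) (x - y) :=
      (hρ1.differentiable (by norm_num) (x - y)).hasFDerivAt
    have e3 := e2.comp y e1
    have e5 := (Complex.ofRealCLM.hasFDerivAt (x := ρ (x - y))).comp y e3
    have e4 : fderiv ℝ (fun y => ((ρ (x - y) : ℝ) : ℂ)) y =
        Complex.ofRealCLM.comp ((fderiv ℝ ρ (x - y)).comp
          (-ContinuousLinearMap.id ℝ (Fin N → E3))) := e5.fderiv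
    rw [e4]
    simp
  have h5 := h.weak i c (fun y => ((ρ (x - y) : ℝ) : ℂ)) hsm hcs
  have h6 : ∫ y, (fderiv ℝ ρ (x - y) (dir i c) : ℝ) • ψ y = ∫ y, (ρ (x - y) : ℝ) • g i c y := by
    have e1 : ∫ y, ψ y * fderiv ℝ (fun y => ((ρ (x - y) : ℝ) : ℂ)) y (dir i c) =
        - ∫ y, (fderiv ℝ ρ (x - y) (dir i c) : ℝ) • ψ y := by
      rw [← integral_neg]
      refine integral_congr_ae (Eventually.of_forall fun y => ?_)
      simp only [hpd y, Complex.real_smul]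
      ring
    have e2 : ∫ y, g i c y * ((ρ (x - y) : ℝ) : ℂ) = ∫ y, (ρ (x - y) : ℝ) • g i c y := by
      refine integral_congr_ae (Eventually.of_forall fun y => ?_)
      simp only [Complex.real_smul]
      ring
    rw [e1, e2] at h5
    exact neg_injective h5
  have h7 : ∫ t, ρ t • g i c (x - t) = ∫ y, (ρ (x - y) : ℝ) • g i c y := by
    rw [← integral_sub_left_eq_self (fun y => (ρ (x - y) : ℝ) • g i c y) volume x]
    refine integral_congr_ae (Eventually.of_forall fun t => ?_)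
    simp
  rw [h3, h4, h6, h7]

/-- replace by measurable functions -/
theorem h1a_meas {N : ℕ} (ψ : (Fin N → E3) → ℂ)
    (g : Fin N → Fin 3 → (Fin N → E3) → ℂ) (h : IsH1 ψ g) :
    ∃ (ψ' : (Fin N → E3) → ℂ) (g' : Fin N → Fin 3 → (Fin N → E3) → ℂ), IsH1 ψ' g' ∧
      Measurable ψ' ∧ (∀ i c, Measurable (g' i c)) ∧ ψ =ᵐ[volume] ψ' ∧
      ∀ i c, g i c =ᵐ[volume] g' i c := by
  refine ⟨h.memLp.1.mk ψ, fun i c => (h.memLp_grad i c).1.mk (g i c), ?_,
    h.memLp.1.stronglyMeasurable_mk.measurable,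
    fun i c => (h.memLp_grad i c).1.stronglyMeasurable_mk.measurable, h.memLp.1.ae_eq_mk,
    fun i c => (h.memLp_grad i c).1.ae_eq_mk⟩
  refine ⟨h.memLp.ae_eq h.memLp.1.ae_eq_mk,
    fun i c => (h.memLp_grad i c).ae_eq (h.memLp_grad i c).1.ae_eq_mk, ?_⟩
  intro i c φ hφ hφc
  have e1 : ∫ x, h.memLp.1.mk ψ x * fderiv ℝ φ x (dir i c) =
      ∫ x, ψ x * fderiv ℝ φ x (dir i c) := by
    refine integral_congr_ae ?_
    filter_upwards [h.memLp.1.ae_eq_mk] with x hx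
    rw [hx]
  have e2 : ∫ x, (h.memLp_grad i c).1.mk (g i c) x * φ x = ∫ x, g i c x * φ x := by
    refine integral_congr_ae ?_
    filter_upwards [(h.memLp_grad i c).1.ae_eq_mk] with x hx
    rw [← hx]
  rw [e1, e2]
  exact h.weak i c φ hφ hφc

theorem h1_smooth_approx {N : ℕ} (ψ : (Fin N → E3) → ℂ)
    (g : Fin N → Fin 3 → (Fin N → E3) → ℂ) (h : IsH1 ψ g) (ε : ℝ) (hε : 0 < ε) :
    ∃ u : (Fin N → E3) → ℂ, ContDiff ℝ ((⊤ : ℕ∞) : WithTop ℕ∞) u ∧ MemLp u 2 ∧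
      (∀ i c, MemLp (fun x => fderiv ℝ u x (dir i c)) 2) ∧
      (∫ x, ‖ψ x - u x‖ ^ 2) ≤ ε ∧
      ∀ i c, (∫ x, ‖g i c x - fderiv ℝ u x (dir i c)‖ ^ 2) ≤ ε := by
  obtain ⟨ψ', g', h', hψm, hgm, hψe, hge⟩ := h1a_meas ψ g h
  have hη : 0 < ENNReal.ofReal (√ε) := ENNReal.ofReal_pos.2 (Real.sqrt_pos.2 hε)
  obtain ⟨δ₀, hδ₀, h₀⟩ := h1a_transl ψ' h'.memLp _ hη
  have h₁ := fun i c => h1a_transl (g' i c) (h'.memLp_grad i c) _ hη
  choose δ₁ hδ₁ h₁ using h₁
  -- a common radius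
  obtain ⟨δ, hδ, hδ0, hδ1⟩ : ∃ δ : ℝ, 0 < δ ∧ δ ≤ δ₀ ∧ ∀ i c, δ ≤ δ₁ i c := by
    obtain ⟨m, hm, hm'⟩ : ∃ m : ℝ, 0 < m ∧ ∀ p : Fin N × Fin 3, m ≤ δ₁ p.1 p.2 := by
      by_cases hN : Nonempty (Fin N × Fin 3)
      · obtain ⟨p, hp⟩ := Finite.exists_min (fun p : Fin N × Fin 3 => δ₁ p.1 p.2)
        exact ⟨_, hδ₁ p.1 p.2, hp⟩
      · exact ⟨1, one_pos, fun p => absurd ⟨p⟩ hN⟩
    exact ⟨min δ₀ m, lt_min hδ₀ hm, min_le_left _ _,
      fun i c => (min_le_right _ _).trans (hm' (i, c))⟩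
  let φ : ContDiffBump (0 : Fin N → E3) := ⟨δ / 2, δ, by positivity, by linarith⟩
  have hρc : Continuous (φ.normed volume) := φ.continuous_normed
  have hρs : HasCompactSupport (φ.normed volume) := φ.hasCompactSupport_normed
  have hρ1 : ∫ t, φ.normed volume t = 1 := φ.integral_normed
  have hρ0 : ∀ t, 0 ≤ φ.normed volume t := fun t => φ.nonneg_normed t
  have hρε : ∀ t, φ.normed volume t ≠ 0 → ‖t‖ < δ := by
    intro t ht
    have h1 : t ∈ Function.support (φ.normed volume) := ht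
    rw [φ.support_normed_eq, mem_ball_zero_iff] at h1
    exact h1
  obtain ⟨hu, hdu⟩ := h1a_deriv φ h'
  set u : (Fin N → E3) → ℂ := fun x => ∫ t, φ.normed volume t • ψ' (x - t) with hudef
  have hA := h1a_moll ψ' hψm h'.memLp (φ.normed volume) hρc hρs hρ0 hρ1 δ hρε _
    (fun t ht => h₀ t (ht.trans_le hδ0))
  have hB := fun i c => h1a_moll (g' i c) (hgm i c) (h'.memLp_grad i c) (φ.normed volume) hρc hρs
    hρ0 hρ1 δ hρε _ (fun t ht => h₁ i c t (ht.trans_le (hδ1 i c)))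
  have hdc : ∀ i c, Continuous fun x => fderiv ℝ u x (dir i c) := fun i c =>
    (hu.continuous_fderiv (by simp)).clm_apply continuous_const
  have hA' : MemLp (fun x => u x - ψ' x) 2 volume :=
    ⟨hu.continuous.aestronglyMeasurable.sub h'.memLp.1, hA.trans_lt ENNReal.ofReal_lt_top⟩
  have hB' : ∀ i c, eLpNorm (fun x => fderiv ℝ u x (dir i c) - g' i c x) 2 volume ≤
      ENNReal.ofReal (√ε) := by
    intro i c
    have := hB i c
    simp only [hdu i c]
    exact this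
  have hB'' : ∀ i c, MemLp (fun x => fderiv ℝ u x (dir i c) - g' i c x) 2 volume := fun i c =>
    ⟨(hdc i c).aestronglyMeasurable.sub (h'.memLp_grad i c).1,
      (hB' i c).trans_lt ENNReal.ofReal_lt_top⟩
  refine ⟨u, hu, ?_, ?_, ?_, ?_⟩
  · have := hA'.add h'.memLp
    refine this.ae_eq (Eventually.of_forall fun x => ?_)
    simp
  · intro i c
    have := (hB'' i c).add (h'.memLp_grad i c)
    refine this.ae_eq (Eventually.of_forall fun x => ?_)
    simp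
  · refine (integral_congr_ae ?_).trans_le (h1a_int _ hA' ε hε hA)
    filter_upwards [hψe] with x hx
    rw [hx, norm_sub_rev]
  · intro i c
    refine (integral_congr_ae ?_).trans_le (h1a_int _ (hB'' i c) ε hε (hB' i c))
    filter_upwards [hge i c] with x hx
    rw [hx, norm_sub_rev]

end Pool.Agent.H5R2.NL
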