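import Mathlib
import Pool.Agent.H5R2.NL.Defs
import Pool.Agent.H5R2.NL.H1Defs

/-!
# Trial functions in `H¹(ℝ^{3N})`: cut-off
-/

set_option autoImplicit false

noncomputable section

namespace Pool.Agent.H5R2.NL

open MeasureTheory Metric Filter Topology
open scoped ENNReal

/-- the fixed bump function -/
def h1b_bump (N : ℕ) : ContDiffBump (0 : Fin N → E3) := ⟨1, 2, one_pos, one_lt_two⟩

/-- the cut-off function at scale `n + 1` -/
def h1b_chi (N : ℕ) (n : ℕ) (x : Fin N → E3) : ℝ := h1b_bump N (((n : ℝ) + 1)⁻¹ • x)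

lemma h1b_chi_contDiff (N n : ℕ) : ContDiff ℝ ((⊤ : ℕ∞) : WithTop ℕ∞) (h1b_chi N n) :=
  (h1b_bump N).contDiff.comp (contDiff_const_smul _)

lemma h1b_chi_nonneg (N n : ℕ) (x : Fin N → E3) : 0 ≤ h1b_chi N n x := (h1b_bump N).nonneg

lemma h1b_chi_le_one (N n : ℕ) (x : Fin N → E3) : h1b_chi N n x ≤ 1 := (h1b_bump N).le_one

lemma h1b_chi_one (N n : ℕ) (x : Fin N → E3) (hx : ‖x‖ ≤ (n : ℝ) + 1) : h1b_chi N n x = 1 := by
  apply (h1b_bump N).one_of_mem_closedBall
  have hn : (0 : ℝ) < (n : ℝ) + 1 := by positivity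
  rw [mem_closedBall_zero_iff, norm_smul, norm_inv, Real.norm_of_nonneg hn.le]
  show ((n : ℝ) + 1)⁻¹ * ‖x‖ ≤ 1
  rw [inv_mul_le_iff₀ hn, mul_one]
  exact hx

lemma h1b_chi_zero (N n : ℕ) (x : Fin N → E3) (hx : 2 * ((n : ℝ) + 1) ≤ ‖x‖) :
    h1b_chi N n x = 0 := by
  apply (h1b_bump N).zero_of_le_dist
  have hn : (0 : ℝ) < (n : ℝ) + 1 := by positivity
  rw [dist_zero_right, norm_smul, norm_inv, Real.norm_of_nonneg hn.le]
  show (2 : ℝ) ≤ ((n : ℝ) + 1)⁻¹ * ‖x‖
  rw [le_inv_mul_iff₀ hn]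
  linarith

lemma h1b_bound (N : ℕ) : ∃ C : ℝ, 0 ≤ C ∧ ∀ n x, ‖fderiv ℝ (h1b_chi N n) x‖ ≤ C := by
  have hc : Continuous (fderiv ℝ (h1b_bump N)) :=
    (h1b_bump N).contDiff (n := 1) |>.continuous_fderiv (by simp)
  have hs : HasCompactSupport (fderiv ℝ (h1b_bump N)) :=
    (h1b_bump N).hasCompactSupport.fderiv (𝕜 := ℝ)
  obtain ⟨C, hC⟩ := hc.bounded_above_of_compact_support hs
  refine ⟨C, le_trans (norm_nonneg _) (hC 0), ?_⟩
  intro n x
  have hn : (0 : ℝ) < (n : ℝ) + 1 := by positivity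
  have h1 : HasFDerivAt (h1b_chi N n)
      ((fderiv ℝ (h1b_bump N) (((n : ℝ) + 1)⁻¹ • x)).comp
        ((((n : ℝ) + 1)⁻¹) • ContinuousLinearMap.id ℝ (Fin N → E3))) x := by
    apply HasFDerivAt.comp
    · exact ((h1b_bump N).contDiff (n := 1)).differentiable one_ne_zero |>.differentiableAt
        |>.hasFDerivAt
    · exact (hasFDerivAt_id (𝕜 := ℝ) x).const_smul (((n : ℝ) + 1)⁻¹)
  rw [h1.fderiv]
  refine le_trans (ContinuousLinearMap.opNorm_comp_le _ _) ?_
  have h2 : ‖(((n : ℝ) + 1)⁻¹) • ContinuousLinearMap.id ℝ (Fin N → E3)‖ ≤ 1 := by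
    rw [norm_smul, norm_inv, Real.norm_of_nonneg hn.le]
    have h3 : ((n : ℝ) + 1)⁻¹ ≤ 1 := inv_le_one_of_one_le₀ (by linarith [Nat.cast_nonneg (α := ℝ) n])
    exact mul_le_one₀ h3 (norm_nonneg _) ContinuousLinearMap.norm_id_le
  calc _ ≤ C * 1 := mul_le_mul (hC _) h2 (norm_nonneg _) (le_trans (norm_nonneg _) (hC 0))
    _ = C := mul_one C

theorem h1_cut_approx {N : ℕ} (u : (Fin N → E3) → ℂ)
    (hu : ContDiff ℝ ((⊤ : ℕ∞) : WithTop ℕ∞) u) (h2 : MemLp u 2)
    (hg : ∀ i c, MemLp (fun x => fderiv ℝ u x (dir i c)) 2) (ε : ℝ) (hε : 0 < ε) :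
    ∃ v : (Fin N → E3) → ℂ, ContDiff ℝ ((⊤ : ℕ∞) : WithTop ℕ∞) v ∧ HasCompactSupport v ∧
      (∫ x, ‖u x - v x‖ ^ 2) ≤ ε ∧
      ∀ i c, (∫ x, ‖fderiv ℝ u x (dir i c) - fderiv ℝ v x (dir i c)‖ ^ 2) ≤ ε := by
  obtain ⟨C, hC0, hC⟩ := h1b_bound N
  obtain ⟨v, hv⟩ : ∃ v : ℕ → (Fin N → E3) → ℂ, v = fun n x => h1b_chi N n x • u x := ⟨_, rfl⟩
  have hvs : ∀ n, ContDiff ℝ ((⊤ : ℕ∞) : WithTop ℕ∞) (v n) := by
    intro n
    rw [hv]
    exact (h1b_chi_contDiff N n).smul hu
  have hvc : ∀ n, HasCompactSupport (v n) := by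
    intro n
    apply HasCompactSupport.intro (isCompact_closedBall (0 : Fin N → E3) (2 * ((n : ℝ) + 1)))
    intro x hx
    rw [mem_closedBall_zero_iff, not_le] at hx
    rw [hv]
    simp only
    rw [h1b_chi_zero N n x hx.le, zero_smul]
  have hloc : ∀ x : Fin N → E3, ∀ᶠ n in atTop, v n =ᶠ[𝓝 x] u := by
    intro x
    obtain ⟨n₀, hn₀⟩ := exists_nat_gt ‖x‖
    filter_upwards [eventually_ge_atTop n₀] with n hn
    have ho : IsOpen {y : Fin N → E3 | ‖y‖ < (n : ℝ) + 1} :=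
      isOpen_lt continuous_norm continuous_const
    have hx : x ∈ {y : Fin N → E3 | ‖y‖ < (n : ℝ) + 1} := by
      have : (n₀ : ℝ) ≤ n := by exact_mod_cast hn
      show ‖x‖ < (n : ℝ) + 1
      linarith
    filter_upwards [ho.mem_nhds hx] with y hy
    rw [hv]
    simp only
    rw [h1b_chi_one N n y (le_of_lt hy), one_smul]
  have hu1 : Differentiable ℝ u := hu.differentiable (by simp)
  have hchid : ∀ n, Differentiable ℝ (h1b_chi N n) := fun n =>
    (h1b_chi_contDiff N n).differentiable (by simp)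
  have hint : Integrable (fun x => ‖u x‖ ^ 2) :=
    (memLp_two_iff_integrable_sq_norm h2.1).1 h2
  -- first integral
  have lim1 : Tendsto (fun n => ∫ x, ‖u x - v n x‖ ^ 2) atTop (𝓝 0) := by
    have h0 : (0 : ℝ) = ∫ _x : Fin N → E3, (0 : ℝ) := by simp
    rw [h0]
    apply tendsto_integral_of_dominated_convergence (fun x => ‖u x‖ ^ 2)
    · intro n
      exact ((hu.continuous.sub (hvs n).continuous).norm.pow 2).aestronglyMeasurable
    · exact hint
    · intro n
      refine Eventually.of_forall fun x => ?_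
      rw [Real.norm_of_nonneg (by positivity)]
      have h3 : u x - v n x = (1 - h1b_chi N n x) • u x := by
        rw [hv, sub_smul, one_smul]
      rw [h3, norm_smul, mul_pow]
      have h4 : ‖1 - h1b_chi N n x‖ ^ 2 ≤ 1 := by
        apply pow_le_one₀ (norm_nonneg _)
        rw [Real.norm_of_nonneg (by linarith [h1b_chi_le_one N n x])]
        linarith [h1b_chi_nonneg N n x]
      exact mul_le_of_le_one_left (by positivity) h4
    · refine Eventually.of_forall fun x => ?_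
      apply tendsto_const_nhds.congr'
      filter_upwards [hloc x] with n hn
      rw [hn.eq_of_nhds, sub_self, norm_zero]
      norm_num
  have lim2 : ∀ i c, Tendsto (fun n => ∫ x, ‖fderiv ℝ u x (dir i c) -
      fderiv ℝ (v n) x (dir i c)‖ ^ 2) atTop (𝓝 0) := by
    intro i c
    have h0 : (0 : ℝ) = ∫ _x : Fin N → E3, (0 : ℝ) := by simp
    rw [h0]
    have hint2 : Integrable (fun x => ‖fderiv ℝ u x (dir i c)‖ ^ 2) :=
      (memLp_two_iff_integrable_sq_norm (hg i c).1).1 (hg i c)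
    apply tendsto_integral_of_dominated_convergence
      (fun x => 2 * ‖fderiv ℝ u x (dir i c)‖ ^ 2 + 2 * (C * ‖dir i c‖) ^ 2 * ‖u x‖ ^ 2)
    · intro n
      have c1 : Continuous fun x => fderiv ℝ u x (dir i c) :=
        (hu.continuous_fderiv (by simp)).clm_apply continuous_const
      have c2 : Continuous fun x => fderiv ℝ (v n) x (dir i c) :=
        ((hvs n).continuous_fderiv (by simp)).clm_apply continuous_const
      exact ((c1.sub c2).norm.pow 2).aestronglyMeasurable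
    · exact (hint2.const_mul 2).add (hint.const_mul _)
    · intro n
      refine Eventually.of_forall fun x => ?_
      rw [Real.norm_of_nonneg (by positivity)]
      have hd : fderiv ℝ (v n) x (dir i c) = h1b_chi N n x • fderiv ℝ u x (dir i c) +
          (fderiv ℝ (h1b_chi N n) x (dir i c)) • u x := by
        have h5 : HasFDerivAt (v n) (h1b_chi N n x • fderiv ℝ u x +
            (fderiv ℝ (h1b_chi N n) x).smulRight (u x)) x := by
          rw [hv]
          exact (hchid n x).hasFDerivAt.smul (hu1 x).hasFDerivAt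
        rw [h5.fderiv]
        rfl
      have h6 : fderiv ℝ u x (dir i c) - fderiv ℝ (v n) x (dir i c) =
          (1 - h1b_chi N n x) • fderiv ℝ u x (dir i c) -
            (fderiv ℝ (h1b_chi N n) x (dir i c)) • u x := by
        rw [hd, sub_smul, one_smul]
        abel
      have h7 : ‖fderiv ℝ u x (dir i c) - fderiv ℝ (v n) x (dir i c)‖ ≤
          ‖fderiv ℝ u x (dir i c)‖ + C * ‖dir i c‖ * ‖u x‖ := by
        rw [h6]
        refine le_trans (norm_sub_le _ _) ?_
        apply add_le_add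
        · rw [norm_smul]
          apply mul_le_of_le_one_left (norm_nonneg _)
          rw [Real.norm_of_nonneg (by linarith [h1b_chi_le_one N n x])]
          linarith [h1b_chi_nonneg N n x]
        · rw [norm_smul]
          apply mul_le_mul_of_nonneg_right _ (norm_nonneg _)
          exact le_trans ((fderiv ℝ (h1b_chi N n) x).le_opNorm _)
            (mul_le_mul_of_nonneg_right (hC n x) (norm_nonneg _))
      have h8 : ‖fderiv ℝ u x (dir i c) - fderiv ℝ (v n) x (dir i c)‖ ^ 2 ≤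
          (‖fderiv ℝ u x (dir i c)‖ + C * ‖dir i c‖ * ‖u x‖) ^ 2 :=
        pow_le_pow_left₀ (norm_nonneg _) h7 2
      nlinarith [sq_nonneg (‖fderiv ℝ u x (dir i c)‖ - C * ‖dir i c‖ * ‖u x‖)]
    · refine Eventually.of_forall fun x => ?_
      apply tendsto_const_nhds.congr'
      filter_upwards [hloc x] with n hn
      rw [hn.fderiv_eq, sub_self, norm_zero]
      norm_num
  have e1 : ∀ᶠ n in atTop, ∫ x, ‖u x - v n x‖ ^ 2 ≤ ε := lim1.eventually_le_const hε
  have e2 : ∀ᶠ n in atTop, ∀ i c, (∫ x, ‖fderiv ℝ u x (dir i c) -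
      fderiv ℝ (v n) x (dir i c)‖ ^ 2) ≤ ε := by
    rw [eventually_all]
    intro i
    rw [eventually_all]
    intro c
    exact (lim2 i c).eventually_le_const hε
  obtain ⟨n, hn1, hn2⟩ := (e1.and e2).exists
  exact ⟨v n, hvs n, hvc n, hn1, hn2⟩

end Pool.Agent.H5R2.NL
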