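import Mathlib
import Pool.Agent.H5R2.NL.Defs
import Pool.Agent.H5R2.NL.H1Defs
import Pool.Agent.H5R2.NL.Cut
import Pool.Agent.H5R2.NL.Int

/-!
# Trial functions in `H¹(ℝ^{3N})`: Hardy's inequality for `N` particles, small lemmas
-/

set_option autoImplicit false

noncomputable section

namespace Pool.Agent.H5R2.NL

open MeasureTheory Metric Filter Topology
open scoped ENNReal

lemma h1c_gsq_nonneg (u : E3 → ℂ) (y : E3) : 0 ≤ gsq u y := by
  unfold gsq
  positivity

lemma h1c_gradSq_nonneg {N : ℕ} (u : (Fin N → E3) → ℂ) (i : Fin N) (x : Fin N → E3) :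
    0 ≤ gradSq u i x := h1c_gsq_nonneg _ _

lemma h1c_integrable_gsq (u : E3 → ℂ) (hu : ContDiff ℝ 1 u) (hc : HasCompactSupport u) :
    Integrable (gsq u) := by
  have hcont : Continuous (gsq u) := by
    unfold gsq
    have h := hu.continuous_fderiv (by norm_num)
    fun_prop
  refine hcont.integrable_of_hasCompactSupport ?_
  have h := hc.fderiv (𝕜 := ℝ)
  refine h.comp_left (g := fun L : E3 →L[ℝ] ℂ =>
    ∑ c : Fin 3, ‖L (EuclideanSpace.single c (1 : ℝ))‖ ^ 2) ?_
  simp

theorem h1c_hardy_gen {N : ℕ} (u : (Fin N → E3) → ℂ) (hu : ContDiff ℝ 1 u)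
    (hc : HasCompactSupport u) (i : Fin N) (g : (Fin N → E3) → E3) (hg : Measurable g)
    (hgi : ∀ x t, g (Function.update x i t) = g x) :
    Integrable (fun x => ‖u x‖ ^ 2 / ‖x i - g x‖ ^ 2) ∧
      (∫ x, ‖u x‖ ^ 2 / ‖x i - g x‖ ^ 2) ≤ 4 * ∫ x, gradSq u i x := by
  have hm : Measurable fun x : Fin N → E3 => ‖u x‖ ^ 2 / ‖x i - g x‖ ^ 2 :=
    (hu.continuous.measurable.norm.pow_const 2).div
      (((measurable_pi_apply i).sub hg).norm.pow_const 2)
  have hG : Measurable (fun x : Fin N → E3 => 4 * gradSq u i x) :=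
    (continuous_gradSq u hu i).measurable.const_mul 4
  have key : ∫⁻ x, ENNReal.ofReal (‖u x‖ ^ 2 / ‖x i - g x‖ ^ 2) ≤
      ∫⁻ x, ENNReal.ofReal (4 * gradSq u i x) := by
    rw [volume_pi]
    refine int_slice_le volume (fun x => ENNReal.ofReal (‖u x‖ ^ 2 / ‖x i - g x‖ ^ 2))
      (fun x => ENNReal.ofReal (4 * gradSq u i x)) hm.ennreal_ofReal hG.ennreal_ofReal i ?_
    intro x
    obtain ⟨s, hs⟩ : ∃ s : E3 → ℂ, s = fun y => u (Function.update x i y) := ⟨_, rfl⟩
    have hs1 : ContDiff ℝ 1 s := by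
      rw [hs]; exact hu.comp (contDiff_update 1 x i)
    have hs2 : HasCompactSupport s := by
      rw [hs]; exact hc.comp_isClosedEmbedding (isClosedEmbedding_update x i)
    obtain ⟨h1, h2⟩ := hardy (g x) s hs1 hs2
    have e1 : ∀ t : E3, ENNReal.ofReal (‖u (Function.update x i t)‖ ^ 2 /
        ‖(Function.update x i t) i - g (Function.update x i t)‖ ^ 2) =
        ENNReal.ofReal (‖s t‖ ^ 2 / ‖t - g x‖ ^ 2) := by
      intro t
      rw [hgi, Function.update_self, hs]
    have e2 : ∀ t : E3, ENNReal.ofReal (4 * gradSq u i (Function.update x i t)) =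
        ENNReal.ofReal (4 * gsq s t) := by
      intro t
      unfold gradSq
      rw [Function.update_self, hs]
      simp only [Function.update_idem]
    simp only [e1, e2]
    rw [← ofReal_integral_eq_lintegral_ofReal h1
      (Filter.Eventually.of_forall fun x => by positivity),
      ← ofReal_integral_eq_lintegral_ofReal ((h1c_integrable_gsq s hs1 hs2).const_mul 4)
      (Filter.Eventually.of_forall fun x => mul_nonneg (by norm_num) (h1c_gsq_nonneg s x)),
      integral_const_mul]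
    exact ENNReal.ofReal_le_ofReal h2
  have hGi : Integrable (fun x => 4 * gradSq u i x) := (integrable_gradSq u hu hc i).const_mul 4
  have hG2 : ∫⁻ x, ENNReal.ofReal (4 * gradSq u i x) = ENNReal.ofReal (4 * ∫ x, gradSq u i x) := by
    rw [← ofReal_integral_eq_lintegral_ofReal hGi
      (Filter.Eventually.of_forall fun x => mul_nonneg (by norm_num) (h1c_gradSq_nonneg u i x)),
      integral_const_mul]
  rw [hG2] at key
  have hI : Integrable (fun x : Fin N → E3 => ‖u x‖ ^ 2 / ‖x i - g x‖ ^ 2) := by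
    refine ⟨hm.aestronglyMeasurable, ?_⟩
    rw [hasFiniteIntegral_iff_ofReal (Filter.Eventually.of_forall fun x => by positivity)]
    exact lt_of_le_of_lt key ENNReal.ofReal_lt_top
  refine ⟨hI, ?_⟩
  rw [← ofReal_integral_eq_lintegral_ofReal hI
    (Filter.Eventually.of_forall fun x => by positivity)] at key
  have h0 : 0 ≤ 4 * ∫ x, gradSq u i x :=
    mul_nonneg (by norm_num) (integral_nonneg fun x => h1c_gradSq_nonneg u i x)
  exact (ENNReal.ofReal_le_ofReal_iff h0).mp key

theorem hardy_en {N : ℕ} (u : (Fin N → E3) → ℂ) (hu : ContDiff ℝ 1 u)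
    (hc : HasCompactSupport u) (i : Fin N) (R : E3) :
    Integrable (fun x => ‖u x‖ ^ 2 / ‖x i - R‖ ^ 2) ∧
      (∫ x, ‖u x‖ ^ 2 / ‖x i - R‖ ^ 2) ≤ 4 * ∫ x, gradSq u i x :=
  h1c_hardy_gen u hu hc i (fun _ => R) measurable_const (fun _ _ => rfl)

theorem hardy_ee {N : ℕ} (u : (Fin N → E3) → ℂ) (hu : ContDiff ℝ 1 u)
    (hc : HasCompactSupport u) (i j : Fin N) (hij : i ≠ j) :
    Integrable (fun x => ‖u x‖ ^ 2 / ‖x i - x j‖ ^ 2) ∧
      (∫ x, ‖u x‖ ^ 2 / ‖x i - x j‖ ^ 2) ≤ 4 * ∫ x, gradSq u i x :=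
  h1c_hardy_gen u hu hc i (fun x => x j) (measurable_pi_apply j)
    (fun _ _ => Function.update_of_ne (Ne.symm hij) _ _)

/-- a smooth compactly supported function is in `H¹`, with its classical derivatives -/
theorem isH1_of_smooth {N : ℕ} (u : (Fin N → E3) → ℂ)
    (hu : ContDiff ℝ ((⊤ : ℕ∞) : WithTop ℕ∞) u) (hc : HasCompactSupport u) :
    IsH1 u (fun i c x => fderiv ℝ u x (dir i c)) := by
  have hd : ∀ i c, Continuous fun x => fderiv ℝ u x (dir i c) := fun i c =>
    (hu.continuous_fderiv (by simp)).clm_apply continuous_const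
  have hdc : ∀ (i : Fin N) (c : Fin 3), HasCompactSupport fun x => fderiv ℝ u x (dir i c) := by
    intro i c
    exact hc.fderiv_apply (𝕜 := ℝ) _
  refine ⟨hu.continuous.memLp_of_hasCompactSupport hc,
    fun i c => (hd i c).memLp_of_hasCompactSupport (hdc i c), ?_⟩
  intro i c φ hφ hφc
  have hd' : Continuous fun x => fderiv ℝ φ x (dir i c) :=
    (hφ.continuous_fderiv (by simp)).clm_apply continuous_const
  have i1 : Integrable (fun x => fderiv ℝ u x (dir i c) * φ x) :=
    ((hd i c).mul hφ.continuous).integrable_of_hasCompactSupport (hdc i c).mul_right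
  have i2 : Integrable (fun x => u x * fderiv ℝ φ x (dir i c)) :=
    (hu.continuous.mul hd').integrable_of_hasCompactSupport hc.mul_right
  have i3 : Integrable (fun x => u x * φ x) :=
    (hu.continuous.mul hφ.continuous).integrable_of_hasCompactSupport hc.mul_right
  exact integral_mul_fderiv_eq_neg_fderiv_mul_of_integrable i1 i2 i3
    (fun x _ => hu.differentiable (by simp) x) (fun x _ => hφ.differentiable (by simp) x)

theorem gradSq_dir {N : ℕ} (u : (Fin N → E3) → ℂ) (hu : ContDiff ℝ 1 u) (i : Fin N)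
    (x : Fin N → E3) : gradSq u i x = ∑ c, ‖fderiv ℝ u x (dir i c)‖ ^ 2 :=
  gradSq_eq u hu i x

end Pool.Agent.H5R2.NL
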