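import Pool.Agent.H5R2.NL.Defs
import Pool.Agent.H5R2.NL.H1Defs
import Pool.Agent.H5R2.NL.H1A
import Pool.Agent.H5R2.NL.H1B
import Pool.Agent.H5R2.NL.H1C

/-!
# Extension of the lower bound to `H¹` (task H1D, helper496)
-/

set_option autoImplicit false

noncomputable section

namespace Pool.Agent.H5R2.NL

open MeasureTheory Metric Filter Topology
open scoped ENNReal

section Abstract

variable {X : Type*} [MeasurableSpace X] {μ : Measure X}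

theorem h1d_sq_int {f : X → ℂ} (hf : MemLp f 2 μ) : Integrable (fun x => ‖f x‖ ^ 2) μ :=
  (memLp_two_iff_integrable_sq_norm hf.1).1 hf

theorem h1d_two_sq (a b : ℂ) : ‖a + b‖ ^ 2 ≤ 2 * ‖a‖ ^ 2 + 2 * ‖b‖ ^ 2 := by
  have h1 := norm_add_le a b
  have h2 : 0 ≤ ‖a + b‖ := norm_nonneg _
  nlinarith [sq_nonneg (‖a‖ - ‖b‖), norm_nonneg a, norm_nonneg b]

/-- triangle inequality for the squares of the `L²` norms -/
theorem h1d_triangle {f g h : X → ℂ} (hf : MemLp f 2 μ) (hg : MemLp g 2 μ) (hh : MemLp h 2 μ) :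
    ∫ x, ‖f x - h x‖ ^ 2 ∂μ ≤ 2 * (∫ x, ‖f x - g x‖ ^ 2 ∂μ) + 2 * ∫ x, ‖g x - h x‖ ^ 2 ∂μ := by
  rw [← integral_const_mul, ← integral_const_mul, ← integral_add]
  · refine integral_mono (h1d_sq_int (hf.sub hh)) ?_ fun x => ?_
    · exact ((h1d_sq_int (hf.sub hg)).const_mul 2).add ((h1d_sq_int (hg.sub hh)).const_mul 2)
    · have := h1d_two_sq (f x - g x) (g x - h x)
      simpa using this
  · exact (h1d_sq_int (hf.sub hg)).const_mul 2
  · exact (h1d_sq_int (hg.sub hh)).const_mul 2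

theorem h1d_norm_le {f g : X → ℂ} (hf : MemLp f 2 μ) (hg : MemLp g 2 μ) :
    ∫ x, ‖g x‖ ^ 2 ∂μ ≤ 2 * (∫ x, ‖f x‖ ^ 2 ∂μ) + 2 * ∫ x, ‖f x - g x‖ ^ 2 ∂μ := by
  rw [← integral_const_mul, ← integral_const_mul, ← integral_add]
  · refine integral_mono (h1d_sq_int hg) ?_ fun x => ?_
    · exact ((h1d_sq_int hf).const_mul 2).add ((h1d_sq_int (hf.sub hg)).const_mul 2)
    · have := h1d_two_sq (f x) (g x - f x)
      rw [norm_sub_rev (g x) (f x)] at this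
      simpa using this
  · exact (h1d_sq_int hf).const_mul 2
  · exact (h1d_sq_int (hf.sub hg)).const_mul 2

theorem h1d_weight_int {f : X → ℂ} {w : X → ℝ} (hw : Measurable w) (hw0 : ∀ x, 0 ≤ w x)
    (hf : MemLp f 2 μ) (hwf : Integrable (fun x => w x ^ 2 * ‖f x‖ ^ 2) μ) :
    Integrable (fun x => w x * ‖f x‖ ^ 2) μ := by
  refine ((hwf.add (h1d_sq_int hf))).mono'
    (hw.aestronglyMeasurable.mul (hf.1.norm.pow 2)) (Eventually.of_forall fun x => ?_)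
  have h1 : 0 ≤ w x * ‖f x‖ ^ 2 := mul_nonneg (hw0 x) (by positivity)
  rw [Real.norm_of_nonneg h1]
  simp only [Pi.add_apply]
  have h2 : w x ≤ w x ^ 2 + 1 := by nlinarith [sq_nonneg (w x - 1), hw0 x]
  have h3 : 0 ≤ ‖f x‖ ^ 2 := by positivity
  nlinarith [mul_le_mul_of_nonneg_right h2 h3]

theorem h1d_pointwise {a b w δ : ℝ} (c : ℝ) (hw : 0 ≤ w) (hδ : 0 < δ) (ha : 0 ≤ a) (hb : 0 ≤ b)
    (hc : |a - b| ≤ c) :
    |w * a ^ 2 - w * b ^ 2| ≤ 1 / (2 * δ) * c ^ 2 + δ * (w ^ 2 * a ^ 2 + w ^ 2 * b ^ 2) := by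
  have h1 : w * a ^ 2 - w * b ^ 2 = (a - b) * (w * (a + b)) := by ring
  have h2 : 0 ≤ w * (a + b) := mul_nonneg hw (by linarith)
  rw [h1, abs_mul, abs_of_nonneg h2]
  have h3 : |a - b| * (w * (a + b)) ≤ c * (w * (a + b)) := mul_le_mul_of_nonneg_right hc h2
  have h4 : c * (w * (a + b)) ≤ 1 / (2 * δ) * c ^ 2 + δ / 2 * (w * (a + b)) ^ 2 := by
    have h5 : 1 / (2 * δ) * c ^ 2 + δ / 2 * (w * (a + b)) ^ 2 - c * (w * (a + b))
        = 1 / (2 * δ) * (c - δ * (w * (a + b))) ^ 2 := by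
      field_simp; ring
    have h6 : 0 ≤ 1 / (2 * δ) * (c - δ * (w * (a + b))) ^ 2 := by positivity
    linarith
  have h7 : δ / 2 * (w * (a + b)) ^ 2 ≤ δ * (w ^ 2 * a ^ 2 + w ^ 2 * b ^ 2) := by
    have h8 : 0 ≤ δ / 2 * w ^ 2 * (a - b) ^ 2 := by positivity
    nlinarith
  linarith

/-- convergence of weighted integrals -/
theorem h1d_lim {f : X → ℂ} {F : ℕ → X → ℂ} {w : X → ℝ} (hw : Measurable w)
    (hw0 : ∀ x, 0 ≤ w x) (hf : MemLp f 2 μ) (hF : ∀ n, MemLp (F n) 2 μ)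
    (hε : Tendsto (fun n => ∫ x, ‖f x - F n x‖ ^ 2 ∂μ) atTop (𝓝 0))
    (hwf : Integrable (fun x => w x ^ 2 * ‖f x‖ ^ 2) μ)
    (hwF : ∀ n, Integrable (fun x => w x ^ 2 * ‖F n x‖ ^ 2) μ) {M : ℝ}
    (hM : ∫ x, w x ^ 2 * ‖f x‖ ^ 2 ∂μ ≤ M) (hMF : ∀ n, ∫ x, w x ^ 2 * ‖F n x‖ ^ 2 ∂μ ≤ M) :
    Tendsto (fun n => ∫ x, w x * ‖F n x‖ ^ 2 ∂μ) atTop (𝓝 (∫ x, w x * ‖f x‖ ^ 2 ∂μ)) := by
  have hM0 : 0 ≤ M := le_trans (integral_nonneg fun x => by positivity) hM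
  rw [Metric.tendsto_atTop]
  intro ε hε0
  set δ : ℝ := ε / (4 * (M + 1)) with hδ
  have hδ0 : 0 < δ := by positivity
  obtain ⟨n0, hn0⟩ := (Metric.tendsto_atTop.1 hε) (δ * ε) (by positivity)
  refine ⟨n0, fun n hn => ?_⟩
  have h1 := hn0 n hn
  rw [Real.dist_eq, sub_zero] at h1
  have h1' : ∫ x, ‖f x - F n x‖ ^ 2 ∂μ < δ * ε := lt_of_le_of_lt (le_abs_self _) h1
  rw [Real.dist_eq, ← integral_sub (h1d_weight_int hw hw0 (hF n) (hwF n))
    (h1d_weight_int hw hw0 hf hwf)]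
  have hi1 := h1d_sq_int (hf.sub (hF n))
  have hi : Integrable (fun x => 1 / (2 * δ) * ‖f x - F n x‖ ^ 2
      + δ * (w x ^ 2 * ‖F n x‖ ^ 2 + w x ^ 2 * ‖f x‖ ^ 2)) μ :=
    (hi1.const_mul _).add (((hwF n).add hwf).const_mul _)
  calc |∫ x, (w x * ‖F n x‖ ^ 2 - w x * ‖f x‖ ^ 2) ∂μ|
      ≤ ∫ x, |w x * ‖F n x‖ ^ 2 - w x * ‖f x‖ ^ 2| ∂μ := abs_integral_le_integral_abs
    _ ≤ ∫ x, (1 / (2 * δ) * ‖f x - F n x‖ ^ 2
      + δ * (w x ^ 2 * ‖F n x‖ ^ 2 + w x ^ 2 * ‖f x‖ ^ 2)) ∂μ := by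
        refine integral_mono ((h1d_weight_int hw hw0 (hF n) (hwF n)).sub
          (h1d_weight_int hw hw0 hf hwf)).abs hi fun x => ?_
        refine h1d_pointwise _ (hw0 x) hδ0 (norm_nonneg _) (norm_nonneg _) ?_
        rw [norm_sub_rev]
        exact abs_norm_sub_norm_le _ _
    _ = 1 / (2 * δ) * (∫ x, ‖f x - F n x‖ ^ 2 ∂μ)
      + δ * ((∫ x, w x ^ 2 * ‖F n x‖ ^ 2 ∂μ) + ∫ x, w x ^ 2 * ‖f x‖ ^ 2 ∂μ) := by
        have j1 : Integrable (fun x => 1 / (2 * δ) * ‖f x - F n x‖ ^ 2) μ := hi1.const_mul _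
        have j2 : Integrable (fun x => δ * (w x ^ 2 * ‖F n x‖ ^ 2 + w x ^ 2 * ‖f x‖ ^ 2)) μ :=
          ((hwF n).add hwf).const_mul _
        rw [integral_add j1 j2, integral_const_mul, integral_const_mul,
          integral_add (hwF n) hwf]
    _ < 1 / (2 * δ) * (δ * ε) + δ * (M + M) + 0 := by
        have h2 : 1 / (2 * δ) * (∫ x, ‖f x - F n x‖ ^ 2 ∂μ) < 1 / (2 * δ) * (δ * ε) :=
          mul_lt_mul_of_pos_left h1' (by positivity)
        have h3 : δ * ((∫ x, w x ^ 2 * ‖F n x‖ ^ 2 ∂μ) + ∫ x, w x ^ 2 * ‖f x‖ ^ 2 ∂μ)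
            ≤ δ * (M + M) := mul_le_mul_of_nonneg_left (add_le_add (hMF n) hM) hδ0.le
        linarith
    _ ≤ ε := by
        have h4 : 1 / (2 * δ) * (δ * ε) = ε / 2 := by field_simp
        have h5 : δ * (M + M) ≤ ε / 2 := by
          rw [hδ, div_mul_eq_mul_div, div_le_div_iff₀ (by positivity) (by norm_num)]
          nlinarith
        linarith

/-- lower semicontinuity (Fatou) -/
theorem h1d_fatou {f : X → ℂ} {F : ℕ → X → ℂ} {w : X → ℝ} (hw : Measurable w)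
    (hf : MemLp f 2 μ) (hF : ∀ n, MemLp (F n) 2 μ)
    (hε : Tendsto (fun n => ∫ x, ‖f x - F n x‖ ^ 2 ∂μ) atTop (𝓝 0))
    (hwF : ∀ n, Integrable (fun x => w x ^ 2 * ‖F n x‖ ^ 2) μ) {M : ℝ}
    (hMF : ∀ n, ∫ x, w x ^ 2 * ‖F n x‖ ^ 2 ∂μ ≤ M) :
    Integrable (fun x => w x ^ 2 * ‖f x‖ ^ 2) μ ∧ ∫ x, w x ^ 2 * ‖f x‖ ^ 2 ∂μ ≤ M := by
  have hM0 : 0 ≤ M := le_trans (integral_nonneg fun x => by positivity) (hMF 0)
  -- convergence in measure
  have h1 : Tendsto (fun n => eLpNorm (F n - f) 2 μ) atTop (𝓝 0) := by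
    have h2 : ∀ n, eLpNorm (F n - f) 2 μ
        = ENNReal.ofReal ((∫ x, ‖f x - F n x‖ ^ 2 ∂μ) ^ (2 : ℝ)⁻¹) := by
      intro n
      rw [MemLp.eLpNorm_eq_integral_rpow_norm (by norm_num) (by norm_num) ((hF n).sub hf)]
      simp only [ENNReal.toReal_ofNat, Pi.sub_apply, Real.rpow_ofNat]
      congr 3
      funext x
      rw [norm_sub_rev]
    simp_rw [h2]
    rw [← ENNReal.ofReal_zero]
    refine ENNReal.tendsto_ofReal ?_
    have h3 := hε.rpow_const (p := (2 : ℝ)⁻¹) (Or.inr (by norm_num))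
    rwa [Real.zero_rpow (by norm_num)] at h3
  have h2 := tendstoInMeasure_of_tendsto_eLpNorm (by norm_num) (fun n => (hF n).1) hf.1 h1
  obtain ⟨ns, _, hae⟩ := h2.exists_seq_tendsto_ae
  have hmeas : AEStronglyMeasurable (fun x => w x ^ 2 * ‖f x‖ ^ 2) μ :=
    (hw.pow_const 2).aestronglyMeasurable.mul (hf.1.norm.pow 2)
  have h3 : ∫⁻ x, ENNReal.ofReal (w x ^ 2 * ‖f x‖ ^ 2) ∂μ ≤ ENNReal.ofReal M := by
    calc ∫⁻ x, ENNReal.ofReal (w x ^ 2 * ‖f x‖ ^ 2) ∂μ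
        = ∫⁻ x, liminf (fun k => ENNReal.ofReal (w x ^ 2 * ‖F (ns k) x‖ ^ 2)) atTop ∂μ := by
          refine lintegral_congr_ae ?_
          filter_upwards [hae] with x hx
          have : Tendsto (fun k => ENNReal.ofReal (w x ^ 2 * ‖F (ns k) x‖ ^ 2)) atTop
              (𝓝 (ENNReal.ofReal (w x ^ 2 * ‖f x‖ ^ 2))) :=
            ENNReal.tendsto_ofReal ((hx.norm.pow 2).const_mul _)
          exact this.liminf_eq.symm
      _ ≤ liminf (fun k => ∫⁻ x, ENNReal.ofReal (w x ^ 2 * ‖F (ns k) x‖ ^ 2) ∂μ) atTop :=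
          lintegral_liminf_le' fun k => (hwF (ns k)).1.aemeasurable.ennreal_ofReal
      _ ≤ liminf (fun _ : ℕ => ENNReal.ofReal M) atTop := by
          refine liminf_le_liminf (Eventually.of_forall fun k => ?_)
          rw [← ofReal_integral_eq_lintegral_ofReal (hwF (ns k))
            (Eventually.of_forall fun x => by positivity)]
          exact ENNReal.ofReal_le_ofReal (hMF (ns k))
      _ = ENNReal.ofReal M := by simp
  have hint : Integrable (fun x => w x ^ 2 * ‖f x‖ ^ 2) μ := by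
    refine ⟨hmeas, ?_⟩
    rw [hasFiniteIntegral_iff_ofReal (Eventually.of_forall fun x => by positivity)]
    exact lt_of_le_of_lt h3 ENNReal.ofReal_lt_top
  refine ⟨hint, ?_⟩
  rw [← ofReal_integral_eq_lintegral_ofReal hint (Eventually.of_forall fun x => by positivity)] at h3
  exact (ENNReal.ofReal_le_ofReal_iff hM0).1 h3

end Abstract

/-- the approximating sequence -/
theorem h1d_seq {N : ℕ} (ψ : (Fin N → E3) → ℂ) (g : Fin N → Fin 3 → (Fin N → E3) → ℂ)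
    (h : IsH1 ψ g) :
    ∃ v : ℕ → (Fin N → E3) → ℂ, (∀ n, ContDiff ℝ ((⊤ : ℕ∞) : WithTop ℕ∞) (v n)) ∧
      (∀ n, HasCompactSupport (v n)) ∧
      (∀ n : ℕ, (∫ x, ‖ψ x - v n x‖ ^ 2) ≤ 1 / ((n : ℝ) + 1)) ∧
      ∀ i c, ∀ n : ℕ, (∫ x, ‖g i c x - fderiv ℝ (v n) x (dir i c)‖ ^ 2) ≤ 1 / ((n : ℝ) + 1) := by
  have key : ∀ n : ℕ, ∃ v : (Fin N → E3) → ℂ, ContDiff ℝ ((⊤ : ℕ∞) : WithTop ℕ∞) v ∧
      HasCompactSupport v ∧ (∫ x, ‖ψ x - v x‖ ^ 2) ≤ 1 / ((n : ℝ) + 1) ∧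
      ∀ i c, (∫ x, ‖g i c x - fderiv ℝ v x (dir i c)‖ ^ 2) ≤ 1 / ((n : ℝ) + 1) := by
    intro n
    have hε : (0 : ℝ) < 1 / ((n : ℝ) + 1) / 4 := by positivity
    obtain ⟨u, u1, u2, u3, u4, u5⟩ := h1_smooth_approx ψ g h _ hε
    obtain ⟨v, v1, v2, v3, v4⟩ := h1_cut_approx u u1 u2 u3 _ hε
    have hv := isH1_of_smooth v v1 v2
    refine ⟨v, v1, v2, ?_, fun i c => ?_⟩
    · have := h1d_triangle h.memLp u2 hv.memLp
      linarith
    · have := h1d_triangle (h.memLp_grad i c) (u3 i c) (hv.memLp_grad i c)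
      have h5 := u5 i c
      have h6 := v4 i c
      linarith
  choose v h1 h2 h3 h4 using key
  exact ⟨v, h1, h2, h3, fun i c n => h4 n i c⟩

/-- splitting of the Coulomb energy -/
theorem h1d_coul {N K : ℕ} (z : ℝ) (R : Fin K → E3) (u : (Fin N → E3) → ℂ)
    (h0 : Integrable (fun x => ‖u x‖ ^ 2))
    (h1 : ∀ i j : Fin N, Integrable (fun x : Fin N → E3 => 1 / ‖x i - x j‖ * ‖u x‖ ^ 2))
    (h2 : ∀ (i : Fin N) (j : Fin K),
      Integrable (fun x : Fin N → E3 => 1 / ‖x i - R j‖ * ‖u x‖ ^ 2)) :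
    Integrable (fun x => coul z x R * ‖u x‖ ^ 2) ∧
      (∫ x, coul z x R * ‖u x‖ ^ 2) =
        1 / 2 * ∑ i, ∑ j, (∫ x : Fin N → E3, 1 / ‖x i - x j‖ * ‖u x‖ ^ 2)
        - z * ∑ i, ∑ j, (∫ x : Fin N → E3, 1 / ‖x i - R j‖ * ‖u x‖ ^ 2)
        + (z ^ 2 / 2 * ∑ i, ∑ j, 1 / ‖R i - R j‖) * ∫ x, ‖u x‖ ^ 2 := by
  have e : (fun x => coul z x R * ‖u x‖ ^ 2) = fun x =>
      1 / 2 * (∑ i, ∑ j, 1 / ‖x i - x j‖ * ‖u x‖ ^ 2)
        - z * (∑ i, ∑ j, 1 / ‖x i - R j‖ * ‖u x‖ ^ 2)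
        + (z ^ 2 / 2 * ∑ i, ∑ j, 1 / ‖R i - R j‖) * ‖u x‖ ^ 2 := by
    funext x
    unfold coul
    simp only [← Finset.sum_mul]
    ring
  have i1 : Integrable (fun x : Fin N → E3 => ∑ i, ∑ j, 1 / ‖x i - x j‖ * ‖u x‖ ^ 2) :=
    integrable_finsetSum _ fun i _ => integrable_finsetSum _ fun j _ => h1 i j
  have i2 : Integrable (fun x : Fin N → E3 => ∑ i, ∑ j, 1 / ‖x i - R j‖ * ‖u x‖ ^ 2) :=
    integrable_finsetSum _ fun i _ => integrable_finsetSum _ fun j _ => h2 i j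
  rw [e]
  refine ⟨((i1.const_mul _).sub (i2.const_mul _)).add (h0.const_mul _), ?_⟩
  have j1 : Integrable (fun x : Fin N → E3 => 1 / 2 * (∑ i, ∑ j, 1 / ‖x i - x j‖ * ‖u x‖ ^ 2)
        - z * (∑ i, ∑ j, 1 / ‖x i - R j‖ * ‖u x‖ ^ 2)) :=
    (i1.const_mul _).sub (i2.const_mul _)
  have j2 : Integrable (fun x : Fin N → E3 =>
      (z ^ 2 / 2 * ∑ i, ∑ j, 1 / ‖R i - R j‖) * ‖u x‖ ^ 2) := h0.const_mul _
  rw [integral_add j1 j2, integral_sub (i1.const_mul _) (i2.const_mul _), integral_const_mul,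
    integral_const_mul, integral_const_mul]
  congr 2
  · congr 1
    rw [integral_finsetSum _ fun i _ => integrable_finsetSum _ fun j _ => h1 i j]
    exact Finset.sum_congr rfl fun i _ => integral_finsetSum _ fun j _ => h1 i j
  · congr 1
    rw [integral_finsetSum _ fun i _ => integrable_finsetSum _ fun j _ => h2 i j]
    exact Finset.sum_congr rfl fun i _ => integral_finsetSum _ fun j _ => h2 i j

theorem h1_form {N K : ℕ} (z m : ℝ) (R : Fin K → E3) (ψ : (Fin N → E3) → ℂ)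
    (g : Fin N → Fin 3 → (Fin N → E3) → ℂ) (h : IsH1 ψ g)
    (hm : ∀ u : (Fin N → E3) → ℂ, ContDiff ℝ ((⊤ : ℕ∞) : WithTop ℕ∞) u →
      HasCompactSupport u → m * (∫ x, ‖u x‖ ^ 2) ≤
        (∫ x, ∑ i, gradSq u i x) + (∫ x, coul z x R * ‖u x‖ ^ 2)) :
    Integrable (fun x => coul z x R * ‖ψ x‖ ^ 2) ∧
      m * (∫ x, ‖ψ x‖ ^ 2) ≤ formH1 z R ψ g := by
  obtain ⟨v, v1, v2, v3, v4⟩ := h1d_seq ψ g h
  have vc : ∀ n, ContDiff ℝ 1 (v n) := fun n => (v1 n).of_le (by exact_mod_cast le_top)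
  have vH : ∀ n, IsH1 (v n) (fun i c x => fderiv ℝ (v n) x (dir i c)) := fun n =>
    isH1_of_smooth (v n) (v1 n) (v2 n)
  have hz : Tendsto (fun n : ℕ => 1 / ((n : ℝ) + 1)) atTop (𝓝 0) :=
    tendsto_one_div_add_atTop_nhds_zero_nat
  have c0 : Tendsto (fun n => ∫ x, ‖ψ x - v n x‖ ^ 2) atTop (𝓝 0) :=
    squeeze_zero (fun n => integral_nonneg fun x => by positivity) v3 hz
  have c1 : ∀ i c, Tendsto (fun n => ∫ x, ‖g i c x - fderiv ℝ (v n) x (dir i c)‖ ^ 2) atTop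
      (𝓝 0) := fun i c =>
    squeeze_zero (fun n => integral_nonneg fun x => by positivity) (v4 i c) hz
  have hone : ∀ n : ℕ, 1 / ((n : ℝ) + 1) ≤ 1 := by
    intro n
    rw [div_le_one (by positivity)]
    have : (0 : ℝ) ≤ n := by positivity
    linarith
  -- convergence without weight
  have lim1 : ∀ (f : (Fin N → E3) → ℂ) (F : ℕ → (Fin N → E3) → ℂ), MemLp f 2 →
      (∀ n, MemLp (F n) 2) → (∀ n : ℕ, (∫ x, ‖f x - F n x‖ ^ 2) ≤ 1 / ((n : ℝ) + 1)) →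
      Tendsto (fun n => ∫ x, ‖F n x‖ ^ 2) atTop (𝓝 (∫ x, ‖f x‖ ^ 2)) := by
    intro f F hf hF hb
    have hb0 : Tendsto (fun n => ∫ x, ‖f x - F n x‖ ^ 2) atTop (𝓝 0) :=
      squeeze_zero (fun n => integral_nonneg fun x => by positivity) hb hz
    have h1 := h1d_lim (μ := (volume : Measure (Fin N → E3))) (w := fun _ => (1 : ℝ))
      (M := 2 * (∫ x, ‖f x‖ ^ 2) + 2) measurable_const (fun _ => zero_le_one) hf hF hb0
      (by simpa using h1d_sq_int hf) (fun n => by simpa using h1d_sq_int (hF n)) ?_ ?_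
    · simpa using h1
    · simp only [one_pow, one_mul]
      have : 0 ≤ ∫ x, ‖f x‖ ^ 2 := integral_nonneg fun x => by positivity
      linarith
    · intro n
      simp only [one_pow, one_mul]
      have h2 := h1d_norm_le hf (hF n)
      have h3 := hb n
      have h4 := hone n
      linarith
  have l0 : Tendsto (fun n => ∫ x, ‖v n x‖ ^ 2) atTop (𝓝 (∫ x, ‖ψ x‖ ^ 2)) :=
    lim1 ψ v h.memLp (fun n => (vH n).memLp) v3
  have lg : ∀ i c, Tendsto (fun n => ∫ x, ‖fderiv ℝ (v n) x (dir i c)‖ ^ 2) atTop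
      (𝓝 (∫ x, ‖g i c x‖ ^ 2)) := fun i c =>
    lim1 (g i c) (fun n x => fderiv ℝ (v n) x (dir i c)) (h.memLp_grad i c)
      (fun n => (vH n).memLp_grad i c) (v4 i c)
  -- kinetic energy of one particle
  have hgs : ∀ n i, (∫ x, gradSq (v n) i x) = ∑ c, ∫ x, ‖fderiv ℝ (v n) x (dir i c)‖ ^ 2 := by
    intro n i
    have : (fun x => gradSq (v n) i x) = fun x => ∑ c, ‖fderiv ℝ (v n) x (dir i c)‖ ^ 2 :=
      funext fun x => gradSq_dir (v n) (vc n) i x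
    rw [this, integral_finsetSum _ fun c _ => h1d_sq_int ((vH n).memLp_grad i c)]
  have hgi : ∀ n i, Integrable (fun x => gradSq (v n) i x) := by
    intro n i
    have : (fun x => gradSq (v n) i x) = fun x => ∑ c, ‖fderiv ℝ (v n) x (dir i c)‖ ^ 2 :=
      funext fun x => gradSq_dir (v n) (vc n) i x
    rw [this]
    exact integrable_finsetSum _ fun c _ => h1d_sq_int ((vH n).memLp_grad i c)
  have hgb : ∀ i : Fin N, ∃ M : ℝ, ∀ n, (∫ x, gradSq (v n) i x) ≤ M := by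
    intro i
    refine ⟨∑ c, (2 * (∫ x, ‖g i c x‖ ^ 2) + 2), fun n => ?_⟩
    rw [hgs]
    refine Finset.sum_le_sum fun c _ => ?_
    have h2 := h1d_norm_le (h.memLp_grad i c) ((vH n).memLp_grad i c)
    have h3 := v4 i c n
    have h4 := hone n
    linarith
  -- the weighted terms
  have wterm : ∀ (w : (Fin N → E3) → ℝ) (i : Fin N), Measurable w → (∀ x, 0 ≤ w x) →
      (∀ n, Integrable (fun x => w x ^ 2 * ‖v n x‖ ^ 2) ∧
        (∫ x, w x ^ 2 * ‖v n x‖ ^ 2) ≤ 4 * ∫ x, gradSq (v n) i x) →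
      Integrable (fun x => w x * ‖ψ x‖ ^ 2) ∧ (∀ n, Integrable (fun x => w x * ‖v n x‖ ^ 2)) ∧
        Tendsto (fun n => ∫ x, w x * ‖v n x‖ ^ 2) atTop (𝓝 (∫ x, w x * ‖ψ x‖ ^ 2)) := by
    intro w i hw hw0 hh
    obtain ⟨M, hM⟩ := hgb i
    have hMF : ∀ n, ∫ x, w x ^ 2 * ‖v n x‖ ^ 2 ≤ 4 * M := fun n =>
      (hh n).2.trans (mul_le_mul_of_nonneg_left (hM n) (by norm_num))
    obtain ⟨f1, f2⟩ := h1d_fatou (μ := (volume : Measure (Fin N → E3))) hw h.memLp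
      (fun n => (vH n).memLp) c0 (fun n => (hh n).1) hMF
    exact ⟨h1d_weight_int hw hw0 h.memLp f1,
      fun n => h1d_weight_int hw hw0 (vH n).memLp (hh n).1,
      h1d_lim hw hw0 h.memLp (fun n => (vH n).memLp) c0 f1 (fun n => (hh n).1) f2 hMF⟩
  have hsq : ∀ (a b : ℝ), b / a ^ 2 = (1 / a) ^ 2 * b := by
    intro a b
    rw [div_pow, one_pow]; ring
  have wen : ∀ (i : Fin N) (j : Fin K), Integrable (fun x => 1 / ‖x i - R j‖ * ‖ψ x‖ ^ 2) ∧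
      (∀ n, Integrable (fun x => 1 / ‖x i - R j‖ * ‖v n x‖ ^ 2)) ∧
        Tendsto (fun n => ∫ x, 1 / ‖x i - R j‖ * ‖v n x‖ ^ 2) atTop
          (𝓝 (∫ x, 1 / ‖x i - R j‖ * ‖ψ x‖ ^ 2)) := by
    intro i j
    refine wterm (fun x => 1 / ‖x i - R j‖) i ?_ (fun x => by positivity) fun n => ?_
    · fun_prop
    · have := hardy_en (v n) (vc n) (v2 n) i (R j)
      simp_rw [hsq] at this
      exact this
  have wee : ∀ (i j : Fin N), Integrable (fun x => 1 / ‖x i - x j‖ * ‖ψ x‖ ^ 2) ∧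
      (∀ n, Integrable (fun x => 1 / ‖x i - x j‖ * ‖v n x‖ ^ 2)) ∧
        Tendsto (fun n => ∫ x, 1 / ‖x i - x j‖ * ‖v n x‖ ^ 2) atTop
          (𝓝 (∫ x, 1 / ‖x i - x j‖ * ‖ψ x‖ ^ 2)) := by
    intro i j
    by_cases hij : i = j
    · subst hij
      simp
    · refine wterm (fun x => 1 / ‖x i - x j‖) i ?_ (fun x => by positivity) fun n => ?_
      · fun_prop
      · have := hardy_ee (v n) (vc n) (v2 n) i j hij
        simp_rw [hsq] at this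
        exact this
  obtain ⟨p1, p2⟩ := h1d_coul z R ψ (h1d_sq_int h.memLp) (fun i j => (wee i j).1)
    (fun i j => (wen i j).1)
  refine ⟨p1, ?_⟩
  have q2 : ∀ n, (∫ x, coul z x R * ‖v n x‖ ^ 2) = _ := fun n =>
    (h1d_coul z R (v n) (h1d_sq_int (vH n).memLp) (fun i j => (wee i j).2.1 n)
    (fun i j => (wen i j).2.1 n)).2
  have lc : Tendsto (fun n => ∫ x, coul z x R * ‖v n x‖ ^ 2) atTop
      (𝓝 (∫ x, coul z x R * ‖ψ x‖ ^ 2)) := by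
    rw [p2]
    simp_rw [q2]
    refine ((Tendsto.const_mul _ ?_).sub (Tendsto.const_mul _ ?_)).add (l0.const_mul _)
    · exact tendsto_finsetSum _ fun i _ => tendsto_finsetSum _ fun j _ => (wee i j).2.2
    · exact tendsto_finsetSum _ fun i _ => tendsto_finsetSum _ fun j _ => (wen i j).2.2
  have lk : Tendsto (fun n => ∫ x, ∑ i, gradSq (v n) i x) atTop
      (𝓝 (∑ i, ∑ c, ∫ x, ‖g i c x‖ ^ 2)) := by
    have : ∀ n, (∫ x, ∑ i, gradSq (v n) i x)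
        = ∑ i, ∑ c, ∫ x, ‖fderiv ℝ (v n) x (dir i c)‖ ^ 2 := by
      intro n
      rw [integral_finsetSum _ fun i _ => hgi n i]
      exact Finset.sum_congr rfl fun i _ => hgs n i
    simp_rw [this]
    exact tendsto_finsetSum _ fun i _ => tendsto_finsetSum _ fun c _ => lg i c
  unfold formH1
  exact le_of_tendsto_of_tendsto' (l0.const_mul m) (lk.add lc) fun n => hm (v n) (v1 n) (v2 n)

end Pool.Agent.H5R2.NL
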