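import Pool.Agent.H5R2.NL.H1D

/-!
# The Coulomb energy of an `H¹` function converges absolutely (from helper496's proof in `H1D`)
-/

set_option autoImplicit false

noncomputable section

namespace Pool.Agent.H5R2.NL

open MeasureTheory Metric Filter Topology
open scoped ENNReal

theorem h1_integrable {N K : ℕ} (z : ℝ) (R : Fin K → E3) (ψ : (Fin N → E3) → ℂ)
    (g : Fin N → Fin 3 → (Fin N → E3) → ℂ) (h : IsH1 ψ g) :
    Integrable (fun x => coul z x R * ‖ψ x‖ ^ 2) := by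
  obtain ⟨v, v1, v2, v3, v4⟩ := h1d_seq ψ g h
  have vc : ∀ n, ContDiff ℝ 1 (v n) := fun n => (v1 n).of_le (by exact_mod_cast le_top)
  have vH : ∀ n, IsH1 (v n) (fun i c x => fderiv ℝ (v n) x (dir i c)) := fun n =>
    isH1_of_smooth (v n) (v1 n) (v2 n)
  have hz : Tendsto (fun n : ℕ => 1 / ((n : ℝ) + 1)) atTop (𝓝 0) :=
    tendsto_one_div_add_atTop_nhds_zero_nat
  have c0 : Tendsto (fun n => ∫ x, ‖ψ x - v n x‖ ^ 2) atTop (𝓝 0) :=
    squeeze_zero (fun n => integral_nonneg fun x => by positivity) v3 hz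
  have c1 : ∀ i c, Tendsto (fun n => ∫ x, ‖g i c x - fderiv ℝ (v n) x (dir i c)‖ ^ 2) atTop
      (𝓝 0) := fun i c =>
    squeeze_zero (fun n => integral_nonneg fun x => by positivity) (v4 i c) hz
  have hone : ∀ n : ℕ, 1 / ((n : ℝ) + 1) ≤ 1 := by
    intro n
    rw [div_le_one (by positivity)]
    have : (0 : ℝ) ≤ n := by positivity
    linarith
  -- convergence without weight
  have lim1 : ∀ (f : (Fin N → E3) → ℂ) (F : ℕ → (Fin N → E3) → ℂ), MemLp f 2 →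
      (∀ n, MemLp (F n) 2) → (∀ n : ℕ, (∫ x, ‖f x - F n x‖ ^ 2) ≤ 1 / ((n : ℝ) + 1)) →
      Tendsto (fun n => ∫ x, ‖F n x‖ ^ 2) atTop (𝓝 (∫ x, ‖f x‖ ^ 2)) := by
    intro f F hf hF hb
    have hb0 : Tendsto (fun n => ∫ x, ‖f x - F n x‖ ^ 2) atTop (𝓝 0) :=
      squeeze_zero (fun n => integral_nonneg fun x => by positivity) hb hz
    have h1 := h1d_lim (μ := (volume : Measure (Fin N → E3))) (w := fun _ => (1 : ℝ))
      (M := 2 * (∫ x, ‖f x‖ ^ 2) + 2) measurable_const (fun _ => zero_le_one) hf hF hb0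
      (by simpa using h1d_sq_int hf) (fun n => by simpa using h1d_sq_int (hF n)) ?_ ?_
    · simpa using h1
    · simp only [one_pow, one_mul]
      have : 0 ≤ ∫ x, ‖f x‖ ^ 2 := integral_nonneg fun x => by positivity
      linarith
    · intro n
      simp only [one_pow, one_mul]
      have h2 := h1d_norm_le hf (hF n)
      have h3 := hb n
      have h4 := hone n
      linarith
  have l0 : Tendsto (fun n => ∫ x, ‖v n x‖ ^ 2) atTop (𝓝 (∫ x, ‖ψ x‖ ^ 2)) :=
    lim1 ψ v h.memLp (fun n => (vH n).memLp) v3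
  have lg : ∀ i c, Tendsto (fun n => ∫ x, ‖fderiv ℝ (v n) x (dir i c)‖ ^ 2) atTop
      (𝓝 (∫ x, ‖g i c x‖ ^ 2)) := fun i c =>
    lim1 (g i c) (fun n x => fderiv ℝ (v n) x (dir i c)) (h.memLp_grad i c)
      (fun n => (vH n).memLp_grad i c) (v4 i c)
  -- kinetic energy of one particle
  have hgs : ∀ n i, (∫ x, gradSq (v n) i x) = ∑ c, ∫ x, ‖fderiv ℝ (v n) x (dir i c)‖ ^ 2 := by
    intro n i
    have : (fun x => gradSq (v n) i x) = fun x => ∑ c, ‖fderiv ℝ (v n) x (dir i c)‖ ^ 2 :=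
      funext fun x => gradSq_dir (v n) (vc n) i x
    rw [this, integral_finsetSum _ fun c _ => h1d_sq_int ((vH n).memLp_grad i c)]
  have hgi : ∀ n i, Integrable (fun x => gradSq (v n) i x) := by
    intro n i
    have : (fun x => gradSq (v n) i x) = fun x => ∑ c, ‖fderiv ℝ (v n) x (dir i c)‖ ^ 2 :=
      funext fun x => gradSq_dir (v n) (vc n) i x
    rw [this]
    exact integrable_finsetSum _ fun c _ => h1d_sq_int ((vH n).memLp_grad i c)
  have hgb : ∀ i : Fin N, ∃ M : ℝ, ∀ n, (∫ x, gradSq (v n) i x) ≤ M := by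
    intro i
    refine ⟨∑ c, (2 * (∫ x, ‖g i c x‖ ^ 2) + 2), fun n => ?_⟩
    rw [hgs]
    refine Finset.sum_le_sum fun c _ => ?_
    have h2 := h1d_norm_le (h.memLp_grad i c) ((vH n).memLp_grad i c)
    have h3 := v4 i c n
    have h4 := hone n
    linarith
  -- the weighted terms
  have wterm : ∀ (w : (Fin N → E3) → ℝ) (i : Fin N), Measurable w → (∀ x, 0 ≤ w x) →
      (∀ n, Integrable (fun x => w x ^ 2 * ‖v n x‖ ^ 2) ∧
        (∫ x, w x ^ 2 * ‖v n x‖ ^ 2) ≤ 4 * ∫ x, gradSq (v n) i x) →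
      Integrable (fun x => w x * ‖ψ x‖ ^ 2) ∧ (∀ n, Integrable (fun x => w x * ‖v n x‖ ^ 2)) ∧
        Tendsto (fun n => ∫ x, w x * ‖v n x‖ ^ 2) atTop (𝓝 (∫ x, w x * ‖ψ x‖ ^ 2)) := by
    intro w i hw hw0 hh
    obtain ⟨M, hM⟩ := hgb i
    have hMF : ∀ n, ∫ x, w x ^ 2 * ‖v n x‖ ^ 2 ≤ 4 * M := fun n =>
      (hh n).2.trans (mul_le_mul_of_nonneg_left (hM n) (by norm_num))
    obtain ⟨f1, f2⟩ := h1d_fatou (μ := (volume : Measure (Fin N → E3))) hw h.memLp
      (fun n => (vH n).memLp) c0 (fun n => (hh n).1) hMF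
    exact ⟨h1d_weight_int hw hw0 h.memLp f1,
      fun n => h1d_weight_int hw hw0 (vH n).memLp (hh n).1,
      h1d_lim hw hw0 h.memLp (fun n => (vH n).memLp) c0 f1 (fun n => (hh n).1) f2 hMF⟩
  have hsq : ∀ (a b : ℝ), b / a ^ 2 = (1 / a) ^ 2 * b := by
    intro a b
    rw [div_pow, one_pow]; ring
  have wen : ∀ (i : Fin N) (j : Fin K), Integrable (fun x => 1 / ‖x i - R j‖ * ‖ψ x‖ ^ 2) ∧
      (∀ n, Integrable (fun x => 1 / ‖x i - R j‖ * ‖v n x‖ ^ 2)) ∧
        Tendsto (fun n => ∫ x, 1 / ‖x i - R j‖ * ‖v n x‖ ^ 2) atTop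
          (𝓝 (∫ x, 1 / ‖x i - R j‖ * ‖ψ x‖ ^ 2)) := by
    intro i j
    refine wterm (fun x => 1 / ‖x i - R j‖) i ?_ (fun x => by positivity) fun n => ?_
    · fun_prop
    · have := hardy_en (v n) (vc n) (v2 n) i (R j)
      simp_rw [hsq] at this
      exact this
  have wee : ∀ (i j : Fin N), Integrable (fun x => 1 / ‖x i - x j‖ * ‖ψ x‖ ^ 2) ∧
      (∀ n, Integrable (fun x => 1 / ‖x i - x j‖ * ‖v n x‖ ^ 2)) ∧
        Tendsto (fun n => ∫ x, 1 / ‖x i - x j‖ * ‖v n x‖ ^ 2) atTop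
          (𝓝 (∫ x, 1 / ‖x i - x j‖ * ‖ψ x‖ ^ 2)) := by
    intro i j
    by_cases hij : i = j
    · subst hij
      simp
    · refine wterm (fun x => 1 / ‖x i - x j‖) i ?_ (fun x => by positivity) fun n => ?_
      · fun_prop
      · have := hardy_ee (v n) (vc n) (v2 n) i j hij
        simp_rw [hsq] at this
        exact this
  exact (h1d_coul z R ψ (h1d_sq_int h.memLp) (fun i j => (wee i j).1)
    (fun i j => (wen i j).1)).1

end Pool.Agent.H5R2.NL
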