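import Mathlib
import Pool.Agent.H5R2.NL.All

/-!
# Assembly of the lower bound, part A: integration over the balls
-/

set_option autoImplicit false
set_option maxHeartbeats 400000

noncomputable section

namespace Pool.Agent.H5R2.NL

open MeasureTheory Metric
open scoped ENNReal

theorem low_inB_nonneg (w : E3) (r : ℝ) (x : E3) : 0 ≤ inB w r x := by
  unfold inB; split_ifs <;> norm_num

theorem low_inB_le (w : E3) (r : ℝ) (x : E3) : inB w r x ≤ 1 := by
  unfold inB; split_ifs <;> norm_num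

theorem low_inB_meas {X : Type*} [MeasurableSpace X] (p : X → E3) (hp : Measurable p) :
    Measurable fun bx : (ℝ × E3) × X => inB bx.1.2 bx.1.1 (p bx.2) := by
  unfold inB
  refine Measurable.ite ?_ measurable_const measurable_const
  exact measurableSet_lt (by fun_prop) (by fun_prop)

theorem low_hker_nonneg (ℓ t : ℝ) : 0 ≤ hker ℓ t := by
  unfold hker; positivity

theorem low_hker_le (ℓ t : ℝ) (hℓ : 0 < ℓ) (ht : 0 ≤ t) : hker ℓ t ≤ 1 := by
  unfold hker
  have h1 : max 0 (1 - t / (2 * ℓ)) ≤ 1 := by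
    refine max_le zero_le_one ?_
    have : 0 ≤ t / (2 * ℓ) := by positivity
    linarith
  exact pow_le_one₀ (le_max_left _ _) h1

theorem low_prod_int {X : Type*} [MeasurableSpace X] (μ : Measure X) [SFinite μ] (ℓ : ℝ)
    (hℓ : 0 < ℓ) (p q : X → E3) (hp : Measurable p) (hq : Measurable q) (f : X → ℝ)
    (hf : Integrable f μ) :
    Integrable (fun bx : (ℝ × E3) × X =>
      inB bx.1.2 bx.1.1 (p bx.2) * inB bx.1.2 bx.1.1 (q bx.2) * f bx.2) ((bm ℓ).prod μ) := by
  have hm : AEStronglyMeasurable (fun bx : (ℝ × E3) × X =>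
      inB bx.1.2 bx.1.1 (p bx.2) * inB bx.1.2 bx.1.1 (q bx.2) * f bx.2) ((bm ℓ).prod μ) := by
    refine AEStronglyMeasurable.mul ?_ hf.aestronglyMeasurable.comp_snd
    exact ((low_inB_meas p hp).mul (low_inB_meas q hq)).aestronglyMeasurable
  rw [integrable_prod_iff' hm]
  constructor
  · refine Filter.Eventually.of_forall fun x => ?_
    exact (bm_pair_int ℓ hℓ (p x) (q x)).mul_const (f x)
  · have h1 : (fun x => ∫ b, ‖inB b.2 b.1 (p x) * inB b.2 b.1 (q x) * f x‖ ∂bm ℓ) =
        fun x => hker ℓ ‖p x - q x‖ * ‖f x‖ := by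
      funext x
      have : ∀ b : ℝ × E3, ‖inB b.2 b.1 (p x) * inB b.2 b.1 (q x) * f x‖ =
          inB b.2 b.1 (p x) * inB b.2 b.1 (q x) * ‖f x‖ := by
        intro b
        rw [norm_mul, Real.norm_of_nonneg
          (mul_nonneg (low_inB_nonneg _ _ _) (low_inB_nonneg _ _ _))]
      simp_rw [this]
      rw [integral_mul_const, bm_pair ℓ hℓ]
    show Integrable (fun x => ∫ b, ‖inB b.2 b.1 (p x) * inB b.2 b.1 (q x) * f x‖ ∂bm ℓ) μ
    rw [h1]
    refine hf.norm.bdd_mul (c := 1) ?_ ?_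
    · refine Measurable.aestronglyMeasurable ?_
      unfold hker
      fun_prop
    · refine Filter.Eventually.of_forall fun x => ?_
      rw [Real.norm_of_nonneg (low_hker_nonneg _ _)]
      exact low_hker_le _ _ hℓ (norm_nonneg _)

theorem low_prod_swap {X : Type*} [MeasurableSpace X] (μ : Measure X) [SFinite μ] (ℓ : ℝ)
    (hℓ : 0 < ℓ) (p q : X → E3) (hp : Measurable p) (hq : Measurable q) (f : X → ℝ)
    (hf : Integrable f μ) :
    (∫ b : ℝ × E3, (∫ x, inB b.2 b.1 (p x) * inB b.2 b.1 (q x) * f x ∂μ) ∂bm ℓ) =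
      ∫ x, hker ℓ ‖p x - q x‖ * f x ∂μ := by
  have h := low_prod_int μ ℓ hℓ p q hp hq f hf
  have h2 := integral_integral_swap
    (f := fun (b : ℝ × E3) (x : X) => inB b.2 b.1 (p x) * inB b.2 b.1 (q x) * f x) h
  refine h2.trans (integral_congr_ae (Filter.Eventually.of_forall fun x => ?_))
  have h3 : (∫ b : ℝ × E3, inB b.2 b.1 (p x) * inB b.2 b.1 (q x) * f x ∂bm ℓ) =
      hker ℓ ‖p x - q x‖ * f x := by
    rw [integral_mul_const, bm_pair ℓ hℓ]
  exact h3

end Pool.Agent.H5R2.NL
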