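import Mathlib
import Pool.Agent.H5R2.NL.All
import Pool.Agent.H5R2.NL.LowA

/-!
# Assembly of the lower bound, part B: the local estimate
-/

set_option autoImplicit false
set_option maxHeartbeats 400000

noncomputable section

namespace Pool.Agent.H5R2.NL

open MeasureTheory Metric
open scoped ENNReal

theorem low_PB_subset (ι : Type) (w : E3) (r : ℝ) :
    PB ι w r ⊆ Set.pi Set.univ fun _ : ι => closedBall w r :=
  Set.pi_mono fun _ _ => ball_subset_closedBall

theorem low_intOn {ι : Type} [Fintype ι] (w : E3) (r : ℝ) (f : (ι → E3) → ℝ)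
    (hf : Continuous f) : IntegrableOn f (PB ι w r) := by
  have hc : IsCompact (Set.pi Set.univ fun _ : ι => closedBall w r) :=
    isCompact_univ_pi fun _ => isCompact_closedBall w r
  exact (hf.continuousOn.integrableOn_compact hc).mono_set (low_PB_subset ι w r)

theorem low_PB_meas (ι : Type) [Fintype ι] (w : E3) (r : ℝ) : MeasurableSet (PB ι w r) :=
  MeasurableSet.univ_pi fun _ => measurableSet_ball

theorem low_coul_intOn {ι κ : Type} [Fintype ι] [Fintype κ] (z : ℝ) (R : κ → E3) (w : E3)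
    (r : ℝ) (u : (ι → E3) → ℂ) (hu : Continuous u) :
    IntegrableOn (fun x => coul z x R * ‖u x‖ ^ 2) (PB ι w r) := by
  have h1 : (fun x : ι → E3 => coul z x R * ‖u x‖ ^ 2) = fun x =>
      1 / 2 * (∑ i, ∑ j, 1 / ‖x i - x j‖ * ‖u x‖ ^ 2)
        - z * (∑ i, ∑ j, 1 / ‖x i - R j‖ * ‖u x‖ ^ 2)
        + (z ^ 2 / 2 * ∑ i, ∑ j, 1 / ‖R i - R j‖) * ‖u x‖ ^ 2 := by
    funext x
    unfold coul
    simp_rw [← Finset.sum_mul]
    ring
  rw [h1]
  have h2 : IntegrableOn (fun x : ι → E3 => ∑ i, ∑ j, 1 / ‖x i - x j‖ * ‖u x‖ ^ 2)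
      (PB ι w r) :=
    integrable_finsetSum _ fun i _ => integrable_finsetSum _ fun j _ =>
      integrableOn_ee w r u hu i j
  have h3 : IntegrableOn (fun x : ι → E3 => ∑ i, ∑ j, 1 / ‖x i - R j‖ * ‖u x‖ ^ 2)
      (PB ι w r) :=
    integrable_finsetSum _ fun i _ => integrable_finsetSum _ fun j _ =>
      integrableOn_en w r u hu i (R j)
  have h4 : IntegrableOn (fun x : ι → E3 => ‖u x‖ ^ 2) (PB ι w r) :=
    low_intOn w r _ (by fun_prop)
  exact ((h2.const_mul _).sub (h3.const_mul _)).add (h4.const_mul _)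

theorem low_prs_meas {ι : Type} [Fintype ι] [DecidableEq ι] (s : ℝ) :
    Measurable fun x : ι → E3 => prs s x := by
  unfold prs
  refine Finset.measurable_fun_sum _ fun i _ => Finset.measurable_fun_sum _ fun j _ => ?_
  refine Measurable.ite ?_ measurable_const measurable_const
  by_cases hij : i = j
  · simp [hij]
  · simp only [ne_eq, hij, not_false_eq_true, true_and]
    exact measurableSet_lt (by fun_prop) (by fun_prop)

theorem low_prs_nonneg {ι : Type} [Fintype ι] [DecidableEq ι] (s : ℝ) (x : ι → E3) :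
    0 ≤ prs s x := by
  unfold prs
  refine Finset.sum_nonneg fun i _ => Finset.sum_nonneg fun j _ => ?_
  split_ifs <;> norm_num

theorem low_prs_le {ι : Type} [Fintype ι] [DecidableEq ι] (s : ℝ) (x : ι → E3) :
    prs s x ≤ (Fintype.card ι : ℝ) ^ 2 := by
  unfold prs
  calc _ ≤ ∑ _i : ι, ∑ _j : ι, (1 : ℝ) :=
        Finset.sum_le_sum fun i _ => Finset.sum_le_sum fun j _ => by split_ifs <;> norm_num
    _ = _ := by simp [sq]

theorem low_nB_glue {N : ℕ} (S : Finset (Fin N)) (w : E3) (r : ℝ) (y : ↥S → E3)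
    (x' : Fin N → E3) (hy : y ∈ PB ↥S w r) (hx : ∀ i, i ∉ S → x' i ∉ ball w r) :
    nB w r (glue S y x') = S.card := by
  unfold nB
  have h1 : ∀ i, inB w r (glue S y x' i) = if i ∈ S then 1 else 0 := by
    intro i
    unfold inB glue
    by_cases hi : i ∈ S
    · have : ‖y ⟨i, hi⟩ - w‖ < r := by
        have := hy ⟨i, hi⟩ (Set.mem_univ _)
        rwa [mem_ball, dist_eq_norm] at this
      simp [hi, this]
    · have : ¬ ‖x' i - w‖ < r := by
        have := hx i hi
        rwa [mem_ball, dist_eq_norm] at this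
      simp [hi, this]
  simp_rw [h1]
  simp

theorem low_prsB_glue {N : ℕ} (S : Finset (Fin N)) (w : E3) (r s : ℝ) (y : ↥S → E3)
    (x' : Fin N → E3) (hy : y ∈ PB ↥S w r) (hx : ∀ i, i ∉ S → x' i ∉ ball w r) :
    prsB w r s (glue S y x') = prs s y := by
  unfold prsB prs
  have h1 : ∀ i, i ∉ S → inB w r (glue S y x' i) = 0 := by
    intro i hi
    unfold inB glue
    have : ¬ ‖x' i - w‖ < r := by
      have := hx i hi
      rwa [mem_ball, dist_eq_norm] at this
    simp [hi, this]
  have h2 : ∀ i : ↥S, inB w r (glue S y x' i) = 1 := by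
    intro i
    unfold inB glue
    have : ‖y i - w‖ < r := by
      have := hy i (Set.mem_univ _)
      rwa [mem_ball, dist_eq_norm] at this
    simp [this]
  have h3 : ∀ (f : Fin N → ℝ), (∀ i, i ∉ S → f i = 0) → ∑ i, f i = ∑ i : ↥S, f i := by
    intro f hf
    rw [Finset.sum_coe_sort S f]
    exact (Finset.sum_subset (Finset.subset_univ S) fun i _ hi => hf i hi).symm
  rw [h3]
  · refine Finset.sum_congr rfl fun i _ => ?_
    rw [h3]
    · refine Finset.sum_congr rfl fun j _ => ?_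
      have e1 : glue S y x' i = y i := by simp [glue]
      have e2 : glue S y x' j = y j := by simp [glue]
      rw [h2 i, h2 j, e1, e2]
      have : ((i : Fin N) ≠ (j : Fin N)) ↔ i ≠ j := by
        rw [ne_eq, ne_eq, Subtype.coe_inj]
      simp [this]
    · intro j hj
      rw [h1 j hj]
      simp
  · intro i hi
    refine Finset.sum_eq_zero fun j _ => ?_
    rw [h1 i hi]
    simp

/-- The error term of the local estimate. -/
def lowQ {N : ℕ} (A Ce Cg Cc ε n₀ : ℝ) (w : E3) (r : ℝ) (x : Fin N → E3) : ℝ :=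
  if n₀ < nB w r x then Cc * badQ n₀ w r x
  else A * nB w r x ^ (4 / 3 : ℝ) * volume.real (ball w r) ^ (-(1 / 3) : ℝ)
    + Ce * nB w r x / r + Cg * nB w r x ^ 4 / ε + Cg * nB w r x / r

/-- The local estimate: hypothesis of `loc`. -/
theorem low_local (z η : ℝ) (hz : 0 < z) (hη : 0 < η) : ∃ Ce Cg Cc c₀ : ℝ, 0 < Ce ∧ 0 < Cg ∧
    0 < Cc ∧ 0 < c₀ ∧ ∀ (N K : ℕ) (R : Fin K → E3) (w : E3) (r ε n₀ : ℝ), 0 < r → 0 < ε →
      ε ≤ 1 → 1 ≤ n₀ → r * n₀ ^ 2 ≤ c₀ * ε → Real.sqrt N * r ≤ c₀ * ε →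
      Function.Injective R →
      ∀ (S : Finset (Fin N)) (x' : Fin N → E3) (u : (↥S → E3) → ℂ),
        (∀ i, i ∉ S → x' i ∉ ball w r) → ContDiff ℝ 1 u →
        0 ≤ ε * (∑ i, ∫ y in PB ↥S w r, gradSq u i y) +
        (∫ y in PB ↥S w r, (coul z y (fun j : {j : Fin K // R j ∈ ball w r} => R j.1)
          + lowQ (z ^ (2 / 3 : ℝ) * cstar + η) Ce Cg Cc ε n₀ w r (glue S y x')) *
            ‖u y‖ ^ 2) := by
  obtain ⟨Ce, hCe, hjell⟩ := jell_lower z η hz hη
  obtain ⟨Cg, c₁, hCg, hc₁, hgap⟩ := gap z hz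
  obtain ⟨Cc, c₂, hCc, hc₂, hcrude⟩ := crude z hz
  refine ⟨Ce, Cg, Cc, min c₁ c₂, hCe, hCg, hCc, lt_min hc₁ hc₂, ?_⟩
  intro N K R w r ε n₀ hr hε hε1 hn₀ h1 h2 hR S x' u hx' hu
  set R' : {j : Fin K // R j ∈ ball w r} → E3 := fun j => R j.1 with hR'
  have hR'inj : Function.Injective R' := fun a b hab => Subtype.ext (hR hab)
  have hR'in : ∀ j, R' j ∈ ball w r := fun j => j.2
  have hcard : Fintype.card ↥S = S.card := by simp
  have hint1 := low_coul_intOn z R' w r u hu.continuous
  have hcc : (0 : ℝ) ≤ cstar := cstar_nonneg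
  have hA0 : 0 ≤ z ^ (2 / 3 : ℝ) * cstar + η := by positivity
  by_cases hS : (S.card : ℝ) ≤ n₀
  · -- few particles
    set n : ℝ := (S.card : ℝ) with hn
    set q : ℝ := (z ^ (2 / 3 : ℝ) * cstar + η) * n ^ (4 / 3 : ℝ) *
      volume.real (ball w r) ^ (-(1 / 3) : ℝ) + Ce * n / r + Cg * n ^ 4 / ε + Cg * n / r with hq
    have hn0 : 0 ≤ n := by positivity
    have hj := hjell _ R' w r S.card hr hR'inj hR'in
    have hA : 0 ≤ (z ^ (2 / 3 : ℝ) * cstar + η) * n ^ (4 / 3 : ℝ) *
      volume.real (ball w r) ^ (-(1 / 3) : ℝ) + Ce * n / r := by positivity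
    have hg := hgap ↥S _ R' w r ε _ u hr hε hε1 hA hR'inj hR'in ?_ ?_ hu
    · rw [hcard] at hg
      have e1 : (∫ y in PB ↥S w r, (coul z y R'
          + lowQ (z ^ (2 / 3 : ℝ) * cstar + η) Ce Cg Cc ε n₀ w r (glue S y x')) * ‖u y‖ ^ 2) =
          (∫ y in PB ↥S w r, coul z y R' * ‖u y‖ ^ 2) + q * ∫ y in PB ↥S w r, ‖u y‖ ^ 2 := by
        rw [← integral_const_mul, ← integral_add hint1
          ((low_intOn w r _ (by fun_prop : Continuous fun y => ‖u y‖ ^ 2)).const_mul q)]
        refine setIntegral_congr_fun (low_PB_meas _ w r) fun y hy => ?_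
        have : lowQ (z ^ (2 / 3 : ℝ) * cstar + η) Ce Cg Cc ε n₀ w r (glue S y x') = q := by
          unfold lowQ
          rw [low_nB_glue S w r y x' hy hx', if_neg (not_lt.mpr hS)]
        simp only [this]
        ring
      rw [e1]
      have e2 : q = (z ^ (2 / 3 : ℝ) * cstar + η) * n ^ (4 / 3 : ℝ) *
        volume.real (ball w r) ^ (-(1 / 3) : ℝ) + Ce * n / r + Cg * n ^ 4 / ε + Cg * n / r := rfl
      rw [e2]
      linarith [hg]
    · rw [hcard]
      calc r * (S.card : ℝ) ^ 2 ≤ r * n₀ ^ 2 := by gcongr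
        _ ≤ min c₁ c₂ * ε := h1
        _ ≤ c₁ * ε := by gcongr; exact min_le_left _ _
    · rw [hcard]
      exact hj
  · -- many particles
    push Not at hS
    set n : ℝ := (S.card : ℝ) with hn
    have hn1 : 1 < n := lt_of_le_of_lt hn₀ hS
    have hn0 : 0 < n := by linarith
    have hsq : 0 < Real.sqrt n := Real.sqrt_pos.mpr hn0
    have hsq1 : 1 ≤ Real.sqrt n := by
      rw [show (1 : ℝ) = Real.sqrt 1 by simp]
      exact Real.sqrt_le_sqrt hn1.le
    have hnN : n ≤ N := by
      have := Finset.card_le_univ S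
      rw [Fintype.card_fin] at this
      rw [hn]
      exact_mod_cast this
    set s : ℝ := r / Real.sqrt n with hs
    have hs0 : 0 < s := by positivity
    have hsr : s ≤ r := div_le_self hr.le hsq1
    have hns : n * s ≤ c₂ * ε := by
      have : n * s = Real.sqrt n * r := by
        rw [hs]
        have := Real.mul_self_sqrt hn0.le
        field_simp
        nlinarith [this]
      rw [this]
      calc Real.sqrt n * r ≤ Real.sqrt N * r := by gcongr
        _ ≤ min c₁ c₂ * ε := h2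
        _ ≤ c₂ * ε := by gcongr; exact min_le_right _ _
    have hc := hcrude ↥S _ R' w r s ε u hs0 hsr hε hε1 hR'inj hR'in ?_ hu
    · rw [hcard] at hc
      have hint2 : IntegrableOn (fun y : ↥S → E3 => (n + prs (4 * s) y) * ‖u y‖ ^ 2)
          (PB ↥S w r) := by
        have h4 := low_intOn w r _ (by fun_prop : Continuous fun y => ‖u y‖ ^ 2)
        refine Integrable.bdd_mul (c := n + n ^ 2) h4 ?_ ?_
        · exact ((measurable_const.add (low_prs_meas _)).aestronglyMeasurable)
        · refine Filter.Eventually.of_forall fun y => ?_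
          have a1 := low_prs_nonneg (4 * s) y
          have a2 := low_prs_le (4 * s) y
          rw [hcard] at a2
          rw [Real.norm_of_nonneg (by positivity)]
          linarith
      have e1 : (∫ y in PB ↥S w r, (coul z y R'
          + lowQ (z ^ (2 / 3 : ℝ) * cstar + η) Ce Cg Cc ε n₀ w r (glue S y x')) * ‖u y‖ ^ 2) =
          (∫ y in PB ↥S w r, coul z y R' * ‖u y‖ ^ 2) +
            Cc / s * ∫ y in PB ↥S w r, (n + prs (4 * s) y) * ‖u y‖ ^ 2 := by
        rw [← integral_const_mul, ← integral_add hint1 (hint2.const_mul _)]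
        refine setIntegral_congr_fun (low_PB_meas _ w r) fun y hy => ?_
        have : lowQ (z ^ (2 / 3 : ℝ) * cstar + η) Ce Cg Cc ε n₀ w r (glue S y x') =
            Cc / s * (n + prs (4 * s) y) := by
          unfold lowQ badQ
          rw [low_nB_glue S w r y x' hy hx', if_pos hS, if_pos hS,
            low_prsB_glue S w r _ y x' hy hx']
          have e3 : 4 * r / Real.sqrt n = 4 * s := by rw [hs]; ring
          have e4 : Real.sqrt n / r = 1 / s := by rw [hs]; field_simp
          rw [← hn, e3, e4]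
          ring
        simp only [this]
        ring
      rw [e1]
      have e5 : -(Cc / s) * (∫ y in PB ↥S w r, (n + prs (4 * s) y) * ‖u y‖ ^ 2) =
          -(Cc / s * ∫ y in PB ↥S w r, (n + prs (4 * s) y) * ‖u y‖ ^ 2) := by ring
      linarith [hc, e5]
    · rw [hcard]
      exact hns

end Pool.Agent.H5R2.NL
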