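import Mathlib
import Pool.Agent.H5R2.NL.All
import Pool.Agent.H5R2.NL.LowA
import Pool.Agent.H5R2.NL.LowB

/-!
# Assembly of the lower bound, part C: measurability and the error integrals
-/

set_option autoImplicit false
set_option maxHeartbeats 400000

noncomputable section

namespace Pool.Agent.H5R2.NL

open MeasureTheory Metric
open scoped ENNReal

theorem low_inB_meas' (y : E3) : Measurable fun b : ℝ × E3 => inB b.2 b.1 y := by
  unfold inB
  refine Measurable.ite ?_ measurable_const measurable_const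
  exact measurableSet_lt (by fun_prop) (by fun_prop)

theorem low_nB_meas {N : ℕ} :
    Measurable fun bx : (ℝ × E3) × (Fin N → E3) => nB bx.1.2 bx.1.1 bx.2 := by
  unfold nB
  exact Finset.measurable_fun_sum _ fun i _ => low_inB_meas (fun x : Fin N → E3 => x i)
    (measurable_pi_apply i)

theorem low_nB_nonneg {N : ℕ} (w : E3) (r : ℝ) (x : Fin N → E3) : 0 ≤ nB w r x :=
  Finset.sum_nonneg fun i _ => low_inB_nonneg w r (x i)

theorem low_nB_le {N : ℕ} (w : E3) (r : ℝ) (x : Fin N → E3) : nB w r x ≤ N := by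
  unfold nB
  calc _ ≤ ∑ _i : Fin N, (1 : ℝ) := Finset.sum_le_sum fun i _ => low_inB_le w r (x i)
    _ = N := by simp

theorem low_prsB_nonneg {N : ℕ} (w : E3) (r s : ℝ) (x : Fin N → E3) : 0 ≤ prsB w r s x := by
  unfold prsB
  refine Finset.sum_nonneg fun i _ => Finset.sum_nonneg fun j _ => ?_
  split_ifs
  · exact mul_nonneg (low_inB_nonneg _ _ _) (low_inB_nonneg _ _ _)
  · exact le_rfl

theorem low_prsB_le {N : ℕ} (w : E3) (r s : ℝ) (x : Fin N → E3) :
    prsB w r s x ≤ (N : ℝ) ^ 2 := by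
  unfold prsB
  calc _ ≤ ∑ _i : Fin N, ∑ _j : Fin N, (1 : ℝ) := by
        refine Finset.sum_le_sum fun i _ => Finset.sum_le_sum fun j _ => ?_
        split_ifs
        · exact mul_le_one₀ (low_inB_le _ _ _) (low_inB_nonneg _ _ _) (low_inB_le _ _ _)
        · norm_num
    _ = _ := by simp [sq]

theorem low_badQ_meas {N : ℕ} (n₀ : ℝ) :
    Measurable fun bx : (ℝ × E3) × (Fin N → E3) => badQ n₀ bx.1.2 bx.1.1 bx.2 := by
  unfold badQ
  have h1 := low_nB_meas (N := N)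
  refine Measurable.ite (measurableSet_lt measurable_const h1) ?_ measurable_const
  have h2 : Measurable fun bx : (ℝ × E3) × (Fin N → E3) =>
      Real.sqrt (nB bx.1.2 bx.1.1 bx.2) := h1.sqrt
  refine (h2.div (by fun_prop)).mul (h1.add ?_)
  unfold prsB
  refine Finset.measurable_fun_sum _ fun i _ => Finset.measurable_fun_sum _ fun j _ => ?_
  refine Measurable.ite ?_ ((low_inB_meas (fun x : Fin N → E3 => x i)
    (measurable_pi_apply i)).mul (low_inB_meas (fun x : Fin N → E3 => x j)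
    (measurable_pi_apply j))) measurable_const
  by_cases hij : i = j
  · simp [hij]
  · simp only [ne_eq, hij, not_false_eq_true, true_and]
    refine measurableSet_lt (by fun_prop) ?_
    exact ((by fun_prop : Measurable fun bx : (ℝ × E3) × (Fin N → E3) => 4 * bx.1.1)).div h2

theorem low_badQ_nonneg {N : ℕ} (n₀ : ℝ) (w : E3) (r : ℝ) (hr : 0 ≤ r) (x : Fin N → E3) :
    0 ≤ badQ n₀ w r x := by
  unfold badQ
  split_ifs
  · have h1 := low_nB_nonneg w r x
    have h2 := low_prsB_nonneg w r (4 * r / Real.sqrt (nB w r x)) x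
    positivity
  · exact le_rfl

theorem low_badQ_le {N : ℕ} (n₀ : ℝ) (w : E3) (r : ℝ) (hr : 0 < r) (x : Fin N → E3) :
    badQ n₀ w r x ≤ Real.sqrt N / r * (N + (N : ℝ) ^ 2) := by
  unfold badQ
  split_ifs
  · have h1 := low_nB_nonneg w r x
    have h2 := low_prsB_nonneg w r (4 * r / Real.sqrt (nB w r x)) x
    have h3 := low_nB_le w r x
    have h4 := low_prsB_le w r (4 * r / Real.sqrt (nB w r x)) x
    gcongr
  · positivity

theorem low_V_meas : Measurable fun b : ℝ × E3 => volume.real (ball b.2 b.1) := by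
  have h : (fun b : ℝ × E3 => volume.real (ball b.2 b.1)) =
      fun b => (max b.1 0) ^ 3 * volume.real (ball (0 : E3) 1) := by
    funext b
    rcases le_or_gt b.1 0 with hb | hb
    · rw [ball_eq_empty.mpr hb, max_eq_right hb]; simp
    · rw [max_eq_left hb.le, Measure.real, Measure.real, Measure.addHaar_ball _ _ hb.le]
      simp [ENNReal.toReal_mul, hb.le]
  rw [h]
  fun_prop

theorem low_lowQ_meas {N : ℕ} (A Ce Cg Cc ε n₀ : ℝ) :
    Measurable fun bx : (ℝ × E3) × (Fin N → E3) =>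
      lowQ A Ce Cg Cc ε n₀ bx.1.2 bx.1.1 bx.2 := by
  unfold lowQ
  have h1 := low_nB_meas (N := N)
  have h2 : Measurable fun bx : (ℝ × E3) × (Fin N → E3) =>
      volume.real (ball bx.1.2 bx.1.1) := low_V_meas.comp measurable_fst
  refine Measurable.ite (measurableSet_lt measurable_const h1)
    ((low_badQ_meas n₀).const_mul Cc) ?_
  exact ((((h1.pow_const _).const_mul A).mul (h2.pow_const _)).add
    ((h1.const_mul Ce).div (by fun_prop))).add (((h1.pow_const 4).const_mul Cg).div_const ε)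
    |>.add ((h1.const_mul Cg).div (by fun_prop))

theorem low_lowQ_nonneg {N : ℕ} (A Ce Cg Cc ε n₀ : ℝ) (hA : 0 ≤ A) (hCe : 0 ≤ Ce)
    (hCg : 0 ≤ Cg) (hCc : 0 ≤ Cc) (hε : 0 ≤ ε) (w : E3) (r : ℝ) (hr : 0 ≤ r)
    (x : Fin N → E3) : 0 ≤ lowQ A Ce Cg Cc ε n₀ w r x := by
  unfold lowQ
  have h1 := low_nB_nonneg w r x
  split_ifs
  · exact mul_nonneg hCc (low_badQ_nonneg n₀ w r hr x)
  · positivity

theorem low_lowQ_le {N : ℕ} (A Ce Cg Cc ε n₀ : ℝ) (hA : 0 ≤ A) (hCe : 0 ≤ Ce)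
    (hCg : 0 ≤ Cg) (hCc : 0 ≤ Cc) (hε : 0 < ε) (hn₀ : 0 ≤ n₀) (w : E3) (r : ℝ) (hr : 0 < r)
    (x : Fin N → E3) : lowQ A Ce Cg Cc ε n₀ w r x ≤
      Cc * badQ n₀ w r x + A * nB w r x ^ (4 / 3 : ℝ) * volume.real (ball w r) ^ (-(1 / 3) : ℝ)
        + (Ce + Cg) * (nB w r x / r) + Cg * n₀ ^ 3 / ε * nB w r x := by
  unfold lowQ
  have h1 := low_nB_nonneg w r x
  split_ifs with h
  · have h2 : 0 ≤ A * nB w r x ^ (4 / 3 : ℝ) * volume.real (ball w r) ^ (-(1 / 3) : ℝ) := by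
      positivity
    have h3 : 0 ≤ (Ce + Cg) * (nB w r x / r) := by positivity
    have h4 : 0 ≤ Cg * n₀ ^ 3 / ε * nB w r x := by positivity
    linarith
  · push Not at h
    have h2 := mul_nonneg hCc (low_badQ_nonneg n₀ w r hr.le x)
    have h3 : Cg * nB w r x ^ 4 / ε ≤ Cg * n₀ ^ 3 / ε * nB w r x := by
      have : nB w r x ^ 4 ≤ n₀ ^ 3 * nB w r x := by
        calc nB w r x ^ 4 = nB w r x ^ 3 * nB w r x := by ring
          _ ≤ n₀ ^ 3 * nB w r x := by gcongr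
      calc Cg * nB w r x ^ 4 / ε ≤ Cg * (n₀ ^ 3 * nB w r x) / ε := by gcongr
        _ = _ := by ring
    have h4 : (Ce + Cg) * (nB w r x / r) = Ce * nB w r x / r + Cg * nB w r x / r := by ring
    rw [h4]
    linarith

theorem low_lowQ_bdd {N : ℕ} (A Ce Cg Cc ε n₀ : ℝ) (hA : 0 ≤ A) (hCe : 0 ≤ Ce)
    (hCg : 0 ≤ Cg) (hCc : 0 ≤ Cc) (hε : 0 < ε) (hn₀ : 0 ≤ n₀) (w : E3) (r : ℝ) (hr : 0 < r) :
    ∃ B, ∀ x : Fin N → E3, |lowQ A Ce Cg Cc ε n₀ w r x| ≤ B := by
  set V : ℝ := volume.real (ball w r) ^ (-(1 / 3) : ℝ) with hV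
  have hV0 : 0 ≤ V := by positivity
  set D : ℝ := Real.sqrt N / r * (N + (N : ℝ) ^ 2) with hD
  refine ⟨Cc * D + A * (N : ℝ) ^ (4 / 3 : ℝ) * V + (Ce + Cg) * (N / r) +
    Cg * n₀ ^ 3 / ε * N, fun x => ?_⟩
  have h0 := low_lowQ_nonneg A Ce Cg Cc ε n₀ hA hCe hCg hCc hε.le w r hr.le x
  rw [abs_of_nonneg h0]
  have h2 := low_lowQ_le A Ce Cg Cc ε n₀ hA hCe hCg hCc hε hn₀ w r hr x
  rw [← hV] at h2
  have h1 := low_nB_nonneg w r x
  have h3 := low_nB_le w r x
  have h4 : badQ n₀ w r x ≤ D := low_badQ_le n₀ w r hr x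
  generalize nB w r x = n at *
  have k1 : Cc * badQ n₀ w r x ≤ Cc * D := mul_le_mul_of_nonneg_left h4 hCc
  have k2 : A * n ^ (4 / 3 : ℝ) * V ≤ A * (N : ℝ) ^ (4 / 3 : ℝ) * V := by
    have : n ^ (4 / 3 : ℝ) ≤ (N : ℝ) ^ (4 / 3 : ℝ) := Real.rpow_le_rpow h1 h3 (by norm_num)
    exact mul_le_mul_of_nonneg_right (mul_le_mul_of_nonneg_left this hA) hV0
  have k3 : (Ce + Cg) * (n / r) ≤ (Ce + Cg) * (N / r) := by
    refine mul_le_mul_of_nonneg_left ?_ (by positivity)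
    exact div_le_div_of_nonneg_right h3 hr.le
  have k4 : Cg * n₀ ^ 3 / ε * n ≤ Cg * n₀ ^ 3 / ε * N :=
    mul_le_mul_of_nonneg_left h3 (by positivity)
  linarith

/-- `bm`-integral of `φ(r) n`. -/
theorem low_n_int {N : ℕ} (ψ : (Fin N → E3) → ℂ) (hψ : IsState ψ) (ℓ : ℝ) (hℓ : 0 < ℓ)
    (φ : ℝ → ℝ) (hφ : Measurable φ) (hφ0 : ∀ r, 0 < r → 0 ≤ φ r) (c : ℝ) (hc : 0 ≤ c)
    (hint : ∫⁻ r in Set.Ioc 0 ℓ, ENNReal.ofReal (φ r) * ENNReal.ofReal (2 * r / ℓ ^ 2) ≤
      ENNReal.ofReal c) :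
    ∫⁻ x, ∫⁻ b : ℝ × E3, ENNReal.ofReal (φ b.1 * nB b.2 b.1 x * ‖ψ x‖ ^ 2) ∂bm ℓ ≤
      ENNReal.ofReal (c * N) := by
  have hmeas : ∀ i (x : Fin N → E3), Measurable fun b : ℝ × E3 =>
      ENNReal.ofReal (φ b.1) * ENNReal.ofReal (inB b.2 b.1 (x i)) := by
    intro i x
    exact (hφ.comp measurable_fst).ennreal_ofReal.mul (low_inB_meas' (x i)).ennreal_ofReal
  have h1 : ∀ x : Fin N → E3, ∫⁻ b : ℝ × E3,
      ENNReal.ofReal (φ b.1 * nB b.2 b.1 x * ‖ψ x‖ ^ 2) ∂bm ℓ ≤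
        ENNReal.ofReal (c * N) * ENNReal.ofReal (‖ψ x‖ ^ 2) := by
    intro x
    have e1 : ∀ b : ℝ × E3, ENNReal.ofReal (φ b.1 * nB b.2 b.1 x * ‖ψ x‖ ^ 2) ≤
        (∑ i, ENNReal.ofReal (φ b.1) * ENNReal.ofReal (inB b.2 b.1 (x i))) *
          ENNReal.ofReal (‖ψ x‖ ^ 2) := by
      intro b
      rcases le_or_gt b.1 0 with hb | hb
      · have : nB b.2 b.1 x = 0 := by
          unfold nB inB
          refine Finset.sum_eq_zero fun i _ => ?_
          rw [if_neg]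
          exact not_lt.mpr (hb.trans (norm_nonneg _))
        rw [this]; simp
      · rw [ENNReal.ofReal_mul (mul_nonneg (hφ0 _ hb) (low_nB_nonneg _ _ _)),
          ENNReal.ofReal_mul (hφ0 _ hb)]
        unfold nB
        rw [ENNReal.ofReal_sum_of_nonneg fun i _ => low_inB_nonneg _ _ _, Finset.mul_sum]
    refine (lintegral_mono e1).trans ?_
    rw [lintegral_mul_const' _ _ ENNReal.ofReal_ne_top]
    gcongr
    rw [lintegral_finsetSum _ fun i _ => hmeas i x]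
    have e2 : ∀ i, ∫⁻ b : ℝ × E3, ENNReal.ofReal (φ b.1) *
        ENNReal.ofReal (inB b.2 b.1 (x i)) ∂bm ℓ ≤ ENNReal.ofReal c := by
      intro i
      have := bm_one ℓ 1 hℓ one_pos (fun r => ENNReal.ofReal (φ r)) hφ.ennreal_ofReal (x i)
      simp only [one_mul, one_pow, ENNReal.ofReal_one] at this
      rw [this]
      exact hint
    calc _ ≤ ∑ _i : Fin N, ENNReal.ofReal c := Finset.sum_le_sum fun i _ => e2 i
      _ = ENNReal.ofReal (c * N) := by
        rw [Finset.sum_const, Finset.card_univ, Fintype.card_fin, nsmul_eq_mul, mul_comm,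
          ENNReal.ofReal_mul hc]
        simp
  refine (lintegral_mono h1).trans ?_
  rw [lintegral_const_mul' _ _ ENNReal.ofReal_ne_top]
  have hn := hψ.normalized
  have h2 : ∫⁻ x, ENNReal.ofReal (‖ψ x‖ ^ 2) = 1 := by
    rw [← ofReal_integral_eq_lintegral_ofReal]
    · rw [hn]; simp
    · by_contra hcon
      rw [integral_undef hcon] at hn
      exact zero_ne_one hn
    · exact Filter.Eventually.of_forall fun x => by positivity
  rw [h2, mul_one]

end Pool.Agent.H5R2.NL
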