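import Mathlib
import Pool.Agent.H5R2.NL.All
import Pool.Agent.H5R2.NL.LowA
import Pool.Agent.H5R2.NL.LowB
import Pool.Agent.H5R2.NL.LowC

/-!
# Assembly of the lower bound, part D: the main error integral
-/

set_option autoImplicit false
set_option maxHeartbeats 400000

noncomputable section

namespace Pool.Agent.H5R2.NL

open MeasureTheory Metric
open scoped ENNReal

theorem low_vol (w : E3) (r : ℝ) (hr : 0 ≤ r) :
    volume.real (ball w r) = 4 * Real.pi / 3 * r ^ 3 := by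
  rw [Measure.real, EuclideanSpace.volume_ball_fin_three, ENNReal.toReal_mul,
    ENNReal.toReal_pow, ENNReal.toReal_ofReal hr, ENNReal.toReal_ofReal (by positivity)]
  ring

/-- the integral of `(n/|B|)^{4/3}` over the centres -/
def lowF {N : ℕ} (r : ℝ) (x : Fin N → E3) : ℝ :=
  ∫ w, (nB w r x / volume.real (ball (0 : E3) r)) ^ (4 / 3 : ℝ)

theorem low_inB_int (r : ℝ) (y : E3) : Integrable (fun w => inB w r y) ∧
    ∫ w, inB w r y = volume.real (ball (0 : E3) r) := by
  have h1 : (fun w => inB w r y) = (ball y r).indicator fun _ => (1 : ℝ) := by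
    funext w
    unfold inB
    by_cases h : ‖y - w‖ < r
    · rw [if_pos h, Set.indicator_of_mem]
      rwa [mem_ball, dist_eq_norm, norm_sub_rev]
    · rw [if_neg h, Set.indicator_of_notMem]
      rwa [mem_ball, dist_eq_norm, norm_sub_rev]
  rw [h1]
  constructor
  · rw [integrable_indicator_iff measurableSet_ball]
    exact integrableOn_const measure_ball_lt_top.ne
  · rw [integral_indicator measurableSet_ball, setIntegral_const, smul_eq_mul, mul_one,
      Measure.real, Measure.real, Measure.addHaar_ball_center volume y r]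

theorem low_pow_le {N : ℕ} (r : ℝ) (hr : 0 < r) (x : Fin N → E3) (w : E3) :
    (nB w r x / volume.real (ball (0 : E3) r)) ^ (4 / 3 : ℝ) ≤
      ((N : ℝ) / volume.real (ball (0 : E3) r)) ^ (1 / 3 : ℝ) *
        (nB w r x / volume.real (ball (0 : E3) r)) := by
  have hV : 0 < volume.real (ball (0 : E3) r) := by
    rw [low_vol 0 r hr.le]; positivity
  have h1 := low_nB_nonneg w r x
  have h3 := low_nB_le w r x
  have h4 : 0 ≤ nB w r x / volume.real (ball (0 : E3) r) := by positivity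
  have h2 : (nB w r x / volume.real (ball (0 : E3) r)) ^ (4 / 3 : ℝ) =
      (nB w r x / volume.real (ball (0 : E3) r)) ^ (1 / 3 : ℝ) *
        (nB w r x / volume.real (ball (0 : E3) r)) := by
    rcases h4.eq_or_lt with h | h
    · rw [← h]; norm_num
    · rw [show (4 / 3 : ℝ) = 1 / 3 + 1 by norm_num, Real.rpow_add h, Real.rpow_one]
  rw [h2]
  refine mul_le_mul_of_nonneg_right ?_ h4
  refine Real.rpow_le_rpow h4 ?_ (by norm_num)
  gcongr

theorem low_pow_meas {N : ℕ} (r : ℝ) :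
    Measurable fun p : (Fin N → E3) × E3 =>
      (nB p.2 r p.1 / volume.real (ball (0 : E3) r)) ^ (4 / 3 : ℝ) := by
  have h1 : Measurable fun p : (Fin N → E3) × E3 => nB p.2 r p.1 := by
    unfold nB inB
    refine Finset.measurable_fun_sum _ fun i _ => ?_
    refine Measurable.ite ?_ measurable_const measurable_const
    exact measurableSet_lt (by fun_prop) (by fun_prop)
  exact (h1.div_const _).pow_const _

theorem low_nB_int {N : ℕ} (r : ℝ) (x : Fin N → E3) : Integrable (fun w => nB w r x) ∧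
    ∫ w, nB w r x = N * volume.real (ball (0 : E3) r) := by
  unfold nB
  constructor
  · exact integrable_finsetSum _ fun i _ => (low_inB_int r (x i)).1
  · rw [integral_finsetSum _ fun i _ => (low_inB_int r (x i)).1]
    simp [(low_inB_int r _).2]

theorem low_pow_int {N : ℕ} (r : ℝ) (hr : 0 < r) (x : Fin N → E3) :
    Integrable fun w => (nB w r x / volume.real (ball (0 : E3) r)) ^ (4 / 3 : ℝ) := by
  have h1 := ((low_nB_int r x).1.div_const (volume.real (ball (0 : E3) r))).const_mul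
    (((N : ℝ) / volume.real (ball (0 : E3) r)) ^ (1 / 3 : ℝ))
  refine h1.mono' ?_ ?_
  · exact ((low_pow_meas r).comp (measurable_const.prodMk measurable_id)).aestronglyMeasurable
  · refine Filter.Eventually.of_forall fun w => ?_
    have h2 := low_nB_nonneg w r x
    rw [Real.norm_of_nonneg (by positivity)]
    exact low_pow_le r hr x w

theorem lowF_nonneg {N : ℕ} (r : ℝ) (x : Fin N → E3) : 0 ≤ lowF r x := by
  unfold lowF
  refine integral_nonneg fun w => ?_
  have h2 := low_nB_nonneg w r x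
  positivity

theorem lowF_le {N : ℕ} (r : ℝ) (hr : 0 < r) (x : Fin N → E3) :
    lowF r x ≤ ((N : ℝ) / volume.real (ball (0 : E3) r)) ^ (1 / 3 : ℝ) * N := by
  have hV : 0 < volume.real (ball (0 : E3) r) := by
    rw [low_vol 0 r hr.le]; positivity
  unfold lowF
  have h1 := ((low_nB_int r x).1.div_const (volume.real (ball (0 : E3) r))).const_mul
    (((N : ℝ) / volume.real (ball (0 : E3) r)) ^ (1 / 3 : ℝ))
  refine (integral_mono (low_pow_int r hr x) h1 (low_pow_le r hr x)).trans ?_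
  rw [integral_const_mul, integral_div, (low_nB_int r x).2]
  rw [mul_div_assoc, div_self hV.ne', mul_one]

theorem lowF_meas {N : ℕ} (r : ℝ) : StronglyMeasurable fun x : Fin N → E3 => lowF r x := by
  unfold lowF
  exact StronglyMeasurable.integral_prod_right'
    (f := fun p : (Fin N → E3) × E3 =>
      (nB p.2 r p.1 / volume.real (ball (0 : E3) r)) ^ (4 / 3 : ℝ))
    (low_pow_meas r).stronglyMeasurable

theorem low_state_int {N : ℕ} (ψ : (Fin N → E3) → ℂ) (hψ : IsState ψ) :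
    Integrable fun x => ‖ψ x‖ ^ 2 := by
  by_contra hcon
  have hn := hψ.normalized
  rw [integral_undef hcon] at hn
  exact zero_ne_one hn

theorem low_X_eq {N : ℕ} (ψ : (Fin N → E3) → ℂ) (hψ : IsState ψ) (r : ℝ) (hr : 0 < r) :
    ∫⁻ x, ∫⁻ w, ENNReal.ofReal
      ((nB w r x / volume.real (ball (0 : E3) r)) ^ (4 / 3 : ℝ) * ‖ψ x‖ ^ 2) =
      ENNReal.ofReal (∫ x, lowF r x * ‖ψ x‖ ^ 2) := by
  have h1 : ∀ x : Fin N → E3, ∫⁻ w, ENNReal.ofReal
      ((nB w r x / volume.real (ball (0 : E3) r)) ^ (4 / 3 : ℝ) * ‖ψ x‖ ^ 2) =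
      ENNReal.ofReal (lowF r x * ‖ψ x‖ ^ 2) := by
    intro x
    unfold lowF
    rw [← integral_mul_const, ofReal_integral_eq_lintegral_ofReal]
    · exact (low_pow_int r hr x).mul_const _
    · refine Filter.Eventually.of_forall fun w => ?_
      have h2 := low_nB_nonneg w r x
      show (0 : ℝ) ≤ _
      positivity
  simp_rw [h1]
  rw [ofReal_integral_eq_lintegral_ofReal]
  · refine (low_state_int ψ hψ).bdd_mul
      (c := ((N : ℝ) / volume.real (ball (0 : E3) r)) ^ (1 / 3 : ℝ) * N)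
      (lowF_meas r).aestronglyMeasurable ?_
    refine Filter.Eventually.of_forall fun x => ?_
    rw [Real.norm_of_nonneg (lowF_nonneg r x)]
    exact lowF_le r hr x
  · refine Filter.Eventually.of_forall fun x => ?_
    have h2 := lowF_nonneg r x
    show (0 : ℝ) ≤ _
    positivity

theorem low_b2 {N : ℕ} (ψ : (Fin N → E3) → ℂ) (hψ : IsState ψ) (ℓ : ℝ) (hℓ : 0 < ℓ)
    (A P Q : ℝ) (hA : 0 ≤ A) (hP : 0 ≤ P) (hQ : 0 ≤ Q)
    (hB : ∀ r, 0 < r → r ≤ ℓ → A * (∫ x, lowF r x * ‖ψ x‖ ^ 2) ≤ P + Q / r) :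
    ∫⁻ x, ∫⁻ b : ℝ × E3, ENNReal.ofReal (A * nB b.2 b.1 x ^ (4 / 3 : ℝ) *
      volume.real (ball b.2 b.1) ^ (-(1 / 3) : ℝ) * ‖ψ x‖ ^ 2) ∂bm ℓ ≤
      ENNReal.ofReal (P + 2 * Q / ℓ) := by
  have hm : Measurable fun bx : (ℝ × E3) × (Fin N → E3) =>
      ENNReal.ofReal (A * nB bx.1.2 bx.1.1 bx.2 ^ (4 / 3 : ℝ) *
      volume.real (ball bx.1.2 bx.1.1) ^ (-(1 / 3) : ℝ) * ‖ψ bx.2‖ ^ 2) := by
    have h1 := low_nB_meas (N := N)
    have h2 : Measurable fun bx : (ℝ × E3) × (Fin N → E3) =>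
      volume.real (ball bx.1.2 bx.1.1) := low_V_meas.comp measurable_fst
    have h3 : Measurable fun bx : (ℝ × E3) × (Fin N → E3) => ‖ψ bx.2‖ ^ 2 :=
      ((hψ.smooth.continuous.measurable.comp measurable_snd).norm).pow_const 2
    exact ((((h1.pow_const _).const_mul A).mul (h2.pow_const _)).mul h3).ennreal_ofReal
  have hsw := lintegral_lintegral_swap (μ := (volume : Measure (Fin N → E3))) (ν := bm ℓ)
    (f := fun (x : Fin N → E3) (b : ℝ × E3) =>
      ENNReal.ofReal (A * nB b.2 b.1 x ^ (4 / 3 : ℝ) *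
      volume.real (ball b.2 b.1) ^ (-(1 / 3) : ℝ) * ‖ψ x‖ ^ 2))
    (hm.comp measurable_swap).aemeasurable
  refine hsw.trans_le ?_
  have hm2 : Measurable fun b : ℝ × E3 => ∫⁻ x : Fin N → E3,
      ENNReal.ofReal (A * nB b.2 b.1 x ^ (4 / 3 : ℝ) *
      volume.real (ball b.2 b.1) ^ (-(1 / 3) : ℝ) * ‖ψ x‖ ^ 2) := hm.lintegral_prod_right'
  rw [bm_lint ℓ _ hm2]
  have hstep : ∀ r ∈ Set.Ioc (0 : ℝ) ℓ,
      ENNReal.ofReal (3 / (2 * Real.pi * ℓ ^ 2) / r ^ 2) * (∫⁻ w, ∫⁻ x : Fin N → E3,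
        ENNReal.ofReal (A * nB w r x ^ (4 / 3 : ℝ) *
        volume.real (ball w r) ^ (-(1 / 3) : ℝ) * ‖ψ x‖ ^ 2)) ≤
      ENNReal.ofReal (P * (2 * r / ℓ ^ 2) + 2 * Q / ℓ ^ 2) := by
    intro r hr
    have hr0 : 0 < r := hr.1
    set V : ℝ := volume.real (ball (0 : E3) r) with hV
    have hVv : V = 4 * Real.pi / 3 * r ^ 3 := low_vol 0 r hr0.le
    have hV0 : 0 < V := by rw [hVv]; positivity
    have e1 : ∀ (w : E3) (x : Fin N → E3), ENNReal.ofReal (A * nB w r x ^ (4 / 3 : ℝ) *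
        volume.real (ball w r) ^ (-(1 / 3) : ℝ) * ‖ψ x‖ ^ 2) =
        ENNReal.ofReal (V * A) * ENNReal.ofReal ((nB w r x / V) ^ (4 / 3 : ℝ) * ‖ψ x‖ ^ 2) := by
      intro w x
      have h1 := low_nB_nonneg w r x
      rw [← ENNReal.ofReal_mul (by positivity)]
      congr 1
      have h2 : volume.real (ball w r) = V := by rw [low_vol w r hr0.le, hVv]
      rw [h2, Real.div_rpow h1 hV0.le]
      have h3 : V ^ (-(1 / 3) : ℝ) = V * (V ^ (4 / 3 : ℝ))⁻¹ := by
        rw [← Real.rpow_neg hV0.le]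
        nth_rewrite 2 [← Real.rpow_one V]
        rw [← Real.rpow_add hV0]
        norm_num
      rw [h3]
      ring
    simp_rw [e1]
    have hm3 : Measurable fun p : E3 × (Fin N → E3) =>
        ENNReal.ofReal ((nB p.1 r p.2 / V) ^ (4 / 3 : ℝ) * ‖ψ p.2‖ ^ 2) := by
      have h1 := (low_pow_meas (N := N) r).comp measurable_swap
      have h3 : Measurable fun p : E3 × (Fin N → E3) => ‖ψ p.2‖ ^ 2 :=
        ((hψ.smooth.continuous.measurable.comp measurable_snd).norm).pow_const 2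
      exact (h1.mul h3).ennreal_ofReal
    have e2 : ∫⁻ w, ∫⁻ x : Fin N → E3, ENNReal.ofReal (V * A) *
        ENNReal.ofReal ((nB w r x / V) ^ (4 / 3 : ℝ) * ‖ψ x‖ ^ 2) =
        ENNReal.ofReal (V * A) * ENNReal.ofReal (∫ x, lowF r x * ‖ψ x‖ ^ 2) := by
      have h1 : ∀ w : E3, ∫⁻ x : Fin N → E3, ENNReal.ofReal (V * A) *
        ENNReal.ofReal ((nB w r x / V) ^ (4 / 3 : ℝ) * ‖ψ x‖ ^ 2) =
        ENNReal.ofReal (V * A) * ∫⁻ x : Fin N → E3,
        ENNReal.ofReal ((nB w r x / V) ^ (4 / 3 : ℝ) * ‖ψ x‖ ^ 2) := fun w =>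
          lintegral_const_mul' _ _ ENNReal.ofReal_ne_top
      simp_rw [h1]
      rw [lintegral_const_mul' _ _ ENNReal.ofReal_ne_top]
      congr 1
      rw [← low_X_eq ψ hψ r hr0]
      exact lintegral_lintegral_swap hm3.aemeasurable
    rw [e2, ← ENNReal.ofReal_mul (by positivity), ← ENNReal.ofReal_mul (by positivity)]
    refine ENNReal.ofReal_le_ofReal ?_
    have h4 := hB r hr0 hr.2
    calc 3 / (2 * Real.pi * ℓ ^ 2) / r ^ 2 * (V * A * ∫ x, lowF r x * ‖ψ x‖ ^ 2)
        = 3 / (2 * Real.pi * ℓ ^ 2) / r ^ 2 * V * (A * ∫ x, lowF r x * ‖ψ x‖ ^ 2) := by ring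
      _ ≤ 3 / (2 * Real.pi * ℓ ^ 2) / r ^ 2 * V * (P + Q / r) := by gcongr
      _ = P * (2 * r / ℓ ^ 2) + 2 * Q / ℓ ^ 2 := by
        rw [hVv]
        field_simp
        ring
  refine (setLIntegral_mono' measurableSet_Ioc hstep).trans ?_
  have hi : IntegrableOn (fun r : ℝ => P * (2 * r / ℓ ^ 2) + 2 * Q / ℓ ^ 2)
      (Set.Ioc 0 ℓ) := by
    have : Continuous fun r : ℝ => P * (2 * r / ℓ ^ 2) + 2 * Q / ℓ ^ 2 := by fun_prop
    exact this.integrableOn_Ioc
  rw [← ofReal_integral_eq_lintegral_ofReal hi]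
  · refine ENNReal.ofReal_le_ofReal (le_of_eq ?_)
    rw [← intervalIntegral.integral_of_le hℓ.le]
    rw [intervalIntegral.integral_add (by
      have : Continuous fun r : ℝ => P * (2 * r / ℓ ^ 2) := by fun_prop
      exact this.intervalIntegrable _ _) (by simp)]
    rw [intervalIntegral.integral_const_mul, intervalIntegral.integral_div,
      intervalIntegral.integral_const_mul, integral_id, intervalIntegral.integral_const]
    simp only [smul_eq_mul]
    field_simp
    ring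
  · refine (ae_restrict_iff' measurableSet_Ioc).mpr (Filter.Eventually.of_forall fun r hr => ?_)
    have hr0 : 0 < r := hr.1
    show (0 : ℝ) ≤ _
    positivity

end Pool.Agent.H5R2.NL
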