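import Mathlib
import Pool.Agent.H5R2.NL.All
import Pool.Agent.H5R2.NL.LowA
import Pool.Agent.H5R2.NL.LowB
import Pool.Agent.H5R2.NL.LowC
import Pool.Agent.H5R2.NL.LowD

/-!
# Assembly of the lower bound, part E: the form is bounded below by the local errors
-/

set_option autoImplicit false
set_option maxHeartbeats 400000

noncomputable section

namespace Pool.Agent.H5R2.NL

open MeasureTheory Metric
open scoped ENNReal

/-- the typical term -/
def lowT {X : Type} [MeasurableSpace X] (μ : Measure X) (p q : X → E3) (f : X → ℝ)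
    (b : ℝ × E3) : ℝ := ∫ x, inB b.2 b.1 (p x) * inB b.2 b.1 (q x) * f x ∂μ

theorem lowT_int {X : Type} [MeasurableSpace X] (μ : Measure X) [SFinite μ] (ℓ : ℝ)
    (hℓ : 0 < ℓ) (p q : X → E3) (hp : Measurable p) (hq : Measurable q) (f : X → ℝ)
    (hf : Integrable f μ) : Integrable (lowT μ p q f) (bm ℓ) :=
  (low_prod_int μ ℓ hℓ p q hp hq f hf).integral_prod_left

theorem lowT_eq {X : Type} [MeasurableSpace X] (μ : Measure X) [SFinite μ] (ℓ : ℝ)
    (hℓ : 0 < ℓ) (p q : X → E3) (hp : Measurable p) (hq : Measurable q) (f : X → ℝ)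
    (hf : Integrable f μ) :
    (∫ b, lowT μ p q f b ∂bm ℓ) = ∫ x, hker ℓ ‖p x - q x‖ * f x ∂μ :=
  low_prod_swap μ ℓ hℓ p q hp hq f hf

theorem low_mul_int {X : Type} [MeasurableSpace X] (μ : Measure X) (p q : X → E3)
    (hp : Measurable p) (hq : Measurable q) (f : X → ℝ) (hf : Integrable f μ) (b : ℝ × E3) :
    Integrable (fun x => inB b.2 b.1 (p x) * inB b.2 b.1 (q x) * f x) μ := by
  refine hf.bdd_mul (c := 1) ?_ ?_
  · have h : ∀ p : X → E3, Measurable p → Measurable fun x => inB b.2 b.1 (p x) := by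
      intro p hp
      unfold inB
      refine Measurable.ite ?_ measurable_const measurable_const
      exact measurableSet_lt (by fun_prop) (by fun_prop)
    exact ((h p hp).mul (h q hq)).aestronglyMeasurable
  · refine Filter.Eventually.of_forall fun x => ?_
    rw [Real.norm_of_nonneg (mul_nonneg (low_inB_nonneg _ _ _) (low_inB_nonneg _ _ _))]
    exact mul_le_one₀ (low_inB_le _ _ _) (low_inB_nonneg _ _ _) (low_inB_le _ _ _)

theorem low_lin {X : Type} [MeasurableSpace X] (μ : Measure X) (f g h : X → ℝ)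
    (hf : Integrable f μ) (hg : Integrable g μ) (hh : Integrable h μ) (a b c : ℝ) :
    (∫ x, (a * f x - b * g x + c * h x) ∂μ) =
      a * (∫ x, f x ∂μ) - b * (∫ x, g x ∂μ) + c * (∫ x, h x ∂μ) := by
  have h1 : Integrable (fun x => a * f x - b * g x) μ := (hf.const_mul a).sub (hg.const_mul b)
  rw [integral_add h1 (hh.const_mul c), integral_sub (hf.const_mul a) (hg.const_mul b),
    integral_const_mul, integral_const_mul, integral_const_mul]

theorem low_bm_ae (ℓ : ℝ) : ∀ᵐ b : ℝ × E3 ∂bm ℓ, 0 < b.1 ∧ b.1 ≤ ℓ := by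
  unfold bm
  refine (withDensity_absolutelyContinuous _ _).ae_le ?_
  have h1 : ∀ᵐ r ∂(volume.restrict (Set.Ioc (0 : ℝ) ℓ)), r ∈ Set.Ioc (0 : ℝ) ℓ :=
    ae_restrict_mem measurableSet_Ioc
  have h2 := (Measure.quasiMeasurePreserving_fst
    (μ := volume.restrict (Set.Ioc (0 : ℝ) ℓ)) (ν := (volume : Measure E3))).ae h1
  filter_upwards [h2] with b hb
  exact hb

theorem low_coulB_eq {N K : ℕ} (z ℓ : ℝ) (hℓ : 0 < ℓ) (x : Fin N → E3) (R : Fin K → E3) :
    (∫ b : ℝ × E3, coulB z x R b.2 b.1 ∂bm ℓ) =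
      1 / 2 * (∑ i, ∑ j, hker ℓ ‖x i - x j‖ / ‖x i - x j‖)
        - z * (∑ i, ∑ j, hker ℓ ‖x i - R j‖ / ‖x i - R j‖)
        + z ^ 2 / 2 * (∑ i, ∑ j, hker ℓ ‖R i - R j‖ / ‖R i - R j‖) := by
  unfold coulB
  have h : ∀ p q : E3, Integrable (fun b : ℝ × E3 =>
      inB b.2 b.1 p * inB b.2 b.1 q / ‖p - q‖) (bm ℓ) := fun p q =>
    (bm_pair_int ℓ hℓ p q).div_const _
  have h1 : Integrable (fun b : ℝ × E3 => ∑ i, ∑ j, inB b.2 b.1 (x i) *
      inB b.2 b.1 (x j) / ‖x i - x j‖) (bm ℓ) :=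
    integrable_finsetSum _ fun i _ => integrable_finsetSum _ fun j _ => h _ _
  have h2 : Integrable (fun b : ℝ × E3 => ∑ i, ∑ j, inB b.2 b.1 (x i) *
      inB b.2 b.1 (R j) / ‖x i - R j‖) (bm ℓ) :=
    integrable_finsetSum _ fun i _ => integrable_finsetSum _ fun j _ => h _ _
  have h3 : Integrable (fun b : ℝ × E3 => ∑ i, ∑ j, inB b.2 b.1 (R i) *
      inB b.2 b.1 (R j) / ‖R i - R j‖) (bm ℓ) :=
    integrable_finsetSum _ fun i _ => integrable_finsetSum _ fun j _ => h _ _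
  have hv : ∀ p q : E3, (∫ b : ℝ × E3, inB b.2 b.1 p * inB b.2 b.1 q / ‖p - q‖ ∂bm ℓ) =
      hker ℓ ‖p - q‖ / ‖p - q‖ := by
    intro p q
    rw [integral_div, bm_pair ℓ hℓ]
  have hs : ∀ {ι κ : Type} [Fintype ι] [Fintype κ] (p : ι → E3) (q : κ → E3),
      (∫ b : ℝ × E3, ∑ i, ∑ j, inB b.2 b.1 (p i) * inB b.2 b.1 (q j) / ‖p i - q j‖ ∂bm ℓ) =
        ∑ i, ∑ j, hker ℓ ‖p i - q j‖ / ‖p i - q j‖ := by
    intro ι κ _ _ p q
    rw [integral_finsetSum _ fun i _ => integrable_finsetSum _ fun j _ => h _ _]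
    refine Finset.sum_congr rfl fun i _ => ?_
    rw [integral_finsetSum _ fun j _ => h _ _]
    exact Finset.sum_congr rfl fun j _ => hv _ _
  refine (low_lin (bm ℓ) _ _ _ h1 h2 h3 (1 / 2) z (z ^ 2 / 2)).trans ?_
  rw [hs, hs, hs]

/-- The local quantity `G(b)`. -/
def lowG {N K : ℕ} (z ε : ℝ) (R : Fin K → E3) (ψ : (Fin N → E3) → ℂ) (b : ℝ × E3) : ℝ :=
  ε * (∑ i, lowT volume (fun x : Fin N → E3 => x i) (fun x => x i) (gradSq ψ i) b)
    + 1 / 2 * (∑ i, ∑ j, lowT volume (fun x : Fin N → E3 => x i) (fun x => x j)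
        (fun x => 1 / ‖x i - x j‖ * ‖ψ x‖ ^ 2) b)
    - z * (∑ i, ∑ j, lowT volume (fun x : Fin N → E3 => x i) (fun _ => R j)
        (fun x => 1 / ‖x i - R j‖ * ‖ψ x‖ ^ 2) b)
    + z ^ 2 / 2 * (∑ i, ∑ j, lowT volume (fun _ : Fin N → E3 => R i) (fun _ => R j)
        (fun x => 1 / ‖R i - R j‖ * ‖ψ x‖ ^ 2) b)

theorem lowG_eq {N K : ℕ} (z ε : ℝ) (R : Fin K → E3) (ψ : (Fin N → E3) → ℂ)
    (hψ : IsState ψ) (b : ℝ × E3) :
    lowG z ε R ψ b = ε * (∫ x, ∑ i, inB b.2 b.1 (x i) * gradSq ψ i x) +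
      ∫ x, coulB z x R b.2 b.1 * ‖ψ x‖ ^ 2 := by
  have hc := hψ.smooth.continuous
  have hd : ContDiff ℝ 1 ψ := hψ.smooth.of_le (by exact_mod_cast le_top)
  have hg : ∀ i, Integrable (gradSq ψ i) := fun i => integrable_gradSq ψ hd hψ.compact i
  have hee : ∀ i j, Integrable fun x : Fin N → E3 => 1 / ‖x i - x j‖ * ‖ψ x‖ ^ 2 :=
    fun i j => integrable_ee ψ hc hψ.compact i j
  have hen : ∀ i j, Integrable fun x : Fin N → E3 => 1 / ‖x i - R j‖ * ‖ψ x‖ ^ 2 :=
    fun i j => integrable_en ψ hc hψ.compact i (R j)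
  have hnn : ∀ i j, Integrable fun x : Fin N → E3 => 1 / ‖R i - R j‖ * ‖ψ x‖ ^ 2 :=
    fun i j => (low_state_int ψ hψ).const_mul _
  have mi : ∀ i : Fin N, Measurable fun x : Fin N → E3 => x i := fun i =>
    measurable_pi_apply i
  have mc : ∀ p : E3, Measurable fun _ : Fin N → E3 => p := fun p => measurable_const
  have e1 : (∫ x, ∑ i, inB b.2 b.1 (x i) * gradSq ψ i x) =
      ∑ i, lowT volume (fun x : Fin N → E3 => x i) (fun x => x i) (gradSq ψ i) b := by
    have h1 : ∀ i (x : Fin N → E3), inB b.2 b.1 (x i) * gradSq ψ i x =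
        inB b.2 b.1 (x i) * inB b.2 b.1 (x i) * gradSq ψ i x := by
      intro i x
      have : inB b.2 b.1 (x i) * inB b.2 b.1 (x i) = inB b.2 b.1 (x i) := by
        unfold inB; split_ifs <;> norm_num
      rw [this]
    simp_rw [h1]
    exact integral_finsetSum _ fun i _ => low_mul_int volume _ _ (mi i) (mi i) _ (hg i) b
  have e2 : (∫ x, coulB z x R b.2 b.1 * ‖ψ x‖ ^ 2) =
      1 / 2 * (∑ i, ∑ j, lowT volume (fun x : Fin N → E3 => x i) (fun x => x j)
        (fun x => 1 / ‖x i - x j‖ * ‖ψ x‖ ^ 2) b)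
    - z * (∑ i, ∑ j, lowT volume (fun x : Fin N → E3 => x i) (fun _ => R j)
        (fun x => 1 / ‖x i - R j‖ * ‖ψ x‖ ^ 2) b)
    + z ^ 2 / 2 * (∑ i, ∑ j, lowT volume (fun _ : Fin N → E3 => R i) (fun _ => R j)
        (fun x => 1 / ‖R i - R j‖ * ‖ψ x‖ ^ 2) b) := by
    have h0 : ∀ x : Fin N → E3, coulB z x R b.2 b.1 * ‖ψ x‖ ^ 2 =
        1 / 2 * (∑ i, ∑ j, inB b.2 b.1 (x i) * inB b.2 b.1 (x j) *
          (1 / ‖x i - x j‖ * ‖ψ x‖ ^ 2))
        - z * (∑ i, ∑ j, inB b.2 b.1 (x i) * inB b.2 b.1 (R j) *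
          (1 / ‖x i - R j‖ * ‖ψ x‖ ^ 2))
        + z ^ 2 / 2 * (∑ i, ∑ j, inB b.2 b.1 (R i) * inB b.2 b.1 (R j) *
          (1 / ‖R i - R j‖ * ‖ψ x‖ ^ 2)) := by
      intro x
      unfold coulB
      have hs : ∀ {ι κ : Type} [Fintype ι] [Fintype κ] (p : ι → E3) (q : κ → E3),
          ∑ i, ∑ j, inB b.2 b.1 (p i) * inB b.2 b.1 (q j) *
            (1 / ‖p i - q j‖ * ‖ψ x‖ ^ 2) =
          (∑ i, ∑ j, inB b.2 b.1 (p i) * inB b.2 b.1 (q j) / ‖p i - q j‖) * ‖ψ x‖ ^ 2 := by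
        intro ι κ _ _ p q
        rw [Finset.sum_mul]
        refine Finset.sum_congr rfl fun i _ => ?_
        rw [Finset.sum_mul]
        refine Finset.sum_congr rfl fun j _ => ?_
        ring
      rw [hs, hs, hs]
      ring
    simp_rw [h0]
    have a1 : Integrable fun x : Fin N → E3 => ∑ i, ∑ j,
        inB b.2 b.1 (x i) * inB b.2 b.1 (x j) * (1 / ‖x i - x j‖ * ‖ψ x‖ ^ 2) :=
      integrable_finsetSum _ fun i _ => integrable_finsetSum _ fun j _ =>
        low_mul_int volume _ _ (mi i) (mi j) _ (hee i j) b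
    have a2 : Integrable fun x : Fin N → E3 => ∑ i, ∑ j,
        inB b.2 b.1 (x i) * inB b.2 b.1 (R j) * (1 / ‖x i - R j‖ * ‖ψ x‖ ^ 2) :=
      integrable_finsetSum _ fun i _ => integrable_finsetSum _ fun j _ =>
        low_mul_int volume _ _ (mi i) (mc (R j)) _ (hen i j) b
    have a3 : Integrable fun x : Fin N → E3 => ∑ i, ∑ j,
        inB b.2 b.1 (R i) * inB b.2 b.1 (R j) * (1 / ‖R i - R j‖ * ‖ψ x‖ ^ 2) :=
      integrable_finsetSum _ fun i _ => integrable_finsetSum _ fun j _ =>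
        low_mul_int volume _ _ (mc (R i)) (mc (R j)) _ (hnn i j) b
    refine (low_lin volume _ _ _ a1 a2 a3 (1 / 2) z (z ^ 2 / 2)).trans ?_
    congr 1
    · congr 1
      · congr 1
        rw [integral_finsetSum _ fun i _ => integrable_finsetSum _ fun j _ =>
          low_mul_int volume _ _ (mi i) (mi j) _ (hee i j) b]
        refine Finset.sum_congr rfl fun i _ => ?_
        exact integral_finsetSum _ fun j _ =>
          low_mul_int volume _ _ (mi i) (mi j) _ (hee i j) b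
      · congr 1
        rw [integral_finsetSum _ fun i _ => integrable_finsetSum _ fun j _ =>
          low_mul_int volume _ _ (mi i) (mc (R j)) _ (hen i j) b]
        refine Finset.sum_congr rfl fun i _ => ?_
        exact integral_finsetSum _ fun j _ =>
          low_mul_int volume _ _ (mi i) (mc (R j)) _ (hen i j) b
    · congr 1
      rw [integral_finsetSum _ fun i _ => integrable_finsetSum _ fun j _ =>
        low_mul_int volume _ _ (mc (R i)) (mc (R j)) _ (hnn i j) b]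
      refine Finset.sum_congr rfl fun i _ => ?_
      exact integral_finsetSum _ fun j _ =>
        low_mul_int volume _ _ (mc (R i)) (mc (R j)) _ (hnn i j) b
  rw [e1, e2]
  unfold lowG
  ring

end Pool.Agent.H5R2.NL
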