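import Mathlib
import Pool.Agent.H5R2.NL.All
import Pool.Agent.H5R2.NL.LowA
import Pool.Agent.H5R2.NL.LowB
import Pool.Agent.H5R2.NL.LowC
import Pool.Agent.H5R2.NL.LowD
import Pool.Agent.H5R2.NL.LowE

/-!
# Assembly of the lower bound, part F
-/

set_option autoImplicit false
set_option maxHeartbeats 400000

noncomputable section

namespace Pool.Agent.H5R2.NL

open MeasureTheory Metric
open scoped ENNReal

/-- the localised Coulomb energy -/
def lowH {N K : ℕ} (z ℓ : ℝ) (R : Fin K → E3) (x : Fin N → E3) : ℝ :=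
  1 / 2 * (∑ i, ∑ j, hker ℓ ‖x i - x j‖ / ‖x i - x j‖)
    - z * (∑ i, ∑ j, hker ℓ ‖x i - R j‖ / ‖x i - R j‖)
    + z ^ 2 / 2 * (∑ i, ∑ j, hker ℓ ‖R i - R j‖ / ‖R i - R j‖)

theorem low_hk_int {X : Type} [MeasurableSpace X] (μ : Measure X) (ℓ : ℝ) (hℓ : 0 < ℓ)
    (p q : X → E3) (hp : Measurable p) (hq : Measurable q) (f : X → ℝ)
    (hf : Integrable f μ) : Integrable (fun x => hker ℓ ‖p x - q x‖ * f x) μ := by
  refine hf.bdd_mul (c := 1) ?_ ?_
  · refine Measurable.aestronglyMeasurable ?_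
    unfold hker
    fun_prop
  · refine Filter.Eventually.of_forall fun x => ?_
    rw [Real.norm_of_nonneg (low_hker_nonneg _ _)]
    exact low_hker_le _ _ hℓ (norm_nonneg _)

theorem lowG_int {N K : ℕ} (z ε ℓ : ℝ) (hℓ : 0 < ℓ) (R : Fin K → E3)
    (ψ : (Fin N → E3) → ℂ) (hψ : IsState ψ) :
    Integrable (lowG z ε R ψ) (bm ℓ) ∧
      (∫ b, lowG z ε R ψ b ∂bm ℓ) = ε * kin ψ + ∫ x, lowH z ℓ R x * ‖ψ x‖ ^ 2 := by
  have hc := hψ.smooth.continuous
  have hd : ContDiff ℝ 1 ψ := hψ.smooth.of_le (by exact_mod_cast le_top)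
  have hg : ∀ i, Integrable (gradSq ψ i) := fun i => integrable_gradSq ψ hd hψ.compact i
  have hee : ∀ i j, Integrable fun x : Fin N → E3 => 1 / ‖x i - x j‖ * ‖ψ x‖ ^ 2 :=
    fun i j => integrable_ee ψ hc hψ.compact i j
  have hen : ∀ i j, Integrable fun x : Fin N → E3 => 1 / ‖x i - R j‖ * ‖ψ x‖ ^ 2 :=
    fun i j => integrable_en ψ hc hψ.compact i (R j)
  have hnn : ∀ i j, Integrable fun x : Fin N → E3 => 1 / ‖R i - R j‖ * ‖ψ x‖ ^ 2 :=
    fun i j => (low_state_int ψ hψ).const_mul _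
  have mi : ∀ i : Fin N, Measurable fun x : Fin N → E3 => x i := fun i =>
    measurable_pi_apply i
  have mc : ∀ p : E3, Measurable fun _ : Fin N → E3 => p := fun p => measurable_const
  have b0 : Integrable (fun b => ∑ i, lowT volume (fun x : Fin N → E3 => x i)
      (fun x => x i) (gradSq ψ i) b) (bm ℓ) :=
    integrable_finsetSum _ fun i _ => lowT_int volume ℓ hℓ _ _ (mi i) (mi i) _ (hg i)
  have b1 : Integrable (fun b => ∑ i, ∑ j, lowT volume (fun x : Fin N → E3 => x i)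
      (fun x => x j) (fun x => 1 / ‖x i - x j‖ * ‖ψ x‖ ^ 2) b) (bm ℓ) :=
    integrable_finsetSum _ fun i _ => integrable_finsetSum _ fun j _ =>
      lowT_int volume ℓ hℓ _ _ (mi i) (mi j) _ (hee i j)
  have b2 : Integrable (fun b => ∑ i, ∑ j, lowT volume (fun x : Fin N → E3 => x i)
      (fun _ => R j) (fun x => 1 / ‖x i - R j‖ * ‖ψ x‖ ^ 2) b) (bm ℓ) :=
    integrable_finsetSum _ fun i _ => integrable_finsetSum _ fun j _ =>
      lowT_int volume ℓ hℓ _ _ (mi i) (mc (R j)) _ (hen i j)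
  have b3 : Integrable (fun b => ∑ i, ∑ j, lowT volume (fun _ : Fin N → E3 => R i)
      (fun _ => R j) (fun x => 1 / ‖R i - R j‖ * ‖ψ x‖ ^ 2) b) (bm ℓ) :=
    integrable_finsetSum _ fun i _ => integrable_finsetSum _ fun j _ =>
      lowT_int volume ℓ hℓ _ _ (mc (R i)) (mc (R j)) _ (hnn i j)
  have c0 : (∫ b, ∑ i, lowT volume (fun x : Fin N → E3 => x i)
      (fun x => x i) (gradSq ψ i) b ∂bm ℓ) = kin ψ := by
    rw [integral_finsetSum _ fun i _ => lowT_int volume ℓ hℓ _ _ (mi i) (mi i) _ (hg i)]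
    unfold kin
    rw [integral_finsetSum _ fun i _ => hg i]
    refine Finset.sum_congr rfl fun i _ => ?_
    rw [lowT_eq volume ℓ hℓ _ _ (mi i) (mi i) _ (hg i)]
    refine integral_congr_ae (Filter.Eventually.of_forall fun x => ?_)
    simp [hker]
  have hs : ∀ {ι κ : Type} [Fintype ι] [Fintype κ] (p : ι → (Fin N → E3) → E3)
      (q : κ → (Fin N → E3) → E3) (f : ι → κ → (Fin N → E3) → ℝ)
      (_ : ∀ i, Measurable (p i)) (_ : ∀ j, Measurable (q j))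
      (_ : ∀ i j, Integrable (f i j)),
      (∫ b, ∑ i, ∑ j, lowT volume (p i) (q j) (f i j) b ∂bm ℓ) =
        ∫ x, ∑ i, ∑ j, hker ℓ ‖p i x - q j x‖ * f i j x := by
    intro ι κ _ _ p q f hp hq hf
    rw [integral_finsetSum _ fun i _ => integrable_finsetSum _ fun j _ =>
      lowT_int volume ℓ hℓ _ _ (hp i) (hq j) _ (hf i j)]
    rw [integral_finsetSum _ fun i _ => integrable_finsetSum _ fun j _ =>
      low_hk_int volume ℓ hℓ _ _ (hp i) (hq j) _ (hf i j)]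
    refine Finset.sum_congr rfl fun i _ => ?_
    rw [integral_finsetSum _ fun j _ => lowT_int volume ℓ hℓ _ _ (hp i) (hq j) _ (hf i j)]
    rw [integral_finsetSum _ fun j _ => low_hk_int volume ℓ hℓ _ _ (hp i) (hq j) _ (hf i j)]
    exact Finset.sum_congr rfl fun j _ => lowT_eq volume ℓ hℓ _ _ (hp i) (hq j) _ (hf i j)
  have hi : ∀ {ι κ : Type} [Fintype ι] [Fintype κ] (p : ι → (Fin N → E3) → E3)
      (q : κ → (Fin N → E3) → E3) (f : ι → κ → (Fin N → E3) → ℝ)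
      (_ : ∀ i, Measurable (p i)) (_ : ∀ j, Measurable (q j))
      (_ : ∀ i j, Integrable (f i j)),
      Integrable (fun x => ∑ i, ∑ j, hker ℓ ‖p i x - q j x‖ * f i j x) := by
    intro ι κ _ _ p q f hp hq hf
    exact integrable_finsetSum _ fun i _ => integrable_finsetSum _ fun j _ =>
      low_hk_int volume ℓ hℓ _ _ (hp i) (hq j) _ (hf i j)
  have hGeq : lowG z ε R ψ = fun b => ε * (∑ i, lowT volume (fun x : Fin N → E3 => x i)
      (fun x => x i) (gradSq ψ i) b) +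
      (1 / 2 * (∑ i, ∑ j, lowT volume (fun x : Fin N → E3 => x i) (fun x => x j)
        (fun x => 1 / ‖x i - x j‖ * ‖ψ x‖ ^ 2) b)
    - z * (∑ i, ∑ j, lowT volume (fun x : Fin N → E3 => x i) (fun _ => R j)
        (fun x => 1 / ‖x i - R j‖ * ‖ψ x‖ ^ 2) b)
    + z ^ 2 / 2 * (∑ i, ∑ j, lowT volume (fun _ : Fin N → E3 => R i) (fun _ => R j)
        (fun x => 1 / ‖R i - R j‖ * ‖ψ x‖ ^ 2) b)) := by
    funext b
    unfold lowG
    ring
  have hG2 : Integrable (fun b => 1 / 2 * (∑ i, ∑ j, lowT volume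
      (fun x : Fin N → E3 => x i) (fun x => x j) (fun x => 1 / ‖x i - x j‖ * ‖ψ x‖ ^ 2) b)
    - z * (∑ i, ∑ j, lowT volume (fun x : Fin N → E3 => x i) (fun _ => R j)
        (fun x => 1 / ‖x i - R j‖ * ‖ψ x‖ ^ 2) b)
    + z ^ 2 / 2 * (∑ i, ∑ j, lowT volume (fun _ : Fin N → E3 => R i) (fun _ => R j)
        (fun x => 1 / ‖R i - R j‖ * ‖ψ x‖ ^ 2) b)) (bm ℓ) :=
    ((b1.const_mul _).sub (b2.const_mul _)).add (b3.const_mul _)
  rw [hGeq]
  refine ⟨(b0.const_mul ε).add hG2, ?_⟩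
  rw [integral_add (b0.const_mul ε) hG2, integral_const_mul, c0,
    low_lin (bm ℓ) _ _ _ b1 b2 b3]
  congr 1
  have e0 : ∀ x : Fin N → E3, lowH z ℓ R x * ‖ψ x‖ ^ 2 =
      1 / 2 * (∑ i, ∑ j, hker ℓ ‖x i - x j‖ * (1 / ‖x i - x j‖ * ‖ψ x‖ ^ 2))
        - z * (∑ i, ∑ j, hker ℓ ‖x i - R j‖ * (1 / ‖x i - R j‖ * ‖ψ x‖ ^ 2))
        + z ^ 2 / 2 * (∑ i, ∑ j, hker ℓ ‖R i - R j‖ * (1 / ‖R i - R j‖ * ‖ψ x‖ ^ 2)) := by
    intro x
    unfold lowH
    have hs : ∀ {ι κ : Type} [Fintype ι] [Fintype κ] (p : ι → E3) (q : κ → E3),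
        ∑ i, ∑ j, hker ℓ ‖p i - q j‖ * (1 / ‖p i - q j‖ * ‖ψ x‖ ^ 2) =
        (∑ i, ∑ j, hker ℓ ‖p i - q j‖ / ‖p i - q j‖) * ‖ψ x‖ ^ 2 := by
      intro ι κ _ _ p q
      rw [Finset.sum_mul]
      refine Finset.sum_congr rfl fun i _ => ?_
      rw [Finset.sum_mul]
      refine Finset.sum_congr rfl fun j _ => ?_
      ring
    rw [hs, hs, hs]
    ring
  simp_rw [e0]
  rw [low_lin volume _ _ _
    (hi (fun i x => x i) (fun j x => x j) (fun i j x => 1 / ‖x i - x j‖ * ‖ψ x‖ ^ 2) mi mi hee)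
    (hi (fun i x => x i) (fun j _ => R j) (fun i j x => 1 / ‖x i - R j‖ * ‖ψ x‖ ^ 2) mi
      (fun j => mc (R j)) hen)
    (hi (fun i _ => R i) (fun j _ => R j) (fun i j x => 1 / ‖R i - R j‖ * ‖ψ x‖ ^ 2)
      (fun j => mc (R j)) (fun j => mc (R j)) hnn)]
  rw [hs (fun i x => x i) (fun j x => x j) (fun i j x => 1 / ‖x i - x j‖ * ‖ψ x‖ ^ 2) mi mi
      hee,
    hs (fun i x => x i) (fun j _ => R j) (fun i j x => 1 / ‖x i - R j‖ * ‖ψ x‖ ^ 2) mi
      (fun j => mc (R j)) hen,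
    hs (fun i _ => R i) (fun j _ => R j) (fun i j x => 1 / ‖R i - R j‖ * ‖ψ x‖ ^ 2)
      (fun j => mc (R j)) (fun j => mc (R j)) hnn]

end Pool.Agent.H5R2.NL
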