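import Mathlib
import Pool.Agent.H5R2.NL.All
import Pool.Agent.H5R2.NL.LowA
import Pool.Agent.H5R2.NL.LowB
import Pool.Agent.H5R2.NL.LowC
import Pool.Agent.H5R2.NL.LowD
import Pool.Agent.H5R2.NL.LowE
import Pool.Agent.H5R2.NL.LowF

/-!
# Assembly of the lower bound, part G
-/

set_option autoImplicit false
set_option maxHeartbeats 400000

noncomputable section

namespace Pool.Agent.H5R2.NL

open MeasureTheory Metric
open scoped ENNReal

theorem low_coul_int {N K : ℕ} (z : ℝ) (R : Fin K → E3) (ψ : (Fin N → E3) → ℂ)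
    (hψ : IsState ψ) : Integrable (fun x => coul z x R * ‖ψ x‖ ^ 2) := by
  have hc := hψ.smooth.continuous
  have h1 : (fun x : Fin N → E3 => coul z x R * ‖ψ x‖ ^ 2) = fun x =>
      1 / 2 * (∑ i, ∑ j, 1 / ‖x i - x j‖ * ‖ψ x‖ ^ 2)
        - z * (∑ i, ∑ j, 1 / ‖x i - R j‖ * ‖ψ x‖ ^ 2)
        + (z ^ 2 / 2 * ∑ i, ∑ j, 1 / ‖R i - R j‖) * ‖ψ x‖ ^ 2 := by
    funext x
    unfold coul
    simp_rw [← Finset.sum_mul]
    ring
  rw [h1]
  have h2 : Integrable (fun x : Fin N → E3 => ∑ i, ∑ j, 1 / ‖x i - x j‖ * ‖ψ x‖ ^ 2) :=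
    integrable_finsetSum _ fun i _ => integrable_finsetSum _ fun j _ =>
      integrable_ee ψ hc hψ.compact i j
  have h3 : Integrable (fun x : Fin N → E3 => ∑ i, ∑ j, 1 / ‖x i - R j‖ * ‖ψ x‖ ^ 2) :=
    integrable_finsetSum _ fun i _ => integrable_finsetSum _ fun j _ =>
      integrable_en ψ hc hψ.compact i (R j)
  exact ((h2.const_mul _).sub (h3.const_mul _)).add ((low_state_int ψ hψ).const_mul _)

theorem lowH_int {N K : ℕ} (z ℓ : ℝ) (hℓ : 0 < ℓ) (R : Fin K → E3) (ψ : (Fin N → E3) → ℂ)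
    (hψ : IsState ψ) : Integrable (fun x => lowH z ℓ R x * ‖ψ x‖ ^ 2) := by
  have hc := hψ.smooth.continuous
  have e0 : (fun x : Fin N → E3 => lowH z ℓ R x * ‖ψ x‖ ^ 2) = fun x =>
      1 / 2 * (∑ i, ∑ j, hker ℓ ‖x i - x j‖ * (1 / ‖x i - x j‖ * ‖ψ x‖ ^ 2))
        - z * (∑ i, ∑ j, hker ℓ ‖x i - R j‖ * (1 / ‖x i - R j‖ * ‖ψ x‖ ^ 2))
        + (z ^ 2 / 2 * (∑ i, ∑ j, hker ℓ ‖R i - R j‖ / ‖R i - R j‖)) * ‖ψ x‖ ^ 2 := by
    funext x
    unfold lowH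
    have hs : ∀ {ι κ : Type} [Fintype ι] [Fintype κ] (p : ι → E3) (q : κ → E3),
        ∑ i, ∑ j, hker ℓ ‖p i - q j‖ * (1 / ‖p i - q j‖ * ‖ψ x‖ ^ 2) =
        (∑ i, ∑ j, hker ℓ ‖p i - q j‖ / ‖p i - q j‖) * ‖ψ x‖ ^ 2 := by
      intro ι κ _ _ p q
      rw [Finset.sum_mul]
      refine Finset.sum_congr rfl fun i _ => ?_
      rw [Finset.sum_mul]
      refine Finset.sum_congr rfl fun j _ => ?_
      ring
    rw [hs, hs]
    ring
  rw [e0]
  have mi : ∀ i : Fin N, Measurable fun x : Fin N → E3 => x i := fun i =>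
    measurable_pi_apply i
  have h2 : Integrable (fun x : Fin N → E3 =>
      ∑ i, ∑ j, hker ℓ ‖x i - x j‖ * (1 / ‖x i - x j‖ * ‖ψ x‖ ^ 2)) :=
    integrable_finsetSum _ fun i _ => integrable_finsetSum _ fun j _ =>
      low_hk_int volume ℓ hℓ _ _ (mi i) (mi j) _ (integrable_ee ψ hc hψ.compact i j)
  have h3 : Integrable (fun x : Fin N → E3 =>
      ∑ i, ∑ j, hker ℓ ‖x i - R j‖ * (1 / ‖x i - R j‖ * ‖ψ x‖ ^ 2)) :=
    integrable_finsetSum _ fun i _ => integrable_finsetSum _ fun j _ =>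
      low_hk_int volume ℓ hℓ _ _ (mi i) measurable_const _
        (integrable_en ψ hc hψ.compact i (R j))
  exact ((h2.const_mul _).sub (h3.const_mul _)).add ((low_state_int ψ hψ).const_mul _)

theorem low_gs {N K : ℕ} (z ℓ : ℝ) (hz : 0 ≤ z) (hℓ : 0 < ℓ) (R : Fin K → E3)
    (hR : Function.Injective R) (ψ : (Fin N → E3) → ℂ) (hψ : IsState ψ) :
    (∫ x, lowH z ℓ R x * ‖ψ x‖ ^ 2) - 3 / 4 * (2 * z + 1) * N / ℓ ≤
      ∫ x, coul z x R * ‖ψ x‖ ^ 2 := by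
  have h1 := lowH_int z ℓ hℓ R ψ hψ
  have h2 := low_coul_int z R ψ hψ
  have h3 : ∀ᵐ x : Fin N → E3, lowH z ℓ R x - 3 / 4 * (2 * z + 1) * N / ℓ ≤ coul z x R := by
    filter_upwards [distinct_ae (ι := Fin N) R] with x hx
    have := gs_balls z ℓ hz hℓ x R hx.1 hR hx.2
    rw [low_coulB_eq z ℓ hℓ x R, Fintype.card_fin] at this
    exact this
  have h4 := (low_state_int ψ hψ).const_mul (3 / 4 * (2 * z + 1) * N / ℓ)
  have h5 : (∫ x, (lowH z ℓ R x * ‖ψ x‖ ^ 2 - 3 / 4 * (2 * z + 1) * N / ℓ * ‖ψ x‖ ^ 2)) ≤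
      ∫ x, coul z x R * ‖ψ x‖ ^ 2 := by
    refine integral_mono_ae (h1.sub h4) h2 ?_
    filter_upwards [h3] with x hx
    have h0 : 0 ≤ ‖ψ x‖ ^ 2 := by positivity
    have := mul_le_mul_of_nonneg_right hx h0
    calc _ = (lowH z ℓ R x - 3 / 4 * (2 * z + 1) * N / ℓ) * ‖ψ x‖ ^ 2 := by ring
      _ ≤ _ := this
  rw [integral_sub h1 h4, integral_const_mul, hψ.normalized, mul_one] at h5
  exact h5

/-- lower bound of the integral of `G` by the local errors -/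
theorem low_G_ge {N K : ℕ} (z ε ℓ : ℝ) (hℓ : 0 < ℓ) (R : Fin K → E3)
    (ψ : (Fin N → E3) → ℂ) (hψ : IsState ψ)
    (Q : E3 → ℝ → (Fin N → E3) → ℝ)
    (hQm : Measurable fun bx : (ℝ × E3) × (Fin N → E3) => Q bx.1.2 bx.1.1 bx.2)
    (hQ0 : ∀ w r x, 0 < r → 0 ≤ Q w r x)
    (hQb : ∀ w r, 0 < r → ∃ B, ∀ x, |Q w r x| ≤ B)
    (hloc : ∀ w r, 0 < r → r ≤ ℓ → 0 ≤ ε * (∫ x, ∑ i, inB w r (x i) * gradSq ψ i x) +
      (∫ x, (coulB z x R w r + Q w r x) * ‖ψ x‖ ^ 2)) (M : ℝ) (hM : 0 ≤ M)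
    (hQM : ∫⁻ x, ∫⁻ b : ℝ × E3, ENNReal.ofReal (Q b.2 b.1 x * ‖ψ x‖ ^ 2) ∂bm ℓ ≤
      ENNReal.ofReal M) :
    -M ≤ ∫ b, lowG z ε R ψ b ∂bm ℓ := by
  obtain ⟨hGi, -⟩ := lowG_int z ε ℓ hℓ R ψ hψ
  have hQm' : ∀ w r, Measurable fun x : Fin N → E3 => Q w r x := fun w r =>
    hQm.comp (measurable_const.prodMk measurable_id : Measurable fun x : Fin N → E3 =>
      (((r, w), x) : (ℝ × E3) × (Fin N → E3)))
  have hpt : ∀ᵐ b : ℝ × E3 ∂bm ℓ, ENNReal.ofReal (max (-lowG z ε R ψ b) 0) ≤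
      ∫⁻ x, ENNReal.ofReal (Q b.2 b.1 x * ‖ψ x‖ ^ 2) := by
    filter_upwards [low_bm_ae ℓ] with b hb
    have h1 := hloc b.2 b.1 hb.1 hb.2
    obtain ⟨B, hB⟩ := hQb b.2 b.1 hb.1
    have hQi : Integrable fun x => Q b.2 b.1 x * ‖ψ x‖ ^ 2 := by
      refine (low_state_int ψ hψ).bdd_mul (c := B) (hQm' _ _).aestronglyMeasurable ?_
      exact Filter.Eventually.of_forall fun x => hB x
    have hCi : Integrable fun x => coulB z x R b.2 b.1 * ‖ψ x‖ ^ 2 := by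
      have h0 : (fun x : Fin N → E3 => coulB z x R b.2 b.1 * ‖ψ x‖ ^ 2) = fun x =>
          1 / 2 * (∑ i, ∑ j, inB b.2 b.1 (x i) * inB b.2 b.1 (x j) *
            (1 / ‖x i - x j‖ * ‖ψ x‖ ^ 2))
          - z * (∑ i, ∑ j, inB b.2 b.1 (x i) * inB b.2 b.1 (R j) *
            (1 / ‖x i - R j‖ * ‖ψ x‖ ^ 2))
          + z ^ 2 / 2 * (∑ i, ∑ j, inB b.2 b.1 (R i) * inB b.2 b.1 (R j) *
            (1 / ‖R i - R j‖ * ‖ψ x‖ ^ 2)) := by
        funext x
        unfold coulB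
        have hs : ∀ {ι κ : Type} [Fintype ι] [Fintype κ] (p : ι → E3) (q : κ → E3),
            ∑ i, ∑ j, inB b.2 b.1 (p i) * inB b.2 b.1 (q j) *
              (1 / ‖p i - q j‖ * ‖ψ x‖ ^ 2) =
            (∑ i, ∑ j, inB b.2 b.1 (p i) * inB b.2 b.1 (q j) / ‖p i - q j‖) *
              ‖ψ x‖ ^ 2 := by
          intro ι κ _ _ p q
          rw [Finset.sum_mul]
          refine Finset.sum_congr rfl fun i _ => ?_
          rw [Finset.sum_mul]
          refine Finset.sum_congr rfl fun j _ => ?_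
          ring
        rw [hs, hs, hs]
        ring
      rw [h0]
      have hc := hψ.smooth.continuous
      have mi : ∀ i : Fin N, Measurable fun x : Fin N → E3 => x i := fun i =>
        measurable_pi_apply i
      have a1 : Integrable fun x : Fin N → E3 => ∑ i, ∑ j,
          inB b.2 b.1 (x i) * inB b.2 b.1 (x j) * (1 / ‖x i - x j‖ * ‖ψ x‖ ^ 2) :=
        integrable_finsetSum _ fun i _ => integrable_finsetSum _ fun j _ =>
          low_mul_int volume _ _ (mi i) (mi j) _ (integrable_ee ψ hc hψ.compact i j) b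
      have a2 : Integrable fun x : Fin N → E3 => ∑ i, ∑ j,
          inB b.2 b.1 (x i) * inB b.2 b.1 (R j) * (1 / ‖x i - R j‖ * ‖ψ x‖ ^ 2) :=
        integrable_finsetSum _ fun i _ => integrable_finsetSum _ fun j _ =>
          low_mul_int volume _ _ (mi i) measurable_const _
            (integrable_en ψ hc hψ.compact i (R j)) b
      have a3 : Integrable fun x : Fin N → E3 => ∑ i, ∑ j,
          inB b.2 b.1 (R i) * inB b.2 b.1 (R j) * (1 / ‖R i - R j‖ * ‖ψ x‖ ^ 2) :=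
        integrable_finsetSum _ fun i _ => integrable_finsetSum _ fun j _ =>
          low_mul_int volume _ _ measurable_const measurable_const _
            ((low_state_int ψ hψ).const_mul _) b
      exact ((a1.const_mul _).sub (a2.const_mul _)).add (a3.const_mul _)
    have h2 : (∫ x, (coulB z x R b.2 b.1 + Q b.2 b.1 x) * ‖ψ x‖ ^ 2) =
        (∫ x, coulB z x R b.2 b.1 * ‖ψ x‖ ^ 2) + ∫ x, Q b.2 b.1 x * ‖ψ x‖ ^ 2 := by
      rw [← integral_add hCi hQi]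
      exact integral_congr_ae (Filter.Eventually.of_forall fun x => by ring)
    rw [h2] at h1
    have h3 := lowG_eq z ε R ψ hψ b
    have h4 : -lowG z ε R ψ b ≤ ∫ x, Q b.2 b.1 x * ‖ψ x‖ ^ 2 := by
      rw [h3]; linarith
    have h5 : 0 ≤ ∫ x, Q b.2 b.1 x * ‖ψ x‖ ^ 2 :=
      integral_nonneg fun x => mul_nonneg (hQ0 _ _ _ hb.1) (by positivity)
    calc ENNReal.ofReal (max (-lowG z ε R ψ b) 0)
        ≤ ENNReal.ofReal (∫ x, Q b.2 b.1 x * ‖ψ x‖ ^ 2) :=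
          ENNReal.ofReal_le_ofReal (max_le h4 h5)
      _ = ∫⁻ x, ENNReal.ofReal (Q b.2 b.1 x * ‖ψ x‖ ^ 2) := by
          rw [ofReal_integral_eq_lintegral_ofReal hQi]
          exact Filter.Eventually.of_forall fun x =>
            mul_nonneg (hQ0 _ _ _ hb.1) (by positivity)
  have hm : Measurable fun bx : (ℝ × E3) × (Fin N → E3) =>
      ENNReal.ofReal (Q bx.1.2 bx.1.1 bx.2 * ‖ψ bx.2‖ ^ 2) := by
    have h3 : Measurable fun bx : (ℝ × E3) × (Fin N → E3) => ‖ψ bx.2‖ ^ 2 :=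
      ((hψ.smooth.continuous.measurable.comp measurable_snd).norm).pow_const 2
    exact (hQm.mul h3).ennreal_ofReal
  have hsw := lintegral_lintegral_swap (μ := bm ℓ) (ν := (volume : Measure (Fin N → E3)))
    (f := fun (b : ℝ × E3) (x : Fin N → E3) =>
      ENNReal.ofReal (Q b.2 b.1 x * ‖ψ x‖ ^ 2)) hm.aemeasurable
  have hle : ∫⁻ b, ENNReal.ofReal (max (-lowG z ε R ψ b) 0) ∂bm ℓ ≤ ENNReal.ofReal M :=
    (lintegral_mono_ae hpt).trans (hsw.trans_le hQM)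
  have hneg : Integrable (fun b => max (-lowG z ε R ψ b) 0) (bm ℓ) := hGi.neg.pos_part
  have h6 : (∫ b, max (-lowG z ε R ψ b) 0 ∂bm ℓ) ≤ M := by
    have h00 : 0 ≤ᵐ[bm ℓ] fun b => max (-lowG z ε R ψ b) 0 :=
      Filter.Eventually.of_forall fun b => le_max_right _ _
    rw [integral_eq_lintegral_of_nonneg_ae h00 hneg.aestronglyMeasurable]
    calc _ ≤ (ENNReal.ofReal M).toReal := ENNReal.toReal_mono ENNReal.ofReal_ne_top hle
      _ = M := ENNReal.toReal_ofReal hM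
  have h7 : (∫ b, -lowG z ε R ψ b ∂bm ℓ) ≤ ∫ b, max (-lowG z ε R ψ b) 0 ∂bm ℓ :=
    integral_mono hGi.neg hneg fun b => le_max_left _ _
  rw [integral_neg] at h7
  linarith

end Pool.Agent.H5R2.NL
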