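import Mathlib
import Pool.Agent.H5R2.NL.All
import Pool.Agent.H5R2.NL.LowA
import Pool.Agent.H5R2.NL.LowB
import Pool.Agent.H5R2.NL.LowC
import Pool.Agent.H5R2.NL.LowD
import Pool.Agent.H5R2.NL.LowE
import Pool.Agent.H5R2.NL.LowF
import Pool.Agent.H5R2.NL.LowG

/-!
# The lower bound
-/

set_option autoImplicit false
set_option maxHeartbeats 400000

noncomputable section

namespace Pool.Agent.H5R2.NL

open MeasureTheory Metric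
open scoped ENNReal

theorem low_pows (x : ℝ) (hx : 1 ≤ x) :
    x ^ (-(97 / 150) : ℝ) * (x ^ (7 / 50 : ℝ)) ^ 2 ≤ x ^ (-(1 / 300) : ℝ) ∧
    Real.sqrt x * x ^ (-(97 / 150) : ℝ) ≤ x ^ (-(1 / 300) : ℝ) ∧
    (x ^ (7 / 50 : ℝ)) ^ (-(1 / 6) : ℝ) * (x ^ (2 / 3 : ℝ) * x ^ (-(97 / 150) : ℝ)) ≤
      x ^ (-(1 / 300) : ℝ) ∧
    x / x ^ (-(97 / 150) : ℝ) ≤ x ^ (-(1 / 300) : ℝ) * x ^ (5 / 3 : ℝ) ∧
    (x ^ (7 / 50 : ℝ)) ^ 3 * x ≤ x ^ (-(1 / 300) : ℝ) * x ^ (5 / 3 : ℝ) ∧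
    (x ^ (7 / 50 : ℝ)) ^ (-(1 / 6) : ℝ) ≤ 1 ∧ 1 ≤ x ^ (7 / 50 : ℝ) := by
  have h0 : 0 < x := by linarith
  have e2 : (x ^ (7 / 50 : ℝ)) ^ 2 = x ^ (7 / 25 : ℝ) := by
    rw [← Real.rpow_natCast, ← Real.rpow_mul h0.le]; norm_num
  have e3 : (x ^ (7 / 50 : ℝ)) ^ 3 = x ^ (21 / 50 : ℝ) := by
    rw [← Real.rpow_natCast, ← Real.rpow_mul h0.le]; norm_num
  have e6 : (x ^ (7 / 50 : ℝ)) ^ (-(1 / 6) : ℝ) = x ^ (-(7 / 300) : ℝ) := by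
    rw [← Real.rpow_mul h0.le]; norm_num
  refine ⟨?_, ?_, ?_, ?_, ?_, ?_, ?_⟩
  · rw [e2, ← Real.rpow_add h0]
    exact Real.rpow_le_rpow_of_exponent_le hx (by norm_num)
  · rw [Real.sqrt_eq_rpow, ← Real.rpow_add h0]
    exact Real.rpow_le_rpow_of_exponent_le hx (by norm_num)
  · rw [e6, ← Real.rpow_add h0, ← Real.rpow_add h0]
    exact Real.rpow_le_rpow_of_exponent_le hx (by norm_num)
  · have : x / x ^ (-(97 / 150) : ℝ) = x ^ (1 - (-(97 / 150)) : ℝ) := by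
      rw [Real.rpow_sub h0, Real.rpow_one]
    rw [this, ← Real.rpow_add h0]
    exact Real.rpow_le_rpow_of_exponent_le hx (by norm_num)
  · have : (x ^ (7 / 50 : ℝ)) ^ 3 * x = x ^ (21 / 50 + 1 : ℝ) := by
      rw [e3, Real.rpow_add h0, Real.rpow_one]
    rw [this, ← Real.rpow_add h0]
    exact Real.rpow_le_rpow_of_exponent_le hx (by norm_num)
  · rw [e6]
    exact Real.rpow_le_one_of_one_le_of_nonpos hx (by norm_num)
  · exact Real.one_le_rpow hx (by norm_num)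

theorem low_gam_nonneg : 0 ≤ Gam := by
  unfold Gam
  refine Real.sSup_nonneg ?_
  rintro q ⟨u, -, -, -, rfl⟩
  refine div_nonneg (sq_nonneg _) (integral_nonneg fun x => ?_)
  unfold gsq
  positivity

theorem low_kin_nonneg {N : ℕ} (ψ : (Fin N → E3) → ℂ) : 0 ≤ kin ψ := by
  unfold kin
  refine integral_nonneg fun x => Finset.sum_nonneg fun i _ => ?_
  unfold gradSq gsq
  positivity

theorem low_slice {X Y Z : Type} [MeasurableSpace X] [MeasurableSpace Y] [MeasurableSpace Z]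
    (F : X → Y → Z) (h : Measurable fun p : X × Y => F p.1 p.2) (y : Y) :
    Measurable fun x => F x y :=
  h.comp (measurable_id.prodMk measurable_const)

theorem low_lint_meas {X Y : Type} [MeasurableSpace X] [MeasurableSpace Y]
    (μ : Measure X) [SFinite μ] (F : X → Y → ℝ≥0∞) (h : Measurable fun p : X × Y => F p.1 p.2) :
    Measurable fun y => ∫⁻ x, F x y ∂μ :=
  (h.comp measurable_swap).lintegral_prod_right'

theorem low_lsum {X : Type} [MeasurableSpace X] (μ : Measure X) (F₁ F₂ F₃ F₄ : X → ℝ≥0∞)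
    (h₁ : Measurable F₁) (h₂ : Measurable F₂) (h₃ : Measurable F₃) (c : ℝ≥0∞) :
    ∫⁻ x, (c * F₁ x + F₂ x + F₃ x + F₄ x) ∂μ =
      c * (∫⁻ x, F₁ x ∂μ) + (∫⁻ x, F₂ x ∂μ) + (∫⁻ x, F₃ x ∂μ) + (∫⁻ x, F₄ x ∂μ) := by
  have a1 : Measurable fun x => c * F₁ x := h₁.const_mul c
  have a2 : Measurable fun x => c * F₁ x + F₂ x := a1.add h₂
  have a3 : Measurable fun x => c * F₁ x + F₂ x + F₃ x := a2.add h₃
  rw [lintegral_add_left a3, lintegral_add_left a2, lintegral_add_left a1,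
    lintegral_const_mul _ h₁]

/-- the integrated error -/
theorem low_err {N : ℕ} (ψ : (Fin N → E3) → ℂ) (hψ : IsState ψ)
    (A Ce Cg Cc ε n₀ ℓ Mb P Q : ℝ) (hA : 0 ≤ A) (hCe : 0 ≤ Ce) (hCg : 0 ≤ Cg)
    (hCc : 0 ≤ Cc) (hε : 0 < ε) (hn₀ : 1 ≤ n₀) (hℓ : 0 < ℓ) (hMb : 0 ≤ Mb) (hP : 0 ≤ P)
    (hQ : 0 ≤ Q)
    (hbad : ∫⁻ x, ∫⁻ b : ℝ × E3, ENNReal.ofReal (badQ n₀ b.2 b.1 x * ‖ψ x‖ ^ 2) ∂bm ℓ ≤
      ENNReal.ofReal Mb)
    (hB : ∀ r, 0 < r → r ≤ ℓ → A * (∫ x, lowF r x * ‖ψ x‖ ^ 2) ≤ P + Q / r) :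
    ∫⁻ x, ∫⁻ b : ℝ × E3, ENNReal.ofReal
      (lowQ A Ce Cg Cc ε n₀ b.2 b.1 x * ‖ψ x‖ ^ 2) ∂bm ℓ ≤
    ENNReal.ofReal (Cc * Mb + (P + 2 * Q / ℓ) + (Ce + Cg) * (2 / ℓ) * N +
      Cg * n₀ ^ 3 / ε * N) := by
  have hb2 := low_b2 ψ hψ ℓ hℓ A P Q hA hP hQ hB
  have hb3 := low_n_int ψ hψ ℓ hℓ (fun r => (Ce + Cg) / r) (by fun_prop)
    (fun r hr => by positivity) ((Ce + Cg) * (2 / ℓ)) (by positivity) (by
      have h1 : ∀ r ∈ Set.Ioc (0 : ℝ) ℓ, ENNReal.ofReal ((Ce + Cg) / r) *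
          ENNReal.ofReal (2 * r / ℓ ^ 2) ≤ ENNReal.ofReal ((Ce + Cg) * (2 / ℓ ^ 2)) := by
        intro r hr
        have hr0 : 0 < r := hr.1
        rw [← ENNReal.ofReal_mul (by positivity)]
        refine ENNReal.ofReal_le_ofReal (le_of_eq ?_)
        field_simp
      refine (setLIntegral_mono' measurableSet_Ioc h1).trans ?_
      rw [setLIntegral_const, Real.volume_Ioc, ← ENNReal.ofReal_mul (by positivity)]
      refine ENNReal.ofReal_le_ofReal (le_of_eq ?_)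
      field_simp
      ring)
  have hb4 := low_n_int ψ hψ ℓ hℓ (fun _ => Cg * n₀ ^ 3 / ε) (by fun_prop)
    (fun r hr => by positivity) (Cg * n₀ ^ 3 / ε) (by positivity) (by
      rw [lintegral_const_mul' _ _ ENNReal.ofReal_ne_top]
      have hi : IntegrableOn (fun r : ℝ => 2 * r / ℓ ^ 2) (Set.Ioc 0 ℓ) := by
        have : Continuous fun r : ℝ => 2 * r / ℓ ^ 2 := by fun_prop
        exact this.integrableOn_Ioc
      rw [← ofReal_integral_eq_lintegral_ofReal hi ((ae_restrict_iff' measurableSet_Ioc).mpr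
        (Filter.Eventually.of_forall fun r hr => by
          have hr0 : 0 < r := hr.1
          show (0 : ℝ) ≤ _
          positivity)), ← ENNReal.ofReal_mul (by positivity)]
      refine ENNReal.ofReal_le_ofReal (le_of_eq ?_)
      rw [← intervalIntegral.integral_of_le hℓ.le, intervalIntegral.integral_div,
        intervalIntegral.integral_const_mul, integral_id]
      field_simp
      ring)
  -- measurability
  have m1 := low_nB_meas (N := N)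
  have m2 : Measurable fun bx : (ℝ × E3) × (Fin N → E3) =>
    volume.real (ball bx.1.2 bx.1.1) := low_V_meas.comp measurable_fst
  have m3 : Measurable fun bx : (ℝ × E3) × (Fin N → E3) => ‖ψ bx.2‖ ^ 2 :=
    ((hψ.smooth.continuous.measurable.comp measurable_snd).norm).pow_const 2
  have mF1 : Measurable fun bx : (ℝ × E3) × (Fin N → E3) =>
      ENNReal.ofReal (badQ n₀ bx.1.2 bx.1.1 bx.2 * ‖ψ bx.2‖ ^ 2) :=
    ((low_badQ_meas n₀).mul m3).ennreal_ofReal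
  have mF2 : Measurable fun bx : (ℝ × E3) × (Fin N → E3) =>
      ENNReal.ofReal (A * nB bx.1.2 bx.1.1 bx.2 ^ (4 / 3 : ℝ) *
      volume.real (ball bx.1.2 bx.1.1) ^ (-(1 / 3) : ℝ) * ‖ψ bx.2‖ ^ 2) :=
    ((((m1.pow_const _).const_mul A).mul (m2.pow_const _)).mul m3).ennreal_ofReal
  have mF3 : Measurable fun bx : (ℝ × E3) × (Fin N → E3) =>
      ENNReal.ofReal ((Ce + Cg) / bx.1.1 * nB bx.1.2 bx.1.1 bx.2 * ‖ψ bx.2‖ ^ 2) := by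
    have m4 : Measurable fun bx : (ℝ × E3) × (Fin N → E3) => (Ce + Cg) / bx.1.1 := by
      fun_prop
    exact ((m4.mul m1).mul m3).ennreal_ofReal
  -- pointwise bound
  have hpt : ∀ x : Fin N → E3, ∫⁻ b : ℝ × E3, ENNReal.ofReal
      (lowQ A Ce Cg Cc ε n₀ b.2 b.1 x * ‖ψ x‖ ^ 2) ∂bm ℓ ≤
      ENNReal.ofReal Cc * (∫⁻ b : ℝ × E3, ENNReal.ofReal
        (badQ n₀ b.2 b.1 x * ‖ψ x‖ ^ 2) ∂bm ℓ) +
      (∫⁻ b : ℝ × E3, ENNReal.ofReal (A * nB b.2 b.1 x ^ (4 / 3 : ℝ) *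
        volume.real (ball b.2 b.1) ^ (-(1 / 3) : ℝ) * ‖ψ x‖ ^ 2) ∂bm ℓ) +
      (∫⁻ b : ℝ × E3, ENNReal.ofReal ((Ce + Cg) / b.1 * nB b.2 b.1 x * ‖ψ x‖ ^ 2) ∂bm ℓ) +
      (∫⁻ b : ℝ × E3, ENNReal.ofReal (Cg * n₀ ^ 3 / ε * nB b.2 b.1 x * ‖ψ x‖ ^ 2)
        ∂bm ℓ) := by
    intro x
    have k1 : Measurable fun b : ℝ × E3 => ENNReal.ofReal
        (badQ n₀ b.2 b.1 x * ‖ψ x‖ ^ 2) :=
      low_slice (fun (b : ℝ × E3) (x : Fin N → E3) => ENNReal.ofReal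
        (badQ n₀ b.2 b.1 x * ‖ψ x‖ ^ 2)) mF1 x
    have k2 : Measurable fun b : ℝ × E3 => ENNReal.ofReal (A * nB b.2 b.1 x ^ (4 / 3 : ℝ) *
        volume.real (ball b.2 b.1) ^ (-(1 / 3) : ℝ) * ‖ψ x‖ ^ 2) :=
      low_slice (fun (b : ℝ × E3) (x : Fin N → E3) => ENNReal.ofReal
        (A * nB b.2 b.1 x ^ (4 / 3 : ℝ) *
        volume.real (ball b.2 b.1) ^ (-(1 / 3) : ℝ) * ‖ψ x‖ ^ 2)) mF2 x
    have k3 : Measurable fun b : ℝ × E3 => ENNReal.ofReal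
        ((Ce + Cg) / b.1 * nB b.2 b.1 x * ‖ψ x‖ ^ 2) :=
      low_slice (fun (b : ℝ × E3) (x : Fin N → E3) => ENNReal.ofReal
        ((Ce + Cg) / b.1 * nB b.2 b.1 x * ‖ψ x‖ ^ 2)) mF3 x
    refine le_of_le_of_eq ?_ (low_lsum (bm ℓ) _ _ _
      (fun b : ℝ × E3 => ENNReal.ofReal (Cg * n₀ ^ 3 / ε * nB b.2 b.1 x * ‖ψ x‖ ^ 2))
      k1 k2 k3 (ENNReal.ofReal Cc))
    refine lintegral_mono_ae ?_
    filter_upwards [low_bm_ae ℓ] with b hb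
    have h1 := low_lowQ_le A Ce Cg Cc ε n₀ hA hCe hCg hCc hε (by linarith) b.2 b.1 hb.1 x
    have h0 : 0 ≤ ‖ψ x‖ ^ 2 := by positivity
    have hn := low_nB_nonneg b.2 b.1 x
    have hbq := low_badQ_nonneg n₀ b.2 b.1 hb.1.le x
    have hb0 : 0 < b.1 := hb.1
    rw [← ENNReal.ofReal_mul hCc, ← ENNReal.ofReal_add (by positivity) (by positivity),
      ← ENNReal.ofReal_add (by positivity) (by positivity),
      ← ENNReal.ofReal_add (by positivity) (by positivity)]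
    refine ENNReal.ofReal_le_ofReal ?_
    calc lowQ A Ce Cg Cc ε n₀ b.2 b.1 x * ‖ψ x‖ ^ 2
        ≤ (Cc * badQ n₀ b.2 b.1 x + A * nB b.2 b.1 x ^ (4 / 3 : ℝ) *
          volume.real (ball b.2 b.1) ^ (-(1 / 3) : ℝ)
          + (Ce + Cg) * (nB b.2 b.1 x / b.1) + Cg * n₀ ^ 3 / ε * nB b.2 b.1 x) *
            ‖ψ x‖ ^ 2 := mul_le_mul_of_nonneg_right h1 h0
      _ = _ := by ring
  refine (lintegral_mono hpt).trans ?_
  have m5 : Measurable fun x : Fin N → E3 => ∫⁻ b : ℝ × E3, ENNReal.ofReal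
        (badQ n₀ b.2 b.1 x * ‖ψ x‖ ^ 2) ∂bm ℓ :=
    low_lint_meas (bm ℓ) (fun (b : ℝ × E3) (x : Fin N → E3) => ENNReal.ofReal
        (badQ n₀ b.2 b.1 x * ‖ψ x‖ ^ 2)) mF1
  have m6 : Measurable fun x : Fin N → E3 => ∫⁻ b : ℝ × E3,
      ENNReal.ofReal (A * nB b.2 b.1 x ^ (4 / 3 : ℝ) *
        volume.real (ball b.2 b.1) ^ (-(1 / 3) : ℝ) * ‖ψ x‖ ^ 2) ∂bm ℓ :=
    low_lint_meas (bm ℓ) (fun (b : ℝ × E3) (x : Fin N → E3) => ENNReal.ofReal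
        (A * nB b.2 b.1 x ^ (4 / 3 : ℝ) *
        volume.real (ball b.2 b.1) ^ (-(1 / 3) : ℝ) * ‖ψ x‖ ^ 2)) mF2
  have m7 : Measurable fun x : Fin N → E3 => ∫⁻ b : ℝ × E3, ENNReal.ofReal
      ((Ce + Cg) / b.1 * nB b.2 b.1 x * ‖ψ x‖ ^ 2) ∂bm ℓ :=
    low_lint_meas (bm ℓ) (fun (b : ℝ × E3) (x : Fin N → E3) => ENNReal.ofReal
        ((Ce + Cg) / b.1 * nB b.2 b.1 x * ‖ψ x‖ ^ 2)) mF3
  refine (low_lsum volume _ _ _ (fun x : Fin N → E3 => ∫⁻ b : ℝ × E3,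
    ENNReal.ofReal (Cg * n₀ ^ 3 / ε * nB b.2 b.1 x * ‖ψ x‖ ^ 2) ∂bm ℓ)
    m5 m6 m7 (ENNReal.ofReal Cc)).trans_le ?_
  rw [ENNReal.ofReal_add (by positivity) (by positivity),
    ENNReal.ofReal_add (by positivity) (by positivity),
    ENNReal.ofReal_add (by positivity) (by positivity), ENNReal.ofReal_mul hCc]
  gcongr

theorem low_slice' {X Y Z : Type} [MeasurableSpace X] [MeasurableSpace Y] [MeasurableSpace Z]
    (F : X → Y → Z) (h : Measurable fun p : X × Y => F p.1 p.2) (x : X) :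
    Measurable fun y => F x y :=
  h.comp (measurable_const.prodMk measurable_id)

theorem low_lowQ_meas' {N : ℕ} (A Ce Cg Cc ε n₀ : ℝ) (w : E3) (r : ℝ) :
    Measurable fun x : Fin N → E3 => lowQ A Ce Cg Cc ε n₀ w r x :=
  low_slice' (fun (b : ℝ × E3) (x : Fin N → E3) => lowQ A Ce Cg Cc ε n₀ b.2 b.1 x)
    (low_lowQ_meas A Ce Cg Cc ε n₀) (r, w)

/-- choice of the small parameter -/
theorem low_param (Cs G δ : ℝ) (hδ : 0 < δ) : ∃ t : ℝ, 0 < t ∧ t ≤ 1 / 4 ∧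
    (Cs + t) ^ 2 * G / (4 * (1 - 2 * t)) ≤ Cs ^ 2 * G / 4 + δ := by
  have hc : ContinuousAt (fun t : ℝ => (Cs + t) ^ 2 * G / (4 * (1 - 2 * t))) 0 := by
    refine ContinuousAt.div (by fun_prop) (by fun_prop) (by norm_num)
  have h1 : (fun t : ℝ => (Cs + t) ^ 2 * G / (4 * (1 - 2 * t))) 0 < Cs ^ 2 * G / 4 + δ := by
    simp only [add_zero, mul_zero, sub_zero, mul_one]
    linarith
  have h2 := hc.eventually_lt continuousAt_const h1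
  have h3 : ∀ᶠ t in nhdsWithin (0 : ℝ) (Set.Ioi 0), (Cs + t) ^ 2 * G / (4 * (1 - 2 * t)) <
      Cs ^ 2 * G / 4 + δ := h2.filter_mono nhdsWithin_le_nhds
  have h4 : ∀ᶠ t in nhdsWithin (0 : ℝ) (Set.Ioi 0), t ≤ 1 / 4 := by
    have : ∀ᶠ t in nhds (0 : ℝ), t ≤ 1 / 4 :=
      (gt_mem_nhds (by norm_num : (0 : ℝ) < 1 / 4)).mono fun t ht => le_of_lt ht
    exact this.filter_mono nhdsWithin_le_nhds
  have h5 : ∀ᶠ t in nhdsWithin (0 : ℝ) (Set.Ioi 0), 0 < t := self_mem_nhdsWithin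
  obtain ⟨t, ht1, ht2, ht3⟩ := (h3.and (h4.and h5)).exists
  exact ⟨t, ht3, ht2, ht1.le⟩

theorem low_small (κ : ℝ) (hκ : 0 < κ) : ∃ N₀ : ℕ, 1 ≤ N₀ ∧ ∀ N : ℕ, N₀ ≤ N →
    (N : ℝ) ^ (-(1 / 300) : ℝ) ≤ κ := by
  have h := (tendsto_rpow_neg_atTop (y := 1 / 300) (by norm_num)).comp
    tendsto_natCast_atTop_atTop
  have h2 := h.eventually (gt_mem_nhds hκ)
  obtain ⟨N₀, hN₀⟩ := Filter.eventually_atTop.mp h2
  refine ⟨max N₀ 1, le_max_right _ _, fun N hN => ?_⟩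
  exact (hN₀ N (le_trans (le_max_left _ _) hN)).le

theorem low_fin_num (z t δ G k Y X W CM P QL Cp Ceg D₂ CcCb D : ℝ)
    (q1 : CM ≤ CcCb * X + t * k) (q2 : QL ≤ 2 * Cp * X)
    (q3 : P ≤ (1 - 2 * t) * k + (G + δ / 2) * Y)
    (q7 : D * X + D₂ * W ≤ δ / 2 * Y)
    (hD : D = CcCb + 2 * Cp + 2 * Ceg + 3 / 4 * (2 * z + 1)) :
    CM + (P + QL) + 2 * Ceg * X + D₂ * W + 3 / 4 * (2 * z + 1) * X ≤
      (1 - t) * k + (G + δ) * Y := by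
  rw [hD] at q7
  linarith

theorem low_q3 (t δ Cs G A k Y P : ℝ) (ht1 : t ≤ 1 / 4) (ht0 : 0 < t) (hδ : 0 < δ) (hY : 0 ≤ Y)
    (hP : P = (1 - 2 * t) * k + (1 - 2 * t) * ((A ^ 2 * G / 4 + δ / 4) * Y))
    (hA : A = (Cs + t) / (1 - 2 * t))
    (ht2 : (Cs + t) ^ 2 * G / (4 * (1 - 2 * t)) ≤ Cs ^ 2 * G / 4 + δ / 4) :
    P ≤ (1 - 2 * t) * k + (Cs ^ 2 * G / 4 + δ / 2) * Y := by
  have h12 : 0 < 1 - 2 * t := by linarith
  have a1 : (1 - 2 * t) * (A ^ 2 * G / 4) = (Cs + t) ^ 2 * G / (4 * (1 - 2 * t)) := by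
    rw [hA]; field_simp
  have a2 : (1 - 2 * t) * (δ / 4) ≤ δ / 4 :=
    mul_le_of_le_one_left (by positivity) (by linarith)
  have a3 : (1 - 2 * t) * ((A ^ 2 * G / 4 + δ / 4) * Y) =
      ((1 - 2 * t) * (A ^ 2 * G / 4) + (1 - 2 * t) * (δ / 4)) * Y := by ring
  rw [hP, a3, a1]
  have a4 : ((Cs + t) ^ 2 * G / (4 * (1 - 2 * t)) + (1 - 2 * t) * (δ / 4)) * Y ≤
      (Cs ^ 2 * G / 4 + δ / 2) * Y :=
    mul_le_mul_of_nonneg_right (by linarith) hY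
  linarith

theorem lower_main (z δ : ℝ) (hz : 0 < z) (hδ : 0 < δ) : ∃ N₀ : ℕ, ∀ K N : ℕ, N₀ ≤ N →
    ∀ (R : Fin K → E3) (ψ : (Fin N → E3) → ℂ), Function.Injective R → IsState ψ →
      -((z ^ (2 / 3 : ℝ) * cstar) ^ 2 * Gam / 4 + δ) * (N : ℝ) ^ (5 / 3 : ℝ) ≤
        form z R ψ := by
  set Cs : ℝ := z ^ (2 / 3 : ℝ) * cstar with hCs
  have hcc : (0 : ℝ) ≤ cstar := cstar_nonneg
  have hCs0 : 0 ≤ Cs := by positivity
  have hG0 := low_gam_nonneg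
  obtain ⟨t, ht0, ht1, ht2⟩ := low_param Cs Gam (δ / 4) (by positivity)
  obtain ⟨Ce, Cg, Cc, c₀, hCe, hCg, hCc, hc₀, hlocal⟩ := low_local z t hz ht0
  obtain ⟨Cb, hCb, hbad⟩ := bad_bound
  have h12 : 0 < 1 - 2 * t := by linarith
  set A : ℝ := (Cs + t) / (1 - 2 * t) with hA
  have hA0 : 0 ≤ A := by positivity
  obtain ⟨Cp, hCp, hsamp⟩ := sampling A (δ / 4) hA0 (by positivity)
  -- the constants
  set D : ℝ := Cc * Cb + 2 * Cp + 2 * (Ce + Cg) + 3 / 4 * (2 * z + 1) with hD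
  have hD0 : 0 < D := by positivity
  set D₂ : ℝ := Cg / t with hD₂
  have hD₂0 : 0 < D₂ := by positivity
  set κ : ℝ := min (c₀ * t) (min (t / (2 * (Cc * Cb))) (δ / (2 * (D + D₂)))) with hκ
  have hκ0 : 0 < κ := by
    refine lt_min (by positivity) (lt_min (by positivity) (by positivity))
  obtain ⟨N₀, hN₀1, hN₀⟩ := low_small κ hκ0
  refine ⟨N₀, fun K N hN R ψ hR hψ => ?_⟩
  have hN1 : (1 : ℝ) ≤ N := by
    have : 1 ≤ N := le_trans hN₀1 hN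
    exact_mod_cast this
  have hN0 : (0 : ℝ) < N := by linarith
  obtain ⟨p1, p2, p3, p4, p5, p6, p7⟩ := low_pows (N : ℝ) hN1
  have hT := hN₀ N hN
  set T : ℝ := (N : ℝ) ^ (-(1 / 300) : ℝ) with hTdef
  have hT0 : 0 < T := by positivity
  set ℓ : ℝ := (N : ℝ) ^ (-(97 / 150) : ℝ) with hℓ
  have hℓ0 : 0 < ℓ := by positivity
  set n₀ : ℝ := (N : ℝ) ^ (7 / 50 : ℝ) with hn₀
  set Y : ℝ := (N : ℝ) ^ (5 / 3 : ℝ) with hY
  have hY0 : 0 < Y := by positivity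
  set k : ℝ := kin ψ with hk
  have hk0 : 0 ≤ k := low_kin_nonneg ψ
  have hTc : T ≤ c₀ * t := hT.trans (min_le_left _ _)
  have hTb : T ≤ t / (2 * (Cc * Cb)) := hT.trans ((min_le_right _ _).trans (min_le_left _ _))
  have hTd : T ≤ δ / (2 * (D + D₂)) := hT.trans ((min_le_right _ _).trans (min_le_right _ _))
  -- local estimates
  have hn₀' : 0 < n₀ := by linarith
  have hloc : ∀ w r, 0 < r → r ≤ ℓ →
      0 ≤ t * (∫ x, ∑ i, inB w r (x i) * gradSq ψ i x) +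
      (∫ x, (coulB z x R w r + lowQ (Cs + t) Ce Cg Cc t n₀ w r x) * ‖ψ x‖ ^ 2) := by
    intro w r hr hrl
    refine loc z t R w r hr ht0.le ψ (hψ.smooth.of_le (by exact_mod_cast le_top)) hψ.compact
      (fun x => lowQ (Cs + t) Ce Cg Cc t n₀ w r x) ?_
      (low_lowQ_bdd (Cs + t) Ce Cg Cc t n₀ (by positivity) hCe.le hCg.le hCc.le ht0 hn₀'.le
        w r hr) ?_
    · exact low_lowQ_meas' (Cs + t) Ce Cg Cc t n₀ w r
    · intro S x' u hx' hu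
      refine hlocal N K R w r t n₀ hr ht0 (by linarith) p7 ?_ ?_ hR S x' u hx' hu
      · calc r * n₀ ^ 2 ≤ ℓ * n₀ ^ 2 := by gcongr
          _ ≤ T := p1
          _ ≤ c₀ * t := hTc
      · calc Real.sqrt N * r ≤ Real.sqrt N * ℓ := by gcongr
          _ ≤ T := p2
          _ ≤ c₀ * t := hTc
  -- the errors
  set Mb : ℝ := Cb * (n₀ ^ (-(1 / 6) : ℝ) * (N / ℓ + (N : ℝ) ^ (2 / 3 : ℝ) * ℓ * k)
        + Real.sqrt N * ℓ * k) with hMb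
  have hMb0 : 0 ≤ Mb := by positivity
  set P : ℝ := (1 - 2 * t) * k + (1 - 2 * t) * ((A ^ 2 * Gam / 4 + δ / 4) * Y) with hP
  have hP0 : 0 ≤ P := by positivity
  set Q : ℝ := (1 - 2 * t) * (Cp * N) with hQ
  have hQ0 : 0 ≤ Q := by positivity
  have hB : ∀ r, 0 < r → r ≤ ℓ → (Cs + t) * (∫ x, lowF r x * ‖ψ x‖ ^ 2) ≤ P + Q / r := by
    intro r hr _
    have hs := hsamp N ψ r hψ hr
    have e1 : Cs + t = (1 - 2 * t) * A := by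
      rw [hA, mul_comm]
      exact (div_mul_cancel₀ _ h12.ne').symm
    have e2 : A * (∫ x, lowF r x * ‖ψ x‖ ^ 2) ≤
        k + (A ^ 2 * Gam / 4 + δ / 4) * Y + Cp * N / r := by
      have : (∫ x, (∫ w, (nB w r x / volume.real (ball (0 : E3) r)) ^ (4 / 3 : ℝ)) *
        ‖ψ x‖ ^ 2) = ∫ x, lowF r x * ‖ψ x‖ ^ 2 := rfl
      rw [this] at hs
      linarith
    rw [e1, mul_assoc]
    calc (1 - 2 * t) * (A * ∫ x, lowF r x * ‖ψ x‖ ^ 2) ≤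
        (1 - 2 * t) * (k + (A ^ 2 * Gam / 4 + δ / 4) * Y + Cp * N / r) := by gcongr
      _ = P + Q / r := by rw [hP, hQ]; ring
  have herr := low_err ψ hψ (Cs + t) Ce Cg Cc t n₀ ℓ Mb P Q (by positivity) hCe.le hCg.le
    hCc.le ht0 p7 hℓ0 hMb0 hP0 hQ0 (hbad N ψ ℓ n₀ hψ hℓ0 p7) hB
  set M : ℝ := Cc * Mb + (P + 2 * Q / ℓ) + (Ce + Cg) * (2 / ℓ) * N +
      Cg * n₀ ^ 3 / t * N with hM
  have hM0 : 0 ≤ M := by positivity
  have hG := low_G_ge z t ℓ hℓ0 R ψ hψ (fun w r x => lowQ (Cs + t) Ce Cg Cc t n₀ w r x)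
    (low_lowQ_meas (Cs + t) Ce Cg Cc t n₀)
    (fun w r x hr => low_lowQ_nonneg (Cs + t) Ce Cg Cc t n₀ (by positivity) hCe.le hCg.le
      hCc.le ht0.le w r hr.le x)
    (fun w r hr => low_lowQ_bdd (Cs + t) Ce Cg Cc t n₀ (by positivity) hCe.le hCg.le hCc.le
      ht0 hn₀'.le w r hr) hloc M hM0 herr
  rw [(lowG_int z t ℓ hℓ0 R ψ hψ).2] at hG
  have hgs := low_gs z ℓ hz.le hℓ0 R hR ψ hψ
  have hform : (1 - t) * k - M - 3 / 4 * (2 * z + 1) * N / ℓ ≤ form z R ψ := by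
    unfold form
    rw [← hk]
    rw [← hk] at hG
    linarith
  -- numerics
  have q1 : Cc * Mb ≤ Cc * Cb * (N / ℓ) + t * k := by
    have a1 : n₀ ^ (-(1 / 6) : ℝ) * (N / ℓ) ≤ N / ℓ :=
      mul_le_of_le_one_left (by positivity) p6
    have a2 : n₀ ^ (-(1 / 6) : ℝ) * ((N : ℝ) ^ (2 / 3 : ℝ) * ℓ * k) ≤ T * k := by
      rw [← mul_assoc]
      exact mul_le_mul_of_nonneg_right p3 hk0
    have a3 : Real.sqrt N * ℓ * k ≤ T * k := mul_le_mul_of_nonneg_right p2 hk0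
    have a4 : Mb ≤ Cb * (N / ℓ + 2 * T * k) := by
      rw [hMb, mul_add (n₀ ^ (-(1 / 6) : ℝ))]
      refine mul_le_mul_of_nonneg_left ?_ hCb.le
      linarith
    have a5 : Cc * Cb * (2 * T) ≤ t := by
      have : T * (2 * (Cc * Cb)) ≤ t := by
        rwa [le_div_iff₀ (by positivity)] at hTb
      linarith
    calc Cc * Mb ≤ Cc * (Cb * (N / ℓ + 2 * T * k)) := by gcongr
      _ = Cc * Cb * (N / ℓ) + Cc * Cb * (2 * T) * k := by ring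
      _ ≤ Cc * Cb * (N / ℓ) + t * k := by gcongr
  have q2 : 2 * Q / ℓ ≤ 2 * Cp * (N / ℓ) := by
    rw [hQ]
    have : (1 - 2 * t) * (Cp * N) ≤ Cp * N :=
      mul_le_of_le_one_left (by positivity) (by linarith)
    calc 2 * ((1 - 2 * t) * (Cp * N)) / ℓ ≤ 2 * (Cp * N) / ℓ := by gcongr
      _ = 2 * Cp * (N / ℓ) := by ring
  have q3 : P ≤ (1 - 2 * t) * k + (Cs ^ 2 * Gam / 4 + δ / 2) * Y :=
    low_q3 t δ Cs Gam A k Y P ht1 ht0 hδ hY0.le hP hA ht2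
  have q4 : (Ce + Cg) * (2 / ℓ) * N = 2 * (Ce + Cg) * (N / ℓ) := by ring
  have q5 : Cg * n₀ ^ 3 / t * N = D₂ * (n₀ ^ 3 * N) := by rw [hD₂]; ring
  have q6 : 3 / 4 * (2 * z + 1) * N / ℓ = 3 / 4 * (2 * z + 1) * (N / ℓ) := by ring
  have q7 : D * (N / ℓ) + D₂ * (n₀ ^ 3 * N) ≤ δ / 2 * Y := by
    have a1 : D * (N / ℓ) ≤ D * (T * Y) := by gcongr
    have a2 : D₂ * (n₀ ^ 3 * N) ≤ D₂ * (T * Y) := by gcongr
    have a3 : (D + D₂) * T ≤ δ / 2 := by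
      have : T * (2 * (D + D₂)) ≤ δ := by
        rwa [le_div_iff₀ (by positivity)] at hTd
      linarith
    calc D * (N / ℓ) + D₂ * (n₀ ^ 3 * N) ≤ (D + D₂) * T * Y := by linarith
      _ ≤ δ / 2 * Y := by gcongr
  have hMle : M + 3 / 4 * (2 * z + 1) * N / ℓ ≤
      (1 - t) * k + (Cs ^ 2 * Gam / 4 + δ) * Y := by
    rw [hM, q4, q5, q6]
    exact low_fin_num z t δ (Cs ^ 2 * Gam / 4) k Y (N / ℓ) (n₀ ^ 3 * N) (Cc * Mb) P
      (2 * Q / ℓ) Cp (Ce + Cg) D₂ (Cc * Cb) D q1 q2 q3 q7 hD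
  have hfin : -(Cs ^ 2 * Gam / 4 + δ) * Y = -((Cs ^ 2 * Gam / 4 + δ) * Y) := by ring
  rw [hfin]
  linarith

end Pool.Agent.H5R2.NL
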