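import Pool.Agent.H5R2.NL.Defs
import Pool.Agent.H5R2.NL.Law2
import Pool.Agent.H5R2.NL.Ext

/-! JU: upper bound for the classical energy in a profile (helper478) -/

set_option autoImplicit false

noncomputable section

namespace Pool.Agent.H5R2.NL

open MeasureTheory Metric
open scoped ENNReal

/-! ### Riemann sums -/

def ju_cube (c : E3) (b : ℝ) : Set E3 := {x : E3 | ∀ i, c i ≤ x i ∧ x i < c i + b}

lemma ju_cube_eq (c : E3) (b : ℝ) : ju_cube c b =
    (@WithLp.ofLp 2 (Fin 3 → ℝ)) ⁻¹' (Set.pi Set.univ fun i => Set.Ico (c i) (c i + b)) := by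
  ext x
  simp [ju_cube, Set.mem_pi]

lemma ju_cube_meas (c : E3) (b : ℝ) : MeasurableSet (ju_cube c b) := by
  rw [ju_cube_eq]
  exact (PiLp.volume_preserving_ofLp (Fin 3)).measurable
    (MeasurableSet.univ_pi fun i => measurableSet_Ico)

lemma ju_cube_vol (c : E3) {b : ℝ} (hb : 0 ≤ b) : volume (ju_cube c b) = ENNReal.ofReal (b ^ 3) := by
  rw [ju_cube_eq, (PiLp.volume_preserving_ofLp (Fin 3)).measure_preimage
    (MeasurableSet.univ_pi fun i => measurableSet_Ico).nullMeasurableSet, Real.volume_pi_Ico]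
  simp [← ENNReal.ofReal_pow hb]

lemma ju_cubeI_eq (c : E3) (b ν : ℝ) : cubeI c b ν = Set.indicator (ju_cube c b) fun _ => ν := rfl

lemma ju_int_cubeI (c : E3) {b : ℝ} (hb : 0 ≤ b) (ν : ℝ) : ∫ x, cubeI c b ν x = ν * b ^ 3 := by
  rw [ju_cubeI_eq, integral_indicator_const _ (ju_cube_meas c b), Measure.real, ju_cube_vol c hb,
    ENNReal.toReal_ofReal (by positivity), smul_eq_mul, mul_comm]

lemma ju_integrable_cubeI (c : E3) {b : ℝ} (hb : 0 ≤ b) (ν : ℝ) : Integrable (cubeI c b ν) := by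
  rw [ju_cubeI_eq]
  have h1 : volume (ju_cube c b) ≠ ⊤ := by
    rw [ju_cube_vol c hb]; exact ENNReal.ofReal_ne_top
  have h2 : ‖ν‖ₑ ≠ ⊤ := by simp
  exact (integrable_indicator_iff (ju_cube_meas c b)).mpr (integrableOn_const h1 h2)

/-- corners of the grid -/
def ju_cor (b : ℝ) (m : Fin 3 → ℤ) : E3 := WithLp.toLp 2 fun i => b * (m i : ℝ)

lemma ju_cor_apply (b : ℝ) (m : Fin 3 → ℤ) (i : Fin 3) : ju_cor b m i = b * (m i : ℝ) := rfl

/-- the grid cube of `x` -/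
def ju_gx (b : ℝ) (x : E3) : Fin 3 → ℤ := fun i => ⌊x i / b⌋

lemma ju_mem {b : ℝ} (hb : 0 < b) (m : Fin 3 → ℤ) (x : E3) :
    x ∈ ju_cube (ju_cor b m) b ↔ m = ju_gx b x := by
  simp only [ju_cube, Set.mem_ofPred_eq, ju_cor_apply]
  constructor
  · intro h
    funext i
    symm
    change ⌊x i / b⌋ = m i
    rw [Int.floor_eq_iff, le_div_iff₀ hb, div_lt_iff₀ hb]
    have := h i
    constructor <;> nlinarith
  · intro h i
    have h1 := congrFun h i
    have h2 : ⌊x i / b⌋ = m i := h1.symm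
    rw [Int.floor_eq_iff, le_div_iff₀ hb, div_lt_iff₀ hb] at h2
    constructor <;> nlinarith

lemma ju_sum {b : ℝ} (hb : 0 < b) (T : Finset (Fin 3 → ℤ)) (γ : (Fin 3 → ℤ) → ℝ) (x : E3) :
    ∑ m ∈ T, cubeI (ju_cor b m) b (γ m) x = if ju_gx b x ∈ T then γ (ju_gx b x) else 0 := by
  classical
  have h : ∀ m ∈ T, cubeI (ju_cor b m) b (γ m) x = if ju_gx b x = m then γ m else 0 := by
    intro m _
    rw [ju_cubeI_eq, Set.indicator_apply]
    simp only [ju_mem hb, eq_comm]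
  rw [Finset.sum_congr rfl h, Finset.sum_ite_eq]

lemma ju_dist {b : ℝ} (hb : 0 < b) (x : E3) : ‖x - ju_cor b (ju_gx b x)‖ ≤ 2 * b := by
  have hx := (ju_mem hb (ju_gx b x) x).mpr rfl
  simp only [ju_cube, Set.mem_ofPred_eq] at hx
  rw [EuclideanSpace.norm_eq]
  apply Real.sqrt_le_iff.mpr
  refine ⟨by positivity, ?_⟩
  rw [Fin.sum_univ_three]
  have h : ∀ i, ‖(x - ju_cor b (ju_gx b x)) i‖ ^ 2 ≤ b ^ 2 := by
    intro i
    rw [Real.norm_eq_abs, sq_abs]
    have h1 := hx i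
    have h2 : (x - ju_cor b (ju_gx b x)) i = x i - ju_cor b (ju_gx b x) i := rfl
    rw [h2]
    apply pow_le_pow_left₀ <;> linarith
  nlinarith [h 0, h 1, h 2]

lemma ju_card_box (R : ℕ) :
    ((Fintype.piFinset (fun _ : Fin 3 => Finset.Icc (-(R:ℤ)) R)).card : ℝ) = (2 * R + 1) ^ 3 := by
  rw [Fintype.card_piFinset]
  simp only [Int.card_Icc, Finset.prod_const, Finset.card_univ, Fintype.card_fin]
  have : ((R:ℤ) + 1 - -(R:ℤ)).toNat = 2 * R + 1 := by omega
  rw [this]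
  push_cast
  ring

theorem ju_riemann (g : E3 → ℝ) (hg : Continuous g) (hc : HasCompactSupport g)
    (h0 : ∀ x, 0 ≤ g x) (h1 : ∫ x, g x = 1) :
    ∃ Cn M : ℝ, 0 < Cn ∧ 0 < M ∧ ∀ ε : ℝ, 0 < ε → ∃ s0 b1 : ℝ, 0 < s0 ∧ 0 < b1 ∧
      ∀ b : ℝ, 0 < b → b ≤ b1 → ∃ (T : Finset (Fin 3 → ℤ)) (γ : (Fin 3 → ℤ) → ℝ),
        (∀ m ∈ T, s0 ≤ γ m ∧ γ m ≤ M) ∧ (∀ x, ∑ m ∈ T, cubeI (ju_cor b m) b (γ m) x ≤ g x) ∧
        (∫ x, g x ^ (4 / 3 : ℝ)) - ε ≤ ∑ m ∈ T, γ m ^ (4 / 3 : ℝ) * b ^ 3 ∧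
        (T.card : ℝ) * b ^ 3 ≤ Cn := by
  classical
  -- the bound of g
  obtain ⟨M, hM⟩ : ∃ M : ℝ, ∀ x, g x ≤ M := by
    obtain ⟨C, hC⟩ := hc.exists_bound_of_continuous hg
    exact ⟨C, fun x => (le_abs_self _).trans (hC x)⟩
  have hMpos : 0 ≤ M := (h0 0).trans (hM 0)
  -- the support
  obtain ⟨ρ, hρ0, hρ⟩ : ∃ ρ : ℝ, 0 ≤ ρ ∧ ∀ x, g x ≠ 0 → ‖x‖ ≤ ρ := by
    obtain ⟨ρ, hρ⟩ := hc.isCompact.isBounded.subset_closedBall (0 : E3)
    refine ⟨max ρ 0, le_max_right _ _, fun x hx => ?_⟩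
    have h3 : x ∈ closedBall (0 : E3) ρ := hρ (subset_tsupport g hx)
    rw [mem_closedBall_zero_iff] at h3
    exact h3.trans (le_max_left _ _)
  have hgi : Integrable g := hg.integrable_of_hasCompactSupport hc
  refine ⟨(2 * ρ + 3) ^ 3, M + 1, by positivity, by positivity, ?_⟩
  intro ε hε
  obtain ⟨Cn, hCn⟩ : ∃ Cn : ℝ, Cn = (2 * ρ + 3) ^ 3 := ⟨_, rfl⟩
  have hCn0 : 0 < Cn := by rw [hCn]; positivity
  rw [← hCn]
  obtain ⟨σ, hσ⟩ : ∃ σ : ℝ, σ = (ε / 2) ^ 3 := ⟨_, rfl⟩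
  have hσ0 : 0 < σ := by rw [hσ]; positivity
  have hσ3 : σ ^ (1 / 3 : ℝ) = ε / 2 := by
    rw [hσ, ← Real.rpow_natCast, ← Real.rpow_mul (by positivity)]
    norm_num
  -- uniform continuity of the power
  obtain ⟨δ0, hδ0, hδ⟩ : ∃ δ0 : ℝ, 0 < δ0 ∧ ∀ x ∈ Set.Icc (0:ℝ) (M + 2), ∀ y ∈ Set.Icc (0:ℝ) (M + 2),
      dist x y < δ0 → dist (x ^ (4 / 3 : ℝ)) (y ^ (4 / 3 : ℝ)) < ε / (2 * Cn) := by
    have h2 : ContinuousOn (fun t : ℝ => t ^ (4 / 3 : ℝ)) (Set.Icc (0:ℝ) (M + 2)) :=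
      (Real.continuous_rpow_const (by norm_num)).continuousOn
    have h3 := isCompact_Icc.uniformContinuousOn_of_continuous h2
    exact Metric.uniformContinuousOn_iff.mp h3 _ (by positivity)
  obtain ⟨δ, hδd⟩ : ∃ δ : ℝ, δ = min (σ / 4) (min (δ0 / 4) (1 / 2)) := ⟨_, rfl⟩
  have hδpos : 0 < δ := by rw [hδd]; positivity
  have hδ1 : δ ≤ σ / 4 := by rw [hδd]; exact min_le_left _ _
  have hδ2 : δ ≤ δ0 / 4 := by rw [hδd]; exact (min_le_right _ _).trans (min_le_left _ _)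
  have hδ3 : δ ≤ 1 / 2 := by rw [hδd]; exact (min_le_right _ _).trans (min_le_right _ _)
  obtain ⟨r, hr0, hr⟩ := Metric.uniformContinuous_iff.mp
    (hc.uniformContinuous_of_continuous hg) δ hδpos
  refine ⟨σ / 2, min 1 (r / 3), by positivity, by positivity, ?_⟩
  intro b hb hb1
  have hbr : 2 * b < r := by
    have := hb1.trans (min_le_right _ _); linarith
  have hb11 : b ≤ 1 := hb1.trans (min_le_left _ _)
  have hmod : ∀ x, |g x - g (ju_cor b (ju_gx b x))| < δ := by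
    intro x
    have h2 := ju_dist hb x
    have h3 : dist x (ju_cor b (ju_gx b x)) < r := by
      rw [dist_eq_norm]; linarith
    have := hr h3
    rwa [Real.dist_eq] at this
  obtain ⟨R, hR⟩ : ∃ R : ℕ, R = ⌈ρ / b⌉₊ := ⟨_, rfl⟩
  have hR1 : (R : ℝ) ≤ ρ / b + 1 := by
    rw [hR]; exact (Nat.ceil_lt_add_one (by positivity)).le
  have hR2 : ρ / b ≤ R := by rw [hR]; exact Nat.le_ceil _
  set T : Finset (Fin 3 → ℤ) := (Fintype.piFinset (fun _ : Fin 3 => Finset.Icc (-(R:ℤ)) R)).filter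
    (fun m => σ / 2 + δ ≤ g (ju_cor b m)) with hT
  have hTmem : ∀ m, m ∈ T ↔ σ / 2 + δ ≤ g (ju_cor b m) := by
    intro m
    rw [hT, Finset.mem_filter]
    refine ⟨fun h => h.2, fun h => ⟨?_, h⟩⟩
    rw [Fintype.mem_piFinset]
    intro i
    have h2 : g (ju_cor b m) ≠ 0 := by
      have : 0 < g (ju_cor b m) := by linarith
      exact this.ne'
    have h3 := hρ _ h2
    have h4 : |ju_cor b m i| ≤ ρ := by
      have := PiLp.norm_apply_le (ju_cor b m) i
      rw [Real.norm_eq_abs] at this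
      exact this.trans h3
    rw [ju_cor_apply, abs_mul, abs_of_pos hb] at h4
    have h5 : |((m i : ℤ) : ℝ)| ≤ R := by
      refine le_trans ?_ hR2
      rw [le_div_iff₀ hb]; linarith
    rw [← Int.cast_abs] at h5
    have h6 : |m i| ≤ (R : ℤ) := by exact_mod_cast h5
    rw [Finset.mem_Icc]
    exact abs_le.mp h6
  have hcard : (T.card : ℝ) * b ^ 3 ≤ Cn := by
    have h2 : (T.card : ℝ) ≤ (2 * R + 1) ^ 3 := by
      rw [← ju_card_box R, hT]
      exact_mod_cast Finset.card_filter_le _ _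
    have h3 : (T.card : ℝ) * b ^ 3 ≤ ((2 * R + 1) * b) ^ 3 := by
      rw [mul_pow]
      exact mul_le_mul_of_nonneg_right h2 (by positivity)
    refine h3.trans ?_
    rw [hCn]
    apply pow_le_pow_left₀ (by positivity)
    have h4 : (R : ℝ) * b ≤ ρ + b := by
      calc (R : ℝ) * b ≤ (ρ / b + 1) * b := mul_le_mul_of_nonneg_right hR1 hb.le
        _ = ρ + b := by field_simp
    nlinarith
  refine ⟨T, fun m => g (ju_cor b m) - δ, ?_, ?_, ?_, ?_⟩
  · intro m hm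
    rw [hTmem] at hm
    have := hM (ju_cor b m)
    constructor <;> linarith
  · intro x
    rw [ju_sum hb T (fun m => g (ju_cor b m) - δ) x]
    split_ifs with h
    · have := (abs_lt.mp (hmod x)).1
      linarith
    · exact h0 x
  · -- the Riemann sum
    have hpt : ∀ x, g x ^ (4 / 3 : ℝ) ≤
        ∑ m ∈ T, cubeI (ju_cor b m) b ((g (ju_cor b m) - δ) ^ (4 / 3 : ℝ) + ε / (2 * Cn)) x +
          (ε / 2) * g x := by
      intro x
      rw [ju_sum hb T (fun m => (g (ju_cor b m) - δ) ^ (4 / 3 : ℝ) + ε / (2 * Cn)) x]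
      have hm := abs_lt.mp (hmod x)
      have hgx := h0 x
      split_ifs with h
      · rw [hTmem] at h
        have e1 : g x ∈ Set.Icc (0:ℝ) (M + 2) := ⟨h0 x, by linarith [hM x]⟩
        have e2 : g (ju_cor b (ju_gx b x)) - δ ∈ Set.Icc (0:ℝ) (M + 2) :=
          ⟨by linarith, by linarith [hM (ju_cor b (ju_gx b x))]⟩
        have e3 : dist (g x) (g (ju_cor b (ju_gx b x)) - δ) < δ0 := by
          rw [Real.dist_eq, abs_lt]
          constructor <;> linarith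
        have e4 := hδ _ e1 _ e2 e3
        rw [Real.dist_eq] at e4
        have e5 := (abs_lt.mp e4).2
        have : 0 ≤ (ε / 2) * g x := by positivity
        linarith
      · rw [hTmem, not_le] at h
        have e1 : g x ≤ σ := by linarith
        have e2 : g x ^ (4 / 3 : ℝ) = g x ^ (1 / 3 : ℝ) * g x := by
          rcases eq_or_lt_of_le (h0 x) with h2 | h2
          · rw [← h2]; norm_num
          · rw [← Real.rpow_add_one h2.ne']; norm_num
        rw [e2, zero_add]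
        apply mul_le_mul_of_nonneg_right _ (h0 x)
        rw [← hσ3]
        exact Real.rpow_le_rpow (h0 x) e1 (by norm_num)
    have hint : Integrable (fun x => ∑ m ∈ T, cubeI (ju_cor b m) b
        ((g (ju_cor b m) - δ) ^ (4 / 3 : ℝ) + ε / (2 * Cn)) x) :=
      integrable_finsetSum _ (fun m _ => ju_integrable_cubeI _ hb.le _)
    have hI := integral_mono_of_nonneg
      (f := fun x => g x ^ (4 / 3 : ℝ))
      (Filter.Eventually.of_forall fun x => Real.rpow_nonneg (h0 x) _)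
      (hint.add (hgi.const_mul (ε / 2))) (Filter.Eventually.of_forall hpt)
    have hI2 : ∫ x, ((∑ m ∈ T, cubeI (ju_cor b m) b
        ((g (ju_cor b m) - δ) ^ (4 / 3 : ℝ) + ε / (2 * Cn)) x) + (ε / 2) * g x) =
        ∑ m ∈ T, ((g (ju_cor b m) - δ) ^ (4 / 3 : ℝ) + ε / (2 * Cn)) * b ^ 3 + ε / 2 := by
      rw [integral_add hint (hgi.const_mul (ε / 2)), integral_finsetSum _
        (fun m _ => ju_integrable_cubeI _ hb.le _), integral_const_mul, h1, mul_one]
      congr 1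
      exact Finset.sum_congr rfl (fun m _ => ju_int_cubeI _ hb.le _)
    have hI3 : (∫ x, g x ^ (4 / 3 : ℝ)) ≤
        ∑ m ∈ T, ((g (ju_cor b m) - δ) ^ (4 / 3 : ℝ) + ε / (2 * Cn)) * b ^ 3 + ε / 2 := by
      rw [← hI2]; exact hI
    have hsum : ∑ m ∈ T, ((g (ju_cor b m) - δ) ^ (4 / 3 : ℝ) + ε / (2 * Cn)) * b ^ 3 =
        ∑ m ∈ T, (g (ju_cor b m) - δ) ^ (4 / 3 : ℝ) * b ^ 3 + (ε / (2 * Cn)) * (T.card * b ^ 3) := by
      simp only [add_mul, Finset.sum_add_distrib, Finset.sum_const, nsmul_eq_mul]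
      ring
    rw [hsum] at hI3
    have : (ε / (2 * Cn)) * (T.card * b ^ 3) ≤ (ε / (2 * Cn)) * Cn :=
      mul_le_mul_of_nonneg_left hcard (by positivity)
    have e : (ε / (2 * Cn)) * Cn = ε / 2 := by field_simp
    linarith
  · exact hcard

/-! ### The upper bound -/

lemma ju_ev (c a t : ℝ) (ha : 0 < a) (ht : 0 < t) :
    ∀ᶠ x : ℝ in Filter.atTop, c * x ^ (-a) ≤ t := by
  have h := (tendsto_rpow_neg_atTop ha).const_mul c
  rw [mul_zero] at h
  exact (h.eventually_lt_const ht).mono (fun x hx => hx.le)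

lemma ju_law_mono {I : E3 → ℝ} {e e' v v' : ℝ} (h : HasLaw I e v) (he : e ≤ e') (hv : v ≤ v') :
    HasLaw I e' v' := by
  obtain ⟨l, h1, h2⟩ := h
  exact ⟨l, h1.trans he, h2.trans hv⟩

theorem jell_upper (g : E3 → ℝ) (hg : Continuous g) (hc : HasCompactSupport g)
    (h0 : ∀ x, 0 ≤ g x) (h1 : ∫ x, g x = 1) (η : ℝ) (hη : 0 < η) :
    ∃ K₀ : ℕ, ∀ K : ℕ, K₀ ≤ K → ∃ R : Fin K → E3, Function.Injective R ∧
      Jb K g R ≤ -(cstar * (∫ x, g x ^ (4 / 3 : ℝ)) - η) * (K : ℝ) ^ (4 / 3 : ℝ) := by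
  obtain ⟨Cn, M, hCn, hM, hRS⟩ := ju_riemann g hg hc h0 h1
  obtain ⟨G, hG⟩ : ∃ G : ℝ, G = ∫ x, g x ^ (4 / 3 : ℝ) := ⟨_, rfl⟩
  rw [← hG]
  have hG0 : 0 ≤ G := by
    rw [hG]; exact integral_nonneg fun x => Real.rpow_nonneg (h0 x) _
  have hcs : 0 ≤ cstar := cstar_nonneg
  obtain ⟨Sm, hSm⟩ : ∃ Sm : ℝ, Sm = M ^ (4 / 3 : ℝ) * Cn := ⟨_, rfl⟩
  have hSm0 : 0 ≤ Sm := by rw [hSm]; positivity
  obtain ⟨η1, hη1⟩ : ∃ η1 : ℝ, η1 = η / (8 * (Sm + G + 1)) := ⟨_, rfl⟩
  have hη10 : 0 < η1 := by rw [hη1]; positivity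
  have hη1b : η1 * (Sm + G + 1) = η / 8 := by rw [hη1]; field_simp
  obtain ⟨L, V, hL, hV, hA⟩ := assemble η1 hη10
  obtain ⟨C, hC, hE⟩ := extract g hg hc h0 h1
  obtain ⟨ε, hε⟩ : ∃ ε : ℝ, ε = η / (8 * (cstar + 1)) := ⟨_, rfl⟩
  have hε0 : 0 < ε := by rw [hε]; positivity
  have hεb : ε * (cstar + 1) = η / 8 := by rw [hε]; field_simp
  obtain ⟨s0, b1, hs0, hb1, hT⟩ := hRS ε hε0
  obtain ⟨B, hB⟩ : ∃ B : ℝ, B = L / (s0 / 2) ^ (1 / 3 : ℝ) := ⟨_, rfl⟩
  have hs3 : 0 < (s0 / 2) ^ (1 / 3 : ℝ) := Real.rpow_pos_of_pos (by linarith) _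
  have hB0 : 0 < B := by rw [hB]; positivity
  have hBL : B * (s0 / 2) ^ (1 / 3 : ℝ) = L := by rw [hB]; field_simp
  obtain ⟨C', hC'⟩ : ∃ C' : ℝ, C' = V * (1 + Cn / B ^ 3 + M * Cn) := ⟨_, rfl⟩
  have hVC : V ≤ C' := by
    rw [hC']
    have h2 : 0 ≤ V * (Cn / B ^ 3 + M * Cn) := by positivity
    have h3 : V * (1 + Cn / B ^ 3 + M * Cn) = V + V * (Cn / B ^ 3 + M * Cn) := by ring
    linarith
  have hC'0 : 0 < C' := by linarith
  -- eventual conditions
  have ev1 := ju_ev 1 (9 / 20) (1 / 2) (by norm_num) (by norm_num)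
  have ev2 := ju_ev B (1 / 3) b1 (by norm_num) hb1
  have ev3 := ju_ev (2 * C') (1 / 10) 1 (by norm_num) (by norm_num)
  have ev4 := ju_ev (C * (2 + C')) (1 / 10) (η / 4) (by norm_num) (by positivity)
  have ev5 := ju_ev (2 * cstar * Sm) (9 / 20) (η / 8) (by norm_num) (by positivity)
  have ev6 : ∀ᶠ x : ℝ in Filter.atTop, (1 : ℝ) ≤ x := Filter.eventually_ge_atTop _
  obtain ⟨Y, hY⟩ := Filter.eventually_atTop.mp
    (ev1.and (ev2.and (ev3.and (ev4.and (ev5.and ev6)))))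
  refine ⟨⌈Y⌉₊, ?_⟩
  intro K hK
  obtain ⟨x, hx⟩ : ∃ x : ℝ, x = (K : ℝ) := ⟨_, rfl⟩
  obtain ⟨g1, g2, g3, g4, g5, g6⟩ := hY x (by rw [hx]; exact Nat.ceil_le.mp hK)
  have hx0 : 0 < x := by linarith
  have hK1 : 1 ≤ K := by
    have : (1:ℝ) ≤ (K:ℝ) := by rw [← hx]; exact g6
    exact_mod_cast this
  obtain ⟨θ, hθ⟩ : ∃ θ : ℝ, θ = x ^ (-(9 / 20) : ℝ) := ⟨_, rfl⟩
  have hθ0 : 0 < θ := by rw [hθ]; exact Real.rpow_pos_of_pos hx0 _
  rw [one_mul, ← hθ] at g1
  rw [← hθ] at g5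
  have hx43 : 0 < x ^ (4 / 3 : ℝ) := Real.rpow_pos_of_pos hx0 _
  -- powers of x
  have p1 : θ ^ 2 * x ^ 2 = x ^ (11 / 10 : ℝ) := by
    rw [hθ, ← Real.rpow_natCast, ← Real.rpow_mul hx0.le, ← Real.rpow_natCast x 2,
      ← Real.rpow_add hx0]
    norm_num
  have p2 : x ^ (-(2 / 3) : ℝ) * (C' * x) / θ ^ 2 = C' * x ^ (37 / 30 : ℝ) := by
    have e1 : θ ^ 2 = x ^ (-(9 / 10) : ℝ) := by
      rw [hθ, ← Real.rpow_natCast, ← Real.rpow_mul hx0.le]
      norm_num
    have e2 : x ^ (-(2 / 3) : ℝ) * x = x ^ (1 / 3 : ℝ) := by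
      rw [← Real.rpow_add_one hx0.ne']; norm_num
    have e3 : x ^ (37 / 30 : ℝ) * x ^ (-(9 / 10) : ℝ) = x ^ (1 / 3 : ℝ) := by
      rw [← Real.rpow_add hx0]; norm_num
    have e4 : 0 < x ^ (-(9 / 10) : ℝ) := Real.rpow_pos_of_pos hx0 _
    rw [e1, div_eq_iff e4.ne', mul_assoc, e3, ← e2]
    ring
  have p3 : C * (x ^ (11 / 10 : ℝ) + C' * x ^ (37 / 30 : ℝ) + 1) ≤ η / 4 * x ^ (4 / 3 : ℝ) := by
    have q0 : x ^ (37 / 30 : ℝ) = x ^ (-(1 / 10) : ℝ) * x ^ (4 / 3 : ℝ) := by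
      rw [← Real.rpow_add hx0]; norm_num
    have q1 : x ^ (11 / 10 : ℝ) ≤ x ^ (37 / 30 : ℝ) :=
      Real.rpow_le_rpow_of_exponent_le g6 (by norm_num)
    have q2 : (1 : ℝ) ≤ x ^ (37 / 30 : ℝ) := Real.one_le_rpow g6 (by norm_num)
    calc C * (x ^ (11 / 10 : ℝ) + C' * x ^ (37 / 30 : ℝ) + 1)
        ≤ C * (x ^ (37 / 30 : ℝ) + C' * x ^ (37 / 30 : ℝ) + x ^ (37 / 30 : ℝ)) := by gcongr
      _ = (C * (2 + C') * x ^ (-(1 / 10) : ℝ)) * x ^ (4 / 3 : ℝ) := by rw [q0]; ring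
      _ ≤ η / 4 * x ^ (4 / 3 : ℝ) := mul_le_mul_of_nonneg_right g4 hx43.le
  have p4 : 2 * (C' * x) ≤ (θ * x) ^ 2 := by
    rw [mul_pow, p1]
    have q0 : x ^ (11 / 10 : ℝ) = x * x ^ (1 / 10 : ℝ) := by
      rw [← Real.rpow_one_add' hx0.le (by norm_num)]; norm_num
    have q1 : x ^ (-(1 / 10) : ℝ) * x ^ (1 / 10 : ℝ) = 1 := by
      rw [← Real.rpow_add hx0]; norm_num
    have q2 : 0 < x ^ (1 / 10 : ℝ) := Real.rpow_pos_of_pos hx0 _
    have q3 : 2 * C' ≤ x ^ (1 / 10 : ℝ) := by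
      have := mul_le_mul_of_nonneg_right g3 q2.le
      rw [mul_assoc, q1, mul_one, one_mul] at this
      exact this
    rw [q0]
    calc 2 * (C' * x) = x * (2 * C') := by ring
      _ ≤ x * x ^ (1 / 10 : ℝ) := mul_le_mul_of_nonneg_left q3 hx0.le
  have hgi : Integrable g := hg.integrable_of_hasCompactSupport hc
  have hθ1 : 0 < 1 - θ := by linarith
  have hNice : Nice (fun y => (1 - θ) * x * g y) := by
    refine ⟨hg.measurable.const_mul _, fun y => by have := h0 y; positivity, ?_,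
      hgi.const_mul _⟩
    obtain ⟨D, hD⟩ := hc.exists_bound_of_continuous hg
    refine ⟨(1 - θ) * x * D, fun y => ?_⟩
    have := (le_abs_self _).trans (hD y)
    have h2 : 0 ≤ (1 - θ) * x := by positivity
    exact mul_le_mul_of_nonneg_left this h2
  -- the law
  have key : ∃ e : ℝ, HasLaw (fun y => (1 - θ) * x * g y) e (C' * x) ∧ e ≤ 0 ∧
      e ≤ -(cstar * G - η / 2) * x ^ (4 / 3 : ℝ) := by
    rcases le_or_gt cstar η1 with hcase | hcase
    · -- the jellium constant is negligible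
      have hl := hA (fun y => (1 - θ) * x * g y) (Fin 3 → ℤ) ∅ (fun _ => 0) (fun _ => 1)
        (fun _ => 1) hNice (by simp) (by simp) (by simp) (fun y => by
          simp only [Finset.sum_empty]; exact hNice.nonneg y)
      simp only [Finset.sum_empty, mul_zero, add_zero, mul_one] at hl
      refine ⟨0, ju_law_mono hl le_rfl (hVC.trans (le_mul_of_one_le_right hC'0.le g6)), le_rfl, ?_⟩
      have : cstar * G ≤ η1 * G := mul_le_mul_of_nonneg_right hcase hG0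
      have h3 : η1 * G ≤ η / 8 := by
        rw [← hη1b]
        exact mul_le_mul_of_nonneg_left (by linarith) hη10.le
      have h4 : 0 ≤ -(cstar * G - η / 2) := by linarith
      exact mul_nonneg h4 hx43.le
    · obtain ⟨b, hb⟩ : ∃ b : ℝ, b = B * x ^ (-(1 / 3) : ℝ) := ⟨_, rfl⟩
      have hx3 : 0 < x ^ (-(1 / 3) : ℝ) := Real.rpow_pos_of_pos hx0 _
      have hb0 : 0 < b := by rw [hb]; positivity
      rw [← hb] at g2
      obtain ⟨T, γ, t1, t2, t3, t4⟩ := hT b hb0 g2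
      obtain ⟨S, hS⟩ : ∃ S : ℝ, S = ∑ m ∈ T, γ m ^ (4 / 3 : ℝ) * b ^ 3 := ⟨_, rfl⟩
      rw [← hG, ← hS] at t3
      have hγ0 : ∀ m ∈ T, 0 < γ m := fun m hm => lt_of_lt_of_le hs0 (t1 m hm).1
      have hS0 : 0 ≤ S := by
        rw [hS]
        exact Finset.sum_nonneg fun m hm => mul_nonneg (Real.rpow_nonneg (hγ0 m hm).le _)
          (by positivity)
      have hSS : S ≤ Sm := by
        rw [hS, hSm]
        calc ∑ m ∈ T, γ m ^ (4 / 3 : ℝ) * b ^ 3 ≤ ∑ m ∈ T, M ^ (4 / 3 : ℝ) * b ^ 3 := by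
              apply Finset.sum_le_sum
              intro m hm
              apply mul_le_mul_of_nonneg_right _ (by positivity)
              exact Real.rpow_le_rpow (hγ0 m hm).le (t1 m hm).2 (by norm_num)
          _ = M ^ (4 / 3 : ℝ) * (T.card * b ^ 3) := by
              rw [Finset.sum_const, nsmul_eq_mul]; ring
          _ ≤ M ^ (4 / 3 : ℝ) * Cn := mul_le_mul_of_nonneg_left t4 (by positivity)
      have hl := hA (fun y => (1 - θ) * x * g y) (Fin 3 → ℤ) T (fun m => ju_cor b m) (fun _ => b)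
        (fun m => (1 - θ) * x * γ m) hNice (fun _ _ => hb0)
        (fun m hm => by have := hγ0 m hm; positivity)
        (fun m hm => by
          have e1 : x * (s0 / 2) ≤ (1 - θ) * x * γ m := by
            have h2 := (t1 m hm).1
            have h3 : 1 / 2 ≤ 1 - θ := by linarith
            have h4 : (1 / 2) * x * s0 ≤ (1 - θ) * x * γ m := by gcongr
            linarith
          have e2 : (x * (s0 / 2)) ^ (1 / 3 : ℝ) ≤ ((1 - θ) * x * γ m) ^ (1 / 3 : ℝ) :=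
            Real.rpow_le_rpow (by positivity) e1 (by norm_num)
          rw [Real.mul_rpow hx0.le (by linarith)] at e2
          have e3 : x ^ (-(1 / 3) : ℝ) * x ^ (1 / 3 : ℝ) = 1 := by
            rw [← Real.rpow_add hx0]; norm_num
          calc L = B * (x ^ (-(1 / 3) : ℝ) * x ^ (1 / 3 : ℝ)) * (s0 / 2) ^ (1 / 3 : ℝ) := by
                rw [e3, mul_one, hBL]
            _ = b * (x ^ (1 / 3 : ℝ) * (s0 / 2) ^ (1 / 3 : ℝ)) := by rw [hb]; ring
            _ ≤ b * ((1 - θ) * x * γ m) ^ (1 / 3 : ℝ) := mul_le_mul_of_nonneg_left e2 hb0.le)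
        (fun y => by
          have h2 := t2 y
          rw [ju_sum hb0] at h2 ⊢
          have h3 : 0 ≤ (1 - θ) * x := by positivity
          split_ifs at h2 ⊢ with h
          · exact mul_le_mul_of_nonneg_left h2 h3
          · have := h0 y; positivity)
      have hsum : ∑ m ∈ T, ((1 - θ) * x * γ m) ^ (4 / 3 : ℝ) * b ^ 3 =
          (1 - θ) ^ (4 / 3 : ℝ) * x ^ (4 / 3 : ℝ) * S := by
        rw [hS, Finset.mul_sum]
        apply Finset.sum_congr rfl
        intro m hm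
        rw [Real.mul_rpow (by positivity) (hγ0 m hm).le, Real.mul_rpow hθ1.le hx0.le]
        ring
      rw [hsum] at hl
      have hvar : V * (1 + ∑ m ∈ T, (1 + (1 - θ) * x * γ m * b ^ 3)) ≤ C' * x := by
        have e1 : ∑ m ∈ T, (1 + (1 - θ) * x * γ m * b ^ 3) ≤ ∑ m ∈ T, (1 + x * M * b ^ 3) := by
          apply Finset.sum_le_sum
          intro m hm
          have h2 := (t1 m hm).2
          have h3 := hγ0 m hm
          have h4 : (1 - θ) * x * γ m ≤ x * M := by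
            have h6 : (1 - θ) * x ≤ x := by
              have : (1 - θ) * x = x - θ * x := by ring
              have h7 : 0 ≤ θ * x := by positivity
              linarith
            exact mul_le_mul h6 h2 h3.le hx0.le
          have h5 : 0 ≤ b ^ 3 := by positivity
          have h8 := mul_le_mul_of_nonneg_right h4 h5
          linarith
        have e2 : ∑ m ∈ T, (1 + x * M * b ^ 3) = T.card + x * M * (T.card * b ^ 3) := by
          rw [Finset.sum_const, nsmul_eq_mul]; ring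
        have e3 : (T.card : ℝ) ≤ Cn / B ^ 3 * x := by
          have h2 : b ^ 3 = B ^ 3 / x := by
            rw [hb, mul_pow, ← Real.rpow_natCast (x ^ (-(1 / 3) : ℝ)), ← Real.rpow_mul hx0.le]
            norm_num
            rw [Real.rpow_neg_one]
            rfl
          rw [h2] at t4
          have h3 : 0 < B ^ 3 := by positivity
          rw [div_mul_eq_mul_div, le_div_iff₀ h3]
          calc (T.card : ℝ) * B ^ 3 = (T.card * (B ^ 3 / x)) * x := by field_simp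
            _ ≤ Cn * x := mul_le_mul_of_nonneg_right t4 hx0.le
        have e4 : x * M * (T.card * b ^ 3) ≤ x * M * Cn :=
          mul_le_mul_of_nonneg_left t4 (by positivity)
        have e5 : 1 + ∑ m ∈ T, (1 + (1 - θ) * x * γ m * b ^ 3) ≤
            (1 + Cn / B ^ 3 + M * Cn) * x := by
          rw [e2] at e1
          have e6 : (1 + Cn / B ^ 3 + M * Cn) * x = x + Cn / B ^ 3 * x + x * M * Cn := by ring
          rw [e6]
          linarith
        rw [hC', mul_assoc]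
        exact mul_le_mul_of_nonneg_left e5 hV.le
      refine ⟨_, ju_law_mono hl le_rfl hvar, ?_, ?_⟩
      · have h2 : 0 ≤ (1 - θ) ^ (4 / 3 : ℝ) * x ^ (4 / 3 : ℝ) * S := by positivity
        have h3 : 0 < cstar - η1 := by linarith
        rw [neg_mul]
        exact neg_nonpos.mpr (mul_nonneg h3.le h2)
      · have h2 : 1 - 2 * θ ≤ (1 - θ) ^ (4 / 3 : ℝ) := by
          have h3 : (1 - θ) ^ (2 : ℝ) ≤ (1 - θ) ^ (4 / 3 : ℝ) :=
            Real.rpow_le_rpow_of_exponent_ge hθ1 (by linarith) (by norm_num)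
          rw [Real.rpow_two] at h3
          have h4 : (1 - θ) ^ 2 = 1 - 2 * θ + θ ^ 2 := by ring
          have h5 := sq_nonneg θ
          linarith
        have h4 : 0 ≤ cstar - η1 := by linarith
        have h5 : cstar * G - η / 2 ≤ (cstar - η1) * ((1 - θ) ^ (4 / 3 : ℝ) * S) := by
          have q1 : (cstar - η1) * ((1 - 2 * θ) * S) ≤
              (cstar - η1) * ((1 - θ) ^ (4 / 3 : ℝ) * S) := by gcongr
          have q2 : η1 * S ≤ η / 8 := by
            rw [← hη1b]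
            apply mul_le_mul_of_nonneg_left _ hη10.le
            linarith
          have q3 : 2 * cstar * S * θ ≤ η / 8 := by
            refine le_trans ?_ g5
            gcongr
          have q4 : cstar * (G - ε) ≤ cstar * S := mul_le_mul_of_nonneg_left t3 hcs
          have q5 : cstar * ε ≤ η / 8 := by
            have : ε * (cstar + 1) = cstar * ε + ε := by ring
            linarith
          have q6 : 0 ≤ η1 * θ * S := by positivity
          have q7 : (cstar - η1) * ((1 - 2 * θ) * S) =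
              cstar * S - η1 * S - 2 * cstar * S * θ + 2 * (η1 * θ * S) := by ring
          have q8 : cstar * (G - ε) = cstar * G - cstar * ε := by ring
          linarith
        calc -(cstar - η1) * ((1 - θ) ^ (4 / 3 : ℝ) * x ^ (4 / 3 : ℝ) * S)
            = -((cstar - η1) * ((1 - θ) ^ (4 / 3 : ℝ) * S)) * x ^ (4 / 3 : ℝ) := by ring
          _ ≤ -(cstar * G - η / 2) * x ^ (4 / 3 : ℝ) := by
              apply mul_le_mul_of_nonneg_right _ hx43.le
              linarith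
  obtain ⟨e, he1, he2, he3⟩ := key
  obtain ⟨R, hR1, hR2⟩ := hE K θ e (C' * x) hK1 hθ0 (by linarith) he2 (by positivity)
    (by rw [← hx]; exact p4) (by rw [← hx]; exact he1)
  refine ⟨R, hR1, ?_⟩
  rw [← hx] at hR2 ⊢
  rw [p1, p2] at hR2
  refine hR2.trans ?_
  have r1 : -(cstar * G - η) * x ^ (4 / 3 : ℝ) =
      -(cstar * G - η / 2) * x ^ (4 / 3 : ℝ) + η / 2 * x ^ (4 / 3 : ℝ) := by ring
  have r2 : 0 ≤ η * x ^ (4 / 3 : ℝ) := by positivity
  rw [r1]
  linarith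

end Pool.Agent.H5R2.NL
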