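import Mathlib
import Pool.Agent.H5R2.NL.Defs
import Pool.Agent.H5R2.NL.Int

/-!
# Auxiliary facts for the upper bound: product densities and scaling
-/

set_option autoImplicit false

noncomputable section

namespace Pool.Agent.H5R2.NL

open MeasureTheory Metric
open scoped ENNReal

/-! ### product densities -/

theorem up_finite (w : E3 → ℝ) (hi : Integrable w) :
    IsFiniteMeasure ((volume : Measure E3).withDensity (fun x => ENNReal.ofReal (w x))) :=
  isFiniteMeasure_withDensity_ofReal hi.2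

theorem up_prob (w : E3 → ℝ) (h0 : ∀ x, 0 ≤ w x) (hi : Integrable w) (h1 : ∫ x, w x = 1) :
    IsProbabilityMeasure ((volume : Measure E3).withDensity (fun x => ENNReal.ofReal (w x))) := by
  refine ⟨?_⟩
  rw [withDensity_apply _ MeasurableSet.univ, Measure.restrict_univ,
    ← ofReal_integral_eq_lintegral_ofReal hi (Filter.Eventually.of_forall h0), h1,
    ENNReal.ofReal_one]

theorem up_pi_density {N : ℕ} (w : E3 → ℝ) (h0 : ∀ x, 0 ≤ w x)
    (hi : Integrable w) :
    Measure.pi (fun _ : Fin N => (volume : Measure E3).withDensity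
      (fun x => ENNReal.ofReal (w x))) =
      (volume : Measure (Fin N → E3)).withDensity (fun x => ENNReal.ofReal (∏ k, w (x k))) := by
  have := up_finite w hi
  refine Measure.pi_eq ?_
  intro s hs
  rw [withDensity_apply _ (MeasurableSet.univ_pi hs)]
  have hprod : ∀ x : Fin N → E3, (Set.univ.pi s).indicator (fun x => ∏ k, w (x k)) x =
      ∏ k, (s k).indicator w (x k) := by
    intro x
    by_cases hx : x ∈ Set.univ.pi s
    · rw [Set.indicator_of_mem hx]
      refine Finset.prod_congr rfl fun k _ => ?_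
      rw [Set.indicator_of_mem (hx k (Set.mem_univ k))]
    · rw [Set.indicator_of_notMem hx]
      rw [Set.mem_univ_pi] at hx
      push Not at hx
      obtain ⟨k, hk⟩ := hx
      refine (Finset.prod_eq_zero (Finset.mem_univ k) ?_).symm
      rw [Set.indicator_of_notMem hk]
  have hint : Integrable (fun x : Fin N → E3 => ∏ k, w (x k)) :=
    Integrable.fintype_prod (f := fun _ => w) fun _ => hi
  rw [← ofReal_integral_eq_lintegral_ofReal hint.integrableOn
    (Filter.Eventually.of_forall fun x => Finset.prod_nonneg fun k _ => h0 _),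
    ← integral_indicator (MeasurableSet.univ_pi hs)]
  simp_rw [hprod]
  rw [integral_fintype_prod_volume_eq_prod (fun k => (s k).indicator w),
    ENNReal.ofReal_prod_of_nonneg]
  · refine Finset.prod_congr rfl fun k _ => ?_
    rw [integral_indicator (hs k), withDensity_apply _ (hs k),
      ofReal_integral_eq_lintegral_ofReal hi.integrableOn (Filter.Eventually.of_forall h0)]
  · intro k _
    exact integral_nonneg fun x => Set.indicator_nonneg (fun y _ => h0 y) x

/-- one marginal -/
theorem up_single {N : ℕ} (w : E3 → ℝ) (hw : Measurable w) (h0 : ∀ x, 0 ≤ w x)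
    (hi : Integrable w) (h1 : ∫ x, w x = 1) (i : Fin N) (F : E3 → ℝ) (hF : Measurable F) :
    ∫ x : Fin N → E3, F (x i) * ∏ k, w (x k) = ∫ x, w x * F x := by
  have := up_prob w h0 hi h1
  have h2 : ∫ x : Fin N → E3, F (x i) ∂(Measure.pi (fun _ : Fin N =>
      (volume : Measure E3).withDensity (fun x => ENNReal.ofReal (w x)))) =
      ∫ x, F x ∂((volume : Measure E3).withDensity (fun x => ENNReal.ofReal (w x))) := by
    have h3 := measurePreserving_eval (fun _ : Fin N =>
      (volume : Measure E3).withDensity (fun x => ENNReal.ofReal (w x))) i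
    rw [← h3.map_eq, integral_map h3.measurable.aemeasurable hF.aestronglyMeasurable, h3.map_eq]
  rw [up_pi_density w h0 hi, integral_withDensity_eq_integral_toReal_smul
    (by fun_prop) (Filter.Eventually.of_forall fun x => ENNReal.ofReal_lt_top),
    integral_withDensity_eq_integral_toReal_smul
    (by fun_prop) (Filter.Eventually.of_forall fun x => ENNReal.ofReal_lt_top)] at h2
  rw [integral_congr_ae (g := fun x : Fin N → E3 => (ENNReal.ofReal (∏ k, w (x k))).toReal • F (x i))
    (Filter.Eventually.of_forall fun x => ?_), h2]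
  · refine integral_congr_ae (Filter.Eventually.of_forall fun x => ?_)
    simp only [ENNReal.toReal_ofReal (h0 x), smul_eq_mul]
  · simp only [ENNReal.toReal_ofReal (Finset.prod_nonneg fun k _ => h0 (x k)), smul_eq_mul]
    ring

/-- two marginals -/
theorem up_pair {N : ℕ} (w : E3 → ℝ) (hw : Measurable w) (h0 : ∀ x, 0 ≤ w x)
    (hi : Integrable w) (h1 : ∫ x, w x = 1) (i j : Fin N) (hij : i ≠ j) (F : E3 × E3 → ℝ)
    (hF : Measurable F)
    (hFi : Integrable (fun x : Fin N → E3 => F (x i, x j) * ∏ k, w (x k))) :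
    ∫ x : Fin N → E3, F (x i, x j) * ∏ k, w (x k) = ∫ x, ∫ y, w x * w y * F (x, y) := by
  have := up_prob w h0 hi h1
  set ν := (volume : Measure E3).withDensity (fun x => ENNReal.ofReal (w x)) with hν
  have hmap : (Measure.pi (fun _ : Fin N => ν)).map (fun x => (x i, x j)) = ν.prod ν := by
    have h3 := (ProbabilityTheory.iIndepFun_pi (μ := fun _ : Fin N => ν) (X := fun _ => id)
      (fun _ => aemeasurable_id)).indepFun hij
    have h4 := h3.map_prod_eq_prod_map_map (measurable_pi_apply i).aemeasurable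
      (measurable_pi_apply j).aemeasurable
    have h5 := (measurePreserving_eval (fun _ : Fin N => ν) i).map_eq
    have h6 := (measurePreserving_eval (fun _ : Fin N => ν) j).map_eq
    have e5 : (Measure.pi (fun _ : Fin N => ν)).map (fun f => f i) = ν := h5
    have e6 : (Measure.pi (fun _ : Fin N => ν)).map (fun f => f j) = ν := h6
    rw [e5, e6] at h4
    exact h4
  have hm : Measurable (fun x : Fin N → E3 => (x i, x j)) := by fun_prop
  have hwm : Measurable (fun x : Fin N → E3 => ENNReal.ofReal (∏ k, w (x k))) := by fun_prop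
  have hFint : Integrable F (ν.prod ν) := by
    rw [← hmap, integrable_map_measure hF.aestronglyMeasurable hm.aemeasurable,
      up_pi_density w h0 hi, integrable_withDensity_iff_integrable_smul'
      hwm (Filter.Eventually.of_forall fun x => ENNReal.ofReal_lt_top)]
    refine hFi.congr (Filter.Eventually.of_forall fun x => ?_)
    simp only [ENNReal.toReal_ofReal (Finset.prod_nonneg fun k _ => h0 (x k)), smul_eq_mul,
      Function.comp_apply]
    ring
  have h2 : ∫ x : Fin N → E3, F (x i, x j) ∂(Measure.pi (fun _ : Fin N => ν)) =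
      ∫ x, ∫ y, F (x, y) ∂ν ∂ν := by
    rw [← integral_prod F hFint, ← hmap, integral_map hm.aemeasurable hF.aestronglyMeasurable]
  rw [up_pi_density w h0 hi, integral_withDensity_eq_integral_toReal_smul
    hwm (Filter.Eventually.of_forall fun x => ENNReal.ofReal_lt_top)] at h2
  rw [integral_congr_ae (g := fun x : Fin N → E3 =>
    (ENNReal.ofReal (∏ k, w (x k))).toReal • F (x i, x j))
    (Filter.Eventually.of_forall fun x => ?_), h2]
  · rw [hν, integral_withDensity_eq_integral_toReal_smul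
      (by fun_prop) (Filter.Eventually.of_forall fun x => ENNReal.ofReal_lt_top)]
    refine integral_congr_ae (Filter.Eventually.of_forall fun x => ?_)
    simp only
    rw [integral_withDensity_eq_integral_toReal_smul
      (by fun_prop) (Filter.Eventually.of_forall fun x => ENNReal.ofReal_lt_top)]
    rw [smul_eq_mul, ENNReal.toReal_ofReal (h0 x), ← integral_const_mul]
    refine integral_congr_ae (Filter.Eventually.of_forall fun y => ?_)
    simp only [ENNReal.toReal_ofReal (h0 y), smul_eq_mul]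
    ring
  · simp only [ENNReal.toReal_ofReal (Finset.prod_nonneg fun k _ => h0 (x k)), smul_eq_mul]
    ring

/-! ### scaling -/

/-- the rescaled function -/
def up_sc (l : ℝ) (φ : E3 → ℂ) (x : E3) : ℂ := ((l ^ (3 / 2 : ℝ) : ℝ) : ℂ) * φ (l • x)

theorem up_integral_smul (f : E3 → ℝ) (l : ℝ) (hl : 0 < l) :
    ∫ x, f (l • x) = (l ^ 3)⁻¹ * ∫ x, f x := by
  rw [Measure.integral_comp_smul, finrank_euclideanSpace, Fintype.card_fin, smul_eq_mul,
    abs_of_pos (by positivity)]

theorem up_sc_norm (l : ℝ) (hl : 0 < l) (φ : E3 → ℂ) (x : E3) :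
    ‖up_sc l φ x‖ = l ^ (3 / 2 : ℝ) * ‖φ (l • x)‖ := by
  unfold up_sc
  rw [norm_mul, Complex.norm_real, Real.norm_of_nonneg (by positivity)]

theorem up_sc_norm_sq (l : ℝ) (hl : 0 < l) (φ : E3 → ℂ) (x : E3) :
    ‖up_sc l φ x‖ ^ 2 = l ^ 3 * ‖φ (l • x)‖ ^ 2 := by
  rw [up_sc_norm l hl, mul_pow, ← Real.rpow_natCast, ← Real.rpow_mul hl.le]
  norm_num

theorem up_sc_norm_rpow (l : ℝ) (hl : 0 < l) (φ : E3 → ℂ) (x : E3) :
    ‖up_sc l φ x‖ ^ (8 / 3 : ℝ) = l ^ 4 * ‖φ (l • x)‖ ^ (8 / 3 : ℝ) := by
  rw [up_sc_norm l hl, Real.mul_rpow (by positivity) (norm_nonneg _), ← Real.rpow_mul hl.le,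
    ← Real.rpow_natCast]
  norm_num

theorem up_sc_integral_sq (l : ℝ) (hl : 0 < l) (φ : E3 → ℂ) :
    ∫ x, ‖up_sc l φ x‖ ^ 2 = ∫ x, ‖φ x‖ ^ 2 := by
  simp_rw [up_sc_norm_sq l hl]
  rw [integral_const_mul, up_integral_smul (fun x => ‖φ x‖ ^ 2) l hl]
  field_simp

theorem up_sc_integral_rpow (l : ℝ) (hl : 0 < l) (φ : E3 → ℂ) :
    ∫ x, ‖up_sc l φ x‖ ^ (8 / 3 : ℝ) = l * ∫ x, ‖φ x‖ ^ (8 / 3 : ℝ) := by
  simp_rw [up_sc_norm_rpow l hl]
  rw [integral_const_mul, up_integral_smul (fun x => ‖φ x‖ ^ (8 / 3 : ℝ)) l hl]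
  field_simp

theorem up_sc_smooth (l : ℝ) (φ : E3 → ℂ) (hφ : ContDiff ℝ ((⊤ : ℕ∞) : WithTop ℕ∞) φ) :
    ContDiff ℝ ((⊤ : ℕ∞) : WithTop ℕ∞) (up_sc l φ) := by
  unfold up_sc
  exact contDiff_const.mul (hφ.comp (contDiff_const_smul l))

theorem up_sc_compact (l : ℝ) (hl : 0 < l) (φ : E3 → ℂ) (hφ : HasCompactSupport φ) :
    HasCompactSupport (up_sc l φ) := by
  unfold up_sc
  exact HasCompactSupport.mul_left (hφ.comp_smul hl.ne')

theorem up_sc_gsq (l : ℝ) (hl : 0 < l) (φ : E3 → ℂ) (hφ : Differentiable ℝ φ) (x : E3) :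
    gsq (up_sc l φ) x = l ^ 5 * gsq φ (l • x) := by
  have h1 : HasFDerivAt (up_sc l φ) (((l ^ (3 / 2 : ℝ) : ℝ) : ℂ) •
      ((fderiv ℝ φ (l • x)).comp (l • ContinuousLinearMap.id ℝ E3))) x := by
    unfold up_sc
    have h2 : HasFDerivAt (fun y : E3 => l • y) (l • ContinuousLinearMap.id ℝ E3) x :=
      (hasFDerivAt_id x).const_smul l
    exact ((hφ (l • x)).hasFDerivAt.comp x h2).const_mul _
  unfold gsq
  rw [h1.fderiv, Finset.mul_sum]
  refine Finset.sum_congr rfl fun c _ => ?_
  simp only [smul_apply, ContinuousLinearMap.comp_apply,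
    ContinuousLinearMap.id_apply, map_smul, smul_eq_mul]
  rw [norm_mul, Complex.norm_real, Real.norm_of_nonneg (by positivity), norm_smul,
    Real.norm_of_nonneg hl.le, mul_pow, mul_pow, ← mul_assoc]
  congr 1
  rw [← Real.rpow_natCast, ← Real.rpow_mul hl.le, ← Real.rpow_natCast, ← Real.rpow_natCast,
    ← Real.rpow_add hl]
  norm_num

theorem up_sc_integral_gsq (l : ℝ) (hl : 0 < l) (φ : E3 → ℂ) (hφ : Differentiable ℝ φ) :
    ∫ x, gsq (up_sc l φ) x = l ^ 2 * ∫ x, gsq φ x := by
  simp_rw [up_sc_gsq l hl φ hφ]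
  rw [integral_const_mul, up_integral_smul (fun x => gsq φ x) l hl]
  field_simp

end Pool.Agent.H5R2.NL
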