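import Mathlib
import Pool.Agent.H5R2.NL.Defs
import Pool.Agent.H5R2.NL.Int
import Pool.Agent.H5R2.NL.UpA

/-!
# Product states
-/

set_option autoImplicit false

noncomputable section

namespace Pool.Agent.H5R2.NL

open MeasureTheory Metric
open scoped ENNReal

/-- product state -/
def up_prod {N : ℕ} (f : E3 → ℂ) (x : Fin N → E3) : ℂ := ∏ k, f (x k)

theorem up_prod_smooth {N : ℕ} (f : E3 → ℂ) (hf : ContDiff ℝ ((⊤ : ℕ∞) : WithTop ℕ∞) f) :
    ContDiff ℝ ((⊤ : ℕ∞) : WithTop ℕ∞) (up_prod (N := N) f) := by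
  unfold up_prod
  refine contDiff_prod fun k _ => ?_
  exact hf.comp (contDiff_apply ℝ E3 k)

theorem up_prod_compact {N : ℕ} (f : E3 → ℂ) (hf : HasCompactSupport f) :
    HasCompactSupport (up_prod (N := N) f) := by
  refine HasCompactSupport.intro (K := Set.univ.pi fun _ : Fin N => tsupport f)
    (isCompact_univ_pi fun _ => hf) ?_
  intro x hx
  rw [Set.mem_univ_pi] at hx
  push Not at hx
  obtain ⟨k, hk⟩ := hx
  exact Finset.prod_eq_zero (Finset.mem_univ k) (image_eq_zero_of_notMem_tsupport hk)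

theorem up_prod_norm {N : ℕ} (f : E3 → ℂ) (x : Fin N → E3) :
    ‖up_prod f x‖ ^ 2 = ∏ k, ‖f (x k)‖ ^ 2 := by
  unfold up_prod
  rw [norm_prod, Finset.prod_pow]

theorem up_prod_norm_int {N : ℕ} (f : E3 → ℂ) (h1 : ∫ x, ‖f x‖ ^ 2 = 1) :
    ∫ x : Fin N → E3, ‖up_prod f x‖ ^ 2 = 1 := by
  simp_rw [up_prod_norm]
  rw [integral_fintype_prod_volume_eq_prod (fun _ => fun x : E3 => ‖f x‖ ^ 2)]
  simp [h1]

theorem up_prod_state {N : ℕ} (f : E3 → ℂ) (hf : ContDiff ℝ ((⊤ : ℕ∞) : WithTop ℕ∞) f)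
    (hc : HasCompactSupport f) (h1 : ∫ x, ‖f x‖ ^ 2 = 1) : IsState (up_prod (N := N) f) :=
  ⟨up_prod_smooth f hf, up_prod_compact f hc, up_prod_norm_int f h1⟩

theorem up_prod_gradSq {N : ℕ} (f : E3 → ℂ) (hf : Differentiable ℝ f) (i : Fin N)
    (x : Fin N → E3) :
    gradSq (up_prod f) i x = ∏ k, (if k = i then gsq f else fun y => ‖f y‖ ^ 2) (x k) := by
  have h1 : (fun y => up_prod f (Function.update x i y)) =
      fun y => f y * ∏ k ∈ Finset.univ.erase i, f (x k) := by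
    funext y
    unfold up_prod
    rw [← Finset.mul_prod_erase _ _ (Finset.mem_univ i), Function.update_self]
    congr 1
    refine Finset.prod_congr rfl fun k hk => ?_
    rw [Function.update_of_ne (Finset.ne_of_mem_erase hk)]
  unfold gradSq
  rw [h1, ← Finset.mul_prod_erase _ _ (Finset.mem_univ i)]
  simp only [if_true]
  have h2 : ∏ k ∈ Finset.univ.erase i, (if k = i then gsq f else fun y => ‖f y‖ ^ 2) (x k) =
      ‖∏ k ∈ Finset.univ.erase i, f (x k)‖ ^ 2 := by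
    rw [norm_prod, ← Finset.prod_pow]
    refine Finset.prod_congr rfl fun k hk => ?_
    rw [if_neg (Finset.ne_of_mem_erase hk)]
  rw [h2]
  generalize ∏ k ∈ Finset.univ.erase i, f (x k) = c
  unfold gsq
  rw [Finset.sum_mul]
  refine Finset.sum_congr rfl fun a _ => ?_
  rw [fderiv_mul_const (hf (x i)), smul_apply, norm_smul, mul_pow, mul_comm]

theorem up_prod_kin {N : ℕ} (f : E3 → ℂ) (hf : ContDiff ℝ ((⊤ : ℕ∞) : WithTop ℕ∞) f)
    (hc : HasCompactSupport f) (h1 : ∫ x, ‖f x‖ ^ 2 = 1) :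
    kin (up_prod (N := N) f) = N * ∫ x, gsq f x := by
  have hf1 : ContDiff ℝ 1 (up_prod (N := N) f) :=
    (up_prod_smooth f hf).of_le (by exact_mod_cast le_top)
  have hd : Differentiable ℝ f := hf.differentiable (by simp)
  unfold kin
  rw [integral_finsetSum _ fun i _ => integrable_gradSq _ hf1 (up_prod_compact f hc) i]
  have h2 : ∀ i : Fin N, ∫ x, gradSq (up_prod f) i x = ∫ x, gsq f x := by
    intro i
    simp_rw [up_prod_gradSq f hd i]
    rw [integral_fintype_prod_volume_eq_prod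
      (fun k : Fin N => if k = i then gsq f else fun y => ‖f y‖ ^ 2),
      ← Finset.mul_prod_erase _ _ (Finset.mem_univ i)]
    simp only [if_true]
    rw [Finset.prod_eq_one, mul_one]
    intro k hk
    rw [if_neg (Finset.ne_of_mem_erase hk), h1]
  simp [h2]

theorem up_int_w (f : E3 → ℂ) (hf : Continuous f) (hc : HasCompactSupport f) :
    Integrable fun x => ‖f x‖ ^ 2 := by
  refine Continuous.integrable_of_hasCompactSupport (by fun_prop) ?_
  exact hc.comp_left (g := fun z : ℂ => ‖z‖ ^ 2) (by simp)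

/-- direct energy -/
def up_D (f : E3 → ℂ) : ℝ := ∫ x, ∫ y, ‖f x‖ ^ 2 * ‖f y‖ ^ 2 / ‖x - y‖

/-- potential of a point charge -/
def up_P (f : E3 → ℂ) (R : E3) : ℝ := ∫ x, ‖f x‖ ^ 2 / ‖x - R‖

theorem up_D_nonneg (f : E3 → ℂ) : 0 ≤ up_D f :=
  integral_nonneg fun x => integral_nonneg fun y => by positivity

theorem up_pair_le {N : ℕ} (f : E3 → ℂ) (hf : ContDiff ℝ ((⊤ : ℕ∞) : WithTop ℕ∞) f)
    (hc : HasCompactSupport f) (h1 : ∫ x, ‖f x‖ ^ 2 = 1) (i j : Fin N) :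
    ∫ x : Fin N → E3, 1 / ‖x i - x j‖ * ‖up_prod f x‖ ^ 2 ≤ up_D f := by
  by_cases hij : i = j
  · subst hij
    simp [up_D_nonneg]
  · have hfc : Continuous f := hf.continuous
    have h2 := integrable_ee (up_prod (N := N) f) (up_prod_smooth f hf).continuous
      (up_prod_compact f hc) i j
    simp_rw [up_prod_norm] at h2 ⊢
    have h3 := up_pair (fun x => ‖f x‖ ^ 2) (by fun_prop) (fun x => by positivity)
      (up_int_w f hfc hc) h1 i j hij (fun p => 1 / ‖p.1 - p.2‖) (by fun_prop) h2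
    simp only at h3
    rw [h3]
    unfold up_D
    refine le_of_eq ?_
    refine integral_congr_ae (Filter.Eventually.of_forall fun x => ?_)
    refine integral_congr_ae (Filter.Eventually.of_forall fun y => ?_)
    simp only
    ring

theorem up_single_eq {N : ℕ} (f : E3 → ℂ) (hf : ContDiff ℝ ((⊤ : ℕ∞) : WithTop ℕ∞) f)
    (hc : HasCompactSupport f) (h1 : ∫ x, ‖f x‖ ^ 2 = 1) (i : Fin N) (R : E3) :
    ∫ x : Fin N → E3, 1 / ‖x i - R‖ * ‖up_prod f x‖ ^ 2 = up_P f R := by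
  have hfc : Continuous f := hf.continuous
  simp_rw [up_prod_norm]
  have h3 := up_single (fun x => ‖f x‖ ^ 2) (by fun_prop) (fun x => by positivity)
    (up_int_w f hfc hc) h1 i (fun p => 1 / ‖p - R‖) (by fun_prop)
  rw [h3]
  unfold up_P
  refine integral_congr_ae (Filter.Eventually.of_forall fun x => ?_)
  simp only
  ring

theorem up_form {N K : ℕ} (z : ℝ) (R : Fin K → E3) (f : E3 → ℂ)
    (hf : ContDiff ℝ ((⊤ : ℕ∞) : WithTop ℕ∞) f)
    (hc : HasCompactSupport f) (h1 : ∫ x, ‖f x‖ ^ 2 = 1) :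
    form z R (up_prod (N := N) f) ≤ N * (∫ x, gsq f x) + ((N : ℝ) ^ 2 / 2 * up_D f
      - z * N * ∑ j, up_P f (R j) + z ^ 2 / 2 * ∑ i, ∑ j, 1 / ‖R i - R j‖) := by
  unfold form
  rw [up_prod_kin f hf hc h1]
  have hψc := (up_prod_smooth (N := N) f hf).continuous
  have hψs := up_prod_compact (N := N) f hc
  have hee := fun i j => integrable_ee (up_prod (N := N) f) hψc hψs i j
  have hen := fun i R => integrable_en (up_prod (N := N) f) hψc hψs i R
  have hnn : Integrable fun x : Fin N → E3 => ‖up_prod f x‖ ^ 2 := by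
    refine Continuous.integrable_of_hasCompactSupport (by fun_prop) ?_
    exact hψs.comp_left (g := fun z : ℂ => ‖z‖ ^ 2) (by simp)
  have hexp : ∀ x : Fin N → E3, coul z x R * ‖up_prod f x‖ ^ 2 =
      (1 / 2 * ∑ i, ∑ j, 1 / ‖x i - x j‖ * ‖up_prod f x‖ ^ 2
        - z * ∑ i, ∑ j, 1 / ‖x i - R j‖ * ‖up_prod f x‖ ^ 2)
        + (z ^ 2 / 2 * ∑ i, ∑ j, 1 / ‖R i - R j‖) * ‖up_prod f x‖ ^ 2 := by
    intro x
    unfold coul
    simp only [Finset.mul_sum, Finset.sum_mul, add_mul, sub_mul]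
    congr 1
    congr 1
    · refine Finset.sum_congr rfl fun i _ => Finset.sum_congr rfl fun j _ => by ring
    · refine Finset.sum_congr rfl fun i _ => Finset.sum_congr rfl fun j _ => by ring
  simp_rw [hexp]
  have i1 : Integrable fun x : Fin N → E3 =>
      1 / 2 * ∑ i, ∑ j, 1 / ‖x i - x j‖ * ‖up_prod f x‖ ^ 2 :=
    (integrable_finsetSum _ fun i _ => integrable_finsetSum _ fun j _ => hee i j).const_mul _
  have i2 : Integrable fun x : Fin N → E3 =>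
      z * ∑ i, ∑ j, 1 / ‖x i - R j‖ * ‖up_prod f x‖ ^ 2 :=
    (integrable_finsetSum _ fun i _ => integrable_finsetSum _ fun j _ => hen i (R j)).const_mul _
  have hI : ∫ x : Fin N → E3, ((1 / 2 * ∑ i, ∑ j, 1 / ‖x i - x j‖ * ‖up_prod f x‖ ^ 2
        - z * ∑ i, ∑ j, 1 / ‖x i - R j‖ * ‖up_prod f x‖ ^ 2)
        + (z ^ 2 / 2 * ∑ i, ∑ j, 1 / ‖R i - R j‖) * ‖up_prod f x‖ ^ 2) =
      ((∫ x : Fin N → E3, 1 / 2 * ∑ i, ∑ j, 1 / ‖x i - x j‖ * ‖up_prod f x‖ ^ 2)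
        - (∫ x : Fin N → E3, z * ∑ i, ∑ j, 1 / ‖x i - R j‖ * ‖up_prod f x‖ ^ 2))
        + ∫ x : Fin N → E3, (z ^ 2 / 2 * ∑ i, ∑ j, 1 / ‖R i - R j‖) * ‖up_prod f x‖ ^ 2 := by
    rw [← integral_sub i1 i2]
    exact integral_add (i1.sub i2) (hnn.const_mul _)
  rw [hI, integral_const_mul,
    integral_const_mul, integral_const_mul, up_prod_norm_int f h1, mul_one,
    integral_finsetSum _ fun i _ => integrable_finsetSum _ fun j _ => hee i j,
    integral_finsetSum _ fun i _ => integrable_finsetSum _ fun j _ => hen i (R j)]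
  have e1 : ∑ i : Fin N, ∫ x : Fin N → E3, ∑ j, 1 / ‖x i - x j‖ * ‖up_prod f x‖ ^ 2 ≤
      (N : ℝ) ^ 2 * up_D f := by
    calc ∑ i : Fin N, ∫ x : Fin N → E3, ∑ j, 1 / ‖x i - x j‖ * ‖up_prod f x‖ ^ 2
        = ∑ i : Fin N, ∑ j : Fin N, ∫ x : Fin N → E3, 1 / ‖x i - x j‖ * ‖up_prod f x‖ ^ 2 := by
          refine Finset.sum_congr rfl fun i _ => ?_
          rw [integral_finsetSum _ fun j _ => hee i j]
      _ ≤ ∑ i : Fin N, ∑ j : Fin N, up_D f :=
          Finset.sum_le_sum fun i _ => Finset.sum_le_sum fun j _ => up_pair_le f hf hc h1 i j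
      _ = (N : ℝ) ^ 2 * up_D f := by
          simp only [Finset.sum_const, Finset.card_univ, Fintype.card_fin, nsmul_eq_mul]
          ring
  have e2 : ∑ i : Fin N, ∫ x : Fin N → E3, ∑ j, 1 / ‖x i - R j‖ * ‖up_prod f x‖ ^ 2 =
      (N : ℝ) * ∑ j, up_P f (R j) := by
    calc ∑ i : Fin N, ∫ x : Fin N → E3, ∑ j, 1 / ‖x i - R j‖ * ‖up_prod f x‖ ^ 2
        = ∑ i : Fin N, ∑ j, up_P f (R j) := by
          refine Finset.sum_congr rfl fun i _ => ?_
          rw [integral_finsetSum _ fun j _ => hen i (R j)]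
          refine Finset.sum_congr rfl fun j _ => ?_
          exact up_single_eq f hf hc h1 i (R j)
      _ = (N : ℝ) * ∑ j, up_P f (R j) := by
          simp only [Finset.sum_const, Finset.card_univ, Fintype.card_fin, nsmul_eq_mul]
  rw [e2]
  have e3 := e1
  nlinarith [e3]

/-! ### scaling of the energies -/

theorem up_D_sc (l : ℝ) (hl : 0 < l) (φ : E3 → ℂ) : up_D (up_sc l φ) = l * up_D φ := by
  unfold up_D
  simp_rw [up_sc_norm_sq l hl]
  have h1 : ∀ x : E3, ∫ y : E3, l ^ 3 * ‖φ (l • x)‖ ^ 2 * (l ^ 3 * ‖φ (l • y)‖ ^ 2) / ‖x - y‖ =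
      l ^ 4 * ∫ y, ‖φ (l • x)‖ ^ 2 * ‖φ y‖ ^ 2 / ‖l • x - y‖ := by
    intro x
    have h2 := up_integral_smul (fun y => ‖φ (l • x)‖ ^ 2 * ‖φ y‖ ^ 2 / ‖l • x - y‖) l hl
    have h3 : ∫ y, ‖φ (l • x)‖ ^ 2 * ‖φ y‖ ^ 2 / ‖l • x - y‖ =
        l ^ 3 * ∫ y, ‖φ (l • x)‖ ^ 2 * ‖φ (l • y)‖ ^ 2 / ‖l • x - l • y‖ := by
      rw [h2]; field_simp
    rw [h3, ← mul_assoc, ← integral_const_mul]
    refine integral_congr_ae (Filter.Eventually.of_forall fun y => ?_)
    simp only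
    rw [← smul_sub, norm_smul, Real.norm_of_nonneg hl.le]
    by_cases hxy : ‖x - y‖ = 0
    · simp [hxy]
    · field_simp
  simp_rw [h1]
  rw [integral_const_mul]
  have h4 := up_integral_smul (fun x => ∫ y, ‖φ x‖ ^ 2 * ‖φ y‖ ^ 2 / ‖x - y‖) l hl
  rw [h4]
  field_simp

theorem up_P_sc (l : ℝ) (hl : 0 < l) (φ : E3 → ℂ) (R : E3) :
    up_P (up_sc l φ) (l⁻¹ • R) = l * up_P φ R := by
  unfold up_P
  simp_rw [up_sc_norm_sq l hl]
  have h2 := up_integral_smul (fun x => ‖φ x‖ ^ 2 / ‖x - R‖) l hl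
  have h3 : ∫ x, ‖φ x‖ ^ 2 / ‖x - R‖ = l ^ 3 * ∫ x, ‖φ (l • x)‖ ^ 2 / ‖l • x - R‖ := by
    rw [h2]; field_simp
  rw [h3, ← mul_assoc, ← integral_const_mul]
  refine integral_congr_ae (Filter.Eventually.of_forall fun x => ?_)
  simp only
  have h4 : l • x - R = l • (x - l⁻¹ • R) := by
    rw [smul_sub, smul_inv_smul₀ hl.ne']
  rw [h4, norm_smul, Real.norm_of_nonneg hl.le]
  by_cases hxy : ‖x - l⁻¹ • R‖ = 0
  · simp [hxy]
  · field_simp

/-- the energy of the rescaled product state -/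
theorem up_energy {N K : ℕ} (z l : ℝ) (hl : 0 < l) (hNK : (N : ℝ) = K * z) (R' : Fin K → E3)
    (φ : E3 → ℂ) (hφ : ContDiff ℝ ((⊤ : ℕ∞) : WithTop ℕ∞) φ)
    (hc : HasCompactSupport φ) (h1 : ∫ x, ‖φ x‖ ^ 2 = 1) :
    form z (fun j => l⁻¹ • R' j) (up_prod (N := N) (up_sc l φ)) ≤
      N * (l ^ 2 * ∫ x, gsq φ x) + l * (z ^ 2 * Jb K (fun x => ‖φ x‖ ^ 2) R') := by
  refine (up_form z _ (up_sc l φ) (up_sc_smooth l φ hφ) (up_sc_compact l hl φ hc)
    (by rw [up_sc_integral_sq l hl]; exact h1)).trans (le_of_eq ?_)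
  rw [up_sc_integral_gsq l hl φ (hφ.differentiable (by simp)), up_D_sc l hl]
  simp_rw [up_P_sc l hl]
  have h2 : ∀ i j : Fin K, 1 / ‖l⁻¹ • R' i - l⁻¹ • R' j‖ = l * (1 / ‖R' i - R' j‖) := by
    intro i j
    rw [← smul_sub, norm_smul, norm_inv, Real.norm_of_nonneg hl.le]
    by_cases h : ‖R' i - R' j‖ = 0
    · simp [h]
    · field_simp
  simp_rw [h2, ← Finset.mul_sum]
  unfold Jb
  have h3 : ∑ j, up_P φ (R' j) = ∑ j, ∫ x, ‖φ x‖ ^ 2 / ‖x - R' j‖ := rfl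
  have h4 : up_D φ = ∫ x, ∫ y, ‖φ x‖ ^ 2 * ‖φ y‖ ^ 2 / ‖x - y‖ := rfl
  rw [← h3, ← h4, hNK]
  ring

end Pool.Agent.H5R2.NL
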