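import Mathlib
import Pool.Agent.H5R2.NL.Defs
import Pool.Agent.H5R2.NL.Int
import Pool.Agent.H5R2.NL.UpA
import Pool.Agent.H5R2.NL.UpB

/-!
# The upper bound from `jell_upper`
-/

set_option autoImplicit false

noncomputable section

namespace Pool.Agent.H5R2.NL

open MeasureTheory Metric
open scoped ENNReal

/-- a normalised bump function -/
theorem up_exists_state : ∃ u : E3 → ℂ, ContDiff ℝ ((⊤ : ℕ∞) : WithTop ℕ∞) u ∧
    HasCompactSupport u ∧ ∫ x, ‖u x‖ ^ 2 = 1 := by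
  let f : ContDiffBump (0 : E3) := ⟨1, 2, one_pos, one_lt_two⟩
  have hf : ContDiff ℝ ((⊤ : ℕ∞) : WithTop ℕ∞) f := f.contDiff
  have hc : HasCompactSupport f := f.hasCompactSupport
  have hpos : 0 < ∫ x, f x ^ 2 := by
    refine Continuous.integral_pos_of_hasCompactSupport_nonneg_nonzero (x := 0)
      (f.continuous.pow 2) ?_ (fun x => sq_nonneg _) ?_
    · exact hc.comp_left (g := fun t : ℝ => t ^ 2) (by simp)
    · rw [f.one_of_mem_closedBall (mem_closedBall_self f.rIn_pos.le)]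
      norm_num
  set I := ∫ x, f x ^ 2 with hI
  refine ⟨fun x => ((f x / Real.sqrt I : ℝ) : ℂ), ?_, ?_, ?_⟩
  · exact Complex.ofRealCLM.contDiff.comp (hf.div_const _)
  · exact hc.comp_left (g := fun t : ℝ => ((t / Real.sqrt I : ℝ) : ℂ)) (by simp)
  · have h1 : ∀ x, ‖((f x / Real.sqrt I : ℝ) : ℂ)‖ ^ 2 = I⁻¹ * f x ^ 2 := by
      intro x
      rw [Complex.norm_real, Real.norm_eq_abs, sq_abs, div_pow, Real.sq_sqrt hpos.le]
      ring
    simp_rw [h1]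
    rw [integral_const_mul, ← hI, inv_mul_cancel₀ hpos.ne']

theorem up_gsq_cont (u : E3 → ℂ) (hu : ContDiff ℝ ((⊤ : ℕ∞) : WithTop ℕ∞) u) :
    Continuous (gsq u) := by
  have h := hu.continuous_fderiv (by simp)
  unfold gsq
  fun_prop

theorem up_gsq_compact (u : E3 → ℂ) (hc : HasCompactSupport u) : HasCompactSupport (gsq u) := by
  have h := hc.fderiv (𝕜 := ℝ)
  exact h.comp_left (g := fun L : E3 →L[ℝ] ℂ =>
    ∑ c : Fin 3, ‖L (EuclideanSpace.single c (1 : ℝ))‖ ^ 2) (by simp)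

/-- the kinetic energy is positive -/
theorem up_T_pos (u : E3 → ℂ) (hu : ContDiff ℝ ((⊤ : ℕ∞) : WithTop ℕ∞) u)
    (hc : HasCompactSupport u) (h1 : ∫ x, ‖u x‖ ^ 2 = 1) : 0 < ∫ x, gsq u x := by
  by_cases h : ∃ x, gsq u x ≠ 0
  · obtain ⟨x, hx⟩ := h
    exact Continuous.integral_pos_of_hasCompactSupport_nonneg_nonzero (x := x)
      (up_gsq_cont u hu) (up_gsq_compact u hc)
      (fun x => Finset.sum_nonneg fun c _ => by positivity) hx
  · exfalso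
    push Not at h
    have hfd : ∀ x, fderiv ℝ u x = 0 := by
      intro x
      have h2 := h x
      unfold gsq at h2
      rw [Finset.sum_eq_zero_iff_of_nonneg (fun c _ => by positivity)] at h2
      have h3 : ∀ c : Fin 3, fderiv ℝ u x (EuclideanSpace.single c (1 : ℝ)) = 0 := by
        intro c
        have := h2 c (Finset.mem_univ c)
        simpa using this
      ext v
      have h4 : v = ∑ c : Fin 3, v c • EuclideanSpace.single c (1 : ℝ) := by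
        ext i
        simp [Pi.single_apply]
      rw [h4, map_sum]
      simp [h3]
    have hconst : ∀ x y, u x = u y := by
      intro x y
      exact is_const_of_fderiv_eq_zero (𝕜 := ℝ) (hu.differentiable (by simp)) hfd x y
    obtain ⟨x₀, hx₀⟩ : ∃ x₀, u x₀ = 0 := by
      by_contra hne
      push Not at hne
      have h5 : tsupport u = Set.univ := by
        rw [Set.eq_univ_iff_forall]
        intro x
        exact subset_tsupport u (hne x)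
      have h6 : IsCompact (Set.univ : Set E3) := h5 ▸ hc
      exact noncompact_univ E3 h6
    have h7 : ∀ x, u x = 0 := fun x => by rw [hconst x x₀, hx₀]
    simp [h7] at h1

/-- near-optimal profile -/
theorem up_opt (C δ : ℝ) (hC : 0 ≤ C) (hδ : 0 < δ) : ∃ φ : E3 → ℂ,
    ContDiff ℝ ((⊤ : ℕ∞) : WithTop ℕ∞) φ ∧ HasCompactSupport φ ∧ ∫ x, ‖φ x‖ ^ 2 = 1 ∧
    (∫ x, gsq φ x) - C * (∫ x, ‖φ x‖ ^ (8 / 3 : ℝ)) ≤ -(C ^ 2 * Gam / 4 - δ) := by
  have hne : {q | ∃ u : E3 → ℂ, ContDiff ℝ ((⊤ : ℕ∞) : WithTop ℕ∞) u ∧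
      HasCompactSupport u ∧ ∫ x, ‖u x‖ ^ 2 = 1 ∧
      q = (∫ x, ‖u x‖ ^ (8 / 3 : ℝ)) ^ 2 / (∫ x, gsq u x)}.Nonempty := by
    obtain ⟨u, h1, h2, h3⟩ := up_exists_state
    exact ⟨_, u, h1, h2, h3, rfl⟩
  have hδ' : 0 < 2 * δ / (C ^ 2 + 1) := by positivity
  obtain ⟨q, ⟨u, hu, hc, h1, hq⟩, hq'⟩ := exists_lt_of_lt_csSup hne
    (show Gam - 2 * δ / (C ^ 2 + 1) < Gam by linarith)
  have hT := up_T_pos u hu hc h1
  set T := ∫ x, gsq u x with hTdef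
  set X := ∫ x, ‖u x‖ ^ (8 / 3 : ℝ) with hXdef
  have hX : 0 ≤ X := integral_nonneg fun x => by positivity
  set t := Real.sqrt (δ / (2 * T)) with ht
  have htpos : 0 < t := Real.sqrt_pos.2 (by positivity)
  have ht2 : T * t ^ 2 = δ / 2 := by
    rw [ht, Real.sq_sqrt (by positivity)]
    field_simp
  set s := C * X / (2 * T) + t with hs
  have hspos : 0 < s := by positivity
  refine ⟨up_sc s u, up_sc_smooth s u hu, up_sc_compact s hspos u hc, ?_, ?_⟩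
  · rw [up_sc_integral_sq s hspos, h1]
  · rw [up_sc_integral_gsq s hspos u (hu.differentiable (by simp)), up_sc_integral_rpow s hspos,
      ← hTdef, ← hXdef]
    have h2 : s ^ 2 * T - C * (s * X) = T * t ^ 2 - C ^ 2 * q / 4 := by
      rw [hs, hq]
      field_simp
      ring
    rw [h2, ht2]
    have h3 : C ^ 2 * (2 * δ / (C ^ 2 + 1)) ≤ 2 * δ := by
      rw [mul_div_assoc', div_le_iff₀ (by positivity)]
      nlinarith [sq_nonneg C]
    have h4 : C ^ 2 * (Gam - 2 * δ / (C ^ 2 + 1)) ≤ C ^ 2 * q :=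
      mul_le_mul_of_nonneg_left hq'.le (sq_nonneg C)
    nlinarith

/-- the upper bound -/
theorem up_upper_of (hcs : 0 ≤ cstar)
    (hju : ∀ (g : E3 → ℝ), Continuous g → HasCompactSupport g → (∀ x, 0 ≤ g x) →
      ∫ x, g x = 1 → ∀ η : ℝ, 0 < η → ∃ K₀ : ℕ, ∀ K : ℕ, K₀ ≤ K →
        ∃ R : Fin K → E3, Function.Injective R ∧
          Jb K g R ≤ -(cstar * (∫ x, g x ^ (4 / 3 : ℝ)) - η) * (K : ℝ) ^ (4 / 3 : ℝ))
    (z δ : ℝ) (hz : 0 < z) (hδ : 0 < δ) : ∃ N₀ : ℕ, ∀ K N : ℕ, (N : ℝ) = K * z →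
    N₀ ≤ N → ∃ (R : Fin K → E3) (ψ : (Fin N → E3) → ℂ), Function.Injective R ∧ IsState ψ ∧
      form z R ψ ≤ -((z ^ (2 / 3 : ℝ) * cstar) ^ 2 * Gam / 4 - δ) * (N : ℝ) ^ (5 / 3 : ℝ) := by
  have hz23 : 0 < z ^ (2 / 3 : ℝ) := Real.rpow_pos_of_pos hz _
  obtain ⟨φ, hφ, hc, h1, hopt⟩ := up_opt (z ^ (2 / 3 : ℝ) * cstar) (δ / 2) (by positivity)
    (by positivity)
  have hφc : Continuous φ := hφ.continuous
  obtain ⟨K₀, hK₀⟩ := hju (fun x => ‖φ x‖ ^ 2) (by fun_prop)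
    (hc.comp_left (g := fun w : ℂ => ‖w‖ ^ 2) (by simp)) (fun x => by positivity) h1
    (δ / (2 * z ^ (2 / 3 : ℝ))) (by positivity)
  have hX : ∫ x, (‖φ x‖ ^ 2) ^ (4 / 3 : ℝ) = ∫ x, ‖φ x‖ ^ (8 / 3 : ℝ) := by
    refine integral_congr_ae (Filter.Eventually.of_forall fun x => ?_)
    simp only
    rw [← Real.rpow_natCast, ← Real.rpow_mul (norm_nonneg _)]
    norm_num
  rw [hX] at hK₀
  set T := ∫ x, gsq φ x with hTdef
  set X := ∫ x, ‖φ x‖ ^ (8 / 3 : ℝ) with hXdef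
  refine ⟨⌈(K₀ : ℝ) * z⌉₊ + 1, ?_⟩
  intro K N hNK hN
  have hN1 : (1 : ℝ) ≤ N := by
    have : 1 ≤ N := by omega
    exact_mod_cast this
  have hNpos : (0 : ℝ) < N := by linarith
  have hKK : K₀ ≤ K := by
    have h2 : (K₀ : ℝ) * z ≤ N := by
      have h3 : (K₀ : ℝ) * z ≤ (⌈(K₀ : ℝ) * z⌉₊ : ℝ) := Nat.le_ceil _
      have h4 : ((⌈(K₀ : ℝ) * z⌉₊ + 1 : ℕ) : ℝ) ≤ N := by exact_mod_cast hN
      push_cast at h4
      linarith
    rw [hNK] at h2
    have h5 : (K₀ : ℝ) ≤ K := le_of_mul_le_mul_right h2 hz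
    exact_mod_cast h5
  obtain ⟨R', hR', hJ⟩ := hK₀ K hKK
  set l := (N : ℝ) ^ (1 / 3 : ℝ) with hl
  have hlpos : 0 < l := Real.rpow_pos_of_pos hNpos _
  refine ⟨fun j => l⁻¹ • R' j, up_prod (up_sc l φ), ?_, ?_, ?_⟩
  · intro a b hab
    apply hR'
    exact smul_right_injective E3 (inv_ne_zero hlpos.ne') hab
  · exact up_prod_state _ (up_sc_smooth l φ hφ) (up_sc_compact l hlpos φ hc)
      (by rw [up_sc_integral_sq l hlpos]; exact h1)
  · refine (up_energy z l hlpos hNK R' φ hφ hc h1).trans ?_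
    rw [← hTdef]
    have e1 : (N : ℝ) * (l ^ 2 * T) = (N : ℝ) ^ (5 / 3 : ℝ) * T := by
      have : (N : ℝ) * l ^ 2 = (N : ℝ) ^ (5 / 3 : ℝ) := by
        rw [hl, ← Real.rpow_natCast, ← Real.rpow_mul hNpos.le]
        nth_rewrite 1 [← Real.rpow_one (N : ℝ)]
        rw [← Real.rpow_add hNpos]
        norm_num
      rw [← mul_assoc, this]
    have hKz : (K : ℝ) = N / z := by rw [hNK]; field_simp
    have e2 : l * (z ^ 2 * (K : ℝ) ^ (4 / 3 : ℝ)) = z ^ (2 / 3 : ℝ) * (N : ℝ) ^ (5 / 3 : ℝ) := by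
      rw [hKz, Real.div_rpow hNpos.le hz.le, hl]
      have e3 : (N : ℝ) ^ (5 / 3 : ℝ) = (N : ℝ) ^ (1 / 3 : ℝ) * (N : ℝ) ^ (4 / 3 : ℝ) := by
        rw [← Real.rpow_add hNpos]; norm_num
      have e4 : z ^ 2 = z ^ (2 / 3 : ℝ) * z ^ (4 / 3 : ℝ) := by
        rw [← Real.rpow_add hz, ← Real.rpow_natCast]; norm_num
      rw [e3, e4]
      have : z ^ (4 / 3 : ℝ) ≠ 0 := (Real.rpow_pos_of_pos hz _).ne'
      field_simp
    have hN53 : 0 < (N : ℝ) ^ (5 / 3 : ℝ) := Real.rpow_pos_of_pos hNpos _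
    calc (N : ℝ) * (l ^ 2 * T) + l * (z ^ 2 * Jb K (fun x => ‖φ x‖ ^ 2) R')
        ≤ (N : ℝ) * (l ^ 2 * T) + l * (z ^ 2 *
            (-(cstar * X - δ / (2 * z ^ (2 / 3 : ℝ))) * (K : ℝ) ^ (4 / 3 : ℝ))) := by
          gcongr
      _ = (N : ℝ) ^ (5 / 3 : ℝ) * T - (cstar * X - δ / (2 * z ^ (2 / 3 : ℝ))) *
            (l * (z ^ 2 * (K : ℝ) ^ (4 / 3 : ℝ))) := by
          rw [e1]; ring
      _ = (N : ℝ) ^ (5 / 3 : ℝ) * (T - z ^ (2 / 3 : ℝ) * cstar * X + δ / 2) := by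
          rw [e2]
          field_simp
          ring
      _ ≤ (N : ℝ) ^ (5 / 3 : ℝ) * (-((z ^ (2 / 3 : ℝ) * cstar) ^ 2 * Gam / 4 - δ)) := by
          apply mul_le_mul_of_nonneg_left _ hN53.le
          linarith
      _ = _ := by ring

end Pool.Agent.H5R2.NL
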