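import Mathlib
import Pool.Agent.H5R2.NL.UpC
import Pool.Agent.H5R2.NL.Law2
import Pool.Agent.H5R2.NL.JU

set_option autoImplicit false

noncomputable section

namespace Pool.Agent.H5R2.NL

open MeasureTheory Metric

theorem upper (z δ : ℝ) (hz : 0 < z) (hδ : 0 < δ) : ∃ N₀ : ℕ, ∀ K N : ℕ, (N : ℝ) = K * z →
    N₀ ≤ N → ∃ (R : Fin K → E3) (ψ : (Fin N → E3) → ℂ), Function.Injective R ∧ IsState ψ ∧
      form z R ψ ≤ -((z ^ (2 / 3 : ℝ) * cstar) ^ 2 * Gam / 4 - δ) * (N : ℝ) ^ (5 / 3 : ℝ) :=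
  up_upper_of cstar_nonneg jell_upper z δ hz hδ

end Pool.Agent.H5R2.NL
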