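import Mathlib
import Pool.Agent.H5R2.NL.Low
import Pool.Agent.H5R2.NL.Up

/-!
# The `N^{5/3}` law for bosonic Coulomb matter: the limit
-/

set_option autoImplicit false

noncomputable section

namespace Pool.Agent.H5R2.NL

open MeasureTheory Metric
open scoped ENNReal

theorem main_value (z : ℝ) (hz : 0 < z) (ε : ℝ) (hε : 0 < ε) : ∃ N₀ : ℕ, ∀ K N : ℕ,
    (N : ℝ) = K * z → N₀ ≤ N →
    (energies z K N).Nonempty ∧ BddBelow (energies z K N) ∧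
      |E0 z K N / (N : ℝ) ^ (5 / 3 : ℝ) - -((z ^ (2 / 3 : ℝ) * cstar) ^ 2 * Gam / 4)| < ε := by
  obtain ⟨N₁, h₁⟩ := upper z (ε / 2) hz (by positivity)
  obtain ⟨N₂, h₂⟩ := lower_main z (ε / 2) hz (by positivity)
  refine ⟨max (max N₁ N₂) 1, fun K N hKN hN => ?_⟩
  have hN1 : N₁ ≤ N := le_trans (le_trans (le_max_left _ _) (le_max_left _ _)) hN
  have hN2 : N₂ ≤ N := le_trans (le_trans (le_max_right _ _) (le_max_left _ _)) hN
  have hNpos : (0 : ℝ) < N := by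
    have : 1 ≤ N := le_trans (le_max_right _ _) hN
    exact_mod_cast this
  set Y : ℝ := (N : ℝ) ^ (5 / 3 : ℝ) with hY
  have hY0 : 0 < Y := by positivity
  set L : ℝ := (z ^ (2 / 3 : ℝ) * cstar) ^ 2 * Gam / 4 with hL
  obtain ⟨R, ψ, hR, hψ, hup⟩ := h₁ K N hKN hN1
  have hmem : form z R ψ ∈ energies z K N := ⟨R, hR, ψ, hψ, rfl⟩
  have hne : (energies z K N).Nonempty := ⟨_, hmem⟩
  have hlow : ∀ e ∈ energies z K N, -(L + ε / 2) * Y ≤ e := by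
    rintro e ⟨R', hR', ψ', hψ', rfl⟩
    exact h₂ K N hN2 R' ψ' hR' hψ'
  have hbd : BddBelow (energies z K N) := ⟨_, hlow⟩
  refine ⟨hne, hbd, ?_⟩
  have hle : E0 z K N ≤ -(L - ε / 2) * Y := (csInf_le hbd hmem).trans hup
  have hge : -(L + ε / 2) * Y ≤ E0 z K N := le_csInf hne hlow
  have a1 : E0 z K N / Y ≤ -(L - ε / 2) := by
    rw [div_le_iff₀ hY0]; exact hle
  have a2 : -(L + ε / 2) ≤ E0 z K N / Y := by
    rw [le_div_iff₀ hY0]; exact hge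
  rw [abs_lt]
  constructor <;> linarith

theorem main_limit (z : ℝ) (hz : 0 < z) : ∃ e : ℝ, ∀ ε : ℝ, 0 < ε → ∃ N₀ : ℕ, ∀ K N : ℕ,
    (N : ℝ) = K * z → N₀ ≤ N →
    (energies z K N).Nonempty ∧ BddBelow (energies z K N) ∧
      |E0 z K N / (N : ℝ) ^ (5 / 3 : ℝ) - e| < ε :=
  ⟨-((z ^ (2 / 3 : ℝ) * cstar) ^ 2 * Gam / 4), fun ε hε => main_value z hz ε hε⟩

end Pool.Agent.H5R2.NL
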