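import Mathlib
import Pool.Agent.H5R2.NL.H1Defs
import Pool.Agent.H5R2.NL.H1C
import Pool.Agent.H5R2.NL.H1D
import Pool.Agent.H5R2.NL.H1E
import Pool.Agent.H5R2.NL.Main

/-!
# The `N^{5/3}` law for bosonic Coulomb matter: the limit, with trial functions in `H¹`
-/

set_option autoImplicit false

noncomputable section

namespace Pool.Agent.H5R2.NL

open MeasureTheory Metric

theorem formH1_smooth {N K : ℕ} (z : ℝ) (R : Fin K → E3) (ψ : (Fin N → E3) → ℂ)
    (h : IsState ψ) :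
    formH1 z R ψ (fun i c x => fderiv ℝ ψ x (dir i c)) = form z R ψ := by
  have hs : ContDiff ℝ 1 ψ := h.smooth.of_le (by exact_mod_cast le_top)
  have h1 := isH1_of_smooth ψ h.smooth h.compact
  unfold formH1 form kin
  congr 1
  have hint : ∀ i c, Integrable (fun x => ‖fderiv ℝ ψ x (dir i c)‖ ^ 2) := fun i c =>
    (h1.memLp_grad i c).integrable_norm_pow (by norm_num)
  rw [integral_finsetSum _ (fun i _ => integrable_gradSq ψ hs h.compact i)]
  refine Finset.sum_congr rfl fun i _ => ?_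
  rw [← integral_finsetSum _ (fun c _ => hint i c)]
  refine integral_congr_ae (Filter.Eventually.of_forall fun x => ?_)
  exact (gradSq_dir ψ hs i x).symm

/-- The lower bound for all smooth compactly supported functions, normalised or not. -/
theorem lower_hom {N K : ℕ} (z m : ℝ) (R : Fin K → E3)
    (hm : ∀ ψ : (Fin N → E3) → ℂ, IsState ψ → m ≤ form z R ψ) (u : (Fin N → E3) → ℂ)
    (hu : ContDiff ℝ ((⊤ : ℕ∞) : WithTop ℕ∞) u) (hc : HasCompactSupport u) :
    m * (∫ x, ‖u x‖ ^ 2) ≤ (∫ x, ∑ i, gradSq u i x) + (∫ x, coul z x R * ‖u x‖ ^ 2) := by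
  have hint : Integrable (fun x => ‖u x‖ ^ 2) :=
    (isH1_of_smooth u hu hc).memLp.integrable_norm_pow (by norm_num)
  have hnn : 0 ≤ ∫ x, ‖u x‖ ^ 2 := integral_nonneg fun x => sq_nonneg _
  rcases eq_or_lt_of_le hnn with h0 | h0
  · -- u = 0
    have hz0 : (fun x => ‖u x‖ ^ 2) =ᵐ[volume] 0 :=
      (integral_eq_zero_iff_of_nonneg (fun x => sq_nonneg _) hint).mp h0.symm
    have hu0 : u = 0 := by
      have : (fun x => ‖u x‖ ^ 2) = 0 :=
        Continuous.ae_eq_iff_eq volume (by have := hu.continuous; fun_prop) continuous_zero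
          |>.mp hz0
      funext x
      have := congrFun this x
      simpa using this
    subst hu0
    have hg : ∀ i (x : Fin N → E3), gradSq (0 : (Fin N → E3) → ℂ) i x = 0 := by
      intro i x
      rw [gradSq_dir 0 (contDiff_const (c := (0 : ℂ))) i x]
      simp
    simp [hg]
  · set t : ℝ := Real.sqrt (∫ x, ‖u x‖ ^ 2) with ht
    have ht0 : 0 < t := Real.sqrt_pos.mpr h0
    have ht2 : t ^ 2 = ∫ x, ‖u x‖ ^ 2 := Real.sq_sqrt h0.le
    set v : (Fin N → E3) → ℂ := fun x => ((t⁻¹ : ℝ) : ℂ) * u x with hv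
    have hvs : ContDiff ℝ ((⊤ : ℕ∞) : WithTop ℕ∞) v := contDiff_const.mul hu
    have hvc : HasCompactSupport v := hc.mul_left
    have hnv : ∀ x, ‖v x‖ ^ 2 = t⁻¹ ^ 2 * ‖u x‖ ^ 2 := by
      intro x
      rw [hv]
      simp only [norm_mul, Complex.norm_real, Real.norm_eq_abs, mul_pow, sq_abs]
    have hv1 : IsState v := by
      refine ⟨hvs, hvc, ?_⟩
      simp_rw [hnv]
      rw [integral_const_mul, ← ht2]
      field_simp
    have hus : ContDiff ℝ 1 u := hu.of_le (by exact_mod_cast le_top)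
    have hvs1 : ContDiff ℝ 1 v := hvs.of_le (by exact_mod_cast le_top)
    have hg : ∀ i x, gradSq v i x = t⁻¹ ^ 2 * gradSq u i x := by
      intro i x
      rw [gradSq_dir v hvs1 i x, gradSq_dir u hus i x, Finset.mul_sum]
      refine Finset.sum_congr rfl fun c _ => ?_
      have hd : fderiv ℝ v x = ((t⁻¹ : ℝ) : ℂ) • fderiv ℝ u x := by
        rw [hv]
        exact fderiv_const_mul (hus.differentiable one_ne_zero x) _
      rw [hd]
      simp only [smul_apply, smul_eq_mul, norm_mul, Complex.norm_real,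
        Real.norm_eq_abs, mul_pow, sq_abs]
    have hf := hm v hv1
    unfold form kin at hf
    simp_rw [hg, hnv, ← Finset.mul_sum] at hf
    rw [integral_const_mul] at hf
    have e2 : (∫ x, coul z x R * (t⁻¹ ^ 2 * ‖u x‖ ^ 2)) =
        t⁻¹ ^ 2 * (∫ x, coul z x R * ‖u x‖ ^ 2) := by
      rw [← integral_const_mul]
      congr 1
      funext x
      ring
    rw [e2, ← mul_add] at hf
    rw [← ht2]
    have : t ^ 2 * (t⁻¹ ^ 2 * ((∫ x, ∑ i, gradSq u i x) +
        (∫ x, coul z x R * ‖u x‖ ^ 2))) = (∫ x, ∑ i, gradSq u i x) +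
        (∫ x, coul z x R * ‖u x‖ ^ 2) := by
      field_simp
    rw [← this]
    have h2 : 0 ≤ t ^ 2 := by positivity
    nlinarith [mul_le_mul_of_nonneg_left hf h2]

theorem main_H1 (z : ℝ) (hz : 0 < z) (ε : ℝ) (hε : 0 < ε) : ∃ N₀ : ℕ, ∀ K N : ℕ,
    (N : ℝ) = K * z → N₀ ≤ N →
    (energiesH1 z K N).Nonempty ∧ BddBelow (energiesH1 z K N) ∧
      |E0H1 z K N / (N : ℝ) ^ (5 / 3 : ℝ) - -((z ^ (2 / 3 : ℝ) * cstar) ^ 2 * Gam / 4)| < ε := by
  obtain ⟨N₁, h₁⟩ := upper z (ε / 2) hz (by positivity)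
  obtain ⟨N₂, h₂⟩ := lower_main z (ε / 2) hz (by positivity)
  refine ⟨max (max N₁ N₂) 1, fun K N hKN hN => ?_⟩
  have hN1 : N₁ ≤ N := le_trans (le_trans (le_max_left _ _) (le_max_left _ _)) hN
  have hN2 : N₂ ≤ N := le_trans (le_trans (le_max_right _ _) (le_max_left _ _)) hN
  have hNpos : (0 : ℝ) < N := by
    have : 1 ≤ N := le_trans (le_max_right _ _) hN
    exact_mod_cast this
  set Y : ℝ := (N : ℝ) ^ (5 / 3 : ℝ) with hY
  have hY0 : 0 < Y := by positivity
  set L : ℝ := (z ^ (2 / 3 : ℝ) * cstar) ^ 2 * Gam / 4 with hL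
  obtain ⟨R, ψ, hR, hψ, hup⟩ := h₁ K N hKN hN1
  have hmem : form z R ψ ∈ energiesH1 z K N :=
    ⟨R, hR, ψ, fun i c x => fderiv ℝ ψ x (dir i c), isH1_of_smooth ψ hψ.smooth hψ.compact,
      hψ.normalized, formH1_smooth z R ψ hψ⟩
  have hne : (energiesH1 z K N).Nonempty := ⟨_, hmem⟩
  have hlow : ∀ e ∈ energiesH1 z K N, -(L + ε / 2) * Y ≤ e := by
    rintro e ⟨R', hR', ψ', g', hH, hnorm, rfl⟩
    have hb := (h1_form z (-(L + ε / 2) * Y) R' ψ' g' hH
      (fun u hu hc => lower_hom z (-(L + ε / 2) * Y) R'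
        (fun φ hφ => h₂ K N hN2 R' φ hR' hφ) u hu hc)).2
    rw [hnorm, mul_one] at hb
    exact hb
  have hbd : BddBelow (energiesH1 z K N) := ⟨_, hlow⟩
  refine ⟨hne, hbd, ?_⟩
  have hle : E0H1 z K N ≤ -(L - ε / 2) * Y := (csInf_le hbd hmem).trans hup
  have hge : -(L + ε / 2) * Y ≤ E0H1 z K N := le_csInf hne hlow
  have a1 : E0H1 z K N / Y ≤ -(L - ε / 2) := by
    rw [div_le_iff₀ hY0]; exact hle
  have a2 : -(L + ε / 2) ≤ E0H1 z K N / Y := by
    rw [le_div_iff₀ hY0]; exact hge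
  rw [abs_lt]
  constructor <;> linarith

end Pool.Agent.H5R2.NL
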