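import Mathlib
import Pool.Agent.H5R2.NL.Defs
import Pool.Agent.H5R2.NL.H1Defs

/-!
# Trial functions in `H¹(ℝ^{3N})`: blueprint (all statements)
-/

set_option autoImplicit false

noncomputable section

namespace Pool.Agent.H5R2.NL

open MeasureTheory Metric
open scoped ENNReal

/-! ## H1A : mollification (`H1A.lean`) -/

theorem h1_smooth_approx {N : ℕ} (ψ : (Fin N → E3) → ℂ)
    (g : Fin N → Fin 3 → (Fin N → E3) → ℂ) (h : IsH1 ψ g) (ε : ℝ) (hε : 0 < ε) :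
    ∃ u : (Fin N → E3) → ℂ, ContDiff ℝ ((⊤ : ℕ∞) : WithTop ℕ∞) u ∧ MemLp u 2 ∧
      (∀ i c, MemLp (fun x => fderiv ℝ u x (dir i c)) 2) ∧
      (∫ x, ‖ψ x - u x‖ ^ 2) ≤ ε ∧
      ∀ i c, (∫ x, ‖g i c x - fderiv ℝ u x (dir i c)‖ ^ 2) ≤ ε := by sorry

/-! ## H1B : cut-off (`H1B.lean`) -/

theorem h1_cut_approx {N : ℕ} (u : (Fin N → E3) → ℂ)
    (hu : ContDiff ℝ ((⊤ : ℕ∞) : WithTop ℕ∞) u) (h2 : MemLp u 2)
    (hg : ∀ i c, MemLp (fun x => fderiv ℝ u x (dir i c)) 2) (ε : ℝ) (hε : 0 < ε) :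
    ∃ v : (Fin N → E3) → ℂ, ContDiff ℝ ((⊤ : ℕ∞) : WithTop ℕ∞) v ∧ HasCompactSupport v ∧
      (∫ x, ‖u x - v x‖ ^ 2) ≤ ε ∧
      ∀ i c, (∫ x, ‖fderiv ℝ u x (dir i c) - fderiv ℝ v x (dir i c)‖ ^ 2) ≤ ε := by sorry

/-! ## H1C : the Hardy inequality for `N` particles and small lemmas (`H1C.lean`) -/

theorem hardy_en {N : ℕ} (u : (Fin N → E3) → ℂ) (hu : ContDiff ℝ 1 u)
    (hc : HasCompactSupport u) (i : Fin N) (R : E3) :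
    Integrable (fun x => ‖u x‖ ^ 2 / ‖x i - R‖ ^ 2) ∧
      (∫ x, ‖u x‖ ^ 2 / ‖x i - R‖ ^ 2) ≤ 4 * ∫ x, gradSq u i x := by sorry

theorem hardy_ee {N : ℕ} (u : (Fin N → E3) → ℂ) (hu : ContDiff ℝ 1 u)
    (hc : HasCompactSupport u) (i j : Fin N) (hij : i ≠ j) :
    Integrable (fun x => ‖u x‖ ^ 2 / ‖x i - x j‖ ^ 2) ∧
      (∫ x, ‖u x‖ ^ 2 / ‖x i - x j‖ ^ 2) ≤ 4 * ∫ x, gradSq u i x := by sorry

/-- a smooth compactly supported function is in `H¹`, with its classical derivatives -/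
theorem isH1_of_smooth {N : ℕ} (u : (Fin N → E3) → ℂ)
    (hu : ContDiff ℝ ((⊤ : ℕ∞) : WithTop ℕ∞) u) (hc : HasCompactSupport u) :
    IsH1 u (fun i c x => fderiv ℝ u x (dir i c)) := by sorry

theorem gradSq_dir {N : ℕ} (u : (Fin N → E3) → ℂ) (hu : ContDiff ℝ 1 u) (i : Fin N)
    (x : Fin N → E3) : gradSq u i x = ∑ c, ‖fderiv ℝ u x (dir i c)‖ ^ 2 := by sorry

/-! ## H1D : extension of the lower bound to `H¹` (`H1D.lean`; uses H1A, H1B, H1C) -/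

theorem h1_form {N K : ℕ} (z m : ℝ) (R : Fin K → E3) (ψ : (Fin N → E3) → ℂ)
    (g : Fin N → Fin 3 → (Fin N → E3) → ℂ) (h : IsH1 ψ g)
    (hm : ∀ u : (Fin N → E3) → ℂ, ContDiff ℝ ((⊤ : ℕ∞) : WithTop ℕ∞) u →
      HasCompactSupport u → m * (∫ x, ‖u x‖ ^ 2) ≤
        (∫ x, ∑ i, gradSq u i x) + (∫ x, coul z x R * ‖u x‖ ^ 2)) :
    Integrable (fun x => coul z x R * ‖ψ x‖ ^ 2) ∧
      m * (∫ x, ‖ψ x‖ ^ 2) ≤ formH1 z R ψ g := by sorry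

end Pool.Agent.H5R2.NL
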