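import Mathlib
import Pool.Agent.H5R2.NL.Defs

/-!
# The `N^{5/3}` law for bosonic Coulomb matter: blueprint (all statements)
-/

set_option autoImplicit false

noncomputable section

namespace Pool.Agent.H5R2.NL

open MeasureTheory Metric
open scoped ENNReal

/-! ## INT : basic integrals (`Int.lean`) -/

theorem int_inv (y : E3) (ρ : ℝ) (hρ : 0 ≤ ρ) :
    ∫ x in ball y ρ, 1 / ‖x - y‖ = 2 * Real.pi * ρ ^ 2 := by sorry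

theorem int_inv_sq (y : E3) (ρ : ℝ) (hρ : 0 ≤ ρ) :
    ∫ x in ball y ρ, 1 / ‖x - y‖ ^ 2 = 4 * Real.pi * ρ := by sorry

theorem integrableOn_inv (y c : E3) (ρ : ℝ) :
    IntegrableOn (fun x => 1 / ‖x - y‖) (ball c ρ) := by sorry

theorem integrableOn_inv_sq (y c : E3) (ρ : ℝ) :
    IntegrableOn (fun x => 1 / ‖x - y‖ ^ 2) (ball c ρ) := by sorry

theorem distinct_ae {ι κ : Type} [Fintype ι] [Fintype κ] (R : κ → E3) :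
    ∀ᵐ x : ι → E3, Function.Injective x ∧ ∀ i j, x i ≠ R j := by sorry

theorem integrableOn_ee {ι : Type} [Fintype ι] (w : E3) (r : ℝ) (u : (ι → E3) → ℂ)
    (hu : Continuous u) (i j : ι) :
    IntegrableOn (fun x => 1 / ‖x i - x j‖ * ‖u x‖ ^ 2) (PB ι w r) := by sorry

theorem integrableOn_en {ι : Type} [Fintype ι] (w : E3) (r : ℝ) (u : (ι → E3) → ℂ)
    (hu : Continuous u) (i : ι) (R : E3) :
    IntegrableOn (fun x => 1 / ‖x i - R‖ * ‖u x‖ ^ 2) (PB ι w r) := by sorry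

theorem integrable_ee {ι : Type} [Fintype ι] (ψ : (ι → E3) → ℂ) (hψ : Continuous ψ)
    (hc : HasCompactSupport ψ) (i j : ι) :
    Integrable (fun x => 1 / ‖x i - x j‖ * ‖ψ x‖ ^ 2) := by sorry

theorem integrable_en {ι : Type} [Fintype ι] (ψ : (ι → E3) → ℂ) (hψ : Continuous ψ)
    (hc : HasCompactSupport ψ) (i : ι) (R : E3) :
    Integrable (fun x => 1 / ‖x i - R‖ * ‖ψ x‖ ^ 2) := by sorry

theorem continuous_gradSq {ι : Type} [Fintype ι] [DecidableEq ι] (u : (ι → E3) → ℂ)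
    (hu : ContDiff ℝ 1 u) (i : ι) : Continuous (gradSq u i) := by sorry

theorem integrable_gradSq {ι : Type} [Fintype ι] [DecidableEq ι] (u : (ι → E3) → ℂ)
    (hu : ContDiff ℝ 1 u) (hc : HasCompactSupport u) (i : ι) : Integrable (gradSq u i) := by
  sorry

/-! ## KERN : the kernels (`Kern.lean`) -/

theorem lens (r : ℝ) (hr : 0 < r) (x y : E3) :
    ∫ w, inB w r x * inB w r y =
      if ‖x - y‖ < 2 * r then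
        Real.pi / 12 * (4 * r + ‖x - y‖) * (2 * r - ‖x - y‖) ^ 2 else 0 := by sorry

theorem bm_lint (ℓ : ℝ) (f : ℝ × E3 → ℝ≥0∞) (hf : Measurable f) :
    ∫⁻ b, f b ∂bm ℓ = ∫⁻ r in Set.Ioc 0 ℓ,
      ENNReal.ofReal (3 / (2 * Real.pi * ℓ ^ 2) / r ^ 2) * ∫⁻ w, f (r, w) := by sorry

theorem bm_one (ℓ c : ℝ) (hℓ : 0 < ℓ) (hc : 0 < c) (φ : ℝ → ℝ≥0∞) (hφ : Measurable φ)
    (x : E3) :
    ∫⁻ b, φ b.1 * ENNReal.ofReal (inB b.2 (c * b.1) x) ∂bm ℓ =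
      ENNReal.ofReal (c ^ 3) * ∫⁻ r in Set.Ioc 0 ℓ, φ r * ENNReal.ofReal (2 * r / ℓ ^ 2) := by
  sorry

theorem bm_pair_int (ℓ : ℝ) (hℓ : 0 < ℓ) (x y : E3) :
    Integrable (fun b : ℝ × E3 => inB b.2 b.1 x * inB b.2 b.1 y) (bm ℓ) := by sorry

theorem bm_pair (ℓ : ℝ) (hℓ : 0 < ℓ) (x y : E3) :
    ∫ b : ℝ × E3, inB b.2 b.1 x * inB b.2 b.1 y ∂bm ℓ = hker ℓ ‖x - y‖ := by sorry

theorem fm_pair_int (ℓ : ℝ) (hℓ : 0 < ℓ) (x y : E3) :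
    Integrable (fun b : ℝ × E3 => inB b.2 b.1 x * inB b.2 b.1 y) (fm ℓ) := by sorry

theorem fm_pair (ℓ : ℝ) (hℓ : 0 < ℓ) (x y : E3) :
    ∫ b : ℝ × E3, inB b.2 b.1 x * inB b.2 b.1 y ∂fm ℓ = Fk ℓ ‖x - y‖ := by sorry

/-! ## GS : the localisation inequality (`GS.lean`) -/

theorem pd_points {κ : Type} [Fintype κ] (ℓ : ℝ) (hℓ : 0 < ℓ) (R : κ → E3) (I : E3 → ℝ)
    (hI : Nice I) :
    0 ≤ 1 / 2 * ∑ i, ∑ j, Fk ℓ ‖R i - R j‖ - (∑ j, ∫ y, I y * Fk ℓ ‖R j - y‖)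
      + 1 / 2 * (∫ x, ∫ y, I x * I y * Fk ℓ ‖x - y‖) := by sorry

theorem coulB_int {ι κ : Type} [Fintype ι] [Fintype κ] (z ℓ : ℝ) (hℓ : 0 < ℓ) (x : ι → E3)
    (R : κ → E3) : Integrable (fun b : ℝ × E3 => coulB z x R b.2 b.1) (bm ℓ) := by sorry

theorem gs_balls {ι κ : Type} [Fintype ι] [Fintype κ] (z ℓ : ℝ) (hz : 0 ≤ z) (hℓ : 0 < ℓ)
    (x : ι → E3) (R : κ → E3) (hx : Function.Injective x) (hR : Function.Injective R)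
    (hxR : ∀ i j, x i ≠ R j) :
    (∫ b : ℝ × E3, coulB z x R b.2 b.1 ∂bm ℓ) - 3 / 4 * (2 * z + 1) * Fintype.card ι / ℓ ≤
      coul z x R := by sorry

/-! ## PUSH : attraction in a ball (`Push.lean`) -/

theorem push (c R : E3) (r : ℝ) (hr : 0 < r) (v : E3 → ℂ) (hv : ContDiff ℝ 1 v) :
    ∫ x in ball c r, ‖v x‖ ^ 2 / ‖x - R‖ ≤
      3 / (2 * r) * (∫ x in ball c r, ‖v x‖ ^ 2)
        + 2 * (∫ x in ball c r, ‖v x‖ * Real.sqrt (gsq v x)) := by sorry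

/-! ## CUT : cutoff and Hardy inequality (`Cut.lean`) -/

theorem cutoff : ∃ C : ℝ, 0 < C ∧ ∀ (w : E3) (r : ℝ), 0 < r → ∃ χ : E3 → ℝ,
    ContDiff ℝ ((⊤ : ℕ∞) : WithTop ℕ∞) χ ∧ (∀ x, 0 ≤ χ x) ∧ (∀ x, χ x ≤ 1) ∧
    (∀ x, ‖x - w‖ ≤ r → χ x = 1) ∧ (∀ x, 2 * r ≤ ‖x - w‖ → χ x = 0) ∧
    ∀ x, ‖fderiv ℝ χ x‖ ≤ C / r := by sorry

theorem hardy (y : E3) (u : E3 → ℂ) (hu : ContDiff ℝ 1 u) (hc : HasCompactSupport u) :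
    Integrable (fun x => ‖u x‖ ^ 2 / ‖x - y‖ ^ 2) ∧
      ∫ x, ‖u x‖ ^ 2 / ‖x - y‖ ^ 2 ≤ 4 * ∫ x, gsq u x := by sorry

theorem hardy_local : ∃ C : ℝ, 0 < C ∧ ∀ (w y : E3) (r : ℝ) (u : E3 → ℂ), 0 < r →
    ContDiff ℝ 1 u → ∫ x in ball w r, ‖u x‖ ^ 2 / ‖x - y‖ ^ 2 ≤
      8 * (∫ x in ball w (2 * r), gsq u x) +
        C / r ^ 2 * (∫ x in ball w (2 * r), ‖u x‖ ^ 2) := by sorry

/-! ## POINA : Poincaré inequality on a ball (`PoinA.lean`) -/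

theorem poincare_ball : ∃ C : ℝ, 0 < C ∧ ∀ (w : E3) (r : ℝ) (u : E3 → ℂ), 0 < r →
    ContDiff ℝ 1 u → ∫ x in ball w r, ‖u x - ⨍ y in ball w r, u y‖ ^ 2 ≤
      C * r ^ 2 * ∫ x in ball w r, gsq u x := by sorry

/-! ## POIN : Efron-Stein and Poincaré inequality on products of balls (`Poin.lean`) -/

theorem efron_stein {ι : Type} [Fintype ι] [DecidableEq ι] (μ : Measure E3)
    [IsProbabilityMeasure μ] (u : (ι → E3) → ℂ) (hu : Measurable u)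
    (hb : ∃ B, ∀ x, ‖u x‖ ≤ B) :
    ∫ x, ‖u x - ∫ y, u y ∂(Measure.pi fun _ : ι => μ)‖ ^ 2 ∂(Measure.pi fun _ : ι => μ) ≤
      ∑ i, ∫ x, ‖u x - ∫ t, u (Function.update x i t) ∂μ‖ ^ 2 ∂(Measure.pi fun _ : ι => μ) := by
  sorry

theorem poincare : ∃ C : ℝ, 0 < C ∧ ∀ (ι : Type) [Fintype ι] [DecidableEq ι] (w : E3) (r : ℝ)
    (u : (ι → E3) → ℂ), 0 < r → ContDiff ℝ 1 u →
    ∫ x in PB ι w r, ‖u x - ⨍ y in PB ι w r, u y‖ ^ 2 ≤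
      C * r ^ 2 * ∑ i, ∫ x in PB ι w r, gradSq u i x := by sorry

/-! ## GAP : few electrons in a small ball (`Gap.lean`) -/

theorem gap (z : ℝ) (hz : 0 < z) : ∃ C c₀ : ℝ, 0 < C ∧ 0 < c₀ ∧
    ∀ (ι κ : Type) [Fintype ι] [DecidableEq ι] [Fintype κ] (R : κ → E3) (w : E3)
      (r ε A : ℝ) (u : (ι → E3) → ℂ), 0 < r → 0 < ε → ε ≤ 1 → 0 ≤ A →
      Function.Injective R → (∀ j, R j ∈ ball w r) →
      r * (Fintype.card ι : ℝ) ^ 2 ≤ c₀ * ε → -A ≤ Wj z (Fintype.card ι) R w r →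
      ContDiff ℝ 1 u →
      -(A + C * (Fintype.card ι : ℝ) ^ 4 / ε + C * (Fintype.card ι : ℝ) / r) *
          (∫ x in PB ι w r, ‖u x‖ ^ 2) ≤
        ε * (∑ i, ∫ x in PB ι w r, gradSq u i x) +
          (∫ x in PB ι w r, coul z x R * ‖u x‖ ^ 2) := by sorry

/-! ## CRUDE : many electrons in a ball (`Crude.lean`) -/

theorem crude (z : ℝ) (hz : 0 < z) : ∃ C c₀ : ℝ, 0 < C ∧ 0 < c₀ ∧
    ∀ (ι κ : Type) [Fintype ι] [DecidableEq ι] [Fintype κ] (R : κ → E3) (w : E3)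
      (r s ε : ℝ) (u : (ι → E3) → ℂ), 0 < s → s ≤ r → 0 < ε → ε ≤ 1 →
      Function.Injective R → (∀ j, R j ∈ ball w r) →
      (Fintype.card ι : ℝ) * s ≤ c₀ * ε → ContDiff ℝ 1 u →
      -(C / s) * (∫ x in PB ι w r, ((Fintype.card ι : ℝ) + prs (4 * s) x) * ‖u x‖ ^ 2) ≤
        ε * (∑ i, ∫ x in PB ι w r, gradSq u i x) +
          (∫ x in PB ι w r, coul z x R * ‖u x‖ ^ 2) := by sorry

/-! ## SOB : Sobolev type inequalities (`Sob.lean`) -/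

theorem gam_bdd : BddAbove {q | ∃ u : E3 → ℂ, ContDiff ℝ ((⊤ : ℕ∞) : WithTop ℕ∞) u ∧
    HasCompactSupport u ∧ ∫ x, ‖u x‖ ^ 2 = 1 ∧
    q = (∫ x, ‖u x‖ ^ (8 / 3 : ℝ)) ^ 2 / (∫ x, gsq u x)} := by sorry

theorem one_body (U : E3 → ℝ) (hU0 : ∀ x, 0 ≤ U x) (hUm : Measurable U)
    (hUb : ∃ B, ∀ x, U x ≤ B) (hU4 : Integrable fun x => U x ^ 4) (u : E3 → ℂ)
    (hu : ContDiff ℝ ((⊤ : ℕ∞) : WithTop ℕ∞) u) (hc : HasCompactSupport u) :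
    -(5 / 3 * (3 / 8 : ℝ) ^ (8 / 5 : ℝ) * Gam ^ (3 / 5 : ℝ) *
        (∫ x, U x ^ 4) ^ (2 / 5 : ℝ)) * (∫ x, ‖u x‖ ^ 2) ≤
      (∫ x, gsq u x) - (∫ x, U x * ‖u x‖ ^ 2) := by sorry

theorem sob_dual : ∃ C : ℝ, 0 < C ∧ ∀ (W : E3 → ℝ) (u : E3 → ℂ), (∀ x, 0 ≤ W x) →
    Measurable W → (∃ B, ∀ x, W x ≤ B) → (Integrable fun x => W x ^ (3 / 2 : ℝ)) →
    ContDiff ℝ 1 u → HasCompactSupport u →
    ∫ x, W x * ‖u x‖ ^ 2 ≤ C * (∫ x, W x ^ (3 / 2 : ℝ)) ^ (2 / 3 : ℝ) * (∫ x, gsq u x) := by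
  sorry

/-! ## MOM : moments of the number of particles in balls (`Mom.lean`) -/

theorem sum_five_thirds : ∃ C : ℝ, 0 < C ∧ ∀ (N : ℕ) (ψ : (Fin N → E3) → ℂ) (r : ℝ),
    IsState ψ → 0 < r →
    ∫⁻ x, ∫⁻ w, ENNReal.ofReal (nB w r x ^ (5 / 3 : ℝ) * ‖ψ x‖ ^ 2) ≤
      ENNReal.ofReal (C * r ^ 3 * (N + (N : ℝ) ^ (2 / 3 : ℝ) * r ^ 2 * kin ψ)) := by sorry

/-- The error of the balls with more than `n₀` particles. -/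
def badQ {N : ℕ} (n₀ : ℝ) (w : E3) (r : ℝ) (x : Fin N → E3) : ℝ :=
  if n₀ < nB w r x then
    Real.sqrt (nB w r x) / r * (nB w r x + prsB w r (4 * r / Real.sqrt (nB w r x)) x)
  else 0

theorem bad_bound : ∃ C : ℝ, 0 < C ∧ ∀ (N : ℕ) (ψ : (Fin N → E3) → ℂ) (ℓ n₀ : ℝ),
    IsState ψ → 0 < ℓ → 1 ≤ n₀ →
    ∫⁻ x, ∫⁻ b : ℝ × E3, ENNReal.ofReal (badQ n₀ b.2 b.1 x * ‖ψ x‖ ^ 2) ∂bm ℓ ≤
      ENNReal.ofReal (C * (n₀ ^ (-(1 / 6) : ℝ) * (N / ℓ + (N : ℝ) ^ (2 / 3 : ℝ) * ℓ * kin ψ)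
        + Real.sqrt N * ℓ * kin ψ)) := by sorry

/-! ## SAMP : the sampling inequality (`Samp.lean`) -/

theorem sampling (A δ : ℝ) (hA : 0 ≤ A) (hδ : 0 < δ) : ∃ C : ℝ, 0 < C ∧
    ∀ (N : ℕ) (ψ : (Fin N → E3) → ℂ) (r : ℝ), IsState ψ → 0 < r →
    -(A ^ 2 * Gam / 4 + δ) * (N : ℝ) ^ (5 / 3 : ℝ) - C * N / r ≤
      kin ψ - A * (∫ x, (∫ w, (nB w r x / volume.real (ball (0 : E3) r)) ^ (4 / 3 : ℝ)) *
        ‖ψ x‖ ^ 2) := by sorry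

/-! ## LOC : decomposition by the set of particles in the ball (`Loc.lean`) -/

theorem loc {N K : ℕ} (z ε : ℝ) (R : Fin K → E3) (w : E3) (r : ℝ) (hr : 0 < r)
    (hε : 0 ≤ ε) (ψ : (Fin N → E3) → ℂ) (hψ : ContDiff ℝ 1 ψ) (hc : HasCompactSupport ψ)
    (Q : (Fin N → E3) → ℝ) (hQm : Measurable Q) (hQb : ∃ B, ∀ x, |Q x| ≤ B)
    (h : ∀ (S : Finset (Fin N)) (x' : Fin N → E3) (u : (↥S → E3) → ℂ),
      (∀ i, i ∉ S → x' i ∉ ball w r) → ContDiff ℝ 1 u →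
      0 ≤ ε * (∑ i, ∫ y in PB ↥S w r, gradSq u i y) +
        (∫ y in PB ↥S w r, (coul z y (fun j : {j : Fin K // R j ∈ ball w r} => R j.1)
          + Q (glue S y x')) * ‖u y‖ ^ 2)) :
    0 ≤ ε * (∫ x, ∑ i, inB w r (x i) * gradSq ψ i x) +
      (∫ x, (coulB z x R w r + Q x) * ‖ψ x‖ ^ 2) := by sorry

/-! ## LAW1 : calculus of laws (`Law1.lean`) -/

theorem hasLaw_add (I₁ I₂ : E3 → ℝ) (e₁ e₂ v₁ v₂ : ℝ) (h₁ : Nice I₁) (h₂ : Nice I₂)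
    (l₁ : HasLaw I₁ e₁ v₁) (l₂ : HasLaw I₂ e₂ v₂) :
    HasLaw (fun x => I₁ x + I₂ x) (e₁ + e₂) (v₁ + v₂) := by sorry

theorem hasLaw_iid (I : E3 → ℝ) (h : Nice I) : HasLaw I 0 1 := by sorry

theorem hasLaw_scale (I : E3 → ℝ) (h : Nice I) (e v lam : ℝ) (c : E3) (hl : 0 < lam)
    (l : HasLaw I e v) :
    HasLaw (fun x => (lam ^ 3)⁻¹ * I (lam⁻¹ • (x - c))) (e / lam) v := by sorry

theorem hasLaw_lower : ∃ C : ℝ, 0 < C ∧ ∀ (I : E3 → ℝ) (ν e v : ℝ), Nice I → 0 < ν →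
    (∀ x, I x ≤ ν) → HasLaw I e v → -(C * ν ^ (1 / 3 : ℝ) * ∫ x, I x) ≤ e := by sorry

/-! ## LAW2 : the jellium constant (`Law2.lean`) -/

theorem cstar_bdd :
    BddAbove {s | ∃ b : ℝ, 0 < b ∧ ∃ v, HasLaw (cubeI 0 b 1) (-(s * b ^ 3)) v} := by sorry

theorem cstar_nonneg : 0 ≤ cstar := by sorry

/-- near optimal laws in all large cubes -/
theorem cube_law (η : ℝ) (hη : 0 < η) : ∃ L V : ℝ, 0 < L ∧ 0 < V ∧
    ∀ (c : E3) (b ν : ℝ), 0 < b → 0 < ν → L ≤ b * ν ^ (1 / 3 : ℝ) →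
      HasLaw (cubeI c b ν) (-((cstar - η) * ν ^ (4 / 3 : ℝ) * b ^ 3)) (V * (1 + ν * b ^ 3)) := by
  sorry

theorem assemble (η : ℝ) (hη : 0 < η) : ∃ L V : ℝ, 0 < L ∧ 0 < V ∧
    ∀ (I : E3 → ℝ) (κ : Type) (s : Finset κ) (c : κ → E3) (b ν : κ → ℝ), Nice I →
      (∀ k ∈ s, 0 < b k) → (∀ k ∈ s, 0 < ν k) → (∀ k ∈ s, L ≤ b k * ν k ^ (1 / 3 : ℝ)) →
      (∀ x, ∑ k ∈ s, cubeI (c k) (b k) (ν k) x ≤ I x) →
      HasLaw I (-(cstar - η) * ∑ k ∈ s, ν k ^ (4 / 3 : ℝ) * b k ^ 3)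
        (V * (1 + ∑ k ∈ s, (1 + ν k * b k ^ 3))) := by sorry

theorem ball_lower (η : ℝ) (hη : 0 < η) : ∃ τ : ℝ, 0 < τ ∧
    ∀ (c : E3) (ρ ν e v : ℝ), 0 < ρ → 0 < ν → τ ≤ ν * ρ ^ 3 → HasLaw (ballI c ρ ν) e v →
      -((cstar + η) * ν ^ (4 / 3 : ℝ) * volume.real (ball (0 : E3) ρ)) ≤ e := by sorry

/-! ## JLA : the law of a randomly shifted configuration (`JLA.lean`) -/

theorem shift_law {κ : Type} [Fintype κ] (R : κ → E3) (w : E3) (lam r : ℝ) (hr : 0 < r)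
    (hrl : r ≤ lam) (hinj : Function.Injective R) (hR : ∀ j, R j ∈ ball w 1) :
    ∃ v : ℝ, HasLaw (ballI 0 r (Fintype.card κ / volume.real (ball w (1 + lam))))
      (1 / 2 * (∑ i, ∑ j, (∫ c, inB c r (R i) * inB c r (R j)) / ‖R i - R j‖) /
          volume.real (ball w (1 + lam))
        - 1 / 2 * (Fintype.card κ / volume.real (ball w (1 + lam))) ^ 2 *
          (∫ x in ball (0 : E3) r, ∫ y in ball (0 : E3) r, 1 / ‖x - y‖)) v := by sorry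

/-! ## JLB : the jellium energy in the unit ball (`JLB.lean`) -/

theorem jell_unit (η : ℝ) (hη : 0 < η) : ∃ C : ℝ, 0 < C ∧
    ∀ (κ : Type) [Fintype κ] (R : κ → E3) (w : E3) (y : ℝ), 0 ≤ y →
      Function.Injective R → (∀ j, R j ∈ ball w 1) →
      -((cstar + η) * y ^ (4 / 3 : ℝ) * volume.real (ball w 1) ^ (-(1 / 3) : ℝ) +
          C * (1 + y)) ≤ Wj 1 y R w 1 := by sorry

/-! ## JL : lower bound for the jellium energy in a ball (`JL.lean`) -/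

theorem jell_lower (z η : ℝ) (hz : 0 < z) (hη : 0 < η) : ∃ C : ℝ, 0 < C ∧
    ∀ (κ : Type) [Fintype κ] (R : κ → E3) (w : E3) (r : ℝ) (n : ℕ), 0 < r →
      Function.Injective R → (∀ j, R j ∈ ball w r) →
      -((z ^ (2 / 3 : ℝ) * cstar + η) * (n : ℝ) ^ (4 / 3 : ℝ) *
          volume.real (ball w r) ^ (-(1 / 3) : ℝ) + C * n / r) ≤ Wj z n R w r := by sorry

/-! ## EXT : from laws to configurations (`Ext.lean`) -/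

theorem extract (g : E3 → ℝ) (hg : Continuous g) (hc : HasCompactSupport g)
    (h0 : ∀ x, 0 ≤ g x) (h1 : ∫ x, g x = 1) : ∃ C : ℝ, 0 < C ∧
    ∀ (K : ℕ) (θ e v : ℝ), 1 ≤ K → 0 < θ → θ < 1 → e ≤ 0 → 0 ≤ v →
      2 * v ≤ (θ * K) ^ 2 → HasLaw (fun x => (1 - θ) * K * g x) e v →
      ∃ R : Fin K → E3, Function.Injective R ∧
        Jb K g R ≤ e + C * (θ ^ 2 * (K : ℝ) ^ 2 + (K : ℝ) ^ (-(2 / 3) : ℝ) * v / θ ^ 2 + 1) := by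
  sorry

/-! ## JU : upper bound for the classical energy in a profile (`JU.lean`) -/

theorem jell_upper (g : E3 → ℝ) (hg : Continuous g) (hc : HasCompactSupport g)
    (h0 : ∀ x, 0 ≤ g x) (h1 : ∫ x, g x = 1) (η : ℝ) (hη : 0 < η) :
    ∃ K₀ : ℕ, ∀ K : ℕ, K₀ ≤ K → ∃ R : Fin K → E3, Function.Injective R ∧
      Jb K g R ≤ -(cstar * (∫ x, g x ^ (4 / 3 : ℝ)) - η) * (K : ℝ) ^ (4 / 3 : ℝ) := by sorry

/-! ## UP : upper bound (`Up.lean`) -/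

theorem upper (z δ : ℝ) (hz : 0 < z) (hδ : 0 < δ) : ∃ N₀ : ℕ, ∀ K N : ℕ, (N : ℝ) = K * z →
    N₀ ≤ N → ∃ (R : Fin K → E3) (ψ : (Fin N → E3) → ℂ), Function.Injective R ∧ IsState ψ ∧
      form z R ψ ≤ -((z ^ (2 / 3 : ℝ) * cstar) ^ 2 * Gam / 4 - δ) * (N : ℝ) ^ (5 / 3 : ℝ) := by
  sorry

/-! ## LOW : lower bound (`Low.lean`) -/

theorem lower (z δ : ℝ) (hz : 0 < z) (hδ : 0 < δ) : ∃ N₀ : ℕ, ∀ K N : ℕ, N₀ ≤ N →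
    ∀ (R : Fin K → E3) (ψ : (Fin N → E3) → ℂ), Function.Injective R → IsState ψ →
      -((z ^ (2 / 3 : ℝ) * cstar) ^ 2 * Gam / 4 + δ) * (N : ℝ) ^ (5 / 3 : ℝ) ≤ form z R ψ := by
  sorry

/-! ## FIN : the limit -/

theorem main (z : ℝ) (hz : 0 < z) : ∃ e : ℝ, ∀ ε : ℝ, 0 < ε → ∃ N₀ : ℕ, ∀ K N : ℕ,
    (N : ℝ) = K * z → N₀ ≤ N →
    (energies z K N).Nonempty ∧ BddBelow (energies z K N) ∧
      |E0 z K N / (N : ℝ) ^ (5 / 3 : ℝ) - e| < ε := by sorry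

end Pool.Agent.H5R2.NL
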